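import Pool.Agent.GJMS.Lie

/-! # Infinitesimal covariance of complete contractions -/

open Finset

namespace GJMS

noncomputable section

variable {n : ℕ} {A : Type*} [CommRing A] [Algebra ℝ A]

/-- a general infinitesimal action on tensors: a derivation plus a matrix acting on each slot -/
def act (V : A → A) (M : Fin n → Fin n → A) {ι : Type*} [Fintype ι] [DecidableEq ι]
    (T : (ι → Fin n) → A) (w : ι → Fin n) : A :=
  V (T w) + ∑ s, ∑ c, M (w s) c * T (Function.update w s c)

section

variable {ι κ : Type*} [Fintype ι] [DecidableEq ι] [Fintype κ] [DecidableEq κ]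

omit [Algebra ℝ A] in
lemma act_reindex (V : A → A) (M : Fin n → Fin n → A) (e : κ ≃ ι) (T : (κ → Fin n) → A)
    (w : ι → Fin n) :
    act V M (fun w : ι → Fin n => T (w ∘ e)) w = act V M T (w ∘ e) := by
  unfold act
  congr 1
  rw [← e.sum_comp]
  refine Finset.sum_congr rfl fun s _ => Finset.sum_congr rfl fun c _ => ?_
  show _ * T _ = _ * T _
  congr 2
  funext x
  simp only [Function.comp]
  by_cases hx : x = s
  · subst hx; simp
  · rw [Function.update_of_ne (fun h => hx (e.injective h)), Function.update_of_ne hx]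
    rfl

lemma act_mul (V : Derivation ℝ A A) (M : Fin n → Fin n → A) (T : (ι → Fin n) → A)
    (S : (κ → Fin n) → A) (w : ι ⊕ κ → Fin n) :
    act V M (fun w : ι ⊕ κ → Fin n => T (fun s => w (Sum.inl s)) * S (fun s => w (Sum.inr s))) w
    = act V M T (fun s => w (Sum.inl s)) * S (fun s => w (Sum.inr s))
      + T (fun s => w (Sum.inl s)) * act V M S (fun s => w (Sum.inr s)) := by
  unfold act
  rw [Fintype.sum_sum_type, Derivation.leibniz]
  have h1 : ∀ (s : ι) (c : Fin n), (fun x => Function.update w (Sum.inl s) c (Sum.inl x))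
      = Function.update (fun x => w (Sum.inl x)) s c := by
    intro s c; funext x
    by_cases hx : x = s
    · subst hx; simp
    · rw [Function.update_of_ne hx, Function.update_of_ne (fun h => hx (Sum.inl_injective h))]
  have h2 : ∀ (s : ι) (c : Fin n), (fun x => Function.update w (Sum.inl s) c (Sum.inr x))
      = (fun x : κ => w (Sum.inr x)) := by
    intro s c; funext x
    rw [Function.update_of_ne (by simp)]
  have h3 : ∀ (s : κ) (c : Fin n), (fun x => Function.update w (Sum.inr s) c (Sum.inr x))
      = Function.update (fun x => w (Sum.inr x)) s c := by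
    intro s c; funext x
    by_cases hx : x = s
    · subst hx; simp
    · rw [Function.update_of_ne hx, Function.update_of_ne (fun h => hx (Sum.inr_injective h))]
  have h4 : ∀ (s : κ) (c : Fin n), (fun x => Function.update w (Sum.inr s) c (Sum.inl x))
      = (fun x : ι => w (Sum.inl x)) := by
    intro s c; funext x
    rw [Function.update_of_ne (by simp)]
  simp only [h1, h2, h3, h4, smul_eq_mul, add_mul, mul_add, Finset.sum_mul, Finset.mul_sum]
  rw [show ∀ x y z u : A, (x + y + (z + u) = y + z + (x + u)) from fun _ _ _ _ => by ring]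
  congr 1
  · congr 1
    · ring
    · exact Finset.sum_congr rfl fun _ _ => Finset.sum_congr rfl fun _ _ => by ring
  · congr 1
    exact Finset.sum_congr rfl fun _ _ => Finset.sum_congr rfl fun _ _ => by ring

end

lemma der_prod {J : Type*} [DecidableEq J] (V : Derivation ℝ A A) (f : J → A) (s : Finset J) :
    V (∏ j ∈ s, f j) = ∑ j ∈ s, V (f j) * ∏ i ∈ s.erase j, f i := by
  induction s using Finset.induction_on with
  | empty => simp
  | insert a s ha ih =>
    rw [Finset.prod_insert ha, Derivation.leibniz, ih, Finset.sum_insert ha,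
      Finset.erase_insert ha, smul_eq_mul, smul_eq_mul, Finset.mul_sum, add_comm, mul_comm]
    congr 1
    refine Finset.sum_congr rfl fun j hj => ?_
    have hja : j ≠ a := fun h => ha (h ▸ hj)
    rw [Finset.erase_insert_of_ne hja.symm, Finset.prod_insert (fun h => ha (Finset.mem_of_mem_erase h))]
    ring

omit [Algebra ℝ A] in
lemma prod_pert {J : Type*} [DecidableEq J] (N : Ideal A) (hN : ∀ x ∈ N, ∀ y ∈ N, x * y = 0)
    (f δ : J → A) (hδ : ∀ j, δ j ∈ N) (s : Finset J) :
    (∏ j ∈ s, (f j + δ j)) = (∏ j ∈ s, f j) + ∑ j ∈ s, δ j * ∏ i ∈ s.erase j, f i := by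
  induction s using Finset.induction_on with
  | empty => simp
  | insert a s ha ih =>
    rw [Finset.prod_insert ha, ih, Finset.prod_insert ha, Finset.sum_insert ha,
      Finset.erase_insert ha]
    have h1 : (∑ j ∈ s, δ j * ∏ i ∈ s.erase j, f i) ∈ N :=
      N.sum_mem fun j _ => N.mul_mem_right _ (hδ j)
    have h2 := hN _ (hδ a) _ h1
    have h3 : (∑ j ∈ s, δ j * ∏ i ∈ (insert a s).erase j, f i)
        = f a * ∑ j ∈ s, δ j * ∏ i ∈ s.erase j, f i := by
      rw [Finset.mul_sum]
      refine Finset.sum_congr rfl fun j hj => ?_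
      have hja : j ≠ a := fun h => ha (h ▸ hj)
      rw [Finset.erase_insert_of_ne hja.symm,
        Finset.prod_insert (fun h => ha (Finset.mem_of_mem_erase h))]
      ring
    rw [h3]
    linear_combination h2

lemma act_sigma {J : Type*} [Fintype J] [DecidableEq J] {σ : J → Type*} [∀ j, Fintype (σ j)]
    [∀ j, DecidableEq (σ j)] (V : Derivation ℝ A A) (M : Fin n → Fin n → A)
    (T : ∀ j, (σ j → Fin n) → A) (w : (Σ j, σ j) → Fin n) :
    act V M (fun w : (Σ j, σ j) → Fin n => ∏ j, T j (fun s => w ⟨j, s⟩)) w
    = ∑ j, act V M (T j) (fun s => w ⟨j, s⟩) * ∏ i ∈ univ.erase j, T i (fun s => w ⟨i, s⟩) := by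
  unfold act
  rw [der_prod]
  simp only [add_mul, Finset.sum_add_distrib]
  congr 1
  rw [Fintype.sum_sigma]
  refine Finset.sum_congr rfl fun j _ => ?_
  rw [Finset.sum_mul]
  refine Finset.sum_congr rfl fun s _ => ?_
  rw [Finset.sum_mul]
  refine Finset.sum_congr rfl fun c _ => ?_
  rw [← Finset.mul_prod_erase univ _ (Finset.mem_univ j), mul_assoc]
  congr 2
  · congr 1
    funext x
    by_cases hx : x = s
    · subst hx; simp
    · rw [Function.update_of_ne hx, Function.update_of_ne]
      intro h
      apply hx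
      simpa using h
  · refine Finset.prod_congr rfl fun i hi => ?_
    congr 1
    funext x
    rw [Function.update_of_ne]
    intro h
    exact (Finset.ne_of_mem_erase hi) (congrArg Sigma.fst h)

omit [Algebra ℝ A] in
/-- the involution `(w, c) ↦ (update w s c, w s)` -/
lemma sum_update {ι : Type*} [Fintype ι] [DecidableEq ι] (s : ι) (F : (ι → Fin n) → Fin n → A) :
    (∑ w, ∑ c, F (Function.update w s c) (w s)) = ∑ w, ∑ c, F w c := by
  rw [← Fintype.sum_prod_type', ← Fintype.sum_prod_type']
  refine Finset.sum_bij' (fun x _ => (Function.update x.1 s x.2, x.1 s))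
    (fun x _ => (Function.update x.1 s x.2, x.1 s)) ?_ ?_ ?_ ?_ ?_
  · intros; simp
  · intros; simp
  · intros; simp
  · intros; simp
  · intros; rfl

lemma act_pair {ι : Type*} [Fintype ι] [DecidableEq ι] (V : Derivation ℝ A A)
    (M : Fin n → Fin n → A) (G T : (ι → Fin n) → A) :
    (∑ w, (act V (fun b c => - M c b) G w * T w + G w * act V M T w)) = V (∑ w, G w * T w) := by
  have h1 : (∑ w, ∑ s, ∑ c, M c (w s) * G (Function.update w s c) * T w)
      = ∑ w, ∑ s, ∑ c, M (w s) c * G w * T (Function.update w s c) := by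
    rw [Finset.sum_comm]
    nth_rewrite 2 [Finset.sum_comm]
    refine Finset.sum_congr rfl fun s _ => ?_
    rw [← sum_update s]
    refine Finset.sum_congr rfl fun w _ => Finset.sum_congr rfl fun c _ => ?_
    simp
  have h2 : ∀ w, (act V (fun b c => - M c b) G w * T w + G w * act V M T w)
      = V (G w * T w) - (∑ s, ∑ c, M c (w s) * G (Function.update w s c) * T w)
        + ∑ s, ∑ c, M (w s) c * G w * T (Function.update w s c) := by
    intro w
    unfold act
    rw [Derivation.leibniz]
    simp only [add_mul, mul_add, Finset.sum_mul, Finset.mul_sum, smul_eq_mul, neg_mul,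
      Finset.sum_neg_distrib]
    have : (∑ s, ∑ c, G w * (M (w s) c * T (Function.update w s c)))
        = ∑ s, ∑ c, M (w s) c * G w * T (Function.update w s c) :=
      Finset.sum_congr rfl fun s _ => Finset.sum_congr rfl fun c _ => by ring
    rw [this]
    ring
  simp_rw [h2, Finset.sum_add_distrib, Finset.sum_sub_distrib, h1]
  rw [map_sum]
  ring

end

end GJMS
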