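import Mathlib

/-!
# Polynomials in vectors of `ℝ^n` and polynomials in their inner products

`L` is the set of names of the vectors, `X (u, i)` the `i`-th coordinate of the vector `u`,
`X s(u, v)` the inner product of `u` and `v`.
-/

open Finset MvPolynomial

namespace GJMS

noncomputable section

/-- `∑ i, u_i v_i` -/
def ip {L : Type} (n : ℕ) (u v : L) : MvPolynomial (L × Fin n) ℝ := ∑ i, X (u, i) * X (v, i)

lemma ip_comm {L : Type} (n : ℕ) (u v : L) : ip n u v = ip n v u := by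
  unfold ip; exact Finset.sum_congr rfl fun i _ => mul_comm _ _

/-- substitution of the inner products for the variables `z_{uv}` -/
def gam {L : Type} (n : ℕ) : MvPolynomial (Sym2 L) ℝ →ₐ[ℝ] MvPolynomial (L × Fin n) ℝ :=
  aeval (Sym2.lift ⟨fun u v => ip n u v, ip_comm n⟩)

/-- the names of the vectors: `inl (a, false)` is `ξ_a`, `inl (a, true)` is `ε_a`,
`inr o` are further vectors of type `ξ`. -/
abbrev Lab (α O : Type) := (α × Bool) ⊕ O

variable {α O : Type}

/-- the vector `ξ_a` -/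
abbrev xi (a : α) : Lab α O := Sum.inl (a, false)
/-- the vector `ε_a` -/
abbrev ep (a : α) : Lab α O := Sum.inl (a, true)
/-- the vector `ξ_o` -/
abbrev ex (o : O) : Lab α O := Sum.inr o

/-- the operator `v · ∂_u` -/
def RR {L : Type} (n : ℕ) (u v : L) (Q : MvPolynomial (L × Fin n) ℝ) : MvPolynomial (L × Fin n) ℝ :=
  ∑ i, X (v, i) * pderiv (u, i) Q

/-- the operator `∂_u · ∂_v` -/
def LL {L : Type} (n : ℕ) (u v : L) (Q : MvPolynomial (L × Fin n) ℝ) : MvPolynomial (L × Fin n) ℝ :=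
  ∑ i, pderiv (u, i) (pderiv (v, i) Q)

/-- the special conformal operator with index `m` on the label `a`
(symmetric tensor waves `ε_a ε_a e^{ξ_a x}`) -/
def KA (n : ℕ) (m : Fin n) (a : α) (Q : MvPolynomial (Lab α O × Fin n) ℝ) :
    MvPolynomial (Lab α O × Fin n) ℝ :=
  X (xi a, m) * LL n (xi a) (xi a) Q - 2 * RR n (xi a) (xi a) (pderiv (xi a, m) Q)
    + 2 * (X (ep a, m) * LL n (xi a) (ep a) Q) - 2 * RR n (xi a) (ep a) (pderiv (ep a, m) Q)

/-- the special conformal operator with index `m` on the label `o` (function waves `e^{ξ_o x}`) -/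
def KO (n : ℕ) (m : Fin n) (o : O) (Q : MvPolynomial (Lab α O × Fin n) ℝ) :
    MvPolynomial (Lab α O × Fin n) ℝ :=
  X (ex o, m) * LL n (ex o) (ex o) Q - 2 * RR n (ex o) (ex o) (pderiv (ex o, m) Q)

/-- the special conformal operator with index `m` -/
def KK [Fintype α] [Fintype O] (n : ℕ) (m : Fin n) (Q : MvPolynomial (Lab α O × Fin n) ℝ) :
    MvPolynomial (Lab α O × Fin n) ℝ := ∑ a : α, KA n m a Q + ∑ o : O, KO n m o Q

/-- the degree in the vector `u` of a monomial -/
def ldeg {L : Type} {n : ℕ} (u : L) (d : L × Fin n →₀ ℕ) : ℕ := ∑ i, d (u, i)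

/-- all the conditions on the symbol `Q` -/
structure SymbolData [Fintype α] [Fintype O] (n : ℕ) (Q : MvPolynomial (Lab α O × Fin n) ℝ) :
    Prop where
  /-- `Q` is a polynomial in the inner products -/
  gram : Q ∈ (gam n).range
  /-- gauge invariance -/
  gauge : ∀ a, RR n (ep a) (xi a) Q = 0
  /-- trace condition -/
  trace : ∀ a, LL n (ep a) (ep a) Q = 0
  /-- special conformal invariance -/
  conf : ∀ m, KK n m Q = 0
  /-- `Q` is quadratic in each `ε_a` -/
  degEp : ∀ d ∈ Q.support, ∀ a, ldeg (ep a) d = 2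
  /-- `Q` has total degree `n` in all the `ξ`'s -/
  degXi : ∀ d ∈ Q.support, ∑ a, ldeg (xi a) d + ∑ o, ldeg (ex o) d = n
  /-- `Q` vanishes at the generic on-shell complex vectors -/
  shell : ∀ x : Lab α O × Fin n → ℂ,
    (∀ a, ∑ i, x (xi a, i) * x (xi a, i) = 0 ∧ ∑ i, x (xi a, i) * x (ep a, i) = 0 ∧
      ∑ i, x (ep a, i) * x (ep a, i) = 0) →
    (∀ S : Finset α, 2 ≤ S.card → ∑ i, (∑ a ∈ S, x (xi a, i)) * (∑ a ∈ S, x (xi a, i)) ≠ 0) →
    aeval x Q = 0

end

end GJMS
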