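import Mathlib
import Pool.Agent.GJMS.GramDefs

/-!
# Polynomials in inner products: chain rule, injectivity of `gam`, splitting
-/

open Finset MvPolynomial

namespace GJMS

noncomputable section

variable {L : Type} [Fintype L] [DecidableEq L] {n : ℕ}

/-- `∂/∂z_{uv}`, doubled on the diagonal -/
def dz (u v : L) : Derivation ℝ (MvPolynomial (Sym2 L) ℝ) (MvPolynomial (Sym2 L) ℝ) :=
  (if u = v then (2 : ℝ) else 1) • pderiv s(u, v)

omit [Fintype L] in
lemma dz_apply (u v : L) (F : MvPolynomial (Sym2 L) ℝ) :
    dz u v F = (if u = v then (2 : ℝ) else 1) • pderiv s(u, v) F := rfl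

omit [Fintype L] in
lemma dz_comm (u v : L) : dz u v = dz v u := by
  unfold dz
  rw [Sym2.eq_swap]
  by_cases h : u = v
  · subst h; rfl
  · rw [if_neg h, if_neg (Ne.symm h)]

omit [Fintype L] in
lemma dz_dz_comm (u v u' v' : L) (F : MvPolynomial (Sym2 L) ℝ) :
    dz u v (dz u' v' F) = dz u' v' (dz u v F) := by
  simp only [dz_apply, Derivation.map_smul]
  rw [smul_comm]
  congr 2
  ext d
  simp only [coeff_pderiv]
  by_cases h : s(u, v) = s(u', v')
  · rw [h]
  · rw [add_right_comm]
    simp [Finsupp.single_apply, h, Ne.symm h]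
    ring

omit [Fintype L] in
lemma gam_X (a b : L) : gam n (X s(a, b)) = ip n a b := by
  simp [gam]

omit [Fintype L] in
lemma dz_X (u w a b : L) : dz u w (X s(a, b) : MvPolynomial (Sym2 L) ℝ) =
    if s(a, b) = s(u, w) then C (if u = w then (2 : ℝ) else 1) else 0 := by
  rw [dz_apply, pderiv_X]
  by_cases h : s(a, b) = s(u, w)
  · rw [if_pos h, h]; simp only [Pi.single_eq_same, MvPolynomial.smul_eq_C_mul, mul_one]
  · rw [if_neg h, Pi.single_eq_of_ne (Ne.symm (Ne.symm h))]; simp

lemma pderiv_ip (u a b : L) (m : Fin n) :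
    pderiv (u, m) (ip n a b) = (if u = b then X (a, m) else 0) + (if u = a then X (b, m) else 0) := by
  unfold ip
  rw [map_sum]
  simp only [Derivation.leibniz, smul_eq_mul, pderiv_X]
  rw [Finset.sum_add_distrib]
  congr 1
  · by_cases h : u = b
    · subst h
      rw [Finset.sum_eq_single m]
      · simp
      · intro i _ hi
        rw [Pi.single_eq_of_ne]; · simp
        intro h; exact hi (by simpa using (congrArg Prod.snd h))
      · simp
    · rw [if_neg h]
      apply Finset.sum_eq_zero
      intro i _
      rw [Pi.single_eq_of_ne]; · simp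
      intro h'; exact h (by simpa using (congrArg Prod.fst h').symm)
  · by_cases h : u = a
    · subst h
      rw [Finset.sum_eq_single m]
      · simp
      · intro i _ hi
        rw [Pi.single_eq_of_ne]; · simp
        intro h; exact hi (by simpa using (congrArg Prod.snd h))
      · simp
    · rw [if_neg h]
      apply Finset.sum_eq_zero
      intro i _
      rw [Pi.single_eq_of_ne]; · simp
      intro h'; exact h (by simpa using (congrArg Prod.fst h').symm)

lemma sum_dz_X (u a b : L) (m : Fin n) :
    ∑ w, X (w, m) * gam n (dz u w (X s(a, b))) =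
      (if u = b then X (a, m) else 0) + (if u = a then X (b, m) else 0) := by
  simp only [dz_X]
  by_cases hab : a = b
  · subst hab
    by_cases hu : u = a
    · subst hu
      rw [Finset.sum_eq_single u]
      · simp only [if_true, gam, algHom_C, algebraMap_eq, if_pos rfl]
        rw [show (C 2 : MvPolynomial (L × Fin n) ℝ) = 2 from rfl]; ring
      · intro w _ hw
        rw [if_neg]; · simp
        simp [Ne.symm hw]
      · simp
    · simp only [if_neg hu]
      rw [Finset.sum_eq_zero]; · simp
      intro w _
      rw [if_neg]; · simp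
      rw [Sym2.eq_iff]
      rintro (⟨h1, h2⟩ | ⟨h1, h2⟩)
      · exact hu h1.symm
      · exact hu h2.symm
  · by_cases hu : u = a
    · subst hu
      rw [Finset.sum_eq_single b]
      · simp [gam, hab]
      · intro w _ hw
        rw [if_neg]; · simp
        rw [Sym2.eq_iff]
        rintro (⟨h1, h2⟩ | ⟨h1, h2⟩)
        · exact hw h2.symm
        · exact hab h2.symm
      · simp
    · by_cases hu' : u = b
      · subst hu'
        rw [Finset.sum_eq_single a]
        · rw [if_pos (Sym2.eq_swap), if_neg hu, if_pos rfl, if_neg hu]; simp [gam]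
        · intro w _ hw
          rw [if_neg]; · simp
          rw [Sym2.eq_iff]
          rintro (⟨h1, h2⟩ | ⟨h1, h2⟩)
          · exact hab h1
          · exact hw h1.symm
        · simp
      · rw [if_neg hu, if_neg hu']
        rw [Finset.sum_eq_zero]; · simp
        intro w _
        rw [if_neg]; · simp
        rw [Sym2.eq_iff]
        rintro (⟨h1, h2⟩ | ⟨h1, h2⟩)
        · exact hu h1.symm
        · exact hu' h2.symm

/-- chain rule -/
theorem pderiv_gam (u : L) (m : Fin n) (F : MvPolynomial (Sym2 L) ℝ) :
    pderiv (u, m) (gam n F) = ∑ w, X (w, m) * gam n (dz u w F) := by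
  induction F using MvPolynomial.induction_on with
  | C r => simp [gam]
  | add p q hp hq =>
    simp only [map_add, hp, hq, mul_add, Finset.sum_add_distrib]
  | mul_X p s hp =>
    induction s using Sym2.ind with
    | _ a b =>
      rw [map_mul, Derivation.leibniz, hp, gam_X, pderiv_ip, ← sum_dz_X]
      simp only [Derivation.leibniz, map_add, smul_eq_mul, map_mul, gam_X, mul_add,
        Finset.sum_add_distrib, Finset.mul_sum]
      congr 1
      · exact Finset.sum_congr rfl fun w _ => by ring
      · exact Finset.sum_congr rfl fun w _ => by ring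

/-- `v · ∂_u` in terms of the inner products -/
def Rop (u v : L) (F : MvPolynomial (Sym2 L) ℝ) : MvPolynomial (Sym2 L) ℝ :=
  ∑ w, X s(v, w) * dz u w F

/-- the Laplacian `∂_u · ∂_v` in terms of the inner products -/
def LapF (n : ℕ) (u v : L) (F : MvPolynomial (Sym2 L) ℝ) : MvPolynomial (Sym2 L) ℝ :=
  (n : ℝ) • dz v u F + ∑ w, ∑ w', X s(w, w') * dz u w' (dz v w F)

theorem RR_gam (u v : L) (F : MvPolynomial (Sym2 L) ℝ) :
    RR n u v (gam n F) = gam n (Rop u v F) := by
  unfold RR Rop
  simp only [pderiv_gam, Finset.mul_sum, map_sum, map_mul, gam_X]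
  rw [Finset.sum_comm]
  refine Finset.sum_congr rfl fun w _ => ?_
  unfold ip
  rw [Finset.sum_mul]
  exact Finset.sum_congr rfl fun i _ => by ring

lemma pderiv_X_mul_gam (u w : L) (m i : Fin n) (G : MvPolynomial (Sym2 L) ℝ) :
    pderiv (u, i) (X (w, m) * gam n G) =
      (if (w, m) = (u, i) then gam n G else 0) + X (w, m) * pderiv (u, i) (gam n G) := by
  rw [Derivation.leibniz, smul_eq_mul, smul_eq_mul, pderiv_X, add_comm]
  congr 1
  by_cases h : (w, m) = (u, i)
  · rw [if_pos h, h]; simp
  · rw [if_neg h, Pi.single_eq_of_ne h]; simp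

theorem LL_gam (u v : L) (F : MvPolynomial (Sym2 L) ℝ) :
    LL n u v (gam n F) = gam n (LapF n u v F) := by
  unfold LL LapF
  simp only [pderiv_gam v, map_sum, pderiv_X_mul_gam, Finset.sum_add_distrib]
  rw [map_add]
  congr 1
  · have : ∀ i : Fin n, (∑ w, if (w, i) = (u, i) then gam n (dz v w F) else 0) = gam n (dz v u F) := by
      intro i
      rw [Finset.sum_eq_single u]
      · simp
      · intro w _ hw; rw [if_neg]; intro h; exact hw (congrArg Prod.fst h)
      · simp
    simp only [this, Finset.sum_const, Finset.card_univ, Fintype.card_fin, map_smul]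
    rw [← Nat.cast_smul_eq_nsmul ℝ]
  · simp only [map_sum]
    rw [Finset.sum_comm]
    refine Finset.sum_congr rfl fun w _ => ?_
    have : ∀ i : Fin n, X (w, i) * pderiv (u, i) (gam n (dz v w F)) =
        ∑ w', (X (w, i) * X (w', i)) * gam n (dz u w' (dz v w F)) := by
      intro i
      rw [pderiv_gam, Finset.mul_sum]
      exact Finset.sum_congr rfl fun w' _ => by ring
    simp only [this]
    rw [Finset.sum_comm]
    refine Finset.sum_congr rfl fun w' _ => ?_
    rw [← Finset.sum_mul, map_mul, gam_X]; rfl

theorem RR_X_mul_gam (u v w : L) (m : Fin n) (G : MvPolynomial (Sym2 L) ℝ) :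
    RR n u v (X (w, m) * gam n G) =
      (if w = u then X (v, m) * gam n G else 0) + X (w, m) * gam n (Rop u v G) := by
  rw [← RR_gam]
  unfold RR
  simp only [pderiv_X_mul_gam, mul_add, Finset.sum_add_distrib, Finset.mul_sum]
  have h1 : (∑ i : Fin n, X (v, i) * (if (w, m) = (u, i) then gam n G else 0) :
      MvPolynomial (L × Fin n) ℝ) = if w = u then X (v, m) * gam n G else 0 := by
    by_cases h : w = u
    · subst h
      rw [if_pos rfl, Finset.sum_eq_single m]
      · simp
      · intro i _ hi; rw [if_neg]; · simp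
        intro h; exact hi (congrArg Prod.snd h).symm
      · simp
    · rw [if_neg h]
      apply Finset.sum_eq_zero
      intro i _
      rw [if_neg]; · simp
      intro h'; exact h (congrArg Prod.fst h')
  rw [h1]
  congr 1
  exact Finset.sum_congr rfl fun i _ => by ring

end

end GJMS
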