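import Mathlib
import Pool.Agent.GJMS.AlgBase

/-!
# Injectivity of `gam` and splitting along the vectors
-/

open Finset MvPolynomial

namespace GJMS

noncomputable section

variable {L : Type} [Fintype L] [DecidableEq L] {n : ℕ}

/-- every complex symmetric matrix is the Gram matrix of vectors of `ℂ^n`, `card L ≤ n` -/
theorem exists_gram (hn : Fintype.card L ≤ n) (Z : L → L → ℂ) (hZ : ∀ u v, Z u v = Z v u) :
    ∃ V : L × Fin n → ℂ, ∀ u v, ∑ i, V (u, i) * V (v, i) = Z u v := by
  set B : LinearMap.BilinForm ℂ (L → ℂ) := Matrix.toBilin' (Matrix.of Z) with hB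
  have hBs : LinearMap.BilinForm.IsSymm B := by
    rw [hB, Matrix.isSymm_toBilin'_iff_isSymm]
    ext u v
    simp [Matrix.transpose_apply, hZ u v]
  have hBe : ∀ u v, B (Pi.single u 1) (Pi.single v 1) = Z u v := by
    intro u v; simp [hB, Matrix.toBilin'_single]
  letI : Invertible (2 : ℂ) := invertibleOfNonzero two_ne_zero
  obtain ⟨d, hd, b, hbo⟩ : ∃ d, d = Fintype.card L ∧ ∃ b : Module.Basis (Fin d) ℂ (L → ℂ),
      ∀ i j, i ≠ j → B (b i) (b j) = 0 := by
    obtain ⟨b, hb⟩ := LinearMap.BilinForm.exists_orthogonal_basis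
      (LinearMap.BilinForm.isSymm_iff.1 hBs)
    exact ⟨_, Module.finrank_fintype_fun_eq_card ℂ, b,
      fun i j h => LinearMap.isOrthoᵢ_def.1 hb i j h⟩
  clear_value B
  choose s hs using fun i : Fin d => IsAlgClosed.exists_pow_nat_eq (B (b i) (b i)) (n := 2) (by norm_num)
  have hW : ∀ u v : L, ∑ i : Fin d, (b.repr (Pi.single u 1) i * s i) * (b.repr (Pi.single v 1) i * s i)
      = Z u v := by
    intro u v
    rw [← hBe u v]
    conv_rhs => rw [← b.sum_repr (Pi.single u 1), ← b.sum_repr (Pi.single v 1)]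
    simp only [map_sum, LinearMap.sum_apply, map_smul, LinearMap.smul_apply, smul_eq_mul]
    refine Finset.sum_congr rfl fun i _ => ?_
    rw [Finset.sum_eq_single i]
    · rw [← hs i]; ring
    · intro j _ hj
      rw [hbo j i hj]; ring
    · simp
  obtain ⟨e, rfl⟩ : ∃ e, n = d + e := ⟨n - d, by omega⟩
  refine ⟨fun p => if h : p.2.1 < d then b.repr (Pi.single p.1 1) ⟨p.2.1, h⟩ * s ⟨p.2.1, h⟩ else 0, ?_⟩
  intro u v
  rw [Fin.sum_univ_add, ← hW u v]
  rw [show (∑ i : Fin e, _) = (0 : ℂ) from Finset.sum_eq_zero fun i _ => by simp]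
  rw [add_zero]
  exact Finset.sum_congr rfl fun i _ => by simp

/-- evaluating `gam F` at vectors is evaluating `F` at their Gram matrix -/
theorem aeval_gam {A : Type} [CommRing A] [Algebra ℝ A] (x : L × Fin n → A)
    (F : MvPolynomial (Sym2 L) ℝ) (y : Sym2 L → A)
    (hy : ∀ u v, ∑ i, x (u, i) * x (v, i) = y s(u, v)) :
    aeval x (gam n F) = aeval y F := by
  have : (aeval x).comp (gam n) = (aeval y : MvPolynomial (Sym2 L) ℝ →ₐ[ℝ] A) := by
    apply MvPolynomial.algHom_ext
    intro s
    induction s using Sym2.ind with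
    | _ a b =>
      rw [AlgHom.comp_apply, gam_X, aeval_X, ← hy a b]
      simp [ip]
  rw [← this]; rfl

theorem exists_vec (hn : Fintype.card L ≤ n) (y : Sym2 L → ℂ) :
    ∃ x : L × Fin n → ℂ, ∀ u v, ∑ i, x (u, i) * x (v, i) = y s(u, v) := by
  obtain ⟨V, hV⟩ := exists_gram hn (fun u v => y s(u, v)) (fun u v => by rw [Sym2.eq_swap])
  exact ⟨V, hV⟩

theorem gam_injective (hn : Fintype.card L ≤ n) :
    Function.Injective (gam n : MvPolynomial (Sym2 L) ℝ → MvPolynomial (L × Fin n) ℝ) := by
  rw [injective_iff_map_eq_zero]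
  intro F hF
  apply MvPolynomial.funext
  intro y
  obtain ⟨x, hx⟩ := exists_vec hn (fun s => (y s : ℂ))
  have h1 := aeval_gam x F (fun s => (y s : ℂ)) hx
  rw [hF, map_zero] at h1
  have h2 : aeval (fun s => ((y s : ℝ) : ℂ)) F = ((eval y F : ℝ) : ℂ) := by
    have := MvPolynomial.aeval_algebraMap_apply ℂ y F
    simpa [MvPolynomial.aeval_eq_eval, Function.comp_def] using this
  rw [h2] at h1
  rw [map_zero]
  exact_mod_cast h1.symm

/-- splitting along the vectors -/
theorem split (hn : Fintype.card L ≤ n) (K : L → MvPolynomial (Sym2 L) ℝ)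
    (hK : ∀ m : Fin n, ∑ w, X (w, m) * gam n (K w) = 0) : ∀ w, K w = 0 := by
  have h1 : ∀ u, ∑ w, X s(u, w) * K w = 0 := by
    intro u
    apply gam_injective hn
    rw [map_zero, map_sum]
    simp only [map_mul, gam_X, ip, Finset.sum_mul]
    rw [Finset.sum_comm]
    apply Finset.sum_eq_zero
    intro m _
    have := congrArg (fun t => X (u, m) * t) (hK m)
    simp only [Finset.mul_sum, mul_zero] at this
    rw [← this]
    exact Finset.sum_congr rfl fun w _ => by ring
  set M : Matrix L L (MvPolynomial (Sym2 L) ℝ) := Matrix.of fun u w => X s(u, w) with hM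
  have hdet : M.det ≠ 0 := by
    intro h0
    have h2 := congrArg (eval (fun s : Sym2 L => if s.IsDiag then (1 : ℝ) else 0)) h0
    rw [map_zero, RingHom.map_det] at h2
    have : (eval (fun s : Sym2 L => if s.IsDiag then (1 : ℝ) else 0)).mapMatrix M = 1 := by
      ext u w
      simp [hM, Matrix.one_apply]
    rw [this, Matrix.det_one] at h2
    exact one_ne_zero h2
  have h3 := Matrix.eq_zero_of_mulVec_eq_zero hdet (v := K) (by
    ext1 u
    have := h1 u
    simpa [Matrix.mulVec, dotProduct, hM] using this)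
  intro w
  exact congrFun h3 w

end

end GJMS
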