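import Mathlib
import Pool.Agent.GJMS.AlgGram

/-!
# Degrees in the vectors
-/

open Finset MvPolynomial

namespace GJMS

noncomputable section

variable {L : Type} [Fintype L] [DecidableEq L] {n : ℕ}

/-- multiplicity of `u` in an unordered pair -/
def mult (u : L) (s : Sym2 L) : ℕ :=
  Sym2.lift ⟨fun a b => (if a = u then 1 else 0) + (if b = u then 1 else 0),
    fun _ _ => add_comm _ _⟩ s

omit [Fintype L] in
@[simp] lemma mult_mk (u a b : L) :
    mult u s(a, b) = (if a = u then 1 else 0) + (if b = u then 1 else 0) := rfl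

/-- the degree in the vector `u` of a monomial in the inner products -/
def vdeg (u : L) (ν : Sym2 L →₀ ℕ) : ℕ := ∑ s, ν s * mult u s

/-- weights for the coordinates -/
def WX (n : ℕ) : L × Fin n → (L → ℕ) := fun p => Pi.single p.1 1

/-- weights for the inner products -/
def WZ : Sym2 L → (L → ℕ) := fun s u => mult u s

lemma weight_WX (d : L × Fin n →₀ ℕ) (u : L) : Finsupp.weight (WX n) d u = ldeg u d := by
  rw [Finsupp.weight_eq_sum, Finset.sum_apply, Fintype.sum_prod_type]
  unfold ldeg WX
  rw [Finset.sum_eq_single u]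
  · simp
  · intro v _ hv
    simp [Ne.symm hv]
  · simp

lemma weight_WZ (ν : Sym2 L →₀ ℕ) (u : L) : Finsupp.weight WZ ν u = vdeg u ν := by
  rw [Finsupp.weight_eq_sum, Finset.sum_apply]
  unfold vdeg WZ
  simp

omit [Fintype L] in
lemma ip_homog (a b : L) : IsWeightedHomogeneous (WX n) (ip n a b) (WZ s(a, b)) := by
  unfold ip
  refine (weightedHomogeneousSubmodule ℝ (WX n) (WZ s(a, b))).sum_mem fun i _ => ?_
  rw [mem_weightedHomogeneousSubmodule]
  have h : (WZ s(a, b) : L → ℕ) = WX n (a, i) + WX n (b, i) := by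
    ext u
    simp [WZ, WX, Pi.single_apply, eq_comm]
  rw [h]
  exact (isWeightedHomogeneous_X ℝ (WX n) (a, i)).mul (isWeightedHomogeneous_X ℝ (WX n) (b, i))

omit [Fintype L] in
lemma gam_monomial_homog (ν : Sym2 L →₀ ℕ) (c : ℝ) :
    IsWeightedHomogeneous (WX n) (gam n (monomial ν c)) (Finsupp.weight WZ ν) := by
  rw [monomial_eq, map_mul, Finsupp.prod, map_prod]
  have h1 : gam n (C c : MvPolynomial (Sym2 L) ℝ) = C c := by simp [gam]
  rw [h1]
  apply IsWeightedHomogeneous.C_mul
  rw [Finsupp.weight_apply, Finsupp.sum]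
  apply IsWeightedHomogeneous.prod
  intro s _
  rw [map_pow]
  apply IsWeightedHomogeneous.pow
  induction s using Sym2.ind with
  | _ a b => rw [gam_X]; exact ip_homog a b

omit [Fintype L] in
lemma gam_component (D : L → ℕ) (F : MvPolynomial (Sym2 L) ℝ) :
    gam n (weightedHomogeneousComponent WZ D F) =
      weightedHomogeneousComponent (WX n) D (gam n F) := by
  induction F using MvPolynomial.induction_on' with
  | monomial ν c =>
    by_cases h : D = Finsupp.weight WZ ν
    · subst h
      rw [(isWeightedHomogeneous_monomial WZ ν c rfl).weightedHomogeneousComponent_same,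
        (gam_monomial_homog ν c).weightedHomogeneousComponent_same]
    · rw [(isWeightedHomogeneous_monomial WZ ν c rfl).weightedHomogeneousComponent_ne D h,
        (gam_monomial_homog ν c).weightedHomogeneousComponent_ne D h, map_zero]
  | add p q hp hq => simp only [map_add, hp, hq]

/-- degrees transfer from `gam F` to `F` -/
theorem exists_deg (hn : Fintype.card L ≤ n) (F : MvPolynomial (Sym2 L) ℝ) (ν : Sym2 L →₀ ℕ)
    (hν : ν ∈ F.support) : ∃ d ∈ (gam n F).support, ∀ u, ldeg u d = vdeg u ν := by
  set D : L → ℕ := Finsupp.weight WZ ν with hD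
  have h1 : weightedHomogeneousComponent WZ D F ≠ 0 := by
    intro h
    have h2 := congrArg (coeff ν) h
    rw [coeff_weightedHomogeneousComponent, if_pos rfl, coeff_zero] at h2
    exact (mem_support_iff.1 hν) h2
  have h3 : weightedHomogeneousComponent (WX n) D (gam n F) ≠ 0 := by
    rw [← gam_component]
    intro h
    exact h1 (gam_injective hn (by rw [h, map_zero]))
  obtain ⟨d, hd⟩ := MvPolynomial.support_nonempty.2 h3
  rw [support_weightedHomogeneousComponent, Finset.mem_filter] at hd
  refine ⟨d, hd.1, fun u => ?_⟩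
  rw [← weight_WX, ← weight_WZ, hd.2]

end

end GJMS
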