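import Mathlib
import Pool.Agent.GJMS.AlgDeg

/-!
# The lowest part in the on-shell variables
-/

open Finset MvPolynomial

namespace GJMS

noncomputable section

variable {α O : Type} [Fintype α] [DecidableEq α] [Fintype O] [DecidableEq O] {n : ℕ}

/-- `ξ_a·ξ_a` -/
abbrev qv (a : α) : Sym2 (Lab α O) := s(xi a, xi a)
/-- `ξ_a·ε_a` -/
abbrev pv (a : α) : Sym2 (Lab α O) := s(xi a, ep a)
/-- `ε_a·ε_a` -/
abbrev ev (a : α) : Sym2 (Lab α O) := s(ep a, ep a)

/-- the on-shell variables -/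
def Om : Finset (Sym2 (Lab α O)) := by
  classical exact univ.filter fun s => ∃ a : α, s = qv a ∨ s = pv a ∨ s = ev a

lemma mem_Om (s : Sym2 (Lab α O)) : s ∈ (Om : Finset (Sym2 (Lab α O))) ↔
    ∃ a : α, s = qv a ∨ s = pv a ∨ s = ev a := by
  classical simp [Om]

/-- the degree in the on-shell variables -/
def om (ν : Sym2 (Lab α O) →₀ ℕ) : ℕ := ∑ s ∈ Om, ν s

lemma om_add (ν μ : Sym2 (Lab α O) →₀ ℕ) : om (ν + μ) = om ν + om μ := by
  simp [om, Finset.sum_add_distrib]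

lemma om_single_of_mem {s : Sym2 (Lab α O)} (h : s ∈ (Om : Finset (Sym2 (Lab α O)))) :
    om (Finsupp.single s 1) = 1 := by
  classical
  simp [om, Finsupp.single_apply, h]

lemma om_single_of_notMem {s : Sym2 (Lab α O)} (h : s ∉ (Om : Finset (Sym2 (Lab α O)))) :
    om (Finsupp.single s 1) = 0 := by
  classical
  simp [om, Finsupp.single_apply, h]

lemma om_single_le (s : Sym2 (Lab α O)) : om (Finsupp.single s 1) ≤ 1 := by
  by_cases h : s ∈ (Om : Finset (Sym2 (Lab α O)))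
  · rw [om_single_of_mem h]
  · rw [om_single_of_notMem h]; exact Nat.zero_le _

lemma xi_mem_Om (a : α) (w : Lab α O) :
    s(xi a, w) ∈ (Om : Finset (Sym2 (Lab α O))) ↔ w = xi a ∨ w = ep a := by
  rw [mem_Om]
  constructor
  · rintro ⟨b, h | h | h⟩
    · rw [Sym2.eq_iff] at h
      rcases h with ⟨h1, h2⟩ | ⟨h1, h2⟩ <;> left <;> rw [h2, ← h1]
    · rw [Sym2.eq_iff] at h
      rcases h with ⟨h1, h2⟩ | ⟨h1, h2⟩
      · right; rw [h2]; simp at h1; rw [h1]
      · simp at h1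
    · rw [Sym2.eq_iff] at h
      simp at h
  · rintro (rfl | rfl)
    · exact ⟨a, Or.inl rfl⟩
    · exact ⟨a, Or.inr (Or.inl rfl)⟩

lemma ep_mem_Om (a : α) (w : Lab α O) :
    s(ep a, w) ∈ (Om : Finset (Sym2 (Lab α O))) ↔ w = xi a ∨ w = ep a := by
  rw [mem_Om]
  constructor
  · rintro ⟨b, h | h | h⟩
    · rw [Sym2.eq_iff] at h
      simp at h
    · rw [Sym2.eq_iff] at h
      rcases h with ⟨h1, h2⟩ | ⟨h1, h2⟩
      · simp at h1
      · left; rw [h2]; simp at h1; rw [h1]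
    · rw [Sym2.eq_iff] at h
      rcases h with ⟨h1, h2⟩ | ⟨h1, h2⟩ <;> right <;> rw [h2, ← h1]
  · rintro (rfl | rfl)
    · exact ⟨a, Or.inr (Or.inl Sym2.eq_swap)⟩
    · exact ⟨a, Or.inr (Or.inr rfl)⟩

lemma ex_notMem_Om (o : O) (w : Lab α O) :
    s(ex o, w) ∉ (Om : Finset (Sym2 (Lab α O))) := by
  rw [mem_Om]
  rintro ⟨b, h | h | h⟩ <;> rw [Sym2.eq_iff] at h <;> simp at h

/-- polynomials all of whose monomials have on-shell degree at least `r` -/
def II (r : ℕ) : Submodule ℝ (MvPolynomial (Sym2 (Lab α O)) ℝ) where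
  carrier := {G | ∀ μ, om μ < r → coeff μ G = 0}
  zero_mem' := fun μ _ => by simp
  add_mem' := fun {a b} ha hb μ hμ => by rw [coeff_add, ha μ hμ, hb μ hμ, add_zero]
  smul_mem' := fun c a ha μ hμ => by rw [coeff_smul, ha μ hμ, smul_zero]

lemma mem_II {r : ℕ} {G : MvPolynomial (Sym2 (Lab α O)) ℝ} :
    G ∈ (II r : Submodule ℝ (MvPolynomial (Sym2 (Lab α O)) ℝ)) ↔ ∀ μ, om μ < r → coeff μ G = 0 :=
  Iff.rfl

lemma coeff_X_mul_eq_zero {σ : Type} (s : σ) (G : MvPolynomial σ ℝ) (μ : σ →₀ ℕ)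
    (h : ∀ κ, μ = κ + Finsupp.single s 1 → coeff κ G = 0) : coeff μ (X s * G) = 0 := by
  classical
  rw [coeff_X_mul']
  split_ifs with hs
  · apply h
    rw [tsub_add_cancel_of_le]
    rw [Finsupp.single_le_iff]
    exact Nat.one_le_iff_ne_zero.2 (Finsupp.mem_support_iff.1 hs)
  · rfl

lemma X_mul_mem {r : ℕ} {G : MvPolynomial (Sym2 (Lab α O)) ℝ} (s : Sym2 (Lab α O))
    (hG : G ∈ (II r : Submodule ℝ (MvPolynomial (Sym2 (Lab α O)) ℝ))) : X s * G ∈ II r := by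
  intro μ hμ
  apply coeff_X_mul_eq_zero
  rintro κ rfl
  apply hG
  rw [om_add] at hμ
  omega

lemma X_mul_mem_succ {r : ℕ} {G : MvPolynomial (Sym2 (Lab α O)) ℝ} {s : Sym2 (Lab α O)}
    (hs : s ∈ (Om : Finset (Sym2 (Lab α O))))
    (hG : G ∈ (II r : Submodule ℝ (MvPolynomial (Sym2 (Lab α O)) ℝ))) : X s * G ∈ II (r + 1) := by
  intro μ hμ
  apply coeff_X_mul_eq_zero
  rintro κ rfl
  apply hG
  rw [om_add, om_single_of_mem hs] at hμ
  omega

lemma dz_mem_pred {r : ℕ} {G : MvPolynomial (Sym2 (Lab α O)) ℝ} (u v : Lab α O)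
    (hG : G ∈ (II r : Submodule ℝ (MvPolynomial (Sym2 (Lab α O)) ℝ))) : dz u v G ∈ II (r - 1) := by
  rw [dz_apply]
  apply Submodule.smul_mem
  intro μ hμ
  rw [coeff_pderiv, hG, zero_mul]
  rw [om_add]
  have := om_single_le (s(u, v) : Sym2 (Lab α O))
  omega

lemma dz_mem {r : ℕ} {G : MvPolynomial (Sym2 (Lab α O)) ℝ} {u v : Lab α O}
    (h : s(u, v) ∉ (Om : Finset (Sym2 (Lab α O))))
    (hG : G ∈ (II r : Submodule ℝ (MvPolynomial (Sym2 (Lab α O)) ℝ))) : dz u v G ∈ II r := by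
  rw [dz_apply]
  apply Submodule.smul_mem
  intro μ hμ
  rw [coeff_pderiv, hG, zero_mul]
  rw [om_add, om_single_of_notMem h]
  omega

lemma X_dz_mem {r : ℕ} {G : MvPolynomial (Sym2 (Lab α O)) ℝ} {s : Sym2 (Lab α O)} {u v : Lab α O}
    (h : s(u, v) ∈ (Om : Finset (Sym2 (Lab α O))) → s ∈ (Om : Finset (Sym2 (Lab α O))))
    (hG : G ∈ (II r : Submodule ℝ (MvPolynomial (Sym2 (Lab α O)) ℝ))) : X s * dz u v G ∈ II r := by
  by_cases hs : s(u, v) ∈ (Om : Finset (Sym2 (Lab α O)))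
  · have h1 := X_mul_mem_succ (h hs) (dz_mem_pred u v hG)
    intro μ hμ
    exact h1 μ (by omega)
  · exact X_mul_mem s (dz_mem hs hG)

/-! ## the equations for `F` -/

/-- the `ξ_c` component of the special conformal equation -/
def Kc (n : ℕ) (c : α) (F : MvPolynomial (Sym2 (Lab α O)) ℝ) : MvPolynomial (Sym2 (Lab α O)) ℝ :=
  LapF n (xi c) (xi c) F - 2 * dz (xi c) (xi c) F
    - ∑ b : α, 2 * (Rop (xi b) (xi b) (dz (xi b) (xi c) F) + Rop (xi b) (ep b) (dz (ep b) (xi c) F))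
    - ∑ o : O, 2 * Rop (ex o) (ex o) (dz (ex o) (xi c) F)

/-- components of `KA` -/
def KAw (n : ℕ) (a : α) (F : MvPolynomial (Sym2 (Lab α O)) ℝ) (w : Lab α O) :
    MvPolynomial (Sym2 (Lab α O)) ℝ :=
  (if w = xi a then LapF n (xi a) (xi a) F - 2 * dz (xi a) (xi a) F else 0)
    + (if w = ep a then 2 * LapF n (xi a) (ep a) F - 2 * dz (ep a) (xi a) F else 0)
    - 2 * (Rop (xi a) (xi a) (dz (xi a) w F) + Rop (xi a) (ep a) (dz (ep a) w F))

/-- components of `KO` -/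
def KOw (n : ℕ) (o : O) (F : MvPolynomial (Sym2 (Lab α O)) ℝ) (w : Lab α O) :
    MvPolynomial (Sym2 (Lab α O)) ℝ :=
  (if w = ex o then LapF n (ex o) (ex o) F - 2 * dz (ex o) (ex o) F else 0)
    - 2 * Rop (ex o) (ex o) (dz (ex o) w F)

lemma sum_X_ite (u : Lab α O) (m : Fin n) (G : MvPolynomial (Sym2 (Lab α O)) ℝ) :
    ∑ w, X (w, m) * gam n (if w = u then G else 0) = X (u, m) * gam n G := by
  rw [Finset.sum_eq_single u]
  · simp
  · intro w _ hw; simp [hw]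
  · simp

lemma RR_pderiv_gam (u v u' : Lab α O) (m : Fin n) (F : MvPolynomial (Sym2 (Lab α O)) ℝ) :
    RR n u v (pderiv (u', m) (gam n F)) = X (v, m) * gam n (dz u' u F)
      + ∑ w, X (w, m) * gam n (Rop u v (dz u' w F)) := by
  rw [pderiv_gam]
  have h : RR n u v (∑ w, X (w, m) * gam n (dz u' w F)) =
      ∑ w, RR n u v (X (w, m) * gam n (dz u' w F)) := by
    unfold RR
    rw [Finset.sum_comm]
    exact Finset.sum_congr rfl fun i _ => by rw [map_sum, Finset.mul_sum]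
  rw [h]
  simp only [RR_X_mul_gam, Finset.sum_add_distrib]
  congr 1
  rw [Finset.sum_eq_single u]
  · simp
  · intro w _ hw; simp [hw]
  · simp

lemma gam_two : gam n (2 : MvPolynomial (Sym2 (Lab α O)) ℝ) = 2 := map_ofNat _ 2

lemma KA_gam (a : α) (m : Fin n) (F : MvPolynomial (Sym2 (Lab α O)) ℝ) :
    KA n m a (gam n F) = ∑ w, X (w, m) * gam n (KAw n a F w) := by
  unfold KA KAw
  simp only [RR_pderiv_gam, LL_gam, map_sub, map_add, mul_sub, mul_add, Finset.sum_sub_distrib,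
    Finset.sum_add_distrib, sum_X_ite, map_mul, gam_two]
  have e1 : ∀ (f : Lab α O → MvPolynomial (Sym2 (Lab α O)) ℝ),
      (∑ w, X (w, m) * (2 * gam n (f w)) : MvPolynomial (Lab α O × Fin n) ℝ)
        = 2 * ∑ w, X (w, m) * gam n (f w) := by
    intro f; rw [Finset.mul_sum]; exact Finset.sum_congr rfl fun w _ => by ring
  rw [e1, e1]
  ring

lemma KO_gam (o : O) (m : Fin n) (F : MvPolynomial (Sym2 (Lab α O)) ℝ) :
    KO n m o (gam n F) = ∑ w, X (w, m) * gam n (KOw n o F w) := by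
  unfold KO KOw
  simp only [RR_pderiv_gam, LL_gam, map_sub, map_add, mul_sub, mul_add, Finset.sum_sub_distrib,
    Finset.sum_add_distrib, sum_X_ite, map_mul, gam_two]
  have e1 : ∀ (f : Lab α O → MvPolynomial (Sym2 (Lab α O)) ℝ),
      (∑ w, X (w, m) * (2 * gam n (f w)) : MvPolynomial (Lab α O × Fin n) ℝ)
        = 2 * ∑ w, X (w, m) * gam n (f w) := by
    intro f; rw [Finset.mul_sum]; exact Finset.sum_congr rfl fun w _ => by ring
  rw [e1]
  ring

theorem Kc_eq_zero (hn : Fintype.card (Lab α O) ≤ n) (F : MvPolynomial (Sym2 (Lab α O)) ℝ)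
    (hK : ∀ m, KK n m (gam n F) = 0) (c : α) : Kc n c F = 0 := by
  have h1 : ∀ w, ∑ a, KAw n a F w + ∑ o, KOw n o F w = 0 := by
    apply split hn
    intro m
    rw [← hK m]
    unfold KK
    simp only [KA_gam, KO_gam, map_add, map_sum, mul_add, Finset.mul_sum, Finset.sum_add_distrib]
    congr 1
    · rw [Finset.sum_comm]
    · rw [Finset.sum_comm]
  have h2 := h1 (xi c)
  rw [← h2]
  unfold Kc KAw KOw
  simp only [Finset.sum_sub_distrib, Finset.sum_add_distrib]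
  have e1 : (∑ a : α, if (xi c : Lab α O) = xi a then
      LapF n (xi a) (xi a) F - 2 * dz (xi a) (xi a) F else 0) =
      LapF n (xi c) (xi c) F - 2 * dz (xi c) (xi c) F := by
    rw [Finset.sum_eq_single c]
    · simp
    · intro b _ hb; rw [if_neg]; intro h; apply hb; simpa using h.symm
    · simp
  have e2 : (∑ a : α, if (xi c : Lab α O) = ep a then
      2 * LapF n (xi a) (ep a) F - 2 * dz (ep a) (xi a) F else 0) = 0 := by
    apply Finset.sum_eq_zero; intro a _; rw [if_neg]; simp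
  have e3 : (∑ o : O, if (xi c : Lab α O) = ex o then
      LapF n (ex o) (ex o) F - 2 * dz (ex o) (ex o) F else 0) = 0 := by
    apply Finset.sum_eq_zero; intro a _; rw [if_neg]; simp
  rw [e1, e2, e3]
  ring

end

end GJMS
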