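import Mathlib
import Pool.Agent.GJMS.AlgCore

/-!
# The lowest part in the on-shell variables, continued
-/

open Finset MvPolynomial

namespace GJMS

noncomputable section

section general

variable {L : Type} [Fintype L] [DecidableEq L]

lemma sum_split2 {M : Type} [AddCommGroup M] (g : L → M) {x y : L} (hxy : x ≠ y) :
    ∑ w, g w = g x + g y + ∑ w ∈ univ.filter (fun w => w ≠ x ∧ w ≠ y), g w := by
  rw [← Finset.sum_filter_add_sum_filter_not univ (fun w => w ≠ x ∧ w ≠ y), add_comm]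
  congr 1
  have : univ.filter (fun w => ¬ (w ≠ x ∧ w ≠ y)) = {x, y} := by
    ext w; simp; tauto
  rw [this, Finset.sum_pair hxy]

lemma sum_sum_split (g : L → L → ℝ) (hg : ∀ w w', g w w' = g w' w) {x y : L} (hxy : x ≠ y)
    (h : ∀ w w', w ≠ x → w ≠ y → w' ≠ x → w' ≠ y → g w w' = 0) :
    ∑ w, ∑ w', g w w' - 2 * ∑ w, g x w - 2 * ∑ w, g y w = -(g x x + 2 * g x y + g y y) := by
  have h1 : ∀ w ∈ univ.filter (fun w => w ≠ x ∧ w ≠ y), ∑ w', g w w' = g x w + g y w := by
    intro w hw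
    rw [Finset.mem_filter] at hw
    rw [sum_split2 (g w) hxy, Finset.sum_eq_zero, add_zero, hg w x, hg w y]
    intro w' hw'
    rw [Finset.mem_filter] at hw'
    exact h w w' hw.2.1 hw.2.2 hw'.2.1 hw'.2.2
  rw [sum_split2 (fun w => ∑ w', g w w') hxy, Finset.sum_congr rfl h1, Finset.sum_add_distrib]
  have h2 := sum_split2 (g x) hxy
  have h3 := sum_split2 (g y) hxy
  rw [h2, h3, hg y x]
  ring

lemma coeff_X_mul_pderiv {σ : Type} (q : σ) (G : MvPolynomial σ ℝ) (μ : σ →₀ ℕ) :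
    coeff μ (X q * pderiv q G) = μ q * coeff μ G := by
  classical
  rw [coeff_X_mul']
  split_ifs with hs
  · have h1 : 1 ≤ μ q := Nat.one_le_iff_ne_zero.2 (Finsupp.mem_support_iff.1 hs)
    rw [coeff_pderiv, tsub_add_cancel_of_le (Finsupp.single_le_iff.2 h1)]
    have h2 : (((μ - Finsupp.single q 1 : σ →₀ ℕ) q : ℕ) : ℝ) + 1 = μ q := by
      rw [Finsupp.tsub_apply, Finsupp.single_eq_same]
      push_cast [h1]
      ring
    rw [h2]; ring
  · have : μ q = 0 := by simpa using hs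
    rw [this]; simp

omit [Fintype L] in
lemma coeff_dz_eq_zero {u v : L} {F : MvPolynomial (Sym2 L) ℝ} {κ : Sym2 L →₀ ℕ}
    (h : coeff (κ + Finsupp.single s(u, v) 1) F = 0) : coeff κ (dz u v F) = 0 := by
  rw [dz_apply, coeff_smul, coeff_pderiv, h]; simp

omit [Fintype L] in
lemma coeff_X_dz_eq_zero {s : Sym2 L} {u v : L} {F : MvPolynomial (Sym2 L) ℝ} {μ : Sym2 L →₀ ℕ}
    (h : ∀ κ, μ = κ + Finsupp.single s 1 → coeff (κ + Finsupp.single s(u, v) 1) F = 0) :
    coeff μ (X s * dz u v F) = 0 :=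
  coeff_X_mul_eq_zero _ _ _ fun κ hκ => coeff_dz_eq_zero (h κ hκ)

omit [Fintype L] in
lemma coeff_X_dz_dz_eq_zero {s : Sym2 L} {u v u' v' : L} {F : MvPolynomial (Sym2 L) ℝ}
    {μ : Sym2 L →₀ ℕ}
    (h : ∀ κ, μ = κ + Finsupp.single s 1 →
      coeff (κ + Finsupp.single s(u, v) 1 + Finsupp.single s(u', v') 1) F = 0) :
    coeff μ (X s * dz u v (dz u' v' F)) = 0 :=
  coeff_X_dz_eq_zero fun κ hκ => coeff_dz_eq_zero (h κ hκ)

end general

variable {α O : Type} [Fintype α] [DecidableEq α] [Fintype O] [DecidableEq O] {n : ℕ}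

/-- degree conditions on a monomial -/
structure DegOK (n : ℕ) (F : MvPolynomial (Sym2 (Lab α O)) ℝ) : Prop where
  hE : ∀ ν ∈ F.support, ∀ a, vdeg (ep a) ν = 2
  hX : ∀ ν ∈ F.support, ∀ a, 2 ≤ vdeg (xi a) ν
  hT : ∀ ν ∈ F.support, ∑ a, vdeg (xi a) ν + ∑ o, vdeg (ex o) ν = n

lemma le_vdeg (u w : Lab α O) (ν : Sym2 (Lab α O) →₀ ℕ) : ν s(u, w) ≤ vdeg u ν := by
  unfold vdeg
  calc ν s(u, w) ≤ ν s(u, w) * mult u s(u, w) := by
        apply Nat.le_mul_of_pos_right
        simp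
    _ ≤ _ := Finset.single_le_sum (f := fun s => ν s * mult u s) (fun _ _ => Nat.zero_le _)
        (Finset.mem_univ s(u, w))

lemma le_vdeg_diag (u : Lab α O) (ν : Sym2 (Lab α O) →₀ ℕ) : 2 * ν s(u, u) ≤ vdeg u ν := by
  unfold vdeg
  calc 2 * ν s(u, u) = ν s(u, u) * mult u s(u, u) := by
        simp; ring
    _ ≤ _ := Finset.single_le_sum (f := fun s => ν s * mult u s) (fun _ _ => Nat.zero_le _)
        (Finset.mem_univ s(u, u))

lemma le_vdeg_add (u w w' : Lab α O) (h : w ≠ w') (ν : Sym2 (Lab α O) →₀ ℕ) :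
    ν s(u, w) * mult u s(u, w) + ν s(u, w') * mult u s(u, w') ≤ vdeg u ν := by
  unfold vdeg
  have hne : s(u, w) ≠ s(u, w') := by
    intro h'
    exact h (Sym2.congr_right.1 h')
  calc ν s(u, w) * mult u s(u, w) + ν s(u, w') * mult u s(u, w')
      = ∑ s ∈ {s(u, w), s(u, w')}, ν s * mult u s := (Finset.sum_pair (f := fun s => ν s * mult u s) hne).symm
    _ ≤ _ := Finset.sum_le_sum_of_subset (Finset.subset_univ _)

/-- if `vdeg u ν ≠ 0`, some variable `s(u, w)` occurs in `ν` -/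
lemma exists_of_vdeg (u : Lab α O) (ν : Sym2 (Lab α O) →₀ ℕ) (h : vdeg u ν ≠ 0) :
    ∃ w, ν s(u, w) ≠ 0 := by
  unfold vdeg at h
  obtain ⟨s, _, hs⟩ := Finset.exists_ne_zero_of_sum_ne_zero h
  induction s using Sym2.ind with
  | _ a b =>
    have h1 : ν s(a, b) ≠ 0 := left_ne_zero_of_mul hs
    have h2 : mult u s(a, b) ≠ 0 := right_ne_zero_of_mul hs
    by_cases ha : a = u
    · subst ha; exact ⟨b, h1⟩
    · by_cases hb : b = u
      · subst hb; exact ⟨a, by rwa [Sym2.eq_swap]⟩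
      · simp [ha, hb] at h2

/-- the exceptional case of the indicial equation is impossible for degree reasons -/
lemma exceptional {F : MvPolynomial (Sym2 (Lab α O)) ℝ} (hD : DegOK n F)
    {ν : Sym2 (Lab α O) →₀ ℕ} (hν : ν ∈ F.support) (c : α) (hp : ν (pv c) = 0)
    (he : ν (ev c) = 0) (hq : 2 * ν (qv c) = n) : False := by
  have hT := hD.hT ν hν
  have hx := le_vdeg_diag (xi c) ν
  change 2 * ν (qv c) ≤ _ at hx
  rw [hq] at hx
  have h1 : ∀ b, b ≠ c → False := by
    intro b hb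
    have h2 := hD.hX ν hν b
    have h3 : vdeg (xi b) ν + vdeg (xi c) ν ≤ ∑ a, vdeg (xi a) ν := by
      rw [← Finset.sum_pair hb (f := fun a => vdeg (xi a) ν)]
      exact Finset.sum_le_sum_of_subset (Finset.subset_univ _)
    omega
  have h4 : ∀ o, vdeg (ex o) ν = 0 := by
    intro o
    have h5 : vdeg (ex o) ν ≤ ∑ o, vdeg (ex o) ν :=
      Finset.single_le_sum (f := fun o => vdeg (ex o) ν) (fun _ _ => Nat.zero_le _)
        (Finset.mem_univ o)
    have h6 : vdeg (xi c) ν ≤ ∑ a, vdeg (xi a) ν :=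
      Finset.single_le_sum (f := fun a => vdeg (xi a) ν) (fun _ _ => Nat.zero_le _)
        (Finset.mem_univ c)
    omega
  obtain ⟨w, hw⟩ := exists_of_vdeg (ep c) ν (by rw [hD.hE ν hν c]; norm_num)
  rcases w with ⟨b, t⟩ | o
  · by_cases hb : b = c
    · subst hb
      cases t
      · apply hw; rw [Sym2.eq_swap]; exact hp
      · exact hw he
    · exact h1 b hb
  · have := le_vdeg (ex o) (ep c) ν
    rw [Sym2.eq_swap, h4 o] at this
    exact hw (Nat.le_zero.1 this)

/-! ## the four claims -/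

lemma coeff_two_mul {σ : Type} (μ : σ →₀ ℕ) (G : MvPolynomial σ ℝ) :
    coeff μ (2 * G) = 2 * coeff μ G := by
  rw [show (2 : MvPolynomial σ ℝ) = C 2 from rfl, coeff_C_mul]

set_option linter.unusedSectionVars false

section core

variable {r : ℕ} {F : MvPolynomial (Sym2 (Lab α O)) ℝ} (c : α)

lemma qv_mem (c : α) : qv c ∈ (Om : Finset (Sym2 (Lab α O))) := (mem_Om _).2 ⟨c, Or.inl rfl⟩
lemma pv_mem (c : α) : pv c ∈ (Om : Finset (Sym2 (Lab α O))) := (mem_Om _).2 ⟨c, Or.inr (Or.inl rfl)⟩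
lemma ev_mem (c : α) : ev c ∈ (Om : Finset (Sym2 (Lab α O))) := (mem_Om _).2 ⟨c, Or.inr (Or.inr rfl)⟩

lemma qv_ne_pv (c : α) : (qv c : Sym2 (Lab α O)) ≠ pv c := by
  intro h; rw [Sym2.eq_iff] at h; simp at h
lemma qv_ne_ev (c : α) : (qv c : Sym2 (Lab α O)) ≠ ev c := by
  intro h; rw [Sym2.eq_iff] at h; simp at h
lemma pv_ne_ev (c : α) : (pv c : Sym2 (Lab α O)) ≠ ev c := by
  intro h; rw [Sym2.eq_iff] at h; simp at h

lemma eps_pv (c : α) : (s(ep c, xi c) : Sym2 (Lab α O)) = pv c := Sym2.eq_swap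

/-- the conformal equation modulo terms of on-shell degree `≥ r` -/
lemma conf_mod (hF : F ∈ (II r : Submodule ℝ (MvPolynomial (Sym2 (Lab α O)) ℝ)))
    (hK : Kc n c F = 0) (μ : Sym2 (Lab α O) →₀ ℕ) (hμ : om μ < r) (hp : μ (pv c) = 0)
    (he : μ (ev c) = 0) :
    ((n : ℝ) - 2) * coeff μ (dz (xi c) (xi c) F)
      - coeff μ (X (qv c) * dz (xi c) (xi c) (dz (xi c) (xi c) F)) = 0 := by
  have h0 := congrArg (coeff μ) hK
  unfold Kc LapF at h0
  have hxy : (xi c : Lab α O) ≠ ep c := by simp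
  set g : Lab α O → Lab α O → ℝ := fun w w' =>
    coeff μ (X s(w, w') * dz (xi c) w' (dz (xi c) w F)) with hg
  have hgs : ∀ w w', g w w' = g w' w := by
    intro w w'
    simp only [hg]
    rw [dz_dz_comm, Sym2.eq_swap]
  have hg0 : ∀ w w', w ≠ xi c → w ≠ ep c → w' ≠ xi c → w' ≠ ep c → g w w' = 0 := by
    intro w w' h1 h2 h3 h4
    simp only [hg]
    have m1 : dz (xi c) w F ∈ (II r : Submodule ℝ (MvPolynomial (Sym2 (Lab α O)) ℝ)) :=
      dz_mem (fun h => by rcases (xi_mem_Om c w).1 h with h | h; exacts [h1 h, h2 h]) hF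
    have m2 : dz (xi c) w' (dz (xi c) w F) ∈ (II r : Submodule ℝ (MvPolynomial (Sym2 (Lab α O)) ℝ)) :=
      dz_mem (fun h => by rcases (xi_mem_Om c w').1 h with h | h; exacts [h3 h, h4 h]) m1
    exact X_mul_mem _ m2 μ hμ
  have hsplit := sum_sum_split g hgs hxy hg0
  have gxy : g (xi c) (ep c) = 0 := by
    simp only [hg]
    apply coeff_X_mul_eq_zero
    rintro κ rfl
    exfalso
    rw [Finsupp.add_apply, Finsupp.single_eq_same] at hp
    omega
  have gyy : g (ep c) (ep c) = 0 := by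
    simp only [hg]
    apply coeff_X_mul_eq_zero
    rintro κ rfl
    exfalso
    rw [Finsupp.add_apply, Finsupp.single_eq_same] at he
    omega
  rw [gxy, gyy] at hsplit
  have hb : ∑ b : α, coeff μ (2 * (Rop (xi b) (xi b) (dz (xi b) (xi c) F)
      + Rop (xi b) (ep b) (dz (ep b) (xi c) F))) =
      2 * (∑ w, g (xi c) w + ∑ w, g (ep c) w) := by
    rw [Finset.sum_eq_single c]
    · rw [coeff_two_mul, coeff_add]
      unfold Rop
      simp only [coeff_sum, hg]
      rw [dz_comm (ep c) (xi c)]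
    · intro b _ hbc
      have m1 : dz (xi b) (xi c) F ∈ (II r : Submodule ℝ (MvPolynomial (Sym2 (Lab α O)) ℝ)) :=
        dz_mem (fun h => by
          rcases (xi_mem_Om b (xi c)).1 h with h | h
          · simp at h; exact hbc h.symm
          · simp at h) hF
      have m2 : dz (ep b) (xi c) F ∈ (II r : Submodule ℝ (MvPolynomial (Sym2 (Lab α O)) ℝ)) :=
        dz_mem (fun h => by
          rcases (ep_mem_Om b (xi c)).1 h with h | h
          · simp at h; exact hbc h.symm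
          · simp at h) hF
      have m3 : Rop (xi b) (xi b) (dz (xi b) (xi c) F) ∈
          (II r : Submodule ℝ (MvPolynomial (Sym2 (Lab α O)) ℝ)) :=
        Submodule.sum_mem _ fun w _ => X_dz_mem (fun h => h) m1
      have m4 : Rop (xi b) (ep b) (dz (ep b) (xi c) F) ∈
          (II r : Submodule ℝ (MvPolynomial (Sym2 (Lab α O)) ℝ)) :=
        Submodule.sum_mem _ fun w _ => X_dz_mem
          (fun h => (ep_mem_Om b w).2 ((xi_mem_Om b w).1 h)) m2
      rw [coeff_two_mul, Submodule.add_mem _ m3 m4 μ hμ, mul_zero]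
    · simp
  have ho : ∑ o : O, coeff μ (2 * Rop (ex o) (ex o) (dz (ex o) (xi c) F)) = 0 := by
    apply Finset.sum_eq_zero
    intro o _
    have m1 : dz (ex o) (xi c) F ∈ (II r : Submodule ℝ (MvPolynomial (Sym2 (Lab α O)) ℝ)) :=
      dz_mem (ex_notMem_Om o _) hF
    have m3 : Rop (ex o) (ex o) (dz (ex o) (xi c) F) ∈
        (II r : Submodule ℝ (MvPolynomial (Sym2 (Lab α O)) ℝ)) :=
      Submodule.sum_mem _ fun w _ => X_dz_mem (fun h => h) m1
    rw [coeff_two_mul, m3 μ hμ, mul_zero]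
  rw [coeff_zero, coeff_sub, coeff_sub, coeff_sub, coeff_add, coeff_smul, coeff_two_mul,
    smul_eq_mul] at h0
  simp only [coeff_sum univ] at h0
  rw [hb, ho] at h0
  have h1 : ∑ w, ∑ w', coeff μ (X s(w, w') * dz (xi c) w' (dz (xi c) w F)) = ∑ w, ∑ w', g w w' := rfl
  rw [h1] at h0
  have h2 : coeff μ (X (qv c) * dz (xi c) (xi c) (dz (xi c) (xi c) F)) = g (xi c) (xi c) := rfl
  rw [h2]
  linarith

lemma dz_xx (F : MvPolynomial (Sym2 (Lab α O)) ℝ) (u : Lab α O) :
    dz u u F = (2 : ℝ) • pderiv s(u, u) F := by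
  rw [dz_apply, if_pos rfl]

lemma dz_xy (F : MvPolynomial (Sym2 (Lab α O)) ℝ) {u v : Lab α O} (h : u ≠ v) :
    dz u v F = pderiv s(u, v) F := by
  rw [dz_apply, if_neg h, one_smul]

include c in
/-- A: no monomial of minimal on-shell degree with `p = e = 0`, `q ≥ 1` -/
lemma claimA (hD : DegOK n F) (hF : F ∈ (II r : Submodule ℝ (MvPolynomial (Sym2 (Lab α O)) ℝ)))
    (hK : Kc n c F = 0) (ν : Sym2 (Lab α O) →₀ ℕ) (hν : om ν = r) (hp : ν (pv c) = 0)
    (he : ν (ev c) = 0) (hq : ν (qv c) ≠ 0) : coeff ν F = 0 := by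
  by_contra hne
  have h2j : 2 * ν (qv c) ≠ n := fun h => exceptional hD (mem_support_iff.2 hne) c hp he h
  obtain ⟨μ, rfl⟩ : ∃ μ, ν = μ + Finsupp.single (qv c) 1 :=
    ⟨ν - Finsupp.single (qv c) 1, (tsub_add_cancel_of_le
      (Finsupp.single_le_iff.2 (Nat.one_le_iff_ne_zero.2 hq))).symm⟩
  rw [om_add, om_single_of_mem (qv_mem c)] at hν
  rw [Finsupp.add_apply] at hp he
  have h1 := conf_mod c hF hK μ (by omega) (by omega) (by omega)
  rw [dz_xx, Derivation.map_smul, dz_xx, smul_smul, mul_smul_comm, coeff_smul, coeff_smul,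
    coeff_X_mul_pderiv, coeff_pderiv, smul_eq_mul, smul_eq_mul] at h1
  have h3 : (2 : ℝ) * (μ (qv c) + 1) * ((n : ℝ) - 2 - 2 * μ (qv c)) *
      coeff (μ + Finsupp.single (qv c) 1) F = 0 := by
    linarith
  rw [Finsupp.add_apply, Finsupp.single_eq_same] at h2j
  have h4 : (n : ℝ) - 2 - 2 * μ (qv c) ≠ 0 := by
    intro h
    apply h2j
    have : (2 : ℝ) * (μ (qv c) + 1) = n := by linarith
    exact_mod_cast this
  have h5 : (2 : ℝ) * (μ (qv c) + 1) ≠ 0 := by positivity
  rcases mul_eq_zero.1 h3 with h | h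
  · rcases mul_eq_zero.1 h with h | h
    · exact h5 h
    · exact h4 h
  · exact hne h

lemma other_notMem {w : Lab α O} (h1 : w ≠ xi c) (h2 : w ≠ ep c) :
    s(xi c, w) ∉ (Om : Finset (Sym2 (Lab α O))) := by
  rw [xi_mem_Om]; tauto

lemma other_notMem' {w : Lab α O} (h1 : w ≠ xi c) (h2 : w ≠ ep c) :
    s(ep c, w) ∉ (Om : Finset (Sym2 (Lab α O))) := by
  rw [ep_mem_Om]; tauto

lemma single_apply_of_notMem {s t : Sym2 (Lab α O)} (hs : s ∉ (Om : Finset (Sym2 (Lab α O))))
    (ht : t ∈ (Om : Finset (Sym2 (Lab α O)))) : (Finsupp.single s 1 : Sym2 (Lab α O) →₀ ℕ) t = 0 := by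
  rw [Finsupp.single_eq_of_ne]
  rintro rfl
  exact hs ht

lemma om_shift {s t : Sym2 (Lab α O)} (hs : s ∉ (Om : Finset (Sym2 (Lab α O))))
    (ht : t ∉ (Om : Finset (Sym2 (Lab α O)))) {μ κ : Sym2 (Lab α O) →₀ ℕ}
    (h : μ = κ + Finsupp.single s 1) : om (κ + Finsupp.single t 1) = om μ := by
  rw [h, om_add, om_add, om_single_of_notMem hs, om_single_of_notMem ht]

lemma val_shift {s t v : Sym2 (Lab α O)} (hs : s ∉ (Om : Finset (Sym2 (Lab α O))))
    (ht : t ∉ (Om : Finset (Sym2 (Lab α O)))) (hv : v ∈ (Om : Finset (Sym2 (Lab α O))))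
    {μ κ : Sym2 (Lab α O) →₀ ℕ}
    (h : μ = κ + Finsupp.single s 1) :
    (κ + Finsupp.single t 1 : Sym2 (Lab α O) →₀ ℕ) v = μ v := by
  rw [h, Finsupp.add_apply, Finsupp.add_apply, single_apply_of_notMem hs hv,
    single_apply_of_notMem ht hv]

include c in
/-- B: no monomial of minimal on-shell degree with `p`-exponent 1 and `e`-exponent 0 -/
lemma claimB (hD : DegOK n F) (hF : F ∈ (II r : Submodule ℝ (MvPolynomial (Sym2 (Lab α O)) ℝ)))
    (hK : Kc n c F = 0) (hG : Rop (ep c) (xi c) F = 0) (κ : Sym2 (Lab α O) →₀ ℕ)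
    (hκ : om κ + 1 = r) (hp : κ (pv c) = 0) (he : κ (ev c) = 0) :
    coeff (κ + Finsupp.single (pv c) 1) F = 0 := by
  have h0 := congrArg (coeff (κ + Finsupp.single (qv c) 1)) hG
  unfold Rop at h0
  rw [coeff_sum, coeff_zero, Finset.sum_eq_single (xi c)] at h0
  · rw [add_comm κ, coeff_X_mul, dz_xy _ (by simp), coeff_pderiv, eps_pv, hp] at h0
    simpa using h0
  · intro w _ hw
    by_cases hw2 : w = ep c
    · subst hw2
      apply coeff_X_mul_eq_zero
      intro κ' h
      exfalso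
      have := congrArg (fun f => f (pv c)) h
      simp only [Finsupp.add_apply] at this
      rw [Finsupp.single_eq_same, hp, Finsupp.single_eq_of_ne (qv_ne_pv c).symm] at this
      omega
    · apply coeff_X_dz_eq_zero
      intro κ' h
      have n1 := other_notMem c hw hw2
      have n2 := other_notMem' c hw hw2
      apply claimA c hD hF hK
      · rw [om_shift n1 n2 h, om_add, om_single_of_mem (qv_mem c)]; exact hκ
      · rw [val_shift n1 n2 (pv_mem c) h, Finsupp.add_apply,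
          Finsupp.single_eq_of_ne (qv_ne_pv c).symm, hp, add_zero]
      · rw [val_shift n1 n2 (ev_mem c) h, Finsupp.add_apply,
          Finsupp.single_eq_of_ne (qv_ne_ev c).symm, he, add_zero]
      · rw [val_shift n1 n2 (qv_mem c) h, Finsupp.add_apply, Finsupp.single_eq_same]
        omega
  · intro h; exact absurd (Finset.mem_univ _) h

/-- B, in terms of the monomial -/
lemma claimB' (hD : DegOK n F) (hF : F ∈ (II r : Submodule ℝ (MvPolynomial (Sym2 (Lab α O)) ℝ)))
    (hK : Kc n c F = 0) (hG : Rop (ep c) (xi c) F = 0) (ν : Sym2 (Lab α O) →₀ ℕ)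
    (hν : om ν = r) (hp : ν (pv c) = 1) (he : ν (ev c) = 0) : coeff ν F = 0 := by
  obtain ⟨κ, rfl⟩ : ∃ κ, ν = κ + Finsupp.single (pv c) 1 :=
    ⟨ν - Finsupp.single (pv c) 1, (tsub_add_cancel_of_le
      (Finsupp.single_le_iff.2 (le_of_eq hp.symm))).symm⟩
  rw [om_add, om_single_of_mem (pv_mem c)] at hν
  rw [Finsupp.add_apply] at he
  rw [Finsupp.add_apply, Finsupp.single_eq_same] at hp
  exact claimB c hD hF hK hG κ hν (by omega) (by omega)

/-- the gauge equation on monomials with one `p` -/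
lemma gauge_p (hD : DegOK n F) (hF : F ∈ (II r : Submodule ℝ (MvPolynomial (Sym2 (Lab α O)) ℝ)))
    (hK : Kc n c F = 0) (hG : Rop (ep c) (xi c) F = 0) (μ : Sym2 (Lab α O) →₀ ℕ)
    (hμ : om μ + 1 = r) (hp : μ (pv c) = 0) (he : μ (ev c) = 0) :
    coeff (μ + Finsupp.single (pv c) 1) (X (qv c) * pderiv (pv c) F)
      + 2 * coeff (μ + Finsupp.single (ev c) 1) F = 0 := by
  have h0 := congrArg (coeff (μ + Finsupp.single (pv c) 1)) hG
  unfold Rop at h0
  have hxy : (xi c : Lab α O) ≠ ep c := by simp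
  rw [coeff_sum, coeff_zero, sum_split2 _ hxy, Finset.sum_eq_zero, add_zero] at h0
  · rw [dz_xy _ hxy.symm, eps_pv, dz_xx, mul_smul_comm, coeff_smul, smul_eq_mul] at h0
    have h1 : coeff (μ + Finsupp.single (pv c) 1) (X s(xi c, ep c) * pderiv s(ep c, ep c) F)
        = coeff (μ + Finsupp.single (ev c) 1) F := by
      rw [add_comm μ, coeff_X_mul, coeff_pderiv, he]; simp
    rw [h1] at h0
    exact h0
  · intro w hw
    rw [Finset.mem_filter] at hw
    apply coeff_X_dz_eq_zero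
    intro κ' h
    have n1 := other_notMem c hw.2.1 hw.2.2
    have n2 := other_notMem' c hw.2.1 hw.2.2
    apply claimB' c hD hF hK hG
    · rw [om_shift n1 n2 h, om_add, om_single_of_mem (pv_mem c)]; exact hμ
    · rw [val_shift n1 n2 (pv_mem c) h, Finsupp.add_apply, Finsupp.single_eq_same, hp]
    · rw [val_shift n1 n2 (ev_mem c) h, Finsupp.add_apply,
        Finsupp.single_eq_of_ne (pv_ne_ev c).symm, he, add_zero]

/-- the trace equation on monomials with no `p`, `e` -/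
lemma trace_p (hD : DegOK n F) (hF : F ∈ (II r : Submodule ℝ (MvPolynomial (Sym2 (Lab α O)) ℝ)))
    (hK : Kc n c F = 0) (hG : Rop (ep c) (xi c) F = 0) (hL : LapF n (ep c) (ep c) F = 0)
    (μ : Sym2 (Lab α O) →₀ ℕ)
    (hμ : om μ + 1 = r) (hp : μ (pv c) = 0) (he : μ (ev c) = 0) :
    coeff (μ + Finsupp.single (pv c) 1) (X (qv c) * pderiv (pv c) F)
      + 2 * n * coeff (μ + Finsupp.single (ev c) 1) F = 0 := by
  have h0 := congrArg (coeff μ) hL
  unfold LapF at h0
  have hxy : (xi c : Lab α O) ≠ ep c := by simp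
  set g : Lab α O → Lab α O → ℝ := fun w w' =>
    coeff μ (X s(w, w') * dz (ep c) w' (dz (ep c) w F)) with hg
  have hgs : ∀ w w', g w w' = g w' w := by
    intro w w'
    simp only [hg]
    rw [dz_dz_comm, Sym2.eq_swap]
  have gy : ∀ w, g (ep c) w = 0 := by
    intro w
    simp only [hg]
    by_cases h1 : w = xi c
    · subst h1
      apply coeff_X_mul_eq_zero
      intro κ' h
      exfalso
      have := congrArg (fun f => f (pv c)) h
      simp only [Finsupp.add_apply] at this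
      rw [eps_pv, Finsupp.single_eq_same, hp] at this
      omega
    by_cases h2 : w = ep c
    · subst h2
      apply coeff_X_mul_eq_zero
      intro κ' h
      exfalso
      have := congrArg (fun f => f (ev c)) h
      simp only [Finsupp.add_apply] at this
      rw [Finsupp.single_eq_same, he] at this
      omega
    apply coeff_X_dz_dz_eq_zero
    rintro κ' h
    rw [← h]
    by_contra hne
    have h3 := hD.hE _ (mem_support_iff.2 hne) c
    have h4 := le_vdeg_add (ep c) w (ep c) h2 (μ + Finsupp.single (ev c) 1)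
    rw [h3] at h4
    have h5 : 1 ≤ (μ + Finsupp.single (ev c) 1 : Sym2 (Lab α O) →₀ ℕ) s(ep c, w) := by
      rw [Finsupp.add_apply, h, Finsupp.add_apply, Finsupp.single_eq_same]; omega
    have h6 : 1 ≤ (μ + Finsupp.single (ev c) 1 : Sym2 (Lab α O) →₀ ℕ) s(ep c, ep c) := by
      rw [Finsupp.add_apply, Finsupp.single_eq_same]; omega
    rw [mult_mk, mult_mk, if_pos rfl, if_neg h2] at h4
    omega
  have gxw : ∀ w, w ≠ xi c → g (xi c) w = 0 := by
    intro w hw
    by_cases h2 : w = ep c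
    · subst h2; rw [hgs]; exact gy _
    simp only [hg]
    apply coeff_X_dz_dz_eq_zero
    intro κ' h
    have n1 := other_notMem c hw h2
    have n2 := other_notMem' c hw h2
    rw [eps_pv]
    apply claimB' c hD hF hK hG
    · rw [om_add, om_shift n1 n2 h, om_single_of_mem (pv_mem c)]; exact hμ
    · rw [Finsupp.add_apply, val_shift n1 n2 (pv_mem c) h, Finsupp.single_eq_same, hp]
    · rw [Finsupp.add_apply, val_shift n1 n2 (ev_mem c) h,
        Finsupp.single_eq_of_ne (pv_ne_ev c).symm, he, add_zero]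
  have goo : ∀ w w', w ≠ xi c → w ≠ ep c → w' ≠ xi c → w' ≠ ep c → g w w' = 0 := by
    intro w w' h1 h2 h3 h4
    simp only [hg]
    have m1 : dz (ep c) w F ∈ (II r : Submodule ℝ (MvPolynomial (Sym2 (Lab α O)) ℝ)) :=
      dz_mem (other_notMem' c h1 h2) hF
    have m2 : dz (ep c) w' (dz (ep c) w F) ∈ (II r : Submodule ℝ (MvPolynomial (Sym2 (Lab α O)) ℝ)) :=
      dz_mem (other_notMem' c h3 h4) m1
    exact X_mul_mem _ m2 μ (by omega)
  have hall : ∀ w, w ≠ xi c → ∀ w', g w w' = 0 := by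
    intro w hw w'
    by_cases h2 : w = ep c
    · subst h2; exact gy _
    by_cases h3 : w' = xi c
    · subst h3; rw [hgs]; exact gxw w hw
    by_cases h4 : w' = ep c
    · subst h4; rw [hgs]; exact gy _
    exact goo w w' hw h2 h3 h4
  have hsum : ∑ w, ∑ w', g w w' = g (xi c) (xi c) := by
    rw [Finset.sum_eq_single (xi c)]
    · rw [Finset.sum_eq_single (xi c)]
      · intro w _ hw; exact gxw w hw
      · intro h; exact absurd (Finset.mem_univ _) h
    · intro w _ hw; exact Finset.sum_eq_zero fun w' _ => hall w hw w'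
    · intro h; exact absurd (Finset.mem_univ _) h
  rw [coeff_zero, coeff_add, coeff_smul, smul_eq_mul] at h0
  simp only [coeff_sum univ] at h0
  have h1 : ∑ w, ∑ w', coeff μ (X s(w, w') * dz (ep c) w' (dz (ep c) w F)) = ∑ w, ∑ w', g w w' := rfl
  rw [h1, hsum, dz_xx, coeff_smul, coeff_pderiv, he] at h0
  have h2 : g (xi c) (xi c) = coeff (μ + Finsupp.single (pv c) 1) (X (qv c) * pderiv (pv c) F) := by
    simp only [hg]
    rw [dz_xy _ hxy.symm, dz_xy _ hxy.symm, eps_pv]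
    have h3 : X s(xi c, xi c) * pderiv (pv c) (pderiv (pv c) F) =
        pderiv (pv c) (X (qv c) * pderiv (pv c) F) := by
      rw [Derivation.leibniz, pderiv_X_of_ne (qv_ne_pv c)]
      simp
    rw [h3, coeff_pderiv, hp]
    simp
  rw [h2] at h0
  simp only [smul_eq_mul, Nat.cast_zero, zero_add, mul_one] at h0
  linarith

/-- C and D -/
lemma claimCD (hn : 2 ≤ n) (hD : DegOK n F)
    (hF : F ∈ (II r : Submodule ℝ (MvPolynomial (Sym2 (Lab α O)) ℝ)))
    (hK : Kc n c F = 0) (hG : Rop (ep c) (xi c) F = 0) (hL : LapF n (ep c) (ep c) F = 0)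
    (μ : Sym2 (Lab α O) →₀ ℕ)
    (hμ : om μ + 1 = r) (hp : μ (pv c) = 0) (he : μ (ev c) = 0) :
    coeff (μ + Finsupp.single (pv c) 1) (X (qv c) * pderiv (pv c) F) = 0 ∧
      coeff (μ + Finsupp.single (ev c) 1) F = 0 := by
  have h1 := trace_p c hD hF hK hG hL μ hμ hp he
  have h2 := gauge_p c hD hF hK hG μ hμ hp he
  have hn' : (2 : ℝ) ≤ n := by exact_mod_cast hn
  have h3 : (2 * (n : ℝ) - 2) * coeff (μ + Finsupp.single (ev c) 1) F = 0 := by linarith
  have h4 : coeff (μ + Finsupp.single (ev c) 1) F = 0 := by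
    rcases mul_eq_zero.1 h3 with h | h
    · exfalso; linarith
    · exact h
  refine ⟨?_, h4⟩
  rw [h4] at h2
  linarith

/-- no on-shell variable in the monomials of minimal on-shell degree -/
lemma core_single (hn : 2 ≤ n) (hD : DegOK n F)
    (hF : F ∈ (II r : Submodule ℝ (MvPolynomial (Sym2 (Lab α O)) ℝ)))
    (hK : Kc n c F = 0) (hG : Rop (ep c) (xi c) F = 0) (hL : LapF n (ep c) (ep c) F = 0)
    (ν : Sym2 (Lab α O) →₀ ℕ) (hν : ν ∈ F.support) (hr : om ν = r) :
    ν (qv c) = 0 ∧ ν (pv c) = 0 ∧ ν (ev c) = 0 := by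
  have hdeg := hD.hE ν hν c
  have hc := mem_support_iff.1 hν
  have he0 : ν (ev c) = 0 := by
    by_contra hne
    obtain ⟨κ, rfl⟩ : ∃ κ, ν = κ + Finsupp.single (ev c) 1 :=
      ⟨ν - Finsupp.single (ev c) 1, (tsub_add_cancel_of_le
        (Finsupp.single_le_iff.2 (Nat.one_le_iff_ne_zero.2 hne))).symm⟩
    rw [om_add, om_single_of_mem (ev_mem c)] at hr
    have h1 := le_vdeg_add (ep c) (xi c) (ep c) (by simp) (κ + Finsupp.single (ev c) 1)
    rw [hdeg] at h1
    have h3 : s(ep c, xi c) = (pv c : Sym2 (Lab α O)) := eps_pv c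
    have h4 : (s(ep c, ep c) : Sym2 (Lab α O)) = ev c := rfl
    rw [mult_mk, mult_mk, h3, h4] at h1
    simp only [if_true, Finsupp.add_apply, Finsupp.single_eq_same,
      Finsupp.single_eq_of_ne (pv_ne_ev c)] at h1
    rw [if_neg (by simp)] at h1
    exact hc (claimCD c hn hD hF hK hG hL κ hr (by omega) (by omega)).2
  have hp0 : ν (pv c) = 0 := by
    by_contra hne
    have h1 : ν (pv c) ≤ vdeg (ep c) ν := by
      have := le_vdeg (ep c) (xi c) ν
      rwa [eps_pv] at this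
    rw [hdeg] at h1
    by_cases hp1 : ν (pv c) = 1
    · exact hc (claimB' c hD hF hK hG ν hr hp1 he0)
    · have hp2 : ν (pv c) = 2 := by omega
      obtain ⟨κ, rfl⟩ : ∃ κ, ν = κ + Finsupp.single (pv c) 2 :=
        ⟨ν - Finsupp.single (pv c) 2, (tsub_add_cancel_of_le
          (Finsupp.single_le_iff.2 (le_of_eq hp2.symm))).symm⟩
      rw [show (Finsupp.single (pv c) 2 : Sym2 (Lab α O) →₀ ℕ) =
        Finsupp.single (pv c) 1 + Finsupp.single (pv c) 1 by
          rw [← Finsupp.single_add], ← add_assoc] at *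
      rw [om_add, om_add, om_single_of_mem (pv_mem c)] at hr
      simp only [Finsupp.add_apply, Finsupp.single_eq_same] at hp2 he0
      have h5 := (claimCD c hn hD hF hK hG hL (κ + Finsupp.single (qv c) 1)
        (by rw [om_add, om_single_of_mem (qv_mem c)]; exact hr)
        (by rw [Finsupp.add_apply, Finsupp.single_eq_of_ne (qv_ne_pv c).symm]; omega)
        (by rw [Finsupp.add_apply, Finsupp.single_eq_of_ne (qv_ne_ev c).symm]; omega)).1
      rw [show κ + Finsupp.single (qv c) 1 + Finsupp.single (pv c) 1 =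
        Finsupp.single (qv c) 1 + (κ + Finsupp.single (pv c) 1) by abel, coeff_X_mul,
        coeff_pderiv] at h5
      rcases mul_eq_zero.1 h5 with h | h
      · exact hc h
      · have : (0 : ℝ) ≤ (((κ + Finsupp.single (pv c) 1 : Sym2 (Lab α O) →₀ ℕ) (pv c) : ℕ) : ℝ) :=
          Nat.cast_nonneg _
        linarith
  refine ⟨?_, hp0, he0⟩
  by_contra hq
  exact hc (claimA c hD hF hK ν hr hp0 he0 hq)

end core

/-- a nonzero solution has a monomial without on-shell variables -/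
theorem exists_om_zero (hn : 2 ≤ n) {F : MvPolynomial (Sym2 (Lab α O)) ℝ} (hD : DegOK n F)
    (hK : ∀ c, Kc n c F = 0) (hG : ∀ c, Rop (ep c) (xi c) F = 0)
    (hL : ∀ c, LapF n (ep c) (ep c) F = 0) (hF : F ≠ 0) : ∃ ν ∈ F.support, om ν = 0 := by
  obtain ⟨ν, hν, hmin⟩ := Finset.exists_min_image F.support om (MvPolynomial.support_nonempty.2 hF)
  refine ⟨ν, hν, ?_⟩
  have hI : F ∈ (II (om ν) : Submodule ℝ (MvPolynomial (Sym2 (Lab α O)) ℝ)) := by
    intro μ hμ
    by_contra hne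
    exact absurd (hmin μ (mem_support_iff.2 hne)) (by omega)
  have h1 : ∀ c, ν (qv c) = 0 ∧ ν (pv c) = 0 ∧ ν (ev c) = 0 := fun c =>
    core_single c hn hD hI (hK c) (hG c) (hL c) ν hν rfl
  unfold om
  apply Finset.sum_eq_zero
  intro s hs
  obtain ⟨a, h | h | h⟩ := (mem_Om s).1 hs
  · rw [h]; exact (h1 a).1
  · rw [h]; exact (h1 a).2.1
  · rw [h]; exact (h1 a).2.2

end

end GJMS
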