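import Mathlib
import Pool.Agent.GJMS.AlgCore2

/-!
# Restriction to the on-shell variables, and the general theorem
-/

open Finset MvPolynomial

namespace GJMS

noncomputable section

set_option linter.unusedSectionVars false

variable {α O : Type} [Fintype α] [DecidableEq α] [Fintype O] [DecidableEq O] {n : ℕ}

open Classical in
/-- setting the on-shell variables to zero -/
def kill : MvPolynomial (Sym2 (Lab α O)) ℝ →ₐ[ℝ] MvPolynomial (Sym2 (Lab α O)) ℝ :=
  aeval (fun s => if s ∈ (Om : Finset (Sym2 (Lab α O))) then 0 else X s)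

open Classical in
/-- setting the on-shell coordinates of a point to zero -/
def killp (y : Sym2 (Lab α O) → ℝ) (s : Sym2 (Lab α O)) : ℝ :=
  if s ∈ (Om : Finset (Sym2 (Lab α O))) then 0 else y s

lemma kill_monomial (ν : Sym2 (Lab α O) →₀ ℕ) (c : ℝ) :
    kill (monomial ν c) = if om ν = 0 then monomial ν c else 0 := by
  classical
  unfold kill
  rw [aeval_monomial, algebraMap_eq, Finsupp.prod]
  split_ifs with h
  · rw [monomial_eq, Finsupp.prod]
    congr 1
    refine Finset.prod_congr rfl fun s hs => ?_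
    rw [if_neg]
    intro hs'
    unfold om at h
    exact (Finsupp.mem_support_iff.1 hs) (Finset.sum_eq_zero_iff.1 h s hs')
  · unfold om at h
    obtain ⟨s, hs, hs0⟩ := Finset.exists_ne_zero_of_sum_ne_zero h
    rw [Finset.prod_eq_zero (i := s) (Finsupp.mem_support_iff.2 hs0), mul_zero]
    rw [if_pos hs, zero_pow hs0]

lemma coeff_kill (ν : Sym2 (Lab α O) →₀ ℕ) (hν : om ν = 0) (F : MvPolynomial (Sym2 (Lab α O)) ℝ) :
    coeff ν (kill F) = coeff ν F := by
  classical
  induction F using MvPolynomial.induction_on' with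
  | monomial μ c =>
    rw [kill_monomial]
    split_ifs with h
    · rfl
    · rw [coeff_zero, coeff_monomial, if_neg]
      rintro rfl
      exact h hν
  | add p q hp hq => rw [map_add, coeff_add, coeff_add, hp, hq]

lemma eval_kill (y : Sym2 (Lab α O) → ℝ) (F : MvPolynomial (Sym2 (Lab α O)) ℝ) :
    eval y (kill F) = eval (killp y) F := by
  classical
  unfold kill
  rw [← MvPolynomial.coe_aeval_eq_eval, ← MvPolynomial.coe_aeval_eq_eval]
  have : (aeval y).comp (aeval (fun s => if s ∈ (Om : Finset (Sym2 (Lab α O))) then 0 else X s)) =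
      (aeval (killp y) : MvPolynomial (Sym2 (Lab α O)) ℝ →ₐ[ℝ] ℝ) := by
    apply MvPolynomial.algHom_ext
    intro s
    rw [AlgHom.comp_apply, aeval_X, aeval_X]
    unfold killp
    split_ifs <;> simp
  rw [← this]; rfl

/-- the linear form `∑_{a,b∈S} ξ_a·ξ_b` -/
def lf (S : Finset α) : MvPolynomial (Sym2 (Lab α O)) ℝ := ∑ a ∈ S, ∑ b ∈ S, X s(xi a, xi b)

lemma kill_lf_ne_zero (S : Finset α) (hS : 2 ≤ S.card) :
    kill (lf S : MvPolynomial (Sym2 (Lab α O)) ℝ) ≠ 0 := by
  classical
  intro h
  have h1 := congrArg (eval (fun _ => (1 : ℝ))) h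
  rw [eval_kill, map_zero] at h1
  unfold lf at h1
  simp only [map_sum, eval_X] at h1
  obtain ⟨a, ha, b, hb, hab⟩ := Finset.one_lt_card.1 (show 1 < S.card by omega)
  have h2 : ∀ s : Sym2 (Lab α O), 0 ≤ killp (fun _ => (1 : ℝ)) s := by
    intro s; unfold killp; split_ifs <;> norm_num
  have h3 : killp (fun _ => (1 : ℝ)) s((xi a : Lab α O), xi b) = 1 := by
    unfold killp
    rw [if_neg]
    rw [xi_mem_Om]
    rintro (h | h)
    · simp at h; exact hab h.symm
    · simp at h
  have h4 : killp (fun _ => (1 : ℝ)) s((xi a : Lab α O), xi b) ≤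
      ∑ b ∈ S, killp (fun _ => (1 : ℝ)) s((xi a : Lab α O), xi b) :=
    Finset.single_le_sum (f := fun b => killp (fun _ => (1 : ℝ)) s((xi a : Lab α O), xi b))
      (fun _ _ => h2 _) hb
  have h5 : ∑ b ∈ S, killp (fun _ => (1 : ℝ)) s((xi a : Lab α O), xi b) ≤
      ∑ a ∈ S, ∑ b ∈ S, killp (fun _ => (1 : ℝ)) s((xi a : Lab α O), xi b) :=
    Finset.single_le_sum (f := fun a => ∑ b ∈ S, killp (fun _ => (1 : ℝ)) s((xi a : Lab α O), xi b))
      (fun _ _ => Finset.sum_nonneg fun _ _ => h2 _) ha
  linarith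

/-- the polynomial vanishes when the on-shell variables are zero -/
theorem kill_eq_zero (hn : Fintype.card (Lab α O) ≤ n) (F : MvPolynomial (Sym2 (Lab α O)) ℝ)
    (hQ : SymbolData n (gam n F)) : kill F = 0 := by
  classical
  have hprod : (∏ S ∈ univ.filter (fun S : Finset α => 2 ≤ S.card),
      kill (lf S : MvPolynomial (Sym2 (Lab α O)) ℝ)) ≠ 0 := by
    rw [Finset.prod_ne_zero_iff]
    intro S hS
    exact kill_lf_ne_zero S (Finset.mem_filter.1 hS).2
  have h0 : kill F * (∏ S ∈ univ.filter (fun S : Finset α => 2 ≤ S.card),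
      kill (lf S : MvPolynomial (Sym2 (Lab α O)) ℝ)) = 0 := by
    apply MvPolynomial.funext
    intro y
    rw [map_mul, map_prod, map_zero]
    by_cases hz : ∃ S : Finset α, 2 ≤ S.card ∧ eval y (kill (lf S : MvPolynomial (Sym2 (Lab α O)) ℝ)) = 0
    · obtain ⟨S, hS, hS0⟩ := hz
      rw [Finset.prod_eq_zero (i := S) (Finset.mem_filter.2 ⟨Finset.mem_univ _, hS⟩) hS0, mul_zero]
    · push Not at hz
      obtain ⟨x, hx⟩ := exists_vec hn (fun s => ((killp y s : ℝ) : ℂ))
      have hOm : ∀ s ∈ (Om : Finset (Sym2 (Lab α O))), killp y s = 0 := by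
        intro s hs; unfold killp; rw [if_pos hs]
      have h1 := hQ.shell x (fun a => ⟨by
          rw [hx, hOm _ (qv_mem a)]; simp, by
          rw [hx, hOm _ (pv_mem a)]; simp, by
          rw [hx, hOm _ (ev_mem a)]; simp⟩) (by
        intro S hS hzero
        apply hz S hS
        rw [eval_kill]
        unfold lf
        simp only [map_sum, eval_X]
        have : ((∑ a ∈ S, ∑ b ∈ S, killp y s((xi a : Lab α O), xi b) : ℝ) : ℂ) =
            ∑ i, (∑ a ∈ S, x (xi a, i)) * (∑ a ∈ S, x (xi a, i)) := by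
          push_cast
          simp only [← hx, Finset.sum_mul_sum]
          rw [Finset.sum_comm]
          conv_rhs => rw [Finset.sum_comm]
          rw [Finset.sum_comm]
          refine Finset.sum_congr rfl fun a _ => ?_
          rw [Finset.sum_comm]
        rw [hzero] at this
        exact_mod_cast this)
      have h2 := aeval_gam x F (fun s => ((killp y s : ℝ) : ℂ)) hx
      rw [h1] at h2
      have h3 : aeval (fun s => ((killp y s : ℝ) : ℂ)) F = ((eval (killp y) F : ℝ) : ℂ) := by
        have := MvPolynomial.aeval_algebraMap_apply ℂ (killp y) F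
        simpa [MvPolynomial.aeval_eq_eval, Function.comp_def] using this
      rw [h3] at h2
      have h4 : eval (killp y) F = 0 := by exact_mod_cast h2.symm
      rw [eval_kill, h4, zero_mul]
  rcases mul_eq_zero.1 h0 with h | h
  · exact h
  · exact absurd h hprod

/-- the uniqueness theorem when there are at most `n` vectors -/
theorem alg_general (hn : 2 ≤ n) (hcard : Fintype.card (Lab α O) ≤ n)
    (Q : MvPolynomial (Lab α O × Fin n) ℝ) (hQ : SymbolData n Q)
    (hX : ∀ d ∈ Q.support, ∀ a, 2 ≤ ldeg (xi a) d) : Q = 0 := by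
  obtain ⟨F, rfl⟩ := hQ.gram
  change gam n F = 0
  replace hX : ∀ d ∈ (gam n F).support, ∀ a, 2 ≤ ldeg (xi a) d := hX
  replace hQ : SymbolData n (gam n F) := hQ
  by_contra hne
  have hF : F ≠ 0 := by rintro rfl; exact hne (map_zero _)
  have hD : DegOK n F := by
    refine ⟨?_, ?_, ?_⟩
    · intro ν hν a
      obtain ⟨d, hd, h⟩ := exists_deg hcard F ν hν
      rw [← h]; exact hQ.degEp d hd a
    · intro ν hν a
      obtain ⟨d, hd, h⟩ := exists_deg hcard F ν hν
      rw [← h]; exact hX d hd a
    · intro ν hν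
      obtain ⟨d, hd, h⟩ := exists_deg hcard F ν hν
      simp only [← h]; exact hQ.degXi d hd
  have hG : ∀ c, Rop (ep c) (xi c) F = 0 := by
    intro c
    apply gam_injective hcard
    rw [← RR_gam, map_zero]; exact hQ.gauge c
  have hL : ∀ c, LapF n (ep c) (ep c) F = 0 := by
    intro c
    apply gam_injective hcard
    rw [← LL_gam, map_zero]; exact hQ.trace c
  obtain ⟨ν, hν, h0⟩ := exists_om_zero hn hD (Kc_eq_zero hcard F hQ.conf) hG hL hF
  apply mem_support_iff.1 hν
  rw [← coeff_kill ν h0, kill_eq_zero hcard F hQ, coeff_zero]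

end

end GJMS
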