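import Mathlib
import Pool.Agent.GJMS.AlgShell

/-!
# The degree in each `ξ_a` is at least two
-/

open Finset MvPolynomial

namespace GJMS

noncomputable section

set_option linter.unusedSectionVars false

section low

variable {L : Type} {n : ℕ}

/-- second mixed derivatives commute -/
lemma pderiv_pderiv_comm {σ : Type} (i j : σ) (Q : MvPolynomial σ ℝ) :
    pderiv i (pderiv j Q) = pderiv j (pderiv i Q) := by
  classical
  ext d
  simp only [coeff_pderiv]
  by_cases h : i = j
  · rw [h]
  · rw [add_right_comm]
    simp [h, Ne.symm h]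
    ring

lemma coeff_sum_X_mul_one (v : L) (G : Fin n → MvPolynomial (L × Fin n) ℝ)
    (κ : L × Fin n →₀ ℕ) (hκ : ∀ i, κ (v, i) = 0) (i : Fin n) :
    coeff (κ + Finsupp.single (v, i) 1) (∑ m, X (v, m) * G m) = coeff κ (G i) := by
  classical
  rw [coeff_sum, Finset.sum_eq_single i]
  · rw [add_comm, coeff_X_mul]
  · intro m _ hm
    apply coeff_X_mul_eq_zero
    intro κ' h
    exfalso
    have := congrArg (fun f => f (v, m)) h
    simp only [Finsupp.add_apply, hκ, Finsupp.single_eq_same] at this
    rw [Finsupp.single_eq_of_ne] at this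
    · omega
    · intro h'; exact hm (congrArg Prod.snd h')
  · intro h; exact absurd (Finset.mem_univ _) h

lemma coeff_sum_X_mul_two (v : L) (G : Fin n → MvPolynomial (L × Fin n) ℝ)
    (κ : L × Fin n →₀ ℕ) (hκ : ∀ i, κ (v, i) = 0) (i k : Fin n) (hik : i ≠ k) :
    coeff (κ + Finsupp.single (v, i) 1 + Finsupp.single (v, k) 1) (∑ m, X (v, m) * G m) =
      coeff (κ + Finsupp.single (v, k) 1) (G i) + coeff (κ + Finsupp.single (v, i) 1) (G k) := by
  classical
  rw [coeff_sum, ← Finset.sum_subset (Finset.subset_univ {i, k}), Finset.sum_pair hik]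
  · congr 1
    · rw [show κ + Finsupp.single (v, i) 1 + Finsupp.single (v, k) 1 =
        Finsupp.single (v, i) 1 + (κ + Finsupp.single (v, k) 1) by abel, coeff_X_mul]
    · rw [add_comm, coeff_X_mul]
  · intro m _ hm
    apply coeff_X_mul_eq_zero
    intro κ' h
    exfalso
    simp only [Finset.mem_insert, Finset.mem_singleton, not_or] at hm
    have := congrArg (fun f => f (v, m)) h
    simp only [Finsupp.add_apply, hκ, Finsupp.single_eq_same] at this
    rw [Finsupp.single_eq_of_ne, Finsupp.single_eq_of_ne] at this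
    · omega
    · intro h'; exact hm.2 (congrArg Prod.snd h')
    · intro h'; exact hm.1 (congrArg Prod.snd h')

lemma coeff_sum_X_mul_diag (v : L) (G : Fin n → MvPolynomial (L × Fin n) ℝ)
    (κ : L × Fin n →₀ ℕ) (hκ : ∀ i, κ (v, i) = 0) (i : Fin n) :
    coeff (κ + Finsupp.single (v, i) 1 + Finsupp.single (v, i) 1) (∑ m, X (v, m) * G m) =
      coeff (κ + Finsupp.single (v, i) 1) (G i) := by
  classical
  rw [coeff_sum, Finset.sum_eq_single i]
  · rw [add_comm, coeff_X_mul]
  · intro m _ hm
    apply coeff_X_mul_eq_zero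
    intro κ' h
    exfalso
    have := congrArg (fun f => f (v, m)) h
    simp only [Finsupp.add_apply, hκ, Finsupp.single_eq_same] at this
    rw [Finsupp.single_eq_of_ne] at this
    · omega
    · intro h'; exact hm (congrArg Prod.snd h')
  · intro h; exact absurd (Finset.mem_univ _) h

lemma exists_single_of_ldeg {u : L} {d : L × Fin n →₀ ℕ} {k : ℕ} (h : ldeg u d = k + 1) :
    ∃ i d', d = d' + Finsupp.single (u, i) 1 ∧ ldeg u d' = k := by
  classical
  obtain ⟨i, _, hi⟩ : ∃ i ∈ univ, d (u, i) ≠ 0 := by
    apply Finset.exists_ne_zero_of_sum_ne_zero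
    unfold ldeg at h
    omega
  refine ⟨i, d - Finsupp.single (u, i) 1, (tsub_add_cancel_of_le
    (Finsupp.single_le_iff.2 (Nat.one_le_iff_ne_zero.2 hi))).symm, ?_⟩
  have h1 : d - Finsupp.single (u, i) 1 + Finsupp.single (u, i) 1 = d := tsub_add_cancel_of_le
    (Finsupp.single_le_iff.2 (Nat.one_le_iff_ne_zero.2 hi))
  have h2 : ldeg u (d - Finsupp.single (u, i) 1 + Finsupp.single (u, i) 1) =
      ldeg u (d - Finsupp.single (u, i) 1) + 1 := by
    unfold ldeg
    simp only [Finsupp.add_apply, Finset.sum_add_distrib]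
    congr 1
    rw [Finset.sum_eq_single i]
    · simp
    · intro j _ hj
      rw [Finsupp.single_eq_of_ne]
      intro h'; exact hj (congrArg Prod.snd h')
    · simp
  rw [h1] at h2
  omega

lemma ldeg_add_single_of_ne {u v : L} (huv : u ≠ v) (d : L × Fin n →₀ ℕ) (i : Fin n) :
    ldeg u (d + Finsupp.single (v, i) 1) = ldeg u d := by
  classical
  unfold ldeg
  refine Finset.sum_congr rfl fun j _ => ?_
  rw [Finsupp.add_apply, Finsupp.single_eq_of_ne, add_zero]
  intro h'; exact huv (congrArg Prod.fst h')

/-- degree at least two in `v` from `v·∂_u Q = 0`, if `Q` is quadratic in `u` -/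
theorem two_le_ldeg {u v : L} (huv : u ≠ v) (Q : MvPolynomial (L × Fin n) ℝ)
    (hG : RR n u v Q = 0) (hE : ∀ d ∈ Q.support, ldeg u d = 2) :
    ∀ d ∈ Q.support, 2 ≤ ldeg v d := by
  classical
  intro d hd
  by_contra hlt
  have hd0 := mem_support_iff.1 hd
  have hu := hE d hd
  unfold RR at hG
  rcases Nat.lt_or_ge (ldeg v d) 1 with h0 | h1
  · -- degree zero
    obtain ⟨i, d', rfl, hd'⟩ := exists_single_of_ldeg hu
    have hv : ∀ j, d' (v, j) = 0 := by
      intro j
      rw [ldeg_add_single_of_ne huv.symm] at h0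
      unfold ldeg at h0
      have := Finset.single_le_sum (f := fun j => d' (v, j)) (fun _ _ => Nat.zero_le _)
        (Finset.mem_univ j)
      omega
    have h2 := coeff_sum_X_mul_one v (fun m => pderiv (u, m) Q) d' hv i
    rw [hG, coeff_zero, coeff_pderiv] at h2
    rcases mul_eq_zero.1 h2.symm with h | h
    · exact hd0 h
    · have : (0 : ℝ) ≤ ((d' (u, i) : ℕ) : ℝ) := Nat.cast_nonneg _
      linarith
  · -- degree one
    have hv1 : ldeg v d = 0 + 1 := by omega
    obtain ⟨j, d', rfl, hd'⟩ := exists_single_of_ldeg hu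
    obtain ⟨l, d'', rfl, hd''⟩ := exists_single_of_ldeg hd'
    rw [ldeg_add_single_of_ne huv.symm, ldeg_add_single_of_ne huv.symm] at hv1
    obtain ⟨i, κ, rfl, hκ0⟩ := exists_single_of_ldeg hv1
    have hκ : ∀ j, κ (v, j) = 0 := by
      intro j
      unfold ldeg at hκ0
      have := Finset.single_le_sum (f := fun j => κ (v, j)) (fun _ _ => Nat.zero_le _)
        (Finset.mem_univ j)
      omega
    set T : Fin n → Fin n → Fin n → ℝ := fun i j l =>
      coeff (κ + Finsupp.single (v, i) 1) (pderiv (u, l) (pderiv (u, j) Q)) with hT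
    have hsymm : ∀ i j l, T i j l = T i l j := by
      intro i j l
      simp only [hT]
      rw [pderiv_pderiv_comm]
    have hG2 : ∀ l, ∑ m, X (v, m) * pderiv (u, l) (pderiv (u, m) Q) = 0 := by
      intro l
      have := congrArg (pderiv (u, l)) hG
      rw [map_sum, map_zero] at this
      rw [← this]
      refine Finset.sum_congr rfl fun m _ => ?_
      rw [Derivation.leibniz, pderiv_X_of_ne]
      · simp
      · intro h; exact huv (congrArg Prod.fst h).symm
    have hanti : ∀ i k l, T i k l = - T k i l := by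
      intro i k l
      by_cases hik : i = k
      · subst hik
        have := coeff_sum_X_mul_diag v (fun m => pderiv (u, l) (pderiv (u, m) Q)) κ hκ i
        rw [hG2, coeff_zero] at this
        simp only [hT]
        rw [← this, neg_zero]
      · have := coeff_sum_X_mul_two v (fun m => pderiv (u, l) (pderiv (u, m) Q)) κ hκ i k hik
        rw [hG2, coeff_zero] at this
        simp only [hT]
        linarith
    have hT0 : T i j l = 0 := by
      have e1 := hanti i j l
      have e2 := hsymm j i l
      have e3 := hanti j l i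
      have e4 := hsymm l j i
      have e5 := hanti l i j
      have e6 := hsymm i l j
      linarith
    simp only [hT] at hT0
    rw [coeff_pderiv, coeff_pderiv] at hT0
    rcases mul_eq_zero.1 hT0 with h | h
    · rcases mul_eq_zero.1 h with h | h
      · exact hd0 h
      · have := Nat.cast_nonneg (α := ℝ) ((κ + Finsupp.single (v, i) 1 + Finsupp.single (u, l) 1 :
          L × Fin n →₀ ℕ) (u, j))
        linarith
    · have := Nat.cast_nonneg (α := ℝ) ((κ + Finsupp.single (v, i) 1 : L × Fin n →₀ ℕ) (u, l))
      linarith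

end low

end

end GJMS
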