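import Mathlib
import Pool.Agent.GJMS.AlgLow

/-!
# Uniqueness of the symbol: the main algebraic theorem
-/

open Finset MvPolynomial

namespace GJMS

noncomputable section

set_option linter.unusedSectionVars false

variable {α : Type} [Fintype α] [DecidableEq α] {n : ℕ}

/-- forgetting that there is a further vector -/
def jL (α : Type) : Lab α Empty → Lab α Unit := Sum.map id Empty.elim

lemma jL_injective : Function.Injective (jL α) := by
  rintro (a | o) (b | o') h
  · simpa [jL] using h
  · exact o'.elim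
  · exact o.elim
  · exact o.elim

/-- the same on coordinates -/
def jC (α : Type) (n : ℕ) : Lab α Empty × Fin n → Lab α Unit × Fin n := fun p => (jL α p.1, p.2)

lemma jC_injective : Function.Injective (jC α n) := by
  rintro ⟨u, i⟩ ⟨v, j⟩ h
  simp only [jC, Prod.mk.injEq] at h
  rw [jL_injective h.1, h.2]

/-- a left inverse of `rename (jC α n)`: the coordinates of the further vector are set to zero -/
def phi (α : Type) (n : ℕ) :
    MvPolynomial (Lab α Unit × Fin n) ℝ →ₐ[ℝ] MvPolynomial (Lab α Empty × Fin n) ℝ :=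
  aeval (fun p => match p with
    | (Sum.inl a, i) => X (Sum.inl a, i)
    | (Sum.inr _, _) => 0)

lemma phi_rename (Q : MvPolynomial (Lab α Empty × Fin n) ℝ) :
    phi α n (rename (jC α n) Q) = Q := by
  have : (phi α n).comp (rename (jC α n)) = AlgHom.id ℝ _ := by
    apply MvPolynomial.algHom_ext
    rintro ⟨a | o, i⟩
    · simp [phi, jC, jL]
    · exact o.elim
  exact congrArg (fun f => f Q) this

/-- the same on inner products -/
def psi (α : Type) : MvPolynomial (Sym2 (Lab α Unit)) ℝ →ₐ[ℝ] MvPolynomial (Sym2 (Lab α Empty)) ℝ :=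
  aeval (Sym2.lift ⟨fun u v => match u, v with
    | Sum.inl a, Sum.inl b => X s(Sum.inl a, Sum.inl b)
    | _, _ => 0, by
      rintro (a | o) (b | o')
      · simp only; rw [Sym2.eq_swap]
      all_goals rfl⟩)

lemma phi_gam (F : MvPolynomial (Sym2 (Lab α Unit)) ℝ) :
    phi α n (gam n F) = gam n (psi α F) := by
  have : (phi α n).comp (gam n) = (gam n).comp (psi α) := by
    apply MvPolynomial.algHom_ext
    intro s
    induction s using Sym2.ind with
    | _ a b =>
      rw [AlgHom.comp_apply, AlgHom.comp_apply, gam_X]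
      rcases a with a | o <;> rcases b with b | o' <;> simp [phi, psi, ip, gam]
  exact congrArg (fun f => f F) this

lemma pderiv_jC (u : Lab α Empty) (i : Fin n) (Q : MvPolynomial (Lab α Empty × Fin n) ℝ) :
    pderiv (jL α u, i) (rename (jC α n) Q) = rename (jC α n) (pderiv (u, i) Q) := by
  rw [show (jL α u, i) = jC α n (u, i) from rfl, pderiv_rename jC_injective]

lemma pderiv_jC_ex (o : Unit) (i : Fin n) (Q : MvPolynomial (Lab α Empty × Fin n) ℝ) :
    pderiv (ex o, i) (rename (jC α n) Q) = 0 := by
  classical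
  apply pderiv_eq_zero_of_notMem_vars
  intro h
  have := vars_rename (jC α n) Q h
  rw [Finset.mem_image] at this
  obtain ⟨⟨v | o', j⟩, _, hv⟩ := this
  · simp [jC, jL] at hv
  · exact o'.elim

lemma RR_jC (u v : Lab α Empty) (Q : MvPolynomial (Lab α Empty × Fin n) ℝ) :
    RR n (jL α u) (jL α v) (rename (jC α n) Q) = rename (jC α n) (RR n u v Q) := by
  unfold RR
  rw [map_sum]
  refine Finset.sum_congr rfl fun i _ => ?_
  rw [pderiv_jC, map_mul, rename_X]; rfl

lemma LL_jC (u v : Lab α Empty) (Q : MvPolynomial (Lab α Empty × Fin n) ℝ) :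
    LL n (jL α u) (jL α v) (rename (jC α n) Q) = rename (jC α n) (LL n u v Q) := by
  unfold LL
  rw [map_sum]
  refine Finset.sum_congr rfl fun i _ => ?_
  rw [pderiv_jC, pderiv_jC]

lemma KA_jC (m : Fin n) (a : α) (Q : MvPolynomial (Lab α Empty × Fin n) ℝ) :
    KA n m a (rename (jC α n) Q) = rename (jC α n) (KA n m a Q) := by
  have hx : (xi a : Lab α Unit) = jL α (xi a) := rfl
  have he : (ep a : Lab α Unit) = jL α (ep a) := rfl
  unfold KA
  rw [hx, he, LL_jC, LL_jC, pderiv_jC, pderiv_jC, RR_jC, RR_jC]
  simp only [map_add, map_sub, map_mul, rename_X, map_ofNat]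
  rfl

lemma KO_jC (m : Fin n) (o : Unit) (Q : MvPolynomial (Lab α Empty × Fin n) ℝ) :
    KO n m o (rename (jC α n) Q) = 0 := by
  unfold KO LL RR
  simp [pderiv_jC_ex]

lemma ldeg_mapDomain (u : Lab α Empty) (d : Lab α Empty × Fin n →₀ ℕ) :
    ldeg (jL α u) (Finsupp.mapDomain (jC α n) d) = ldeg u d := by
  unfold ldeg
  refine Finset.sum_congr rfl fun i _ => ?_
  rw [show (jL α u, i) = jC α n (u, i) from rfl, Finsupp.mapDomain_apply jC_injective]

/-- the conditions transfer when the further vector does not occur -/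
lemma SymbolData.restrict {Q : MvPolynomial (Lab α Empty × Fin n) ℝ}
    (hQ : SymbolData n (rename (jC α n) Q)) : SymbolData n Q := by
  have hinj : Function.Injective (rename (jC α n) : MvPolynomial _ ℝ → MvPolynomial _ ℝ) :=
    rename_injective _ jC_injective
  have hsupp : ∀ d ∈ Q.support, Finsupp.mapDomain (jC α n) d ∈ (rename (jC α n) Q).support := by
    intro d hd
    rw [mem_support_iff, coeff_rename_mapDomain _ jC_injective]
    exact mem_support_iff.1 hd
  refine ⟨?_, ?_, ?_, ?_, ?_, ?_, ?_⟩
  · obtain ⟨F, hF⟩ := hQ.gram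
    refine ⟨psi α F, ?_⟩
    change gam n (psi α F) = Q
    rw [← phi_gam]
    change gam n F = _ at hF
    rw [hF, phi_rename]
  · intro a
    apply hinj
    rw [map_zero, ← RR_jC]
    exact hQ.gauge a
  · intro a
    apply hinj
    rw [map_zero, ← LL_jC]
    exact hQ.trace a
  · intro m
    apply hinj
    rw [map_zero, ← hQ.conf m]
    unfold KK
    simp only [KA_jC, KO_jC, map_add, map_sum]
    simp
  · intro d hd a
    rw [← hQ.degEp _ (hsupp d hd) a]
    exact (ldeg_mapDomain (ep a) d).symm
  · intro d hd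
    have h1 := hQ.degXi _ (hsupp d hd)
    have h2 : ∀ a, ldeg (xi a : Lab α Unit) (Finsupp.mapDomain (jC α n) d) = ldeg (xi a) d :=
      fun a => ldeg_mapDomain (xi a) d
    have h3 : ∀ o, ldeg (ex o : Lab α Unit) (Finsupp.mapDomain (jC α n) d) = 0 := by
      intro o
      unfold ldeg
      apply Finset.sum_eq_zero
      intro i _
      apply Finsupp.mapDomain_of_notMem_range
      rintro ⟨⟨v | o', j⟩, hv⟩
      · simp [jC, jL] at hv
      · exact o'.elim
    simp only [h2, h3] at h1
    simpa using h1
  · intro x hx hS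
    set x' : Lab α Unit × Fin n → ℂ := fun p => match p with
      | (Sum.inl a, i) => x (Sum.inl a, i)
      | (Sum.inr _, _) => 0 with hx'
    have h1 := hQ.shell x' (fun a => hx a) (fun S hS' => hS S hS')
    rw [aeval_rename] at h1
    have h2 : x' ∘ jC α n = x := by
      funext p
      rcases p with ⟨v | o', j⟩
      · rfl
      · exact o'.elim
    rw [h2] at h1
    exact h1

/-- **Main algebraic theorem.** -/
theorem alg_main (hn : 2 ≤ n) (Q : MvPolynomial (Lab α Unit × Fin n) ℝ)
    (hQ : SymbolData n Q) : Q = 0 := by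
  classical
  have hX : ∀ d ∈ Q.support, ∀ a, 2 ≤ ldeg (xi a) d := fun d hd a =>
    two_le_ldeg (u := ep a) (v := xi a) (by simp) Q (hQ.gauge a) (fun d hd => hQ.degEp d hd a) d hd
  by_contra hne
  obtain ⟨d0, hd0⟩ := support_nonempty.2 hne
  have hsum : ∀ d ∈ Q.support, 2 * Fintype.card α ≤ ∑ a, ldeg (xi a) d := by
    intro d hd
    calc 2 * Fintype.card α = ∑ _a : α, 2 := by simp [mul_comm]
      _ ≤ _ := Finset.sum_le_sum fun a _ => hX d hd a
  have hcardU : Fintype.card (Lab α Unit) = 2 * Fintype.card α + 1 := by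
    simp [Fintype.card_sum, Fintype.card_prod, mul_comm]
  have hcardE : Fintype.card (Lab α Empty) = 2 * Fintype.card α := by
    simp [Fintype.card_sum, Fintype.card_prod, mul_comm]
  rcases Nat.lt_or_ge n (2 * Fintype.card α + 1) with h | h
  · have hex : ∀ d ∈ Q.support, ∀ i, d (ex (), i) = 0 := by
      intro d hd i
      have h1 := hQ.degXi d hd
      have h2 := hsum d hd
      have h3 : ∑ o : Unit, ldeg (ex o) d = 0 := by omega
      rw [Finset.sum_eq_zero_iff] at h3
      have h4 := h3 () (Finset.mem_univ _)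
      unfold ldeg at h4
      rw [Finset.sum_eq_zero_iff] at h4
      exact h4 i (Finset.mem_univ _)
    obtain ⟨Q', rfl⟩ : ∃ Q' : MvPolynomial (Lab α Empty × Fin n) ℝ, rename (jC α n) Q' = Q := by
      apply exists_rename_eq_of_vars_subset_range Q (jC α n) jC_injective
      rintro ⟨v, i⟩ hv
      rw [Finset.mem_coe, mem_vars_iff_mem_support] at hv
      obtain ⟨d, hd, hdv⟩ := hv
      rcases v with v | o
      · exact ⟨(Sum.inl v, i), rfl⟩
      · exact absurd (hex d hd i) (Finsupp.mem_support_iff.1 hdv)
    have hQ' := SymbolData.restrict hQ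
    have hle : 2 * Fintype.card α ≤ n := by
      have h1 := hQ.degXi d0 hd0
      have h2 := hsum d0 hd0
      omega
    have h0 : Q' = 0 := by
      apply alg_general hn (by rw [hcardE]; exact hle) Q' hQ'
      intro d hd a
      exact two_le_ldeg (u := ep a) (v := xi a) (by simp) Q' (hQ'.gauge a)
        (fun d hd => hQ'.degEp d hd a) d hd
    exact hne (by rw [h0, map_zero])
  · exact hne (alg_general hn (by rw [hcardU]; exact h) Q hQ hX)

end

end GJMS
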