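import Mathlib

/-!
# Natural operators in coordinates, over an arbitrary commutative ring with
# `n` maps `d i` (partial derivatives)

All formulas make sense over a commutative `ℝ`-algebra `A` with maps
`d : Fin n → A → A`.  The smooth case is `A = ((Fin n → ℝ) → ℝ)` with the partial
derivatives.
-/

open Finset
open scoped ContDiff

namespace GJMS

noncomputable section

variable {n : ℕ} {A : Type*} [CommRing A] [Algebra ℝ A]

/-- Christoffel symbols `Γ^c_{ab}` -/
def chr (d : Fin n → A → A) (g gi : Fin n → Fin n → A) (c a b : Fin n) : A :=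
  (1 / 2 : ℝ) • ∑ e, gi c e * (d a (g b e) + d b (g a e) - d e (g a b))

/-- covariant derivative of a covariant tensor with `r` slots; the new slot is the first one. -/
def nab (d : Fin n → A → A) (Γ : Fin n → Fin n → Fin n → A) {r : ℕ}
    (T : (Fin r → Fin n) → A) (w : Fin (r + 1) → Fin n) : A :=
  d (w 0) (T (Fin.tail w)) -
    ∑ s : Fin r, ∑ c, Γ c (w 0) (w s.succ) * T (Function.update (Fin.tail w) s c)

/-- Ricci curvature `Ric_{ab}` -/
def ric (d : Fin n → A → A) (Γ : Fin n → Fin n → Fin n → A) (a b : Fin n) : A :=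
  (∑ c, (d c (Γ c a b) - d b (Γ c a c))) + ∑ c, ∑ e, (Γ c c e * Γ e a b - Γ c b e * Γ e a c)

/-- scalar curvature -/
def scal (d : Fin n → A → A) (g gi : Fin n → Fin n → A) : A :=
  ∑ a, ∑ b, gi a b * ric d (chr d g gi) a b

/-- Schouten tensor `P_{ab} = (Ric_{ab} - R g_{ab} / (2(n-1))) / (n-2)` -/
def sch (d : Fin n → A → A) (g gi : Fin n → Fin n → A) (a b : Fin n) : A :=
  (1 / ((n : ℝ) - 2)) •
    (ric d (chr d g gi) a b - (1 / (2 * ((n : ℝ) - 1))) • (scal d g gi * g a b))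

/-- `∇^l P`, with `l + 2` slots -/
def nabP (d : Fin n → A → A) (g gi : Fin n → Fin n → A) :
    (l : ℕ) → (Fin (l + 2) → Fin n) → A
  | 0 => fun w => sch d g gi (w 0) (w 1)
  | (l + 1) => nab d (chr d g gi) (nabP d g gi l)

/-- `∇^k f`, with `k` slots -/
def nabF (d : Fin n → A → A) (g gi : Fin n → Fin n → A) (f : A) :
    (k : ℕ) → (Fin k → Fin n) → A
  | 0 => fun _ => f
  | (k + 1) => nab d (chr d g gi) (nabF d g gi f k)

/-- the Laplacian on functions `g^{ab} ∇_a ∇_b f` -/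
def lap (d : Fin n → A → A) (g gi : Fin n → Fin n → A) (f : A) : A :=
  ∑ a, ∑ b, gi a b * nabF d g gi f 2 ![a, b]

/-- The data of a complete contraction of `∇^{l_1} P ⊗ ⋯ ⊗ ∇^{l_m} P ⊗ ∇^k f`:
the numbers `m`, `l_j`, `k` and a perfect matching of all the slots. -/
structure Contr where
  m : ℕ
  l : Fin m → ℕ
  k : ℕ
  p : ℕ
  e : Fin p × Bool ≃ ((j : Fin m) × Fin (l j + 2)) ⊕ Fin k

/-- the value of a complete contraction -/
def Contr.eval (C : Contr) (d : Fin n → A → A) (g gi : Fin n → Fin n → A) (f : A) : A :=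
  ∑ w : ((j : Fin C.m) × Fin (C.l j + 2)) ⊕ Fin C.k → Fin n,
    (∏ q : Fin C.p, gi (w (C.e (q, false))) (w (C.e (q, true)))) *
      ((∏ j : Fin C.m, nabP d g gi (C.l j) (fun s => w (Sum.inl ⟨j, s⟩))) *
        nabF d g gi f C.k (fun s => w (Sum.inr s)))

/-- A linear combination of complete contractions. -/
def opEval (L : List (ℝ × Contr)) (d : Fin n → A → A) (g gi : Fin n → Fin n → A) (f : A) : A :=
  (L.map (fun x => x.1 • x.2.eval d g gi f)).sum

/-- the operator `Δ^{n/2} f + ∑ c C(f)`, where `∑ c C` is the linear combination `L` of complete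
contractions -/
def DD (n : ℕ) (L : List (ℝ × Contr)) {A : Type} [CommRing A] [Algebra ℝ A] (d : Fin n → A → A)
    (g gi : Fin n → Fin n → A) (f : A) : A :=
  (lap d g gi)^[n / 2] f + opEval L d g gi f

/-! ### Smooth metrics -/

/-- functions on `ℝ^N` -/
abbrev Raw (N : ℕ) : Type := (Fin N → ℝ) → ℝ

/-- the partial derivative with respect to the `i`-th coordinate -/
def pd {N : ℕ} (i : Fin N) (F : Raw N) : Raw N := fun x => fderiv ℝ F x (Pi.single i 1)

/-- the inverse matrix of `g`, pointwise -/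
def minv {N : ℕ} (g : Fin N → Fin N → Raw N) (a b : Fin N) : Raw N :=
  fun x => (Matrix.of (fun a b => g a b x))⁻¹ a b

/-- `g` is a smooth pseudo-Riemannian metric on the open set `U ⊆ ℝ^n` -/
structure IsMet {n : ℕ} (U : Set (Fin n → ℝ)) (g : Fin n → Fin n → Raw n) : Prop where
  /-- `U` is open -/
  open_U : IsOpen U
  /-- the components are smooth on `U` -/
  smooth : ∀ i j, ContDiffOn ℝ ∞ (g i j) U
  /-- `g` is symmetric -/
  symm : ∀ x ∈ U, ∀ i j, g i j x = g j i x
  /-- `g` is nondegenerate -/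
  nondeg : ∀ x ∈ U, Matrix.det (Matrix.of (fun i j => g i j x)) ≠ 0

/-- `g` is a smooth Riemannian (positive definite) metric on `ℝ^n` -/
structure IsRiem {n : ℕ} (g : Fin n → Fin n → Raw n) : Prop where
  /-- the components are smooth -/
  smooth : ∀ i j, ContDiff ℝ ∞ (g i j)
  /-- `g` is symmetric -/
  symm : ∀ i j x, g i j x = g j i x
  /-- `g` is positive definite -/
  pos : ∀ x, ∀ y : Fin n → ℝ, y ≠ 0 → 0 < ∑ i, ∑ j, g i j x * (y i * y j)

/-- the metric `e^{2w} g` -/
def cmet {n : ℕ} (w : Raw n) (g : Fin n → Fin n → Raw n) (i j : Fin n) : Raw n :=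
  fun x => Real.exp (2 * w x) * g i j x

/-- `D = Δ^{n/2} + ∑ c C` satisfies `D_{e^{2w} g} f = e^{-n w} D_g f` for all smooth Riemannian
metrics `g` on `ℝ^n` and all smooth functions `f`, `w` on `ℝ^n` -/
def ConfInvt (n : ℕ) (L : List (ℝ × Contr)) : Prop :=
  ∀ (g : Fin n → Fin n → Raw n) (f w : Raw n), IsRiem g → ContDiff ℝ ∞ f → ContDiff ℝ ∞ w → ∀ x,
    DD n L pd (cmet w g) (minv (cmet w g)) f x = Real.exp (-(n * w x)) * DD n L pd g (minv g) f x

/-! ### The ambient metric

Coordinates on `ℝ^{n+2}`: `z 0 = log t` is the logarithm of the homogeneity variable `t > 0`,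
`z 1 = ρ`, and `z (i + 2) = x_i`. -/

/-- the point `x` of the base below the point `z` of the ambient space -/
def bpt {n : ℕ} (z : Fin (n + 2) → ℝ) : Fin n → ℝ := fun i => z i.succ.succ

/-- the vector with the entries `x0`, `x1` and `xe i` at the places `0`, `1` and `i + 2` -/
def blk {n : ℕ} {M : Type*} (x0 x1 : M) (xe : Fin n → M) : Fin (n + 2) → M :=
  Fin.cases x0 (Fin.cases x1 xe)

/-- the matrix with the rows `(2 r T, T, 0)`, `(T, 0, 0)`, `(0, 0, T G)` -/
def aG {n : ℕ} {R : Type} [CommRing R] (T r : R) (G : Fin n → Fin n → R) :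
    Fin (n + 2) → Fin (n + 2) → R :=
  blk (blk ((r + r) * T) T fun _ => 0) (blk T 0 fun _ => 0) (fun i => blk 0 0 fun j => T * G i j)

/-- the ambient metric `2 ρ dt² + 2 t dt dρ + t² G_{ij}(x, ρ) dx^i dx^j` in the coordinates
`log t, ρ, x`, that is `e^{2 z₀} (2 z₁ dz₀² + 2 dz₀ dz₁ + G_{ij} dx^i dx^j)` -/
def ambG {n : ℕ} (G : Fin n → Fin n → Raw (n + 2)) : Fin (n + 2) → Fin (n + 2) → Raw (n + 2) :=
  aG (fun z => Real.exp (2 * z 0)) (fun z => z 1) G

/-- `G` is the family `g_ρ` of an ambient metric of `(U, g)` in normal form, defined on the open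
set `W`: `g_ρ = g` for `ρ = 0` and the components `Ric_{ij}` of the ambient Ricci tensor vanish
to order `ρ^{n/2-1}`. -/
structure IsAmb {n : ℕ} (U : Set (Fin n → ℝ)) (g : Fin n → Fin n → Raw n)
    (W : Set (Fin (n + 2) → ℝ)) (G : Fin n → Fin n → Raw (n + 2)) : Prop where
  /-- `W` is open -/
  open_W : IsOpen W
  /-- `W` lies over `U` -/
  base : ∀ z ∈ W, bpt z ∈ U
  /-- `G` is smooth -/
  smooth : ∀ i j, ContDiffOn ℝ ∞ (G i j) W
  /-- `G` is symmetric -/
  symm : ∀ z ∈ W, ∀ i j, G i j z = G j i z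
  /-- `G` is nondegenerate -/
  nondeg : ∀ z ∈ W, Matrix.det (Matrix.of (fun i j => G i j z)) ≠ 0
  /-- the ambient metric is homogeneous of degree two -/
  homog : ∀ z ∈ W, ∀ i j, pd 0 (G i j) z = 0
  /-- `g_0 = g` -/
  init : ∀ z ∈ W, z 1 = 0 → ∀ i j, G i j z = g i j (bpt z)
  /-- the Ricci tensor vanishes to order `n/2 - 1` -/
  ricci : ∀ i j : Fin n, ∀ k < n / 2 - 1, ∀ z ∈ W, z 1 = 0 →
    (pd 1)^[k] (ric pd (chr pd (ambG G) (minv (ambG G))) i.succ.succ j.succ.succ) z = 0

/-- `F` is a smooth extension of `f`, homogeneous of degree `0`, to the open set `W` -/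
structure IsExt {n : ℕ} (f : Raw n) (W : Set (Fin (n + 2) → ℝ)) (F : Raw (n + 2)) : Prop where
  /-- `F` is smooth -/
  smooth : ContDiffOn ℝ ∞ F W
  /-- `F` is homogeneous of degree `0` -/
  homog : ∀ z ∈ W, pd 0 F z = 0
  /-- `F` extends `f` -/
  init : ∀ z ∈ W, z 1 = 0 → F z = f (bpt z)

end

end GJMS
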