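import Pool.Agent.GJMS.Lead

/-! # The equations for the leading part -/

open Finset MvPolynomial

namespace GJMS

noncomputable section

variable {n : ℕ}

/-! ### inverse metrics under infinitesimal diffeomorphisms -/

lemma inv_cov {A : Type} [CommRing A] [Algebra ℝ A] (D : Fin n → Derivation ℝ A A)
    (N : Ideal A) (hN : ∀ x ∈ N, ∀ y ∈ N, x * y = 0) (hDN : ∀ i, ∀ x ∈ N, D i x ∈ N)
    (X : Fin n → A) (hX : ∀ c, X c ∈ N) (g gi : Fin n → Fin n → A) (_ : ∀ a b, g a b = g b a)
    (hgi : ∀ a b, ∑ c, gi a c * g b c = if a = b then 1 else 0) (a b : Fin n) :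
    ∑ c, (gi a c + lieU (fun i => D i) X gi a c) * (g b c + lieL (fun i => D i) X g b c)
      = if a = b then 1 else 0 := by
  have h1 : ∀ c, (gi a c + lieU (fun i => D i) X gi a c) * (g b c + lieL (fun i => D i) X g b c)
      = gi a c * g b c + (lieU (fun i => D i) X gi a c * g b c + gi a c * lieL (fun i => D i) X g b c) := by
    intro c
    linear_combination hN _ (lieU_mem D N hDN X hX gi a c) _ (lieL_mem D N hDN X hX g b c)
  simp_rw [h1]
  rw [Finset.sum_add_distrib, hgi]
  have hgi' : ∀ a b, vf D X (∑ c, gi a c * g b c) = 0 := by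
    intro a b
    rw [hgi]
    split_ifs
    · exact (vf D X).map_one_eq_zero
    · exact map_zero _
  have h2 : ∑ c, (lieU (fun i => D i) X gi a c * g b c + gi a c * lieL (fun i => D i) X g b c) = 0 := by
    have e0 := hgi' a b
    rw [map_sum] at e0
    simp only [Derivation.leibniz, smul_eq_mul] at e0
    have e1 : ∀ c, lieU (fun i => D i) X gi a c * g b c + gi a c * lieL (fun i => D i) X g b c
        = (gi a c * vf D X (g b c) + g b c * vf D X (gi a c))
          - (∑ e, D e (X a) * (gi e c * g b c)) + (∑ e, D b (X e) * (gi a c * g e c))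
          + ((∑ e, gi a c * D c (X e) * g b e) - ∑ e, gi a e * D e (X c) * g b c) := by
      intro c
      rw [lieU_eq, lieL_eq]
      have f1 : (∑ e, D e (X a) * (gi e c * g b c)) = (∑ e, D e (X a) * gi e c) * g b c := by
        rw [Finset.sum_mul]; exact Finset.sum_congr rfl fun e _ => by ring
      have f2 : (∑ e, D b (X e) * (gi a c * g e c)) = gi a c * ∑ e, D b (X e) * g e c := by
        rw [Finset.mul_sum]; exact Finset.sum_congr rfl fun e _ => by ring
      have f3 : (∑ e, gi a c * D c (X e) * g b e) = gi a c * ∑ e, D c (X e) * g b e := by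
        rw [Finset.mul_sum]; exact Finset.sum_congr rfl fun e _ => by ring
      have f4 : (∑ e, gi a e * D e (X c) * g b c) = (∑ e, D e (X c) * gi a e) * g b c := by
        rw [Finset.sum_mul]; exact Finset.sum_congr rfl fun e _ => by ring
      rw [f1, f2, f3, f4]
      ring
    simp_rw [e1]
    rw [Finset.sum_add_distrib, Finset.sum_add_distrib, Finset.sum_sub_distrib, e0,
      Finset.sum_sub_distrib]
    have g1 : (∑ c, ∑ e, D e (X a) * (gi e c * g b c)) = D b (X a) := by
      rw [Finset.sum_comm]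
      simp_rw [← Finset.mul_sum, hgi]
      simp
    have g2 : (∑ c, ∑ e, D b (X e) * (gi a c * g e c)) = D b (X a) := by
      rw [Finset.sum_comm]
      simp_rw [← Finset.mul_sum, hgi]
      simp
    have g3 : (∑ c, ∑ e, gi a c * D c (X e) * g b e) = ∑ c, ∑ e, gi a e * D e (X c) * g b c := by
      rw [Finset.sum_comm]
    rw [g1, g2, g3]
    ring
  rw [h2, add_zero]

/-! ### ideals of power series -/

/-- power series with coefficients in an ideal -/
def psI {A : Type} [CommRing A] (N : Ideal A) : Ideal (PowerSeries A) where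
  carrier := {F | ∀ m, PowerSeries.coeff m F ∈ N}
  add_mem' {F G} hF hG m := by rw [map_add]; exact N.add_mem (hF m) (hG m)
  zero_mem' m := by simp
  smul_mem' F G hG m := by
    rw [smul_eq_mul, PowerSeries.coeff_mul]
    exact N.sum_mem fun x _ => N.mul_mem_left _ (hG _)

lemma psI_sq {A : Type} [CommRing A] (N : Ideal A) (hN : ∀ x ∈ N, ∀ y ∈ N, x * y = 0) :
    ∀ F ∈ psI N, ∀ G ∈ psI N, F * G = 0 := by
  intro F hF G hG
  ext m
  rw [PowerSeries.coeff_mul, map_zero]
  exact Finset.sum_eq_zero fun x _ => hN _ (hF _) _ (hG _)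

lemma psI_psD {A : Type} [CommRing A] [Algebra ℝ A] (N : Ideal A) (D : Derivation ℝ A A)
    (hDN : ∀ x ∈ N, D x ∈ N) : ∀ F ∈ psI N, psD D F ∈ psI N := by
  intro F hF m
  rw [coeff_psD]
  exact hDN _ (hF m)

lemma C_mem_psI {A : Type} [CommRing A] (N : Ideal A) {x : A} (hx : x ∈ N) :
    PowerSeries.C x ∈ psI N := by
  intro m
  rw [PowerSeries.coeff_C]
  split_ifs
  · exact hx
  · exact N.zero_mem

lemma ps_cancel {A : Type} [CommRing A] (k : ℕ) {F G : PowerSeries A}
    (h : PowerSeries.X ^ k * F = PowerSeries.X ^ k * G) : F = G := by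
  ext m
  have := congrArg (PowerSeries.coeff (m + k)) h
  rwa [PowerSeries.coeff_X_pow_mul, PowerSeries.coeff_X_pow_mul] at this

variable (E : NatOp n) (hE : ConfInf E.toNatFam) (k : ℕ) (hk : ∀ d ∈ E.q.support, k ≤ Finsupp.weight wg d)

include hE hk in
/-- the leading part does not change if a multiple of the flat metric is added -/
theorem NatOp.eqT {A : Type} [CommRing A] [Algebra ℝ A] (D : Fin n → Derivation ℝ A A)
    (hD : ∀ i j x, D i (D j x) = D j (D i x))
    (N : Ideal A) (hN : ∀ x ∈ N, ∀ y ∈ N, x * y = 0) (hDN : ∀ i, ∀ x ∈ N, D i x ∈ N)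
    (γ : Fin n → Fin n → A) (hγ : ∀ a b, γ a b = γ b a) (f σ : A) (hσ : σ ∈ N) :
    jetHom (fun i => D i) (fld (fun a b => γ a b + σ * dl a b) f) (E.lc k)
      = jetHom (fun i => D i) (fld γ f) (E.lc k) := by
  set T : PowerSeries A := PowerSeries.X with hT
  set s : PowerSeries A := PowerSeries.C ((1 / 2 : ℝ) • σ) with hs
  have hs2 : s + s = PowerSeries.C σ := by
    rw [hs, ← map_add, ← add_smul]; norm_num
  have hsN : s ∈ psI N := C_mem_psI N (by
    rw [Algebra.smul_def]; exact N.mul_mem_left _ hσ)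
  have hTsN : T * s ∈ psI N := (psI N).mul_mem_left _ hsN
  set g : Fin n → Fin n → PowerSeries A := fun a b => dl a b + T * PowerSeries.C (γ a b) with hg
  obtain ⟨gi, hgi⟩ := exists_gi (fun a b => PowerSeries.C (γ a b))
  have hgs : ∀ a b, g a b = g b a := by
    intro a b; rw [hg]; simp only; rw [dl_symm, hγ]
  set γ' : Fin n → Fin n → PowerSeries A := fun a b =>
    PowerSeries.C (γ a b) + PowerSeries.C σ * dl a b + T * (PowerSeries.C σ *
      PowerSeries.C (γ a b)) with hγ'
  have hγ's : ∀ a b, γ' a b = γ' b a := by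
    intro a b; rw [hγ']; simp only; rw [dl_symm, hγ]
  have hg2 : ∀ a b, (1 + 2 * (T * s)) * g a b = dl a b + T * γ' a b := by
    intro a b
    rw [hg, hγ', ← hs2]
    simp only
    ring
  have h1 := hE (fun i => psD (D i)) (psD_comm D hD) (psI N) (psI_sq N hN)
    (fun i => psI_psD N (D i) (hDN i)) (T * s) hTsN g gi hgs hgi (PowerSeries.C f)
  obtain ⟨H, hH1, hH2⟩ := E.lead k hk D hD (fun a b => PowerSeries.C (γ a b))
    (fun a b => by rw [hγ]) g gi (fun a b => rfl) hgi (PowerSeries.C f)
  have hTs2 : (T * s) * (T * s) = 0 := psI_sq N hN _ hTsN _ hTsN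
  obtain ⟨H', hH'1, hH'2⟩ := E.lead k hk D hD γ' hγ's (fun a b => (1 + 2 * (T * s)) * g a b)
    (fun a b => (1 - 2 * (T * s)) * gi a b) hg2 (by
      intro a b
      rw [← hgi a b]
      refine Finset.sum_congr rfl fun c _ => ?_
      linear_combination (-4 * (gi a c * g b c)) * hTs2) (PowerSeries.C f)
  rw [hH1, hH'1] at h1
  have h2 : H' = (1 - n * (T * s)) * H := by
    apply ps_cancel k
    rw [h1]; ring
  have h3 := congrArg PowerSeries.constantCoeff h2
  have h4 : PowerSeries.constantCoeff (1 - (n : PowerSeries A) * (T * s)) = 1 := by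
    rw [map_sub, map_mul, map_mul, hT, PowerSeries.constantCoeff_X, zero_mul, mul_zero, sub_zero,
      map_one]
  rw [map_mul, h4, one_mul, hH'2, hH2] at h3
  have e1 : (fun a b => PowerSeries.constantCoeff (γ' a b)) = fun a b => γ a b + σ * dl a b := by
    funext a b
    rw [hγ']
    simp only [map_add, map_mul, hT, PowerSeries.constantCoeff_X, zero_mul, add_zero,
      PowerSeries.constantCoeff_C]
    rw [jetHom_map_dl]
  have e2 : (fun a b => PowerSeries.constantCoeff (PowerSeries.C (γ a b))) = γ := by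
    funext a b; rw [PowerSeries.constantCoeff_C]
  rw [e1, e2, PowerSeries.constantCoeff_C] at h3
  exact h3

lemma vf_psD_C {A : Type} [CommRing A] [Algebra ℝ A] (D : Fin n → Derivation ℝ A A)
    (Y : Fin n → A) (f : A) :
    vf (fun i => psD (D i)) (fun c => PowerSeries.C (Y c)) (PowerSeries.C f)
      = PowerSeries.C (vf D Y f) := by
  rw [vf_apply, vf_apply, map_sum]
  exact Finset.sum_congr rfl fun c _ => by rw [psD_C, map_mul]

lemma lieL_psD_C {A : Type} [CommRing A] [Algebra ℝ A] (D : Fin n → Derivation ℝ A A)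
    (Y : Fin n → A) (γ : Fin n → Fin n → A) (a b : Fin n) :
    lieL (fun i => psD (D i)) (fun c => PowerSeries.C (Y c)) (fun a b => PowerSeries.C (γ a b)) a b
      = PowerSeries.C (lieL (fun i => D i) Y γ a b) := by
  unfold lieL
  rw [map_sum]
  exact Finset.sum_congr rfl fun c _ => by
    simp only [psD_C, map_add, map_mul]

lemma lieL_add {A : Type} [CommRing A] [Algebra ℝ A] (D : Fin n → Derivation ℝ A A)
    (Y : Fin n → A) (γ γ' : Fin n → Fin n → A) (a b : Fin n) :
    lieL (fun i => D i) Y (fun a b => γ a b + γ' a b) a b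
      = lieL (fun i => D i) Y γ a b + lieL (fun i => D i) Y γ' a b := by
  unfold lieL
  rw [← Finset.sum_add_distrib]
  exact Finset.sum_congr rfl fun c _ => by simp only [map_add]; ring

lemma lieL_const {A : Type} [CommRing A] [Algebra ℝ A] (D : Fin n → Derivation ℝ A A)
    (Y : Fin n → A) (t : A) (ht : ∀ i, D i t = 0) (γ : Fin n → Fin n → A) (a b : Fin n) :
    lieL (fun i => D i) Y (fun a b => t * γ a b) a b = t * lieL (fun i => D i) Y γ a b := by
  unfold lieL
  rw [Finset.mul_sum]
  exact Finset.sum_congr rfl fun c _ => by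
    simp only [Derivation.leibniz, ht, smul_eq_mul, mul_zero, add_zero]; ring

lemma lieL_Yconst {A : Type} [CommRing A] [Algebra ℝ A] (D : Fin n → Derivation ℝ A A)
    (Y : Fin n → A) (t : A) (ht : ∀ i, D i t = 0) (γ : Fin n → Fin n → A) (a b : Fin n) :
    lieL (fun i => D i) (fun c => t * Y c) γ a b = t * lieL (fun i => D i) Y γ a b := by
  unfold lieL
  rw [Finset.mul_sum]
  exact Finset.sum_congr rfl fun c _ => by
    simp only [Derivation.leibniz, ht, smul_eq_mul, mul_zero, add_zero]; ring

lemma lieL_dl {A : Type} [CommRing A] [Algebra ℝ A] (D : Fin n → Derivation ℝ A A)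
    (Y : Fin n → A) (a b : Fin n) :
    lieL (fun i => D i) Y dl a b = D a (Y b) + D b (Y a) := by
  unfold lieL
  rw [Finset.sum_add_distrib, Finset.sum_add_distrib]
  have h0 : ∀ c, D c (dl a b) = 0 := by
    intro c
    unfold dl
    split_ifs
    · exact (D c).map_one_eq_zero
    · exact map_zero _
  simp only [h0, mul_zero, Finset.sum_const_zero, zero_add]
  congr 1
  · unfold dl; simp
  · unfold dl; simp

include hk in
/-- gauge invariance of the leading part -/
theorem NatOp.eqG {A : Type} [CommRing A] [Algebra ℝ A] (D : Fin n → Derivation ℝ A A)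
    (hD : ∀ i j x, D i (D j x) = D j (D i x))
    (N : Ideal A) (hN : ∀ x ∈ N, ∀ y ∈ N, x * y = 0) (hDN : ∀ i, ∀ x ∈ N, D i x ∈ N)
    (Y : Fin n → A) (hY : ∀ c, Y c ∈ N)
    (γ : Fin n → Fin n → A) (hγ : ∀ a b, γ a b = γ b a) (f : A) :
    jetHom (fun i => D i) (fld (fun a b => γ a b + (D a (Y b) + D b (Y a))) f) (E.lc k)
      = jetHom (fun i => D i) (fld γ f) (E.lc k) := by
  set T : PowerSeries A := PowerSeries.X with hT
  set P : Fin n → Derivation ℝ (PowerSeries A) (PowerSeries A) := fun i => psD (D i) with hP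
  have hPT : ∀ i, P i T = 0 := fun i => psD_X (D i)
  set CY : Fin n → PowerSeries A := fun c => PowerSeries.C (Y c) with hCY
  set Z : Fin n → PowerSeries A := fun c => T * CY c with hZ
  set Cγ : Fin n → Fin n → PowerSeries A := fun a b => PowerSeries.C (γ a b) with hCγ
  set g : Fin n → Fin n → PowerSeries A := fun a b => dl a b + T * Cγ a b with hg
  obtain ⟨gi, hgi⟩ := exists_gi Cγ
  have hgs : ∀ a b, g a b = g b a := by
    intro a b; rw [hg, hCγ]; simp only; rw [dl_symm, hγ]
  have hZN : ∀ c, Z c ∈ psI N := fun c => (psI N).mul_mem_left _ (C_mem_psI N (hY c))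
  have hcov := E.cov P (psD_comm D hD) (psI N) (psI_sq N hN) (fun i => psI_psD N (D i) (hDN i)) Z hZN
    g gi hgs hgi (PowerSeries.C f)
  set γ' : Fin n → Fin n → PowerSeries A := fun a b =>
    Cγ a b + (P a (CY b) + P b (CY a)) + T * lieL (fun i => P i) CY Cγ a b with hγ'
  have hlieLsymm : ∀ a b, lieL (fun i => P i) CY Cγ a b = lieL (fun i => P i) CY Cγ b a := by
    intro a b
    unfold lieL
    refine Finset.sum_congr rfl fun c _ => ?_
    rw [hCγ]
    simp only [hγ b a, hγ c b, hγ a c]
    ring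
  have hγ's : ∀ a b, γ' a b = γ' b a := by
    intro a b; rw [hγ']; simp only; rw [hlieLsymm a b, hCγ]; simp only; rw [hγ]; ring
  have hg2 : ∀ a b, g a b + lieL (fun i => P i) Z g a b = dl a b + T * γ' a b := by
    intro a b
    have e1 : lieL (fun i => P i) Z g a b = T * (P a (CY b) + P b (CY a))
        + T * (T * lieL (fun i => P i) CY Cγ a b) := by
      rw [hZ, lieL_Yconst P CY T hPT, hg]
      rw [lieL_add P CY (fun a b => dl a b) (fun a b => T * Cγ a b) a b, lieL_const P CY T hPT,
        lieL_dl]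
      ring
    rw [e1, hg, hγ']
    simp only
    ring
  obtain ⟨H, hH1, hH2⟩ := E.lead k hk D hD Cγ (fun a b => by rw [hCγ]; simp only; rw [hγ]) g gi
    (fun a b => rfl) hgi (PowerSeries.C f)
  obtain ⟨H', hH'1, hH'2⟩ := E.lead k hk D hD γ' hγ's
    (fun a b => g a b + lieL (fun i => P i) Z g a b)
    (fun a b => gi a b + lieU (fun i => P i) Z gi a b) hg2
    (inv_cov P (psI N) (psI_sq N hN) (fun i => psI_psD N (D i) (hDN i)) Z hZN g gi hgs hgi)
    (PowerSeries.C f + vf P Z (PowerSeries.C f))
  have hv : ∀ F, vf P Z F = T * vf P CY F := by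
    intro F
    rw [vf_apply, vf_apply, Finset.mul_sum]
    exact Finset.sum_congr rfl fun c _ => by rw [hZ]; ring
  have hvT : ∀ F, vf P CY (T ^ k * F) = T ^ k * vf P CY F := by
    intro F
    have : vf P CY T = 0 := by
      rw [vf_apply]; exact Finset.sum_eq_zero fun c _ => by rw [hPT, mul_zero]
    rw [Derivation.leibniz, Derivation.leibniz_pow, this]
    simp
  rw [hH1, hH'1, hv (PowerSeries.X ^ k * H), hvT] at hcov
  have h2 : H' = H + T * vf P CY H := by
    apply ps_cancel k
    rw [hcov]; ring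
  have h3 := congrArg PowerSeries.constantCoeff h2
  rw [map_add, map_mul, hT, PowerSeries.constantCoeff_X, zero_mul, add_zero, hH'2, hH2, hv, hT,
    map_add, map_mul, PowerSeries.constantCoeff_X, zero_mul, add_zero, PowerSeries.constantCoeff_C] at h3
  have e1 : (fun a b => PowerSeries.constantCoeff (γ' a b))
      = fun a b => γ a b + (D a (Y b) + D b (Y a)) := by
    funext a b
    rw [hγ', hP, hCY, hCγ]
    simp only [map_add, map_mul, hT, PowerSeries.constantCoeff_X, zero_mul, add_zero,
      PowerSeries.constantCoeff_C, cc_psD]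
  have e2 : (fun a b => PowerSeries.constantCoeff (Cγ a b)) = γ := by
    funext a b; rw [hCγ]; simp only; rw [PowerSeries.constantCoeff_C]
  rw [e1, e2] at h3
  exact h3

end

end GJMS
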