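import Mathlib
import Pool.Agent.GJMS.Bianchi
import Pool.Agent.GJMS.Eqs

/-!
# The ambient metric over a ring with `n + 2` commuting derivations

The directions are `0` (the logarithm of the homogeneity variable), `1` (the variable `r`) and
`i.succ.succ`.
-/

open Finset

set_option linter.unusedSectionVars false

namespace GJMS

noncomputable section

variable {n : ℕ} {R : Type} [CommRing R] [Algebra ℝ R]

/-- the variables of the ambient space -/
structure AmbSys (D : Fin (n + 2) → Derivation ℝ R R) (T Ti r : R) : Prop where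
  comm : ∀ i j x, D i (D j x) = D j (D i x)
  tti : T * Ti = 1
  T0 : D 0 T = T + T
  T1 : D 1 T = 0
  Te : ∀ i : Fin n, D i.succ.succ T = 0
  r0 : D 0 r = 0
  r1 : D 1 r = 1
  re : ∀ i : Fin n, D i.succ.succ r = 0

lemma asum {M : Type*} [AddCommMonoid M] (f : Fin (n + 2) → M) :
    ∑ a, f a = f 0 + (f 1 + ∑ i : Fin n, f i.succ.succ) := by
  rw [Fin.sum_univ_succ, Fin.sum_univ_succ]; rfl

@[elab_as_elim]
lemma aind {P : Fin (n + 2) → Prop} (h0 : P 0) (h1 : P 1) (h2 : ∀ i : Fin n, P i.succ.succ)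
    (a : Fin (n + 2)) : P a :=
  Fin.cases h0 (Fin.cases h1 h2) a

@[simp] lemma blk_0 {M : Type*} (x0 x1 : M) (xe : Fin n → M) : blk x0 x1 xe 0 = x0 := rfl
@[simp] lemma blk_1 {M : Type*} (x0 x1 : M) (xe : Fin n → M) : blk x0 x1 xe 1 = x1 := rfl
@[simp] lemma blk_e {M : Type*} (x0 x1 : M) (xe : Fin n → M) (i : Fin n) :
    blk x0 x1 xe i.succ.succ = xe i := rfl

/-- the inverse ambient metric -/
def aH (Ti r : R) (H : Fin n → Fin n → R) : Fin (n + 2) → Fin (n + 2) → R :=
  blk (blk 0 Ti fun _ => 0) (blk Ti (-((r + r) * Ti)) fun _ => 0) (fun i => blk 0 0 fun j => Ti * H i j)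

lemma aG_symm (T r : R) {G : Fin n → Fin n → R} (hG : ∀ i j, G i j = G j i) (a b : Fin (n + 2)) :
    aG T r G a b = aG T r G b a := by
  induction a using aind <;> induction b using aind <;> simp [aG]
  rw [hG]

lemma aH_inv {T Ti : R} (r : R) (h : T * Ti = 1) {G H : Fin n → Fin n → R}
    (hH : ∀ i j, ∑ k, H i k * G j k = if i = j then 1 else 0) (a b : Fin (n + 2)) :
    ∑ c, aH Ti r H a c * aG T r G b c = if a = b then 1 else 0 := by
  have h' : Ti * T = 1 := by rw [mul_comm, h]
  have hne : ∀ i : Fin n, ¬ (0 : Fin (n + 2)) = i.succ.succ := fun i => (Fin.succ_ne_zero _).symm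
  have hne' : ∀ i : Fin n, ¬ i.succ.succ = (0 : Fin (n + 2)) := fun i => (Fin.succ_ne_zero _)
  have hne1 : ∀ i : Fin n, ¬ (1 : Fin (n + 2)) = i.succ.succ := by
    intro i hi
    have : (0 : Fin (n + 1)) = i.succ := Fin.succ_injective _ hi
    exact (Fin.succ_ne_zero _) this.symm
  have hne1' : ∀ i : Fin n, ¬ i.succ.succ = (1 : Fin (n + 2)) := fun i hi => hne1 i hi.symm
  have h01 : ¬ (0 : Fin (n + 2)) = 1 := (Fin.succ_ne_zero (0 : Fin (n + 1))).symm
  have h10 : ¬ (1 : Fin (n + 2)) = 0 := (Fin.succ_ne_zero (0 : Fin (n + 1)))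
  rw [asum]
  induction a using aind with
  | h0 =>
    induction b using aind with
    | h0 => simp [aG, aH, h']
    | h1 => simp [aG, aH]
    | h2 j => simp [aG, aH, hne]
  | h1 =>
    induction b using aind with
    | h0 =>
      simp [aG, aH]
      ring
    | h1 => simp [aG, aH, h']
    | h2 j => simp [aG, aH, hne1]
  | h2 i =>
    induction b using aind with
    | h0 => simp [aG, aH]
    | h1 => simp [aG, aH, hne1']
    | h2 j =>
      simp only [aG, aH, blk_e, blk_0, blk_1, zero_mul, zero_add]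
      have e1 : ∀ k, Ti * H i k * (T * G j k) = H i k * G j k := fun k => by
        linear_combination (H i k * G j k) * h'
      simp only [e1, hH]
      simp

lemma half_eq {y z : R} (h : y = z + z) : (1 / 2 : ℝ) • y = z := by
  rw [h, ← two_smul ℝ z, smul_smul]; norm_num

lemma half_add_half (z : R) : (1 / 2 : ℝ) • z + (1 / 2 : ℝ) • z = z := by
  rw [← add_smul]; norm_num

section chr

variable {D : Fin (n + 2) → Derivation ℝ R R} {T Ti r : R} (hA : AmbSys D T Ti r)
  {G H : Fin n → Fin n → R} (hG : ∀ i j, G i j = G j i)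
  (hH : ∀ i j, ∑ k, H i k * G j k = if i = j then 1 else 0)
  (hG0 : ∀ i j, D 0 (G i j) = 0)

/-- the derivations in the directions of the base -/
abbrev De (D : Fin (n + 2) → Derivation ℝ R R) (i : Fin n) : Derivation ℝ R R := D i.succ.succ

/-- the Christoffel symbols of the ambient metric -/
abbrev aC (D : Fin (n + 2) → Derivation ℝ R R) (T Ti r : R) (G H : Fin n → Fin n → R) :
    Fin (n + 2) → Fin (n + 2) → Fin (n + 2) → R := chr (fun i => D i) (aG T r G) (aH Ti r H)

include hA in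
lemma AmbSys.tti' : Ti * T = 1 := by rw [mul_comm, hA.tti]

include hA in
lemma AmbSys.cancel (x : R) : Ti * (T * x) = x := by rw [← mul_assoc, hA.tti', one_mul]

include hA in
lemma AmbSys.D0rT : D 0 ((r + r) * T) = (r + r) * (T + T) := by
  rw [Derivation.leibniz, map_add, hA.r0, hA.T0]; simp

include hA in
lemma AmbSys.D1rT : D 1 ((r + r) * T) = T + T := by
  rw [Derivation.leibniz, map_add, hA.r1, hA.T1]; simp; ring

include hA in
lemma AmbSys.DerT (i : Fin n) : D i.succ.succ ((r + r) * T) = 0 := by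
  rw [Derivation.leibniz, map_add, hA.re, hA.Te]; simp

lemma aC_0 (a b : Fin (n + 2)) : aC D T Ti r G H 0 a b =
    (1 / 2 : ℝ) • (Ti * (D a (aG T r G b 1) + D b (aG T r G a 1) - D 1 (aG T r G a b))) := by
  unfold aC chr
  rw [asum]
  simp [aH]

lemma aC_1 (a b : Fin (n + 2)) : aC D T Ti r G H 1 a b =
    (1 / 2 : ℝ) • (Ti * (D a (aG T r G b 0) + D b (aG T r G a 0) - D 0 (aG T r G a b))
      - (r + r) * Ti * (D a (aG T r G b 1) + D b (aG T r G a 1) - D 1 (aG T r G a b))) := by
  unfold aC chr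
  rw [asum]
  congr 1
  simp [aH]
  ring

lemma aC_e (k : Fin n) (a b : Fin (n + 2)) : aC D T Ti r G H k.succ.succ a b =
    (1 / 2 : ℝ) • (Ti * ∑ l, H k l * (D a (aG T r G b l.succ.succ) + D b (aG T r G a l.succ.succ)
      - D l.succ.succ (aG T r G a b))) := by
  unfold aC chr
  rw [asum]
  simp only [aH, blk_0, blk_1, blk_e, zero_mul, zero_add, Finset.mul_sum]
  congr 1
  exact Finset.sum_congr rfl fun l _ => by ring

include hA in
lemma aC_000 : aC D T Ti r G H 0 0 0 = 1 := by
  rw [aC_0]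
  apply half_eq
  simp only [aG, blk_0, blk_1, hA.T0, hA.D1rT]
  linear_combination 2 * hA.tti'

include hA in
lemma aC_001 : aC D T Ti r G H 0 0 1 = 0 := by
  rw [aC_0]
  simp [aG]

include hA in
lemma aC_00e (j : Fin n) : aC D T Ti r G H 0 0 j.succ.succ = 0 := by
  rw [aC_0]
  simp [aG, hA.Te]

include hA in
lemma aC_011 : aC D T Ti r G H 0 1 1 = 0 := by
  rw [aC_0]
  simp [aG]

include hA in
lemma aC_01e (j : Fin n) : aC D T Ti r G H 0 1 j.succ.succ = 0 := by
  rw [aC_0]
  simp [aG]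

include hA in
lemma aC_0ee (i j : Fin n) : aC D T Ti r G H 0 i.succ.succ j.succ.succ =
    -((1 / 2 : ℝ) • D 1 (G i j)) := by
  rw [aC_0]
  simp only [aG, blk_1, blk_e, map_zero, Derivation.leibniz, hA.T1, smul_eq_mul, mul_zero, add_zero,
    zero_sub, ← smul_neg]
  congr 1
  rw [mul_neg, hA.cancel]

include hA in
lemma aC_100 : aC D T Ti r G H 1 0 0 = 0 := by
  rw [aC_1]
  simp only [aG, blk_0, blk_1, hA.T0, hA.D1rT, hA.D0rT]
  rw [show Ti * ((r + r) * (T + T) + (r + r) * (T + T) - (r + r) * (T + T)) -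
      (r + r) * Ti * (T + T + (T + T) - (T + T)) = 0 by ring, smul_zero]

include hA in
lemma aC_101 : aC D T Ti r G H 1 0 1 = 1 := by
  rw [aC_1]
  apply half_eq
  simp only [aG, blk_0, blk_1, hA.T0, hA.D1rT, map_zero, hA.T1]
  linear_combination 2 * hA.tti'

include hA in
lemma aC_10e (j : Fin n) : aC D T Ti r G H 1 0 j.succ.succ = 0 := by
  rw [aC_1]
  simp [aG, hA.Te, hA.DerT]

include hA in
lemma aC_111 : aC D T Ti r G H 1 1 1 = 0 := by
  rw [aC_1]
  simp [aG, hA.T1]

include hA in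
lemma aC_11e (j : Fin n) : aC D T Ti r G H 1 1 j.succ.succ = 0 := by
  rw [aC_1]
  simp [aG, hA.Te]

include hA hG0 in
lemma aC_1ee (i j : Fin n) : aC D T Ti r G H 1 i.succ.succ j.succ.succ =
    r * D 1 (G i j) - G i j := by
  rw [aC_1]
  apply half_eq
  simp only [aG, blk_0, blk_1, blk_e, map_zero, Derivation.leibniz, hA.T1, hA.T0, hG0, smul_eq_mul,
    mul_zero, add_zero, zero_sub, zero_add]
  linear_combination (-(2 * G i j) + 2 * r * D 1 (G i j)) * hA.tti'

include hA in
lemma aC_e00 (k : Fin n) : aC D T Ti r G H k.succ.succ 0 0 = 0 := by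
  rw [aC_e]
  simp [aG, hA.DerT]

include hA in
lemma aC_e01 (k : Fin n) : aC D T Ti r G H k.succ.succ 0 1 = 0 := by
  rw [aC_e]
  simp [aG, hA.Te]

include hA hG hH hG0 in
lemma aC_e0e (k j : Fin n) : aC D T Ti r G H k.succ.succ 0 j.succ.succ = if k = j then 1 else 0 := by
  rw [aC_e]
  apply half_eq
  simp only [aG, blk_0, blk_e, map_zero, Derivation.leibniz, hA.T0, hG0, smul_eq_mul,
    mul_zero, add_zero, zero_add, sub_zero]
  rw [← hH k j, Finset.mul_sum, ← Finset.sum_add_distrib]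
  refine Finset.sum_congr rfl fun l _ => ?_
  linear_combination (2 * (H k l * G j l)) * hA.tti'

include hA in
lemma aC_e11 (k : Fin n) : aC D T Ti r G H k.succ.succ 1 1 = 0 := by
  rw [aC_e]
  simp [aG]

include hA in
lemma aC_e1e (k i : Fin n) : aC D T Ti r G H k.succ.succ 1 i.succ.succ =
    (1 / 2 : ℝ) • ∑ l, H k l * D 1 (G i l) := by
  rw [aC_e]
  congr 1
  simp only [aG, blk_1, blk_e, map_zero, Derivation.leibniz, hA.T1, smul_eq_mul,
    mul_zero, add_zero, zero_add, sub_zero]
  rw [Finset.mul_sum]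
  refine Finset.sum_congr rfl fun l _ => ?_
  linear_combination (H k l * D 1 (G i l)) * hA.tti'

include hA in
lemma aC_eee (k i j : Fin n) : aC D T Ti r G H k.succ.succ i.succ.succ j.succ.succ =
    chr (fun i => De D i) G H k i j := by
  rw [aC_e]
  unfold chr
  congr 1
  simp only [aG, blk_e, Derivation.leibniz, hA.Te, smul_eq_mul, mul_zero, add_zero]
  rw [Finset.mul_sum]
  refine Finset.sum_congr rfl fun l _ => ?_
  linear_combination (H k l * (D i.succ.succ (G j l) + D j.succ.succ (G i l) - D l.succ.succ (G i j))) * hA.tti'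

include hG in
lemma aC_symm (c a b : Fin (n + 2)) : aC D T Ti r G H c a b = aC D T Ti r G H c b a :=
  chr_symmD D _ _ (aG_symm T r hG) c a b

end chr

end

end GJMS
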