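import Mathlib
import Pool.Agent.GJMS.Amb

/-!
# The Ricci curvature of the ambient metric
-/

open Finset

set_option linter.unusedSectionVars false
set_option linter.unusedSimpArgs false

namespace GJMS

noncomputable section

variable {n : ℕ} {R : Type} [CommRing R] [Algebra ℝ R]

/-- `tr(H G')` -/
def tauR (D : Fin (n + 2) → Derivation ℝ R R) (G H : Fin n → Fin n → R) : R :=
  ∑ a, ∑ b, H a b * D 1 (G a b)

/-- the left-hand side of the Fefferman-Graham equation -/
def fER (D : Fin (n + 2) → Derivation ℝ R R) (r : R) (G H : Fin n → Fin n → R) (a b : Fin n) : R :=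
  r * ((2 : ℝ) • D 1 (D 1 (G a b)) -
      (2 : ℝ) • (∑ c, ∑ e, D 1 (G a c) * H c e * D 1 (G e b)) + tauR D G H * D 1 (G a b))
    - ((n : ℝ) - 2) • D 1 (G a b) - tauR D G H * G a b
    + (2 : ℝ) • ric (fun i => De D i) (chr (fun i => De D i) G H) a b

/-- the Ricci curvature of the ambient metric -/
abbrev aR (D : Fin (n + 2) → Derivation ℝ R R) (T Ti r : R) (G H : Fin n → Fin n → R) :
    Fin (n + 2) → Fin (n + 2) → R := ric (fun i => D i) (aC D T Ti r G H)

section ric

variable {D : Fin (n + 2) → Derivation ℝ R R} {T Ti r : R} (hA : AmbSys D T Ti r)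
  {G H : Fin n → Fin n → R} (hG : ∀ i j, G i j = G j i)
  (hH : ∀ i j, ∑ k, H i k * G j k = if i = j then 1 else 0)
  (hG0 : ∀ i j, D 0 (G i j) = 0)

include hA hG hH hG0

/-- all the Christoffel symbols -/
lemma aC_all : (∀ c a b, aC D T Ti r G H c a b = aC D T Ti r G H c b a) ∧
    aC D T Ti r G H 0 0 0 = 1 ∧ aC D T Ti r G H 0 0 1 = 0 ∧ aC D T Ti r G H 0 1 0 = 0 ∧
    (∀ j : Fin n, aC D T Ti r G H 0 0 j.succ.succ = 0) ∧
    (∀ j : Fin n, aC D T Ti r G H 0 j.succ.succ 0 = 0) ∧ aC D T Ti r G H 0 1 1 = 0 ∧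
    (∀ j : Fin n, aC D T Ti r G H 0 1 j.succ.succ = 0) ∧
    (∀ j : Fin n, aC D T Ti r G H 0 j.succ.succ 1 = 0) ∧
    (∀ i j : Fin n, aC D T Ti r G H 0 i.succ.succ j.succ.succ = -((1 / 2 : ℝ) • D 1 (G i j))) ∧
    aC D T Ti r G H 1 0 0 = 0 ∧ aC D T Ti r G H 1 0 1 = 1 ∧ aC D T Ti r G H 1 1 0 = 1 ∧
    (∀ j : Fin n, aC D T Ti r G H 1 0 j.succ.succ = 0) ∧
    (∀ j : Fin n, aC D T Ti r G H 1 j.succ.succ 0 = 0) ∧ aC D T Ti r G H 1 1 1 = 0 ∧
    (∀ j : Fin n, aC D T Ti r G H 1 1 j.succ.succ = 0) ∧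
    (∀ j : Fin n, aC D T Ti r G H 1 j.succ.succ 1 = 0) ∧
    (∀ i j : Fin n, aC D T Ti r G H 1 i.succ.succ j.succ.succ = r * D 1 (G i j) - G i j) ∧
    (∀ k : Fin n, aC D T Ti r G H k.succ.succ 0 0 = 0) ∧
    (∀ k : Fin n, aC D T Ti r G H k.succ.succ 0 1 = 0) ∧
    (∀ k : Fin n, aC D T Ti r G H k.succ.succ 1 0 = 0) ∧
    (∀ k j : Fin n, aC D T Ti r G H k.succ.succ 0 j.succ.succ = if k = j then 1 else 0) ∧
    (∀ k j : Fin n, aC D T Ti r G H k.succ.succ j.succ.succ 0 = if k = j then 1 else 0) ∧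
    (∀ k : Fin n, aC D T Ti r G H k.succ.succ 1 1 = 0) ∧
    (∀ k i : Fin n, aC D T Ti r G H k.succ.succ 1 i.succ.succ =
      (1 / 2 : ℝ) • ∑ l, H k l * D 1 (G i l)) ∧
    (∀ k i : Fin n, aC D T Ti r G H k.succ.succ i.succ.succ 1 =
      (1 / 2 : ℝ) • ∑ l, H k l * D 1 (G i l)) ∧
    (∀ k i j : Fin n, aC D T Ti r G H k.succ.succ i.succ.succ j.succ.succ =
      chr (fun i => De D i) G H k i j) := by
  have hs := aC_symm (D := D) (T := T) (Ti := Ti) (r := r) (H := H) hG
  refine ⟨hs, aC_000 hA, aC_001 hA, ?_, aC_00e hA, ?_, aC_011 hA, aC_01e hA, ?_, aC_0ee hA,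
    aC_100 hA, aC_101 hA, ?_, aC_10e hA, ?_, aC_111 hA, aC_11e hA, ?_, aC_1ee hA hG0, aC_e00 hA,
    aC_e01 hA, ?_, aC_e0e hA hG hH hG0, ?_, aC_e11 hA, aC_e1e hA, ?_, aC_eee hA⟩
  · rw [hs]; exact aC_001 hA
  · intro j; rw [hs]; exact aC_00e hA j
  · intro j; rw [hs]; exact aC_01e hA j
  · rw [hs]; exact aC_101 hA
  · intro j; rw [hs]; exact aC_10e hA j
  · intro j; rw [hs]; exact aC_11e hA j
  · intro j; rw [hs]; exact aC_e01 hA j
  · intro k j; rw [hs]; exact aC_e0e hA hG hH hG0 k j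
  · intro k j; rw [hs]; exact aC_e1e hA k j

lemma aR_ee (i j : Fin n) :
    aR D T Ti r G H i.succ.succ j.succ.succ = (1 / 2 : ℝ) • fER D r G H i j := by
  obtain ⟨hs, c000, c001, c010, c00e, c0e0, c011, c01e, c0e1, c0ee, c100, c101, c110, c10e, c1e0,
    c111, c11e, c1e1, c1ee, ce00, ce01, ce10, ce0e, cee0, ce11, ce1e, cee1, ceee⟩ :=
    aC_all hA hG hH hG0
  have hG' : ∀ i j, D 0 (D 1 (G i j)) = 0 := fun i j => by rw [hA.comm, hG0, map_zero]
  have hGG : ∀ i j, ∑ k, ∑ l, G i k * H k l * D 1 (G j l) = D 1 (G j i) := by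
    intro i j
    rw [Finset.sum_comm]
    have h1 : ∀ l, ∑ k, G i k * H k l = if i = l then 1 else 0 := by
      intro l
      have := congrFun (congrFun (g_mul_gi G H hG hH) i) l
      rw [Matrix.mul_apply, Matrix.one_apply] at this
      exact this
    simp only [← Finset.sum_mul, h1]
    simp
  unfold aR ric
  rw [asum, asum (n := n)]
  simp only [asum, c000, c001, c010, c00e, c0e0, c011, c01e, c0e1, c0ee, c100, c101, c110, c10e, c1e0,
    c111, c11e, c1e1, c1ee, ce00, ce01, ce10, ce0e, cee0, ce11, ce1e, cee1, ceee, map_zero, map_neg,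
    Derivation.map_smul, hG', smul_zero, neg_zero, sub_zero, zero_add, add_zero, zero_mul, mul_zero,
    one_mul, mul_one, zero_sub, sub_self, map_sub, Derivation.leibniz, hA.r1, smul_eq_mul,
    Finset.sum_const_zero]
  set Q : R := ∑ c, ∑ e, D 1 (G i c) * H c e * D 1 (G e j) with hQ
  have hGsym' : ∀ a b, D 1 (G a b) = D 1 (G b a) := fun a b => by rw [hG]
  have hHsym : ∀ a b, H a b = H b a := gi_symm G H hG hH
  have s1 : ∑ x, -(-((1 / 2 : ℝ) • D 1 (G j x)) * if x = i then 1 else 0) =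
      (1 / 2 : ℝ) • D 1 (G i j) := by
    rw [hGsym' i j]; simp
  have s2 : ∑ x, -((r * D 1 (G j x) - G j x) * (1 / 2 : ℝ) • ∑ l, H x l * D 1 (G i l)) =
      -(r * ((1 / 2 : ℝ) • Q)) + (1 / 2 : ℝ) • D 1 (G i j) := by
    have e1 : Q = ∑ x, ∑ l, D 1 (G j x) * H x l * D 1 (G i l) := by
      rw [hQ, Finset.sum_comm]
      refine Finset.sum_congr rfl fun x _ => Finset.sum_congr rfl fun l _ => ?_
      rw [hHsym l x, hGsym' x j]; ring
    rw [← hGG j i, e1]
    simp only [Algebra.smul_def, Finset.mul_sum, ← Finset.sum_neg_distrib, ← Finset.sum_add_distrib]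
    refine Finset.sum_congr rfl fun x _ => Finset.sum_congr rfl fun l _ => ?_
    ring
  have s3 : ∑ x, (((1 / 2 : ℝ) • ∑ l, H x l * D 1 (G x l)) * (r * D 1 (G i j) - G i j)) =
      (1 / 2 : ℝ) • (tauR D G H * (r * D 1 (G i j) - G i j)) := by
    unfold tauR
    simp only [Algebra.smul_def, Finset.mul_sum, Finset.sum_mul]
    exact Finset.sum_congr rfl fun x _ => Finset.sum_congr rfl fun l _ => by ring
  have s4 : ∑ x, (((1 / 2 : ℝ) • ∑ l, H x l * D 1 (G j l)) * (r * D 1 (G i x) - G i x)) =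
      r * ((1 / 2 : ℝ) • Q) - (1 / 2 : ℝ) • D 1 (G i j) := by
    have e1 : Q = ∑ x, ∑ l, D 1 (G i x) * H x l * D 1 (G j l) := by
      rw [hQ]
      refine Finset.sum_congr rfl fun x _ => Finset.sum_congr rfl fun l _ => ?_
      rw [hGsym' l j]
    rw [hGsym' i j, ← hGG i j, e1]
    simp only [Algebra.smul_def, Finset.mul_sum, Finset.sum_mul, ← Finset.sum_sub_distrib]
    refine Finset.sum_congr rfl fun x _ => Finset.sum_congr rfl fun l _ => ?_
    ring
  have s5 : ∑ x : Fin n, ((if True then (1 : R) else 0) * -((1 / 2 : ℝ) • D 1 (G i j))) =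
      -((n : ℝ) • (1 / 2 : ℝ) • D 1 (G i j)) := by
    simp [Nat.cast_smul_eq_nsmul]
  have s6 : ∑ x, ((if x = j then (1 : R) else 0) * -((1 / 2 : ℝ) • D 1 (G i x))) =
      -((1 / 2 : ℝ) • D 1 (G i j)) := by
    simp
  have s7 : ric (fun i => De D i) (chr (fun i => De D i) G H) i j =
      ∑ x, ((D x.succ.succ) (chr (fun i => De D i) G H x i j) -
            (D j.succ.succ) (chr (fun i => De D i) G H x i x)) +
      ∑ x, ∑ x_1, (chr (fun i => De D i) G H x x x_1 * chr (fun i => De D i) G H x_1 i j -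
                    chr (fun i => De D i) G H x j x_1 * chr (fun i => De D i) G H x_1 i x) := rfl
  rw [s1, s2]
  simp only [Finset.sum_add_distrib] at s7 ⊢
  rw [Finset.sum_sub_distrib (f := fun x : Fin n => (if True then (1 : R) else 0) *
    -((1 / 2 : ℝ) • D 1 (G i j))), Finset.sum_sub_distrib (f := fun x =>
      (((1 / 2 : ℝ) • ∑ l, H x l * D 1 (G x l)) * (r * D 1 (G i j) - G i j))), s3, s4, s5, s6]
  unfold fER
  rw [s7]
  rw [← hQ]
  have h2 : algebraMap ℝ R (1 / 2) * 2 = 1 := by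
    rw [← map_ofNat (algebraMap ℝ R) 2, ← map_mul]; norm_num
  simp only [Algebra.smul_def, map_sub, map_natCast, map_ofNat]
  generalize (∑ x : Fin n, ((D x.succ.succ) (chr (fun i => De D i) G H x i j) -
            (D j.succ.succ) (chr (fun i => De D i) G H x i x))) = S1
  generalize (∑ x : Fin n, ∑ x_1 : Fin n,
    (chr (fun i => De D i) G H x x x_1 * chr (fun i => De D i) G H x_1 i j -
                    chr (fun i => De D i) G H x j x_1 * chr (fun i => De D i) G H x_1 i x)) = S2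
  linear_combination (-(r * D 1 (D 1 (G i j))) - S1 - S2) * h2

lemma aC_0b (e b : Fin (n + 2)) : aC D T Ti r G H e 0 b = if e = b then 1 else 0 := by
  obtain ⟨hs, c000, c001, c010, c00e, c0e0, c011, c01e, c0e1, c0ee, c100, c101, c110, c10e, c1e0,
    c111, c11e, c1e1, c1ee, ce00, ce01, ce10, ce0e, cee0, ce11, ce1e, cee1, ceee⟩ :=
    aC_all hA hG hH hG0
  have hne : ∀ i : Fin n, ¬ (0 : Fin (n + 2)) = i.succ.succ := fun i => (Fin.succ_ne_zero _).symm
  have hne' : ∀ i : Fin n, ¬ i.succ.succ = (0 : Fin (n + 2)) := fun i => (Fin.succ_ne_zero _)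
  have hne1 : ∀ i : Fin n, ¬ (1 : Fin (n + 2)) = i.succ.succ := by
    intro i hi
    have : (0 : Fin (n + 1)) = i.succ := Fin.succ_injective _ hi
    exact (Fin.succ_ne_zero _) this.symm
  have hne1' : ∀ i : Fin n, ¬ i.succ.succ = (1 : Fin (n + 2)) := fun i hi => hne1 i hi.symm
  have h01 : ¬ (0 : Fin (n + 2)) = 1 := (Fin.succ_ne_zero (0 : Fin (n + 1))).symm
  have h10 : ¬ (1 : Fin (n + 2)) = 0 := (Fin.succ_ne_zero (0 : Fin (n + 1)))
  induction e using aind with
  | h0 =>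
    induction b using aind with
    | h0 => rw [c000, if_pos rfl]
    | h1 => rw [c001, if_neg h01]
    | h2 j => rw [c00e, if_neg (hne j)]
  | h1 =>
    induction b using aind with
    | h0 => rw [c100, if_neg h10]
    | h1 => rw [c101, if_pos rfl]
    | h2 j => rw [c10e, if_neg (hne1 j)]
  | h2 i =>
    induction b using aind with
    | h0 => rw [ce00, if_neg (hne' i)]
    | h1 => rw [ce01, if_neg (hne1' i)]
    | h2 j => rw [ce0e]; simp

lemma aR_0b (b : Fin (n + 2)) : aR D T Ti r G H 0 b = 0 := by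
  have h := aC_0b hA hG hH hG0
  have hs := aC_symm (D := D) (T := T) (Ti := Ti) (r := r) (H := H) hG
  unfold aR ric
  simp only [h]
  have e1 : ∀ c, D c (if c = b then (1 : R) else 0) = 0 := by
    intro c
    split_ifs
    · exact (D c).map_one_eq_zero
    · exact map_zero _
  have e2 : ∀ c : Fin (n + 2), D b (if c = c then (1 : R) else 0) = 0 := by
    intro c
    rw [if_pos rfl]; exact (D b).map_one_eq_zero
  simp only [e1, e2, sub_self, Finset.sum_const_zero, zero_add, Finset.sum_sub_distrib]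
  simp only [mul_ite, mul_one, mul_zero, Finset.sum_ite_eq', Finset.sum_ite_eq, Finset.mem_univ,
    if_true, (D b).map_one_eq_zero, Finset.sum_const_zero, sub_zero, zero_add]
  rw [sub_eq_zero]
  exact Finset.sum_congr rfl fun c _ => hs c c b

lemma aR_symm (a b : Fin (n + 2)) : aR D T Ti r G H a b = aR D T Ti r G H b a :=
  ric_symm D (aG T r G) (aH Ti r H) hA.comm (aG_symm T r hG) (aH_inv r hA.tti hH) a b

lemma aR_b0 (b : Fin (n + 2)) : aR D T Ti r G H b 0 = 0 := by
  rw [aR_symm hA hG hH hG0]; exact aR_0b hA hG hH hG0 b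

lemma D0Ti : D 0 Ti = -(Ti + Ti) := by
  have h1 := congrArg (D 0) hA.tti
  rw [Derivation.leibniz, hA.T0, (D 0).map_one_eq_zero, smul_eq_mul, smul_eq_mul] at h1
  have h2 : Ti * (T * D 0 Ti + Ti * (T + T)) = 0 := by rw [h1, mul_zero]
  have h3 := hA.tti'
  linear_combination h2 - (D 0 Ti + 2 * Ti) * h3

lemma DcTi {c : Fin (n + 2)} (hc : D c T = 0) : D c Ti = 0 := by
  have h1 := congrArg (D c) hA.tti
  rw [Derivation.leibniz, hc, (D c).map_one_eq_zero, smul_eq_mul, smul_eq_mul, mul_zero,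
    add_zero] at h1
  have h2 : Ti * (T * D c Ti) = 0 := by rw [h1, mul_zero]
  rwa [hA.cancel] at h2

lemma hH0 (i j : Fin n) : D 0 (H i j) = 0 := by
  have h1 : ∀ a b, ∑ k, D 0 (H a k) * G b k = 0 := by
    intro a b
    have h2 := congrArg (D 0) (hH a b)
    rw [map_sum] at h2
    have h3 : D 0 (if a = b then (1 : R) else 0) = 0 := by
      split_ifs
      · exact (D 0).map_one_eq_zero
      · exact map_zero _
    rw [h3] at h2
    rw [← h2]
    refine Finset.sum_congr rfl fun k _ => ?_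
    rw [Derivation.leibniz, hG0, smul_zero, zero_add, smul_eq_mul, mul_comm]
  have h4 : ∑ b, (∑ k, D 0 (H i k) * G b k) * H b j = 0 :=
    Finset.sum_eq_zero fun b _ => by rw [h1, zero_mul]
  have h5 : ∀ k, ∑ b, G b k * H b j = if k = j then 1 else 0 := by
    intro k
    have := congrFun (congrFun (g_mul_gi G H hG hH) k) j
    rw [Matrix.mul_apply, Matrix.one_apply] at this
    rw [← this]
    exact Finset.sum_congr rfl fun b _ => by rw [hG b k]; rfl
  simp only [Finset.sum_mul] at h4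
  rw [Finset.sum_comm] at h4
  have h6 : ∀ k, ∑ b, D 0 (H i k) * G b k * H b j = D 0 (H i k) * if k = j then 1 else 0 := by
    intro k
    rw [← h5 k, Finset.mul_sum]
    exact Finset.sum_congr rfl fun b _ => by ring
  simp only [h6] at h4
  simpa using h4

lemma D0_aG (a b : Fin (n + 2)) : D 0 (aG T r G a b) = aG T r G a b + aG T r G a b := by
  induction a using aind <;> induction b using aind <;>
    simp [aG, hA.T0, hA.r0, hG0] <;> ring

lemma D0_aH (a b : Fin (n + 2)) : D 0 (aH Ti r H a b) = -(aH Ti r H a b + aH Ti r H a b) := by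
  have h1 := D0Ti hA hG hH hG0
  have h2 := hH0 hA hG hH hG0
  induction a using aind <;> induction b using aind <;>
    simp [aH, h1, h2, hA.r0] <;> ring

lemma D0_aC (c a b : Fin (n + 2)) : D 0 (aC D T Ti r G H c a b) = 0 := by
  unfold aC chr
  rw [Derivation.map_smul, map_sum]
  have h1 : ∀ a b c, D 0 (D a (aG T r G b c)) = D a (aG T r G b c) + D a (aG T r G b c) := by
    intro a b c
    rw [hA.comm 0 a, D0_aG hA hG hH hG0, map_add]
  have h2 : ∀ e, D 0 (aH Ti r H c e * (D a (aG T r G b e) + D b (aG T r G a e) - D e (aG T r G a b)))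
      = 0 := by
    intro e
    rw [Derivation.leibniz, D0_aH hA hG hH hG0, map_sub, map_add, h1, h1, h1, smul_eq_mul,
      smul_eq_mul]
    ring
  rw [Finset.sum_eq_zero (fun e _ => h2 e), smul_zero]

lemma D0_aR (a b : Fin (n + 2)) : D 0 (aR D T Ti r G H a b) = 0 := by
  have h := D0_aC hA hG hH hG0
  unfold aR ric
  simp only [map_add, map_sum, map_sub, Derivation.leibniz, h, smul_zero, add_zero, sub_self,
    Finset.sum_const_zero, hA.comm 0, map_zero]

end ric

end

end GJMS
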