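import Mathlib
import Pool.Agent.GJMS.AmbRic

/-!
# The contracted Bianchi identity of the ambient metric
-/

open Finset

set_option linter.unusedSectionVars false
set_option linter.unusedSimpArgs false

namespace GJMS

noncomputable section

variable {n : ℕ} {R : Type} [CommRing R] [Algebra ℝ R]

section bianchi

variable {D : Fin (n + 2) → Derivation ℝ R R} {T Ti r : R} (hA : AmbSys D T Ti r)
  {G H : Fin n → Fin n → R} (hG : ∀ i j, G i j = G j i)
  (hH : ∀ i j, ∑ k, H i k * G j k = if i = j then 1 else 0)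
  (hG0 : ∀ i j, D 0 (G i j) = 0)

/-- the tangential part of the Ricci tensor with one index up -/
def vR (D : Fin (n + 2) → Derivation ℝ R R) (T Ti r : R) (G H : Fin n → Fin n → R)
    (a : Fin (n + 2)) (k : Fin n) : R := ∑ l : Fin n, aR D T Ti r G H l.succ.succ a * H l k

/-- the contracted Christoffel symbols of `G` -/
def gR (D : Fin (n + 2) → Derivation ℝ R R) (G H : Fin n → Fin n → R) (k : Fin n) : R :=
  ∑ l, chr (fun i => De D i) G H l l k

lemma aH_00 : aH Ti r H 0 0 = 0 := rfl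
lemma aH_01 : aH Ti r H 0 1 = Ti := rfl
lemma aH_10 : aH Ti r H 1 0 = Ti := rfl
lemma aH_11 : aH Ti r H 1 1 = -((r + r) * Ti) := rfl
lemma aH_0e (i : Fin n) : aH Ti r H 0 i.succ.succ = 0 := rfl
lemma aH_e0 (i : Fin n) : aH Ti r H i.succ.succ 0 = 0 := rfl
lemma aH_1e (i : Fin n) : aH Ti r H 1 i.succ.succ = 0 := rfl
lemma aH_e1 (i : Fin n) : aH Ti r H i.succ.succ 1 = 0 := rfl
lemma aH_ee (i j : Fin n) : aH Ti r H i.succ.succ j.succ.succ = Ti * H i j := rfl

include hA hG hH hG0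

lemma Vr_0 (a : Fin (n + 2)) : Vr D (aG T r G) (aH Ti r H) a 0 = Ti * aR D T Ti r G H 1 a := by
  change ∑ d, aR D T Ti r G H d a * aH Ti r H d 0 = _
  rw [asum]
  simp only [aH_00, aH_10, aH_e0, mul_zero, Finset.sum_const_zero, add_zero, zero_add]
  rw [mul_comm]

lemma Vr_1 (a : Fin (n + 2)) : Vr D (aG T r G) (aH Ti r H) a 1 =
    Ti * (-((r + r) * aR D T Ti r G H 1 a)) := by
  change ∑ d, aR D T Ti r G H d a * aH Ti r H d 1 = _
  rw [asum, aR_0b hA hG hH hG0 a]
  simp only [aH_01, aH_11, aH_e1, mul_zero, zero_mul, Finset.sum_const_zero, add_zero, zero_add]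
  ring

lemma Vr_e (a : Fin (n + 2)) (k : Fin n) : Vr D (aG T r G) (aH Ti r H) a k.succ.succ =
    Ti * vR D T Ti r G H a k := by
  change ∑ d, aR D T Ti r G H d a * aH Ti r H d k.succ.succ = _
  unfold vR
  rw [asum]
  simp only [aH_0e, aH_1e, aH_ee, mul_zero, Finset.sum_const_zero, add_zero, zero_add,
    Finset.mul_sum]
  exact Finset.sum_congr rfl fun l _ => by ring

lemma vR_0 (k : Fin n) : vR D T Ti r G H 0 k = 0 := by
  unfold vR
  exact Finset.sum_eq_zero fun l _ => by rw [aR_b0 hA hG hH hG0, zero_mul]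

lemma tr_C0 : ∑ c, aC D T Ti r G H c c 0 = (n : R) + 2 := by
  obtain ⟨hs, c000, c001, c010, c00e, c0e0, c011, c01e, c0e1, c0ee, c100, c101, c110, c10e, c1e0,
    c111, c11e, c1e1, c1ee, ce00, ce01, ce10, ce0e, cee0, ce11, ce1e, cee1, ceee⟩ :=
    aC_all hA hG hH hG0
  rw [asum]
  simp [c000, c110, cee0]
  ring

lemma tr_C1 : ∑ c, aC D T Ti r G H c c 1 = (1 / 2 : ℝ) • tauR D G H := by
  obtain ⟨hs, c000, c001, c010, c00e, c0e0, c011, c01e, c0e1, c0ee, c100, c101, c110, c10e, c1e0,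
    c111, c11e, c1e1, c1ee, ce00, ce01, ce10, ce0e, cee0, ce11, ce1e, cee1, ceee⟩ :=
    aC_all hA hG hH hG0
  rw [asum]
  simp only [c001, c111, cee1, zero_add]
  rw [← Finset.smul_sum]; rfl

lemma tr_Ce (k : Fin n) : ∑ c, aC D T Ti r G H c c k.succ.succ = gR D G H k := by
  obtain ⟨hs, c000, c001, c010, c00e, c0e0, c011, c01e, c0e1, c0ee, c100, c101, c110, c10e, c1e0,
    c111, c11e, c1e1, c1ee, ce00, ce01, ce10, ce0e, cee0, ce11, ce1e, cee1, ceee⟩ :=
    aC_all hA hG hH hG0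
  rw [asum]
  simp only [c00e, c11e, ceee, zero_add]
  rfl

/-- first part -/
lemma P1 (a : Fin (n + 2)) : ∑ c, D c (Vr D (aG T r G) (aH Ti r H) a c) =
    Ti * (-(4 * aR D T Ti r G H 1 a) - 2 * (r * D 1 (aR D T Ti r G H 1 a))
      + ∑ k : Fin n, D k.succ.succ (vR D T Ti r G H a k)) := by
  rw [asum]
  simp only [Vr_0 hA hG hH hG0, Vr_1 hA hG hH hG0, Vr_e hA hG hH hG0, Derivation.leibniz,
    D0Ti hA hG hH hG0, D0_aR hA hG hH hG0, DcTi hA hG hH hG0 hA.T1,
    fun k => DcTi hA hG hH hG0 (hA.Te k), hA.r1, map_add, map_neg, smul_eq_mul, mul_zero, add_zero,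
    zero_add]
  rw [← Finset.mul_sum]
  ring

/-- second part -/
lemma P2 (a : Fin (n + 2)) :
    ∑ c, ∑ e, chr (fun i => D i) (aG T r G) (aH Ti r H) c c e * Vr D (aG T r G) (aH Ti r H) a e =
    Ti * (((n : R) + 2) * aR D T Ti r G H 1 a - r * tauR D G H * aR D T Ti r G H 1 a
      + ∑ k, gR D G H k * vR D T Ti r G H a k) := by
  rw [Finset.sum_comm]
  simp only [← Finset.sum_mul]
  have h0 := tr_C0 hA hG hH hG0
  have h1 := tr_C1 hA hG hH hG0
  have he := tr_Ce hA hG hH hG0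
  unfold aC at h0 h1 he
  rw [asum]
  simp only [h0, h1, he, Vr_0 hA hG hH hG0, Vr_1 hA hG hH hG0, Vr_e hA hG hH hG0]
  have h2 : algebraMap ℝ R (1 / 2) * 2 = 1 := by
    rw [← map_ofNat (algebraMap ℝ R) 2, ← map_mul]; norm_num
  have e1 : ∑ x, gR D G H x * (Ti * vR D T Ti r G H a x) = Ti * ∑ k, gR D G H k * vR D T Ti r G H a k := by
    rw [Finset.mul_sum]; exact Finset.sum_congr rfl fun k _ => by ring
  rw [e1, Algebra.smul_def]
  linear_combination (-(Ti * tauR D G H * r * aR D T Ti r G H 1 a)) * h2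

/-- the trace -/
lemma P4 : ∑ c, Vr D (aG T r G) (aH Ti r H) c c =
    Ti * (-((r + r) * aR D T Ti r G H 1 1) + ∑ k : Fin n, vR D T Ti r G H k.succ.succ k) := by
  rw [asum]
  simp only [Vr_0 hA hG hH hG0, Vr_1 hA hG hH hG0, Vr_e hA hG hH hG0, aR_b0 hA hG hH hG0]
  rw [← Finset.mul_sum]; ring

/-- third part, `a = j` -/
lemma P3e (j : Fin n) :
    ∑ c, ∑ e, chr (fun i => D i) (aG T r G) (aH Ti r H) c j.succ.succ e *
      Vr D (aG T r G) (aH Ti r H) c e =
    Ti * ∑ k, ∑ l, chr (fun i => De D i) G H k j l * vR D T Ti r G H k.succ.succ l := by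
  obtain ⟨hs, c000, c001, c010, c00e, c0e0, c011, c01e, c0e1, c0ee, c100, c101, c110, c10e, c1e0,
    c111, c11e, c1e1, c1ee, ce00, ce01, ce10, ce0e, cee0, ce11, ce1e, cee1, ceee⟩ :=
    aC_all hA hG hH hG0
  unfold aC at *
  have hHs := gi_symm G H hG hH
  rw [asum]
  simp only [asum, c0e0, c0e1, c0ee, c1e0, c1e1, c1ee, cee0, cee1, ceee, zero_mul, zero_add,
    Vr_0 hA hG hH hG0, Vr_1 hA hG hH hG0, Vr_e hA hG hH hG0, aR_b0 hA hG hH hG0, vR_0 hA hG hH hG0,
    mul_zero, Finset.sum_const_zero, neg_zero, Finset.sum_add_distrib]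
  set κ : Fin n → R := fun l => aR D T Ti r G H 1 l.succ.succ with hκ
  have hv1 : ∀ k, vR D T Ti r G H 1 k = ∑ l, κ l * H l k := by
    intro k
    unfold vR
    exact Finset.sum_congr rfl fun l _ => by rw [aR_symm hA hG hH hG0]
  have hGH : ∀ l, ∑ k, G j k * H k l = if j = l then 1 else 0 := by
    intro l
    have := congrFun (congrFun (g_mul_gi G H hG hH) j) l
    rw [Matrix.mul_apply, Matrix.one_apply] at this
    exact this
  have e1 : ∑ x, (r * D 1 (G j x) - G j x) * (Ti * vR D T Ti r G H 1 x) =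
      Ti * (r * ∑ x, ∑ l, D 1 (G j x) * κ l * H l x) - Ti * κ j := by
    have e2 : κ j = ∑ x, ∑ l, G j x * κ l * H l x := by
      rw [Finset.sum_comm]
      have : ∀ l, ∑ x, G j x * κ l * H l x = κ l * if j = l then 1 else 0 := by
        intro l
        rw [← hGH l, Finset.mul_sum]
        exact Finset.sum_congr rfl fun x _ => by rw [hHs l x]; ring
      simp only [this]
      simp
    rw [e2]
    simp only [hv1, Finset.mul_sum, ← Finset.sum_sub_distrib]
    refine Finset.sum_congr rfl fun x _ => Finset.sum_congr rfl fun l _ => ?_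
    ring
  have e3 : ∑ x, (if x = j then (1 : R) else 0) * (Ti * aR D T Ti r G H 1 x.succ.succ) = Ti * κ j := by
    simp [hκ]
  have e4 : ∑ x : Fin n, ((1 / 2 : ℝ) • ∑ l, H x l * D 1 (G j l)) *
      (Ti * -((r + r) * aR D T Ti r G H 1 x.succ.succ)) =
      -(Ti * (r * ∑ x, ∑ l, D 1 (G j x) * κ l * H l x)) := by
    rw [Finset.sum_comm (f := fun x l => D 1 (G j x) * κ l * H l x)]
    have h2 : algebraMap ℝ R (1 / 2) * 2 = 1 := by
      rw [← map_ofNat (algebraMap ℝ R) 2, ← map_mul]; norm_num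
    simp only [Finset.mul_sum, Algebra.smul_def, Finset.sum_mul, ← Finset.sum_neg_distrib]
    refine Finset.sum_congr rfl fun x _ => Finset.sum_congr rfl fun l _ => ?_
    simp only [hκ]
    linear_combination (-(Ti * r * H x l * D 1 (G j l) * aR D T Ti r G H 1 x.succ.succ)) * h2
  have e5 : ∑ k, ∑ l, chr (fun i => De D i) G H k j l * (Ti * vR D T Ti r G H k.succ.succ l) =
      Ti * ∑ k, ∑ l, chr (fun i => De D i) G H k j l * vR D T Ti r G H k.succ.succ l := by
    simp only [Finset.mul_sum]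
    exact Finset.sum_congr rfl fun x _ => Finset.sum_congr rfl fun l _ => by ring
  rw [e1, e3, e4, e5]
  ring

/-- third part, `a = 1` -/
lemma P31 :
    ∑ c, ∑ e, chr (fun i => D i) (aG T r G) (aH Ti r H) c 1 e * Vr D (aG T r G) (aH Ti r H) c e =
    Ti * (aR D T Ti r G H 1 1 + ∑ k : Fin n, ∑ l, ((1 / 2 : ℝ) • ∑ m, H k m * D 1 (G l m)) *
      vR D T Ti r G H k.succ.succ l) := by
  obtain ⟨hs, c000, c001, c010, c00e, c0e0, c011, c01e, c0e1, c0ee, c100, c101, c110, c10e, c1e0,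
    c111, c11e, c1e1, c1ee, ce00, ce01, ce10, ce0e, cee0, ce11, ce1e, cee1, ceee⟩ :=
    aC_all hA hG hH hG0
  unfold aC at *
  rw [asum]
  simp only [asum, c010, c011, c01e, c110, c111, c11e, ce10, ce11, ce1e, zero_mul, zero_add,
    Vr_0 hA hG hH hG0, Vr_1 hA hG hH hG0, Vr_e hA hG hH hG0, aR_b0 hA hG hH hG0, vR_0 hA hG hH hG0,
    mul_zero, Finset.sum_const_zero, neg_zero, one_mul, add_zero]
  rw [mul_add]
  congr 1
  simp only [Finset.mul_sum]
  exact Finset.sum_congr rfl fun x _ => Finset.sum_congr rfl fun l _ => by ring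

/-- the tangential component of the contracted Bianchi identity -/
theorem bianchi_e (j : Fin n) :
    2 * (((n : R) - 2) * aR D T Ti r G H 1 j.succ.succ
      - 2 * (r * D 1 (aR D T Ti r G H 1 j.succ.succ))
      - r * tauR D G H * aR D T Ti r G H 1 j.succ.succ
      + r * D j.succ.succ (aR D T Ti r G H 1 1)) =
    - 2 * (∑ k : Fin n, D k.succ.succ (vR D T Ti r G H j.succ.succ k)
      + ∑ k, gR D G H k * vR D T Ti r G H j.succ.succ k
      - ∑ k, ∑ l, chr (fun i => De D i) G H k j l * vR D T Ti r G H k.succ.succ l)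
      + D j.succ.succ (∑ k : Fin n, vR D T Ti r G H k.succ.succ k) := by
  have h := contracted_bianchi D (aG T r G) (aH Ti r H) hA.comm (aG_symm T r hG)
    (aH_inv r hA.tti hH) j.succ.succ
  rw [P1 hA hG hH hG0, P2 hA hG hH hG0, P3e hA hG hH hG0, P4 hA hG hH hG0] at h
  rw [Derivation.leibniz, DcTi hA hG hH hG0 (hA.Te j), smul_zero, add_zero, smul_eq_mul, map_add,
    map_neg, Derivation.leibniz, map_add, hA.re] at h
  simp only [smul_eq_mul, add_zero, mul_zero] at h
  linear_combination T * h - (2 * (((n : R) - 2) * aR D T Ti r G H 1 j.succ.succ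
      - 2 * (r * D 1 (aR D T Ti r G H 1 j.succ.succ))
      - r * tauR D G H * aR D T Ti r G H 1 j.succ.succ
      + r * D j.succ.succ (aR D T Ti r G H 1 1)) - (- 2 * (∑ k : Fin n, D k.succ.succ (vR D T Ti r G H j.succ.succ k)
      + ∑ k, gR D G H k * vR D T Ti r G H j.succ.succ k
      - ∑ k, ∑ l, chr (fun i => De D i) G H k j l * vR D T Ti r G H k.succ.succ l)
      + D j.succ.succ (∑ k : Fin n, vR D T Ti r G H k.succ.succ k))) * hA.tti

/-- the normal component of the contracted Bianchi identity -/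
theorem bianchi_1 :
    2 * (((n : R) - 2) * aR D T Ti r G H 1 1 - r * D 1 (aR D T Ti r G H 1 1)
      - r * tauR D G H * aR D T Ti r G H 1 1) =
    - 2 * (∑ k : Fin n, D k.succ.succ (vR D T Ti r G H 1 k)
      + ∑ k, gR D G H k * vR D T Ti r G H 1 k
      - ∑ k : Fin n, ∑ l, ((1 / 2 : ℝ) • ∑ m, H k m * D 1 (G l m)) *
      vR D T Ti r G H k.succ.succ l)
      + D 1 (∑ k : Fin n, vR D T Ti r G H k.succ.succ k) := by
  have h := contracted_bianchi D (aG T r G) (aH Ti r H) hA.comm (aG_symm T r hG)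
    (aH_inv r hA.tti hH) 1
  rw [P1 hA hG hH hG0, P2 hA hG hH hG0, P31 hA hG hH hG0, P4 hA hG hH hG0] at h
  rw [Derivation.leibniz, DcTi hA hG hH hG0 hA.T1, smul_zero, add_zero, smul_eq_mul, map_add,
    map_neg, Derivation.leibniz, map_add, hA.r1] at h
  simp only [smul_eq_mul, add_zero, mul_zero] at h
  linear_combination T * h - (2 * (((n : R) - 2) * aR D T Ti r G H 1 1 - r * D 1 (aR D T Ti r G H 1 1)
      - r * tauR D G H * aR D T Ti r G H 1 1) - (- 2 * (∑ k : Fin n, D k.succ.succ (vR D T Ti r G H 1 k)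
      + ∑ k, gR D G H k * vR D T Ti r G H 1 k
      - ∑ k : Fin n, ∑ l, ((1 / 2 : ℝ) • ∑ m, H k m * D 1 (G l m)) *
      vR D T Ti r G H k.succ.succ l)
      + D 1 (∑ k : Fin n, vR D T Ti r G H k.succ.succ k))) * hA.tti

end bianchi

end

end GJMS
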