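import Mathlib
import Pool.Agent.GJMS.AmbBianchi

/-!
# The conformal variation as an ambient diffeomorphism
-/

open Finset

set_option linter.unusedSectionVars false
set_option linter.unusedSimpArgs false

namespace GJMS

noncomputable section

variable {n : ℕ} {R : Type} [CommRing R] [Algebra ℝ R]

/-- inverse matrices are unique -/
lemma inv_unique {m : ℕ} {g x y : Fin m → Fin m → R}
    (hx : ∀ a b, ∑ c, x a c * g b c = if a = b then 1 else 0)
    (hy : ∀ a b, ∑ c, y a c * g b c = if a = b then 1 else 0) (a b : Fin m) : x a b = y a b := by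
  have h1 : (Matrix.of x : Matrix (Fin m) (Fin m) R) * (Matrix.of g).transpose = 1 := by
    ext a b
    rw [Matrix.mul_apply, Matrix.one_apply, ← hx a b]; rfl
  have h2 : (Matrix.of y : Matrix (Fin m) (Fin m) R) * (Matrix.of g).transpose = 1 := by
    ext a b
    rw [Matrix.mul_apply, Matrix.one_apply, ← hy a b]; rfl
  have h3 : (Matrix.of g).transpose * (Matrix.of y : Matrix (Fin m) (Fin m) R) = 1 :=
    mul_eq_one_comm.1 h2
  have h4 : (Matrix.of x : Matrix (Fin m) (Fin m) R) = Matrix.of y := by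
    calc (Matrix.of x : Matrix (Fin m) (Fin m) R)
        = Matrix.of x * ((Matrix.of g).transpose * Matrix.of y) := by rw [h3, mul_one]
      _ = Matrix.of y := by rw [← mul_assoc, h1, one_mul]
  exact congrFun (congrFun h4 a) b

/-- the ambient vector field -/
def aX (r σ : R) (b : Fin n → R) : Fin (n + 2) → R := blk σ (-((r + r) * σ)) b

lemma aX_0 (r σ : R) (b : Fin n → R) : aX r σ b 0 = σ := rfl
lemma aX_1 (r σ : R) (b : Fin n → R) : aX r σ b 1 = -((r + r) * σ) := rfl
lemma aX_e (r σ : R) (b : Fin n → R) (i : Fin n) : aX r σ b i.succ.succ = b i := rfl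

/-- the varied metric -/
def vG (D : Fin (n + 2) → Derivation ℝ R R) (r σ : R) (b : Fin n → R) (G : Fin n → Fin n → R)
    (i j : Fin n) : R :=
  G i j + ((σ + σ) * G i j - (r + r) * σ * D 1 (G i j) + lieL (fun i => De D i) b G i j)

section var

variable {D : Fin (n + 2) → Derivation ℝ R R} {T Ti r : R} (hA : AmbSys D T Ti r)
  {G H : Fin n → Fin n → R} (hG : ∀ i j, G i j = G j i)
  (hH : ∀ i j, ∑ k, H i k * G j k = if i = j then 1 else 0)
  (hG0 : ∀ i j, D 0 (G i j) = 0)
  {σ : R} {b : Fin n → R} (hσ0 : D 0 σ = 0) (hσ1 : D 1 σ = 0) (hb0 : ∀ i, D 0 (b i) = 0)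
  (hb1 : ∀ i, D 1 (b i) = -∑ j, H i j * D j.succ.succ σ)

lemma aG_00 (T r : R) (G : Fin n → Fin n → R) : aG T r G 0 0 = (r + r) * T := rfl
lemma aG_01 (T r : R) (G : Fin n → Fin n → R) : aG T r G 0 1 = T := rfl
lemma aG_10 (T r : R) (G : Fin n → Fin n → R) : aG T r G 1 0 = T := rfl
lemma aG_11 (T r : R) (G : Fin n → Fin n → R) : aG T r G 1 1 = 0 := rfl
lemma aG_0e (T r : R) (G : Fin n → Fin n → R) (i : Fin n) : aG T r G 0 i.succ.succ = 0 := rfl
lemma aG_e0 (T r : R) (G : Fin n → Fin n → R) (i : Fin n) : aG T r G i.succ.succ 0 = 0 := rfl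
lemma aG_1e (T r : R) (G : Fin n → Fin n → R) (i : Fin n) : aG T r G 1 i.succ.succ = 0 := rfl
lemma aG_e1 (T r : R) (G : Fin n → Fin n → R) (i : Fin n) : aG T r G i.succ.succ 1 = 0 := rfl
lemma aG_ee (T r : R) (G : Fin n → Fin n → R) (i j : Fin n) :
    aG T r G i.succ.succ j.succ.succ = T * G i j := rfl

include hG in
lemma vG_symm (i j : Fin n) : vG D r σ b G i j = vG D r σ b G j i := by
  unfold vG lieL
  rw [hG i j]
  congr 2
  refine Finset.sum_congr rfl fun c _ => ?_
  rw [hG c j, hG i c]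
  ring

include hA hG hH hG0 hσ0 hσ1 hb0 hb1

lemma lieL_aG (a c : Fin (n + 2)) :
    aG T r G a c + lieL (fun i => D i) (aX r σ b) (aG T r G) a c = aG T r (vG D r σ b G) a c := by
  have hsym : ∀ a c, aG T r G a c + lieL (fun i => D i) (aX r σ b) (aG T r G) a c =
      aG T r G c a + lieL (fun i => D i) (aX r σ b) (aG T r G) c a := by
    intro a c
    have h := aG_symm T r hG
    unfold lieL
    rw [h a c]
    congr 1
    refine Finset.sum_congr rfl fun e _ => ?_
    rw [h e c, h a e]; ring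
  have hsym2 := aG_symm T r (fun i j => vG_symm (D := D) (r := r) (σ := σ) (b := b) hG i j)
  have hrσ : ∀ c, D c r = 0 → D c (-((r + r) * σ)) = -((r + r) * D c σ) := by
    intro c hc
    rw [map_neg, Derivation.leibniz, map_add, hc, smul_eq_mul]; simp
  have hrσ1 : D 1 (-((r + r) * σ)) = -(σ + σ) := by
    rw [map_neg, Derivation.leibniz, map_add, hA.r1, hσ1, smul_eq_mul, smul_eq_mul]; ring
  have h1e : ∀ j : Fin n, aG T r G 1 j.succ.succ + lieL (fun i => D i) (aX r σ b) (aG T r G) 1 j.succ.succ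
      = aG T r (vG D r σ b G) 1 j.succ.succ := by
    intro j
    unfold lieL
    rw [asum]
    simp only [aG_00, aG_01, aG_10, aG_11, aG_0e, aG_e0, aG_1e, aG_e1, aG_ee, aX_0, aX_1, aX_e,
      map_zero, mul_zero, zero_mul, add_zero, zero_add, hσ1, hb1]
    have : ∑ i, (-∑ k, H i k * D k.succ.succ σ) * (T * G i j) = - (D j.succ.succ σ * T) := by
      have hHG : ∀ k, ∑ i, G i j * H i k = if j = k then 1 else 0 := by
        intro k
        have := congrFun (congrFun (g_mul_gi G H hG hH) j) k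
        rw [Matrix.mul_apply, Matrix.one_apply] at this
        rw [← this]
        exact Finset.sum_congr rfl fun i _ => by rw [hG i j]; rfl
      have e1 : ∑ i, (-∑ k, H i k * D k.succ.succ σ) * (T * G i j) =
          - (T * ∑ k : Fin n, D k.succ.succ σ * ∑ i, G i j * H i k) := by
        simp only [Finset.mul_sum, Finset.sum_mul, ← Finset.sum_neg_distrib]
        rw [Finset.sum_comm]
        refine Finset.sum_congr rfl fun k _ => Finset.sum_congr rfl fun i _ => ?_
        ring
      rw [e1]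
      simp only [hHG]
      simp [mul_comm]
    rw [this]
    ring
  induction a using aind with
  | h0 =>
    induction c using aind with
    | h0 =>
      unfold lieL
      rw [asum]
      simp only [aG_00, aG_01, aG_10, aG_11, aG_0e, aG_e0, aG_1e, aG_e1, aG_ee, aX_0, aX_1, aX_e,
        hrσ 0 hA.r0, hσ0, hb0, hA.D0rT, hA.D1rT, hA.DerT]
      simp
      ring
    | h1 =>
      unfold lieL
      rw [asum]
      simp only [aG_00, aG_01, aG_10, aG_11, aG_0e, aG_e0, aG_1e, aG_e1, aG_ee, aX_0, aX_1, aX_e,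
        hrσ 0 hA.r0, hrσ1, hσ0, hσ1, hb0, hA.T0, hA.T1, hA.Te]
      simp
      ring
    | h2 j =>
      unfold lieL
      rw [asum]
      simp only [aG_00, aG_01, aG_10, aG_11, aG_0e, aG_e0, aG_1e, aG_e1, aG_ee, aX_0, aX_1, aX_e,
        hrσ 0 hA.r0, hrσ _ (hA.re j), hσ0, hb0]
      simp
      ring
  | h1 =>
    induction c using aind with
    | h0 =>
      rw [hsym, hsym2]
      unfold lieL
      rw [asum]
      simp only [aG_00, aG_01, aG_10, aG_11, aG_0e, aG_e0, aG_1e, aG_e1, aG_ee, aX_0, aX_1, aX_e,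
        hrσ 0 hA.r0, hrσ1, hσ0, hσ1, hb0, hA.T0, hA.T1, hA.Te]
      simp
      ring
    | h1 =>
      unfold lieL
      rw [asum]
      simp only [aG_00, aG_01, aG_10, aG_11, aG_0e, aG_e0, aG_1e, aG_e1, aG_ee, aX_0, aX_1, aX_e,
        hσ1]
      simp
    | h2 j => exact h1e j
  | h2 i =>
    induction c using aind with
    | h0 =>
      rw [hsym, hsym2]
      unfold lieL
      rw [asum]
      simp only [aG_00, aG_01, aG_10, aG_11, aG_0e, aG_e0, aG_1e, aG_e1, aG_ee, aX_0, aX_1, aX_e,
        hrσ 0 hA.r0, hrσ _ (hA.re i), hσ0, hb0]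
      simp
      ring
    | h1 => rw [hsym, hsym2]; exact h1e i
    | h2 j =>
      unfold lieL vG lieL
      rw [asum]
      simp only [aG_00, aG_01, aG_10, aG_11, aG_0e, aG_e0, aG_1e, aG_e1, aG_ee, aX_0, aX_1, aX_e,
        Derivation.leibniz, hA.T0, hA.T1, hA.Te, hG0, smul_eq_mul, mul_zero, add_zero, zero_add]
      simp only [mul_add, Finset.mul_sum]
      have e1 : ∀ x : Fin n, b x * (T * D x.succ.succ (G i j)) + D i.succ.succ (b x) * (T * G x j) +
          D j.succ.succ (b x) * (T * G i x) = T * (b x * D x.succ.succ (G i j)) +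
          T * (D i.succ.succ (b x) * G x j) + T * (D j.succ.succ (b x) * G i x) := fun x => by ring
      simp only [e1]
      ring

end var

end

end GJMS
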