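import Mathlib
import Pool.Agent.GJMS.AmbVar

/-!
# Covariance of the ambient Ricci curvature and of the ambient Laplacian
-/

open Finset

set_option linter.unusedSectionVars false
set_option linter.unusedSimpArgs false

namespace GJMS

noncomputable section

variable {n : ℕ} {R : Type} [CommRing R] [Algebra ℝ R]

/-- covariance of the Laplacian -/
lemma amb_lap_cov {m : ℕ} (D : Fin m → Derivation ℝ R R) (hD : ∀ i j x, D i (D j x) = D j (D i x))
    (N : Ideal R) (hN : ∀ x ∈ N, ∀ y ∈ N, x * y = 0) (hDN : ∀ i, ∀ x ∈ N, D i x ∈ N)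
    (X : Fin m → R) (hX : ∀ c, X c ∈ N)
    (g gi : Fin m → Fin m → R) (hg : ∀ a b, g a b = g b a)
    (hgi : ∀ a b, ∑ c, gi a c * g b c = if a = b then 1 else 0) (f : R) :
    lap (fun i => D i) (fun a b => g a b + lieL (fun i => D i) X g a b)
      (fun a b => gi a b + lieU (fun i => D i) X gi a b) (f + vf D X f)
    = lap (fun i => D i) g gi f + vf D X (lap (fun i => D i) g gi f) := by
  unfold lap
  rw [nabF_cov D hD N hN hDN X hX g gi hg hgi]
  rw [← pair2 D X gi (fun a b => nabF (fun i => D i) g gi f 2 ![a, b]), ← Finset.sum_add_distrib]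
  refine Finset.sum_congr rfl fun a _ => ?_
  rw [← Finset.sum_add_distrib]
  refine Finset.sum_congr rfl fun b _ => ?_
  have h1 : lie (fun i => D i) X (nabF (fun i => D i) g gi f 2) ![a, b] =
      lieL (fun i => D i) X (fun a b => nabF (fun i => D i) g gi f 2 ![a, b]) a b := by
    have h2 := lie_pair D X ![a, b] (fun a b => nabF (fun i => D i) g gi f 2 ![a, b])
    rw [show (![a, b] : Fin 2 → Fin m) 0 = a from rfl, show (![a, b] : Fin 2 → Fin m) 1 = b from rfl] at h2
    rw [← h2]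
    have h3 : nabF (fun i => D i) g gi f 2 =
        fun w : Fin 2 → Fin m => nabF (fun i => D i) g gi f 2 ![w 0, w 1] := by
      funext w
      congr 1
      funext i
      fin_cases i <;> rfl
    rw [← h3]
  beta_reduce
  rw [h1]
  have := hN _ (lieU_mem D N hDN X hX gi a b) _
    (lieL_mem D N hDN X hX (fun a b => nabF (fun i => D i) g gi f 2 ![a, b]) a b)
  linear_combination this

/-- the Laplacian in coordinates -/
lemma amb_lap_eq {m : ℕ} (d : Fin m → R → R) (g gi : Fin m → Fin m → R) (f : R) :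
    lap d g gi f = ∑ a, ∑ b, gi a b * (d a (d b f) - ∑ c, chr d g gi c a b * d c f) := by
  have h1 : ∀ w : Fin 1 → Fin m, nabF d g gi f 1 w = d (w 0) f := by
    intro w
    show d (w 0) f - ∑ s : Fin 0, _ = _
    rw [Fin.sum_univ_zero, sub_zero]
  unfold lap
  refine Finset.sum_congr rfl fun a _ => Finset.sum_congr rfl fun b _ => ?_
  congr 1
  show d a (nabF d g gi f 1 (Fin.tail ![a, b])) - ∑ s : Fin 1, ∑ c, chr d g gi c a ((![a, b] : Fin 2 → Fin m) s.succ) *
    nabF d g gi f 1 (Function.update (Fin.tail ![a, b]) s c) = _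
  rw [h1, Fin.sum_univ_one]
  congr 1
  refine Finset.sum_congr rfl fun c _ => ?_
  rw [h1]
  simp

section cov

variable {D : Fin (n + 2) → Derivation ℝ R R} {T Ti r : R} (hA : AmbSys D T Ti r)
  {G H : Fin n → Fin n → R} (hG : ∀ i j, G i j = G j i)
  (hH : ∀ i j, ∑ k, H i k * G j k = if i = j then 1 else 0)
  (hG0 : ∀ i j, D 0 (G i j) = 0)
  {σ : R} {b : Fin n → R} (hσ0 : D 0 σ = 0) (hσ1 : D 1 σ = 0) (hb0 : ∀ i, D 0 (b i) = 0)
  (hb1 : ∀ i, D 1 (b i) = -∑ j, H i j * D j.succ.succ σ)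
  (N : Ideal R) (hN : ∀ x ∈ N, ∀ y ∈ N, x * y = 0) (hDN : ∀ i, ∀ x ∈ N, D i x ∈ N)
  (hσN : σ ∈ N) (hbN : ∀ i, b i ∈ N)
  {H' : Fin n → Fin n → R}
  (hH' : ∀ i j, ∑ k, H' i k * vG D r σ b G j k = if i = j then 1 else 0)

include hσN hbN in
lemma aX_mem (c : Fin (n + 2)) : aX r σ b c ∈ N := by
  induction c using aind with
  | h0 => exact hσN
  | h1 => exact N.neg_mem (N.mul_mem_left _ hσN)
  | h2 i => exact hbN i

include hA hG0 hσ0 hb0 in
lemma D0_vG (i j : Fin n) : D 0 (vG D r σ b G i j) = 0 := by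
  have h1 : ∀ c x, D 0 x = 0 → D 0 (D c x) = 0 := by
    intro c x hx
    rw [hA.comm, hx, map_zero]
  unfold vG lieL
  simp only [map_add, map_sub, map_sum, Derivation.leibniz, hσ0, hG0, hA.r0, smul_eq_mul, hb0,
    h1 _ _ (hG0 _ _), h1 _ _ (hb0 _)]
  simp

include hA hG hH hG0 hσ0 hσ1 hb0 hb1 hN hDN hσN hbN hH'

lemma aH_lie (a c : Fin (n + 2)) :
    aH Ti r H a c + lieU (fun i => D i) (aX r σ b) (aH Ti r H) a c = aH Ti r H' a c := by
  refine inv_unique (g := aG T r (vG D r σ b G))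
    (x := fun a c => aH Ti r H a c + lieU (fun i => D i) (aX r σ b) (aH Ti r H) a c) ?_
    (aH_inv r hA.tti hH') a c
  intro a c
  rw [← inv_cov D N hN hDN (aX r σ b) (aX_mem N hσN hbN) (aG T r G) (aH Ti r H) (aG_symm T r hG)
    (aH_inv r hA.tti hH) a c]
  refine Finset.sum_congr rfl fun e _ => ?_
  rw [lieL_aG hA hG hH hG0 hσ0 hσ1 hb0 hb1]

lemma aR_var (a c : Fin (n + 2)) : aR D T Ti r (vG D r σ b G) H' a c =
    aR D T Ti r G H a c + lieL (fun i => D i) (aX r σ b) (aR D T Ti r G H) a c := by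
  have h := ric_cov D hA.comm N hN hDN (aX r σ b) (aX_mem N hσN hbN) (aG T r G) (aH Ti r H)
    (aG_symm T r hG) (aH_inv r hA.tti hH) a c
  rw [← h]
  have e1 : aG T r (vG D r σ b G) =
      (fun a c => aG T r G a c + lieL (fun i => D i) (aX r σ b) (aG T r G) a c) := by
    funext a c
    rw [lieL_aG hA hG hH hG0 hσ0 hσ1 hb0 hb1]
  have e2 : aH Ti r H' =
      (fun a c => aH Ti r H a c + lieU (fun i => D i) (aX r σ b) (aH Ti r H) a c) := by
    funext a c
    rw [aH_lie hA hG hH hG0 hσ0 hσ1 hb0 hb1 N hN hDN hσN hbN hH']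
  unfold aR aC
  rw [e1, e2]

lemma alap_var (f : R) : lap (fun i => D i) (aG T r (vG D r σ b G)) (aH Ti r H')
      (f + vf D (aX r σ b) f) =
    lap (fun i => D i) (aG T r G) (aH Ti r H) f +
      vf D (aX r σ b) (lap (fun i => D i) (aG T r G) (aH Ti r H) f) := by
  rw [← amb_lap_cov D hA.comm N hN hDN (aX r σ b) (aX_mem N hσN hbN) (aG T r G) (aH Ti r H)
    (aG_symm T r hG) (aH_inv r hA.tti hH) f]
  have e1 : aG T r (vG D r σ b G) =
      (fun a c => aG T r G a c + lieL (fun i => D i) (aX r σ b) (aG T r G) a c) := by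
    funext a c
    rw [lieL_aG hA hG hH hG0 hσ0 hσ1 hb0 hb1]
  have e2 : aH Ti r H' =
      (fun a c => aH Ti r H a c + lieU (fun i => D i) (aX r σ b) (aH Ti r H) a c) := by
    funext a c
    rw [aH_lie hA hG hH hG0 hσ0 hσ1 hb0 hb1 N hN hDN hσN hbN hH']
  rw [e1, e2]

lemma alap_var_pow (f : R) (k : ℕ) :
    (lap (fun i => D i) (aG T r (vG D r σ b G)) (aH Ti r H'))^[k] (f + vf D (aX r σ b) f) =
    (lap (fun i => D i) (aG T r G) (aH Ti r H))^[k] f +
      vf D (aX r σ b) ((lap (fun i => D i) (aG T r G) (aH Ti r H))^[k] f) := by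
  induction k with
  | zero => rfl
  | succ k ih =>
    rw [Function.iterate_succ_apply', Function.iterate_succ_apply', ih]
    exact alap_var hA hG hH hG0 hσ0 hσ1 hb0 hb1 N hN hDN hσN hbN hH' _

/-- the Fefferman-Graham expression of the varied metric vanishes to the same order -/
theorem fER_var_mem (J : Ideal R) (hDJ : ∀ i : Fin n, ∀ x ∈ J, D i.succ.succ x ∈ J)
    (hr : ∀ x ∈ J, r * D 1 x ∈ J)
    (hF : ∀ i j, fER D r G H i j ∈ J) (hK : ∀ j : Fin n, r * aR D T Ti r G H 1 j.succ.succ ∈ J)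
    (i j : Fin n) : fER D r (vG D r σ b G) H' i j ∈ J := by
  have hsm : ∀ (c : ℝ) x, x ∈ J → c • x ∈ J := by
    intro c x hx
    rw [Algebra.smul_def]
    exact J.mul_mem_left _ hx
  have hRJ : ∀ i j : Fin n, aR D T Ti r G H i.succ.succ j.succ.succ ∈ J := by
    intro i j
    rw [aR_ee hA hG hH hG0]
    exact hsm _ _ (hF i j)
  have hvs := vG_symm (D := D) (r := r) (σ := σ) (b := b) hG
  have h1 := aR_var hA hG hH hG0 hσ0 hσ1 hb0 hb1 N hN hDN hσN hbN hH' i.succ.succ j.succ.succ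
  rw [aR_ee hA hvs hH' (D0_vG hA hG0 hσ0 hb0)] at h1
  have h2 : lieL (fun i => D i) (aX r σ b) (aR D T Ti r G H) i.succ.succ j.succ.succ ∈ J := by
    unfold lieL
    rw [asum]
    have hb1' : ∀ k : Fin n, D k.succ.succ (-((r + r) * σ)) = -((r + r) * D k.succ.succ σ) := by
      intro k
      rw [map_neg, Derivation.leibniz, map_add, hA.re, smul_eq_mul]; simp
    simp only [aX_0, aX_1, aX_e, aR_0b hA hG hH hG0, aR_b0 hA hG hH hG0, D0_aR hA hG hH hG0,
      mul_zero, add_zero, zero_add, hb1']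
    refine J.add_mem (J.add_mem (J.add_mem ?_ ?_) ?_) (J.sum_mem fun k _ => ?_)
    · have : -((r + r) * σ) * D 1 (aR D T Ti r G H i.succ.succ j.succ.succ) =
          (-(σ + σ)) * (r * D 1 (aR D T Ti r G H i.succ.succ j.succ.succ)) := by ring
      rw [this]
      exact J.mul_mem_left _ (hr _ (hRJ i j))
    · have : -((r + r) * D i.succ.succ σ) * aR D T Ti r G H 1 j.succ.succ =
          (-(D i.succ.succ σ + D i.succ.succ σ)) * (r * aR D T Ti r G H 1 j.succ.succ) := by ring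
      rw [this]
      exact J.mul_mem_left _ (hK j)
    · have : -((r + r) * D j.succ.succ σ) * aR D T Ti r G H i.succ.succ 1 =
          (-(D j.succ.succ σ + D j.succ.succ σ)) * (r * aR D T Ti r G H 1 i.succ.succ) := by
        rw [aR_symm hA hG hH hG0 i.succ.succ 1]
        ring
      rw [this]
      exact J.mul_mem_left _ (hK i)
    · refine J.add_mem (J.add_mem ?_ ?_) ?_
      · exact J.mul_mem_left _ (hDJ _ _ (hRJ i j))
      · exact J.mul_mem_left _ (hRJ k j)
      · exact J.mul_mem_left _ (hRJ i k)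
  have h3 : (1 / 2 : ℝ) • fER D r (vG D r σ b G) H' i j ∈ J := by
    rw [h1]
    exact J.add_mem (hRJ i j) h2
  have h4 : fER D r (vG D r σ b G) H' i j = (2 : ℝ) • ((1 / 2 : ℝ) • fER D r (vG D r σ b G) H' i j) := by
    rw [smul_smul]; norm_num
  rw [h4]
  exact hsm _ _ h3

end cov

end

end GJMS
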