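import Pool.Agent.GJMS.Raw
import Pool.Agent.GJMS.Amb

/-! # Smooth metrics and ambient metrics

The definitions are in `Defs.lean`.
-/
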