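import Mathlib
import Pool.Agent.GJMS.AmbCov

/-!
# The ambient Laplacian on homogeneous functions
-/

open Finset

set_option linter.unusedSectionVars false
set_option linter.unusedSimpArgs false

namespace GJMS

noncomputable section

variable {n : ℕ} {R : Type} [CommRing R] [Algebra ℝ R]

/-- the ambient Laplacian on functions of homogeneity `s` -/
def LsR (D : Fin (n + 2) → Derivation ℝ R R) (r : R) (G H : Fin n → Fin n → R) (s : ℝ) (φ : R) : R :=
  -((2 : ℝ) • (r * D 1 (D 1 φ))) + (2 * s + (n : ℝ) - 2) • D 1 φ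
    - r * tauR D G H * D 1 φ + (s / 2) • (tauR D G H * φ) + lap (fun i => De D i) G H φ

/-- chain starting in homogeneity `t` -/
def chR (D : Fin (n + 2) → Derivation ℝ R R) (r : R) (G H : Fin n → Fin n → R) (t : ℝ) (φ : R) :
    ℕ → R
  | 0 => φ
  | (l + 1) => LsR D r G H (t - 2 * (l : ℝ)) (chR D r G H t φ l)

section lap

variable {D : Fin (n + 2) → Derivation ℝ R R} {T Ti r : R} (hA : AmbSys D T Ti r)
  {G H : Fin n → Fin n → R} (hG : ∀ i j, G i j = G j i)
  (hH : ∀ i j, ∑ k, H i k * G j k = if i = j then 1 else 0)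
  (hG0 : ∀ i j, D 0 (G i j) = 0)

include hG hH in
lemma trHG : ∑ i, ∑ j, H i j * G i j = (n : R) := by
  have h1 : ∀ i, ∑ j, H i j * G i j = 1 := by
    intro i
    rw [hH i i, if_pos rfl]
  rw [Finset.sum_congr rfl fun i _ => h1 i]
  simp

include hA hG hH hG0

lemma alap_eq (s : ℝ) (φ : R) (hφ : D 0 φ = s • φ) :
    lap (fun i => D i) (aG T r G) (aH Ti r H) φ = Ti * LsR D r G H s φ := by
  obtain ⟨_, -, h001, h010, -, -, h011, -, -, h0ee, -, h101, h110, -, -, h111, -, -, h1ee, -, he01, he10,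
    -, -, he11, -, -, heee⟩ := aC_all hA hG hH hG0
  have hc1 : D 0 (D 1 φ) = s • D 1 φ := by rw [hA.comm, hφ, Derivation.map_smul]
  have hc2 : D 1 (D 0 φ) = s • D 1 φ := by rw [hφ, Derivation.map_smul]
  rw [amb_lap_eq]
  rw [asum]
  rw [asum (fun b => aH Ti r H 0 b * _), asum (fun b => aH Ti r H 1 b * _)]
  have hee : ∀ i : Fin n, (∑ b, aH Ti r H i.succ.succ b * (D i.succ.succ (D b φ) -
      ∑ c, chr (fun i => D i) (aG T r G) (aH Ti r H) c i.succ.succ b * D c φ)) =
      ∑ j : Fin n, Ti * H i j * (D i.succ.succ (D j.succ.succ φ) -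
        (-((1 / 2 : ℝ) • D 1 (G i j)) * (s • φ) + ((r * D 1 (G i j) - G i j) * D 1 φ +
          ∑ c : Fin n, chr (fun i => De D i) G H c i j * D c.succ.succ φ))) := by
    intro i
    rw [asum]
    simp only [aH_e0, aH_e1, aH_ee, zero_mul, zero_add]
    refine Finset.sum_congr rfl fun j _ => ?_
    congr 2
    rw [asum]
    simp only [h0ee, h1ee, heee, hφ]
  rw [Finset.sum_congr rfl fun i _ => hee i]
  have hchr : ∀ c a b, chr (fun i => D i) (aG T r G) (aH Ti r H) c a b = aC D T Ti r G H c a b :=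
    fun c a b => rfl
  simp only [asum (fun c => chr (fun i => D i) (aG T r G) (aH Ti r H) c _ _ * _), hchr,
    aH_00, aH_01, aH_10, aH_11, aH_0e, aH_e0, aH_1e, aH_e1, zero_mul, zero_add, h001, h010, h011,
    h101, h110, h111, he01, he10, he11, Finset.sum_const_zero, add_zero, sub_zero, one_mul, hc1, hc2]
  have hdist : (∑ i : Fin n, ∑ j : Fin n, Ti * H i j * (D i.succ.succ (D j.succ.succ φ) -
        (-((1 / 2 : ℝ) • D 1 (G i j)) * (s • φ) + ((r * D 1 (G i j) - G i j) * D 1 φ +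
          ∑ c : Fin n, chr (fun i => De D i) G H c i j * D c.succ.succ φ)))) =
      Ti * (lap (fun i => De D i) G H φ + (s / 2) • (tauR D G H * φ) - r * tauR D G H * D 1 φ +
        (n : ℝ) • D 1 φ) := by
    have e1 : (n : ℝ) • D 1 φ = (∑ i, ∑ j, H i j * G i j) * D 1 φ := by
      rw [trHG hG hH, Algebra.smul_def, map_natCast]
    rw [e1, amb_lap_eq]
    unfold tauR
    simp only [Finset.sum_mul, Finset.mul_sum, Finset.smul_sum, ← Finset.sum_add_distrib,
      ← Finset.sum_sub_distrib]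
    refine Finset.sum_congr rfl fun i _ => Finset.sum_congr rfl fun j _ => ?_
    have e2 : (-((1 / 2 : ℝ) • D 1 (G i j)) * (s • φ)) = -((s / 2) • (D 1 (G i j) * φ)) := by
      rw [neg_mul, smul_mul_smul_comm]
      congr 2
      ring
    rw [e2, show H i j * D 1 (G i j) * φ = H i j * (D 1 (G i j) * φ) by ring, ← mul_smul_comm]
    simp only [De, Algebra.smul_def]
    ring
  rw [hdist]
  unfold LsR
  have e3 : (2 * s + (n : ℝ) - 2) • D 1 φ = (2 : ℝ) • (s • D 1 φ) - (2 : ℝ) • D 1 φ + (n : ℝ) • D 1 φ := by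
    rw [smul_smul, ← sub_smul, ← add_smul]
    congr 1
    ring
  rw [e3, two_smul, two_smul, two_smul]
  ring

end lap

section chain

variable {D : Fin (n + 2) → Derivation ℝ R R} {T Ti r : R} (hA : AmbSys D T Ti r)
  {G H : Fin n → Fin n → R} (hG : ∀ i j, G i j = G j i)
  (hH : ∀ i j, ∑ k, H i k * G j k = if i = j then 1 else 0)
  (hG0 : ∀ i j, D 0 (G i j) = 0)

lemma lap_mul_const {m : ℕ} (D : Fin m → Derivation ℝ R R) (g gi : Fin m → Fin m → R) (t φ : R)
    (ht : ∀ i, D i t = 0) : lap (fun i => D i) g gi (t * φ) = t * lap (fun i => D i) g gi φ := by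
  rw [amb_lap_eq, amb_lap_eq]
  simp only [Finset.mul_sum]
  refine Finset.sum_congr rfl fun a _ => Finset.sum_congr rfl fun b _ => ?_
  have h1 : ∀ i (x : R), D i (t * x) = t * D i x := by
    intro i x
    rw [Derivation.leibniz, ht, smul_eq_mul, smul_zero, add_zero]
  simp only [h1]
  rw [mul_left_comm t (gi a b)]
  congr 1
  rw [mul_sub, Finset.mul_sum]
  congr 1
  exact Finset.sum_congr rfl fun c _ => by ring

lemma lap_add {m : ℕ} (D : Fin m → Derivation ℝ R R) (g gi : Fin m → Fin m → R) (φ ψ : R) :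
    lap (fun i => D i) g gi (φ + ψ) = lap (fun i => D i) g gi φ + lap (fun i => D i) g gi ψ := by
  rw [amb_lap_eq, amb_lap_eq, amb_lap_eq]
  simp only [← Finset.sum_add_distrib]
  refine Finset.sum_congr rfl fun a _ => Finset.sum_congr rfl fun b _ => ?_
  rw [← mul_add]
  congr 1
  simp only [map_add, mul_add, Finset.sum_add_distrib]
  ring

lemma LsR_mul_const (s : ℝ) (t φ : R) (ht1 : D 1 t = 0) (hte : ∀ i : Fin n, D i.succ.succ t = 0) :
    LsR D r G H s (t * φ) = t * LsR D r G H s φ := by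
  unfold LsR
  have h1 : ∀ (x : R), D 1 (t * x) = t * D 1 x := by
    intro x
    rw [Derivation.leibniz, ht1, smul_eq_mul, smul_zero, add_zero]
  rw [lap_mul_const _ _ _ _ _ hte, h1, h1]
  simp only [Algebra.smul_def]
  ring

lemma LsR_add (s : ℝ) (φ ψ : R) :
    LsR D r G H s (φ + ψ) = LsR D r G H s φ + LsR D r G H s ψ := by
  unfold LsR
  rw [lap_add]
  simp only [map_add, Algebra.smul_def]
  ring

lemma LsR_smul (s c : ℝ) (φ : R) :
    LsR D r G H s (c • φ) = c • LsR D r G H s φ := by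
  rw [Algebra.smul_def, LsR_mul_const s _ _ (Derivation.map_algebraMap _ _)
    (fun i => Derivation.map_algebraMap _ _), ← Algebra.smul_def]

include hA hG hH hG0 in
lemma D0_lap (s : ℝ) (φ : R) (hφ : D 0 φ = s • φ) :
    D 0 (lap (fun i => De D i) G H φ) = s • lap (fun i => De D i) G H φ := by
  have hH0' := hH0 hA hG hH hG0
  have h1 : ∀ c x (t : ℝ), D 0 x = t • x → D 0 (D c x) = t • D c x := by
    intro c x t hx
    rw [hA.comm, hx, Derivation.map_smul]
  have hC : ∀ c a b, D 0 (chr (fun i => De D i) G H c a b) = 0 := by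
    intro c a b
    have := D0_aC hA hG hH hG0 c.succ.succ a.succ.succ b.succ.succ
    rwa [aC_eee hA] at this
  have h2 : ∀ c x, D 0 x = 0 → D 0 (D c x) = 0 := by
    intro c x hx
    rw [hA.comm, hx, map_zero]
  rw [amb_lap_eq]
  simp only [map_sum, map_sub, Derivation.leibniz, hH0', hC, smul_eq_mul, mul_zero, add_zero,
    zero_add, Finset.smul_sum]
  refine Finset.sum_congr rfl fun a _ => Finset.sum_congr rfl fun b _ => ?_
  have e1 : D 0 (De D a (De D b φ)) = s • De D a (De D b φ) := h1 _ _ _ (h1 _ _ _ hφ)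
  have e2 : ∀ c, D 0 (De D c φ) = s • De D c φ := fun c => h1 _ _ _ hφ
  rw [e1]
  simp only [e2, mul_smul_comm, ← Finset.smul_sum, ← smul_sub]

include hA hG hH hG0 in
lemma D0_tauR : D 0 (tauR D G H) = 0 := by
  have hH0' := hH0 hA hG hH hG0
  unfold tauR
  simp only [map_sum, Derivation.leibniz, hH0', smul_eq_mul, mul_zero, add_zero]
  refine Finset.sum_eq_zero fun a _ => Finset.sum_eq_zero fun b _ => ?_
  rw [hA.comm, hG0, map_zero, mul_zero]

include hA hG hH hG0 in
lemma D0_LsR (t s : ℝ) (φ : R) (hφ : D 0 φ = t • φ) :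
    D 0 (LsR D r G H s φ) = t • LsR D r G H s φ := by
  have h1 : ∀ c x (t : ℝ), D 0 x = t • x → D 0 (D c x) = t • D c x := by
    intro c x t hx
    rw [hA.comm, hx, Derivation.map_smul]
  unfold LsR
  simp only [map_add, map_sub, map_neg, Derivation.map_smul, Derivation.leibniz, D0_lap hA hG hH hG0 t φ hφ,
    D0_tauR hA hG hH hG0, hA.r0, h1 _ _ _ (h1 _ _ _ hφ), h1 _ _ _ hφ, hφ, smul_eq_mul, mul_zero, add_zero]
  simp only [Algebra.smul_def]
  ring

include hA hG hH hG0 in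
lemma D0_chR (t s : ℝ) (φ : R) (hφ : D 0 φ = t • φ) (k : ℕ) :
    D 0 (chR D r G H s φ k) = t • chR D r G H s φ k := by
  induction k with
  | zero => exact hφ
  | succ k ih => exact D0_LsR hA hG hH hG0 _ _ _ ih

include hA in
lemma D0Ti' : D 0 Ti = -(Ti + Ti) := by
  have h1 := congrArg (D 0) hA.tti
  rw [Derivation.leibniz, hA.T0, (D 0).map_one_eq_zero, smul_eq_mul, smul_eq_mul] at h1
  have h2 : Ti * (T * D 0 Ti + Ti * (T + T)) = 0 := by rw [h1, mul_zero]
  have h3 := hA.tti'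
  linear_combination h2 - (D 0 Ti + 2 * Ti) * h3

include hA in
lemma DcTi' {c : Fin (n + 2)} (hc : D c T = 0) : D c Ti = 0 := by
  have h1 := congrArg (D c) hA.tti
  rw [Derivation.leibniz, hc, (D c).map_one_eq_zero, smul_eq_mul, smul_eq_mul, mul_zero,
    add_zero] at h1
  have h2 : Ti * (T * D c Ti) = 0 := by rw [h1, mul_zero]
  rwa [hA.cancel] at h2

include hA in
lemma D0_Tipow (k : ℕ) : D 0 (Ti ^ k) = (-(2 * (k : ℝ))) • Ti ^ k := by
  induction k with
  | zero => simp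
  | succ k ih =>
    rw [pow_succ, Derivation.leibniz, ih, D0Ti' hA]
    simp only [smul_eq_mul, Algebra.smul_def, map_neg, map_mul, map_natCast, map_ofNat, Nat.cast_succ,
      map_add, map_one]
    ring

lemma D_pow_zero (E : Derivation ℝ R R) {x : R} (h : E x = 0) (k : ℕ) : E (x ^ k) = 0 := by
  rw [Derivation.leibniz_pow, h]; simp

include hA hG hH hG0 in
lemma alap_pow (φ : R) (hφ : D 0 φ = 0) (k : ℕ) :
    (lap (fun i => D i) (aG T r G) (aH Ti r H))^[k] φ = Ti ^ k * chR D r G H 0 φ k := by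
  induction k with
  | zero => simp [chR]
  | succ k ih =>
    rw [Function.iterate_succ_apply', ih]
    have h0 : D 0 φ = (0 : ℝ) • φ := by rw [hφ, zero_smul]
    have h1 : D 0 (chR D r G H 0 φ k) = 0 := by
      rw [D0_chR hA hG hH hG0 0 0 φ h0 k, zero_smul]
    have h2 : D 0 (Ti ^ k * chR D r G H 0 φ k) = (-(2 * (k : ℝ))) • (Ti ^ k * chR D r G H 0 φ k) := by
      rw [Derivation.leibniz, h1, smul_zero, zero_add, D0_Tipow hA, smul_eq_mul]
      simp only [Algebra.smul_def]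
      ring
    rw [alap_eq hA hG hH hG0 _ _ h2, LsR_mul_const _ _ _ (D_pow_zero _ (DcTi' hA hA.T1) k)
      (fun i => D_pow_zero _ (DcTi' hA (hA.Te i)) k)]
    show _ = Ti ^ (k + 1) * LsR D r G H (0 - 2 * (k : ℝ)) (chR D r G H 0 φ k)
    rw [zero_sub, pow_succ]
    ring

lemma chR_add (t : ℝ) (φ ψ : R) (k : ℕ) :
    chR D r G H t (φ + ψ) k = chR D r G H t φ k + chR D r G H t ψ k := by
  induction k with
  | zero => rfl
  | succ k ih =>
    show LsR D r G H _ (chR D r G H t (φ + ψ) k) = _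
    rw [ih, LsR_add]
    rfl

include hA in
lemma LsR_r (s : ℝ) (ψ : R) :
    LsR D r G H s (r * ψ) = r * LsR D r G H (s - 2) ψ + (2 * s + (n : ℝ) - 2) • ψ := by
  unfold LsR
  rw [lap_mul_const _ _ _ _ _ hA.re]
  have h1 : D 1 (r * ψ) = ψ + r * D 1 ψ := by
    rw [Derivation.leibniz, hA.r1]; simp; ring
  have h2 : D 1 (D 1 (r * ψ)) = D 1 ψ + D 1 ψ + r * D 1 (D 1 ψ) := by
    rw [h1, map_add, Derivation.leibniz, hA.r1]; simp; ring
  rw [h2, h1]
  have e1 : (2 * (s - 2) + (n : ℝ) - 2) • D 1 ψ = (2 * s + (n : ℝ) - 2) • D 1 ψ -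
      ((D 1 ψ + D 1 ψ) + (D 1 ψ + D 1 ψ)) := by
    have : (D 1 ψ + D 1 ψ) + (D 1 ψ + D 1 ψ) = (4 : ℝ) • D 1 ψ := by
      rw [← two_smul ℝ (D 1 ψ), ← two_smul ℝ ((2 : ℝ) • D 1 ψ), smul_smul]; norm_num
    rw [this, ← sub_smul]
    congr 1; ring
  have e2 : ((s - 2) / 2) • (tauR D G H * ψ) = (s / 2) • (tauR D G H * ψ) - tauR D G H * ψ := by
    rw [show (s - 2) / 2 = s / 2 - 1 by ring, sub_smul, one_smul]
  rw [e1, e2, two_smul, two_smul]
  simp only [Algebra.smul_def]
  ring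

include hA in
lemma chR_r (ψ : R) (k : ℕ) :
    chR D r G H 0 (r * ψ) k = r * chR D r G H (-2) ψ k +
      ((k : ℝ) * ((n : ℝ) - 2 * k)) • chR D r G H (-2) ψ (k - 1) := by
  induction k with
  | zero => simp [chR]
  | succ k ih =>
    show LsR D r G H (0 - 2 * (k : ℝ)) (chR D r G H 0 (r * ψ) k) = _
    rw [ih, LsR_add, LsR_r hA, LsR_smul]
    have h1 : LsR D r G H (0 - 2 * (k : ℝ) - 2) (chR D r G H (-2) ψ k) =
        chR D r G H (-2) ψ (k + 1) := by
      show _ = LsR D r G H (-2 - 2 * (k : ℝ)) (chR D r G H (-2) ψ k)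
      congr 1
      ring
    have h2 : ((k : ℝ) * ((n : ℝ) - 2 * k)) • LsR D r G H (0 - 2 * (k : ℝ)) (chR D r G H (-2) ψ (k - 1)) =
        ((k : ℝ) * ((n : ℝ) - 2 * k)) • chR D r G H (-2) ψ k := by
      rcases k with _ | k
      · simp
      · congr 1
        show _ = LsR D r G H (-2 - 2 * (k : ℝ)) (chR D r G H (-2) ψ k)
        rw [Nat.add_sub_cancel]
        congr 1
        push_cast
        ring
    rw [h1, h2, Nat.add_sub_cancel, add_assoc, ← add_smul]
    congr 2
    push_cast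
    ring

end chain

section final

variable {D : Fin (n + 2) → Derivation ℝ R R} {T Ti r : R} (hA : AmbSys D T Ti r)
  {G H : Fin n → Fin n → R} (hG : ∀ i j, G i j = G j i)
  (hH : ∀ i j, ∑ k, H i k * G j k = if i = j then 1 else 0)
  (hG0 : ∀ i j, D 0 (G i j) = 0)
  {σ : R} {β : Fin n → R} (hσ0 : D 0 σ = 0) (hσ1 : D 1 σ = 0) (hb0 : ∀ i, D 0 (r * β i) = 0)
  (hb1 : ∀ i, D 1 (r * β i) = -∑ j, H i j * D j.succ.succ σ)
  (N : Ideal R) (hN : ∀ x ∈ N, ∀ y ∈ N, x * y = 0) (hDN : ∀ i, ∀ x ∈ N, D i x ∈ N)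
  (hσN : σ ∈ N) (hbN : ∀ i, r * β i ∈ N)
  {H' : Fin n → Fin n → R}
  (hH' : ∀ i j, ∑ k, H' i k * vG D r σ (fun i => r * β i) G j k = if i = j then 1 else 0)

include hA hG hH hG0 hσ0 hσ1 hb0 hb1 hN hDN hσN hbN hH'

/-- conformal covariance of the chain, modulo `r` -/
theorem chR_var (m : ℕ) (hm : n = 2 * m) (f : R) (hf0 : D 0 f = 0) (hf1 : D 1 f = 0) :
    ∃ W : R, chR D r (vG D r σ (fun i => r * β i) G) H' 0 f m =
      (1 - n * σ) * chR D r G H 0 f m + r * W := by
  have hvs := vG_symm (D := D) (r := r) (σ := σ) (b := fun i => r * β i) hG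
  have hv0 := D0_vG (b := fun i => r * β i) hA hG0 hσ0 hb0
  have h1 := alap_var_pow hA hG hH hG0 hσ0 hσ1 hb0 hb1 N hN hDN hσN hbN hH' f m
  have hb0' : ∀ i, r * D 0 (β i) = 0 := by
    intro i
    have := hb0 i
    rwa [Derivation.leibniz, hA.r0, smul_zero, add_zero, smul_eq_mul] at this
  -- the vector field applied to f
  have hXf : vf D (aX r σ (fun i => r * β i)) f = r * ∑ i : Fin n, β i * D i.succ.succ f := by
    rw [vf_apply, asum]
    simp only [aX_0, aX_1, aX_e, hf0, hf1, mul_zero, zero_add]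
    rw [Finset.mul_sum]
    exact Finset.sum_congr rfl fun i _ => by ring
  have hf0' : D 0 (f + vf D (aX r σ (fun i => r * β i)) f) = 0 := by
    rw [map_add, hf0, hXf, zero_add, Finset.mul_sum, map_sum]
    refine Finset.sum_eq_zero fun i _ => ?_
    rw [show r * (β i * D i.succ.succ f) = (r * β i) * D i.succ.succ f by ring, Derivation.leibniz,
      hb0 i, hA.comm, hf0, map_zero]
    simp
  rw [alap_pow hA hvs hH' hv0 _ hf0', alap_pow hA hG hH hG0 _ hf0] at h1
  rw [hXf] at h1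
  rw [chR_add, chR_r hA] at h1
  have hz : ((m : ℝ) * ((n : ℝ) - 2 * m)) = 0 := by
    rw [hm]; push_cast; ring
  rw [hz, zero_smul, add_zero] at h1
  -- the vector field applied to the chain
  have h0 : D 0 f = (0 : ℝ) • f := by rw [hf0, zero_smul]
  have hC0 : D 0 (chR D r G H 0 f m) = 0 := by
    rw [D0_chR hA hG hH hG0 0 0 f h0 m, zero_smul]
  have hXC : vf D (aX r σ (fun i => r * β i)) (Ti ^ m * chR D r G H 0 f m) =
      Ti ^ m * (-(n * σ) * chR D r G H 0 f m + r * (-((σ + σ) * D 1 (chR D r G H 0 f m)) +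
        ∑ i : Fin n, β i * D i.succ.succ (chR D r G H 0 f m))) := by
    have t1 : D 1 (Ti ^ m * chR D r G H 0 f m) = Ti ^ m * D 1 (chR D r G H 0 f m) := by
      rw [Derivation.leibniz, D_pow_zero _ (DcTi' hA hA.T1) m]; simp
    have te : ∀ i : Fin n, D i.succ.succ (Ti ^ m * chR D r G H 0 f m) =
        Ti ^ m * D i.succ.succ (chR D r G H 0 f m) := by
      intro i
      rw [Derivation.leibniz, D_pow_zero _ (DcTi' hA (hA.Te i)) m]; simp
    have t0 : D 0 (Ti ^ m * chR D r G H 0 f m) = -((n : R) * (Ti ^ m * chR D r G H 0 f m)) := by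
      have hn : (n : R) = 2 * (m : R) := by
        have := congrArg (fun x : ℕ => (x : R)) hm
        simpa using this
      rw [Derivation.leibniz, D0_Tipow hA, hC0, hn]
      simp only [smul_eq_mul, Algebra.smul_def, map_neg, map_mul, map_natCast, map_ofNat]
      ring
    rw [vf_apply, asum]
    simp only [aX_0, aX_1, aX_e, t0, t1, te]
    have es : ∑ i : Fin n, r * β i * (Ti ^ m * D i.succ.succ (chR D r G H 0 f m)) =
        Ti ^ m * (r * ∑ i : Fin n, β i * D i.succ.succ (chR D r G H 0 f m)) := by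
      simp only [Finset.mul_sum]
      exact Finset.sum_congr rfl fun i _ => by ring
    rw [es]
    ring
  rw [hXC] at h1
  refine ⟨(-((σ + σ) * D 1 (chR D r G H 0 f m)) +
        ∑ i : Fin n, β i * D i.succ.succ (chR D r G H 0 f m)) -
        chR D r (vG D r σ (fun i => r * β i) G) H' (-2) (∑ i : Fin n, β i * D i.succ.succ f) m, ?_⟩
  have hcan : T ^ m * Ti ^ m = 1 := by
    rw [← mul_pow, hA.tti, one_pow]
  linear_combination T ^ m * h1 - (chR D r (vG D r σ (fun i => r * β i) G) H' 0 f m -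
    ((1 - n * σ) * chR D r G H 0 f m + r * ((-((σ + σ) * D 1 (chR D r G H 0 f m)) +
        ∑ i : Fin n, β i * D i.succ.succ (chR D r G H 0 f m)) -
        chR D r (vG D r σ (fun i => r * β i) G) H' (-2) (∑ i : Fin n, β i * D i.succ.succ f) m))) * hcan

end final

end

end GJMS
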