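import Pool.Agent.GJMS.Conf

/-! # Power series over a differential ring; the leading part of a natural operator at the flat
metric -/

open Finset MvPolynomial

namespace GJMS

noncomputable section

variable {n : ℕ}

/-! ### coefficientwise derivations of power series -/

/-- coefficientwise derivation -/
def psD {A : Type} [CommRing A] [Algebra ℝ A] (D : Derivation ℝ A A) :
    Derivation ℝ (PowerSeries A) (PowerSeries A) where
  toFun F := PowerSeries.mk (fun m => D (PowerSeries.coeff m F))
  map_add' F G := by ext m; simp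
  map_smul' r F := by
    ext m
    simp only [PowerSeries.coeff_mk, RingHom.id_apply]
    have h : ∀ G : PowerSeries A, PowerSeries.coeff m (r • G) = r • PowerSeries.coeff m G := by
      intro G
      rfl
    rw [h, h, PowerSeries.coeff_mk, Derivation.map_smul]
  map_one_eq_zero' := by
    ext m
    simp only [LinearMap.coe_mk, AddHom.coe_mk, PowerSeries.coeff_mk, PowerSeries.coeff_one, map_zero]
    split_ifs
    · exact D.map_one_eq_zero
    · exact map_zero D
  leibniz' F G := by
    ext m
    simp only [smul_eq_mul, LinearMap.coe_mk, AddHom.coe_mk, PowerSeries.coeff_mk, map_add]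
    rw [PowerSeries.coeff_mul, PowerSeries.coeff_mul, mul_comm G, PowerSeries.coeff_mul, map_sum,
      ← Finset.sum_add_distrib]
    refine Finset.sum_congr rfl fun x _ => ?_
    rw [PowerSeries.coeff_mk, PowerSeries.coeff_mk, Derivation.leibniz, smul_eq_mul, smul_eq_mul]
    ring

lemma coeff_psD {A : Type} [CommRing A] [Algebra ℝ A] (D : Derivation ℝ A A) (m : ℕ)
    (F : PowerSeries A) : PowerSeries.coeff m (psD D F) = D (PowerSeries.coeff m F) := by
  show PowerSeries.coeff m (PowerSeries.mk (fun m => D (PowerSeries.coeff m F))) = _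
  rw [PowerSeries.coeff_mk]

lemma psD_comm {A : Type} [CommRing A] [Algebra ℝ A] (D : Fin n → Derivation ℝ A A)
    (hD : ∀ i j x, D i (D j x) = D j (D i x)) (i j : Fin n) (F : PowerSeries A) :
    psD (D i) (psD (D j) F) = psD (D j) (psD (D i) F) := by
  ext m
  rw [coeff_psD, coeff_psD, coeff_psD, coeff_psD, hD]

lemma psD_C {A : Type} [CommRing A] [Algebra ℝ A] (D : Derivation ℝ A A) (a : A) :
    psD D (PowerSeries.C a) = PowerSeries.C (D a) := by
  ext m
  rw [coeff_psD, PowerSeries.coeff_C, PowerSeries.coeff_C]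
  split_ifs
  · rfl
  · exact map_zero D

lemma psD_X {A : Type} [CommRing A] [Algebra ℝ A] (D : Derivation ℝ A A) :
    psD D (PowerSeries.X : PowerSeries A) = 0 := by
  ext m
  rw [coeff_psD, PowerSeries.coeff_X]
  split_ifs
  · rw [D.map_one_eq_zero]; simp
  · rw [map_zero]; simp

lemma cc_psD {A : Type} [CommRing A] [Algebra ℝ A] (D : Derivation ℝ A A) (F : PowerSeries A) :
    PowerSeries.constantCoeff (psD D F) = D (PowerSeries.constantCoeff F) := by
  rw [← PowerSeries.coeff_zero_eq_constantCoeff_apply, coeff_psD,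
    PowerSeries.coeff_zero_eq_constantCoeff_apply]

/-- constant coefficient as an algebra homomorphism -/
def ccA (A : Type) [CommRing A] [Algebra ℝ A] : PowerSeries A →ₐ[ℝ] A where
  toRingHom := PowerSeries.constantCoeff
  commutes' r := by
    show PowerSeries.constantCoeff (algebraMap ℝ (PowerSeries A) r) = _
    rw [PowerSeries.algebraMap_apply, PowerSeries.constantCoeff_C]

lemma ccA_apply {A : Type} [CommRing A] [Algebra ℝ A] (F : PowerSeries A) :
    ccA A F = PowerSeries.constantCoeff F := rfl

/-! ### naturality of the evaluation of jets -/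

lemma foldr_nat {A B : Type} (DA : Fin n → A → A) (DB : Fin n → B → B) (φ : A → B)
    (hφ : ∀ i a, φ (DA i a) = DB i (φ a)) (l : List (Fin n)) (a : A) :
    φ (l.foldr DA a) = l.foldr DB (φ a) := by
  induction l with
  | nil => rfl
  | cons i l ih => rw [List.foldr_cons, List.foldr_cons, hφ, ih]

lemma mD_nat {A B : Type} (DA : Fin n → A → A) (DB : Fin n → B → B) (φ : A → B)
    (hφ : ∀ i a, φ (DA i a) = DB i (φ a)) (s : Multiset (Fin n)) (a : A) :
    φ (mD DA s a) = mD DB s (φ a) := foldr_nat DA DB φ hφ _ a

lemma jetHom_nat {A B : Type} [CommRing A] [Algebra ℝ A] [CommRing B] [Algebra ℝ B] {Φ : Type}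
    (DA : Fin n → A → A) (DB : Fin n → B → B) (φ : A →ₐ[ℝ] B)
    (hφ : ∀ i a, φ (DA i a) = DB i (φ a)) (x : Φ → A) (P : JR Φ n) :
    φ (jetHom DA x P) = jetHom DB (fun o => φ (x o)) P := by
  induction P using MvPolynomial.induction_on with
  | C r => rw [← MvPolynomial.algebraMap_eq, AlgHom.commutes, AlgHom.commutes, AlgHom.commutes]
  | add p q hp hq => rw [map_add, map_add, map_add, hp, hq]
  | mul_X p v hp =>
    rw [map_mul, map_mul, map_mul, hp, jetHom_X, jetHom_X, mD_nat DA DB φ hφ]

lemma fld_comp {A B : Type} (φ : A → B) (g : Fin n → Fin n → A) (f : A) :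
    (fun o => φ (fld g f o)) = fld (fun a b => φ (g a b)) (φ f) := by
  funext o
  rcases o with _ | s <;> rfl

/-! ### leading parts -/

/-- evaluation with weights -/
lemma lead_eval {σ : Type} (w : σ → ℕ) (q : MvPolynomial σ ℝ) (k : ℕ)
    (hk : ∀ d ∈ q.support, k ≤ Finsupp.weight w d) {A : Type} [CommRing A] [Algebra ℝ A]
    (x : σ → A) (t : A) : ∃ W : A, aeval (fun v => t ^ w v * x v) q
      = t ^ k * (aeval x (weightedHomogeneousComponent w k q) + t * W) := by
  classical
  have h1 : ∀ d ∈ q.support, ∃ W : A, aeval (fun v => t ^ w v * x v) (monomial d (coeff d q))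
      = t ^ k * (aeval x (if Finsupp.weight w d = k then monomial d (coeff d q) else 0) + t * W) := by
    intro d hd
    have h2 : aeval (fun v => t ^ w v * x v) (monomial d (coeff d q))
        = t ^ (Finsupp.weight w d) * aeval x (monomial d (coeff d q)) := by
      rw [aeval_monomial, aeval_monomial]
      have h3 : (d.prod fun i k => (t ^ w i * x i) ^ k) = t ^ (Finsupp.weight w d) *
          d.prod fun i k => x i ^ k := by
        rw [Finsupp.weight_apply, Finsupp.sum, Finsupp.prod, Finsupp.prod, ← Finset.prod_pow_eq_pow_sum,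
          ← Finset.prod_mul_distrib]
        refine Finset.prod_congr rfl fun i _ => ?_
        rw [mul_pow, ← pow_mul, smul_eq_mul, mul_comm (w i)]
      rw [h3]; ring
    by_cases hw : Finsupp.weight w d = k
    · refine ⟨0, ?_⟩
      rw [if_pos hw, h2, hw, mul_zero, add_zero]
    · have hlt : k < Finsupp.weight w d := lt_of_le_of_ne (hk d hd) (Ne.symm hw)
      refine ⟨t ^ (Finsupp.weight w d - k - 1) * aeval x (monomial d (coeff d q)), ?_⟩
      rw [if_neg hw, h2, map_zero, zero_add]
      have : Finsupp.weight w d = k + 1 + (Finsupp.weight w d - k - 1) := by omega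
      nth_rewrite 1 [this]
      rw [pow_add, pow_succ]
      ring
  choose! W hW using h1
  refine ⟨∑ d ∈ q.support, W d, ?_⟩
  rw [weightedHomogeneousComponent_apply]
  nth_rewrite 1 [q.as_sum]
  rw [map_sum, Finset.sum_congr rfl hW, ← Finset.mul_sum, Finset.sum_add_distrib, ← Finset.mul_sum,
    ← map_sum, Finset.sum_filter]

end

end GJMS
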