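import Pool.Agent.GJMS.Defs

/-!
# The critical GJMS operator from the Fefferman-Graham expansion

For `g_ρ = ∑ ρ^j γ_j`, `γ_0 = g`, the ambient metric in normal form is
`2 ρ dt² + 2 t dt dρ + t² g_ρ`.  The tangential components of its Ricci tensor vanish
to order `ρ^(n/2-1)` iff
`ρ (2 g'' - 2 g' g⁻¹ g' + tr(g⁻¹ g') g') - (n-2) g' - tr(g⁻¹ g') g + 2 Ric(g_ρ) = O(ρ^(n/2-1))`,
and its Laplacian is given on `t^s φ(x,ρ)` by `t^(s-2)` times
`- 2 ρ φ'' + (2 s + n - 2 - ρ tr(g⁻¹ g')) φ' + (s/2) tr(g⁻¹ g') φ + Δ_{g_ρ} φ`.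

All formulas make sense over a commutative `ℝ`-algebra `A` with maps `d i`; power series in `ρ`
with coefficients in `A` are used.
-/

open Finset

namespace GJMS

noncomputable section

variable {n : ℕ} {A : Type} [CommRing A] [Algebra ℝ A]

/-- coefficientwise application of `d` -/
def psd (d : A → A) (F : PowerSeries A) : PowerSeries A :=
  PowerSeries.mk (fun m => d (PowerSeries.coeff m F))

/-- derivative with respect to `ρ` -/
def dr (F : PowerSeries A) : PowerSeries A :=
  PowerSeries.mk (fun m => ((m : ℝ) + 1) • PowerSeries.coeff (m + 1) F)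

/-- successive approximations of the inverse matrix of `G`, where `g = G(0)` and `gi = g⁻¹`:
`H_0 = gi`, `H_{l+1} = gi - gi (G - g) H_l` -/
def invA (g gi : Fin n → Fin n → A) (G : Fin n → Fin n → PowerSeries A) :
    ℕ → Fin n → Fin n → PowerSeries A
  | 0 => fun a b => PowerSeries.C (gi a b)
  | (l + 1) => fun a b => PowerSeries.C (gi a b) -
      ∑ c, ∑ e, PowerSeries.C (gi a c) * (G c e - PowerSeries.C (g c e)) * invA g gi G l e b

/-- the inverse matrix of `G`, where `g = G(0)` and `gi = g⁻¹` -/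
def invS (g gi : Fin n → Fin n → A) (G : Fin n → Fin n → PowerSeries A) (a b : Fin n) :
    PowerSeries A := PowerSeries.mk (fun l => PowerSeries.coeff l (invA g gi G l a b))

/-- `tr(G⁻¹ G')`, where `H = G⁻¹` -/
def tau (G H : Fin n → Fin n → PowerSeries A) : PowerSeries A := ∑ a, ∑ b, H a b * dr (G a b)

/-- the left-hand side of the Fefferman-Graham equation, where `H = G⁻¹` -/
def fgE (d : Fin n → A → A) (G H : Fin n → Fin n → PowerSeries A) (a b : Fin n) : PowerSeries A :=
  PowerSeries.X * ((2 : ℝ) • dr (dr (G a b)) -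
      (2 : ℝ) • (∑ c, ∑ e, dr (G a c) * H c e * dr (G e b)) + tau G H * dr (G a b))
    - ((n : ℝ) - 2) • dr (G a b) - tau G H * G a b
    + (2 : ℝ) • ric (fun i => psd (d i)) (chr (fun i => psd (d i)) G H) a b

/-- the solution of the Fefferman-Graham equation up to the coefficient of `ρ^j` -/
def fgG (d : Fin n → A → A) (g gi : Fin n → Fin n → A) : ℕ → Fin n → Fin n → PowerSeries A
  | 0 => fun a b => PowerSeries.C (g a b)
  | (j + 1) => fun a b => fgG d g gi j a b + PowerSeries.X ^ (j + 1) * PowerSeries.C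
      ((-(1 / (((j : ℝ) + 1) * (2 * (j : ℝ) + 2 - n)))) •
        (PowerSeries.coeff j (fgE d (fgG d g gi j) (invS g gi (fgG d g gi j)) a b)
        + (1 / (2 * (j : ℝ) + 2 - 2 * n)) • ((∑ c, ∑ e, gi c e *
          PowerSeries.coeff j (fgE d (fgG d g gi j) (invS g gi (fgG d g gi j)) c e)) * g a b)))

/-- the ambient Laplacian on functions of homogeneity `s` -/
def Ls (d : Fin n → A → A) (G H : Fin n → Fin n → PowerSeries A) (s : ℝ) (φ : PowerSeries A) :
    PowerSeries A :=
  -((2 : ℝ) • (PowerSeries.X * dr (dr φ))) + (2 * s + (n : ℝ) - 2) • dr φ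
    - PowerSeries.X * tau G H * dr φ + (s / 2) • (tau G H * φ)
    + lap (fun i => psd (d i)) G H φ

/-- powers of the ambient Laplacian applied to a function of homogeneity `0` -/
def Lchain (d : Fin n → A → A) (G H : Fin n → Fin n → PowerSeries A) (φ : PowerSeries A) :
    ℕ → PowerSeries A
  | 0 => φ
  | (l + 1) => Ls d G H (-(2 * (l : ℝ))) (Lchain d G H φ l)

/-- the critical GJMS operator `P_n` (`n` even) -/
def Pn (n : ℕ) (A : Type) [CommRing A] [Algebra ℝ A] (d : Fin n → A → A) (g gi : Fin n → Fin n → A)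
    (f : A) : A :=
  PowerSeries.constantCoeff (Lchain d (fgG d g gi (n / 2 - 1))
    (invS g gi (fgG d g gi (n / 2 - 1))) (PowerSeries.C f) (n / 2))

end

end GJMS
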