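import Pool.Agent.GJMS.Rel
import Pool.Agent.GJMS.PnDefs

/-! # The operator `P_n` is given by universal formulas -/

open Finset

namespace GJMS

noncomputable section

variable {n : ℕ} {A B : Type} [CommRing A] [Algebra ℝ A] [CommRing B] [Algebra ℝ B]

lemma coeff_smul_ps (r : ℝ) (F : PowerSeries A) (m : ℕ) :
    PowerSeries.coeff m (r • F) = r • PowerSeries.coeff m F := rfl

omit [Algebra ℝ A] in
lemma coeff_psd (d : A → A) (F : PowerSeries A) (m : ℕ) :
    PowerSeries.coeff m (psd d F) = d (PowerSeries.coeff m F) := by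
  unfold psd
  rw [PowerSeries.coeff_mk]

lemma coeff_dr (F : PowerSeries A) (m : ℕ) :
    PowerSeries.coeff m (dr F) = ((m : ℝ) + 1) • PowerSeries.coeff (m + 1) F := by
  unfold dr
  rw [PowerSeries.coeff_mk]

omit [Algebra ℝ A] in
lemma coeff_invS (g gi : Fin n → Fin n → A) (G : Fin n → Fin n → PowerSeries A) (a b : Fin n)
    (m : ℕ) : PowerSeries.coeff m (invS g gi G a b) = PowerSeries.coeff m (invA g gi G m a b) := by
  unfold invS
  rw [PowerSeries.coeff_mk]

/-- coefficientwise extension of a relation to power series -/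
def psR (R : A → B → Prop) (F : PowerSeries A) (G : PowerSeries B) : Prop :=
  ∀ m, R (PowerSeries.coeff m F) (PowerSeries.coeff m G)

variable {dA : Fin n → A → A} {dB : Fin n → B → B} {R : A → B → Prop} (h : RelOK dA dB R)

include h in
/-- the coefficientwise relation on power series is closed under all operations -/
lemma RelOK.ps : RelOK (fun i => psd (dA i)) (fun i => psd (dB i)) (psR R) where
  zero m := by rw [map_zero, map_zero]; exact h.zero
  one m := by
    rw [PowerSeries.coeff_one, PowerSeries.coeff_one]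
    split_ifs
    · exact h.one
    · exact h.zero
  add := by
    intro F F' G G' h1 h2 m
    rw [map_add, map_add]; exact h.add (h1 m) (h2 m)
  sub := by
    intro F F' G G' h1 h2 m
    rw [map_sub, map_sub]; exact h.sub (h1 m) (h2 m)
  mul := by
    intro F F' G G' h1 h2 m
    rw [PowerSeries.coeff_mul, PowerSeries.coeff_mul]
    exact h.sum _ fun x _ => h.mul (h1 _) (h2 _)
  smul := by
    intro r F G h1 m
    rw [coeff_smul_ps, coeff_smul_ps]; exact h.smul r (h1 m)
  d := by
    intro i F G h1 m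
    rw [coeff_psd, coeff_psd]; exact h.d i (h1 m)

include h in
lemma RelOK.psR_C {a : A} {b : B} (hab : R a b) :
    psR R (PowerSeries.C a) (PowerSeries.C b) := by
  intro m
  rw [PowerSeries.coeff_C, PowerSeries.coeff_C]
  split_ifs
  · exact hab
  · exact h.zero

include h in
lemma RelOK.psR_X : psR R (PowerSeries.X : PowerSeries A) (PowerSeries.X : PowerSeries B) := by
  intro m
  rw [PowerSeries.coeff_X, PowerSeries.coeff_X]
  split_ifs
  · exact h.one
  · exact h.zero

include h in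
lemma RelOK.psR_X_pow (k : ℕ) :
    psR R ((PowerSeries.X : PowerSeries A) ^ k) ((PowerSeries.X : PowerSeries B) ^ k) := by
  intro m
  rw [PowerSeries.coeff_X_pow, PowerSeries.coeff_X_pow]
  split_ifs
  · exact h.one
  · exact h.zero

include h in
lemma RelOK.psR_dr {F : PowerSeries A} {G : PowerSeries B} (hF : psR R F G) :
    psR R (dr F) (dr G) := by
  intro m
  rw [coeff_dr, coeff_dr]
  exact h.smul _ (hF _)

section geom

variable {g gi : Fin n → Fin n → A} {g' gi' : Fin n → Fin n → B}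
  (hg : ∀ a b, R (g a b) (g' a b)) (hgi : ∀ a b, R (gi a b) (gi' a b))
  {G H : Fin n → Fin n → PowerSeries A} {G' H' : Fin n → Fin n → PowerSeries B}
  (hG : ∀ a b, psR R (G a b) (G' a b)) (hH : ∀ a b, psR R (H a b) (H' a b))

include h hg hgi hG in
lemma RelOK.invA (l : ℕ) : ∀ a b, psR R (invA g gi G l a b) (GJMS.invA g' gi' G' l a b) := by
  induction l with
  | zero => exact fun a b => h.psR_C (hgi a b)
  | succ l ih =>
    intro a b
    show psR R (_ - _) (_ - _)
    exact h.ps.sub (h.psR_C (hgi a b)) (h.ps.sum _ fun c _ => h.ps.sum _ fun e _ =>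
      h.ps.mul (h.ps.mul (h.psR_C (hgi a c)) (h.ps.sub (hG c e) (h.psR_C (hg c e)))) (ih e b))

include h hg hgi hG in
lemma RelOK.invS (a b : Fin n) : psR R (invS g gi G a b) (GJMS.invS g' gi' G' a b) := by
  intro m
  rw [coeff_invS, coeff_invS]
  exact h.invA hg hgi hG m a b m

include h hG hH in
lemma RelOK.tau : psR R (tau G H) (GJMS.tau G' H') := by
  unfold GJMS.tau
  exact h.ps.sum _ fun a _ => h.ps.sum _ fun b _ => h.ps.mul (hH a b) (h.psR_dr (hG a b))

include h hG hH in
lemma RelOK.fgE (a b : Fin n) : psR R (fgE dA G H a b) (GJMS.fgE dB G' H' a b) := by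
  unfold GJMS.fgE
  refine h.ps.add (h.ps.sub (h.ps.sub (h.ps.mul h.psR_X (h.ps.add (h.ps.sub (h.ps.smul _
    (h.psR_dr (h.psR_dr (hG a b)))) (h.ps.smul _ (h.ps.sum _ fun c _ => h.ps.sum _ fun e _ =>
      h.ps.mul (h.ps.mul (h.psR_dr (hG a c)) (hH c e)) (h.psR_dr (hG e b)))))
    (h.ps.mul (h.tau hG hH) (h.psR_dr (hG a b))))) (h.ps.smul _ (h.psR_dr (hG a b))))
    (h.ps.mul (h.tau hG hH) (hG a b))) (h.ps.smul _ (h.ps.ric (h.ps.chr hG hH) a b))

include h hg hgi in
lemma RelOK.fgG (j : ℕ) : ∀ a b, psR R (fgG dA g gi j a b) (GJMS.fgG dB g' gi' j a b) := by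
  induction j with
  | zero => exact fun a b => h.psR_C (hg a b)
  | succ j ih =>
    intro a b
    have hE : ∀ a b, psR R
        (GJMS.fgE dA (GJMS.fgG dA g gi j) (GJMS.invS g gi (GJMS.fgG dA g gi j)) a b)
        (GJMS.fgE dB (GJMS.fgG dB g' gi' j) (GJMS.invS g' gi' (GJMS.fgG dB g' gi' j)) a b) :=
      h.fgE ih (h.invS hg hgi ih)
    show psR R (_ + _) (_ + _)
    exact h.ps.add (ih a b) (h.ps.mul (h.psR_X_pow (j + 1)) (h.psR_C (h.smul _ (h.add (hE a b j)
      (h.smul _ (h.mul (h.sum _ fun c _ => h.sum _ fun e _ => h.mul (hgi c e) (hE c e j))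
        (hg a b)))))))

include h hG hH in
lemma RelOK.Ls (s : ℝ) {φ : PowerSeries A} {φ' : PowerSeries B} (hφ : psR R φ φ') :
    psR R (Ls dA G H s φ) (GJMS.Ls dB G' H' s φ') := by
  unfold GJMS.Ls
  have hneg : ∀ {F : PowerSeries A} {F' : PowerSeries B}, psR R F F' → psR R (-F) (-F') := by
    intro F F' hF
    have := h.ps.sub h.ps.zero hF
    rwa [zero_sub, zero_sub] at this
  exact h.ps.add (h.ps.add (h.ps.sub (h.ps.add (hneg (h.ps.smul _ (h.ps.mul h.psR_X
    (h.psR_dr (h.psR_dr hφ))))) (h.ps.smul _ (h.psR_dr hφ)))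
    (h.ps.mul (h.ps.mul h.psR_X (h.tau hG hH)) (h.psR_dr hφ)))
    (h.ps.smul _ (h.ps.mul (h.tau hG hH) hφ))) (h.ps.lap hG hH hφ)

include h hG hH in
lemma RelOK.Lchain {φ : PowerSeries A} {φ' : PowerSeries B} (hφ : psR R φ φ') (l : ℕ) :
    psR R (Lchain dA G H φ l) (GJMS.Lchain dB G' H' φ' l) := by
  induction l with
  | zero => exact hφ
  | succ l ih => exact h.Ls hG hH _ ih

end geom

/-- the operator `P_n` is given by universal formulas -/
theorem Pn_rel {n : ℕ} {A B : Type} [CommRing A] [Algebra ℝ A] [CommRing B] [Algebra ℝ B]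
    {dA : Fin n → A → A} {dB : Fin n → B → B} {R : A → B → Prop} (h : RelOK dA dB R)
    {g gi : Fin n → Fin n → A} {g' gi' : Fin n → Fin n → B} {f : A} {f' : B}
    (hg : ∀ a b, R (g a b) (g' a b)) (hgi : ∀ a b, R (gi a b) (gi' a b)) (hf : R f f') :
    R (Pn n A dA g gi f) (Pn n B dB g' gi' f') := by
  unfold Pn
  have hG := h.fgG hg hgi (n / 2 - 1)
  have h1 := h.Lchain hG (h.invS hg hgi hG) (h.psR_C hf) (n / 2) 0
  rwa [PowerSeries.coeff_zero_eq_constantCoeff_apply,
    PowerSeries.coeff_zero_eq_constantCoeff_apply] at h1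

/-- powers of the Laplacian are given by universal formulas -/
theorem lapPow_rel {n : ℕ} {A B : Type} [CommRing A] [Algebra ℝ A] [CommRing B] [Algebra ℝ B]
    {dA : Fin n → A → A} {dB : Fin n → B → B} {R : A → B → Prop} (h : RelOK dA dB R)
    {g gi : Fin n → Fin n → A} {g' gi' : Fin n → Fin n → B}
    (hg : ∀ a b, R (g a b) (g' a b)) (hgi : ∀ a b, R (gi a b) (gi' a b)) (m : ℕ) :
    ∀ {f : A} {f' : B}, R f f' → R ((lap dA g gi)^[m] f) ((lap dB g' gi')^[m] f') := by
  induction m with
  | zero => exact fun hf => hf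
  | succ m ih =>
    intro f f' hf
    rw [Function.iterate_succ_apply, Function.iterate_succ_apply]
    exact ih (h.lap hg hgi hf)

end

end GJMS
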