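import Mathlib
import Pool.Agent.GJMS.PnRel
import Pool.Agent.GJMS.PS
import Pool.Agent.GJMS.AmbVar

/-!
# Orders of power series, the exact inverse of the Fefferman-Graham metric
-/

open Finset

set_option linter.unusedSectionVars false
set_option linter.unusedSimpArgs false

namespace GJMS

noncomputable section

variable {n : ℕ} {A : Type} [CommRing A]

section ord

/-- power series of order at least `k` -/
def OI (A : Type) [CommRing A] (k : ℕ) : Ideal (PowerSeries A) := Ideal.span {PowerSeries.X ^ k}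

lemma mem_OI {k : ℕ} {F : PowerSeries A} : F ∈ OI A k ↔ ∀ i < k, PowerSeries.coeff i F = 0 := by
  unfold OI
  rw [Ideal.mem_span_singleton, PowerSeries.X_pow_dvd_iff]

lemma OI_zero (F : PowerSeries A) : F ∈ OI A 0 := mem_OI.2 fun i hi => absurd hi (Nat.not_lt_zero i)

lemma OI_mono {k l : ℕ} (h : k ≤ l) {F : PowerSeries A} (hF : F ∈ OI A l) : F ∈ OI A k :=
  mem_OI.2 fun i hi => mem_OI.1 hF i (lt_of_lt_of_le hi h)

lemma OI_mul {k l : ℕ} {F G : PowerSeries A} (hF : F ∈ OI A k) (hG : G ∈ OI A l) :
    F * G ∈ OI A (k + l) := by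
  unfold OI at *
  rw [Ideal.mem_span_singleton] at *
  rw [pow_add]
  exact mul_dvd_mul hF hG

lemma OI_X_mul {k : ℕ} {F : PowerSeries A} (hF : F ∈ OI A k) : PowerSeries.X * F ∈ OI A (k + 1) := by
  have hX : (PowerSeries.X : PowerSeries A) ∈ OI A 1 := by
    unfold OI
    rw [pow_one]
    exact Ideal.mem_span_singleton_self _
  rw [add_comm]
  exact OI_mul hX hF

lemma OI_X_pow_mul (k : ℕ) (F : PowerSeries A) : PowerSeries.X ^ k * F ∈ OI A k :=
  Ideal.mul_mem_right _ _ (Ideal.mem_span_singleton_self _)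

lemma OI_succ {k : ℕ} {F : PowerSeries A} (hF : F ∈ OI A k) (h : PowerSeries.coeff k F = 0) :
    F ∈ OI A (k + 1) := by
  refine mem_OI.2 fun i hi => ?_
  rcases Nat.lt_succ_iff_lt_or_eq.1 hi with h1 | h1
  · exact mem_OI.1 hF i h1
  · rw [h1]; exact h

lemma coeff_mul_OI {k : ℕ} {F : PowerSeries A} (hF : F ∈ OI A k) (G : PowerSeries A) :
    PowerSeries.coeff k (F * G) = PowerSeries.coeff k F * PowerSeries.constantCoeff G := by
  rw [PowerSeries.coeff_mul, Finset.sum_eq_single (k, 0)]
  · rw [PowerSeries.coeff_zero_eq_constantCoeff_apply]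
  · intro x hx hne
    rw [Finset.HasAntidiagonal.mem_antidiagonal] at hx
    have h1 : x.1 < k := by
      rcases lt_or_eq_of_le (by omega : x.1 ≤ k) with h1 | h1
      · exact h1
      · exact absurd (Prod.ext h1 (by omega : x.2 = 0)) hne
    rw [mem_OI.1 hF _ h1, zero_mul]
  · intro h
    exact absurd (Finset.HasAntidiagonal.mem_antidiagonal.2 (by simp)) h

variable [Algebra ℝ A]

lemma OI_smul {k : ℕ} (c : ℝ) {F : PowerSeries A} (hF : F ∈ OI A k) : c • F ∈ OI A k := by
  rw [Algebra.smul_def]
  exact Ideal.mul_mem_left _ _ hF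

lemma OI_psD {k : ℕ} (D : Derivation ℝ A A) {F : PowerSeries A} (hF : F ∈ OI A k) :
    psD D F ∈ OI A k := by
  refine mem_OI.2 fun i hi => ?_
  rw [coeff_psD, mem_OI.1 hF i hi, map_zero]

lemma OI_dr {k : ℕ} {F : PowerSeries A} (hF : F ∈ OI A (k + 1)) : dr F ∈ OI A k := by
  refine mem_OI.2 fun i hi => ?_
  rw [coeff_dr, mem_OI.1 hF _ (by omega), smul_zero]

lemma OI_dr' {k : ℕ} {F : PowerSeries A} (hF : F ∈ OI A k) : dr F ∈ OI A (k - 1) := by
  rcases k with _ | k
  · exact OI_zero _
  · exact OI_dr hF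

lemma OI_X_dr {k : ℕ} {F : PowerSeries A} (hF : F ∈ OI A k) : PowerSeries.X * dr F ∈ OI A k := by
  rcases k with _ | k
  · exact OI_zero _
  · exact OI_X_mul (OI_dr hF)

lemma coeff_X_dr (k : ℕ) (F : PowerSeries A) :
    PowerSeries.coeff k (PowerSeries.X * dr F) = (k : ℝ) • PowerSeries.coeff k F := by
  rcases k with _ | k
  · simp
  · rw [PowerSeries.coeff_succ_X_mul, coeff_dr]
    push_cast
    rfl

/-- derivative with respect to `ρ` as a derivation -/
def drD (A : Type) [CommRing A] [Algebra ℝ A] : Derivation ℝ (PowerSeries A) (PowerSeries A) where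
  toFun := dr
  map_add' F G := by
    ext m
    rw [coeff_dr, map_add, map_add, coeff_dr, coeff_dr, smul_add]
  map_smul' r F := by
    ext m
    simp only [RingHom.id_apply]
    rw [coeff_dr, coeff_smul_ps, coeff_smul_ps, coeff_dr, smul_comm]
  map_one_eq_zero' := by
    ext m
    show PowerSeries.coeff m (dr 1) = _
    rw [coeff_dr, PowerSeries.coeff_one, if_neg (Nat.succ_ne_zero m), smul_zero, map_zero]
  leibniz' F G := by
    have h : ∀ F : PowerSeries A, dr F = PowerSeries.derivative A F := by
      intro F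
      ext m
      rw [coeff_dr, PowerSeries.coeff_derivative, Algebra.smul_def, mul_comm]
      simp
    show dr (F * G) = F • dr G + G • dr F
    rw [h, h, h, Derivation.leibniz]

lemma drD_apply (F : PowerSeries A) : drD A F = dr F := rfl

lemma psD_dr (D : Derivation ℝ A A) (F : PowerSeries A) : psD D (dr F) = dr (psD D F) := by
  ext m
  rw [coeff_psD, coeff_dr, coeff_dr, coeff_psD, Derivation.map_smul]

end ord

section inv

variable [Algebra ℝ A] (g gi : Fin n → Fin n → A) (G : Fin n → Fin n → PowerSeries A)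
  (hg : ∀ a b, g a b = g b a) (hgi : ∀ a b, ∑ c, gi a c * g b c = if a = b then 1 else 0)
  (hG0 : ∀ a b, PowerSeries.constantCoeff (G a b) = g a b)

include hg hgi hG0 in
lemma exists_inv_ps : ∃ H : Fin n → Fin n → PowerSeries A,
    ∀ a b, ∑ c, H a c * G b c = if a = b then 1 else 0 := by
  have hdet : IsUnit (Matrix.det (Matrix.of fun a b => G b a)) := by
    rw [PowerSeries.isUnit_iff_constantCoeff, RingHom.map_det]
    have h1 : (Matrix.of gi : Matrix (Fin n) (Fin n) A) *
        (PowerSeries.constantCoeff (R := A)).mapMatrix (Matrix.of fun a b => G b a) = 1 := by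
      ext a b
      rw [Matrix.mul_apply, Matrix.one_apply, ← hgi a b]
      refine Finset.sum_congr rfl fun c _ => ?_
      rw [RingHom.mapMatrix_apply, Matrix.map_apply, Matrix.of_apply, Matrix.of_apply, hG0]
    have h2 := congrArg Matrix.det h1
    rw [Matrix.det_mul, Matrix.det_one] at h2
    exact IsUnit.of_mul_eq_one _ (by rw [mul_comm]; exact h2)
  refine ⟨fun a b => (Matrix.of fun a b => G b a)⁻¹ a b, fun a b => ?_⟩
  have h3 := Matrix.nonsing_inv_mul _ hdet
  have h4 := congrFun (congrFun h3 a) b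
  rw [Matrix.mul_apply, Matrix.one_apply] at h4
  exact h4

variable {g gi G}

include hg hgi hG0 in
/-- the fixed point equation for the inverse matrix -/
lemma inv_fix {H : Fin n → Fin n → PowerSeries A}
    (hG : ∀ a b, G a b = G b a) (hH : ∀ a b, ∑ c, H a c * G b c = if a = b then 1 else 0) (a b : Fin n) :
    H a b = PowerSeries.C (gi a b) -
      ∑ c, ∑ e, PowerSeries.C (gi a c) * (G c e - PowerSeries.C (g c e)) * H e b := by
  have h1 : ∀ c, ∑ e, G c e * H e b = if c = b then 1 else 0 := by
    intro c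
    have := congrFun (congrFun (g_mul_gi G H hG hH) c) b
    rw [Matrix.mul_apply, Matrix.one_apply] at this
    exact this
  have h2 : ∀ e, ∑ c, PowerSeries.C (gi a c) * PowerSeries.C (g c e) = if a = e then 1 else 0 := by
    intro e
    have := hgi a e
    have h3 := congrArg (PowerSeries.C (R := A)) this
    rw [map_sum] at h3
    rw [Finset.sum_congr rfl fun c _ => by rw [← map_mul, hg c e], h3]
    split_ifs <;> simp
  have h4 : ∑ c, ∑ e, PowerSeries.C (gi a c) * (G c e - PowerSeries.C (g c e)) * H e b =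
      ∑ c, PowerSeries.C (gi a c) * (∑ e, G c e * H e b) -
      ∑ e, (∑ c, PowerSeries.C (gi a c) * PowerSeries.C (g c e)) * H e b := by
    simp only [Finset.mul_sum, Finset.sum_mul]
    rw [Finset.sum_comm (f := fun e c => PowerSeries.C (gi a c) * PowerSeries.C (g c e) * H e b),
      ← Finset.sum_sub_distrib]
    refine Finset.sum_congr rfl fun c _ => ?_
    rw [← Finset.sum_sub_distrib]
    exact Finset.sum_congr rfl fun e _ => by ring
  rw [h4]
  simp only [h1, h2]
  simp

include hg hgi hG0 in
lemma invA_sub_mem {H : Fin n → Fin n → PowerSeries A}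
    (hG : ∀ a b, G a b = G b a) (hH : ∀ a b, ∑ c, H a c * G b c = if a = b then 1 else 0) (l : ℕ) :
    ∀ a b, invA g gi G l a b - H a b ∈ OI A (l + 1) := by
  have hGg : ∀ c e, G c e - PowerSeries.C (g c e) ∈ OI A 1 := by
    intro c e
    refine OI_succ (OI_zero _) ?_
    rw [map_sub, PowerSeries.coeff_zero_eq_constantCoeff_apply,
      PowerSeries.coeff_zero_eq_constantCoeff_apply, hG0, PowerSeries.constantCoeff_C, sub_self]
  induction l with
  | zero =>
    intro a b
    rw [inv_fix hg hgi hG0 hG hH a b]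
    show PowerSeries.C (gi a b) - _ ∈ _
    rw [sub_sub_cancel]
    refine Ideal.sum_mem _ fun c _ => Ideal.sum_mem _ fun e _ => ?_
    exact Ideal.mul_mem_right _ _ (Ideal.mul_mem_left _ _ (hGg c e))
  | succ l ih =>
    intro a b
    rw [inv_fix hg hgi hG0 hG hH a b]
    show PowerSeries.C (gi a b) - ∑ c, ∑ e, PowerSeries.C (gi a c) *
      (G c e - PowerSeries.C (g c e)) * invA g gi G l e b - _ ∈ _
    rw [sub_sub_sub_cancel_left, ← Finset.sum_sub_distrib]
    refine Ideal.sum_mem _ fun c _ => ?_
    rw [← Finset.sum_sub_distrib]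
    refine Ideal.sum_mem _ fun e _ => ?_
    rw [← mul_sub, mul_assoc]
    refine Ideal.mul_mem_left _ _ ?_
    have h1 := OI_mul (hGg c e) (ih e b)
    have h2 : H e b - invA g gi G l e b = -(invA g gi G l e b - H e b) := by ring
    rw [h2, mul_neg, add_comm]
    exact neg_mem h1

include hg hgi hG0 in
/-- `invS` is the exact inverse -/
lemma invS_eq {H : Fin n → Fin n → PowerSeries A}
    (hG : ∀ a b, G a b = G b a) (hH : ∀ a b, ∑ c, H a c * G b c = if a = b then 1 else 0) (a b : Fin n) :
    invS g gi G a b = H a b := by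
  ext m
  rw [coeff_invS]
  have h1 := mem_OI.1 (invA_sub_mem hg hgi hG0 hG hH m a b) m (Nat.lt_succ_self m)
  rw [map_sub] at h1
  exact sub_eq_zero.1 h1

include hg hgi hG0 in
/-- `invS` is the exact inverse -/
theorem invS_exact (hG : ∀ a b, G a b = G b a) (a b : Fin n) :
    ∑ c, invS g gi G a c * G b c = if a = b then 1 else 0 := by
  obtain ⟨H, hH⟩ := exists_inv_ps g gi G hg hgi hG0
  rw [← hH a b]
  exact Finset.sum_congr rfl fun c _ => by rw [invS_eq hg hgi hG0 hG hH]

end inv

section fg

variable [Algebra ℝ A]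

lemma fgG_cc (d : Fin n → A → A) (g gi : Fin n → Fin n → A) (j : ℕ) (a b : Fin n) :
    PowerSeries.constantCoeff (fgG d g gi j a b) = g a b := by
  induction j with
  | zero => exact PowerSeries.constantCoeff_C _
  | succ j ih =>
    show PowerSeries.constantCoeff (fgG d g gi j a b + _) = _
    rw [map_add, ih, map_mul, map_pow, PowerSeries.constantCoeff_X]
    simp

variable (D : Fin n → Derivation ℝ A A) (hD : ∀ i j x, D i (D j x) = D j (D i x))

include hD in
lemma fgE_symm {G H : Fin n → Fin n → PowerSeries A} (hG : ∀ a b, G a b = G b a)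
    (hH : ∀ a b, ∑ c, H a c * G b c = if a = b then 1 else 0) (a b : Fin n) :
    fgE (fun i => D i) G H a b = fgE (fun i => D i) G H b a := by
  unfold fgE
  have hHs : ∀ a b, H a b = H b a := gi_symm G H hG hH
  have h1 : ric (fun i => psd (D i)) (chr (fun i => psd (D i)) G H) a b =
      ric (fun i => psd (D i)) (chr (fun i => psd (D i)) G H) b a :=
    ric_symm (fun i => psD (D i)) G H (psD_comm D hD) hG hH a b
  have h2 : (∑ c, ∑ e, dr (G a c) * H c e * dr (G e b)) = ∑ c, ∑ e, dr (G b c) * H c e * dr (G e a) := by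
    rw [Finset.sum_comm]
    refine Finset.sum_congr rfl fun c _ => Finset.sum_congr rfl fun e _ => ?_
    rw [hHs e c, hG a e, hG c b]
    ring
  rw [h1, h2, hG a b]

include hD in
lemma fgG_symm (g gi : Fin n → Fin n → A) (hg : ∀ a b, g a b = g b a)
    (hgi : ∀ a b, ∑ c, gi a c * g b c = if a = b then 1 else 0) (j : ℕ) :
    ∀ a b, fgG (fun i => D i) g gi j a b = fgG (fun i => D i) g gi j b a := by
  induction j with
  | zero =>
    intro a b
    show PowerSeries.C (g a b) = PowerSeries.C (g b a)
    rw [hg]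
  | succ j ih =>
    intro a b
    have hH := invS_exact hg hgi (fgG_cc (fun i => D i) g gi j) ih
    have hE := fgE_symm D hD ih hH
    show fgG (fun i => D i) g gi j a b + _ = fgG (fun i => D i) g gi j b a + _
    rw [ih a b, hE a b, hg a b]

include hD in
/-- `invS` of the Fefferman-Graham metric is its exact inverse -/
lemma fgG_inv (g gi : Fin n → Fin n → A) (hg : ∀ a b, g a b = g b a)
    (hgi : ∀ a b, ∑ c, gi a c * g b c = if a = b then 1 else 0) (j : ℕ) (a b : Fin n) :
    ∑ c, invS g gi (fgG (fun i => D i) g gi j) a c * fgG (fun i => D i) g gi j b c =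
      if a = b then 1 else 0 :=
  invS_exact hg hgi (fgG_cc (fun i => D i) g gi j) (fgG_symm D hD g gi hg hgi j) a b

end fg

end

end GJMS
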