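import Mathlib
import Pool.Agent.GJMS.PnInv
import Pool.Agent.GJMS.AmbLap

/-!
# The ambient space over a ring of power series: orders of the Ricci curvature
-/

open Finset

set_option linter.unusedSectionVars false
set_option linter.unusedSimpArgs false

namespace GJMS

noncomputable section

variable {n : ℕ} {A : Type} [CommRing A] [Algebra ℝ A]

/-- the derivations of the ambient space -/
def pD (E : Derivation ℝ A A) (D : Fin n → Derivation ℝ A A) :
    Fin (n + 2) → Derivation ℝ (PowerSeries A) (PowerSeries A) :=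
  blk (psD E) (drD A) (fun i => psD (D i))

variable {E : Derivation ℝ A A} {D : Fin n → Derivation ℝ A A}

lemma pD_0 : pD E D 0 = psD E := rfl
lemma pD_1 : pD E D 1 = drD A := rfl
lemma pD_e (i : Fin n) : pD E D i.succ.succ = psD (D i) := rfl

lemma pD_sys (hD : ∀ i j x, D i (D j x) = D j (D i x)) (hED : ∀ i x, E (D i x) = D i (E x))
    {T0 Ti0 : A} (hT : T0 * Ti0 = 1) (hE : E T0 = T0 + T0) (hDT : ∀ i, D i T0 = 0) :
    AmbSys (pD E D) (PowerSeries.C T0) (PowerSeries.C Ti0) PowerSeries.X where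
  comm i j x := by
    induction i using aind with
    | h0 =>
      induction j using aind with
      | h0 => rfl
      | h1 => exact psD_dr E x
      | h2 j =>
        rw [pD_0, pD_e]
        ext m
        rw [coeff_psD, coeff_psD, coeff_psD, coeff_psD, hED]
    | h1 =>
      induction j using aind with
      | h0 => exact (psD_dr E x).symm
      | h1 => rfl
      | h2 j => exact (psD_dr (D j) x).symm
    | h2 i =>
      induction j using aind with
      | h0 =>
        rw [pD_0, pD_e]
        ext m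
        rw [coeff_psD, coeff_psD, coeff_psD, coeff_psD, hED]
      | h1 => exact psD_dr (D i) x
      | h2 j => exact psD_comm D hD i j x
  tti := by rw [← map_mul, hT, map_one]
  T0 := by rw [pD_0, psD_C, hE, map_add]
  T1 := by
    show dr (PowerSeries.C T0) = 0
    ext m
    rw [coeff_dr, PowerSeries.coeff_C, if_neg (Nat.succ_ne_zero m), smul_zero, map_zero]
  Te i := by rw [pD_e, psD_C, hDT, map_zero]
  r0 := psD_X E
  r1 := by
    show dr PowerSeries.X = 1
    ext m
    rw [coeff_dr, PowerSeries.coeff_X, PowerSeries.coeff_one]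
    rcases m with _ | m
    · simp
    · simp
  re i := psD_X (D i)

lemma fER_eq (G H : Fin n → Fin n → PowerSeries A) (a b : Fin n) :
    fER (pD E D) PowerSeries.X G H a b = fgE (fun i => D i) G H a b := rfl

lemma tauR_eq (G H : Fin n → Fin n → PowerSeries A) : tauR (pD E D) G H = tau G H := rfl

lemma LsR_eq (G H : Fin n → Fin n → PowerSeries A) (s : ℝ) (φ : PowerSeries A) :
    LsR (pD E D) PowerSeries.X G H s φ = Ls (fun i => D i) G H s φ := rfl

lemma chR_eq (G H : Fin n → Fin n → PowerSeries A) (φ : PowerSeries A) (k : ℕ) :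
    chR (pD E D) PowerSeries.X G H 0 φ k = Lchain (fun i => D i) G H φ k := by
  induction k with
  | zero => rfl
  | succ k ih =>
    show LsR (pD E D) PowerSeries.X G H (0 - 2 * (k : ℝ)) (chR (pD E D) PowerSeries.X G H 0 φ k) = _
    rw [ih, zero_sub]
    rfl

lemma ode_mem {a : ℕ} {F : PowerSeries A} (hF : F ∈ OI A a) (c e : ℝ) (hne : c - e * a ≠ 0)
    (h : c • F - e • (PowerSeries.X * dr F) ∈ OI A (a + 1)) : F ∈ OI A (a + 1) := by
  refine OI_succ hF ?_
  have h1 := mem_OI.1 h a (Nat.lt_succ_self a)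
  rw [map_sub, coeff_smul_ps, coeff_smul_ps, coeff_X_dr, smul_smul, ← sub_smul] at h1
  have h2 := congrArg (fun x => (c - e * a)⁻¹ • x) h1
  simp only [smul_smul, smul_zero] at h2
  rwa [inv_mul_cancel₀ hne, one_smul] at h2

section kappa

variable {T0 Ti0 : A}
  (hA : AmbSys (pD E D) (PowerSeries.C T0) (PowerSeries.C Ti0) PowerSeries.X)
  {G H : Fin n → Fin n → PowerSeries A} (hG : ∀ i j, G i j = G j i)
  (hH : ∀ i j, ∑ k, H i k * G j k = if i = j then 1 else 0)
  (hG0 : ∀ i j, pD E D 0 (G i j) = 0)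

include hA hG hH hG0

lemma kappa_aux {M : ℕ} (hM : 2 * M + 2 ≤ n) (hF : ∀ i j, fgE (fun i => D i) G H i j ∈ OI A M)
    (a : ℕ) (ha : a + 1 ≤ M) :
    (∀ j : Fin n, aR (pD E D) (PowerSeries.C T0) (PowerSeries.C Ti0) PowerSeries.X G H 1 j.succ.succ ∈ OI A a) ∧
      aR (pD E D) (PowerSeries.C T0) (PowerSeries.C Ti0) PowerSeries.X G H 1 1 ∈ OI A a := by
  induction a with
  | zero => exact ⟨fun j => OI_zero _, OI_zero _⟩
  | succ a ih =>
    obtain ⟨ih1, ih2⟩ := ih (by omega)
    have hR : ∀ i j : Fin n, aR (pD E D) (PowerSeries.C T0) (PowerSeries.C Ti0) PowerSeries.X G H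
        i.succ.succ j.succ.succ ∈ OI A M := by
      intro i j
      rw [aR_ee hA hG hH hG0]
      exact OI_smul _ (hF i j)
    have hv : ∀ j k : Fin n, vR (pD E D) (PowerSeries.C T0) (PowerSeries.C Ti0) PowerSeries.X G H
        j.succ.succ k ∈ OI A M := by
      intro j k
      unfold vR
      exact Ideal.sum_mem _ fun l _ => Ideal.mul_mem_right _ _ (hR l j)
    have k1 : ∀ j : Fin n, aR (pD E D) (PowerSeries.C T0) (PowerSeries.C Ti0) PowerSeries.X G H
        1 j.succ.succ ∈ OI A (a + 1) := by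
      intro j
      have h := bianchi_e hA hG hH hG0 j
      set K := aR (pD E D) (PowerSeries.C T0) (PowerSeries.C Ti0) PowerSeries.X G H 1 j.succ.succ with hK
      set S := aR (pD E D) (PowerSeries.C T0) (PowerSeries.C Ti0) PowerSeries.X G H 1 1 with hS
      have hrhs : - 2 * (∑ k : Fin n, pD E D k.succ.succ (vR (pD E D) (PowerSeries.C T0) (PowerSeries.C Ti0) PowerSeries.X G H j.succ.succ k)
          + ∑ k, gR (pD E D) G H k * vR (pD E D) (PowerSeries.C T0) (PowerSeries.C Ti0) PowerSeries.X G H j.succ.succ k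
          - ∑ k, ∑ l, chr (fun i => De (pD E D) i) G H k j l * vR (pD E D) (PowerSeries.C T0) (PowerSeries.C Ti0) PowerSeries.X G H k.succ.succ l)
          + pD E D j.succ.succ (∑ k : Fin n, vR (pD E D) (PowerSeries.C T0) (PowerSeries.C Ti0) PowerSeries.X G H k.succ.succ k)
          ∈ OI A (a + 1) := by
        refine OI_mono (show a + 1 ≤ M by omega) ?_
        refine Ideal.add_mem _ (Ideal.mul_mem_left _ _ (Ideal.sub_mem _ (Ideal.add_mem _ ?_ ?_) ?_)) ?_
        · exact Ideal.sum_mem _ fun k _ => by rw [pD_e]; exact OI_psD _ (hv j k)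
        · exact Ideal.sum_mem _ fun k _ => Ideal.mul_mem_left _ _ (hv j k)
        · exact Ideal.sum_mem _ fun k _ => Ideal.sum_mem _ fun l _ => Ideal.mul_mem_left _ _ (hv k l)
        · rw [pD_e]
          exact OI_psD _ (Ideal.sum_mem _ fun k _ => hv k k)
      rw [← h] at hrhs
      refine ode_mem (ih1 j) (2 * ((n : ℝ) - 2)) 4 ?_ ?_
      · have h1 : (2 * (a : ℝ) + 2 < (n : ℝ) ) := by
          have : 2 * a + 2 < n := by omega
          exact_mod_cast this
        intro h0
        nlinarith
      · have e1 : (2 * ((n : ℝ) - 2)) • K - (4 : ℝ) • (PowerSeries.X * dr K) =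
            2 * (((n : PowerSeries A) - 2) * K - 2 * (PowerSeries.X * pD E D 1 K) -
              PowerSeries.X * tauR (pD E D) G H * K + PowerSeries.X * pD E D j.succ.succ S) +
            2 * (tauR (pD E D) G H * (PowerSeries.X * K)) - 2 * (PowerSeries.X * psD (D j) S) := by
          rw [pD_1, drD_apply, pD_e]
          simp only [Algebra.smul_def, map_mul, map_sub, map_natCast, map_ofNat]
          ring
        rw [e1]
        refine Ideal.sub_mem _ (Ideal.add_mem _ hrhs (Ideal.mul_mem_left _ _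
          (Ideal.mul_mem_left _ _ (OI_X_mul (ih1 j))))) (Ideal.mul_mem_left _ _
          (OI_X_mul (OI_psD _ ih2)))
    refine ⟨k1, ?_⟩
    have h := bianchi_1 hA hG hH hG0
    set S := aR (pD E D) (PowerSeries.C T0) (PowerSeries.C Ti0) PowerSeries.X G H 1 1 with hS
    have hv1 : ∀ k : Fin n, vR (pD E D) (PowerSeries.C T0) (PowerSeries.C Ti0) PowerSeries.X G H
        1 k ∈ OI A (a + 1) := by
      intro k
      unfold vR
      refine Ideal.sum_mem _ fun l _ => Ideal.mul_mem_right _ _ ?_
      rw [aR_symm hA hG hH hG0]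
      exact k1 l
    have hrhs : - 2 * (∑ k : Fin n, pD E D k.succ.succ (vR (pD E D) (PowerSeries.C T0) (PowerSeries.C Ti0) PowerSeries.X G H 1 k)
      + ∑ k, gR (pD E D) G H k * vR (pD E D) (PowerSeries.C T0) (PowerSeries.C Ti0) PowerSeries.X G H 1 k
      - ∑ k : Fin n, ∑ l, ((1 / 2 : ℝ) • ∑ m, H k m * pD E D 1 (G l m)) *
      vR (pD E D) (PowerSeries.C T0) (PowerSeries.C Ti0) PowerSeries.X G H k.succ.succ l)
      + pD E D 1 (∑ k : Fin n, vR (pD E D) (PowerSeries.C T0) (PowerSeries.C Ti0) PowerSeries.X G H k.succ.succ k)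
      ∈ OI A (a + 1) := by
      refine Ideal.add_mem _ (Ideal.mul_mem_left _ _ (Ideal.sub_mem _ (Ideal.add_mem _ ?_ ?_) ?_)) ?_
      · exact Ideal.sum_mem _ fun k _ => by rw [pD_e]; exact OI_psD _ (hv1 k)
      · exact Ideal.sum_mem _ fun k _ => Ideal.mul_mem_left _ _ (hv1 k)
      · exact Ideal.sum_mem _ fun k _ => Ideal.sum_mem _ fun l _ => Ideal.mul_mem_left _ _
          (OI_mono (by omega) (hv k l))
      · rw [pD_1, drD_apply]
        refine OI_mono (show a + 1 ≤ M - 1 by omega) (OI_dr' ?_)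
        exact Ideal.sum_mem _ fun k _ => hv k k
    rw [← h] at hrhs
    refine ode_mem ih2 (2 * ((n : ℝ) - 2)) 2 ?_ ?_
    · have h1 : (2 * (a : ℝ) + 2 < (n : ℝ) ) := by
        have : 2 * a + 2 < n := by omega
        exact_mod_cast this
      have h2 : (0 : ℝ) ≤ a := Nat.cast_nonneg a
      intro h0
      nlinarith
    · have e1 : (2 * ((n : ℝ) - 2)) • S - (2 : ℝ) • (PowerSeries.X * dr S) =
          2 * (((n : PowerSeries A) - 2) * S - (PowerSeries.X * pD E D 1 S) -
            PowerSeries.X * tauR (pD E D) G H * S) +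
          2 * (tauR (pD E D) G H * (PowerSeries.X * S)) := by
        rw [pD_1, drD_apply]
        simp only [Algebra.smul_def, map_mul, map_sub, map_natCast, map_ofNat]
        ring
      rw [e1]
      exact Ideal.add_mem _ hrhs (Ideal.mul_mem_left _ _
        (Ideal.mul_mem_left _ _ (OI_X_mul ih2)))

lemma kappa_mem {M : ℕ} (hM : 2 * M + 2 ≤ n) (hF : ∀ i j, fgE (fun i => D i) G H i j ∈ OI A M)
    (j : Fin n) : PowerSeries.X *
      aR (pD E D) (PowerSeries.C T0) (PowerSeries.C Ti0) PowerSeries.X G H 1 j.succ.succ ∈ OI A M := by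
  rcases M with _ | M
  · exact OI_zero _
  · exact OI_X_mul ((kappa_aux hA hG hH hG0 hM hF M le_rfl).1 j)

end kappa

end

end GJMS
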