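import Mathlib
import Pool.Agent.GJMS.PnOrd

/-!
# The coefficients of the Fefferman-Graham expression; uniqueness and truncation
-/

open Finset

set_option linter.unusedSectionVars false
set_option linter.unusedSimpArgs false

namespace GJMS

noncomputable section

variable {n : ℕ} {A : Type} [CommRing A] [Algebra ℝ A] (D : Fin n → Derivation ℝ A A)

/-- congruence modulo `ρ^k` is compatible with all operations -/
lemma relOI (k : ℕ) : RelOK (fun i => psD (D i)) (fun i => psD (D i))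
    (fun F G => F - G ∈ OI A k) where
  zero := by rw [sub_self]; exact Ideal.zero_mem _
  one := by rw [sub_self]; exact Ideal.zero_mem _
  add := by
    intro a a' b b' h1 h2
    rw [add_sub_add_comm]
    exact Ideal.add_mem _ h1 h2
  sub := by
    intro a a' b b' h1 h2
    rw [show a - a' - (b - b') = (a - b) - (a' - b') by ring]
    exact Ideal.sub_mem _ h1 h2
  mul := by
    intro a a' b b' h1 h2
    rw [show a * a' - b * b' = a' * (a - b) + b * (a' - b') by ring]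
    exact Ideal.add_mem _ (Ideal.mul_mem_left _ _ h1) (Ideal.mul_mem_left _ _ h2)
  smul := by
    intro r a b h1
    rw [← smul_sub]
    exact OI_smul r h1
  d := by
    intro i a b h1
    rw [← map_sub]
    exact OI_psD _ h1

lemma dr_sub (F G : PowerSeries A) : dr (F - G) = dr F - dr G := (drD A).map_sub F G

lemma OI_self (k : ℕ) (F : PowerSeries A) : F - F ∈ OI A k := by
  rw [sub_self]; exact Ideal.zero_mem _

section two

variable {G1 H1 G2 H2 : Fin n → Fin n → PowerSeries A}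
  (hG1 : ∀ a b, G1 a b = G1 b a) (hG2 : ∀ a b, G2 a b = G2 b a)
  (hH1 : ∀ a b, ∑ c, H1 a c * G1 b c = if a = b then 1 else 0)
  (hH2 : ∀ a b, ∑ c, H2 a c * G2 b c = if a = b then 1 else 0)

include hG1 hG2 hH1 hH2 in
lemma inv_sub_memP {k : ℕ} (hk : ∀ a b, G1 a b - G2 a b ∈ OI A k) (a b : Fin n) :
    H1 a b - H2 a b ∈ OI A k := by
  have h1 : ∀ c, ∑ e, G2 c e * H2 e b = if c = b then 1 else 0 := by
    intro c
    have := congrFun (congrFun (g_mul_gi G2 H2 hG2 hH2) c) b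
    rw [Matrix.mul_apply, Matrix.one_apply] at this
    exact this
  have h2 : ∀ e, ∑ c, H1 a c * G1 c e = if a = e then 1 else 0 := by
    intro e
    rw [← hH1 a e]
    exact Finset.sum_congr rfl fun c _ => by rw [hG1 c e]
  have h3 : H1 a b - H2 a b = ∑ c, ∑ e, H1 a c * (G2 c e - G1 c e) * H2 e b := by
    have e1 : ∑ c, ∑ e, H1 a c * (G2 c e - G1 c e) * H2 e b =
        ∑ c, H1 a c * (∑ e, G2 c e * H2 e b) - ∑ e, (∑ c, H1 a c * G1 c e) * H2 e b := by
      simp only [Finset.mul_sum, Finset.sum_mul]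
      rw [Finset.sum_comm (f := fun e c => H1 a c * G1 c e * H2 e b), ← Finset.sum_sub_distrib]
      refine Finset.sum_congr rfl fun c _ => ?_
      rw [← Finset.sum_sub_distrib]
      exact Finset.sum_congr rfl fun e _ => by ring
    rw [e1]
    simp only [h1, h2]
    simp
  rw [h3]
  refine Ideal.sum_mem _ fun c _ => Ideal.sum_mem _ fun e _ => Ideal.mul_mem_right _ _
    (Ideal.mul_mem_left _ _ ?_)
  rw [← neg_sub]
  exact neg_mem (hk c e)

lemma tau_sub (G1 H1 G2 H2 : Fin n → Fin n → PowerSeries A) :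
    tau G1 H1 - tau G2 H2 = ∑ a, ∑ b, ((H1 a b - H2 a b) * dr (G1 a b) +
      H2 a b * dr (G1 a b - G2 a b)) := by
  unfold tau
  rw [← Finset.sum_sub_distrib]
  refine Finset.sum_congr rfl fun a _ => ?_
  rw [← Finset.sum_sub_distrib]
  exact Finset.sum_congr rfl fun b _ => by rw [dr_sub]; ring

lemma tau_sub_mem {k : ℕ} (hk : ∀ a b, G1 a b - G2 a b ∈ OI A (k + 1))
    (hHk : ∀ a b, H1 a b - H2 a b ∈ OI A (k + 1)) : tau G1 H1 - tau G2 H2 ∈ OI A k := by
  rw [tau_sub]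
  exact Ideal.sum_mem _ fun a _ => Ideal.sum_mem _ fun b _ => Ideal.add_mem _
    (Ideal.mul_mem_right _ _ (OI_mono (Nat.le_succ k) (hHk a b)))
    (Ideal.mul_mem_left _ _ (OI_dr (hk a b)))

include hG1 hG2 hH1 hH2 in
lemma fgE_sub_aux {k : ℕ} (hk : ∀ a b, G1 a b - G2 a b ∈ OI A (k + 1)) (a b : Fin n) :
    fgE (fun i => D i) G1 H1 a b - fgE (fun i => D i) G2 H2 a b -
      ((2 : ℝ) • (PowerSeries.X * dr (dr (G1 a b - G2 a b))) - ((n : ℝ) - 2) • dr (G1 a b - G2 a b)
        - (∑ c, ∑ e, H2 c e * dr (G1 c e - G2 c e)) * G2 a b) ∈ OI A (k + 1) := by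
  have hH : ∀ a b, H1 a b - H2 a b ∈ OI A (k + 1) := inv_sub_memP hG1 hG2 hH1 hH2 hk
  have hkk := relOI D k
  have hdr : ∀ a b, dr (G1 a b) - dr (G2 a b) ∈ OI A k := by
    intro a b
    rw [← dr_sub]
    exact OI_dr (hk a b)
  have t1 : (∑ c, ∑ e, dr (G1 a c) * H1 c e * dr (G1 e b)) -
      (∑ c, ∑ e, dr (G2 a c) * H2 c e * dr (G2 e b)) ∈ OI A k :=
    hkk.sum _ fun c _ => hkk.sum _ fun e _ => hkk.mul (hkk.mul (hdr a c)
      (OI_mono (Nat.le_succ k) (hH c e))) (hdr e b)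
  have t2 : tau G1 H1 * dr (G1 a b) - tau G2 H2 * dr (G2 a b) ∈ OI A k :=
    hkk.mul (tau_sub_mem hk hH) (hdr a b)
  have t3 : ric (fun i => psd (D i)) (chr (fun i => psd (D i)) G1 H1) a b -
      ric (fun i => psd (D i)) (chr (fun i => psd (D i)) G2 H2) a b ∈ OI A (k + 1) :=
    (relOI D (k + 1)).ric ((relOI D (k + 1)).chr hk hH) a b
  have t4 : ∑ a, ∑ b, (H1 a b - H2 a b) * dr (G1 a b) ∈ OI A (k + 1) :=
    Ideal.sum_mem _ fun a _ => Ideal.sum_mem _ fun b _ => Ideal.mul_mem_right _ _ (hH a b)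
  have t5 : tau G1 H1 = tau G2 H2 + ∑ a, ∑ b, (H1 a b - H2 a b) * dr (G1 a b) +
      ∑ c, ∑ e, H2 c e * dr (G1 c e - G2 c e) := by
    have := tau_sub G1 H1 G2 H2
    simp only [Finset.sum_add_distrib] at this
    linear_combination this
  have key : fgE (fun i => D i) G1 H1 a b - fgE (fun i => D i) G2 H2 a b -
      ((2 : ℝ) • (PowerSeries.X * dr (dr (G1 a b - G2 a b))) - ((n : ℝ) - 2) • dr (G1 a b - G2 a b)
        - (∑ c, ∑ e, H2 c e * dr (G1 c e - G2 c e)) * G2 a b) =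
      -((2 : ℝ) • (PowerSeries.X * ((∑ c, ∑ e, dr (G1 a c) * H1 c e * dr (G1 e b)) -
      (∑ c, ∑ e, dr (G2 a c) * H2 c e * dr (G2 e b))))) +
      PowerSeries.X * (tau G1 H1 * dr (G1 a b) - tau G2 H2 * dr (G2 a b)) -
      (∑ a, ∑ b, (H1 a b - H2 a b) * dr (G1 a b)) * G2 a b - tau G1 H1 * (G1 a b - G2 a b) +
      (2 : ℝ) • (ric (fun i => psd (D i)) (chr (fun i => psd (D i)) G1 H1) a b -
      ric (fun i => psd (D i)) (chr (fun i => psd (D i)) G2 H2) a b) := by
    have e1 : (∑ a, ∑ b, (H1 a b - H2 a b) * dr (G1 a b)) = tau G1 H1 - tau G2 H2 -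
        ∑ c, ∑ e, H2 c e * dr (G1 c e - G2 c e) := by rw [t5]; ring
    rw [e1, dr_sub (dr (G1 a b) |> fun _ => G1 a b) (G2 a b), dr_sub (dr (G1 a b)) (dr (G2 a b))]
    unfold fgE
    simp only [Algebra.smul_def]
    ring
  rw [key]
  refine Ideal.add_mem _ (Ideal.sub_mem _ (Ideal.sub_mem _ (Ideal.add_mem _ ?_ ?_) ?_) ?_) ?_
  · exact neg_mem (OI_smul _ (OI_X_mul t1))
  · exact OI_X_mul t2
  · exact Ideal.mul_mem_right _ _ t4
  · exact Ideal.mul_mem_left _ _ (hk a b)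
  · exact OI_smul _ t3

variable {g gi : Fin n → Fin n → A}
  (hg : ∀ a b, g a b = g b a) (hgi : ∀ a b, ∑ c, gi a c * g b c = if a = b then 1 else 0)
  (hg2 : ∀ a b, PowerSeries.constantCoeff (G2 a b) = g a b)

include hg hgi hG2 hH2 hg2 in
lemma inv_cc (a b : Fin n) : PowerSeries.constantCoeff (H2 a b) = gi a b := by
  have h1 := inv_fix hg hgi hg2 hG2 hH2 a b
  rw [h1, map_sub, PowerSeries.constantCoeff_C, map_sum]
  rw [Finset.sum_eq_zero, sub_zero]
  intro c _
  rw [map_sum]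
  refine Finset.sum_eq_zero fun e _ => ?_
  rw [map_mul, map_mul, map_sub, hg2, PowerSeries.constantCoeff_C, PowerSeries.constantCoeff_C,
    sub_self, mul_zero, zero_mul]

include hG1 hG2 hH1 hH2 in
lemma fgE_sub_mem {k : ℕ} (hk : ∀ a b, G1 a b - G2 a b ∈ OI A (k + 1)) (a b : Fin n) :
    fgE (fun i => D i) G1 H1 a b - fgE (fun i => D i) G2 H2 a b ∈ OI A k := by
  have h1 := OI_mono (Nat.le_succ k) (fgE_sub_aux D hG1 hG2 hH1 hH2 hk a b)
  have h2 : ((2 : ℝ) • (PowerSeries.X * dr (dr (G1 a b - G2 a b))) - ((n : ℝ) - 2) • dr (G1 a b - G2 a b)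
        - (∑ c, ∑ e, H2 c e * dr (G1 c e - G2 c e)) * G2 a b) ∈ OI A k := by
    refine Ideal.sub_mem _ (Ideal.sub_mem _ (OI_smul _ (OI_X_dr (OI_dr (hk a b))))
      (OI_smul _ (OI_dr (hk a b)))) (Ideal.mul_mem_right _ _ ?_)
    exact Ideal.sum_mem _ fun c _ => Ideal.sum_mem _ fun e _ => Ideal.mul_mem_left _ _ (OI_dr (hk c e))
  have h3 := Ideal.add_mem _ h1 h2
  rwa [sub_add_cancel] at h3

include hG1 hG2 hH1 hH2 hg hgi hg2 in
/-- how the coefficients of the Fefferman-Graham expression change -/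
lemma coeff_fgE_sub {k : ℕ} (hk : ∀ a b, G1 a b - G2 a b ∈ OI A (k + 1)) (a b : Fin n) :
    PowerSeries.coeff k (fgE (fun i => D i) G1 H1 a b) -
      PowerSeries.coeff k (fgE (fun i => D i) G2 H2 a b) =
    (((k : ℝ) + 1) * (2 * (k : ℝ) + 2 - n)) • PowerSeries.coeff (k + 1) (G1 a b - G2 a b) -
      ((k : ℝ) + 1) • ((∑ c, ∑ e, gi c e * PowerSeries.coeff (k + 1) (G1 c e - G2 c e)) * g a b) := by
  have h1 := mem_OI.1 (fgE_sub_aux D hG1 hG2 hH1 hH2 hk a b) k (Nat.lt_succ_self k)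
  have hs : (∑ c, ∑ e, H2 c e * dr (G1 c e - G2 c e)) ∈ OI A k :=
    Ideal.sum_mem _ fun c _ => Ideal.sum_mem _ fun e _ => Ideal.mul_mem_left _ _ (OI_dr (hk c e))
  rw [map_sub, map_sub, sub_eq_zero] at h1
  rw [h1, map_sub, map_sub, coeff_smul_ps, coeff_smul_ps, coeff_X_dr, coeff_dr,
    coeff_mul_OI hs, hg2, map_sum]
  have h2 : ∀ c, PowerSeries.coeff k (∑ e, H2 c e * dr (G1 c e - G2 c e)) =
      ((k : ℝ) + 1) • ∑ e, gi c e * PowerSeries.coeff (k + 1) (G1 c e - G2 c e) := by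
    intro c
    rw [map_sum, Finset.smul_sum]
    refine Finset.sum_congr rfl fun e _ => ?_
    rw [mul_comm (H2 c e), coeff_mul_OI (OI_dr (hk c e)), inv_cc hG2 hH2 hg hgi hg2, coeff_dr]
    simp only [Algebra.smul_def]
    ring
  simp only [h2, ← Finset.smul_sum]
  simp only [Algebra.smul_def, map_mul, map_add, map_sub, map_ofNat, map_natCast, map_one]
  ring

end two

lemma fg_real_aux (x y z m : ℝ) (hx : x ≠ 0) (hy : y ≠ 0) (hz : z ≠ 0) (h : y = z + m) :
    x * (-(1 / (x * y)) * (1 + 1 / z * m)) = -(1 / z) := by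
  have h1 : 1 + 1 / z * m = y / z := by
    rw [h]; field_simp
  rw [h1]
  field_simp

section fg

variable (hD : ∀ i j x, D i (D j x) = D j (D i x)) (g gi : Fin n → Fin n → A)
  (hg : ∀ a b, g a b = g b a) (hgi : ∀ a b, ∑ c, gi a c * g b c = if a = b then 1 else 0)

include hgi in
lemma tr_g : ∑ c, ∑ e, gi c e * g c e = (n : A) := by
  have h1 : ∀ c, ∑ e, gi c e * g c e = 1 := by
    intro c
    rw [hgi c c, if_pos rfl]
  rw [Finset.sum_congr rfl fun c _ => h1 c]
  simp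

include hD hg hgi in
/-- the Fefferman-Graham equation holds to the order `j` -/
theorem fgG_solves (j : ℕ) (hj : 2 * j + 2 ≤ n) (a b : Fin n) :
    fgE (fun i => D i) (fgG (fun i => D i) g gi j) (invS g gi (fgG (fun i => D i) g gi j)) a b
      ∈ OI A j := by
  induction j generalizing a b with
  | zero => exact OI_zero _
  | succ j ih =>
    set G2 := fgG (fun i => D i) g gi j with hG2d
    set H2 := invS g gi G2 with hH2d
    set G1 := fgG (fun i => D i) g gi (j + 1) with hG1d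
    set H1 := invS g gi G1 with hH1d
    have hG2 := fgG_symm D hD g gi hg hgi j
    have hG1 := fgG_symm D hD g gi hg hgi (j + 1)
    have hH2 := fgG_inv D hD g gi hg hgi j
    have hH1 := fgG_inv D hD g gi hg hgi (j + 1)
    rw [← hG2d, ← hH2d] at hH2
    rw [← hG1d, ← hH1d] at hH1
    rw [← hG2d] at hG2
    rw [← hG1d] at hG1
    -- the difference
    have hdiff : ∀ a b, G1 a b - G2 a b = PowerSeries.X ^ (j + 1) * PowerSeries.C
      ((-(1 / (((j : ℝ) + 1) * (2 * (j : ℝ) + 2 - n)))) •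
        (PowerSeries.coeff j (fgE (fun i => D i) G2 H2 a b)
        + (1 / (2 * (j : ℝ) + 2 - 2 * n)) • ((∑ c, ∑ e, gi c e *
          PowerSeries.coeff j (fgE (fun i => D i) G2 H2 c e)) * g a b))) := by
      intro a b
      rw [hG1d]
      show G2 a b + _ - G2 a b = _
      rw [add_sub_cancel_left]
    have hk : ∀ a b, G1 a b - G2 a b ∈ OI A (j + 1) := by
      intro a b
      rw [hdiff]
      exact OI_X_pow_mul _ _
    have hco : ∀ a b, PowerSeries.coeff (j + 1) (G1 a b - G2 a b) =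
      ((-(1 / (((j : ℝ) + 1) * (2 * (j : ℝ) + 2 - n)))) •
        (PowerSeries.coeff j (fgE (fun i => D i) G2 H2 a b)
        + (1 / (2 * (j : ℝ) + 2 - 2 * n)) • ((∑ c, ∑ e, gi c e *
          PowerSeries.coeff j (fgE (fun i => D i) G2 H2 c e)) * g a b))) := by
      intro a b
      rw [hdiff, PowerSeries.coeff_X_pow_mul', if_pos le_rfl, Nat.sub_self,
        PowerSeries.coeff_zero_eq_constantCoeff_apply, PowerSeries.constantCoeff_C]
    have hg2 : ∀ a b, PowerSeries.constantCoeff (G2 a b) = g a b := fgG_cc _ g gi j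
    refine OI_succ ?_ ?_
    · have h1 := fgE_sub_mem D hG1 hG2 hH1 hH2 hk a b
      have h2 := Ideal.add_mem _ h1 (ih (by omega) a b)
      rwa [sub_add_cancel] at h2
    · have h1 := coeff_fgE_sub D hG1 hG2 hH1 hH2 hg hgi hg2 hk a b
      rw [sub_eq_iff_eq_add] at h1
      rw [h1]
      simp only [hco]
      set φ : Fin n → Fin n → A := fun a b => PowerSeries.coeff j (fgE (fun i => D i) G2 H2 a b) with hφ
      have hφ' : ∀ a b, PowerSeries.coeff j (fgE (fun i => D i) G2 H2 a b) = φ a b := fun a b => rfl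
      simp only [hφ']
      set t : A := ∑ c, ∑ e, gi c e * φ c e with ht
      have hj1 : ((j : ℝ) + 1) ≠ 0 := by positivity
      have hn1 : 2 * (j : ℝ) + 2 + 2 ≤ (n : ℝ) := by
        have : 2 * j + 2 + 2 ≤ n := by omega
        exact_mod_cast this
      have hj2 : (2 * (j : ℝ) + 2 - n) ≠ 0 := by intro h; linarith
      have hj0 : (0 : ℝ) ≤ j := Nat.cast_nonneg j
      have hj3 : (2 * (j : ℝ) + 2 - 2 * n) ≠ 0 := by
        intro h
        linarith
      have htr : ∑ c, ∑ e, gi c e * ((-(1 / (((j : ℝ) + 1) * (2 * (j : ℝ) + 2 - n)))) •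
          (φ c e + (1 / (2 * (j : ℝ) + 2 - 2 * n)) • (t * g c e))) =
          (-(1 / (((j : ℝ) + 1) * (2 * (j : ℝ) + 2 - n)))) •
          (t + (1 / (2 * (j : ℝ) + 2 - 2 * n)) • (t * (n : A))) := by
        rw [← tr_g g gi hgi]
        simp only [mul_smul_comm, ← Finset.smul_sum, mul_add, Finset.sum_add_distrib]
        congr 3
        simp only [Finset.mul_sum]
        exact Finset.sum_congr rfl fun c _ => Finset.sum_congr rfl fun e _ => by ring
      rw [htr]
      have e1 : t * (n : A) = (n : ℝ) • t := by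
        rw [Algebra.smul_def, map_natCast, mul_comm]
      rw [e1]
      have e2 : (((j : ℝ) + 1) * (2 * (j : ℝ) + 2 - n)) •
          ((-(1 / (((j : ℝ) + 1) * (2 * (j : ℝ) + 2 - n)))) •
          (φ a b + (1 / (2 * (j : ℝ) + 2 - 2 * n)) • (t * g a b))) =
          -(φ a b + (1 / (2 * (j : ℝ) + 2 - 2 * n)) • (t * g a b)) := by
        rw [smul_smul]
        have : (((j : ℝ) + 1) * (2 * (j : ℝ) + 2 - n)) *
          (-(1 / (((j : ℝ) + 1) * (2 * (j : ℝ) + 2 - n)))) = -1 := by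
          rw [mul_neg, mul_one_div_cancel (mul_ne_zero hj1 hj2)]
        rw [this, neg_one_smul]
      have e3 : ((j : ℝ) + 1) • (((-(1 / (((j : ℝ) + 1) * (2 * (j : ℝ) + 2 - n)))) •
          (t + (1 / (2 * (j : ℝ) + 2 - 2 * n)) • ((n : ℝ) • t))) * g a b) =
          -((1 / (2 * (j : ℝ) + 2 - 2 * n)) • (t * g a b)) := by
        have h4 : t + (1 / (2 * (j : ℝ) + 2 - 2 * n)) • ((n : ℝ) • t) =
            (1 + (1 / (2 * (j : ℝ) + 2 - 2 * n)) * n) • t := by
          rw [add_smul, one_smul, smul_smul]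
        rw [h4, smul_smul, smul_mul_assoc, smul_smul, ← neg_smul]
        congr 1
        exact fg_real_aux _ _ _ _ hj1 hj2 hj3 (by ring)
      rw [e2, e3]
      ring

variable {g gi}

include hg hgi in
/-- uniqueness of the solution of the Fefferman-Graham equation -/
theorem fg_unique {G1 H1 G2 H2 : Fin n → Fin n → PowerSeries A}
    (hG1 : ∀ a b, G1 a b = G1 b a) (hG2 : ∀ a b, G2 a b = G2 b a)
    (hH1 : ∀ a b, ∑ c, H1 a c * G1 b c = if a = b then 1 else 0)
    (hH2 : ∀ a b, ∑ c, H2 a c * G2 b c = if a = b then 1 else 0)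
    (hg1 : ∀ a b, PowerSeries.constantCoeff (G1 a b) = g a b)
    (hg2 : ∀ a b, PowerSeries.constantCoeff (G2 a b) = g a b) {M : ℕ} (hM : 2 * M + 2 ≤ n)
    (hF1 : ∀ a b, fgE (fun i => D i) G1 H1 a b ∈ OI A M)
    (hF2 : ∀ a b, fgE (fun i => D i) G2 H2 a b ∈ OI A M) (j : ℕ) (hj : j ≤ M) :
    ∀ a b, G1 a b - G2 a b ∈ OI A (j + 1) := by
  induction j with
  | zero =>
    intro a b
    refine OI_succ (OI_zero _) ?_
    rw [PowerSeries.coeff_zero_eq_constantCoeff_apply, map_sub, hg1, hg2, sub_self]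
  | succ j ih =>
    have hk := ih (by omega)
    set h : Fin n → Fin n → A := fun a b => PowerSeries.coeff (j + 1) (G1 a b - G2 a b) with hh
    have h1 : ∀ a b, (((j : ℝ) + 1) * (2 * (j : ℝ) + 2 - n)) • h a b -
        ((j : ℝ) + 1) • ((∑ c, ∑ e, gi c e * h c e) * g a b) = 0 := by
      intro a b
      have h2 := coeff_fgE_sub D hG1 hG2 hH1 hH2 hg hgi hg2 hk a b
      rw [mem_OI.1 (hF1 a b) j (by omega), mem_OI.1 (hF2 a b) j (by omega), sub_zero] at h2
      exact h2.symm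
    have hj1 : ((j : ℝ) + 1) ≠ 0 := by positivity
    have hn1 : 2 * (j : ℝ) + 2 + 2 ≤ (n : ℝ) := by
      have : 2 * j + 2 + 2 ≤ n := by omega
      exact_mod_cast this
    have hj2 : (2 * (j : ℝ) + 2 - n) ≠ 0 := by intro h; linarith
    have hj0 : (0 : ℝ) ≤ j := Nat.cast_nonneg j
    have hj3 : (2 * (j : ℝ) + 2 - 2 * n) ≠ 0 := by
      intro h
      linarith
    set t : A := ∑ c, ∑ e, gi c e * h c e with ht
    have h3 : (((j : ℝ) + 1) * (2 * (j : ℝ) + 2 - 2 * n)) • t = 0 := by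
      have h4 : ∑ a, ∑ b, gi a b * ((((j : ℝ) + 1) * (2 * (j : ℝ) + 2 - n)) • h a b -
          ((j : ℝ) + 1) • (t * g a b)) = 0 :=
        Finset.sum_eq_zero fun a _ => Finset.sum_eq_zero fun b _ => by rw [h1, mul_zero]
      simp only [mul_sub, mul_smul_comm, Finset.sum_sub_distrib, ← Finset.smul_sum] at h4
      rw [← ht] at h4
      have h5 : ∑ a, ∑ b, gi a b * (t * g a b) = (n : ℝ) • t := by
        rw [Algebra.smul_def, map_natCast, ← tr_g g gi hgi]
        simp only [Finset.sum_mul]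
        exact Finset.sum_congr rfl fun c _ => Finset.sum_congr rfl fun e _ => by ring
      rw [h5, smul_smul, ← sub_smul] at h4
      rw [← h4]
      congr 1
      ring
    have ht0 : t = 0 := by
      have h6 := congrArg (fun x => (((j : ℝ) + 1) * (2 * (j : ℝ) + 2 - 2 * n))⁻¹ • x) h3
      simp only [smul_smul, smul_zero] at h6
      rwa [inv_mul_cancel₀ (mul_ne_zero hj1 hj3), one_smul] at h6
    intro a b
    refine OI_succ (hk a b) ?_
    have h7 := h1 a b
    rw [ht0, zero_mul, smul_zero, sub_zero] at h7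
    have h6 := congrArg (fun x => (((j : ℝ) + 1) * (2 * (j : ℝ) + 2 - n))⁻¹ • x) h7
    simp only [smul_smul, smul_zero] at h6
    rwa [inv_mul_cancel₀ (mul_ne_zero hj1 hj2), one_smul] at h6

end fg

section trunc

variable {G1 H1 G2 H2 : Fin n → Fin n → PowerSeries A}

lemma Ls_sub_mem {m k : ℕ} (hk : k + 1 ≤ m) (hG : ∀ a b, G1 a b - G2 a b ∈ OI A m)
    (hH : ∀ a b, H1 a b - H2 a b ∈ OI A m) (s : ℝ) {φ1 φ2 : PowerSeries A}
    (hφ : φ1 - φ2 ∈ OI A (k + 1)) :
    Ls (fun i => D i) G1 H1 s φ1 - Ls (fun i => D i) G2 H2 s φ2 ∈ OI A k := by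
  have hkk := relOI D k
  have hτ : tau G1 H1 - tau G2 H2 ∈ OI A k :=
    tau_sub_mem (fun a b => OI_mono hk (hG a b)) (fun a b => OI_mono hk (hH a b))
  have hdφ : dr φ1 - dr φ2 ∈ OI A k := by
    rw [← dr_sub]; exact OI_dr hφ
  have hddφ : PowerSeries.X * dr (dr φ1) - PowerSeries.X * dr (dr φ2) ∈ OI A k := by
    rw [← mul_sub, ← dr_sub]
    exact OI_X_dr hdφ
  have hφ' : φ1 - φ2 ∈ OI A k := OI_mono (Nat.le_succ k) hφ
  have hneg : ∀ {a b : PowerSeries A}, a - b ∈ OI A k → -a - -b ∈ OI A k := by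
    intro a b h
    rw [show -a - -b = -(a - b) by ring]
    exact neg_mem h
  unfold Ls
  refine hkk.add (hkk.add (hkk.sub (hkk.add (hneg (hkk.smul _ hddφ)) (hkk.smul _ hdφ))
    (hkk.mul (hkk.mul (OI_self _ _) hτ) hdφ)) (hkk.smul _ (hkk.mul hτ hφ'))) ?_
  exact hkk.lap (fun a b => OI_mono (by omega) (hG a b)) (fun a b => OI_mono (by omega) (hH a b)) hφ'

lemma Ls_zero_C (G H : Fin n → Fin n → PowerSeries A) (f : A) :
    Ls (fun i => D i) G H 0 (PowerSeries.C f) = lap (fun i => psd (D i)) G H (PowerSeries.C f) := by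
  unfold Ls
  have h1 : dr (PowerSeries.C f) = 0 := by
    ext m
    rw [coeff_dr, PowerSeries.coeff_C, if_neg (Nat.succ_ne_zero m), smul_zero, map_zero]
  have h2 : dr (0 : PowerSeries A) = 0 := (drD A).map_zero
  rw [h1, h2]
  simp

lemma Lchain_sub_mem {m : ℕ} (hG : ∀ a b, G1 a b - G2 a b ∈ OI A m)
    (hH : ∀ a b, H1 a b - H2 a b ∈ OI A m) (f : A) (l : ℕ) (hl : l + 1 ≤ m) :
    Lchain (fun i => D i) G1 H1 (PowerSeries.C f) (l + 1) -
      Lchain (fun i => D i) G2 H2 (PowerSeries.C f) (l + 1) ∈ OI A (m - l) := by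
  induction l with
  | zero =>
    show Ls (fun i => D i) G1 H1 (-(2 * ((0 : ℕ) : ℝ))) (PowerSeries.C f) -
      Ls (fun i => D i) G2 H2 (-(2 * ((0 : ℕ) : ℝ))) (PowerSeries.C f) ∈ OI A m
    rw [Nat.cast_zero, mul_zero, neg_zero, Ls_zero_C, Ls_zero_C]
    exact (relOI D m).lap hG hH (OI_self _ _)
  | succ l ih =>
    have h1 := ih (by omega)
    have h2 : m - l = (m - (l + 1)) + 1 := by omega
    rw [h2] at h1
    exact Ls_sub_mem D (by omega) hG hH _ h1

lemma Lchain_cc {m : ℕ} (hm : 1 ≤ m) (hG : ∀ a b, G1 a b - G2 a b ∈ OI A m)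
    (hH : ∀ a b, H1 a b - H2 a b ∈ OI A m) (f : A) :
    PowerSeries.constantCoeff (Lchain (fun i => D i) G1 H1 (PowerSeries.C f) m) =
      PowerSeries.constantCoeff (Lchain (fun i => D i) G2 H2 (PowerSeries.C f) m) := by
  obtain ⟨l, rfl⟩ : ∃ l, m = l + 1 := ⟨m - 1, by omega⟩
  have h1 := Lchain_sub_mem D hG hH f l le_rfl
  have h2 := mem_OI.1 h1 0 (by omega)
  rw [map_sub, sub_eq_zero, PowerSeries.coeff_zero_eq_constantCoeff_apply,
    PowerSeries.coeff_zero_eq_constantCoeff_apply] at h2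
  exact h2

end trunc

end

end GJMS
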