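import Pool.Agent.GJMS.PS
import Pool.Agent.GJMS.PnRel

/-! # The operator `P_n` is linear, and it is a power of the Laplacian for Ricci flat metrics -/

open Finset

namespace GJMS

noncomputable section

variable {n : ℕ} {A : Type} [CommRing A] [Algebra ℝ A]

/-! ### linearity -/

lemma nabF_lin (D : Fin n → Derivation ℝ A A) (g gi : Fin n → Fin n → A) (f t : A)
    (ht : ∀ i, D i t = 0) (k : ℕ) : ∀ w, nabF (fun i => D i) g gi (t * f) k w
      = t * nabF (fun i => D i) g gi f k w := by
  induction k with
  | zero => exact fun _ => rfl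
  | succ k ih =>
    intro w
    show nab _ _ _ w = t * nab _ _ _ w
    unfold nab
    rw [ih]
    show D (w 0) (t * nabF _ g gi f k _) - _ = t * (D (w 0) _ - _)
    rw [Derivation.leibniz, ht, smul_zero, add_zero, smul_eq_mul, mul_sub, Finset.mul_sum]
    congr 1
    refine Finset.sum_congr rfl fun s _ => ?_
    rw [Finset.mul_sum]
    refine Finset.sum_congr rfl fun c _ => ?_
    rw [ih]; ring

lemma lap_lin (D : Fin n → Derivation ℝ A A) (g gi : Fin n → Fin n → A) (f t : A)
    (ht : ∀ i, D i t = 0) : lap (fun i => D i) g gi (t * f) = t * lap (fun i => D i) g gi f := by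
  unfold lap
  rw [Finset.mul_sum]
  refine Finset.sum_congr rfl fun a _ => ?_
  rw [Finset.mul_sum]
  refine Finset.sum_congr rfl fun b _ => ?_
  rw [nabF_lin D g gi f t ht]; ring

/-- powers of the Laplacian are linear -/
theorem lapPow_lin (D : Fin n → Derivation ℝ A A) (g gi : Fin n → Fin n → A) (t : A)
    (ht : ∀ i, D i t = 0) (m : ℕ) : ∀ f : A,
      (lap (fun i => D i) g gi)^[m] (t * f) = t * (lap (fun i => D i) g gi)^[m] f := by
  induction m with
  | zero => exact fun _ => rfl
  | succ m ih =>
    intro f
    rw [Function.iterate_succ_apply, Function.iterate_succ_apply, lap_lin D g gi f t ht, ih]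

/-- complete contractions are linear in the function -/
theorem Contr.eval_lin (C : Contr) (D : Fin n → Derivation ℝ A A) (g gi : Fin n → Fin n → A)
    (f t : A) (ht : ∀ i, D i t = 0) :
    C.eval (fun i => D i) g gi (t * f) = t * C.eval (fun i => D i) g gi f := by
  unfold Contr.eval
  rw [Finset.mul_sum]
  refine Finset.sum_congr rfl fun w _ => ?_
  rw [nabF_lin D g gi f t ht]; ring

/-- linear combinations of complete contractions are linear in the function -/
theorem opEval_lin (L : List (ℝ × Contr)) (D : Fin n → Derivation ℝ A A)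
    (g gi : Fin n → Fin n → A) (f t : A) (ht : ∀ i, D i t = 0) :
    opEval L (fun i => D i) g gi (t * f) = t * opEval L (fun i => D i) g gi f := by
  unfold opEval
  induction L with
  | nil => simp
  | cons x L ih =>
    rw [List.map_cons, List.map_cons, List.sum_cons, List.sum_cons, ih, mul_add,
      x.2.eval_lin D g gi f t ht, mul_smul_comm]

lemma dr_C_mul (t : A) (F : PowerSeries A) :
    dr (PowerSeries.C t * F) = PowerSeries.C t * dr F := by
  ext m
  rw [coeff_dr, PowerSeries.coeff_C_mul, PowerSeries.coeff_C_mul, coeff_dr, mul_smul_comm]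

lemma Ls_lin (D : Fin n → Derivation ℝ A A) (G H : Fin n → Fin n → PowerSeries A) (s : ℝ) (t : A)
    (ht : ∀ i, D i t = 0) (φ : PowerSeries A) :
    Ls (fun i => D i) G H s (PowerSeries.C t * φ) = PowerSeries.C t * Ls (fun i => D i) G H s φ := by
  have h1 : lap (fun i => psd (D i)) G H (PowerSeries.C t * φ)
      = PowerSeries.C t * lap (fun i => psd (D i)) G H φ :=
    lap_lin (fun i => psD (D i)) G H φ (PowerSeries.C t) (fun i => by
      rw [psD_C, ht, map_zero])
  unfold Ls
  rw [dr_C_mul, dr_C_mul, h1]
  simp only [Algebra.smul_def]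
  ring

lemma Lchain_lin (D : Fin n → Derivation ℝ A A) (G H : Fin n → Fin n → PowerSeries A) (t : A)
    (ht : ∀ i, D i t = 0) (φ : PowerSeries A) (l : ℕ) :
    Lchain (fun i => D i) G H (PowerSeries.C t * φ) l
      = PowerSeries.C t * Lchain (fun i => D i) G H φ l := by
  induction l with
  | zero => rfl
  | succ l ih =>
    show Ls _ _ _ _ (Lchain _ _ _ _ l) = PowerSeries.C t * Ls _ _ _ _ (Lchain _ _ _ _ l)
    rw [ih, Ls_lin D G H _ t ht]

/-- the operator `P_n` is linear -/
theorem Pn_lin (D : Fin n → Derivation ℝ A A) (g gi : Fin n → Fin n → A) (f t : A)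
    (ht : ∀ i, D i t = 0) :
    Pn n A (fun i => D i) g gi (t * f) = t * Pn n A (fun i => D i) g gi f := by
  unfold Pn
  rw [map_mul, Lchain_lin D _ _ t ht, map_mul, PowerSeries.constantCoeff_C]

/-! ### Ricci flat metrics -/

/-- constants as an algebra homomorphism -/
def CA (A : Type) [CommRing A] [Algebra ℝ A] : A →ₐ[ℝ] PowerSeries A where
  toRingHom := PowerSeries.C
  commutes' r := by
    show PowerSeries.C (algebraMap ℝ A r) = _
    rw [PowerSeries.algebraMap_apply]

lemma CA_apply (a : A) : CA A a = PowerSeries.C a := rfl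

/-- constant power series -/
lemma relC (D : Fin n → Derivation ℝ A A) :
    RelOK (fun i => D i) (fun i => psD (D i)) (fun a b => CA A a = b) :=
  relOK_hom _ _ (CA A) (fun i a => by rw [CA_apply, CA_apply, psD_C])

lemma dr_C (a : A) : dr (PowerSeries.C a) = 0 := by
  ext m
  rw [coeff_dr, PowerSeries.coeff_C, if_neg (Nat.succ_ne_zero m), smul_zero, map_zero]

lemma tau_C (g : Fin n → Fin n → A) (H : Fin n → Fin n → PowerSeries A) :
    tau (fun a b => PowerSeries.C (g a b)) H = 0 := by
  unfold tau
  exact Finset.sum_eq_zero fun a _ => Finset.sum_eq_zero fun b _ => by rw [dr_C, mul_zero]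

omit [Algebra ℝ A] in
lemma invS_C (g gi : Fin n → Fin n → A) :
    invS g gi (fun a b => PowerSeries.C (g a b)) = fun a b => PowerSeries.C (gi a b) := by
  have h : ∀ l a b, invA g gi (fun a b => PowerSeries.C (g a b)) l a b = PowerSeries.C (gi a b) := by
    intro l a b
    cases l with
    | zero => rfl
    | succ l =>
      show _ - _ = _
      rw [sub_eq_self]
      exact Finset.sum_eq_zero fun c _ => Finset.sum_eq_zero fun e _ => by ring
  funext a b
  ext m
  rw [coeff_invS, h]

lemma fgE_flat (D : Fin n → Derivation ℝ A A) (g gi : Fin n → Fin n → A)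
    (hric : ∀ a b, ric (fun i => D i) (chr (fun i => D i) g gi) a b = 0) (a b : Fin n) :
    fgE (fun i => D i) (fun a b => PowerSeries.C (g a b)) (fun a b => PowerSeries.C (gi a b)) a b
      = 0 := by
  have h1 : ric (fun i => psd (D i)) (chr (fun i => psd (D i)) (fun a b => PowerSeries.C (g a b))
      (fun a b => PowerSeries.C (gi a b))) a b = 0 := by
    have h2 := (relC D).ric ((relC D).chr (g := g) (gi := gi)
      (g' := fun a b => PowerSeries.C (g a b)) (gi' := fun a b => PowerSeries.C (gi a b))
      (fun _ _ => rfl) (fun _ _ => rfl)) a b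
    have h3 : ric (fun i => psd (D i)) (chr (fun i => psd (D i)) (fun a b => PowerSeries.C (g a b))
      (fun a b => PowerSeries.C (gi a b))) a b
      = CA A (ric (fun i => D i) (chr (fun i => D i) g gi) a b) := h2.symm
    rw [h3, hric, map_zero]
  unfold fgE
  rw [tau_C, h1]
  simp only [dr_C]
  have h0 : dr (0 : PowerSeries A) = 0 := by
    have := dr_C (0 : A)
    rwa [map_zero] at this
  rw [h0]
  simp

/-- if the Ricci curvature vanishes then the ambient metric is constant -/
lemma fgG_flat (D : Fin n → Derivation ℝ A A) (g gi : Fin n → Fin n → A)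
    (hric : ∀ a b, ric (fun i => D i) (chr (fun i => D i) g gi) a b = 0) (j : ℕ) :
    fgG (fun i => D i) g gi j = fun a b => PowerSeries.C (g a b) := by
  induction j with
  | zero => rfl
  | succ j ih =>
    funext a b
    show _ + _ = _
    rw [ih, invS_C]
    simp only [fgE_flat D g gi hric]
    simp

lemma Ls_flat (D : Fin n → Derivation ℝ A A) (g gi : Fin n → Fin n → A) (s : ℝ) (f : A) :
    Ls (fun i => D i) (fun a b => PowerSeries.C (g a b)) (fun a b => PowerSeries.C (gi a b)) s
      (PowerSeries.C f) = PowerSeries.C (lap (fun i => D i) g gi f) := by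
  have h1 : lap (fun i => psd (D i)) (fun a b => PowerSeries.C (g a b))
      (fun a b => PowerSeries.C (gi a b)) (PowerSeries.C f) = CA A (lap (fun i => D i) g gi f) :=
    ((relC D).lap (g := g) (gi := gi)
      (g' := fun a b => PowerSeries.C (g a b)) (gi' := fun a b => PowerSeries.C (gi a b))
      (fun _ _ => rfl) (fun _ _ => rfl) (f := f) rfl).symm
  have h0 : dr (0 : PowerSeries A) = 0 := by
    have := dr_C (0 : A)
    rwa [map_zero] at this
  unfold Ls
  rw [h1, tau_C, dr_C, h0, CA_apply]
  simp

lemma Lchain_flat (D : Fin n → Derivation ℝ A A) (g gi : Fin n → Fin n → A) (f : A) (l : ℕ) :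
    Lchain (fun i => D i) (fun a b => PowerSeries.C (g a b)) (fun a b => PowerSeries.C (gi a b))
      (PowerSeries.C f) l = PowerSeries.C ((lap (fun i => D i) g gi)^[l] f) := by
  induction l with
  | zero => rfl
  | succ l ih =>
    show Ls _ _ _ _ (Lchain _ _ _ _ l) = _
    rw [ih, Ls_flat, Function.iterate_succ_apply']

/-- for Ricci flat metrics the operator `P_n` is the `n/2`-th power of the Laplacian -/
theorem Pn_flat (D : Fin n → Derivation ℝ A A) (g gi : Fin n → Fin n → A)
    (hric : ∀ a b, ric (fun i => D i) (chr (fun i => D i) g gi) a b = 0) (f : A) :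
    Pn n A (fun i => D i) g gi f = (lap (fun i => D i) g gi)^[n / 2] f := by
  unfold Pn
  rw [fgG_flat D g gi hric, invS_C, Lchain_flat, PowerSeries.constantCoeff_C]

end

end GJMS
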