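import Mathlib
import Pool.Agent.GJMS.PnCoef
import Pool.Agent.GJMS.PnLin

/-!
# Infinitesimal conformal invariance of the critical GJMS operator
-/

open Finset

set_option linter.unusedSectionVars false
set_option linter.unusedSimpArgs false

namespace GJMS

noncomputable section

variable {n : ℕ} {A : Type} [CommRing A] [Algebra ℝ A]

/-- the antiderivative, divided by `ρ` -/
def adr (W : PowerSeries A) : PowerSeries A :=
  PowerSeries.mk (fun k => (1 / ((k : ℝ) + 1)) • PowerSeries.coeff k W)

lemma coeff_adr (W : PowerSeries A) (k : ℕ) :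
    PowerSeries.coeff k (adr W) = (1 / ((k : ℝ) + 1)) • PowerSeries.coeff k W := by
  unfold adr
  rw [PowerSeries.coeff_mk]

lemma dr_adr (W : PowerSeries A) : dr (PowerSeries.X * adr W) = W := by
  ext k
  rw [coeff_dr, PowerSeries.coeff_succ_X_mul, coeff_adr, smul_smul]
  have : ((k : ℝ) + 1) ≠ 0 := by positivity
  rw [mul_one_div_cancel this, one_smul]

lemma psD_adr (E : Derivation ℝ A A) {W : PowerSeries A} (hW : psD E W = 0) :
    psD E (adr W) = 0 := by
  ext k
  rw [coeff_psD, coeff_adr, Derivation.map_smul, ← coeff_psD, hW]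
  simp

lemma adr_mem (N : Ideal A) {W : PowerSeries A} (hW : W ∈ psI N) : adr W ∈ psI N := by
  intro k
  rw [coeff_adr, Algebra.smul_def]
  exact N.mul_mem_left _ (hW k)

lemma psI_dr (N : Ideal A) {F : PowerSeries A} (hF : F ∈ psI N) : dr F ∈ psI N := by
  intro k
  rw [coeff_dr, Algebra.smul_def]
  exact N.mul_mem_left _ (hF _)

section aux

variable {E : Derivation ℝ A A} {D : Fin n → Derivation ℝ A A}
  (hD : ∀ i j x, D i (D j x) = D j (D i x)) (hED : ∀ i x, E (D i x) = D i (E x))
  {T0 Ti0 : A} (hT : T0 * Ti0 = 1) (hE : E T0 = T0 + T0) (hDT : ∀ i, D i T0 = 0)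

include hD hED hT hE hDT in
lemma fgG_E {g gi : Fin n → Fin n → A} (hg : ∀ a b, g a b = g b a)
    (hgi : ∀ a b, ∑ c, gi a c * g b c = if a = b then 1 else 0)
    (hEg : ∀ a b, E (g a b) = 0) (hEgi : ∀ a b, E (gi a b) = 0) (j : ℕ) :
    ∀ a b, psD E (fgG (fun i => D i) g gi j a b) = 0 := by
  induction j with
  | zero =>
    intro a b
    show psD E (PowerSeries.C (g a b)) = 0
    rw [psD_C, hEg, map_zero]
  | succ j ih =>
    intro a b
    have hA := pD_sys hD hED hT hE hDT
    have hGs := fgG_symm D hD g gi hg hgi j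
    have hHi := fgG_inv D hD g gi hg hgi j
    have h1 : ∀ c e, E (PowerSeries.coeff j (fgE (fun i => D i) (fgG (fun i => D i) g gi j)
        (invS g gi (fgG (fun i => D i) g gi j)) c e)) = 0 := by
      intro c e
      have h2 := D0_aR hA hGs hHi ih c.succ.succ e.succ.succ
      rw [aR_ee hA hGs hHi ih, Derivation.map_smul, fER_eq, pD_0] at h2
      have h3 := congrArg (fun x => (2 : ℝ) • x) h2
      simp only [smul_smul, smul_zero] at h3
      rw [show (2 : ℝ) * (1 / 2) = 1 by norm_num, one_smul] at h3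
      rw [← coeff_psD, h3, map_zero]
    have hX : psD E ((PowerSeries.X : PowerSeries A) ^ (j + 1)) = 0 := by
      rw [Derivation.leibniz_pow, psD_X]; simp
    show psD E (fgG (fun i => D i) g gi j a b + _) = 0
    rw [map_add, ih a b, zero_add, Derivation.leibniz, hX, psD_C]
    simp only [Derivation.map_smul, map_add, Derivation.leibniz, map_sum, h1, hEg, hEgi]
    simp

include hD hED hT hE hDT in
theorem Pn_confInf_aux (m : ℕ) (hm : n = 2 * m) (hm1 : 1 ≤ m) (N : Ideal A)
    (hN : ∀ x ∈ N, ∀ y ∈ N, x * y = 0) (hDN : ∀ i, ∀ x ∈ N, D i x ∈ N)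
    (hEN : ∀ x ∈ N, E x ∈ N) (σ : A) (hσ : σ ∈ N) (hEσ : E σ = 0)
    (g gi : Fin n → Fin n → A) (hg : ∀ a b, g a b = g b a)
    (hgi : ∀ a b, ∑ c, gi a c * g b c = if a = b then 1 else 0)
    (hEg : ∀ a b, E (g a b) = 0) (hEgi : ∀ a b, E (gi a b) = 0) (f : A) (hEf : E f = 0) :
    Pn n A (fun i => D i) (fun a b => (1 + 2 * σ) * g a b) (fun a b => (1 - 2 * σ) * gi a b) f =
      (1 - n * σ) * Pn n A (fun i => D i) g gi f := by
  have hA := pD_sys hD hED hT hE hDT
  have hn2 : n / 2 = m := by omega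
  -- the Fefferman-Graham metric of g
  set G := fgG (fun i => D i) g gi (m - 1) with hGd
  set H := invS g gi G with hHd
  have hG : ∀ a b, G a b = G b a := fgG_symm D hD g gi hg hgi (m - 1)
  have hH : ∀ a b, ∑ c, H a c * G b c = if a = b then 1 else 0 := fgG_inv D hD g gi hg hgi (m - 1)
  have hG0 : ∀ a b, pD E D 0 (G a b) = 0 := fgG_E hD hED hT hE hDT hg hgi hEg hEgi (m - 1)
  have hF : ∀ a b, fgE (fun i => D i) G H a b ∈ OI A (m - 1) :=
    fgG_solves D hD g gi hg hgi (m - 1) (by omega)
  have hGc : ∀ a b, PowerSeries.constantCoeff (G a b) = g a b := fgG_cc _ g gi (m - 1)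
  -- the vector field
  set W : Fin n → PowerSeries A := fun i => -∑ j, H i j * psD (D j) (PowerSeries.C σ) with hW
  set β : Fin n → PowerSeries A := fun i => adr (W i) with hβ
  have hσ0 : pD E D 0 (PowerSeries.C σ) = 0 := by rw [pD_0, psD_C, hEσ, map_zero]
  have hσ1 : pD E D 1 (PowerSeries.C σ) = 0 := by rw [pD_1, drD_apply, dr_C]
  have hH0' : ∀ i j, psD E (H i j) = 0 := hH0 hA hG hH hG0
  have hW0 : ∀ i, psD E (W i) = 0 := by
    intro i
    rw [hW]
    simp only [map_neg, map_sum, Derivation.leibniz, hH0']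
    rw [neg_eq_zero]
    refine Finset.sum_eq_zero fun j _ => ?_
    have h1 : psD E (psD (D j) (PowerSeries.C σ)) = 0 := by
      rw [psD_C, psD_C, hED, hEσ, map_zero, map_zero]
    rw [h1]
    simp
  have hb0 : ∀ i, pD E D 0 (PowerSeries.X * β i) = 0 := by
    intro i
    rw [pD_0, Derivation.leibniz, psD_X, psD_adr E (hW0 i)]
    simp
  have hb1 : ∀ i, pD E D 1 (PowerSeries.X * β i) =
      -∑ j, H i j * pD E D j.succ.succ (PowerSeries.C σ) := by
    intro i
    rw [pD_1, drD_apply, dr_adr]
    rfl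
  -- the ideal
  have hN' := psI_sq N hN
  have hDN' : ∀ i : Fin (n + 2), ∀ x ∈ psI N, pD E D i x ∈ psI N := by
    intro i
    induction i using aind with
    | h0 => exact psI_psD N E hEN
    | h1 => exact fun x hx => psI_dr N hx
    | h2 i => exact psI_psD N (D i) (hDN i)
  have hσN : PowerSeries.C σ ∈ psI N := C_mem_psI N hσ
  have hWN : ∀ i, W i ∈ psI N := by
    intro i
    refine Ideal.neg_mem_iff _ |>.2 (Ideal.sum_mem _ fun j _ => Ideal.mul_mem_left _ _ ?_)
    exact psI_psD N (D j) (hDN j) _ hσN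
  have hbN : ∀ i, PowerSeries.X * β i ∈ psI N :=
    fun i => Ideal.mul_mem_left _ _ (adr_mem N (hWN i))
  -- the varied metric
  set V := vG (pD E D) PowerSeries.X (PowerSeries.C σ) (fun i => PowerSeries.X * β i) G with hV
  have hVs : ∀ a b, V a b = V b a := vG_symm hG
  have hVc : ∀ a b, PowerSeries.constantCoeff (V a b) = (1 + 2 * σ) * g a b := by
    intro a b
    have hX0 : ∀ c, PowerSeries.constantCoeff (PowerSeries.X * β c) = 0 := by
      intro c
      rw [map_mul, PowerSeries.constantCoeff_X, zero_mul]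
    have hX1 : ∀ i c, PowerSeries.constantCoeff (De (pD E D) i (PowerSeries.X * β c)) = 0 := by
      intro i c
      show PowerSeries.constantCoeff (psD (D i) (PowerSeries.X * β c)) = 0
      rw [cc_psD, hX0, map_zero]
    have hl : PowerSeries.constantCoeff (lieL (fun i => De (pD E D) i)
        (fun i => PowerSeries.X * β i) G a b) = 0 := by
      unfold lieL
      rw [map_sum]
      refine Finset.sum_eq_zero fun c _ => ?_
      simp only [map_add, map_mul, hX1, PowerSeries.constantCoeff_X, zero_mul, add_zero]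
    show PowerSeries.constantCoeff (G a b + ((PowerSeries.C σ + PowerSeries.C σ) * G a b -
      (PowerSeries.X + PowerSeries.X) * PowerSeries.C σ * pD E D 1 (G a b) +
      lieL (fun i => De (pD E D) i) (fun i => PowerSeries.X * β i) G a b)) = _
    rw [map_add, map_add, map_sub, hl, map_mul, map_mul, map_mul, map_add, map_add,
      PowerSeries.constantCoeff_X, PowerSeries.constantCoeff_C, hGc]
    ring
  -- the new metric
  set g' : Fin n → Fin n → A := fun a b => (1 + 2 * σ) * g a b with hg'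
  set gi' : Fin n → Fin n → A := fun a b => (1 - 2 * σ) * gi a b with hgi'
  have hg's : ∀ a b, g' a b = g' b a := fun a b => by rw [hg']; simp only [hg a b]
  have hσσ : σ * σ = 0 := hN σ hσ σ hσ
  have hgi's : ∀ a b, ∑ c, gi' a c * g' b c = if a = b then 1 else 0 := by
    intro a b
    rw [← hgi a b]
    refine Finset.sum_congr rfl fun c _ => ?_
    rw [hg', hgi']
    linear_combination (-4 * (gi a c * g b c)) * hσσ
  set G' := fgG (fun i => D i) g' gi' (m - 1) with hG'd
  set H' := invS g' gi' G' with hH'd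
  have hG' : ∀ a b, G' a b = G' b a := fgG_symm D hD g' gi' hg's hgi's (m - 1)
  have hH' : ∀ a b, ∑ c, H' a c * G' b c = if a = b then 1 else 0 :=
    fgG_inv D hD g' gi' hg's hgi's (m - 1)
  have hF' : ∀ a b, fgE (fun i => D i) G' H' a b ∈ OI A (m - 1) :=
    fgG_solves D hD g' gi' hg's hgi's (m - 1) (by omega)
  have hGc' : ∀ a b, PowerSeries.constantCoeff (G' a b) = g' a b := fgG_cc _ g' gi' (m - 1)
  set K := invS g' gi' V with hKd
  have hK : ∀ a b, ∑ c, K a c * V b c = if a = b then 1 else 0 := invS_exact hg's hgi's hVc hVs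
  -- it satisfies the equation
  have hFV : ∀ a b, fgE (fun i => D i) V K a b ∈ OI A (m - 1) := by
    intro a b
    refine fER_var_mem hA hG hH hG0 hσ0 hσ1 hb0 hb1 (psI N) hN' hDN' hσN hbN hK (OI A (m - 1))
      ?_ ?_ hF ?_ a b
    · intro i x hx
      exact OI_psD _ hx
    · intro x hx
      exact OI_X_dr hx
    · intro j
      exact kappa_mem hA hG hH hG0 (by omega) hF j
  have hsub : ∀ a b, G' a b - V a b ∈ OI A m := by
    intro a b
    have := fg_unique D hg's hgi's hG' hVs hH' hK hGc' hVc (M := m - 1) (by omega) hF' hFV (m - 1) le_rfl a b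
    rwa [Nat.sub_add_cancel hm1] at this
  have hsubH : ∀ a b, H' a b - K a b ∈ OI A m := inv_sub_memP hG' hVs hH' hK hsub
  have hc := Lchain_cc D hm1 hsub hsubH f
  obtain ⟨Z, hZ⟩ := chR_var hA hG hH hG0 hσ0 hσ1 hb0 hb1 (psI N) hN' hDN' hσN hbN hK m hm
    (PowerSeries.C f) (by rw [pD_0, psD_C, hEf, map_zero]) (by rw [pD_1, drD_apply, dr_C])
  rw [chR_eq, chR_eq] at hZ
  have hcc := congrArg PowerSeries.constantCoeff hZ
  rw [map_add, map_mul, map_mul, PowerSeries.constantCoeff_X, zero_mul, add_zero, map_sub, map_mul,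
    map_one, map_natCast, PowerSeries.constantCoeff_C] at hcc
  unfold Pn
  rw [hn2]
  rw [← hG'd, ← hH'd, ← hGd, ← hHd, hc, hcc]

end aux

/-- the exponential series -/
def expS (A : Type) [CommRing A] [Algebra ℝ A] : PowerSeries A :=
  PowerSeries.mk (fun k => algebraMap ℝ A (1 / (k.factorial : ℝ)))

lemma dr_expS : dr (expS A) = expS A := by
  ext k
  unfold expS
  rw [coeff_dr, PowerSeries.coeff_mk, PowerSeries.coeff_mk, Algebra.smul_def, ← map_mul]
  congr 1
  rw [Nat.factorial_succ]
  push_cast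
  have h1 : ((k : ℝ) + 1) ≠ 0 := by positivity
  have h2 : (k.factorial : ℝ) ≠ 0 := by positivity
  field_simp

lemma isUnit_expS : IsUnit (expS A) := by
  rw [PowerSeries.isUnit_iff_constantCoeff]
  have : PowerSeries.constantCoeff (expS A) = 1 := by
    unfold expS
    rw [← PowerSeries.coeff_zero_eq_constantCoeff_apply, PowerSeries.coeff_mk]
    simp
  rw [this]
  exact isUnit_one

lemma psD_expS (D : Derivation ℝ A A) : psD D (expS A) = 0 := by
  ext k
  unfold expS
  rw [coeff_psD, PowerSeries.coeff_mk, Derivation.map_algebraMap, map_zero]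

/-- infinitesimal conformal invariance of the critical GJMS operator -/
theorem Pn_confInf {n : ℕ} (hn : Even n) (h4 : 4 ≤ n) {A : Type} [CommRing A] [Algebra ℝ A]
    (D : Fin n → Derivation ℝ A A) (hD : ∀ i j x, D i (D j x) = D j (D i x))
    (N : Ideal A) (hN : ∀ x ∈ N, ∀ y ∈ N, x * y = 0) (hDN : ∀ i, ∀ x ∈ N, D i x ∈ N)
    (σ : A) (hσ : σ ∈ N) (g gi : Fin n → Fin n → A) (hg : ∀ a b, g a b = g b a)
    (hgi : ∀ a b, ∑ c, gi a c * g b c = if a = b then 1 else 0) (f : A) :
    Pn n A (fun i => D i) (fun a b => (1 + 2 * σ) * g a b) (fun a b => (1 - 2 * σ) * gi a b) f =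
      (1 - n * σ) * Pn n A (fun i => D i) g gi f := by
  obtain ⟨m, hm⟩ := hn
  obtain ⟨Ti, hTi⟩ := (isUnit_expS (A := A)).exists_right_inv
  have hE : ∀ F : PowerSeries A, ((2 : ℝ) • drD A) F = (2 : ℝ) • dr F := fun F => rfl
  have key := Pn_confInf_aux (A := PowerSeries A) (E := (2 : ℝ) • drD A) (D := fun i => psD (D i))
    (psD_comm D hD) (by
      intro i x
      rw [hE, hE, Derivation.map_smul, psD_dr]) hTi (by rw [hE, dr_expS, two_smul])
    (fun i => psD_expS (D i)) m (by omega) (by omega) (psI N) (psI_sq N hN)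
    (fun i => psI_psD N (D i) (hDN i)) (by
      intro x hx
      rw [hE, Algebra.smul_def]
      exact Ideal.mul_mem_left _ _ (psI_dr N hx)) (PowerSeries.C σ) (C_mem_psI N hσ)
    (by rw [hE, dr_C, smul_zero]) (fun a b => PowerSeries.C (g a b)) (fun a b => PowerSeries.C (gi a b))
    (fun a b => by rw [hg a b]) (by
      intro a b
      have := congrArg (PowerSeries.C (R := A)) (hgi a b)
      rw [map_sum] at this
      simp only [map_mul] at this
      rw [this]
      split_ifs <;> simp)
    (fun a b => by rw [hE, dr_C, smul_zero]) (fun a b => by rw [hE, dr_C, smul_zero])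
    (PowerSeries.C f) (by rw [hE, dr_C, smul_zero])
  have h1 := Pn_rel (relC D) (g := g) (gi := gi) (g' := fun a b => PowerSeries.C (g a b))
    (gi' := fun a b => PowerSeries.C (gi a b)) (f := f) (f' := PowerSeries.C f)
    (fun a b => rfl) (fun a b => rfl) rfl
  have h2 := Pn_rel (relC D) (g := fun a b => (1 + 2 * σ) * g a b)
    (gi := fun a b => (1 - 2 * σ) * gi a b)
    (g' := fun a b => (1 + 2 * PowerSeries.C σ) * PowerSeries.C (g a b))
    (gi' := fun a b => (1 - 2 * PowerSeries.C σ) * PowerSeries.C (gi a b)) (f := f)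
    (f' := PowerSeries.C f)
    (fun a b => by rw [CA_apply, map_mul, map_add, map_one, map_mul, map_ofNat])
    (fun a b => by rw [CA_apply, map_mul, map_sub, map_one, map_mul, map_ofNat]) rfl
  rw [← h1, ← h2, CA_apply, CA_apply] at key
  have h3 := congrArg PowerSeries.constantCoeff key
  rw [map_mul, PowerSeries.constantCoeff_C, PowerSeries.constantCoeff_C, map_sub, map_mul, map_one,
    map_natCast, PowerSeries.constantCoeff_C] at h3
  exact h3

end

end GJMS
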