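import Mathlib
import Pool.Agent.GJMS.AmbDefs
import Pool.Agent.GJMS.PnConf

/-!
# The ring of smooth functions on an open set, Taylor expansion in `ρ`
-/

open Finset Set
open scoped ContDiff

set_option linter.unusedSectionVars false
set_option linter.unusedSimpArgs false

namespace GJMS.Smo

noncomputable section

variable {N : ℕ} {W : Set (Fin N → ℝ)}

/-- smooth functions on `W` -/
def smSubR (W : Set (Fin N → ℝ)) : Subalgebra ℝ (W → ℝ) where
  carrier := {a | ∃ F : Raw N, ContDiffOn ℝ ∞ F W ∧ ∀ z : W, a z = F z}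
  mul_mem' := by
    rintro a b ⟨F, hF, ha⟩ ⟨G, hG, hb⟩
    exact ⟨fun z => F z * G z, hF.mul hG, fun z => by rw [Pi.mul_apply, ha, hb]⟩
  add_mem' := by
    rintro a b ⟨F, hF, ha⟩ ⟨G, hG, hb⟩
    exact ⟨fun z => F z + G z, hF.add hG, fun z => by rw [Pi.add_apply, ha, hb]⟩
  algebraMap_mem' r := ⟨fun _ => r, contDiffOn_const, fun _ => rfl⟩

/-- the ring of smooth functions on `W` -/
def SmR (W : Set (Fin N → ℝ)) : Type := ↥(smSubR W)

instance (W : Set (Fin N → ℝ)) : CommRing (SmR W) := inferInstanceAs (CommRing (smSubR W))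

instance (W : Set (Fin N → ℝ)) : Algebra ℝ (SmR W) := inferInstanceAs (Algebra ℝ (smSubR W))

/-- extension by zero -/
def ext (a : SmR W) : Raw N := by
  classical
  exact fun z => if h : z ∈ W then a.1 ⟨z, h⟩ else 0

lemma ext_apply (a : SmR W) {z : Fin N → ℝ} (h : z ∈ W) : ext a z = a.1 ⟨z, h⟩ := by
  unfold ext
  rw [dif_pos h]

lemma ext_smooth (a : SmR W) : ContDiffOn ℝ ∞ (ext a) W := by
  obtain ⟨F, hF, ha⟩ := a.2
  exact hF.congr fun z hz => by rw [ext_apply a hz, ha]

/-- restriction of a smooth function -/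
def res {F : Raw N} (hF : ContDiffOn ℝ ∞ F W) : SmR W := ⟨fun z => F z, F, hF, fun _ => rfl⟩

lemma ext_res {F : Raw N} (hF : ContDiffOn ℝ ∞ F W) : EqOn (ext (res hF)) F W :=
  fun z hz => ext_apply _ hz

lemma ext_add (a b : SmR W) : EqOn (ext (a + b)) (ext a + ext b) W := by
  intro z hz
  rw [Pi.add_apply, ext_apply _ hz, ext_apply _ hz, ext_apply _ hz]; rfl

lemma ext_mul (a b : SmR W) : EqOn (ext (a * b)) (ext a * ext b) W := by
  intro z hz
  rw [Pi.mul_apply, ext_apply _ hz, ext_apply _ hz, ext_apply _ hz]; rfl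

lemma ext_smul (r : ℝ) (a : SmR W) : EqOn (ext (r • a)) (r • ext a) W := by
  intro z hz
  rw [Pi.smul_apply, ext_apply _ hz, ext_apply _ hz]; rfl

lemma pd_smulR (F : Raw N) (r : ℝ) (i : Fin N) : pd i (r • F) = r • pd i F := by
  funext x
  unfold pd
  rw [fderiv_const_smul_field]
  rfl

/-- partial derivatives as derivations -/
def smD (hW : IsOpen W) (i : Fin N) : Derivation ℝ (SmR W) (SmR W) where
  toFun a := res (pd_smooth hW i (ext_smooth a))
  map_add' a b := by
    apply Subtype.ext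
    funext z
    show pd i (ext (a + b)) z = pd i (ext a) z + pd i (ext b) z
    rw [pd_congr hW i (ext_add a b) z.2, pd_add hW i (ext_smooth a) (ext_smooth b) z.2]
    rfl
  map_smul' r a := by
    apply Subtype.ext
    funext z
    show pd i (ext (r • a)) z = r • pd i (ext a) z
    rw [pd_congr hW i (ext_smul r a) z.2, pd_smulR]
    rfl
  map_one_eq_zero' := by
    apply Subtype.ext
    funext z
    show pd i (ext 1) z = 0
    have h : EqOn (ext (1 : SmR W)) (fun _ => (1 : ℝ)) W := fun z hz => by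
      rw [ext_apply _ hz]; rfl
    rw [pd_congr hW i h z.2]
    unfold pd
    simp
  leibniz' a b := by
    apply Subtype.ext
    funext z
    show pd i (ext (a * b)) z = a.1 z * pd i (ext b) z + b.1 z * pd i (ext a) z
    rw [pd_congr hW i (ext_mul a b) z.2, pd_mul hW i (ext_smooth a) (ext_smooth b) z.2]
    show ext a z * _ + ext b z * _ = _
    rw [ext_apply a z.2, ext_apply b z.2]

lemma smD_apply (hW : IsOpen W) (i : Fin N) (a : SmR W) (z : W) :
    (smD hW i a).1 z = pd i (ext a) z := rfl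

lemma ext_smD (hW : IsOpen W) (i : Fin N) (a : SmR W) : EqOn (ext (smD hW i a)) (pd i (ext a)) W := by
  intro z hz
  rw [ext_apply _ hz, smD_apply]

lemma smD_comm (hW : IsOpen W) (i j : Fin N) (a : SmR W) :
    smD hW i (smD hW j a) = smD hW j (smD hW i a) := by
  apply Subtype.ext
  funext z
  rw [smD_apply, smD_apply, pd_congr hW i (ext_smD hW j a) z.2, pd_congr hW j (ext_smD hW i a) z.2]
  exact pd_comm hW i j (ext_smooth a) z.2

/-- `F` is smooth on `W` and restricts to `a` -/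
def RR (W : Set (Fin N → ℝ)) (F : Raw N) (a : SmR W) : Prop :=
  ContDiffOn ℝ ∞ F W ∧ ∀ z : W, F z = a.1 z

lemma RR_res {F : Raw N} (hF : ContDiffOn ℝ ∞ F W) : RR W F (res hF) := ⟨hF, fun _ => rfl⟩

lemma RR.eq_ext {F : Raw N} {a : SmR W} (h : RR W F a) : EqOn F (ext a) W := by
  intro z hz
  rw [ext_apply a hz]; exact h.2 ⟨z, hz⟩

lemma relOK_sm (hW : IsOpen W) : RelOK pd (fun i => smD hW i) (RR W) where
  zero := ⟨contDiffOn_const, fun _ => rfl⟩
  one := ⟨contDiffOn_const, fun _ => rfl⟩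
  add := by
    intro F F' a a' h1 h2
    exact ⟨h1.1.add h2.1, fun z => by rw [Pi.add_apply, h1.2, h2.2]; rfl⟩
  sub := by
    intro F F' a a' h1 h2
    exact ⟨h1.1.sub h2.1, fun z => by rw [Pi.sub_apply, h1.2, h2.2]; rfl⟩
  mul := by
    intro F F' a a' h1 h2
    exact ⟨h1.1.mul h2.1, fun z => by rw [Pi.mul_apply, h1.2, h2.2]; rfl⟩
  smul := by
    intro r F a h1
    exact ⟨h1.1.const_smul r, fun z => by rw [Pi.smul_apply, h1.2]; rfl⟩
  d := by
    intro i F a h1
    refine ⟨pd_smooth hW i h1.1, fun z => ?_⟩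
    show pd i F z = pd i (ext a) z
    exact pd_congr hW i h1.eq_ext z.2

end

end GJMS.Smo
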