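import Mathlib
import Pool.Agent.GJMS.SmRing

/-!
# The ambient system over smooth functions
-/

open Finset Set
open scoped ContDiff

set_option linter.unusedSectionVars false
set_option linter.unusedSimpArgs false

namespace GJMS.Smo

noncomputable section

section inv

variable {N : ℕ} {W : Set (Fin N → ℝ)}

/-- evaluation at a point -/
def evW (z : W) : SmR W →ₐ[ℝ] ℝ := (Pi.evalAlgHom ℝ (fun _ : W => ℝ) z).comp (smSubR W).val

lemma evW_apply (z : W) (a : SmR W) : evW z a = a.1 z := rfl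

lemma sm_ext {a b : SmR W} (h : ∀ z : W, a.1 z = b.1 z) : a = b := Subtype.ext (funext h)

lemma isUnit_of_ne {a : SmR W} (h : ∀ z : W, a.1 z ≠ 0) : IsUnit a := by
  have h1 : ContDiffOn ℝ ∞ (fun z => (ext a z)⁻¹) W := by
    refine (ext_smooth a).inv fun z hz => ?_
    rw [ext_apply a hz]
    exact h ⟨z, hz⟩
  refine IsUnit.of_mul_eq_one (res h1) (sm_ext fun z => ?_)
  show a.1 z * (ext a z)⁻¹ = 1
  rw [ext_apply a z.2]
  exact mul_inv_cancel₀ (h z)

lemma exists_inv_sm {k : ℕ} (G : Fin k → Fin k → SmR W)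
    (h : ∀ z : W, Matrix.det (Matrix.of fun a b => (G a b).1 z) ≠ 0) :
    ∃ H : Fin k → Fin k → SmR W, ∀ a b, ∑ c, H a c * G b c = if a = b then 1 else 0 := by
  have hdet : IsUnit (Matrix.det (Matrix.of fun a b => G b a)) := by
    refine isUnit_of_ne fun z => ?_
    have h1 : (Matrix.det (Matrix.of fun a b => G b a)).1 z =
        Matrix.det (Matrix.of fun a b => (G b a).1 z) := by
      rw [← evW_apply, AlgHom.map_det]
      rfl
    rw [h1]
    have h2 : (Matrix.of fun a b => (G b a).1 z) = (Matrix.of fun a b => (G a b).1 z).transpose := by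
      ext a b; rfl
    rw [h2, Matrix.det_transpose]
    exact h z
  refine ⟨fun a b => (Matrix.of fun a b => G b a)⁻¹ a b, fun a b => ?_⟩
  have h3 := Matrix.nonsing_inv_mul _ hdet
  have h4 := congrFun (congrFun h3 a) b
  rw [Matrix.mul_apply, Matrix.one_apply] at h4
  exact h4

lemma RR_minv {g : Fin N → Fin N → Raw N} {G H : Fin N → Fin N → SmR W}
    (hg : ∀ a b, RR W (g a b) (G a b)) (hG : ∀ a b, G a b = G b a)
    (hH : ∀ a b, ∑ c, H a c * G b c = if a = b then 1 else 0) (a b : Fin N) :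
    RR W (minv g a b) (H a b) := by
  have h1 : ∀ z : W, minv g a b z = (H a b).1 z := by
    intro z
    have h2 : (Matrix.of fun a b => (H a b).1 z) * (Matrix.of fun a b => g a b z) = 1 := by
      ext a b
      rw [Matrix.mul_apply, Matrix.one_apply]
      have h3 := congrArg (evW z) (hH a b)
      rw [map_sum] at h3
      have h4 : evW z (if a = b then 1 else 0) = if a = b then 1 else 0 := by
        split_ifs
        · exact map_one _
        · exact map_zero _
      rw [h4] at h3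
      rw [← h3]
      refine Finset.sum_congr rfl fun c _ => ?_
      rw [map_mul, evW_apply, evW_apply, Matrix.of_apply, Matrix.of_apply, (hg c b).2 z, hG b c]
    unfold minv
    rw [Matrix.inv_eq_left_inv h2]
    rfl
  refine ⟨(ext_smooth (H a b)).congr fun z hz => ?_, h1⟩
  rw [ext_apply _ hz]
  exact h1 ⟨z, hz⟩

lemma RR_iter (hW : IsOpen W) (i : Fin N) {F : Raw N} {a : SmR W} (h : RR W F a) (k : ℕ) :
    RR W ((pd i)^[k] F) ((smD hW i)^[k] a) := by
  induction k with
  | zero => exact h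
  | succ k ih =>
    rw [Function.iterate_succ_apply', Function.iterate_succ_apply']
    exact (relOK_sm hW).d i ih

end inv

section coord

variable {n : ℕ} {W : Set (Fin (n + 2) → ℝ)}

lemma pd_coord {N : ℕ} (i j : Fin N) (z : Fin N → ℝ) :
    pd i (fun z => z j) z = if i = j then 1 else 0 := by
  unfold pd
  rw [show (fun z : Fin N → ℝ => z j) = ⇑(ContinuousLinearMap.proj (R := ℝ) (φ := fun _ : Fin N => ℝ) j) from rfl,
    ContinuousLinearMap.fderiv]
  show (Pi.single i (1 : ℝ) : Fin N → ℝ) j = _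
  rw [Pi.single_apply]
  simp [eq_comm]

lemma pd_exp {N : ℕ} (c : ℝ) (i j : Fin N) (z : Fin N → ℝ) :
    pd i (fun z => Real.exp (c * z j)) z = if i = j then c * Real.exp (c * z j) else 0 := by
  have h1 : HasFDerivAt (fun z : Fin N → ℝ => z j)
      (ContinuousLinearMap.proj (R := ℝ) (φ := fun _ : Fin N => ℝ) j) z :=
    (ContinuousLinearMap.proj (R := ℝ) (φ := fun _ : Fin N => ℝ) j).hasFDerivAt
  have h2 := (h1.const_mul c).exp
  unfold pd
  rw [h2.fderiv]
  show Real.exp (c * z j) * (c * (Pi.single i (1 : ℝ) : Fin N → ℝ) j) = _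
  rw [Pi.single_apply]
  by_cases h : i = j
  · rw [if_pos h.symm, if_pos h]; ring
  · rw [if_neg (Ne.symm h), if_neg h]; ring

lemma smooth_coord {N : ℕ} (j : Fin N) (W : Set (Fin N → ℝ)) : ContDiffOn ℝ ∞ (fun z => z j) W :=
  (contDiff_apply ℝ ℝ j).contDiffOn

lemma smooth_exp {N : ℕ} (c : ℝ) (j : Fin N) (W : Set (Fin N → ℝ)) :
    ContDiffOn ℝ ∞ (fun z => Real.exp (c * z j)) W :=
  (Real.contDiff_exp.comp (contDiff_const.mul (contDiff_apply ℝ ℝ j))).contDiffOn

/-- the coordinate `ρ` -/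
def rS (W : Set (Fin (n + 2) → ℝ)) : SmR W := res (smooth_coord 1 W)
/-- the function `t²` -/
def TS (W : Set (Fin (n + 2) → ℝ)) : SmR W := res (smooth_exp 2 0 W)
/-- the function `t⁻²` -/
def TiS (W : Set (Fin (n + 2) → ℝ)) : SmR W := res (smooth_exp (-2) 0 W)

lemma smD_res {N : ℕ} {W : Set (Fin N → ℝ)} (hW : IsOpen W) (i : Fin N) {F : Raw N}
    (hF : ContDiffOn ℝ ∞ F W) (z : W) : (smD hW i (res hF)).1 z = pd i F z := by
  rw [smD_apply]
  exact pd_congr hW i (ext_res hF) z.2

/-- the ambient system -/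
lemma sys_sm (hW : IsOpen W) : AmbSys (fun i => smD hW i) (TS W) (TiS W) (rS W) where
  comm i j x := smD_comm hW i j x
  tti := by
    refine sm_ext fun z => ?_
    show Real.exp (2 * z.1 0) * Real.exp (-2 * z.1 0) = 1
    rw [← Real.exp_add]
    simp
  T0 := by
    refine sm_ext fun z => ?_
    unfold TS
    rw [smD_res, pd_exp, if_pos rfl]
    show _ = Real.exp (2 * z.1 0) + Real.exp (2 * z.1 0)
    ring
  T1 := by
    refine sm_ext fun z => ?_
    unfold TS
    rw [smD_res, pd_exp, if_neg (by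
      intro h
      exact absurd (congrArg Fin.val h) (by simp))]
    rfl
  Te i := by
    refine sm_ext fun z => ?_
    unfold TS
    rw [smD_res, pd_exp, if_neg (Fin.succ_ne_zero _)]
    rfl
  r0 := by
    refine sm_ext fun z => ?_
    unfold rS
    rw [smD_res, pd_coord, if_neg (by
      intro h
      exact absurd (congrArg Fin.val h) (by simp))]
    rfl
  r1 := by
    refine sm_ext fun z => ?_
    unfold rS
    rw [smD_res, pd_coord, if_pos rfl]
    rfl
  re i := by
    refine sm_ext fun z => ?_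
    unfold rS
    rw [smD_res, pd_coord, if_neg (by
      intro h
      have := Fin.succ_injective _ (h.trans (show (1 : Fin (n + 2)) = Fin.succ 0 from rfl))
      exact Fin.succ_ne_zero _ this)]
    rfl

lemma RR_ambG {G : Fin n → Fin n → Raw (n + 2)} {Gs : Fin n → Fin n → SmR W}
    (h : ∀ i j, RR W (G i j) (Gs i j)) (a b : Fin (n + 2)) :
    RR W (ambG G a b) (aG (TS W) (rS W) Gs a b) := by
  have hT : RR W (fun z => Real.exp (2 * z 0)) (TS W) := RR_res _
  have hr : RR W (fun z => z 1) (rS W) := RR_res _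
  have h0 : RR W (0 : Raw (n + 2)) (0 : SmR W) := ⟨contDiffOn_const, fun _ => rfl⟩
  have hadd : ∀ {F F' : Raw (n + 2)} {a a' : SmR W}, RR W F a → RR W F' a' → RR W (F + F') (a + a') :=
    fun h1 h2 => ⟨h1.1.add h2.1, fun z => by rw [Pi.add_apply, h1.2, h2.2]; rfl⟩
  have hmul : ∀ {F F' : Raw (n + 2)} {a a' : SmR W}, RR W F a → RR W F' a' → RR W (F * F') (a * a') :=
    fun h1 h2 => ⟨h1.1.mul h2.1, fun z => by rw [Pi.mul_apply, h1.2, h2.2]; rfl⟩
  unfold ambG
  induction a using aind with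
  | h0 =>
    induction b using aind with
    | h0 => exact hmul (hadd hr hr) hT
    | h1 => exact hT
    | h2 j => exact h0
  | h1 =>
    induction b using aind with
    | h0 => exact hT
    | h1 => exact h0
    | h2 j => exact h0
  | h2 i =>
    induction b using aind with
    | h0 => exact h0
    | h1 => exact h0
    | h2 j => exact hmul hT (h i j)

end coord

section amb

variable {n : ℕ} {W : Set (Fin (n + 2) → ℝ)} (hW : IsOpen W)
  {G : Fin n → Fin n → Raw (n + 2)} {Gs Hs : Fin n → Fin n → SmR W}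
  (h : ∀ i j, RR W (G i j) (Gs i j)) (hs : ∀ i j, Gs i j = Gs j i)
  (hH : ∀ i j, ∑ k, Hs i k * Gs j k = if i = j then 1 else 0)

include h hs hH in
lemma RR_minv_ambG (a b : Fin (n + 2)) :
    RR W (minv (ambG G) a b) (aH (TiS W) (rS W) Hs a b) := by
  refine RR_minv (fun a b => RR_ambG h a b) (aG_symm _ _ hs) (aH_inv _ ?_ hH) a b
  refine sm_ext fun z => ?_
  show Real.exp (2 * z.1 0) * Real.exp (-2 * z.1 0) = 1
  rw [← Real.exp_add]
  simp

include h hs hH in
/-- the Ricci tensor of the ambient metric in the ring of smooth functions -/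
lemma RR_ric (a b : Fin (n + 2)) :
    RR W (ric pd (chr pd (ambG G) (minv (ambG G))) a b)
      (aR (fun i => smD hW i) (TS W) (TiS W) (rS W) Gs Hs a b) :=
  (relOK_sm hW).ric ((relOK_sm hW).chr (fun a b => RR_ambG h a b) (RR_minv_ambG h hs hH)) a b

include h hs hH in
/-- powers of the ambient Laplacian in the ring of smooth functions -/
lemma RR_lap {F : Raw (n + 2)} {Fs : SmR W} (hF : RR W F Fs) (k : ℕ) :
    RR W ((lap pd (ambG G) (minv (ambG G)))^[k] F)
      ((lap (fun i => smD hW i) (aG (TS W) (rS W) Gs) (aH (TiS W) (rS W) Hs))^[k] Fs) :=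
  lapPow_rel (relOK_sm hW) (fun a b => RR_ambG h a b) (RR_minv_ambG h hs hH) k hF

end amb

section maps

variable {n : ℕ}

/-- `bpt` as a continuous linear map -/
def bptL (n : ℕ) : (Fin (n + 2) → ℝ) →L[ℝ] (Fin n → ℝ) :=
  ContinuousLinearMap.pi fun i => ContinuousLinearMap.proj i.succ.succ

lemma bptL_apply (z : Fin (n + 2) → ℝ) : bptL n z = bpt z := rfl

/-- the slice `ρ = 0`, `log t = s` -/
def inc (s : ℝ) (x : Fin n → ℝ) : Fin (n + 2) → ℝ := blk s 0 x

/-- the linear part of the slice -/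
def incL (n : ℕ) : (Fin n → ℝ) →L[ℝ] (Fin (n + 2) → ℝ) :=
  ContinuousLinearMap.pi (blk 0 0 fun i => ContinuousLinearMap.proj i)

lemma inc_eq (s : ℝ) (x : Fin n → ℝ) : inc s x = incL n x + inc s 0 := by
  funext a
  induction a using aind with
  | h0 => show s = 0 + s; simp
  | h1 => show (0 : ℝ) = 0 + 0; simp
  | h2 i => show x i = x i + 0; simp

lemma bpt_inc (s : ℝ) (x : Fin n → ℝ) : bpt (inc s x) = x := rfl

lemma inc_bpt (z : Fin (n + 2) → ℝ) (h : z 1 = 0) : inc (z 0) (bpt z) = z := by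
  funext a
  induction a using aind with
  | h0 => rfl
  | h1 => exact h.symm
  | h2 i => rfl

lemma contDiff_inc (s : ℝ) : ContDiff ℝ ∞ (inc s : (Fin n → ℝ) → _) := by
  have : (inc s : (Fin n → ℝ) → _) = fun x => incL n x + inc s 0 := funext fun x => inc_eq s x
  rw [this]
  exact (incL n).contDiff.add contDiff_const

lemma hasFDerivAt_inc (s : ℝ) (x : Fin n → ℝ) : HasFDerivAt (inc s) (incL n) x := by
  have : (inc s : (Fin n → ℝ) → _) = fun x => incL n x + inc s 0 := funext fun x => inc_eq s x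
  rw [this]
  exact (incL n).hasFDerivAt.add_const _

lemma bptL_single (a : Fin (n + 2)) : bptL n (Pi.single a 1) =
    blk (M := Fin n → ℝ) 0 0 (fun i => Pi.single i 1) a := by
  induction a using aind with
  | h0 =>
    funext j
    show (Pi.single (0 : Fin (n + 2)) (1 : ℝ) : Fin (n + 2) → ℝ) j.succ.succ = 0
    rw [Pi.single_apply, if_neg (Fin.succ_ne_zero _)]
  | h1 =>
    funext j
    show (Pi.single (1 : Fin (n + 2)) (1 : ℝ) : Fin (n + 2) → ℝ) j.succ.succ = 0
    rw [Pi.single_apply, if_neg]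
    intro h
    have := Fin.succ_injective _ (h.trans (show (1 : Fin (n + 2)) = Fin.succ 0 from rfl))
    exact Fin.succ_ne_zero _ this
  | h2 i =>
    funext j
    show (Pi.single i.succ.succ (1 : ℝ) : Fin (n + 2) → ℝ) j.succ.succ = (Pi.single i (1 : ℝ) : Fin n → ℝ) j
    rw [Pi.single_apply, Pi.single_apply]
    simp only [Fin.succ_inj]

lemma incL_single (i : Fin n) : incL n (Pi.single i 1) = Pi.single i.succ.succ 1 := by
  funext a
  induction a using aind with
  | h0 =>
    show (0 : ℝ) = (Pi.single i.succ.succ (1 : ℝ) : Fin (n + 2) → ℝ) 0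
    rw [Pi.single_apply, if_neg (Fin.succ_ne_zero _).symm]
  | h1 =>
    show (0 : ℝ) = (Pi.single i.succ.succ (1 : ℝ) : Fin (n + 2) → ℝ) 1
    rw [Pi.single_apply, if_neg]
    intro h
    have := Fin.succ_injective _ ((show Fin.succ 0 = (1 : Fin (n + 2)) from rfl).trans h)
    exact Fin.succ_ne_zero _ this.symm
  | h2 j =>
    show (Pi.single i (1 : ℝ) : Fin n → ℝ) j = (Pi.single i.succ.succ (1 : ℝ) : Fin (n + 2) → ℝ) j.succ.succ
    rw [Pi.single_apply, Pi.single_apply]
    simp only [Fin.succ_inj]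

variable {U : Set (Fin n → ℝ)} {W : Set (Fin (n + 2) → ℝ)}

/-- pull back to the ambient space -/
lemma smooth_pull (hb : ∀ z ∈ W, bpt z ∈ U) {F : Raw n} (hF : ContDiffOn ℝ ∞ F U) :
    ContDiffOn ℝ ∞ (fun z => F (bpt z)) W :=
  hF.comp (bptL n).contDiff.contDiffOn hb

lemma pd_pull (hU : IsOpen U) {F : Raw n} (hF : ContDiffOn ℝ ∞ F U) (z : Fin (n + 2) → ℝ)
    (hz : bpt z ∈ U) (a : Fin (n + 2)) :
    pd a (fun z => F (bpt z)) z = blk 0 0 (fun i => pd i F (bpt z)) a := by
  have h1 : DifferentiableAt ℝ F (bpt z) :=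
    (hF.contDiffAt (hU.mem_nhds hz)).differentiableAt (by simp)
  have h2 : HasFDerivAt (fun z => F (bpt z)) ((fderiv ℝ F (bpt z)).comp (bptL n)) z :=
    HasFDerivAt.comp z (g := F) (f := bpt) h1.hasFDerivAt (bptL n).hasFDerivAt
  unfold pd
  rw [h2.fderiv, ContinuousLinearMap.comp_apply, bptL_single]
  induction a using aind with
  | h0 => exact map_zero _
  | h1 => exact map_zero _
  | h2 i => rfl

/-- restriction to a slice -/
lemma smooth_slice {s : ℝ} (hi : ∀ x ∈ U, inc s x ∈ W) {F : Raw (n + 2)} (hF : ContDiffOn ℝ ∞ F W) :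
    ContDiffOn ℝ ∞ (fun x => F (inc s x)) U :=
  hF.comp (contDiff_inc s).contDiffOn hi

lemma pd_slice (hW : IsOpen W) {s : ℝ} {F : Raw (n + 2)} (hF : ContDiffOn ℝ ∞ F W) (x : Fin n → ℝ)
    (hx : inc s x ∈ W) (i : Fin n) :
    pd i (fun x => F (inc s x)) x = pd i.succ.succ F (inc s x) := by
  have h1 : DifferentiableAt ℝ F (inc s x) :=
    (hF.contDiffAt (hW.mem_nhds hx)).differentiableAt (by simp)
  have h2 : HasFDerivAt (fun x => F (inc s x)) ((fderiv ℝ F (inc s x)).comp (incL n)) x :=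
    HasFDerivAt.comp x (g := F) (f := inc s) h1.hasFDerivAt (hasFDerivAt_inc s x)
  unfold pd
  rw [h2.fderiv, ContinuousLinearMap.comp_apply, incL_single]

/-- restriction to a slice as an algebra homomorphism -/
def slice {s : ℝ} (hi : ∀ x ∈ U, inc s x ∈ W) : SmR W →ₐ[ℝ] SmR U where
  toFun a := ⟨fun x => a.1 ⟨inc s x, hi x x.2⟩, fun x => ext a (inc s x),
    smooth_slice hi (ext_smooth a), fun x => (ext_apply a (hi x x.2)).symm⟩
  map_one' := rfl
  map_mul' _ _ := rfl
  map_zero' := rfl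
  map_add' _ _ := rfl
  commutes' _ := rfl

lemma slice_apply {s : ℝ} (hi : ∀ x ∈ U, inc s x ∈ W) (a : SmR W) (x : U) :
    (slice hi a).1 x = a.1 ⟨inc s x, hi x x.2⟩ := rfl

lemma slice_smD (hU : IsOpen U) (hW : IsOpen W) {s : ℝ} (hi : ∀ x ∈ U, inc s x ∈ W) (a : SmR W)
    (i : Fin n) : slice hi (smD hW i.succ.succ a) = smD hU i (slice hi a) := by
  refine sm_ext fun x => ?_
  rw [slice_apply, smD_apply, smD_apply]
  have h1 : EqOn (ext (slice hi a)) (fun x => ext a (inc s x)) U := by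
    intro x hx
    rw [ext_apply _ hx, slice_apply]
    exact (ext_apply a (hi x hx)).symm
  rw [pd_congr hU i h1 x.2, pd_slice hW (ext_smooth a) x (hi x x.2)]

end maps

end

end GJMS.Smo
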