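import Mathlib
import Pool.Agent.GJMS.PnCoef

/-!
# The chain of ambient Laplacians over power series, on multiples of `ρ`
-/

open Finset

set_option linter.unusedSectionVars false
set_option linter.unusedSimpArgs false

namespace GJMS

noncomputable section

variable {n : ℕ}

section gen

variable {R : Type} [CommRing R] [Algebra ℝ R] {D : Fin (n + 2) → Derivation ℝ R R} {r : R}
  (r1 : D 1 r = 1) (re : ∀ i : Fin n, D i.succ.succ r = 0) {G H : Fin n → Fin n → R}

include r1 re in
lemma LsR_r' (s : ℝ) (ψ : R) :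
    LsR D r G H s (r * ψ) = r * LsR D r G H (s - 2) ψ + (2 * s + (n : ℝ) - 2) • ψ := by
  unfold LsR
  rw [lap_mul_const _ _ _ _ _ re]
  have h1 : D 1 (r * ψ) = ψ + r * D 1 ψ := by
    rw [Derivation.leibniz, r1]; simp; ring
  have h2 : D 1 (D 1 (r * ψ)) = D 1 ψ + D 1 ψ + r * D 1 (D 1 ψ) := by
    rw [h1, map_add, Derivation.leibniz, r1]; simp; ring
  rw [h2, h1]
  have e1 : (2 * (s - 2) + (n : ℝ) - 2) • D 1 ψ = (2 * s + (n : ℝ) - 2) • D 1 ψ -
      ((D 1 ψ + D 1 ψ) + (D 1 ψ + D 1 ψ)) := by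
    have : (D 1 ψ + D 1 ψ) + (D 1 ψ + D 1 ψ) = (4 : ℝ) • D 1 ψ := by
      rw [← two_smul ℝ (D 1 ψ), ← two_smul ℝ ((2 : ℝ) • D 1 ψ), smul_smul]; norm_num
    rw [this, ← sub_smul]
    congr 1; ring
  have e2 : ((s - 2) / 2) • (tauR D G H * ψ) = (s / 2) • (tauR D G H * ψ) - tauR D G H * ψ := by
    rw [show (s - 2) / 2 = s / 2 - 1 by ring, sub_smul, one_smul]
  rw [e1, e2, two_smul, two_smul]
  simp only [Algebra.smul_def]
  ring

include r1 re in
lemma chR_r' (ψ : R) (k : ℕ) :
    chR D r G H 0 (r * ψ) k = r * chR D r G H (-2) ψ k +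
      ((k : ℝ) * ((n : ℝ) - 2 * k)) • chR D r G H (-2) ψ (k - 1) := by
  induction k with
  | zero => simp [chR]
  | succ k ih =>
    show LsR D r G H (0 - 2 * (k : ℝ)) (chR D r G H 0 (r * ψ) k) = _
    rw [ih, LsR_add, LsR_r' r1 re, LsR_smul]
    have h1 : LsR D r G H (0 - 2 * (k : ℝ) - 2) (chR D r G H (-2) ψ k) =
        chR D r G H (-2) ψ (k + 1) := by
      show _ = LsR D r G H (-2 - 2 * (k : ℝ)) (chR D r G H (-2) ψ k)
      congr 1
      ring
    have h2 : ((k : ℝ) * ((n : ℝ) - 2 * k)) • LsR D r G H (0 - 2 * (k : ℝ)) (chR D r G H (-2) ψ (k - 1)) =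
        ((k : ℝ) * ((n : ℝ) - 2 * k)) • chR D r G H (-2) ψ k := by
      rcases k with _ | k
      · simp
      · congr 1
        show _ = LsR D r G H (-2 - 2 * (k : ℝ)) (chR D r G H (-2) ψ k)
        rw [Nat.add_sub_cancel]
        congr 1
        push_cast
        ring
    rw [h1, h2, Nat.add_sub_cancel, add_assoc, ← add_smul]
    congr 2
    push_cast
    ring

end gen

section ps

variable {A : Type} [CommRing A] [Algebra ℝ A] (D : Fin n → Derivation ℝ A A)
  (G H : Fin n → Fin n → PowerSeries A)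

/-- the critical chain only depends on the constant term -/
theorem Lchain_cc_C {m : ℕ} (hm : n = 2 * m) (F : PowerSeries A) :
    PowerSeries.constantCoeff (Lchain (fun i => D i) G H F m) =
      PowerSeries.constantCoeff (Lchain (fun i => D i) G H
        (PowerSeries.C (PowerSeries.constantCoeff F)) m) := by
  obtain ⟨ψ, hψ⟩ : ∃ ψ, F = PowerSeries.C (PowerSeries.constantCoeff F) + PowerSeries.X * ψ := by
    have h1 : (PowerSeries.X : PowerSeries A) ∣ F - PowerSeries.C (PowerSeries.constantCoeff F) := by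
      rw [PowerSeries.X_dvd_iff, map_sub, PowerSeries.constantCoeff_C, sub_self]
    obtain ⟨ψ, h2⟩ := h1
    exact ⟨ψ, by rw [← h2]; ring⟩
  have h0 : ∀ F : PowerSeries A, Lchain (fun i => D i) G H F m =
      chR (pD (0 : Derivation ℝ A A) D) PowerSeries.X G H 0 F m := fun F => (chR_eq G H F m).symm
  nth_rewrite 1 [hψ]
  rw [h0, h0, chR_add, map_add, chR_r' (D := pD (0 : Derivation ℝ A A) D) ?_ ?_]
  · have hz : ((m : ℝ) * ((n : ℝ) - 2 * m)) = 0 := by
      rw [hm]; push_cast; ring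
    rw [hz, zero_smul, add_zero, map_mul, PowerSeries.constantCoeff_X, zero_mul, add_zero]
  · show dr PowerSeries.X = 1
    ext m
    rw [coeff_dr, PowerSeries.coeff_X, PowerSeries.coeff_one]
    rcases m with _ | m
    · simp
    · simp
  · intro i
    exact psD_X (D i)

end ps

end

end GJMS
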