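import Pool.Agent.GJMS.PnCoef
import Pool.Agent.GJMS.PnLin
import Pool.Agent.GJMS.AmbDefs

/-!
# The Taylor expansion in the variable `ρ` as a homomorphism to power series
-/

open Finset

set_option linter.unusedSectionVars false

namespace GJMS

noncomputable section

variable {n : ℕ} {R A : Type} [CommRing R] [Algebra ℝ R] [CommRing A] [Algebra ℝ A]

/-- a power series is determined by its constant coefficient and its derivative -/
lemma ps_ext_dr {F G : PowerSeries A}
    (h0 : PowerSeries.constantCoeff F = PowerSeries.constantCoeff G) (h1 : dr F = dr G) :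
    F = G := by
  ext m
  rcases m with _ | m
  · rw [PowerSeries.coeff_zero_eq_constantCoeff_apply, h0,
      PowerSeries.coeff_zero_eq_constantCoeff_apply]
  · have h2 := congrArg (PowerSeries.coeff m) h1
    rw [coeff_dr, coeff_dr] at h2
    have h3 := congrArg (fun x => ((m : ℝ) + 1)⁻¹ • x) h2
    simp only [smul_smul] at h3
    have h4 : ((m : ℝ) + 1) ≠ 0 := by positivity
    rwa [inv_mul_cancel₀ h4, one_smul, one_smul] at h3

/-- the Taylor expansion along `δ` -/
def tayF (δ : Derivation ℝ R R) (π : R →ₐ[ℝ] A) (a : R) : PowerSeries A :=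
  PowerSeries.mk (fun m => (1 / (m.factorial : ℝ)) • π ((⇑δ)^[m] a))

section tay

variable (δ : Derivation ℝ R R) (π : R →ₐ[ℝ] A)

lemma coeff_tayF (a : R) (m : ℕ) :
    PowerSeries.coeff m (tayF δ π a) = (1 / (m.factorial : ℝ)) • π ((⇑δ)^[m] a) := by
  unfold tayF
  rw [PowerSeries.coeff_mk]

lemma cc_tayF (a : R) : PowerSeries.constantCoeff (tayF δ π a) = π a := by
  rw [← PowerSeries.coeff_zero_eq_constantCoeff_apply, coeff_tayF]
  simp

lemma dr_tayF (a : R) : dr (tayF δ π a) = tayF δ π (δ a) := by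
  ext m
  rw [coeff_dr, coeff_tayF, coeff_tayF, smul_smul, Function.iterate_succ_apply]
  congr 1
  rw [Nat.factorial_succ]
  push_cast
  have h1 : ((m : ℝ) + 1) ≠ 0 := by positivity
  have h2 : (m.factorial : ℝ) ≠ 0 := by positivity
  field_simp

lemma tayF_add (a b : R) : tayF δ π (a + b) = tayF δ π a + tayF δ π b := by
  ext m
  rw [map_add, coeff_tayF, coeff_tayF, coeff_tayF, iterate_map_add, map_add, smul_add]

lemma tayF_zero : tayF δ π (0 : R) = 0 := by
  ext m
  rw [coeff_tayF, iterate_map_zero, map_zero, smul_zero, map_zero]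

lemma tayF_algebraMap (r : ℝ) : tayF δ π (algebraMap ℝ R r) = algebraMap ℝ (PowerSeries A) r := by
  refine ps_ext_dr ?_ ?_
  · rw [cc_tayF, AlgHom.commutes, PowerSeries.algebraMap_apply, PowerSeries.constantCoeff_C]
  · rw [dr_tayF, Derivation.map_algebraMap, tayF_zero, PowerSeries.algebraMap_apply, dr_C]

lemma tayF_mul (a b : R) : tayF δ π (a * b) = tayF δ π a * tayF δ π b := by
  have h : ∀ m : ℕ, ∀ a b : R, PowerSeries.coeff m (tayF δ π (a * b)) =
      PowerSeries.coeff m (tayF δ π a * tayF δ π b) := by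
    intro m
    induction m with
    | zero =>
      intro a b
      rw [PowerSeries.coeff_zero_eq_constantCoeff_apply,
        PowerSeries.coeff_zero_eq_constantCoeff_apply, map_mul, cc_tayF, cc_tayF, cc_tayF, map_mul]
    | succ m ih =>
      intro a b
      have h1 : PowerSeries.coeff m (dr (tayF δ π (a * b))) =
          PowerSeries.coeff m (dr (tayF δ π a * tayF δ π b)) := by
        have h2 : dr (tayF δ π a * tayF δ π b) =
            tayF δ π a * tayF δ π (δ b) + tayF δ π b * tayF δ π (δ a) := by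
          rw [← drD_apply, Derivation.leibniz, drD_apply, drD_apply, dr_tayF, dr_tayF,
            smul_eq_mul, smul_eq_mul]
        rw [h2, dr_tayF, Derivation.leibniz, smul_eq_mul, smul_eq_mul, tayF_add, map_add, map_add,
          ih, ih]
      rw [coeff_dr, coeff_dr] at h1
      have h3 := congrArg (fun x => ((m : ℝ) + 1)⁻¹ • x) h1
      simp only [smul_smul] at h3
      have h4 : ((m : ℝ) + 1) ≠ 0 := by positivity
      rwa [inv_mul_cancel₀ h4, one_smul, one_smul] at h3
  ext m
  exact h m a b

/-- the Taylor expansion as a homomorphism -/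
def tay : R →ₐ[ℝ] PowerSeries A where
  toFun := tayF δ π
  map_one' := by
    rw [← map_one (algebraMap ℝ R), tayF_algebraMap, map_one]
  map_mul' := tayF_mul δ π
  map_zero' := tayF_zero δ π
  map_add' := tayF_add δ π
  commutes' := tayF_algebraMap δ π

lemma coeff_tay (a : R) (m : ℕ) :
    PowerSeries.coeff m (tay δ π a) = (1 / (m.factorial : ℝ)) • π ((⇑δ)^[m] a) :=
  coeff_tayF δ π a m

lemma cc_tay (a : R) : PowerSeries.constantCoeff (tay δ π a) = π a := cc_tayF δ π a

lemma dr_tay (a : R) : dr (tay δ π a) = tay δ π (δ a) := dr_tayF δ π a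

/-- the Taylor expansion of a constant -/
lemma tay_const {a : R} (ha : δ a = 0) : tay δ π a = PowerSeries.C (π a) := by
  refine ps_ext_dr ?_ ?_
  · rw [cc_tay, PowerSeries.constantCoeff_C]
  · rw [dr_tay, ha, map_zero, dr_C]

/-- the Taylor expansion of the variable -/
lemma tay_X {r : R} (hr : δ r = 1) (h0 : π r = 0) : tay δ π r = PowerSeries.X := by
  refine ps_ext_dr ?_ ?_
  · rw [cc_tay, h0, PowerSeries.constantCoeff_X]
  · rw [dr_tay, hr, map_one]
    ext m
    rw [coeff_dr, PowerSeries.coeff_X, PowerSeries.coeff_one]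
    rcases m with _ | m
    · simp
    · simp

lemma psD_tay {D : Derivation ℝ R R} {d : Derivation ℝ A A} (hD : ∀ x, D (δ x) = δ (D x))
    (hπ : ∀ x, d (π x) = π (D x)) (a : R) : psD d (tay δ π a) = tay δ π (D a) := by
  ext m
  rw [coeff_psD, coeff_tay, coeff_tay, Derivation.map_smul, hπ]
  congr 2
  induction m with
  | zero => rfl
  | succ m ih => rw [Function.iterate_succ_apply', Function.iterate_succ_apply', hD, ih]

/-- if all the normal derivatives below order `k` vanish, the Taylor expansion is `O(ρ^k)` -/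
lemma tay_mem_OI {a : R} {k : ℕ} (h : ∀ m < k, π ((⇑δ)^[m] a) = 0) : tay δ π a ∈ OI A k := by
  rw [mem_OI]
  intro m hm
  rw [coeff_tay, h m hm, smul_zero]

end tay

section geom

variable {D : Fin (n + 2) → Derivation ℝ R R} {d : Fin n → Derivation ℝ A A} {π : R →ₐ[ℝ] A}
  (hD : ∀ (i : Fin n) x, D i.succ.succ (D 1 x) = D 1 (D i.succ.succ x))
  (hπ : ∀ (i : Fin n) x, d i (π x) = π (D i.succ.succ x))
  {r : R} (hr : D 1 r = 1) (h0 : π r = 0)
  (G H : Fin n → Fin n → R)

include hD hπ in
lemma tay_rel : RelOK (fun i : Fin n => De D i) (fun i => psD (d i))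
    (fun a b => tay (D 1) π a = b) :=
  relOK_hom _ _ (tay (D 1) π) (fun i a => (psD_tay (D 1) π (hD i) (hπ i) a).symm)

lemma tay_tauR : tay (D 1) π (tauR D G H) =
    tau (fun a b => tay (D 1) π (G a b)) (fun a b => tay (D 1) π (H a b)) := by
  unfold tauR tau
  simp only [map_sum, map_mul, dr_tay]

include hD hπ hr h0 in
lemma tay_fER (a b : Fin n) : tay (D 1) π (fER D r G H a b) =
    fgE (fun i => d i) (fun a b => tay (D 1) π (G a b)) (fun a b => tay (D 1) π (H a b)) a b := by
  have hric : tay (D 1) π (ric (fun i => De D i) (chr (fun i => De D i) G H) a b) =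
      ric (fun i => psd (d i)) (chr (fun i => psd (d i)) (fun a b => tay (D 1) π (G a b))
        (fun a b => tay (D 1) π (H a b))) a b :=
    (tay_rel hD hπ).ric ((tay_rel hD hπ).chr (g := G) (gi := H)
      (g' := fun a b => tay (D 1) π (G a b)) (gi' := fun a b => tay (D 1) π (H a b))
      (fun _ _ => rfl) (fun _ _ => rfl)) a b
  unfold fER fgE
  simp only [map_add, map_sub, map_mul, map_smul, map_sum, hric, tay_tauR, dr_tay,
    tay_X (D 1) π hr h0]

include hD hπ hr h0 in
lemma tay_LsR (s : ℝ) (φ : R) : tay (D 1) π (LsR D r G H s φ) =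
    Ls (fun i => d i) (fun a b => tay (D 1) π (G a b)) (fun a b => tay (D 1) π (H a b)) s
      (tay (D 1) π φ) := by
  have hlap : tay (D 1) π (lap (fun i => De D i) G H φ) =
      lap (fun i => psd (d i)) (fun a b => tay (D 1) π (G a b))
        (fun a b => tay (D 1) π (H a b)) (tay (D 1) π φ) :=
    (tay_rel hD hπ).lap (g := G) (gi := H)
      (g' := fun a b => tay (D 1) π (G a b)) (gi' := fun a b => tay (D 1) π (H a b))
      (fun _ _ => rfl) (fun _ _ => rfl) rfl
  unfold LsR Ls
  simp only [map_add, map_sub, map_neg, map_mul, map_smul, hlap, tay_tauR, dr_tay,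
    tay_X (D 1) π hr h0]

include hD hπ hr h0 in
lemma tay_chR (φ : R) (k : ℕ) : tay (D 1) π (chR D r G H 0 φ k) =
    Lchain (fun i => d i) (fun a b => tay (D 1) π (G a b)) (fun a b => tay (D 1) π (H a b))
      (tay (D 1) π φ) k := by
  induction k with
  | zero => rfl
  | succ k ih =>
    show tay (D 1) π (LsR D r G H (0 - 2 * (k : ℝ)) (chR D r G H 0 φ k)) = _
    rw [tay_LsR hD hπ hr h0, ih, zero_sub]
    rfl

end geom

end

end GJMS
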