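import Mathlib
import Pool.Agent.GJMS.AmbSm
import Pool.Agent.GJMS.Taylor
import Pool.Agent.GJMS.LsX

/-!
# Existence of the ambient metric and of extensions
-/

open Finset Set
open scoped ContDiff

set_option linter.unusedSectionVars false
set_option linter.unusedSimpArgs false

namespace GJMS.Smo

noncomputable section

variable {n : ℕ}

lemma fgG_deg {A : Type} [CommRing A] [Algebra ℝ A] (d : Fin n → A → A) (g gi : Fin n → Fin n → A)
    (j k : ℕ) (h : j < k) (a b : Fin n) : PowerSeries.coeff k (fgG d g gi j a b) = 0 := by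
  induction j with
  | zero =>
    show PowerSeries.coeff k (PowerSeries.C (g a b)) = 0
    rw [PowerSeries.coeff_C, if_neg (by omega)]
  | succ j ih =>
    show PowerSeries.coeff k (fgG d g gi j a b + PowerSeries.X ^ (j + 1) * PowerSeries.C _) = 0
    rw [map_add, ih (by omega), zero_add, PowerSeries.coeff_X_pow_mul', if_pos (by omega),
      PowerSeries.coeff_C, if_neg (by omega)]

section pull

variable {U : Set (Fin n → ℝ)} {W : Set (Fin (n + 2) → ℝ)}

/-- pullback as an algebra homomorphism -/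
def pull (hb : ∀ z ∈ W, bpt z ∈ U) : SmR U →ₐ[ℝ] SmR W where
  toFun a := ⟨fun z => a.1 ⟨bpt z, hb z z.2⟩, fun z => ext a (bpt z),
    smooth_pull hb (ext_smooth a), fun z => (ext_apply a (hb z z.2)).symm⟩
  map_one' := rfl
  map_mul' _ _ := rfl
  map_zero' := rfl
  map_add' _ _ := rfl
  commutes' _ := rfl

lemma pull_apply (hb : ∀ z ∈ W, bpt z ∈ U) (a : SmR U) (z : W) :
    (pull hb a).1 z = a.1 ⟨bpt z, hb z z.2⟩ := rfl

lemma pull_ext (hb : ∀ z ∈ W, bpt z ∈ U) (a : SmR U) :
    EqOn (ext (pull hb a)) (fun z => ext a (bpt z)) W := by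
  intro z hz
  rw [ext_apply _ hz, pull_apply]
  exact (ext_apply a (hb z hz)).symm

lemma pull_D0 (hU : IsOpen U) (hW : IsOpen W) (hb : ∀ z ∈ W, bpt z ∈ U) (a : SmR U) :
    smD hW 0 (pull hb a) = 0 := by
  refine sm_ext fun z => ?_
  rw [smD_apply, pd_congr hW 0 (pull_ext hb a) z.2, pd_pull hU (ext_smooth a) z (hb z z.2)]
  rfl

lemma pull_D1 (hU : IsOpen U) (hW : IsOpen W) (hb : ∀ z ∈ W, bpt z ∈ U) (a : SmR U) :
    smD hW 1 (pull hb a) = 0 := by
  refine sm_ext fun z => ?_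
  rw [smD_apply, pd_congr hW 1 (pull_ext hb a) z.2, pd_pull hU (ext_smooth a) z (hb z z.2)]
  rfl

lemma slice_pull {s : ℝ} (hi : ∀ x ∈ U, inc s x ∈ W) (hb : ∀ z ∈ W, bpt z ∈ U) (a : SmR U) :
    slice hi (pull hb a) = a := sm_ext fun x => rfl

end pull

/-- polynomial extension of a family of coefficient functions -/
def polyG {U : Set (Fin n → ℝ)} (m : ℕ) (c : ℕ → Fin n → Fin n → SmR U) (i j : Fin n) : Raw (n + 2) :=
  fun z => ∑ l ∈ range m, ext (c l i j) (bpt z) * (z 1) ^ l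

section poly

variable {U : Set (Fin n → ℝ)} {W : Set (Fin (n + 2) → ℝ)} (hb : ∀ z ∈ W, bpt z ∈ U) (m : ℕ)
  (c : ℕ → Fin n → Fin n → SmR U)

include hb in
lemma polyG_smooth (i j : Fin n) : ContDiffOn ℝ ∞ (polyG m c i j) W := by
  unfold polyG
  refine ContDiffOn.sum fun l _ => ?_
  exact (smooth_pull hb (ext_smooth (c l i j))).mul ((smooth_coord 1 W).pow l)

/-- the polynomial extension in the ring of smooth functions -/
def polyS (i j : Fin n) : SmR W := ∑ l ∈ range m, pull hb (c l i j) * (rS W) ^ l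

lemma polyG_RR (i j : Fin n) : RR W (polyG m c i j) (polyS hb m c i j) := by
  refine ⟨polyG_smooth hb m c i j, fun z => ?_⟩
  unfold polyG polyS
  rw [← evW_apply, map_sum]
  refine Finset.sum_congr rfl fun l _ => ?_
  rw [map_mul, map_pow, evW_apply, evW_apply, pull_apply, ext_apply _ (hb z z.2)]
  rfl

lemma polyS_D0 (hU : IsOpen U) (hW : IsOpen W) (i j : Fin n) : smD hW 0 (polyS hb m c i j) = 0 := by
  unfold polyS
  rw [map_sum]
  refine Finset.sum_eq_zero fun l _ => ?_
  rw [Derivation.leibniz, pull_D0 hU hW, Derivation.leibniz_pow, (sys_sm hW).r0]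
  simp

end poly

section ricci

variable {U : Set (Fin n → ℝ)} {W : Set (Fin (n + 2) → ℝ)} (hU : IsOpen U) (hW : IsOpen W)
  (hb : ∀ z ∈ W, bpt z ∈ U) {s : ℝ} (hi : ∀ x ∈ U, inc s x ∈ W)

include hU in
lemma tay_mono (l' : ℕ) (a : SmR U) : tay (smD hW 1) (slice hi) (pull hb a * (rS W) ^ l') =
    PowerSeries.C a * PowerSeries.X ^ l' := by
  have hτX : tay (smD hW 1) (slice hi) (rS W) = PowerSeries.X :=
    tay_X _ _ (sys_sm hW).r1 (sm_ext fun x => rfl)
  have h2 : tay (smD hW 1) (slice hi) (pull hb a) = PowerSeries.C a := by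
    have h3 := tay_const (smD hW 1) (slice hi) (pull_D1 hU hW hb a)
    rw [slice_pull] at h3
    exact h3
  rw [map_mul, map_pow, hτX, h2]

include hU in
lemma tay_poly (Γ : Fin n → Fin n → PowerSeries (SmR U)) (m : ℕ)
    (hd : ∀ l, m < l → ∀ i j, PowerSeries.coeff l (Γ i j) = 0) (i j : Fin n) :
    tay (smD hW 1) (slice hi) (polyS hb (m + 1) (fun l i j => PowerSeries.coeff l (Γ i j)) i j) =
      Γ i j := by
  unfold polyS
  rw [map_sum, Finset.sum_congr rfl fun l' _ => tay_mono hU hW hb hi l' _]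
  ext l
  rw [map_sum]
  have h2 : ∀ l', PowerSeries.coeff l (PowerSeries.C (PowerSeries.coeff l' (Γ i j)) *
      PowerSeries.X ^ l') = if l = l' then PowerSeries.coeff l' (Γ i j) else 0 := by
    intro l'
    rw [PowerSeries.coeff_C_mul, PowerSeries.coeff_X_pow]
    split_ifs <;> simp
  rw [Finset.sum_congr rfl fun l' _ => h2 l', Finset.sum_ite_eq]
  split_ifs with hl
  · rfl
  · rw [Finset.mem_range] at hl
    exact (hd l (by omega) i j).symm

lemma tay_inv {π : SmR W →ₐ[ℝ] SmR U} {δ : Derivation ℝ (SmR W) (SmR W)}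
    {Gs Hs : Fin n → Fin n → SmR W} {Γ K : Fin n → Fin n → PowerSeries (SmR U)}
    (hG : ∀ i j, tay δ π (Gs i j) = Γ i j)
    (hHs : ∀ a b, ∑ c, Hs a c * Gs b c = if a = b then 1 else 0)
    (hK : ∀ a b, ∑ c, K a c * Γ b c = if a = b then 1 else 0) (i j : Fin n) :
    tay δ π (Hs i j) = K i j := by
  refine inv_unique (g := Γ) (x := fun i j => tay δ π (Hs i j)) ?_ hK i j
  intro a b
  have h3 := congrArg (tay δ π) (hHs a b)
  rw [map_sum] at h3
  have h4 : tay δ π (if a = b then 1 else 0) = if a = b then 1 else 0 := by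
    split_ifs
    · exact map_one _
    · exact map_zero _
  rw [h4] at h3
  rw [← h3]
  exact Finset.sum_congr rfl fun c _ => by rw [map_mul, hG]

lemma slice_fER_zero {Gs Hs : Fin n → Fin n → SmR W} {Γ K : Fin n → Fin n → PowerSeries (SmR U)}
    (hG : ∀ i j, tay (smD hW 1) (slice hi) (Gs i j) = Γ i j)
    (hH : ∀ i j, tay (smD hW 1) (slice hi) (Hs i j) = K i j) (i j : Fin n) (k M : ℕ) (hk : k < M)
    (hF : fgE (fun i => smD hU i) Γ K i j ∈ OI (SmR U) M) :
    slice hi ((smD hW 1)^[k] (fER (fun i => smD hW i) (rS W) Gs Hs i j)) = 0 := by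
  have h5 := tay_fER (D := fun i => smD hW i) (d := fun i => smD hU i) (π := slice hi)
    (fun i x => smD_comm hW _ _ x) (fun i x => (slice_smD hU hW hi x i).symm) (sys_sm hW).r1
    (sm_ext fun x => rfl) Gs Hs i j
  have e1 : (fun a b => tay (smD hW 1) (slice hi) (Gs a b)) = Γ := by
    funext a b; exact hG a b
  have e2 : (fun a b => tay (smD hW 1) (slice hi) (Hs a b)) = K := by
    funext a b; exact hH a b
  rw [e1, e2] at h5
  have h6 := mem_OI.1 hF k hk
  rw [← h5, coeff_tay] at h6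
  have h7 := congrArg (fun a : SmR U => ((k.factorial : ℝ)) • a) h6
  simp only [smul_smul, smul_zero] at h7
  rwa [mul_one_div_cancel (by positivity), one_smul] at h7

lemma slice_zero_val {a : SmR W} (h : slice hi a = 0) {z : Fin (n + 2) → ℝ} (hz : z ∈ W)
    (hs : s = z 0) (hz1 : z 1 = 0) (hb : ∀ z ∈ W, bpt z ∈ U) : a.1 ⟨z, hz⟩ = 0 := by
  have h8 := congrArg (fun a : SmR U => a.1 ⟨bpt z, hb z hz⟩) h
  have h10 : (⟨inc s (bpt z), hi _ (hb z hz)⟩ : W) = ⟨z, hz⟩ :=
    Subtype.ext (by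
      show inc s (bpt z) = z
      rw [hs]; exact inc_bpt z hz1)
  have h11 : (slice hi a).1 ⟨bpt z, hb z hz⟩ = a.1 ⟨z, hz⟩ := by
    rw [slice_apply]
    exact congrArg _ h10
  rw [← h11]
  exact h8

lemma iter_smulR (i : Fin (n + 2)) (k : ℕ) (r : ℝ) (a : SmR W) :
    (smD hW i)^[k] (r • a) = r • (smD hW i)^[k] a := by
  induction k generalizing a with
  | zero => rfl
  | succ k ih =>
    rw [Function.iterate_succ_apply, Derivation.map_smul, ih]
    rfl

end ricci

section exist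

variable {U : Set (Fin n → ℝ)} {g : Fin n → Fin n → Raw n}

theorem amb_exists (hn : Even n) (h4 : 4 ≤ n) (hg : IsMet U g) :
    ∃ W G, IsAmb U g W G ∧ ∀ z, bpt z ∈ U → z 1 = 0 → z ∈ W := by
  obtain ⟨m', hm'⟩ := hn
  have hn2 : n / 2 = m' := by omega
  have hm1 : 1 ≤ m' := by omega
  obtain ⟨m, hm⟩ : ∃ m, m' = m + 1 := ⟨m' - 1, by omega⟩
  have hU := hg.open_U
  -- the ring over the base
  set gs : Fin n → Fin n → SmR U := fun i j => res (hg.smooth i j) with hgs
  have hgss : ∀ i j, gs i j = gs j i := fun i j => sm_ext fun x => hg.symm x x.2 i j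
  obtain ⟨gis, hgis⟩ := exists_inv_sm gs (fun x => hg.nondeg x x.2)
  set Γ := fgG (fun i => smD hU i) gs gis m with hΓ
  have hΓs : ∀ i j, Γ i j = Γ j i := fgG_symm (fun i => smD hU i) (smD_comm hU) gs gis hgss hgis m
  set c : ℕ → Fin n → Fin n → SmR U := fun l i j => PowerSeries.coeff l (Γ i j) with hc
  have hc0 : ∀ i j, c 0 i j = gs i j := by
    intro i j
    rw [hc]
    show PowerSeries.coeff 0 (Γ i j) = _
    rw [PowerSeries.coeff_zero_eq_constantCoeff_apply]
    exact fgG_cc _ gs gis m i j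
  have hcs : ∀ l i j, c l i j = c l j i := by
    intro l i j
    show PowerSeries.coeff l (Γ i j) = PowerSeries.coeff l (Γ j i)
    rw [hΓs]
  set G : Fin n → Fin n → Raw (n + 2) := polyG (m + 1) c with hG
  have hGs : ∀ i j, G i j = G j i := by
    intro i j
    funext z
    show ∑ l ∈ range (m + 1), ext (c l i j) (bpt z) * (z 1) ^ l =
      ∑ l ∈ range (m + 1), ext (c l j i) (bpt z) * (z 1) ^ l
    exact Finset.sum_congr rfl fun l _ => by rw [hcs]
  have hinit : ∀ z, bpt z ∈ U → z 1 = 0 → ∀ i j, G i j z = g i j (bpt z) := by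
    intro z hz hz1 i j
    show ∑ l ∈ range (m + 1), ext (c l i j) (bpt z) * (z 1) ^ l = _
    rw [hz1, Finset.sum_range_succ', Finset.sum_eq_zero fun l _ => by simp, zero_add, pow_zero,
      mul_one, hc0, ext_apply _ hz]
    rfl
  -- the domain
  set W0 : Set (Fin (n + 2) → ℝ) := bpt ⁻¹' U with hW0
  have hW0o : IsOpen W0 := hU.preimage (bptL n).continuous
  set W : Set (Fin (n + 2) → ℝ) :=
    W0 ∩ (fun z => Matrix.det (Matrix.of fun i j => G i j z)) ⁻¹' {0}ᶜ with hWd
  have hcont : ContinuousOn (fun z => Matrix.det (Matrix.of fun i j => G i j z)) W0 := by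
    refine ContinuousOn.congr (f := fun z => ∑ p : Equiv.Perm (Fin n), (Equiv.Perm.sign p : ℝ) *
      ∏ i, G (p i) i z) ?_ fun z _ => ?_
    · refine continuousOn_finsetSum _ fun p _ => ?_
      refine continuousOn_const.mul (continuousOn_finsetProd _ fun i _ => ?_)
      exact (polyG_smooth (fun z hz => hz) (m + 1) c (p i) i).continuousOn
    · show Matrix.det (Matrix.of fun i j => G i j z) = _
      rw [Matrix.det_apply']
      rfl
  have hWo : IsOpen W := hcont.isOpen_inter_preimage hW0o isOpen_compl_singleton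
  have hb : ∀ z ∈ W, bpt z ∈ U := fun z hz => hz.1
  have hall : ∀ z, bpt z ∈ U → z 1 = 0 → z ∈ W := by
    intro z hz hz1
    refine ⟨hz, ?_⟩
    show Matrix.det (Matrix.of fun i j => G i j z) ≠ 0
    have : (Matrix.of fun i j => G i j z) = Matrix.of fun i j => g i j (bpt z) := by
      ext i j
      exact hinit z hz hz1 i j
    rw [this]
    exact hg.nondeg _ hz
  refine ⟨W, G, ?_, hall⟩
  have hRR : ∀ i j, RR W (G i j) (polyS hb (m + 1) c i j) := polyG_RR hb (m + 1) c
  have hSs : ∀ i j, polyS hb (m + 1) c i j = polyS hb (m + 1) c j i := by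
    intro i j
    refine sm_ext fun z => ?_
    rw [← (hRR i j).2 z, ← (hRR j i).2 z, hGs]
  obtain ⟨Hs, hHs⟩ := exists_inv_sm (polyS hb (m + 1) c) (fun z => by
    have : (Matrix.of fun a b => (polyS hb (m + 1) c a b).1 z) = Matrix.of fun i j => G i j z := by
      ext i j
      exact ((hRR i j).2 z).symm
    rw [this]
    exact z.2.2)
  refine ⟨hWo, hb, polyG_smooth hb (m + 1) c, fun z hz i j => by rw [hGs], fun z hz => hz.2, ?_,
    fun z hz hz1 i j => hinit z hz.1 hz1 i j, ?_⟩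
  · intro z hz i j
    have h1 := ((relOK_sm hWo).d 0 (hRR i j)).2 ⟨z, hz⟩
    rw [h1, polyS_D0 hb (m + 1) c hU hWo]
    rfl
  · -- the Ricci tensor
    intro i j k hk z hz hz1
    have hk' : k < m := by omega
    have hi : ∀ x ∈ U, inc (z 0) x ∈ W := fun x hx => hall _ (by rw [bpt_inc]; exact hx) rfl
    have h1 := (RR_iter hWo 1 (RR_ric hWo hRR hSs hHs i.succ.succ j.succ.succ) k).2 ⟨z, hz⟩
    rw [h1, aR_ee (sys_sm hWo) hSs hHs (polyS_D0 hb (m + 1) c hU hWo), iter_smulR]
    have hτG := tay_poly hU hWo hb hi Γ m (fun l hl i j => fgG_deg _ gs gis m l hl i j)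
    have hτH := tay_inv hτG hHs (fgG_inv (fun i => smD hU i) (smD_comm hU) gs gis hgss hgis m)
    have h2 := slice_fER_zero hU hWo hi hτG hτH i j k m hk'
      (fgG_solves (fun i => smD hU i) (smD_comm hU) gs gis hgss hgis m (by omega) i j)
    have h3 := slice_zero_val hi h2 hz rfl hz1 hb
    show (1 / 2 : ℝ) • ((smD hWo 1)^[k] (fER (fun i => smD hWo i) (rS W)
        (polyS hb (m + 1) c) Hs i j)).1 ⟨z, hz⟩ = 0
    rw [hc, h3, smul_zero]

theorem ext_exists (hU : IsOpen U) {f : Raw n} (hf : ContDiffOn ℝ ∞ f U) {W : Set (Fin (n + 2) → ℝ)}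
    (hb : ∀ z ∈ W, bpt z ∈ U) : ∃ F, IsExt f W F :=
  ⟨fun z => f (bpt z), smooth_pull hb hf, fun z hz => pd_pull hU hf z (hb z hz) 0, fun _ _ _ => rfl⟩

end exist

end

end GJMS.Smo
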