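import Pool.Agent.GJMS.AmbSm
import Pool.Agent.GJMS.LsX
import Pool.Agent.GJMS.Taylor

/-!
# The critical power of the ambient Laplacian is `P_n`
-/

open Finset Set
open scoped ContDiff

set_option linter.unusedSectionVars false

namespace GJMS

noncomputable section

/-- the tangential part of the ambient Ricci tensor -/
lemma fER_two {n : ℕ} {R : Type} [CommRing R] [Algebra ℝ R]
    {D : Fin (n + 2) → Derivation ℝ R R} {T Ti r : R} (hA : AmbSys D T Ti r)
    {G H : Fin n → Fin n → R} (hG : ∀ i j, G i j = G j i)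
    (hH : ∀ i j, ∑ k, H i k * G j k = if i = j then 1 else 0) (hG0 : ∀ i j, D 0 (G i j) = 0)
    (i j : Fin n) :
    fER D r G H i j = (2 : ℝ) • aR D T Ti r G H i.succ.succ j.succ.succ := by
  rw [aR_ee hA hG hH hG0, smul_smul]
  norm_num

/-- the critical power of the ambient Laplacian of an extension is given by `P_n` -/
theorem amb_Pn {n : ℕ} (hn : Even n) (h4 : 4 ≤ n) {U : Set (Fin n → ℝ)}
    {g : Fin n → Fin n → Raw n} (hg : IsMet U g) {W : Set (Fin (n + 2) → ℝ)}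
    {G : Fin n → Fin n → Raw (n + 2)} (hG : IsAmb U g W G) {f : Raw n}
    (hf : ContDiffOn ℝ ∞ f U) {F : Raw (n + 2)} (hF : IsExt f W F)
    {z : Fin (n + 2) → ℝ} (hz : z ∈ W) (hz1 : z 1 = 0) :
    (lap pd (ambG G) (minv (ambG G)))^[n / 2] F z =
      Real.exp (-(n * z 0)) * Pn n (Raw n) pd g (minv g) f (bpt z) := by
  obtain ⟨m, hm⟩ := hn
  have hn2 : n / 2 = m := by omega
  have hm1 : 1 ≤ m := by omega
  have hW := hG.open_W
  -- the fields in the ring of smooth functions on `W`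
  set Gs : Fin n → Fin n → Smo.SmR W := fun i j => Smo.res (hG.smooth i j) with hGs
  have hR : ∀ i j, Smo.RR W (G i j) (Gs i j) := fun i j => Smo.RR_res _
  have hs : ∀ i j, Gs i j = Gs j i := fun i j => Smo.sm_ext fun z => hG.symm z z.2 i j
  obtain ⟨Hs, hH⟩ := Smo.exists_inv_sm Gs (fun z => hG.nondeg z z.2)
  set D : Fin (n + 2) → Derivation ℝ (Smo.SmR W) (Smo.SmR W) := fun i => Smo.smD hW i with hDdef
  have hA : AmbSys D (Smo.TS W) (Smo.TiS W) (Smo.rS W) := Smo.sys_sm hW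
  have hG0 : ∀ i j, D 0 (Gs i j) = 0 := fun i j => Smo.sm_ext fun z => by
    show (Smo.smD hW 0 (Smo.res (hG.smooth i j))).1 z = 0
    rw [Smo.smD_res]
    exact hG.homog z z.2 i j
  set Fs : Smo.SmR W := Smo.res hF.smooth with hFs
  have hF0 : D 0 Fs = 0 := Smo.sm_ext fun z => by
    show (Smo.smD hW 0 (Smo.res hF.smooth)).1 z = 0
    rw [Smo.smD_res]
    exact hF.homog z z.2
  -- the slice
  set s : ℝ := z 0 with hsdef
  set V : Set (Fin n → ℝ) := {x | Smo.inc s x ∈ W} with hVdef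
  have hV : IsOpen V := hW.preimage (Smo.contDiff_inc s).continuous
  have hi : ∀ x ∈ V, Smo.inc s x ∈ W := fun x hx => hx
  have hVU : V ⊆ U := fun x hx => hG.base _ hx
  set π := Smo.slice hi with hπdef
  set d : Fin n → Derivation ℝ (Smo.SmR V) (Smo.SmR V) := fun i => Smo.smD hV i with hddef
  have hπ : ∀ (i : Fin n) x, d i (π x) = π (D i.succ.succ x) :=
    fun i x => (Smo.slice_smD hV hW hi x i).symm
  have hD : ∀ (i : Fin n) x, D i.succ.succ (D 1 x) = D 1 (D i.succ.succ x) :=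
    fun i x => Smo.smD_comm hW _ _ _
  have hr0 : π (Smo.rS W) = 0 := Smo.sm_ext fun x => rfl
  -- the metric and the function on the slice
  set g0 : Fin n → Fin n → Smo.SmR V := fun i j => π (Gs i j) with hg0
  set gi0 : Fin n → Fin n → Smo.SmR V := fun i j => π (Hs i j) with hgi0
  have hRg : ∀ i j, Smo.RR V (g i j) (g0 i j) := fun i j =>
    ⟨(hg.smooth i j).mono hVU, fun x => (hG.init (Smo.inc s x) (hi x x.2) rfl i j).symm⟩
  have hg0s : ∀ i j, g0 i j = g0 j i := fun i j => congrArg π (hs i j)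
  have hgi0s : ∀ i j, ∑ k, gi0 i k * g0 j k = if i = j then 1 else 0 := by
    intro i j
    have := congrArg π (hH i j)
    rw [map_sum] at this
    simp only [map_mul] at this
    rw [show (∑ k, gi0 i k * g0 j k) = ∑ k, π (Hs i k) * π (Gs j k) from rfl, this]
    split_ifs
    · exact map_one _
    · exact map_zero _
  have hRgi : ∀ i j, Smo.RR V (minv g i j) (gi0 i j) := Smo.RR_minv hRg hg0s hgi0s
  have hRf : Smo.RR V f (π Fs) :=
    ⟨hf.mono hVU, fun x => (hF.init (Smo.inc s x) (hi x x.2) rfl).symm⟩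
  -- the Taylor expansions
  set Γ : Fin n → Fin n → PowerSeries (Smo.SmR V) :=
    fun i j => tay (D 1) π (Gs i j) with hΓ
  set Θ : Fin n → Fin n → PowerSeries (Smo.SmR V) :=
    fun i j => tay (D 1) π (Hs i j) with hΘ
  have hΓs : ∀ i j, Γ i j = Γ j i := fun i j =>
    congrArg (tay (D 1) π) (hs i j)
  have hΘs : ∀ i j, ∑ k, Θ i k * Γ j k = if i = j then 1 else 0 := by
    intro i j
    have := congrArg (tay (D 1) π) (hH i j)
    rw [map_sum] at this
    simp only [map_mul] at this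
    rw [show (∑ k, Θ i k * Γ j k) = ∑ k, tay (D 1) π (Hs i k) *
      tay (D 1) π (Gs j k) from rfl, this]
    split_ifs
    · exact map_one _
    · exact map_zero _
  have hΓc : ∀ i j, PowerSeries.constantCoeff (Γ i j) = g0 i j := fun i j => cc_tay _ _ _
  have hFG : ∀ i j, fgE (fun i => d i) Γ Θ i j ∈ OI (Smo.SmR V) (m - 1) := by
    intro i j
    rw [← tay_fER hD hπ hA.r1 hr0 Gs Hs i j]
    rw [fER_two hA hs hH hG0 i j, map_smul]
    refine OI_smul _ (tay_mem_OI _ _ ?_)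
    intro k hk
    refine Smo.sm_ext fun x => ?_
    have h3 := (Smo.RR_iter hW 1 (Smo.RR_ric hW hR hs hH i.succ.succ j.succ.succ) k).2
      ⟨Smo.inc s x, hi x x.2⟩
    rw [hπdef, Smo.slice_apply]
    refine h3.symm.trans ?_
    exact hG.ricci i j k (by omega) (Smo.inc s x) (hi x x.2) rfl
  -- comparison with the Fefferman-Graham solution
  have hdc : ∀ (i j : Fin n) x, d i (d j x) = d j (d i x) :=
    fun i j x => Smo.smD_comm hV i j x
  set G2 := fgG (fun i => d i) g0 gi0 (m - 1) with hG2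
  set H2 := invS g0 gi0 G2 with hH2
  have hG2s : ∀ a b, G2 a b = G2 b a := fgG_symm _ hdc g0 gi0 hg0s hgi0s (m - 1)
  have hH2s : ∀ a b, ∑ c, H2 a c * G2 b c = if a = b then 1 else 0 :=
    fgG_inv _ hdc g0 gi0 hg0s hgi0s (m - 1)
  have hF2 : ∀ a b, fgE (fun i => d i) G2 H2 a b ∈ OI (Smo.SmR V) (m - 1) :=
    fgG_solves _ hdc g0 gi0 hg0s hgi0s (m - 1) (by omega)
  have hG2c : ∀ a b, PowerSeries.constantCoeff (G2 a b) = g0 a b := fgG_cc _ g0 gi0 (m - 1)
  have hsub : ∀ a b, Γ a b - G2 a b ∈ OI (Smo.SmR V) m := by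
    intro a b
    have := fg_unique _ hg0s hgi0s hΓs hG2s hΘs hH2s hΓc hG2c (M := m - 1) (by omega) hFG hF2
      (m - 1) le_rfl a b
    rwa [Nat.sub_add_cancel hm1] at this
  have hsubH : ∀ a b, Θ a b - H2 a b ∈ OI (Smo.SmR V) m :=
    inv_sub_memP hΓs hG2s hΘs hH2s hsub
  -- the chain
  have hchain : π (chR D (Smo.rS W) Gs Hs 0 Fs m) =
      Pn n (Smo.SmR V) (fun i => d i) g0 gi0 (π Fs) := by
    rw [← cc_tay (D 1) π, tay_chR hD hπ hA.r1 hr0 Gs Hs Fs m,
      Lchain_cc_C _ _ _ (by omega : n = 2 * m), cc_tay]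
    unfold Pn
    rw [hn2]
    exact Lchain_cc _ hm1 hsub hsubH (π Fs)
  -- evaluation
  have hx : bpt z ∈ V := by
    show Smo.inc s (bpt z) ∈ W
    rw [Smo.inc_bpt z hz1]
    exact hz
  have h1 := (Smo.RR_lap hW hR hs hH (Smo.RR_res hF.smooth) (n / 2)).2 ⟨z, hz⟩
  refine h1.trans ?_
  rw [alap_pow hA hs hH hG0 (Smo.res hF.smooth) hF0, hn2]
  have h2 : (chR D (Smo.rS W) Gs Hs 0 Fs m).1 ⟨z, hz⟩ =
      Pn n (Raw n) pd g (minv g) f (bpt z) := by
    have h3 := (Pn_rel (Smo.relOK_sm hV) hRg hRgi hRf).2 ⟨bpt z, hx⟩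
    have h5 : (⟨Smo.inc s (bpt z), hi (bpt z) hx⟩ : W) = ⟨z, hz⟩ :=
      Subtype.ext (Smo.inc_bpt z hz1)
    rw [h3, ← hchain, hπdef, Smo.slice_apply, h5]
  show (Real.exp (-2 * z 0)) ^ m * (chR D (Smo.rS W) Gs Hs 0 Fs m).1 ⟨z, hz⟩ = _
  rw [h2, ← Real.exp_nat_mul]
  congr 2
  have hnr : (n : ℝ) = m + m := by exact_mod_cast hm
  rw [hnr]
  ring

end

end GJMS
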