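import Pool.Agent.GJMS.Zar

/-! # Conformal invariance on smooth metrics implies conformal invariance over all rings -/

open Finset MvPolynomial Set
open scoped ContDiff

namespace GJMS

noncomputable section

variable {n : ℕ}

lemma jetHom_smooth {Φ : Type} (φ : Φ → Raw n) (hφ : ∀ o, Sm (φ o)) (P : JR Φ n) :
    Sm (jetHom pd φ P) := by
  unfold jetHom
  have h := aeval_smooth (U := Set.univ) (fun v : Φ × Multiset (Fin n) => mD pd v.2 (φ v.1))
    (fun v => contDiffOn_univ.2 ((hφ v.1).mD v.2)) P
  exact contDiffOn_univ.1 h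

lemma jetHom_pd {Φ : Type} (φ : Φ → Raw n) (hφ : ∀ o, Sm (φ o)) (i : Fin n) (P : JR Φ n) :
    pd i (jetHom pd φ P) = jetHom pd φ (jd i P) := by
  funext x
  unfold jetHom
  refine aeval_pd (U := Set.univ) isOpen_univ (fun i => jd i)
    (fun v : Φ × Multiset (Fin n) => mD pd v.2 (φ v.1))
    (fun v => contDiffOn_univ.2 ((hφ v.1).mD v.2)) (fun i v => ?_) i P (mem_univ x)
  rw [jd_X, aeval_X]
  exact (mD_cons_raw isOpen_univ i v.2 (contDiffOn_univ.2 (hφ v.1))).symm

lemma foldr_jetHom {Φ : Type} (φ : Φ → Raw n) (hφ : ∀ o, Sm (φ o)) (l : List (Fin n)) (P : JR Φ n) :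
    l.foldr pd (jetHom pd φ P) = jetHom pd φ (l.foldr (fun i => jd i) P) := by
  induction l with
  | nil => rfl
  | cons i l ih => rw [List.foldr_cons, ih, jetHom_pd φ hφ]; rfl

lemma mD_jetHom {Φ : Type} (φ : Φ → Raw n) (hφ : ∀ o, Sm (φ o)) (s : Multiset (Fin n)) (P : JR Φ n) :
    mD pd s (jetHom pd φ P) = jetHom pd φ (mD (fun i => jd i) s P) := foldr_jetHom φ hφ _ P

lemma eval_jetHom {Φ Ψ : Type} (φ : Φ → Raw n) (hφ : ∀ o, Sm (φ o)) (ψ : Ψ → JR Φ n)
    (P : JR Ψ n) (x : Fin n → ℝ) :
    eval (jet0 φ x) (jetHom (fun i => jd i) ψ P)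
      = eval (jet0 (fun o => jetHom pd φ (ψ o)) x) P := by
  have h1 : ∀ Q : JR Φ n, eval (jet0 φ x) Q = (jetHom pd φ Q) x := by
    intro Q
    unfold jetHom
    rw [raw_eval]
    rfl
  induction P using MvPolynomial.induction_on with
  | C r => rw [← MvPolynomial.algebraMap_eq, AlgHom.commutes, MvPolynomial.algebraMap_eq,
      MvPolynomial.algebraMap_eq, eval_C, eval_C]
  | add p q hp hq => rw [map_add, map_add, map_add, hp, hq]
  | mul_X p v hp =>
    rw [map_mul, map_mul, map_mul, hp, eval_X, jetHom_X, h1]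
    unfold jet0
    rw [mD_jetHom φ hφ]

/-- conformal invariance `E(0) → E(-n)` on smooth positive definite metrics on `ℝ^n` -/
def ConfSm (E : NatFam n) : Prop :=
  ∀ (g gi : Fin n → Fin n → Raw n) (f w : Raw n), (∀ a b, Sm (g a b)) → Sm f → Sm w →
    (∀ a b, g a b = g b a) →
    (∀ x, ∀ y : Fin n → ℝ, y ≠ 0 → 0 < ∑ a, ∑ b, g a b x * (y a * y b)) →
    (∀ x a b, ∑ c, gi a c x * g b c x = if a = b then 1 else 0) → ∀ x,
    E.ev (Raw n) pd (fun a b => (fun x => Real.exp (2 * w x)) * g a b)
      (fun a b => (fun x => Real.exp (-(2 * w x))) * gi a b) f x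
    = Real.exp (-((n : ℝ) * w x)) * E.ev (Raw n) pd g gi f x

lemma exists_inv (M : Fin n → Fin n → ℝ) (hM : ∀ a b, M a b = M b a)
    (hpos : ∀ y : Fin n → ℝ, y ≠ 0 → 0 < ∑ a, ∑ b, M a b * (y a * y b)) :
    ∃ Mi : Fin n → Fin n → ℝ, ∀ a b, ∑ c, Mi a c * M b c = if a = b then 1 else 0 := by
  have hdet : Matrix.det (Matrix.of M) ≠ 0 := by
    intro h0
    obtain ⟨v, hv, h1⟩ := Matrix.exists_mulVec_eq_zero_iff.2 h0
    have h2 := hpos v hv
    have h3 : ∑ a, ∑ b, M a b * (v a * v b) = 0 := by
      have h4 : ∀ a, ∑ b, M a b * (v a * v b) = v a * (∑ b, M a b * v b) := by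
        intro a
        rw [Finset.mul_sum]
        exact Finset.sum_congr rfl fun b _ => by ring
      simp_rw [h4]
      refine Finset.sum_eq_zero fun a _ => ?_
      have h5 := congrFun h1 a
      rw [Matrix.mulVec, dotProduct] at h5
      simp only [Matrix.of_apply, Pi.zero_apply] at h5
      rw [h5, mul_zero]
    linarith
  refine ⟨fun a b => (Matrix.of M)⁻¹ a b, fun a b => ?_⟩
  have h1 : (Matrix.of M)⁻¹ * Matrix.of M = 1 :=
    Matrix.nonsing_inv_mul _ (isUnit_iff_ne_zero.2 hdet)
  have h2 := congrFun (congrFun h1 a) b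
  rw [Matrix.mul_apply, Matrix.one_apply] at h2
  rw [← h2]
  exact Finset.sum_congr rfl fun c _ => by rw [Matrix.of_apply, hM b c]

/-- the generic metric, function and conformal factor -/
def gV (a b : Fin n) : JR (Option (Fld n)) n := X (some (some s(a, b)), 0)
/-- the generic function -/
def fV : JR (Option (Fld n)) n := X (some none, 0)
/-- the generic conformal factor -/
def uV : JR (Option (Fld n)) n := X (none, 0)

lemma conf_poly (E : NatFam n) (hE : ConfSm E) :
    uV ^ n * jetHom (fun i => jd i) (fld (fun a b => uV ^ 2 * gV a b) (fV (n := n))) E.p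
      = uV ^ (2 * n * E.N) * jetHom (fun i => jd i) (fld gV fV) E.p := by
  rw [← sub_eq_zero]
  apply zariski
  intro g f u hg hf hu hsymm hpos hupos
  have hφ : ∀ o, Sm (fldv g f u o) := by
    intro o
    rcases o with _ | o
    · exact hu
    · rcases o with _ | s
      · exact hf
      · exact hg _ _
  choose Mi hMi using fun x => exists_inv (fun a b => g a b x) (fun a b => by rw [hsymm]) (hpos x)
  set gi : Fin n → Fin n → Raw n := fun a b x => Mi x a b with hgi
  have h0 := (E.raw_p (U := Set.univ) isOpen_univ g gi f (fun a b => contDiffOn_univ.2 (hg a b))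
    (contDiffOn_univ.2 hf) hsymm (fun x _ => hMi x) (mem_univ (0 : Fin n → ℝ)))
  set w' : Raw n := fun x => Real.log (u x) with hw'
  have hws : Sm w' := hu.log fun x => (hupos x).ne'
  have hexp : (fun x => Real.exp (2 * w' x)) = u ^ 2 := by
    funext x
    rw [hw']
    simp only [Pi.pow_apply]
    rw [mul_comm, Real.exp_mul, Real.exp_log (hupos x)]
    norm_num
  have hexpi : ∀ x, Real.exp (-(2 * w' x)) = (u x ^ 2)⁻¹ := by
    intro x
    rw [Real.exp_neg]
    have := congrFun hexp x
    simp only [Pi.pow_apply] at this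
    rw [this]
  have h1 := hE g gi f w' hg hf hws hsymm hpos hMi 0
  have hg' : ∀ a b, Sm ((fun x => Real.exp (2 * w' x)) * g a b) := by
    intro a b
    rw [hexp]
    exact (hu.pow 2).mul (hg a b)
  have h2 := (E.raw_p (U := Set.univ) isOpen_univ
    (fun a b => (fun x => Real.exp (2 * w' x)) * g a b)
    (fun a b => (fun x => Real.exp (-(2 * w' x))) * gi a b) f
    (fun a b => contDiffOn_univ.2 (hg' a b))
    (contDiffOn_univ.2 hf) (fun a b => by rw [hsymm]) (fun x _ a b => by
      rw [← hMi x a b]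
      refine Finset.sum_congr rfl fun c _ => ?_
      simp only [Pi.mul_apply]
      have : Real.exp (-(2 * w' x)) * Real.exp (2 * w' x) = 1 := by
        rw [← Real.exp_add]; simp
      calc _ = (Real.exp (-(2 * w' x)) * Real.exp (2 * w' x)) * (gi a c x * g b c x) := by ring
        _ = _ := by rw [this, one_mul]) (mem_univ (0 : Fin n → ℝ)))
  rw [h1] at h2
  -- evaluate the polynomials
  have e1 : eval (jet0 (fldv g f u) 0) (jetHom (fun i => jd i) (fld gV fV) E.p)
      = eval (jet0 (fld g f) 0) E.p := by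
    rw [eval_jetHom _ hφ]
    have h3 : (fun o => jetHom pd (fldv g f u) (fld gV (fV (n := n)) o)) = fld g f := by
      funext o
      rcases o with _ | s
      · rw [fld_none, fld_none]
        unfold fV
        rw [jetHom_X, mD_zero]
        rfl
      · induction s using Sym2.ind with
        | _ a b =>
          rw [fld_some gV (fun a b => by unfold gV; rw [Sym2.eq_swap]), fld_some g hsymm]
          unfold gV
          rw [jetHom_X, mD_zero]
          show fld g f (some s(a, b)) = _
          rw [fld_some g hsymm]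
    rw [h3]
  have e2 : eval (jet0 (fldv g f u) 0)
      (jetHom (fun i => jd i) (fld (fun a b => uV ^ 2 * gV a b) (fV (n := n))) E.p)
      = eval (jet0 (fld (fun a b => (fun x => Real.exp (2 * w' x)) * g a b) f) 0) E.p := by
    rw [eval_jetHom _ hφ]
    have h3 : (fun o => jetHom pd (fldv g f u)
        (fld (fun a b => uV ^ 2 * gV a b) (fV (n := n)) o))
        = fld (fun a b => (fun x => Real.exp (2 * w' x)) * g a b) f := by
      funext o
      rcases o with _ | s
      · rw [fld_none, fld_none]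
        unfold fV
        rw [jetHom_X, mD_zero]
        rfl
      · induction s using Sym2.ind with
        | _ a b =>
          rw [fld_some _ (fun a b => by unfold gV; rw [Sym2.eq_swap]),
            fld_some _ (fun a b => by rw [hsymm])]
          unfold gV uV
          rw [map_mul, map_pow, jetHom_X, jetHom_X, mD_zero, mD_zero, hexp]
          show u ^ 2 * fld g f (some s(a, b)) = _
          rw [fld_some g hsymm]
    rw [h3]
  have e3 : eval (jet0 (fldv g f u) 0) (uV (n := n)) = u 0 := by
    unfold uV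
    rw [eval_X]
    show mD pd 0 u 0 = _
    rw [mD_zero]
  have hdet : Matrix.det (Matrix.of (fun a b => ((fun x => Real.exp (2 * w' x)) * g a b) 0))
      = (u 0 ^ 2) ^ n * Matrix.det (Matrix.of (fun a b => g a b 0)) := by
    have h5 : (Matrix.of (fun a b => ((fun x => Real.exp (2 * w' x)) * g a b) 0))
        = (u 0 ^ 2) • Matrix.of (fun a b => g a b 0) := by
      ext a b
      rw [hexp]
      rfl
    rw [h5, Matrix.det_smul, Fintype.card_fin]
  rw [map_sub, map_mul, map_mul, map_pow, map_pow, e1, e2, e3, ← h0, ← h2, hdet]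
  have hu0 := hupos 0
  have hexp2 : Real.exp (-((n : ℝ) * w' 0)) = (u 0 ^ n)⁻¹ := by
    rw [Real.exp_neg]
    congr 1
    rw [hw']
    simp only
    rw [mul_comm, Real.exp_mul, Real.exp_log hu0, Real.rpow_natCast]
  rw [hexp2, mul_pow, ← pow_mul, ← pow_mul, mul_comm (2 * n) E.N, sub_eq_zero]
  have : u 0 ^ n ≠ 0 := (pow_pos hu0 n).ne'
  have e4 : 2 * (n * E.N) = E.N * (2 * n) := by ring
  rw [e4]
  field_simp

lemma foldr_hom {A : Type} [CommRing A] [Algebra ℝ A] {Φ : Type}
    (D : Fin n → Derivation ℝ A A) (hD : ∀ i j x, D i (D j x) = D j (D i x)) (φ : Φ → A)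
    (l : List (Fin n)) (P : JR Φ n) :
    l.foldr (fun i => D i) (jetHom (fun i => D i) φ P)
      = jetHom (fun i => D i) φ (l.foldr (fun i => jd i) P) := by
  induction l with
  | nil => rfl
  | cons i l ih => rw [List.foldr_cons, ih, List.foldr_cons, jetHom_jd D hD]

/-- composition of substitutions -/
lemma jetHom_comp {A : Type} [CommRing A] [Algebra ℝ A] {Φ Ψ : Type}
    (D : Fin n → Derivation ℝ A A) (hD : ∀ i j x, D i (D j x) = D j (D i x)) (φ : Φ → A)
    (ψ : Ψ → JR Φ n) (P : JR Ψ n) :
    jetHom (fun i => D i) φ (jetHom (fun i => jd i) ψ P)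
      = jetHom (fun i => D i) (fun o => jetHom (fun i => D i) φ (ψ o)) P := by
  induction P using MvPolynomial.induction_on with
  | C r => rw [← MvPolynomial.algebraMap_eq, AlgHom.commutes, AlgHom.commutes, AlgHom.commutes]
  | add p q hp hq => rw [map_add, map_add, map_add, hp, hq]
  | mul_X p v hp =>
    rw [map_mul, map_mul, map_mul, hp, jetHom_X, jetHom_X]
    congr 1
    exact (foldr_hom D hD φ _ _).symm

/-- conformal invariance over all rings -/
theorem conf_ring (E : NatFam n) (hE : ConfSm E) {A : Type} [CommRing A] [Algebra ℝ A]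
    (D : Fin n → Derivation ℝ A A) (hD : ∀ i j x, D i (D j x) = D j (D i x))
    (g gi : Fin n → Fin n → A) (hg : ∀ a b, g a b = g b a)
    (hgi : ∀ a b, ∑ c, gi a c * g b c = if a = b then 1 else 0) (f u ui : A) (hu : u * ui = 1) :
    u ^ n * E.ev A (fun i => D i) (fun a b => u ^ 2 * g a b) (fun a b => ui ^ 2 * gi a b) f
      = E.ev A (fun i => D i) g gi f := by
  have h1 := congrArg (jetHom (fun i => D i) (fldv g f u)) (conf_poly E hE)
  have hsym : ∀ a b : Fin n, (gV a b : JR (Option (Fld n)) n) = gV b a := fun a b => by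
    unfold gV; rw [Sym2.eq_swap]
  have hu2 : u ^ 2 * ui ^ 2 = 1 := by rw [← mul_pow, hu, one_pow]
  rw [map_mul, map_mul, map_pow, map_pow, jetHom_comp D hD, jetHom_comp D hD] at h1
  have e0 : jetHom (fun i => D i) (fldv g f u) (uV (n := n)) = u := by
    unfold uV; rw [jetHom_X, mD_zero]; rfl
  have e1 : (fun o => jetHom (fun i => D i) (fldv g f u) (fld gV (fV (n := n)) o)) = fld g f := by
    funext o
    rcases o with _ | s
    · rw [fld_none, fld_none]
      unfold fV
      rw [jetHom_X, mD_zero]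
      rfl
    · induction s using Sym2.ind with
      | _ a b =>
        rw [fld_some gV hsym, fld_some g hg]
        unfold gV
        rw [jetHom_X, mD_zero]
        show fld g f (some s(a, b)) = _
        rw [fld_some g hg]
  have e2 : (fun o => jetHom (fun i => D i) (fldv g f u)
      (fld (fun a b => uV ^ 2 * gV a b) (fV (n := n)) o)) = fld (fun a b => u ^ 2 * g a b) f := by
    funext o
    rcases o with _ | s
    · rw [fld_none, fld_none]
      unfold fV
      rw [jetHom_X, mD_zero]
      rfl
    · induction s using Sym2.ind with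
      | _ a b =>
        rw [fld_some _ (fun a b => by rw [hsym]), fld_some _ (fun a b => by rw [hg])]
        rw [map_mul, map_pow, e0]
        unfold gV
        rw [jetHom_X, mD_zero]
        show u ^ 2 * fld g f (some s(a, b)) = _
        rw [fld_some g hg]
  rw [e0, e1, e2] at h1
  have h2 := E.ev_p D hD g gi hg hgi f
  have hgi' : ∀ a b, ∑ c, (ui ^ 2 * gi a c) * (u ^ 2 * g b c) = if a = b then 1 else 0 := by
    intro a b
    rw [← hgi a b]
    refine Finset.sum_congr rfl fun c _ => ?_
    linear_combination (gi a c * g b c) * hu2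
  have h3 := E.ev_p D hD (fun a b => u ^ 2 * g a b) (fun a b => ui ^ 2 * gi a b)
    (fun a b => by rw [hg]) hgi' f
  have hdet : Matrix.det (Matrix.of (fun a b => u ^ 2 * g a b))
      = u ^ (2 * n) * Matrix.det (Matrix.of g) := by
    have h5 : Matrix.of (fun a b => u ^ 2 * g a b) = (u ^ 2) • Matrix.of g := by
      ext a b; rfl
    rw [h5, Matrix.det_smul, Fintype.card_fin, pow_mul]
  rw [← h2, ← h3, hdet, mul_pow] at h1
  have hd := (adj_eq g gi hg hgi).1
  -- cancel the units
  have hunit : IsUnit (u ^ (2 * n * E.N) * Matrix.det (Matrix.of g) ^ E.N) := by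
    refine IsUnit.mul ?_ ?_
    · exact (IsUnit.of_mul_eq_one _ hu).pow _
    · exact (IsUnit.of_mul_eq_one _ hd).pow _
  apply hunit.mul_left_cancel
  rw [← pow_mul] at h1
  linear_combination h1

/-- infinitesimal conformal invariance over all rings -/
def ConfInf (E : NatFam n) : Prop :=
  ∀ {A : Type} [CommRing A] [Algebra ℝ A] (D : Fin n → Derivation ℝ A A),
    (∀ i j x, D i (D j x) = D j (D i x)) → ∀ (N : Ideal A), (∀ x ∈ N, ∀ y ∈ N, x * y = 0) →
    (∀ i, ∀ x ∈ N, D i x ∈ N) → ∀ σ ∈ N, ∀ (g gi : Fin n → Fin n → A), (∀ a b, g a b = g b a) →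
    (∀ a b, ∑ c, gi a c * g b c = if a = b then 1 else 0) → ∀ f : A,
    E.ev A (fun i => D i) (fun a b => (1 + 2 * σ) * g a b) (fun a b => (1 - 2 * σ) * gi a b) f
    = (1 - n * σ) * E.ev A (fun i => D i) g gi f

lemma one_add_pow' {A : Type} [CommRing A] (s : A) (hs : s * s = 0) (m : ℕ) :
    (1 - s) ^ m = 1 - m * s := by
  induction m with
  | zero => simp
  | succ m ih =>
    rw [pow_succ, ih]
    push_cast
    linear_combination (m : A) * hs

theorem confInf_of_confSm (E : NatFam n) (hE : ConfSm E) : ConfInf E := by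
  intro A _ _ D hD N hN hDN σ hσ g gi hg hgi f
  have hss : σ * σ = 0 := hN σ hσ σ hσ
  have hu : (1 + σ) * (1 - σ) = 1 := by linear_combination -hss
  have h1 := conf_ring E hE D hD g gi hg hgi f (1 + σ) (1 - σ) hu
  have e1 : (fun a b => (1 + σ) ^ 2 * g a b) = fun a b => (1 + 2 * σ) * g a b := by
    funext a b; linear_combination g a b * hss
  have e2 : (fun a b => (1 - σ) ^ 2 * gi a b) = fun a b => (1 - 2 * σ) * gi a b := by
    funext a b; linear_combination gi a b * hss
  rw [e1, e2] at h1
  have h2 : (1 - σ) ^ n * (1 + σ) ^ n = 1 := by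
    rw [← mul_pow, mul_comm, hu, one_pow]
  rw [← h1, ← one_add_pow' σ hss n, ← mul_assoc, h2, one_mul]

end

end GJMS
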