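import Pool.Agent.GJMS.Act

/-! # Infinitesimal covariance of complete contractions -/

open Finset

namespace GJMS

noncomputable section

variable {n : ℕ} {A : Type*} [CommRing A] [Algebra ℝ A]

/-- the vector field `X` as a derivation -/
def vf (D : Fin n → Derivation ℝ A A) (X : Fin n → A) : Derivation ℝ A A := ∑ c, X c • D c

lemma vf_apply (D : Fin n → Derivation ℝ A A) (X : Fin n → A) (a : A) :
    vf D X a = ∑ c, X c * D c a := by
  have h := congrFun (map_sum (Derivation.coeFnAddMonoidHom (R := ℝ) (A := A) (M := A))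
    (fun c => X c • D c) univ) a
  rw [Finset.sum_apply] at h
  exact h

lemma lie_eq_act (D : Fin n → Derivation ℝ A A) (X : Fin n → A) {r : ℕ} (T : (Fin r → Fin n) → A)
    (w : Fin r → Fin n) :
    lie (fun i => D i) X T w = act (vf D X) (fun b c => D b (X c)) T w := by
  unfold lie act
  rw [vf_apply]

lemma lieL_eq (D : Fin n → Derivation ℝ A A) (X : Fin n → A) (S : Fin n → Fin n → A) (a b : Fin n) :
    lieL (fun i => D i) X S a b = vf D X (S a b) + (∑ c, D a (X c) * S c b) +
      ∑ c, D b (X c) * S a c := by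
  unfold lieL
  rw [vf_apply, Finset.sum_add_distrib, Finset.sum_add_distrib]

lemma lieU_eq (D : Fin n → Derivation ℝ A A) (X : Fin n → A) (S : Fin n → Fin n → A) (a b : Fin n) :
    lieU (fun i => D i) X S a b = vf D X (S a b) - (∑ c, D c (X a) * S c b) -
      ∑ c, D c (X b) * S a c := by
  unfold lieU
  rw [vf_apply, Finset.sum_sub_distrib, Finset.sum_sub_distrib]

lemma pair2 (D : Fin n → Derivation ℝ A A) (X : Fin n → A) (G S : Fin n → Fin n → A) :
    (∑ a, ∑ b, (lieU (fun i => D i) X G a b * S a b + G a b * lieL (fun i => D i) X S a b))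
    = vf D X (∑ a, ∑ b, G a b * S a b) := by
  simp only [lieL_eq, lieU_eq, map_sum, Derivation.leibniz, smul_eq_mul]
  have h1 : (∑ a, ∑ b, ∑ c, D c (X a) * G c b * S a b) = ∑ a, ∑ b, ∑ c, D a (X c) * G a b * S c b := by
    have : ∀ F : Fin n → Fin n → Fin n → A, (∑ a, ∑ b, ∑ c, F a b c) = ∑ a, ∑ b, ∑ c, F c b a := by
      intro F
      rw [Finset.sum_comm]
      nth_rewrite 2 [Finset.sum_comm]
      exact Finset.sum_congr rfl fun b _ => Finset.sum_comm
    rw [this]
  have h2 : (∑ a, ∑ b, ∑ c, D c (X b) * G a c * S a b) = ∑ a, ∑ b, ∑ c, D b (X c) * G a b * S a c := by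
    exact Finset.sum_congr rfl fun a _ => Finset.sum_comm
  have h3 : ∀ a b, ((vf D X (G a b) - (∑ c, D c (X a) * G c b) - ∑ c, D c (X b) * G a c) * S a b
      + G a b * (vf D X (S a b) + (∑ c, D a (X c) * S c b) + ∑ c, D b (X c) * S a c))
      = G a b * vf D X (S a b) + S a b * vf D X (G a b)
       - (∑ c, D c (X a) * G c b * S a b) - (∑ c, D c (X b) * G a c * S a b)
       + (∑ c, D a (X c) * G a b * S c b) + ∑ c, D b (X c) * G a b * S a c := by
    intro a b
    have e1 : (∑ c, D a (X c) * G a b * S c b) = G a b * ∑ c, D a (X c) * S c b := by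
      rw [Finset.mul_sum]; exact Finset.sum_congr rfl fun c _ => by ring
    have e2 : (∑ c, D b (X c) * G a b * S a c) = G a b * ∑ c, D b (X c) * S a c := by
      rw [Finset.mul_sum]; exact Finset.sum_congr rfl fun c _ => by ring
    rw [e1, e2, ← Finset.sum_mul, ← Finset.sum_mul]
    ring
  simp_rw [h3]
  simp only [Finset.sum_add_distrib, Finset.sum_sub_distrib, h1, h2]
  ring

lemma chr_symm (d : Fin n → A → A) (g gi : Fin n → Fin n → A) (hg : ∀ a b, g a b = g b a)
    (c a b : Fin n) : chr d g gi c a b = chr d g gi c b a := by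
  unfold chr
  congr 1
  refine Finset.sum_congr rfl fun e _ => ?_
  rw [hg a b]
  ring

section cov

variable (D : Fin n → Derivation ℝ A A) (hD : ∀ i j x, D i (D j x) = D j (D i x))
  (N : Ideal A) (hN : ∀ x ∈ N, ∀ y ∈ N, x * y = 0) (hDN : ∀ i, ∀ x ∈ N, D i x ∈ N)
  (X : Fin n → A) (hX : ∀ c, X c ∈ N)
  (g gi : Fin n → Fin n → A) (hg : ∀ a b, g a b = g b a)
  (hgi : ∀ a b, ∑ c, gi a c * g b c = if a = b then 1 else 0)

include hX in
lemma vf_mem (a : A) : vf D X a ∈ N := by
  rw [vf_apply]
  exact N.sum_mem fun c _ => N.mul_mem_right _ (hX c)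

include hD hN hDN hX hg hgi in
lemma chr_cov : chr (fun i => D i) (fun a b => g a b + lieL (fun i => D i) X g a b)
      (fun a b => gi a b + lieU (fun i => D i) X gi a b)
    = fun c a b => chr (fun i => D i) g gi c a b
      + lieG (fun i => D i) X (chr (fun i => D i) g gi) c a b := by
  funext c a b
  exact chr_lie D hD N hN hDN X hX g gi hg hgi c a b

include hD hN hDN hX hg hgi in
lemma ric_cov (a b : Fin n) :
    ric (fun i => D i) (chr (fun i => D i) (fun a b => g a b + lieL (fun i => D i) X g a b)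
      (fun a b => gi a b + lieU (fun i => D i) X gi a b)) a b
    = ric (fun i => D i) (chr (fun i => D i) g gi) a b
      + lieL (fun i => D i) X (ric (fun i => D i) (chr (fun i => D i) g gi)) a b := by
  rw [chr_cov D hD N hN hDN X hX g gi hg hgi]
  exact ric_lie D hD N hN hDN X hX _ (chr_symm _ g gi hg) a b

include hD hN hDN hX hg hgi in
lemma scal_cov :
    scal (fun i => D i) (fun a b => g a b + lieL (fun i => D i) X g a b)
      (fun a b => gi a b + lieU (fun i => D i) X gi a b)
    = scal (fun i => D i) g gi + vf D X (scal (fun i => D i) g gi) := by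
  unfold scal
  simp_rw [ric_cov D hD N hN hDN X hX g gi hg hgi]
  rw [← pair2, ← Finset.sum_add_distrib]
  refine Finset.sum_congr rfl fun a _ => ?_
  rw [← Finset.sum_add_distrib]
  refine Finset.sum_congr rfl fun b _ => ?_
  have := hN _ (lieU_mem D N hDN X hX gi a b) _
    (lieL_mem D N hDN X hX (ric (fun i => D i) (chr (fun i => D i) g gi)) a b)
  linear_combination this

include hD hN hDN hX hg hgi in
lemma sch_cov (a b : Fin n) :
    sch (fun i => D i) (fun a b => g a b + lieL (fun i => D i) X g a b)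
      (fun a b => gi a b + lieU (fun i => D i) X gi a b) a b
    = sch (fun i => D i) g gi a b + lieL (fun i => D i) X (sch (fun i => D i) g gi) a b := by
  unfold sch
  rw [ric_cov D hD N hN hDN X hX g gi hg hgi, scal_cov D hD N hN hDN X hX g gi hg hgi]
  have h0 := hN _ (vf_mem D N X hX (scal (fun i => D i) g gi)) _ (lieL_mem D N hDN X hX g a b)
  simp only [lieL_eq] at h0 ⊢
  simp only [Derivation.map_smul, map_sub, Derivation.leibniz, smul_eq_mul, mul_smul_comm,
    mul_sub, smul_sub, Finset.sum_sub_distrib, smul_add, ← Finset.smul_sum, mul_add, add_mul]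
  have e1 : (∑ c, D a (X c) * (scal (fun i => D i) g gi * g c b))
      = scal (fun i => D i) g gi * ∑ c, D a (X c) * g c b := by
    rw [Finset.mul_sum]; exact Finset.sum_congr rfl fun c _ => by ring
  have e2 : (∑ c, D b (X c) * (scal (fun i => D i) g gi * g a c))
      = scal (fun i => D i) g gi * ∑ c, D b (X c) * g a c := by
    rw [Finset.mul_sum]; exact Finset.sum_congr rfl fun c _ => by ring
  rw [e1, e2]
  have h1 : vf D X (scal (fun i => D i) g gi) * vf D X (g a b)
      + vf D X (scal (fun i => D i) g gi) * ∑ c, D a (X c) * g c b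
      + vf D X (scal (fun i => D i) g gi) * ∑ c, D b (X c) * g a c = 0 := by
    linear_combination h0
  have h2 : vf D X (scal (fun i => D i) g gi) * vf D X (g a b)
      = - (vf D X (scal (fun i => D i) g gi) * ∑ c, D a (X c) * g c b)
      - vf D X (scal (fun i => D i) g gi) * ∑ c, D b (X c) * g a c := by
    linear_combination h1
  rw [h2, mul_comm (g a b)]
  simp only [smul_sub, smul_neg]
  abel

lemma lie_pair (w : Fin 2 → Fin n) (S : Fin n → Fin n → A) :
    lie (fun i => D i) X (fun w : Fin 2 → Fin n => S (w 0) (w 1)) w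
    = lieL (fun i => D i) X S (w 0) (w 1) := by
  rw [lie_eq_act, lieL_eq]
  unfold act
  rw [Fin.sum_univ_two]
  simp
  ring

include hD hN hDN hX hg hgi in
lemma nabP_cov (l : ℕ) :
    nabP (fun i => D i) (fun a b => g a b + lieL (fun i => D i) X g a b)
      (fun a b => gi a b + lieU (fun i => D i) X gi a b) l
    = fun w => nabP (fun i => D i) g gi l w + lie (fun i => D i) X (nabP (fun i => D i) g gi l) w := by
  induction l with
  | zero =>
    funext w
    show sch _ _ _ (w 0) (w 1) = sch _ _ _ (w 0) (w 1) + _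
    rw [sch_cov D hD N hN hDN X hX g gi hg hgi]
    congr 1
    exact (lie_pair D X w _).symm
  | succ l ih =>
    funext w
    show nab _ _ _ w = nab _ _ _ w + _
    rw [ih, chr_cov D hD N hN hDN X hX g gi hg hgi]
    exact nab_lie D hD N hN hDN X hX _ _ w

include hD hN hDN hX hg hgi in
lemma nabF_cov (f : A) (k : ℕ) :
    nabF (fun i => D i) (fun a b => g a b + lieL (fun i => D i) X g a b)
      (fun a b => gi a b + lieU (fun i => D i) X gi a b) (f + vf D X f) k
    = fun w => nabF (fun i => D i) g gi f k w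
      + lie (fun i => D i) X (nabF (fun i => D i) g gi f k) w := by
  induction k with
  | zero =>
    funext w
    show f + vf D X f = f + _
    rw [lie_eq_act]
    unfold act
    simp [nabF]
  | succ k ih =>
    funext w
    show nab _ _ _ w = nab _ _ _ w + _
    rw [ih, chr_cov D hD N hN hDN X hX g gi hg hgi]
    exact nab_lie D hD N hN hDN X hX _ _ w

include hDN hX in
lemma act_mem {ι : Type*} [Fintype ι] [DecidableEq ι] (T : (ι → Fin n) → A) (w : ι → Fin n) :
    act (vf D X) (fun b c => D b (X c)) T w ∈ N := by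
  unfold act
  refine N.add_mem (vf_mem D N X hX _) (N.sum_mem fun s _ => N.sum_mem fun c _ => ?_)
  exact N.mul_mem_right _ (hDN _ _ (hX c))

include hN hDN hX in
lemma prodU_cov {p : ℕ} {ι : Type*} [Fintype ι] [DecidableEq ι] (e : Fin p × Bool ≃ ι)
    (w : ι → Fin n) :
    (∏ q : Fin p, (gi (w (e (q, false))) (w (e (q, true)))
        + lieU (fun i => D i) X gi (w (e (q, false))) (w (e (q, true)))))
    = (∏ q : Fin p, gi (w (e (q, false))) (w (e (q, true))))
      + act (vf D X) (fun b c => - D c (X b))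
        (fun w : ι → Fin n => ∏ q : Fin p, gi (w (e (q, false))) (w (e (q, true)))) w := by
  rw [prod_pert N hN _ _ (fun q => lieU_mem D N hDN X hX gi _ _)]
  congr 1
  have h1 : (fun w : ι → Fin n => ∏ q : Fin p, gi (w (e (q, false))) (w (e (q, true))))
      = fun w : ι → Fin n => (fun w' : ((_ : Fin p) × Bool) → Fin n =>
        ∏ q : Fin p, (fun u : Bool → Fin n => gi (u false) (u true)) (fun s => w' ⟨q, s⟩))
        (w ∘ ((Equiv.sigmaEquivProd (Fin p) Bool).trans e)) := by
    funext w
    rfl
  have h2 := act_reindex (vf D X) (fun b c => - D c (X b))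
    ((Equiv.sigmaEquivProd (Fin p) Bool).trans e) (fun w' : ((_ : Fin p) × Bool) → Fin n =>
        ∏ q : Fin p, (fun u : Bool → Fin n => gi (u false) (u true)) (fun s => w' ⟨q, s⟩)) w
  rw [h1]
  refine Eq.trans ?_ (h2.trans (act_sigma (σ := fun _ : Fin p => Bool) (vf D X)
    (fun b c => - D c (X b)) (fun _ u => gi (u false) (u true)) _)).symm
  refine Finset.sum_congr rfl fun q _ => ?_
  congr 1
  rw [lieU_eq]
  unfold act
  rw [Fintype.sum_bool]
  simp
  ring

include hD hN hDN hX hg hgi in
/-- covariance of complete contractions under infinitesimal diffeomorphisms -/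
theorem eval_cov (C : Contr) (f : A) :
    C.eval (fun i => D i) (fun a b => g a b + lieL (fun i => D i) X g a b)
      (fun a b => gi a b + lieU (fun i => D i) X gi a b) (f + vf D X f)
    = C.eval (fun i => D i) g gi f + vf D X (C.eval (fun i => D i) g gi f) := by
  unfold Contr.eval
  rw [nabF_cov D hD N hN hDN X hX g gi hg hgi f]
  simp_rw [nabP_cov D hD N hN hDN X hX g gi hg hgi]
  set G : (((j : Fin C.m) × Fin (C.l j + 2)) ⊕ Fin C.k → Fin n) → A := fun w =>
    ∏ q : Fin C.p, gi (w (C.e (q, false))) (w (C.e (q, true))) with hG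
  set P : (((j : Fin C.m) × Fin (C.l j + 2)) → Fin n) → A := fun w =>
    ∏ j : Fin C.m, nabP (fun i => D i) g gi (C.l j) (fun s => w ⟨j, s⟩) with hP
  set F : (Fin C.k → Fin n) → A := nabF (fun i => D i) g gi f C.k with hF
  set T : (((j : Fin C.m) × Fin (C.l j + 2)) ⊕ Fin C.k → Fin n) → A := fun w =>
    P (fun s => w (Sum.inl s)) * F (fun s => w (Sum.inr s)) with hT
  have hP' : ∀ w : ((j : Fin C.m) × Fin (C.l j + 2)) → Fin n,
      (∏ j : Fin C.m, (nabP (fun i => D i) g gi (C.l j) (fun s => w ⟨j, s⟩)
        + lie (fun i => D i) X (nabP (fun i => D i) g gi (C.l j)) (fun s => w ⟨j, s⟩)))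
      = P w + act (vf D X) (fun b c => D b (X c)) P w := by
    intro w
    rw [prod_pert N hN _ _ (fun q => lie_mem D N hDN X hX _ _)]
    congr 1
    rw [hP, act_sigma]
    refine Finset.sum_congr rfl fun q _ => ?_
    rw [lie_eq_act]
  have hterm : ∀ w, (∏ q : Fin C.p, (gi (w (C.e (q, false))) (w (C.e (q, true)))
        + lieU (fun i => D i) X gi (w (C.e (q, false))) (w (C.e (q, true))))) *
      ((∏ j : Fin C.m, (nabP (fun i => D i) g gi (C.l j) (fun s => w (Sum.inl ⟨j, s⟩))
        + lie (fun i => D i) X (nabP (fun i => D i) g gi (C.l j)) (fun s => w (Sum.inl ⟨j, s⟩)))) *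
        (F (fun s => w (Sum.inr s)) + lie (fun i => D i) X F (fun s => w (Sum.inr s))))
      = G w * T w + (act (vf D X) (fun b c => - D c (X b)) G w * T w
        + G w * act (vf D X) (fun b c => D b (X c)) T w) := by
    intro w
    rw [prodU_cov D N hN hDN X hX gi C.e w, hP' (fun s => w (Sum.inl s)), lie_eq_act, act_mul]
    have m1 := act_mem D N hDN X hX P (fun s => w (Sum.inl s))
    have m2 := act_mem D N hDN X hX F (fun s => w (Sum.inr s))
    have m3 : act (vf D X) (fun b c => - D c (X b)) G w ∈ N := by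
      unfold act
      refine N.add_mem (vf_mem D N X hX _) (N.sum_mem fun s _ => N.sum_mem fun c _ => ?_)
      exact N.mul_mem_right _ (N.neg_mem (hDN _ _ (hX _)))
    have z1 := hN _ m1 _ m2
    have z2 := hN _ m3 _ m1
    have z3 := hN _ m3 _ m2
    linear_combination (G w + act (vf D X) (fun b c => - D c (X b)) G w) * z1
      + F (fun s => w (Sum.inr s)) * z2 + P (fun s => w (Sum.inl s)) * z3
  rw [Finset.sum_congr rfl fun w _ => hterm w, Finset.sum_add_distrib, act_pair]

end cov

end

end GJMS
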