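import Pool.Agent.GJMS.Eqs

/-! # The conformal Killing equation for the leading part; linearity in the function -/

open Finset MvPolynomial

namespace GJMS

noncomputable section

variable {n : ℕ}

variable (E : NatOp n) (hE : ConfInf E.toNatFam) (k : ℕ) (hk : ∀ d ∈ E.q.support, k ≤ Finsupp.weight wg d)

include hE hk in
/-- infinitesimal invariance of the leading part under conformal Killing fields of the flat metric -/
theorem NatOp.eqK {A : Type} [CommRing A] [Algebra ℝ A] (D : Fin n → Derivation ℝ A A)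
    (hD : ∀ i j x, D i (D j x) = D j (D i x))
    (N : Ideal A) (hN : ∀ x ∈ N, ∀ y ∈ N, x * y = 0) (hDN : ∀ i, ∀ x ∈ N, D i x ∈ N)
    (Y : Fin n → A) (hY : ∀ c, Y c ∈ N) (σ : A) (hσ : σ ∈ N)
    (hCK : ∀ a b, D a (Y b) + D b (Y a) = 2 * σ * dl a b)
    (γ : Fin n → Fin n → A) (hγ : ∀ a b, γ a b = γ b a) (f : A) :
    jetHom (fun i => D i) (fld (fun a b => γ a b + (lieL (fun i => D i) Y γ a b - 2 * σ * γ a b))
        (f + vf D Y f)) (E.lc k)
      = jetHom (fun i => D i) (fld γ f) (E.lc k)
        + vf D Y (jetHom (fun i => D i) (fld γ f) (E.lc k))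
        + n * σ * jetHom (fun i => D i) (fld γ f) (E.lc k) := by
  set T : PowerSeries A := PowerSeries.X with hT
  set P : Fin n → Derivation ℝ (PowerSeries A) (PowerSeries A) := fun i => psD (D i) with hP
  have hPT : ∀ i, P i T = 0 := fun i => psD_X (D i)
  set Z : Fin n → PowerSeries A := fun c => PowerSeries.C (Y c) with hZ
  set s : PowerSeries A := PowerSeries.C σ with hs
  set Cγ : Fin n → Fin n → PowerSeries A := fun a b => PowerSeries.C (γ a b) with hCγ
  set g : Fin n → Fin n → PowerSeries A := fun a b => dl a b + T * Cγ a b with hg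
  obtain ⟨gi, hgi⟩ := exists_gi Cγ
  have hgs : ∀ a b, g a b = g b a := by
    intro a b; rw [hg, hCγ]; simp only; rw [dl_symm, hγ]
  have hZN : ∀ c, Z c ∈ psI N := fun c => C_mem_psI N (hY c)
  have hsN : s ∈ psI N := C_mem_psI N hσ
  have hNsq := psI_sq N hN
  have hNP : ∀ i, ∀ x ∈ psI N, P i x ∈ psI N := fun i => psI_psD N (D i) (hDN i)
  have hcov := E.cov P (psD_comm D hD) (psI N) hNsq hNP Z hZN g gi hgs hgi (PowerSeries.C f)
  set g1 : Fin n → Fin n → PowerSeries A := fun a b => g a b + lieL (fun i => P i) Z g a b with hg1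
  set gi1 : Fin n → Fin n → PowerSeries A := fun a b => gi a b + lieU (fun i => P i) Z gi a b with hgi1
  have hinv1 := inv_cov P (psI N) hNsq hNP Z hZN g gi hgs hgi
  have hlieLsymm : ∀ (h : Fin n → Fin n → PowerSeries A), (∀ a b, h a b = h b a) → ∀ a b,
      lieL (fun i => P i) Z h a b = lieL (fun i => P i) Z h b a := by
    intro h hh a b
    unfold lieL
    refine Finset.sum_congr rfl fun c _ => ?_
    rw [hh b a, hh c b, hh a c]
    ring
  have hg1s : ∀ a b, g1 a b = g1 b a := by
    intro a b; rw [hg1]; simp only; rw [hgs, hlieLsymm g hgs]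
  have hss : s * s = 0 := hNsq s hsN s hsN
  have h1 := hE P (psD_comm D hD) (psI N) hNsq hNP (-s) ((psI N).neg_mem hsN) g1 gi1 hg1s hinv1
    (PowerSeries.C f + vf P Z (PowerSeries.C f))
  set γ' : Fin n → Fin n → PowerSeries A := fun a b =>
    Cγ a b + (lieL (fun i => P i) Z Cγ a b - 2 * s * Cγ a b) with hγ'
  have hCγs : ∀ a b, Cγ a b = Cγ b a := by
    intro a b; rw [hCγ]; simp only; rw [hγ]
  have hγ's : ∀ a b, γ' a b = γ' b a := by
    intro a b; rw [hγ']; simp only; rw [hlieLsymm Cγ hCγs, hCγs]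
  have hg2 : ∀ a b, (1 + 2 * (-s)) * g1 a b = dl a b + T * γ' a b := by
    intro a b
    have e0 : lieL (fun i => P i) Z g a b = 2 * s * dl a b + T * lieL (fun i => P i) Z Cγ a b := by
      rw [hg]
      rw [lieL_add P Z (fun a b => dl a b) (fun a b => T * Cγ a b) a b, lieL_const P Z T hPT,
        lieL_dl]
      have e1 : P a (Z b) + P b (Z a) = 2 * s * dl a b := by
        rw [hP, hZ, hs]
        simp only [psD_C]
        rw [← map_add, hCK, map_mul, map_mul, jetHom_map_dl (PowerSeries.C (R := A)) a b]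
        congr 2
      rw [e1]
    have e2 : s * lieL (fun i => P i) Z Cγ a b = 0 :=
      hNsq s hsN _ (lieL_mem P (psI N) hNP Z hZN Cγ a b)
    rw [hg1]
    simp only
    rw [e0, hγ', hg]
    simp only
    linear_combination (-4 * dl a b) * hss + (-2 * T) * e2
  obtain ⟨H, hH1, hH2⟩ := E.lead k hk D hD Cγ hCγs g gi (fun a b => rfl) hgi (PowerSeries.C f)
  obtain ⟨H', hH'1, hH'2⟩ := E.lead k hk D hD γ' hγ's (fun a b => (1 + 2 * (-s)) * g1 a b)
    (fun a b => (1 - 2 * (-s)) * gi1 a b) hg2 (by
      intro a b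
      rw [← hinv1 a b]
      refine Finset.sum_congr rfl fun c _ => ?_
      rw [hg1, hgi1]
      simp only
      linear_combination (-4 * ((gi a c + lieU (fun i => P i) Z gi a c)
        * (g b c + lieL (fun i => P i) Z g b c))) * hss)
    (PowerSeries.C f + vf P Z (PowerSeries.C f))
  have hvT : ∀ F, vf P Z (T ^ k * F) = T ^ k * vf P Z F := by
    intro F
    have : vf P Z T = 0 := by
      rw [vf_apply]; exact Finset.sum_eq_zero fun c _ => by rw [hPT, mul_zero]
    rw [Derivation.leibniz, Derivation.leibniz_pow, this]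
    simp
  rw [hcov, hH1, hH'1, hvT] at h1
  have h2 : H' = (1 + n * s) * (H + vf P Z H) := by
    apply ps_cancel k
    rw [h1]; ring
  have h3 := congrArg PowerSeries.constantCoeff h2
  rw [map_mul, map_add, map_add, map_mul, map_one, map_natCast, hH'2, hH2, hs,
    PowerSeries.constantCoeff_C] at h3
  have e3 : PowerSeries.constantCoeff (vf P Z H) = vf D Y (PowerSeries.constantCoeff H) := by
    rw [vf_apply, vf_apply, map_sum]
    refine Finset.sum_congr rfl fun c _ => ?_
    rw [map_mul, hP, hZ]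
    simp only
    rw [cc_psD, PowerSeries.constantCoeff_C]
  rw [e3, hH2] at h3
  have e1 : (fun a b => PowerSeries.constantCoeff (γ' a b))
      = fun a b => γ a b + (lieL (fun i => D i) Y γ a b - 2 * σ * γ a b) := by
    funext a b
    rw [hγ', hP, hZ, hCγ, hs]
    simp only
    rw [lieL_psD_C, map_add, map_sub, map_mul, map_mul, PowerSeries.constantCoeff_C,
      PowerSeries.constantCoeff_C, PowerSeries.constantCoeff_C, map_ofNat]
  have e2 : (fun a b => PowerSeries.constantCoeff (Cγ a b)) = γ := by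
    funext a b; rw [hCγ]; simp only; rw [PowerSeries.constantCoeff_C]
  have e4 : PowerSeries.constantCoeff (PowerSeries.C f + vf P Z (PowerSeries.C f)) = f + vf D Y f := by
    rw [hP, hZ, vf_psD_C, map_add, PowerSeries.constantCoeff_C, PowerSeries.constantCoeff_C]
  rw [e1, e2, e4, PowerSeries.constantCoeff_C] at h3
  set J := jetHom (fun i => D i) (fld γ f) (E.lc k) with hJ
  have e5 : σ * vf D Y J = 0 := hN σ hσ _ (vf_mem D N Y hY J)
  linear_combination h3 + n * e5

end

end GJMS
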