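import Pool.Agent.GJMS.Inj2

/-! # The value of a natural operator in the ring `Nil` and the symbol -/

open Finset MvPolynomial

set_option linter.unusedSectionVars false

namespace GJMS

noncomputable section

namespace Nil

variable {K B : Type} [DecidableEq K] [CommRing B] [Algebra ℝ B]

/-- the filtration by degree -/
def fil (m : ℕ) (F : Nil K B) : Prop := ∀ S : Finset K, S.card < m → F.co S = 0

lemma fil_mono {m m' : ℕ} (h : m ≤ m') {F : Nil K B} (hF : fil m' F) : fil m F :=
  fun S hS => hF S (lt_of_lt_of_le hS h)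

lemma fil_zero (m : ℕ) : fil m (0 : Nil K B) := fun _ _ => rfl

lemma fil_add {m : ℕ} {F G : Nil K B} (hF : fil m F) (hG : fil m G) : fil m (F + G) :=
  fun S hS => by rw [co_add, hF S hS, hG S hS, add_zero]

lemma fil_sub {m : ℕ} {F G : Nil K B} (hF : fil m F) (hG : fil m G) : fil m (F - G) :=
  fun S hS => by rw [co_sub, hF S hS, hG S hS, sub_zero]

lemma fil_mul {a b : ℕ} {F G : Nil K B} (hF : fil a F) (hG : fil b G) : fil (a + b) (F * G) := by
  intro S hS
  rw [co_mul]
  refine Finset.sum_eq_zero fun T hT => ?_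
  by_cases h : T.card < a
  · rw [hF T h, zero_mul]
  · rw [hG (S \ T), mul_zero]
    have h1 := Finset.card_sdiff_of_subset (Finset.mem_powerset.1 hT)
    have h2 := Finset.card_le_card (Finset.mem_powerset.1 hT)
    omega

lemma fil_all (F : Nil K B) : fil 0 F := fun _ hS => absurd hS (Nat.not_lt_zero _)

lemma fil_dn {n m : ℕ} (δ : Fin n → Derivation ℝ B B) (ξ : K → Fin n → B) (i : Fin n) {F : Nil K B}
    (hF : fil m F) : fil m (dn δ ξ i F) := by
  intro S hS
  rw [co_dn, hF S hS]; simp

lemma fil_foldr {n m : ℕ} (δ : Fin n → Derivation ℝ B B) (ξ : K → Fin n → B) (l : List (Fin n))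
    {F : Nil K B} (hF : fil m F) : fil m (l.foldr (fun i => dn δ ξ i) F) := by
  induction l with
  | nil => exact hF
  | cons i l ih => exact fil_dn δ ξ i ih

lemma fil_sum {ι : Type*} (s : Finset ι) {m : ℕ} {F : ι → Nil K B} (hF : ∀ i ∈ s, fil m (F i)) :
    fil m (∑ i ∈ s, F i) := by
  intro S hS
  rw [co_sum]
  exact Finset.sum_eq_zero fun i hi => hF i hi S hS

/-- congruence modulo higher order -/
def cg (m : ℕ) (F G : Nil K B) : Prop := fil m F ∧ fil m G ∧ fil (m + 1) (F - G)

lemma cg_mul {a b : ℕ} {F G F' G' : Nil K B} (h : cg a F G) (h' : cg b F' G') :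
    cg (a + b) (F * F') (G * G') := by
  refine ⟨fil_mul h.1 h'.1, fil_mul h.2.1 h'.2.1, ?_⟩
  have h1 : F * F' - G * G' = (F - G) * F' + G * (F' - G') := by ring
  rw [h1]
  refine fil_add ?_ ?_
  · have := fil_mul h.2.2 h'.1
    exact fil_mono (by omega) this
  · have := fil_mul h.2.1 h'.2.2
    exact fil_mono (by omega) this

lemma cg_one : cg 0 (1 : Nil K B) 1 := ⟨fil_all _, fil_all _, by rw [sub_self]; exact fil_zero _⟩

lemma cg_pow {a : ℕ} {F G : Nil K B} (h : cg a F G) (m : ℕ) : cg (m * a) (F ^ m) (G ^ m) := by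
  induction m with
  | zero => rw [zero_mul, pow_zero, pow_zero]; exact cg_one
  | succ m ih =>
    rw [pow_succ, pow_succ, Nat.succ_mul]
    exact cg_mul ih h

lemma cg_prod {ι : Type*} (s : Finset ι) {a : ι → ℕ} {F G : ι → Nil K B}
    (h : ∀ i ∈ s, cg (a i) (F i) (G i)) : cg (∑ i ∈ s, a i) (∏ i ∈ s, F i) (∏ i ∈ s, G i) := by
  classical
  induction s using Finset.induction_on with
  | empty => rw [Finset.sum_empty, Finset.prod_empty, Finset.prod_empty]; exact cg_one
  | insert i s hi ih =>
    rw [Finset.sum_insert hi, Finset.prod_insert hi, Finset.prod_insert hi]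
    exact cg_mul (h i (Finset.mem_insert_self i s)) (ih fun j hj => h j (Finset.mem_insert_of_mem hj))

lemma cg_monomial {V : Type} (J J' : V → Nil K B) (hJ : ∀ v, cg 1 (J v) (J' v)) (d : V →₀ ℕ) (r : ℝ) :
    cg (d.sum fun _ e => e) (aeval J (monomial d r)) (aeval J' (monomial d r)) := by
  rw [aeval_monomial, aeval_monomial]
  have h1 : cg (d.sum fun _ e => e) (d.prod fun i k => J i ^ k) (d.prod fun i k => J' i ^ k) := by
    unfold Finsupp.sum Finsupp.prod
    refine cg_prod _ fun i _ => ?_
    have := cg_pow (hJ i) (d i)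
    rwa [mul_one] at this
  have h2 : cg 0 (algebraMap ℝ (Nil K B) r) (algebraMap ℝ (Nil K B) r) :=
    ⟨fil_all _, fil_all _, by rw [sub_self]; exact fil_zero _⟩
  have := cg_mul h2 h1
  rwa [zero_add] at this

/-- augmentation -/
def aug (K B : Type) [DecidableEq K] [CommRing B] [Algebra ℝ B] : Nil K B →+* B where
  toFun F := F.co ∅
  map_one' := by rw [co_one, if_pos rfl]
  map_mul' F G := by
    rw [co_mul, Finset.powerset_empty, Finset.sum_singleton, Finset.empty_sdiff]
  map_zero' := rfl
  map_add' F G := rfl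

lemma co_mul_top [Fintype K] (F G : Nil K B) (hG : fil (Fintype.card K) G) :
    (F * G).co univ = F.co ∅ * G.co univ := by
  rw [co_mul, Finset.sum_eq_single ∅]
  · rw [Finset.sdiff_empty]
  · intro T _ hT
    rw [hG, mul_zero]
    have h1 : T.card ≠ 0 := fun h => hT (Finset.card_eq_zero.1 h)
    have h2 := Finset.card_sdiff_of_subset (Finset.subset_univ T)
    have h3 := Finset.card_le_univ T
    rw [Finset.card_univ] at h2
    omega
  · intro h; exact absurd (Finset.empty_mem_powerset _) h

end Nil

variable {α : Type} [Fintype α] [DecidableEq α] {n : ℕ}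

lemma sum_eq_weights (d : Fld n × Multiset (Fin n) →₀ ℕ) :
    (d.sum fun _ e => e) = Finsupp.weight wg d + Finsupp.weight wf d := by
  rw [Finsupp.weight_apply, Finsupp.weight_apply, ← Finsupp.sum_add]
  refine Finsupp.sum_congr fun v _ => ?_
  obtain ⟨o, s⟩ := v
  rcases o with _ | t
  · show _ = d (none, s) * 0 + d (none, s) * 1
    ring
  · show _ = d (some t, s) * 1 + d (some t, s) * 0
    ring

variable (E : NatOp n) (k : ℕ) (hk : ∀ d ∈ E.q.support, k ≤ Finsupp.weight wg d)

include hk in
/-- the value of a natural operator in `Nil` at a superposition of waves is given by the symbol -/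
theorem ev_QQ (hα : Fintype.card α = k) {B : Type} [CommRing B] [Algebra ℝ B]
    (φ : SS α n →ₐ[ℝ] B) (g gi : Fin n → Fin n → Nil (Option α) B) (f : Nil (Option α) B)
    (hg : ∀ a b, g a b = g b a) (hgi : ∀ a b, ∑ c, gi a c * g b c = if a = b then 1 else 0)
    (hg0 : ∀ i l, (g i l).co ∅ = dl i l) (hg1 : ∀ i l a, (g i l).co {some a} = φ (X (ep a, i) * X (ep a, l)))
    (hg2 : ∀ i l, (g i l).co {none} = 0) (hf0 : f.co ∅ = 0) (hf1 : f.co {none} = 1)
    (hf2 : ∀ a, f.co {some a} = 0) :
    (E.ev (Nil (Option α) B) (fun i => Nil.dn (fun _ : Fin n => (0 : Derivation ℝ B B))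
      (fun b i => φ (wx b i)) i) g gi f).co univ = φ (QQ α (E.lc k)) := by
  classical
  set D : Fin n → Derivation ℝ (Nil (Option α) B) (Nil (Option α) B) :=
    Nil.dn (fun _ : Fin n => (0 : Derivation ℝ B B)) (fun b i => φ (wx b i)) with hD
  have hDc : ∀ i j x, D i (D j x) = D j (D i x) :=
    fun i j x => Nil.dn_comm _ (fun _ _ _ => rfl) _ (fun _ _ _ => rfl) i j x
  have hcard : Fintype.card (Option α) = k + 1 := by rw [Fintype.card_option, hα]
  -- the perturbation
  set γ : Fin n → Fin n → Nil (Option α) B := fun i l => g i l - dl i l with hγ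
  have hdlco : ∀ (i l : Fin n) (S : Finset (Option α)),
      (dl i l : Nil (Option α) B).co S = if S = ∅ then dl i l else 0 := by
    intro i l S
    rw [← jetHom_map_dl (Nil.cst : B →+* Nil (Option α) B) i l, Nil.co_cst]
  have hγs : ∀ a b, γ a b = γ b a := by
    intro a b; rw [hγ]; simp only; rw [hg, dl_symm]
  have hγ0 : ∀ i l, (γ i l).co ∅ = 0 := by
    intro i l; rw [hγ]; simp only; rw [Nil.co_sub, hg0, hdlco, if_pos rfl, sub_self]
  have hγ1 : ∀ i l (b : Option α), (γ i l).co {b} = φ (amp b (some s(i, l))) := by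
    intro i l b
    rw [hγ]; simp only
    rw [Nil.co_sub, hdlco, if_neg (Finset.singleton_ne_empty b), sub_zero]
    rcases b with _ | a
    · rw [hg2]
      show 0 = φ 0
      rw [map_zero]
    · rw [hg1]; rfl
  have hf1' : ∀ b : Option α, f.co {b} = φ (amp b (none : Fld n)) := by
    intro b
    rcases b with _ | a
    · rw [hf1]
      show 1 = φ 1
      rw [map_one]
    · rw [hf2]
      show 0 = φ 0
      rw [map_zero]
  -- jets
  set J : Fld n × Multiset (Fin n) → Nil (Option α) B := fun v => mD (fun i => D i) v.2 (fld γ f v.1) with hJ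
  set J' : Fld n × Multiset (Fin n) → Nil (Option α) B := fun v => Nil.map φ (JJ v) with hJ'
  have hcof : ∀ (l : List (Fin n)) (F : Nil (Option α) B) (b : Option α),
      (l.foldr (fun i => D i) F).co {b} = φ (xl b l) * F.co {b} := by
    intro l F b
    induction l with
    | nil => unfold xl; simp
    | cons i l ih =>
      rw [List.foldr_cons, hD, Nil.co_dn]
      rw [hD] at ih
      rw [ih, Finset.sum_singleton]
      unfold xl
      rw [List.map_cons, List.prod_cons, Derivation.zero_apply, zero_add, map_mul φ]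
      ring
  have hcof0 : ∀ (l : List (Fin n)) (F : Nil (Option α) B), F.co ∅ = 0 →
      (l.foldr (fun i => D i) F).co ∅ = 0 := by
    intro l F hF
    have : Nil.fil 1 F := by
      intro S hS
      have : S = ∅ := Finset.card_eq_zero.1 (by omega)
      rw [this, hF]
    exact Nil.fil_foldr _ _ l this ∅ (by simp)
  have hfld : ∀ o : Fld n, (fld γ f o).co ∅ = 0 ∧ ∀ b, (fld γ f o).co {b} = φ (amp b o) := by
    intro o
    rcases o with _ | t
    · exact ⟨hf0, hf1'⟩
    · induction t using Sym2.ind with
      | _ i l =>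
        rw [fld_some γ hγs]
        exact ⟨hγ0 i l, hγ1 i l⟩
  have hcg : ∀ v, Nil.cg 1 (J v) (J' v) := by
    intro v
    have hS0 : ∀ S : Finset (Option α), S.card < 1 → S = ∅ := fun S hS => Finset.card_eq_zero.1 (by omega)
    have hJ0 : (J v).co ∅ = 0 := hcof0 _ _ (hfld v.1).1
    have hJ'0 : (J' v).co ∅ = 0 := by
      rw [hJ']
      show (Nil.map φ (JJ v)).co ∅ = 0
      rw [Nil.co_map]
      unfold JJ
      rw [Nil.co_sum, Finset.sum_eq_zero, map_zero]
      intro b _
      rw [Nil.co_sg, if_neg (Finset.singleton_ne_empty b).symm]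
    refine ⟨fun S hS => by rw [hS0 S hS, hJ0], fun S hS => by rw [hS0 S hS, hJ'0], ?_⟩
    intro S hS
    rw [Nil.co_sub]
    by_cases h0 : S.card = 0
    · rw [Finset.card_eq_zero.1 h0, hJ0, hJ'0, sub_zero]
    · have h1 : S.card = 1 := by omega
      obtain ⟨b, rfl⟩ := Finset.card_eq_one.1 h1
      have e1 : (J v).co {b} = φ (xl b v.2.toList) * φ (amp b v.1) := by
        rw [← (hfld v.1).2 b]
        exact hcof _ _ b
      have e2 : (J' v).co {b} = φ (jt b v) := by
        show (Nil.map φ (JJ v)).co {b} = _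
        rw [Nil.co_map]
        unfold JJ
        rw [Nil.co_sum, Finset.sum_eq_single b]
        · rw [Nil.co_sg, if_pos rfl]
        · intro b' _ hb'
          rw [Nil.co_sg, if_neg]
          intro h
          exact hb' (Finset.singleton_injective h).symm
        · intro h; exact absurd (Finset.mem_univ b) h
      rw [e1, e2]
      unfold jt
      rw [xs_eq, map_mul]
      ring
  -- the polynomial
  have hev := E.ev_p D hDc g gi hg hgi f
  have hq := E.q_eval D hDc γ hγs f
  have hg' : g = fun a b => dl a b + γ a b := by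
    funext a b; rw [hγ]; simp only; ring
  rw [← hg'] at hq
  have hJq : jetHom (fun i => D i) (fld γ f) E.q = aeval J E.q := rfl
  have hwt : ∀ d ∈ E.q.support, k + 1 ≤ (d.sum fun _ e => e) := by
    intro d hd
    rw [sum_eq_weights, E.wf_one d hd]
    have := hk d hd
    omega
  have hsum : aeval J E.q = ∑ d ∈ E.q.support, aeval J (monomial d (coeff d E.q)) := by
    conv_lhs => rw [E.q.as_sum]
    rw [map_sum]
  have hfq : Nil.fil (k + 1) (aeval J E.q) := by
    rw [hsum]
    refine Nil.fil_sum _ fun d hd => ?_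
    exact Nil.fil_mono (hwt d hd) (Nil.cg_monomial J J' hcg d _).1
  -- top coefficient
  have htop : (aeval J E.q).co univ = (aeval J' (E.lc k)).co univ := by
    rw [hsum]
    unfold NatOp.lc
    rw [weightedHomogeneousComponent_apply, map_sum, Nil.co_sum, Nil.co_sum, Finset.sum_filter]
    refine Finset.sum_congr rfl fun d hd => ?_
    split_ifs with hw
    · have h1 := (Nil.cg_monomial J J' hcg d (coeff d E.q)).2.2 univ (by
        rw [Finset.card_univ, hcard, sum_eq_weights, E.wf_one d hd, hw]; omega)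
      rw [Nil.co_sub] at h1
      exact sub_eq_zero.1 h1
    · refine (Nil.cg_monomial J J' hcg d (coeff d E.q)).1 univ ?_
      rw [Finset.card_univ, hcard, sum_eq_weights, E.wf_one d hd]
      have := hk d hd
      omega
  have hdet := (adj_eq g gi hg hgi).1
  have haug : (Matrix.det (Matrix.of gi)).co ∅ = 1 := by
    have h1 : Nil.aug (Option α) B (Matrix.det (Matrix.of g)) = 1 := by
      rw [RingHom.map_det]
      have h2 : (Nil.aug (Option α) B).mapMatrix (Matrix.of g) = 1 := by
        ext i l
        rw [RingHom.mapMatrix_apply, Matrix.map_apply, Matrix.of_apply, Matrix.one_apply]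
        exact hg0 i l
      rw [h2, Matrix.det_one]
    have h2 := congrArg (Nil.aug (Option α) B) hdet
    rw [map_mul, h1, one_mul, map_one] at h2
    exact h2
  have h3 : Matrix.det (Matrix.of gi) ^ E.N * Matrix.det (Matrix.of g) ^ E.N = 1 := by
    rw [← mul_pow, mul_comm, hdet, one_pow]
  have h4 : E.ev (Nil (Option α) B) (fun i => D i) g gi f
      = Matrix.det (Matrix.of gi) ^ E.N * aeval J E.q := by
    calc E.ev (Nil (Option α) B) (fun i => D i) g gi f
        = Matrix.det (Matrix.of gi) ^ E.N * (Matrix.det (Matrix.of g) ^ E.N *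
          E.ev (Nil (Option α) B) (fun i => D i) g gi f) := by rw [← mul_assoc, h3, one_mul]
      _ = _ := by rw [hev, ← hq, hJq]
  have h5 : ((Matrix.det (Matrix.of gi)) ^ E.N).co ∅ = 1 := by
    have h6 : Nil.aug (Option α) B ((Matrix.det (Matrix.of gi)) ^ E.N) = 1 := by
      rw [map_pow]
      have : Nil.aug (Option α) B (Matrix.det (Matrix.of gi)) = 1 := haug
      rw [this, one_pow]
    exact h6
  rw [h4, Nil.co_mul_top _ _ (by rw [hcard]; exact hfq), h5, one_mul, htop]
  have h6 : aeval J' (E.lc k) = Nil.map φ (aeval JJ (E.lc k)) := by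
    rw [hJ']
    have := MvPolynomial.comp_aeval (JJ : _ → Nil (Option α) (SS α n)) (Nil.map (K := Option α) φ)
    have h7 := congrFun (congrArg DFunLike.coe this) (E.lc k)
    exact h7.symm
  rw [h6, Nil.co_map]
  rfl

end

end GJMS
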