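import Pool.Agent.GJMS.Eqs
import Pool.Agent.GJMS.PnInv
import Pool.Agent.GJMS.PnLin

/-! # The operator `P_n` is covariant under infinitesimal diffeomorphisms -/

open Finset

set_option linter.unusedSectionVars false

namespace GJMS

noncomputable section

section gen

variable {n : ℕ} {A : Type} [CommRing A] [Algebra ℝ A]
variable (D : Fin n → Derivation ℝ A A)
  (N : Ideal A) (hN : ∀ x ∈ N, ∀ y ∈ N, x * y = 0) (hDN : ∀ i, ∀ x ∈ N, D i x ∈ N)
  (X : Fin n → A) (hX : ∀ c, X c ∈ N)

/-- the matrix `D_a X_c` -/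
def MX : Matrix (Fin n) (Fin n) A := Matrix.of fun a c => D a (X c)

lemma lieL_mat (S : Fin n → Fin n → A) : Matrix.of (lieL (fun i => D i) X S)
    = DM (vf D X) (Matrix.of S) + MX D X * Matrix.of S + Matrix.of S * (MX D X).transpose := by
  ext a b
  rw [Matrix.of_apply, lieL_eq, Matrix.add_apply, Matrix.add_apply, DM_apply, Matrix.mul_apply,
    Matrix.mul_apply]
  simp only [MX, Matrix.of_apply, Matrix.transpose_apply]
  congr 1
  exact Finset.sum_congr rfl fun c _ => mul_comm _ _

lemma lieU_mat (S : Fin n → Fin n → A) : Matrix.of (lieU (fun i => D i) X S)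
    = DM (vf D X) (Matrix.of S) - (MX D X).transpose * Matrix.of S - Matrix.of S * MX D X := by
  ext a b
  rw [Matrix.of_apply, lieU_eq, Matrix.sub_apply, Matrix.sub_apply, DM_apply, Matrix.mul_apply,
    Matrix.mul_apply]
  simp only [MX, Matrix.of_apply, Matrix.transpose_apply]
  congr 1
  exact Finset.sum_congr rfl fun c _ => mul_comm _ _

/-- the product `S₁ H S₂` -/
def tri (S₁ H S₂ : Fin n → Fin n → A) (a b : Fin n) : A := ∑ c, ∑ e, S₁ a c * H c e * S₂ e b

lemma tri_mat (S₁ H S₂ : Fin n → Fin n → A) :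
    Matrix.of (tri S₁ H S₂) = Matrix.of S₁ * Matrix.of H * Matrix.of S₂ := by
  ext a b
  rw [Matrix.of_apply, Matrix.mul_apply]
  simp only [tri, Matrix.mul_apply, Matrix.of_apply, Finset.sum_mul]
  rw [Finset.sum_comm]

lemma lieL_tri (S₁ H S₂ : Fin n → Fin n → A) :
    Matrix.of (lieL (fun i => D i) X (tri S₁ H S₂))
    = Matrix.of (lieL (fun i => D i) X S₁) * Matrix.of H * Matrix.of S₂
      + Matrix.of S₁ * Matrix.of (lieU (fun i => D i) X H) * Matrix.of S₂
      + Matrix.of S₁ * Matrix.of H * Matrix.of (lieL (fun i => D i) X S₂) := by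
  simp only [lieL_mat, lieU_mat, tri_mat, DM_mul]
  noncomm_ring

/-- covariant pairs of functions -/
def CovF (x x' : A) : Prop := x' = x + vf D X x
/-- covariant pairs of covariant tensors -/
def CovL (T T' : Fin n → Fin n → A) : Prop := ∀ a b, T' a b = T a b + lieL (fun i => D i) X T a b
/-- covariant pairs of contravariant tensors -/
def CovU (T T' : Fin n → Fin n → A) : Prop := ∀ a b, T' a b = T a b + lieU (fun i => D i) X T a b

variable {D X}

lemma CovF.add {x x' y y' : A} (hx : CovF D X x x') (hy : CovF D X y y') :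
    CovF D X (x + y) (x' + y') := by
  unfold CovF at *; rw [hx, hy, map_add]; ring

lemma CovF.sub {x x' y y' : A} (hx : CovF D X x x') (hy : CovF D X y y') :
    CovF D X (x - y) (x' - y') := by
  unfold CovF at *; rw [hx, hy, map_sub]; ring

lemma CovF.neg {x x' : A} (hx : CovF D X x x') : CovF D X (-x) (-x') := by
  unfold CovF at *; rw [hx, map_neg]; ring

lemma CovF.smul (r : ℝ) {x x' : A} (hx : CovF D X x x') : CovF D X (r • x) (r • x') := by
  unfold CovF at *; rw [hx, Derivation.map_smul, smul_add]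

include hN hX in
lemma CovF.mul {x x' y y' : A} (hx : CovF D X x x') (hy : CovF D X y y') :
    CovF D X (x * y) (x' * y') := by
  unfold CovF at *
  rw [hx, hy, Derivation.leibniz, smul_eq_mul, smul_eq_mul]
  linear_combination hN _ (vf_mem D N X hX x) _ (vf_mem D N X hX y)

lemma CovL.add {T T' S S' : Fin n → Fin n → A} (hT : CovL D X T T') (hS : CovL D X S S') :
    CovL D X (fun a b => T a b + S a b) (fun a b => T' a b + S' a b) := by
  intro a b
  show T' a b + S' a b = T a b + S a b + _
  rw [hT, hS, lieL_add]; ring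

lemma lieL_smul (r : ℝ) (T : Fin n → Fin n → A) (a b : Fin n) :
    lieL (fun i => D i) X (fun a b => r • T a b) a b = r • lieL (fun i => D i) X T a b := by
  unfold lieL
  rw [Finset.smul_sum]
  exact Finset.sum_congr rfl fun c _ => by
    simp only [Derivation.map_smul, smul_add, mul_smul_comm]

lemma CovL.smul (r : ℝ) {T T' : Fin n → Fin n → A} (hT : CovL D X T T') :
    CovL D X (fun a b => r • T a b) (fun a b => r • T' a b) := by
  intro a b
  show r • T' a b = r • T a b + _
  rw [hT, lieL_smul, smul_add]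

lemma CovL.neg {T T' : Fin n → Fin n → A} (hT : CovL D X T T') :
    CovL D X (fun a b => - T a b) (fun a b => - T' a b) := by
  have h := hT.smul (-1)
  simpa using h

lemma CovL.sub {T T' S S' : Fin n → Fin n → A} (hT : CovL D X T T') (hS : CovL D X S S') :
    CovL D X (fun a b => T a b - S a b) (fun a b => T' a b - S' a b) := by
  have h := hT.add hS.neg
  simpa [sub_eq_add_neg] using h

lemma lieL_fmul (x : A) (T : Fin n → Fin n → A) (a b : Fin n) :
    lieL (fun i => D i) X (fun a b => x * T a b) a b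
      = vf D X x * T a b + x * lieL (fun i => D i) X T a b := by
  rw [lieL_eq, lieL_eq, Derivation.leibniz, smul_eq_mul, smul_eq_mul, mul_add, mul_add,
    Finset.mul_sum, Finset.mul_sum]
  have e1 : (∑ c, D a (X c) * (x * T c b)) = ∑ c, x * (D a (X c) * T c b) :=
    Finset.sum_congr rfl fun c _ => by ring
  have e2 : (∑ c, D b (X c) * (x * T a c)) = ∑ c, x * (D b (X c) * T a c) :=
    Finset.sum_congr rfl fun c _ => by ring
  rw [e1, e2]; ring

include hN hDN hX in
lemma CovL.fmul {x x' : A} {T T' : Fin n → Fin n → A} (hx : CovF D X x x')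
    (hT : CovL D X T T') : CovL D X (fun a b => x * T a b) (fun a b => x' * T' a b) := by
  intro a b
  unfold CovF at hx
  show x' * T' a b = x * T a b + _
  rw [hT, lieL_fmul, hx]
  linear_combination hN _ (vf_mem D N X hX x) _ (lieL_mem D N hDN X hX T a b)

include hN hDN hX in
lemma CovU.pair {H H' T T' : Fin n → Fin n → A} (hH : CovU D X H H') (hT : CovL D X T T') :
    CovF D X (∑ a, ∑ b, H a b * T a b) (∑ a, ∑ b, H' a b * T' a b) := by
  unfold CovF
  rw [← pair2, ← Finset.sum_add_distrib]
  refine Finset.sum_congr rfl fun a _ => ?_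
  rw [← Finset.sum_add_distrib]
  refine Finset.sum_congr rfl fun b _ => ?_
  rw [hH, hT]
  linear_combination hN _ (lieU_mem D N hDN X hX H a b) _ (lieL_mem D N hDN X hX T a b)

include hN hDN hX in
lemma CovL.tri {S₁ S₁' H H' S₂ S₂' : Fin n → Fin n → A} (h₁ : CovL D X S₁ S₁')
    (hH : CovU D X H H') (h₂ : CovL D X S₂ S₂') :
    CovL D X (tri S₁ H S₂) (GJMS.tri S₁' H' S₂') := by
  intro a b
  have h := congrFun (congrFun (lieL_tri D X S₁ H S₂) a) b
  rw [Matrix.of_apply] at h
  rw [h]
  simp only [Matrix.add_apply, Matrix.mul_apply, Matrix.of_apply, Finset.sum_mul]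
  unfold GJMS.tri
  rw [← sub_eq_zero]
  have e : ∀ F : Fin n → Fin n → A, (∑ x, ∑ i, F i x) = ∑ c, ∑ e, F c e := fun F => Finset.sum_comm
  rw [e (fun c e => lieL (fun i => D i) X S₁ a c * H c e * S₂ e b),
    e (fun c e => S₁ a c * lieU (fun i => D i) X H c e * S₂ e b),
    e (fun c e => S₁ a c * H c e * lieL (fun i => D i) X S₂ e b)]
  simp only [← Finset.sum_add_distrib, ← Finset.sum_sub_distrib]
  refine Finset.sum_eq_zero fun c _ => Finset.sum_eq_zero fun e _ => ?_
  rw [h₁, hH, h₂]
  have m1 := lieL_mem D N hDN X hX S₁ a c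
  have m2 := lieU_mem D N hDN X hX H c e
  have m3 := lieL_mem D N hDN X hX S₂ e b
  have z1 := hN _ m1 _ m2
  have z2 := hN _ m1 _ m3
  have z3 := hN _ m2 _ m3
  linear_combination (S₂ e b + lieL (fun i => D i) X S₂ e b) * z1 + H c e * z2 + S₁ a c * z3

end gen

section lapcov

variable {n : ℕ} {A : Type} [CommRing A] [Algebra ℝ A]
variable (D : Fin n → Derivation ℝ A A) (hD : ∀ i j x, D i (D j x) = D j (D i x))
  (N : Ideal A) (hN : ∀ x ∈ N, ∀ y ∈ N, x * y = 0) (hDN : ∀ i, ∀ x ∈ N, D i x ∈ N)
  (X : Fin n → A) (hX : ∀ c, X c ∈ N)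
  (g gi : Fin n → Fin n → A) (hg : ∀ a b, g a b = g b a)
  (hgi : ∀ a b, ∑ c, gi a c * g b c = if a = b then 1 else 0)

include hD hN hDN hX hg hgi in
/-- covariance of the Laplacian -/
lemma CovL.lap {g' gi' : Fin n → Fin n → A} (hg' : CovL D X g g') (hgi' : CovU D X gi gi')
    {f f' : A} (hf : CovF D X f f') :
    CovF D X (lap (fun i => D i) g gi f) (GJMS.lap (fun i => D i) g' gi' f') := by
  have eg : g' = fun a b => g a b + lieL (fun i => D i) X g a b := by
    funext a b; exact hg' a b
  have egi : gi' = fun a b => gi a b + lieU (fun i => D i) X gi a b := by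
    funext a b; exact hgi' a b
  unfold CovF at hf
  have hcov := nabF_cov D hD N hN hDN X hX g gi hg hgi f 2
  rw [← eg, ← egi, ← hf] at hcov
  have hT : CovL D X (fun a b => nabF (fun i => D i) g gi f 2 ![a, b])
      (fun a b => nabF (fun i => D i) g' gi' f' 2 ![a, b]) := by
    intro a b
    show nabF (fun i => D i) g' gi' f' 2 ![a, b] = _
    rw [hcov]
    show _ + _ = _ + _
    congr 1
    have e1 : nabF (fun i => D i) g gi f 2 = fun w : Fin 2 → Fin n =>
        (fun a b => nabF (fun i => D i) g gi f 2 ![a, b]) (w 0) (w 1) := by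
      funext w
      show _ = nabF (fun i => D i) g gi f 2 ![w 0, w 1]
      congr 1
      funext i
      fin_cases i <;> rfl
    have e2 := lie_pair D X ![a, b] (fun a b => nabF (fun i => D i) g gi f 2 ![a, b])
    rw [← e1] at e2
    exact e2
  exact CovU.pair N hN hDN hX hgi' hT

/-- covariance of powers of the Laplacian -/
theorem lapPow_cov' (m : ℕ) {g' gi' : Fin n → Fin n → A} (hg' : CovL D X g g')
    (hgi' : CovU D X gi gi') (hD : ∀ i j x, D i (D j x) = D j (D i x))
    (hN : ∀ x ∈ N, ∀ y ∈ N, x * y = 0) (hDN : ∀ i, ∀ x ∈ N, D i x ∈ N) (hX : ∀ c, X c ∈ N)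
    (hg : ∀ a b, g a b = g b a)
    (hgi : ∀ a b, ∑ c, gi a c * g b c = if a = b then 1 else 0) : ∀ {f f' : A}, CovF D X f f' →
    CovF D X ((lap (fun i => D i) g gi)^[m] f) ((lap (fun i => D i) g' gi')^[m] f') := by
  induction m with
  | zero => exact fun hf => hf
  | succ m ih =>
    intro f f' hf
    rw [Function.iterate_succ_apply, Function.iterate_succ_apply]
    exact ih (CovL.lap D hD N hN hDN X hX g gi hg hgi hg' hgi' hf)

include hD hN hDN hX hg hgi in
/-- covariance of powers of the Laplacian -/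
theorem lapPow_cov (m : ℕ) (f : A) :
    (lap (fun i => D i) (fun a b => g a b + lieL (fun i => D i) X g a b)
      (fun a b => gi a b + lieU (fun i => D i) X gi a b))^[m] (f + vf D X f)
    = (lap (fun i => D i) g gi)^[m] f + vf D X ((lap (fun i => D i) g gi)^[m] f) :=
  lapPow_cov' D N X g gi m (fun _ _ => rfl) (fun _ _ => rfl) hD hN hDN hX hg hgi rfl

include hD hN hDN hX hg hgi in
/-- covariance of linear combinations of complete contractions -/
theorem opEval_cov (L : List (ℝ × Contr)) (f : A) :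
    opEval L (fun i => D i) (fun a b => g a b + lieL (fun i => D i) X g a b)
      (fun a b => gi a b + lieU (fun i => D i) X gi a b) (f + vf D X f)
    = opEval L (fun i => D i) g gi f + vf D X (opEval L (fun i => D i) g gi f) := by
  unfold opEval
  induction L with
  | nil => simp
  | cons x L ih =>
    rw [List.map_cons, List.map_cons, List.sum_cons, List.sum_cons, ih, map_add,
      Derivation.map_smul, eval_cov D hD N hN hDN X hX g gi hg hgi x.2 f, smul_add]
    ring

end lapcov

section ps

variable {n : ℕ} {A : Type} [CommRing A] [Algebra ℝ A]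
variable (D : Fin n → Derivation ℝ A A) (X : Fin n → A)

/-- the derivations of power series -/
abbrev DB (D : Fin n → Derivation ℝ A A) : Fin n → Derivation ℝ (PowerSeries A) (PowerSeries A) :=
  fun i => psD (D i)

/-- the constant vector field -/
abbrev XB (X : Fin n → A) : Fin n → PowerSeries A := fun c => PowerSeries.C (X c)

lemma coeff_vf (F : PowerSeries A) (m : ℕ) : PowerSeries.coeff m (vf (DB D) (XB X) F)
    = vf D X (PowerSeries.coeff m F) := by
  rw [vf_apply, vf_apply, map_sum]
  exact Finset.sum_congr rfl fun c _ => by rw [PowerSeries.coeff_C_mul, coeff_psD]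

lemma coeff_lieL (T : Fin n → Fin n → PowerSeries A) (a b : Fin n) (m : ℕ) :
    PowerSeries.coeff m (lieL (fun i => DB D i) (XB X) T a b)
    = lieL (fun i => D i) X (fun a b => PowerSeries.coeff m (T a b)) a b := by
  unfold lieL
  rw [map_sum]
  exact Finset.sum_congr rfl fun c _ => by
    simp only [psD_C, map_add, PowerSeries.coeff_C_mul, coeff_psD]

variable {D X}

lemma CovF.dr {F F' : PowerSeries A} (h : CovF (DB D) (XB X) F F') :
    CovF (DB D) (XB X) (dr F) (GJMS.dr F') := by
  unfold CovF at *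
  ext m
  rw [h, map_add, coeff_vf, coeff_dr, coeff_dr, map_add, coeff_vf, smul_add, Derivation.map_smul]

lemma CovL.dr {T T' : Fin n → Fin n → PowerSeries A} (h : CovL (DB D) (XB X) T T') :
    CovL (DB D) (XB X) (fun a b => dr (T a b)) (fun a b => GJMS.dr (T' a b)) := by
  intro a b
  show GJMS.dr (T' a b) = GJMS.dr (T a b) + _
  ext m
  rw [h, map_add, coeff_lieL, coeff_dr, coeff_dr, map_add, coeff_lieL, smul_add]
  simp only [coeff_dr]
  rw [lieL_smul]

lemma CovF.rho : CovF (DB D) (XB X) (PowerSeries.X : PowerSeries A) PowerSeries.X := by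
  unfold CovF
  rw [vf_apply, Finset.sum_eq_zero, add_zero]
  intro c _
  rw [psD_X, mul_zero]

lemma CovF.C {x x' : A} (h : CovF D X x x') :
    CovF (DB D) (XB X) (PowerSeries.C x) (PowerSeries.C x') := by
  unfold CovF at *
  rw [vf_psD_C, h, map_add]

lemma CovL.C {T T' : Fin n → Fin n → A} (h : CovL D X T T') :
    CovL (DB D) (XB X) (fun a b => PowerSeries.C (T a b)) (fun a b => PowerSeries.C (T' a b)) := by
  intro a b
  show PowerSeries.C (T' a b) = PowerSeries.C (T a b) + _
  rw [h, map_add, ← lieL_psD_C]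

lemma CovL.coeff {T T' : Fin n → Fin n → PowerSeries A} (h : CovL (DB D) (XB X) T T') (m : ℕ) :
    CovL D X (fun a b => PowerSeries.coeff m (T a b)) (fun a b => PowerSeries.coeff m (T' a b)) := by
  intro a b
  show PowerSeries.coeff m (T' a b) = PowerSeries.coeff m (T a b) + _
  rw [h, map_add, coeff_lieL]

end ps

section main

variable {n : ℕ} {A : Type} [CommRing A] [Algebra ℝ A]
variable (D : Fin n → Derivation ℝ A A) (hD : ∀ i j x, D i (D j x) = D j (D i x))
  (N : Ideal A) (hN : ∀ x ∈ N, ∀ y ∈ N, x * y = 0) (hDN : ∀ i, ∀ x ∈ N, D i x ∈ N)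
  (X : Fin n → A) (hX : ∀ c, X c ∈ N)
  (g gi : Fin n → Fin n → A) (hg : ∀ a b, g a b = g b a)
  (hgi : ∀ a b, ∑ c, gi a c * g b c = if a = b then 1 else 0)

include hN hDN hX in
lemma CovL.tau {G G' H H' : Fin n → Fin n → PowerSeries A} (hG : CovL (DB D) (XB X) G G')
    (hH : CovU (DB D) (XB X) H H') : CovF (DB D) (XB X) (tau G H) (GJMS.tau G' H') :=
  CovU.pair (psI N) (psI_sq N hN) (fun i => psI_psD N (D i) (hDN i)) (fun c => C_mem_psI N (hX c))
    hH hG.dr

include hD hN hDN hX in
lemma CovL.fgE {G G' H H' : Fin n → Fin n → PowerSeries A} (hG : CovL (DB D) (XB X) G G')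
    (hH : CovU (DB D) (XB X) H H') (hGs : ∀ a b, G a b = G b a)
    (hGH : ∀ a b, ∑ c, H a c * G b c = if a = b then 1 else 0) :
    CovL (DB D) (XB X) (fgE (fun i => D i) G H) (GJMS.fgE (fun i => D i) G' H') := by
  have hN' := psI_sq N hN
  have hDN' : ∀ i, ∀ x ∈ psI N, DB D i x ∈ psI N := fun i => psI_psD N (D i) (hDN i)
  have hX' : ∀ c, XB X c ∈ psI N := fun c => C_mem_psI N (hX c)
  have hτ := CovL.tau D N hN hDN X hX hG hH
  have hric : CovL (DB D) (XB X) (ric (fun i => psd (D i)) (chr (fun i => psd (D i)) G H))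
      (ric (fun i => psd (D i)) (chr (fun i => psd (D i)) G' H')) := by
    intro a b
    have eg : G' = fun a b => G a b + lieL (fun i => DB D i) (XB X) G a b := by
      funext a b; exact hG a b
    have egi : H' = fun a b => H a b + lieU (fun i => DB D i) (XB X) H a b := by
      funext a b; exact hH a b
    rw [eg, egi]
    exact ric_cov (DB D) (psD_comm D hD) (psI N) hN' hDN' (XB X) hX' G H hGs hGH a b
  have h1 := ((((hG.dr.dr).smul 2).sub ((CovL.tri (psI N) hN' hDN' hX' hG.dr hH hG.dr).smul 2)).add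
    (CovL.fmul (psI N) hN' hDN' hX' hτ hG.dr))
  exact (((CovL.fmul (psI N) hN' hDN' hX' CovF.rho h1).sub (hG.dr.smul ((n : ℝ) - 2))).sub
    (CovL.fmul (psI N) hN' hDN' hX' hτ hG)).add (hric.smul 2)

include hD hN hDN hX in
lemma CovL.Ls {G G' H H' : Fin n → Fin n → PowerSeries A} (hG : CovL (DB D) (XB X) G G')
    (hH : CovU (DB D) (XB X) H H') (hGs : ∀ a b, G a b = G b a)
    (hGH : ∀ a b, ∑ c, H a c * G b c = if a = b then 1 else 0) (s : ℝ) {φ φ' : PowerSeries A}
    (hφ : CovF (DB D) (XB X) φ φ') :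
    CovF (DB D) (XB X) (Ls (fun i => D i) G H s φ) (GJMS.Ls (fun i => D i) G' H' s φ') := by
  have hN' := psI_sq N hN
  have hDN' : ∀ i, ∀ x ∈ psI N, DB D i x ∈ psI N := fun i => psI_psD N (D i) (hDN i)
  have hX' : ∀ c, XB X c ∈ psI N := fun c => C_mem_psI N (hX c)
  have hτ := CovL.tau D N hN hDN X hX hG hH
  have hl : CovF (DB D) (XB X) (GJMS.lap (fun i => psd (D i)) G H φ)
      (GJMS.lap (fun i => psd (D i)) G' H' φ') :=
    CovL.lap (DB D) (psD_comm D hD) (psI N) hN' hDN' (XB X) hX' G H hGs hGH hG hH hφ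
  unfold GJMS.Ls
  exact ((((((CovF.mul (psI N) hN' hX' CovF.rho hφ.dr.dr).smul 2).neg).add (hφ.dr.smul _)).sub
    (CovF.mul (psI N) hN' hX' (CovF.mul (psI N) hN' hX' CovF.rho hτ) hφ.dr)).add
    ((CovF.mul (psI N) hN' hX' hτ hφ).smul _)).add hl

include hD hN hDN hX in
lemma CovL.Lchain {G G' H H' : Fin n → Fin n → PowerSeries A} (hG : CovL (DB D) (XB X) G G')
    (hH : CovU (DB D) (XB X) H H') (hGs : ∀ a b, G a b = G b a)
    (hGH : ∀ a b, ∑ c, H a c * G b c = if a = b then 1 else 0) {φ φ' : PowerSeries A}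
    (hφ : CovF (DB D) (XB X) φ φ') (l : ℕ) :
    CovF (DB D) (XB X) (Lchain (fun i => D i) G H φ l) (GJMS.Lchain (fun i => D i) G' H' φ' l) := by
  induction l with
  | zero => exact hφ
  | succ l ih => exact CovL.Ls D hD N hN hDN X hX hG hH hGs hGH _ ih

include hD hN hDN hX hg hgi in
lemma invS_cov {G G' : Fin n → Fin n → PowerSeries A} (hG : CovL (DB D) (XB X) G G')
    (hGs : ∀ a b, G a b = G b a) (hG0 : ∀ a b, PowerSeries.constantCoeff (G a b) = g a b) :
    CovU (DB D) (XB X) (invS g gi G) (invS (fun a b => g a b + lieL (fun i => D i) X g a b)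
      (fun a b => gi a b + lieU (fun i => D i) X gi a b) G') := by
  have hN' := psI_sq N hN
  have hDN' : ∀ i, ∀ x ∈ psI N, DB D i x ∈ psI N := fun i => psI_psD N (D i) (hDN i)
  have hX' : ∀ c, XB X c ∈ psI N := fun c => C_mem_psI N (hX c)
  have hsymm : ∀ (B : Type) [CommRing B] [Algebra ℝ B] (E : Fin n → Derivation ℝ B B)
      (Y : Fin n → B) (T : Fin n → Fin n → B), (∀ a b, T a b = T b a) → ∀ a b,
      lieL (fun i => E i) Y T a b = lieL (fun i => E i) Y T b a := by
    intro B _ _ E Y T hT a b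
    unfold lieL
    refine Finset.sum_congr rfl fun c _ => ?_
    rw [hT a b, hT c b, hT a c]; ring
  have hG's : ∀ a b, G' a b = G' b a := by
    intro a b
    rw [hG a b, hG b a, hGs a b, hsymm (PowerSeries A) (DB D) (XB X) G hGs a b]
  have hg's : ∀ a b, g a b + lieL (fun i => D i) X g a b = g b a + lieL (fun i => D i) X g b a := by
    intro a b
    rw [hg a b, hsymm A D X g hg a b]
  have hG'0 : ∀ a b, PowerSeries.constantCoeff (G' a b) = g a b + lieL (fun i => D i) X g a b := by
    intro a b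
    rw [hG a b, map_add, hG0]
    congr 1
    rw [← PowerSeries.coeff_zero_eq_constantCoeff_apply, coeff_lieL]
    congr 1
    funext a b
    rw [PowerSeries.coeff_zero_eq_constantCoeff_apply, hG0]
  have h1 := invS_exact hg hgi hG0 hGs
  have h2 := invS_exact (g := fun a b => g a b + lieL (fun i => D i) X g a b)
    (gi := fun a b => gi a b + lieU (fun i => D i) X gi a b) hg's
    (inv_cov D N hN hDN X hX g gi hg hgi) hG'0 hG's
  have h3 := inv_cov (DB D) (psI N) hN' hDN' (XB X) hX' G (invS g gi G) hGs h1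
  have h4 : ∀ a b, ∑ c, (invS g gi G a c + lieU (fun i => DB D i) (XB X) (invS g gi G) a c) * G' b c
      = if a = b then 1 else 0 := by
    intro a b
    rw [← h3 a b]
    exact Finset.sum_congr rfl fun c _ => by rw [hG b c]
  intro a b
  exact inv_unique h2 h4 a b

include hD hN hDN hX hg hgi in
/-- the approximate ambient metrics are covariant -/
theorem fgG_cov (j : ℕ) : CovL (DB D) (XB X) (fgG (fun i => D i) g gi j)
    (fgG (fun i => D i) (fun a b => g a b + lieL (fun i => D i) X g a b)
      (fun a b => gi a b + lieU (fun i => D i) X gi a b) j) := by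
  induction j with
  | zero => exact CovL.C (fun _ _ => rfl)
  | succ j ih =>
    have hGs := fgG_symm D hD g gi hg hgi j
    have hG0 := fgG_cc (fun i => D i) g gi j
    have hH := invS_cov D hD N hN hDN X hX g gi hg hgi ih hGs hG0
    have hE := CovL.fgE D hD N hN hDN X hX ih hH hGs (fgG_inv D hD g gi hg hgi j)
    have hEj := hE.coeff j
    have htr := CovU.pair N hN hDN hX (H := gi)
      (H' := fun a b => gi a b + lieU (fun i => D i) X gi a b) (fun _ _ => rfl) hEj
    have hgg : CovL D X g (fun a b => g a b + lieL (fun i => D i) X g a b) := fun _ _ => rfl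
    have h1 := (hEj.add (((CovL.fmul N hN hDN hX htr hgg)).smul
      (1 / (2 * (j : ℝ) + 2 - 2 * n)))).smul (-(1 / (((j : ℝ) + 1) * (2 * (j : ℝ) + 2 - n))))
    have hXp : CovF (DB D) (XB X) ((PowerSeries.X : PowerSeries A) ^ (j + 1))
        (PowerSeries.X ^ (j + 1)) := by
      unfold CovF
      rw [vf_apply, Finset.sum_eq_zero, add_zero]
      intro c _
      rw [Derivation.leibniz_pow, psD_X, smul_zero, smul_zero, mul_zero]
    exact ih.add (CovL.fmul (psI N) (psI_sq N hN) (fun i => psI_psD N (D i) (hDN i))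
      (fun c => C_mem_psI N (hX c)) hXp (CovL.C h1))

include hD hN hDN hX hg hgi in
/-- the operator `P_n` is covariant under infinitesimal diffeomorphisms -/
theorem Pn_cov (f : A) :
    Pn n A (fun i => D i) (fun a b => g a b + lieL (fun i => D i) X g a b)
      (fun a b => gi a b + lieU (fun i => D i) X gi a b) (f + vf D X f)
    = Pn n A (fun i => D i) g gi f + vf D X (Pn n A (fun i => D i) g gi f) := by
  have hGs := fgG_symm D hD g gi hg hgi (n / 2 - 1)
  have hG0 := fgG_cc (fun i => D i) g gi (n / 2 - 1)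
  have hG := fgG_cov D hD N hN hDN X hX g gi hg hgi (n / 2 - 1)
  have hH := invS_cov D hD N hN hDN X hX g gi hg hgi hG hGs hG0
  have hf : CovF (DB D) (XB X) (PowerSeries.C f) (PowerSeries.C (f + vf D X f)) := CovF.C rfl
  have h := CovL.Lchain D hD N hN hDN X hX hG hH hGs (fgG_inv D hD g gi hg hgi (n / 2 - 1)) hf (n / 2)
  unfold CovF at h
  unfold Pn
  rw [h, map_add]
  congr 1
  rw [← PowerSeries.coeff_zero_eq_constantCoeff_apply, coeff_vf,
    PowerSeries.coeff_zero_eq_constantCoeff_apply]

end main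

end

end GJMS
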