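import Pool.Agent.GJMS.GramClosure
import Pool.Agent.GJMS.PnCov

/-! # The operator `P_n` is isotropic -/

open Finset

set_option linter.unusedSectionVars false

namespace GJMS

noncomputable section

variable {n : ℕ} {A : Type} [CommRing A] [Algebra ℝ A] {D : Fin n → Derivation ℝ A A}

/-! ### closure properties for matrices -/

section mats

variable {S : GramSys D} {T T' : Fin n → Fin n → A} {f f' : A}

lemma IsG2.add (h : IsG2 S T) (h' : IsG2 S T') : IsG2 S (fun a b => T a b + T' a b) :=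
  IsG.isG2 (h.isG.add h'.isG)

lemma IsG2.sub (h : IsG2 S T) (h' : IsG2 S T') : IsG2 S (fun a b => T a b - T' a b) :=
  IsG.isG2 (h.isG.sub h'.isG)

lemma IsG2.smul (r : ℝ) (h : IsG2 S T) : IsG2 S (fun a b => r • T a b) :=
  IsG.isG2 (h.isG.smul r)

lemma IsG2.fmul (hf : IsG0 S f) (h : IsG2 S T) : IsG2 S (fun a b => f * T a b) :=
  IsG.isG2 (IsG.fmul hf h.isG)

/-- matrix products -/
lemma IsG2.mmul (h : IsG2 S T) (h' : IsG2 S T') : IsG2 S (fun a b => ∑ c, T a c * T' c b) := by
  have h1 := (h.isG.mul h'.isG).contract' (ι := Fin 2)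
    (Sum.elim ![Sum.inr 0, Sum.inl true] ![Sum.inl false, Sum.inr 1]) (by decide)
  exact IsG.isG2 h1

/-- products of three matrices -/
lemma IsG2.tri {U : Fin n → Fin n → A} (h : IsG2 S T) (h' : IsG2 S T') (hU : IsG2 S U) :
    IsG2 S (tri T T' U) := by
  have h1 := (h.mmul h').mmul hU
  convert h1 using 3 with a b
  unfold GJMS.tri
  rw [Finset.sum_comm]
  exact Finset.sum_congr rfl fun e _ => by rw [Finset.sum_mul]

/-- full contraction -/
lemma IsG2.pair (h : IsG2 S T) (h' : IsG2 S T') : IsG0 S (∑ a, ∑ b, T a b * T' a b) := by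
  have h1 := h.isG.inner h'.isG
  convert h1 using 1
  rw [← Fintype.sum_prod_type']
  exact (Fintype.sum_equiv (finTwoArrowEquiv (Fin n)) _ _ fun w => rfl).symm

lemma IsG0.sub (hf : IsG0 S f) (hf' : IsG0 S f') : IsG0 S (f - f') := by
  have h := hf.add (hf'.smul (-1))
  rwa [neg_smul, one_smul, ← sub_eq_add_neg] at h

lemma IsG0.neg (hf : IsG0 S f) : IsG0 S (-f) := by
  have h := hf.smul (-1)
  rwa [neg_smul, one_smul] at h

end mats

/-! ### power series -/

/-- the coefficientwise extension of a system of Gram elements to power series -/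
def psG (S : GramSys D) : GramSys (DB D) where
  G := { carrier := {F | ∀ m, PowerSeries.coeff m F ∈ S.G}
         mul_mem' := by
           intro F F' h h' m
           rw [PowerSeries.coeff_mul]
           exact S.G.sum_mem fun x _ => S.G.mul_mem (h _) (h' _)
         add_mem' := by
           intro F F' h h' m
           rw [map_add]
           exact S.G.add_mem (h m) (h' m)
         algebraMap_mem' := by
           intro r m
           rw [PowerSeries.algebraMap_apply, PowerSeries.coeff_C]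
           split_ifs
           · exact S.G.algebraMap_mem r
           · exact S.G.zero_mem }
  V u i := PowerSeries.C (S.V u i)
  del u i := psD (S.del u i)
  del_V u i v j := by
    rw [psD_C, S.del_V]
    split_ifs
    · exact map_one _
    · exact map_zero _
  D_V i u j := by
    rw [psD_C, S.D_V, map_zero]
  del_D u i j F hF := by
    ext m
    rw [coeff_psD, coeff_psD, map_zero]
    refine S.del_D u i j _ fun k => ?_
    rw [← coeff_psD, hF, map_zero]
  lap_mem u v huv F hF m := by
    rw [map_sum]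
    simp only [coeff_psD]
    exact S.lap_mem u v huv _ (hF m)
  D_mem u F hF m := by
    rw [map_sum]
    simp only [PowerSeries.coeff_C_mul, coeff_psD]
    exact S.D_mem u _ (hF m)
  V_mem u v m := by
    simp only [← map_mul, ← map_sum]
    rw [PowerSeries.coeff_C]
    split_ifs
    · exact S.V_mem u v
    · exact S.G.zero_mem

variable {S : GramSys D}

lemma mem_psG (F : PowerSeries A) : F ∈ (psG S).G ↔ ∀ m, PowerSeries.coeff m F ∈ S.G := Iff.rfl

lemma isG0_ps {F : PowerSeries A} : IsG0 (psG S) F ↔ ∀ m, IsG0 S (PowerSeries.coeff m F) := by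
  constructor
  · intro h m
    refine ⟨fun u i => ?_, h.2 m⟩
    rw [← coeff_psD]
    have h1 : psD (S.del u i) F = 0 := h.1 u i
    rw [h1, map_zero]
  · intro h
    refine ⟨fun u i => ?_, fun m => (h m).2⟩
    show psD (S.del u i) F = 0
    ext m
    rw [coeff_psD, (h m).1, map_zero]

lemma isG2_ps {T : Fin n → Fin n → PowerSeries A} :
    IsG2 (psG S) T ↔ ∀ m, IsG2 S (fun a b => PowerSeries.coeff m (T a b)) := by
  have key : ∀ u v m, PowerSeries.coeff m (∑ a, ∑ b, T a b * ((psG S).V u a * (psG S).V v b))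
      = ∑ a, ∑ b, PowerSeries.coeff m (T a b) * (S.V u a * S.V v b) := by
    intro u v m
    rw [map_sum]
    refine Finset.sum_congr rfl fun a _ => ?_
    rw [map_sum]
    refine Finset.sum_congr rfl fun b _ => ?_
    show PowerSeries.coeff m (T a b * (PowerSeries.C (S.V u a) * PowerSeries.C (S.V v b))) = _
    rw [← map_mul, PowerSeries.coeff_mul_C]
  constructor
  · intro h m
    refine ⟨fun a b u i => ?_, fun u v => ?_⟩
    · rw [← coeff_psD]
      have h1 : psD (S.del u i) (T a b) = 0 := h.1 a b u i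
      rw [h1, map_zero]
    · rw [← key]
      exact h.2 u v m
  · intro h
    refine ⟨fun a b u i => ?_, fun u v m => ?_⟩
    · show psD (S.del u i) (T a b) = 0
      ext m
      rw [coeff_psD, (h m).1, map_zero]
    · rw [key]
      exact (h m).2 u v

lemma IsG0.zero : IsG0 S (0 : A) := ⟨fun _ _ => map_zero _, S.G.zero_mem⟩

lemma IsG2.zero : IsG2 S (fun _ _ => (0 : A)) :=
  ⟨fun _ _ _ _ => map_zero _, fun u v => by simp⟩

lemma IsG0.C {f : A} (h : IsG0 S f) : IsG0 (psG S) (PowerSeries.C f) := by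
  rw [isG0_ps]
  intro m
  rw [PowerSeries.coeff_C]
  split_ifs
  · exact h
  · exact IsG0.zero

lemma IsG2.C {g : Fin n → Fin n → A} (h : IsG2 S g) :
    IsG2 (psG S) (fun a b => PowerSeries.C (g a b)) := by
  rw [isG2_ps]
  intro m
  rcases Nat.eq_zero_or_pos m with hm | hm
  · subst hm
    simpa using h
  · have : (fun a b => PowerSeries.coeff m (PowerSeries.C (g a b))) = fun _ _ => (0 : A) := by
      funext a b
      rw [PowerSeries.coeff_C, if_neg (by omega)]
    rw [this]
    exact IsG2.zero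

lemma IsG0.rho_pow (k : ℕ) : IsG0 (psG S) ((PowerSeries.X : PowerSeries A) ^ k) := by
  rw [isG0_ps]
  intro m
  rw [PowerSeries.coeff_X_pow]
  split_ifs
  · exact ⟨fun u i => Derivation.map_one_eq_zero _, S.G.one_mem⟩
  · exact IsG0.zero

lemma IsG0.rho : IsG0 (psG S) (PowerSeries.X : PowerSeries A) := by
  have h := IsG0.rho_pow (S := S) 1
  rwa [pow_one] at h

lemma IsG0.dr {F : PowerSeries A} (h : IsG0 (psG S) F) : IsG0 (psG S) (dr F) := by
  rw [isG0_ps] at *
  intro m
  rw [coeff_dr]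
  exact (h (m + 1)).smul _

lemma IsG2.dr {T : Fin n → Fin n → PowerSeries A} (h : IsG2 (psG S) T) :
    IsG2 (psG S) (fun a b => dr (T a b)) := by
  rw [isG2_ps] at *
  intro m
  simp only [coeff_dr]
  exact (h (m + 1)).smul _

section geom

variable {g gi : Fin n → Fin n → A} {G H : Fin n → Fin n → PowerSeries A}

lemma IsG2.invA (hg : IsG2 S g) (hgi : IsG2 S gi) (hG : IsG2 (psG S) G) (l : ℕ) :
    IsG2 (psG S) (invA g gi G l) := by
  induction l with
  | zero => exact hgi.C
  | succ l ih => exact hgi.C.sub (IsG2.tri hgi.C (hG.sub hg.C) ih)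

lemma IsG2.invS (hg : IsG2 S g) (hgi : IsG2 S gi) (hG : IsG2 (psG S) G) :
    IsG2 (psG S) (invS g gi G) := by
  rw [isG2_ps]
  intro m
  simp only [coeff_invS]
  exact (isG2_ps.1 (IsG2.invA hg hgi hG m)) m

lemma IsG2.tau (hG : IsG2 (psG S) G) (hH : IsG2 (psG S) H) : IsG0 (psG S) (tau G H) :=
  hH.pair hG.dr

lemma IsG2.fgE (hG : IsG2 (psG S) G) (hH : IsG2 (psG S) H) :
    IsG2 (psG S) (fgE (fun i => D i) G H) := by
  have hric : IsG2 (psG S) (ric (fun i => DB D i) (GJMS.chr (fun i => DB D i) G H)) :=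
    (IsG2.chr hG hH).ric
  have h1 := ((hG.dr.dr.smul 2).sub ((IsG2.tri hG.dr hH hG.dr).smul 2)).add
    (IsG2.fmul (hG.tau hH) hG.dr)
  exact (((IsG2.fmul IsG0.rho h1).sub (hG.dr.smul ((n : ℝ) - 2))).sub
    (IsG2.fmul (hG.tau hH) hG)).add (hric.smul 2)

lemma IsG2.fgG (hg : IsG2 S g) (hgi : IsG2 S gi) (j : ℕ) :
    IsG2 (psG S) (fgG (fun i => D i) g gi j) := by
  induction j with
  | zero => exact hg.C
  | succ j ih =>
    have hE := (isG2_ps.1 (IsG2.fgE ih (IsG2.invS hg hgi ih))) j
    have h1 := (hE.add ((IsG2.fmul (hgi.pair hE) hg).smul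
      (1 / (2 * (j : ℝ) + 2 - 2 * n)))).smul (-(1 / (((j : ℝ) + 1) * (2 * (j : ℝ) + 2 - n))))
    exact ih.add (IsG2.fmul (IsG0.rho_pow (j + 1)) h1.C)

lemma IsG2.Ls (hG : IsG2 (psG S) G) (hH : IsG2 (psG S) H) (s : ℝ) {φ : PowerSeries A}
    (hφ : IsG0 (psG S) φ) : IsG0 (psG S) (Ls (fun i => D i) G H s φ) := by
  have hl : IsG0 (psG S) (GJMS.lap (fun i => DB D i) G H φ) := IsG2.lap hG hH hφ
  exact ((((((IsG0.mul IsG0.rho hφ.dr.dr).smul 2).neg).add (hφ.dr.smul _)).sub
    (IsG0.mul (IsG0.mul IsG0.rho (hG.tau hH)) hφ.dr)).add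
    ((IsG0.mul (hG.tau hH) hφ).smul _)).add hl

lemma IsG2.Lchain (hG : IsG2 (psG S) G) (hH : IsG2 (psG S) H) {φ : PowerSeries A}
    (hφ : IsG0 (psG S) φ) (l : ℕ) : IsG0 (psG S) (Lchain (fun i => D i) G H φ l) := by
  induction l with
  | zero => exact hφ
  | succ l ih => exact IsG2.Ls hG hH _ ih

/-- the operator `P_n` is isotropic -/
theorem Pn_isG (hg : IsG2 S g) (hgi : IsG2 S gi) {f : A} (hf : IsG0 S f) :
    IsG0 S (Pn n A (fun i => D i) g gi f) := by
  have hG := hg.fgG hgi (n / 2 - 1)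
  have h := isG0_ps.1 (IsG2.Lchain hG (IsG2.invS hg hgi hG) hf.C (n / 2)) 0
  rw [PowerSeries.coeff_zero_eq_constantCoeff_apply] at h
  exact h

/-- powers of the Laplacian are isotropic -/
theorem lapPow_isG (hg : IsG2 S g) (hgi : IsG2 S gi) (m : ℕ) : ∀ {f : A}, IsG0 S f →
    IsG0 S ((lap (fun i => D i) g gi)^[m] f) := by
  induction m with
  | zero => exact fun hf => hf
  | succ m ih =>
    intro f hf
    rw [Function.iterate_succ_apply]
    exact ih (IsG2.lap hg hgi hf)

/-- linear combinations of complete contractions are isotropic -/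
theorem opEval_isG (hg : IsG2 S g) (hgi : IsG2 S gi) (L : List (ℝ × Contr)) {f : A}
    (hf : IsG0 S f) : IsG0 S (opEval L (fun i => D i) g gi f) := by
  unfold opEval
  induction L with
  | nil => exact IsG0.zero
  | cons x L ih =>
    rw [List.map_cons, List.sum_cons]
    exact ((Contr.eval_isG S hg hgi hf x.2).smul x.1).add ih

end geom

/-- the operator `P_n` is isotropic -/
theorem Pn_gram (D : Fin n → Derivation ℝ A A) (S : GramSys D) (g gi : Fin n → Fin n → A) (f : A)
    (hg : IsG2 S g) (hgi : IsG2 S gi) (hf : IsG0 S f) : Pn n A (fun i => D i) g gi f ∈ S.G :=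
  (Pn_isG hg hgi hf).2

/-- powers of the Laplacian are isotropic -/
theorem lapPow_gram (D : Fin n → Derivation ℝ A A) (S : GramSys D) (g gi : Fin n → Fin n → A)
    (f : A) (m : ℕ) (hg : IsG2 S g) (hgi : IsG2 S gi) (hf : IsG0 S f) :
    (lap (fun i => D i) g gi)^[m] f ∈ S.G :=
  (lapPow_isG hg hgi m hf).2

/-- linear combinations of complete contractions are isotropic -/
theorem opEval_gram (L : List (ℝ × Contr)) (D : Fin n → Derivation ℝ A A) (S : GramSys D)
    (g gi : Fin n → Fin n → A) (f : A) (hg : IsG2 S g) (hgi : IsG2 S gi) (hf : IsG0 S f) :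
    opEval L (fun i => D i) g gi f ∈ S.G :=
  (opEval_isG hg hgi L hf).2

end

end GJMS
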