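import Pool.Agent.GJMS.Defs

/-! # Parametricity: everything is compatible with relations closed under the ring operations
and the maps `d i` -/

open Finset

namespace GJMS

noncomputable section

variable {n : ℕ} {A B : Type*} [CommRing A] [Algebra ℝ A] [CommRing B] [Algebra ℝ B]

/-- a relation between `A` and `B` closed under all operations -/
structure RelOK (dA : Fin n → A → A) (dB : Fin n → B → B) (R : A → B → Prop) : Prop where
  zero : R 0 0
  one : R 1 1
  add : ∀ {a a' b b'}, R a b → R a' b' → R (a + a') (b + b')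
  sub : ∀ {a a' b b'}, R a b → R a' b' → R (a - a') (b - b')
  mul : ∀ {a a' b b'}, R a b → R a' b' → R (a * a') (b * b')
  smul : ∀ (r : ℝ) {a b}, R a b → R (r • a) (r • b)
  d : ∀ i {a b}, R a b → R (dA i a) (dB i b)

namespace RelOK

variable {dA : Fin n → A → A} {dB : Fin n → B → B} {R : A → B → Prop} (h : RelOK dA dB R)

include h

lemma sum {ι : Type*} (s : Finset ι) {f : ι → A} {f' : ι → B} (hf : ∀ i ∈ s, R (f i) (f' i)) :
    R (∑ i ∈ s, f i) (∑ i ∈ s, f' i) := by
  classical
  induction s using Finset.induction_on with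
  | empty => simpa using h.zero
  | insert a s ha ih =>
    rw [Finset.sum_insert ha, Finset.sum_insert ha]
    exact h.add (hf a (Finset.mem_insert_self a s)) (ih fun i hi => hf i (Finset.mem_insert_of_mem hi))

lemma prod {ι : Type*} (s : Finset ι) {f : ι → A} {f' : ι → B} (hf : ∀ i ∈ s, R (f i) (f' i)) :
    R (∏ i ∈ s, f i) (∏ i ∈ s, f' i) := by
  classical
  induction s using Finset.induction_on with
  | empty => simpa using h.one
  | insert a s ha ih =>
    rw [Finset.prod_insert ha, Finset.prod_insert ha]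
    exact h.mul (hf a (Finset.mem_insert_self a s)) (ih fun i hi => hf i (Finset.mem_insert_of_mem hi))

variable {g gi : Fin n → Fin n → A} {g' gi' : Fin n → Fin n → B}
  (hg : ∀ a b, R (g a b) (g' a b)) (hgi : ∀ a b, R (gi a b) (gi' a b))

include hg hgi in
lemma chr (c a b : Fin n) : R (chr dA g gi c a b) (GJMS.chr dB g' gi' c a b) := by
  unfold GJMS.chr
  exact h.smul _ (h.sum _ fun e _ => h.mul (hgi _ _)
    (h.sub (h.add (h.d _ (hg _ _)) (h.d _ (hg _ _))) (h.d _ (hg _ _))))

lemma nab {Γ : Fin n → Fin n → Fin n → A} {Γ' : Fin n → Fin n → Fin n → B}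
    (hΓ : ∀ c a b, R (Γ c a b) (Γ' c a b)) {r : ℕ} {T : (Fin r → Fin n) → A}
    {T' : (Fin r → Fin n) → B} (hT : ∀ w, R (T w) (T' w)) (w : Fin (r + 1) → Fin n) :
    R (nab dA Γ T w) (GJMS.nab dB Γ' T' w) := by
  unfold GJMS.nab
  exact h.sub (h.d _ (hT _)) (h.sum _ fun s _ => h.sum _ fun c _ => h.mul (hΓ _ _ _) (hT _))

lemma ric {Γ : Fin n → Fin n → Fin n → A} {Γ' : Fin n → Fin n → Fin n → B}
    (hΓ : ∀ c a b, R (Γ c a b) (Γ' c a b)) (a b : Fin n) :
    R (ric dA Γ a b) (GJMS.ric dB Γ' a b) := by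
  unfold GJMS.ric
  exact h.add (h.sum _ fun c _ => h.sub (h.d _ (hΓ _ _ _)) (h.d _ (hΓ _ _ _)))
    (h.sum _ fun c _ => h.sum _ fun e _ => h.sub (h.mul (hΓ _ _ _) (hΓ _ _ _))
      (h.mul (hΓ _ _ _) (hΓ _ _ _)))

include hg hgi in
lemma scal : R (scal dA g gi) (GJMS.scal dB g' gi') := by
  unfold GJMS.scal
  exact h.sum _ fun a _ => h.sum _ fun b _ => h.mul (hgi _ _) (h.ric (h.chr hg hgi) _ _)

include hg hgi in
lemma sch (a b : Fin n) : R (sch dA g gi a b) (GJMS.sch dB g' gi' a b) := by
  unfold GJMS.sch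
  exact h.smul _ (h.sub (h.ric (h.chr hg hgi) _ _) (h.smul _ (h.mul (h.scal hg hgi) (hg _ _))))

include hg hgi in
lemma nabP (l : ℕ) (w : Fin (l + 2) → Fin n) : R (nabP dA g gi l w) (GJMS.nabP dB g' gi' l w) := by
  induction l with
  | zero => exact h.sch hg hgi _ _
  | succ l ih => exact h.nab (h.chr hg hgi) ih w

include hg hgi in
lemma nabF {f : A} {f' : B} (hf : R f f') (k : ℕ) (w : Fin k → Fin n) :
    R (nabF dA g gi f k w) (GJMS.nabF dB g' gi' f' k w) := by
  induction k with
  | zero => exact hf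
  | succ k ih => exact h.nab (h.chr hg hgi) ih w

include hg hgi in
lemma lap {f : A} {f' : B} (hf : R f f') : R (lap dA g gi f) (GJMS.lap dB g' gi' f') := by
  unfold GJMS.lap
  exact h.sum _ fun a _ => h.sum _ fun b _ => h.mul (hgi _ _) (h.nabF hg hgi hf _ _)

include hg hgi in
lemma eval (C : Contr) {f : A} {f' : B} (hf : R f f') :
    R (C.eval dA g gi f) (C.eval dB g' gi' f') := by
  unfold Contr.eval
  exact h.sum _ fun w _ => h.mul (h.prod _ fun q _ => hgi _ _)
    (h.mul (h.prod _ fun j _ => h.nabP hg hgi _ _) (h.nabF hg hgi hf _ _))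

include hg hgi in
lemma opEval (L : List (ℝ × Contr)) {f : A} {f' : B} (hf : R f f') :
    R (opEval L dA g gi f) (GJMS.opEval L dB g' gi' f') := by
  unfold GJMS.opEval
  induction L with
  | nil => simpa using h.zero
  | cons x L ih =>
    rw [List.map_cons, List.map_cons, List.sum_cons, List.sum_cons]
    exact h.add (h.smul _ (h.eval hg hgi _ hf)) ih

end RelOK

/-- functoriality under homomorphisms commuting with the maps `d i` -/
lemma relOK_hom (dA : Fin n → A → A) (dB : Fin n → B → B) (φ : A →ₐ[ℝ] B)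
    (hφ : ∀ i a, φ (dA i a) = dB i (φ a)) : RelOK dA dB (fun a b => φ a = b) where
  zero := map_zero φ
  one := map_one φ
  add := by rintro a a' b b' rfl rfl; exact map_add φ _ _
  sub := by rintro a a' b b' rfl rfl; exact map_sub φ _ _
  mul := by rintro a a' b b' rfl rfl; exact map_mul φ _ _
  smul := by rintro r a b rfl; exact map_smul φ _ _
  d := by rintro i a b rfl; exact hφ i a

lemma opEval_hom (dA : Fin n → A → A) (dB : Fin n → B → B) (φ : A →ₐ[ℝ] B)
    (hφ : ∀ i a, φ (dA i a) = dB i (φ a)) (L : List (ℝ × Contr)) (g gi : Fin n → Fin n → A) (f : A) :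
    φ (opEval L dA g gi f) = opEval L dB (fun a b => φ (g a b)) (fun a b => φ (gi a b)) (φ f) :=
  (relOK_hom dA dB φ hφ).opEval (g := g) (gi := gi) (g' := fun a b => φ (g a b))
    (gi' := fun a b => φ (gi a b)) (fun _ _ => rfl) (fun _ _ => rfl) L rfl

end

end GJMS
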