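import Pool.Agent.GJMS.Conf
import Pool.Agent.GJMS.Rel

/-! # Constant conformal rescalings -/

open Finset MvPolynomial Set
open scoped ContDiff

set_option linter.unusedSectionVars false

namespace GJMS

noncomputable section

variable {n : ℕ} {A : Type*} [CommRing A] [Algebra ℝ A] (d : Fin n → A → A)
  (hd : ∀ i (r : ℝ) x, d i (r • x) = r • d i x) (r : ℝ) (hr : r ≠ 0)
  (g gi : Fin n → Fin n → A)

include hd hr

lemma chr_scale : chr d (fun a b => r • g a b) (fun a b => r⁻¹ • gi a b) = chr d g gi := by
  funext c a b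
  unfold chr
  congr 1
  refine Finset.sum_congr rfl fun e _ => ?_
  rw [hd, hd, hd, ← smul_add, ← smul_sub, smul_mul_smul_comm, inv_mul_cancel₀ hr, one_smul]

lemma scal_scale : scal d (fun a b => r • g a b) (fun a b => r⁻¹ • gi a b) = r⁻¹ • scal d g gi := by
  unfold scal
  rw [chr_scale d hd r hr, Finset.smul_sum]
  refine Finset.sum_congr rfl fun a _ => ?_
  rw [Finset.smul_sum]
  exact Finset.sum_congr rfl fun b _ => by rw [smul_mul_assoc]

lemma sch_scale : sch d (fun a b => r • g a b) (fun a b => r⁻¹ • gi a b) = sch d g gi := by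
  funext a b
  unfold sch
  rw [chr_scale d hd r hr, scal_scale d hd r hr, smul_mul_smul_comm, inv_mul_cancel₀ hr, one_smul]

lemma nabP_scale (l : ℕ) :
    nabP d (fun a b => r • g a b) (fun a b => r⁻¹ • gi a b) l = nabP d g gi l := by
  induction l with
  | zero =>
    funext w
    show sch d _ _ _ _ = _
    rw [sch_scale d hd r hr]
    rfl
  | succ l ih =>
    show nab d (chr d _ _) (nabP d _ _ l) = _
    rw [chr_scale d hd r hr, ih]
    rfl

lemma nabF_scale (f : A) (k : ℕ) :
    nabF d (fun a b => r • g a b) (fun a b => r⁻¹ • gi a b) f k = nabF d g gi f k := by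
  induction k with
  | zero => rfl
  | succ k ih =>
    show nab d (chr d _ _) (nabF d _ _ f k) = _
    rw [chr_scale d hd r hr, ih]
    rfl

lemma eval_scale (C : Contr) (f : A) :
    C.eval d (fun a b => r • g a b) (fun a b => r⁻¹ • gi a b) f = (r⁻¹) ^ C.p • C.eval d g gi f := by
  unfold Contr.eval
  rw [Finset.smul_sum]
  refine Finset.sum_congr rfl fun w _ => ?_
  rw [nabF_scale d hd r hr]
  simp_rw [nabP_scale d hd r hr]
  rw [← smul_mul_assoc]
  congr 1
  have : ∀ (s : Finset (Fin C.p)), (∏ q ∈ s, r⁻¹ • gi (w (C.e (q, false))) (w (C.e (q, true))))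
      = (r⁻¹) ^ s.card • ∏ q ∈ s, gi (w (C.e (q, false))) (w (C.e (q, true))) := by
    intro s
    induction s using Finset.induction_on with
    | empty => simp
    | insert a s ha ih =>
      rw [Finset.prod_insert ha, Finset.prod_insert ha, ih, Finset.card_insert_of_notMem ha, pow_succ,
        smul_mul_smul_comm, mul_comm (r⁻¹ ^ s.card)]
  rw [this univ, Finset.card_univ, Fintype.card_fin]

lemma lap_scale (f : A) :
    lap d (fun a b => r • g a b) (fun a b => r⁻¹ • gi a b) f = r⁻¹ • lap d g gi f := by
  unfold lap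
  rw [nabF_scale d hd r hr, Finset.smul_sum]
  refine Finset.sum_congr rfl fun a _ => ?_
  rw [Finset.smul_sum]
  exact Finset.sum_congr rfl fun b _ => by rw [smul_mul_assoc]

omit hr in
lemma nab_smul (Γ : Fin n → Fin n → Fin n → A) (c : ℝ) {k : ℕ} (T : (Fin k → Fin n) → A) :
    nab d Γ (fun w => c • T w) = fun w => c • nab d Γ T w := by
  funext w
  unfold nab
  rw [hd, smul_sub, Finset.smul_sum]
  congr 1
  refine Finset.sum_congr rfl fun s _ => ?_
  rw [Finset.smul_sum]
  exact Finset.sum_congr rfl fun e _ => by rw [mul_smul_comm]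

omit hr in
lemma nabF_smul (c : ℝ) (f : A) (k : ℕ) :
    nabF d g gi (c • f) k = fun w => c • nabF d g gi f k w := by
  induction k with
  | zero => rfl
  | succ k ih =>
    show nab d (chr d g gi) (nabF d g gi (c • f) k) = _
    rw [ih, nab_smul d hd]
    rfl

omit hr in
lemma lap_smul (c : ℝ) (f : A) : lap d g gi (c • f) = c • lap d g gi f := by
  unfold lap
  rw [nabF_smul d hd, Finset.smul_sum]
  refine Finset.sum_congr rfl fun a _ => ?_
  rw [Finset.smul_sum]
  exact Finset.sum_congr rfl fun b _ => by rw [mul_smul_comm]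

lemma lapPow_scale (m : ℕ) (f : A) :
    (lap d (fun a b => r • g a b) (fun a b => r⁻¹ • gi a b))^[m] f
      = (r⁻¹) ^ m • (lap d g gi)^[m] f := by
  induction m with
  | zero => simp
  | succ m ih =>
    rw [Function.iterate_succ_apply', Function.iterate_succ_apply', ih, lap_scale d hd r hr,
      lap_smul d hd, smul_smul, pow_succ, mul_comm]

lemma opEval_scale (L : List (ℝ × Contr)) (f : A) :
    opEval L d (fun a b => r • g a b) (fun a b => r⁻¹ • gi a b) f
      = (L.map (fun x => (r⁻¹) ^ x.2.p • (x.1 • x.2.eval d g gi f))).sum := by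
  unfold opEval
  congr 1
  refine List.map_congr_left fun x _ => ?_
  rw [eval_scale d hd r hr, smul_comm]

omit hd hr

/-- if `Σ_j c_j (μ^{p_j} - μ^m) = 0` for all `μ > 0` then `Σ_{p_j ≠ m} c_j = 0` -/
lemma split_powers (m : ℕ) (l : List (ℕ × ℝ))
    (h : ∀ μ : ℝ, 0 < μ → (l.map (fun x => μ ^ x.1 * x.2)).sum = μ ^ m * (l.map (fun x => x.2)).sum) :
    ((l.filter (fun x => x.1 ≠ m)).map (fun x => x.2)).sum = 0 := by
  set P : Polynomial ℝ := (l.map (fun x => Polynomial.monomial x.1 x.2)).sum
    - Polynomial.monomial m (l.map (fun x => x.2)).sum with hP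
  have h1 : ∀ μ : ℝ, P.eval μ = (l.map (fun x => μ ^ x.1 * x.2)).sum
      - μ ^ m * (l.map (fun x => x.2)).sum := by
    intro μ
    rw [hP, Polynomial.eval_sub, Polynomial.eval_monomial, mul_comm (μ ^ m)]
    congr 1
    clear h hP P
    induction l with
    | nil => simp
    | cons x l ih =>
      rw [List.map_cons, List.map_cons, List.sum_cons, List.sum_cons, Polynomial.eval_add, ih,
        Polynomial.eval_monomial, mul_comm]
  have h2 : P = 0 := by
    apply Polynomial.eq_zero_of_infinite_isRoot
    refine Set.Infinite.mono ?_ (Set.Ioi_infinite (0 : ℝ))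
    intro μ hμ
    show P.IsRoot μ
    rw [Polynomial.IsRoot.def, h1, h μ hμ, sub_self]
  have h3 := congrArg (Polynomial.coeff · m) h2
  simp only [hP, Polynomial.coeff_sub, Polynomial.coeff_monomial, if_true, Polynomial.coeff_zero] at h3
  have h4 : ((l.map (fun x => Polynomial.monomial x.1 x.2)).sum : Polynomial ℝ).coeff m
      + ((l.filter (fun x => x.1 ≠ m)).map (fun x => x.2)).sum = (l.map (fun x => x.2)).sum := by
    clear h h1 h2 h3 hP P
    induction l with
    | nil => simp
    | cons x l ih =>
      rw [List.map_cons, List.map_cons, List.sum_cons, List.sum_cons, Polynomial.coeff_add,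
        Polynomial.coeff_monomial]
      by_cases hx : x.1 = m
      · rw [if_pos hx, List.filter_cons_of_neg (by simpa using hx), ← ih]; ring
      · rw [if_neg hx, List.filter_cons_of_pos (by simpa using hx), List.map_cons, List.sum_cons, ← ih]
        ring
  linarith

end

end GJMS
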