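import Pool.Agent.GJMS.Main
import Pool.Agent.GJMS.Scale
import Pool.Agent.GJMS.PnRel
import Pool.Agent.GJMS.PnLin
import Pool.Agent.GJMS.PnCov
import Pool.Agent.GJMS.PnGram

/-! # Assembly: the operator `D - P_n` -/

open Finset MvPolynomial Set
open scoped ContDiff

namespace GJMS

noncomputable section

variable {n : ℕ}

/-- `DD` as a family -/
def DDfam (n : ℕ) (L : List (ℝ × Contr)) : NatFam n where
  ev _ := fun d g gi f => DD n L d g gi f
  rel := fun h _ _ _ _ _ _ hg hgi hf =>
    h.add (lapPow_rel h hg hgi (n / 2) hf) (h.opEval hg hgi L hf)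

/-- `opEval` as a family -/
def OEfam (n : ℕ) (L : List (ℝ × Contr)) : NatFam n where
  ev _ := fun d g gi f => opEval L d g gi f
  rel := fun h _ _ _ _ _ _ hg hgi hf => h.opEval hg hgi L hf

lemma nab_zeroT {A : Type} [CommRing A] [Algebra ℝ A] (D : Fin n → Derivation ℝ A A)
    (Γ : Fin n → Fin n → Fin n → A) (r : ℕ) :
    nab (fun i => D i) Γ (fun _ : Fin r → Fin n => (0 : A)) = fun _ => 0 := by
  funext w
  unfold nab
  simp

lemma nabP_ricflat {A : Type} [CommRing A] [Algebra ℝ A] (D : Fin n → Derivation ℝ A A)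
    (g gi : Fin n → Fin n → A)
    (hric : ∀ a b, ric (fun i => D i) (chr (fun i => D i) g gi) a b = 0) (l : ℕ) :
    nabP (fun i => D i) g gi l = fun _ => 0 := by
  induction l with
  | zero =>
    funext w
    show sch (fun i => D i) g gi (w 0) (w 1) = 0
    unfold sch scal
    simp [hric]
  | succ l ih =>
    show nab _ _ (nabP _ _ _ l) = _
    rw [ih, nab_zeroT]

lemma eval_ricflat {A : Type} [CommRing A] [Algebra ℝ A] (D : Fin n → Derivation ℝ A A)
    (g gi : Fin n → Fin n → A)
    (hric : ∀ a b, ric (fun i => D i) (chr (fun i => D i) g gi) a b = 0) (C : Contr) (hC : 0 < C.m)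
    (f : A) : C.eval (fun i => D i) g gi f = 0 := by
  unfold Contr.eval
  refine Finset.sum_eq_zero fun w _ => ?_
  rw [Finset.prod_eq_zero (Finset.mem_univ (⟨0, hC⟩ : Fin C.m)) (by rw [nabP_ricflat D g gi hric]),
    zero_mul, mul_zero]

lemma opEval_ricflat {A : Type} [CommRing A] [Algebra ℝ A] (D : Fin n → Derivation ℝ A A)
    (g gi : Fin n → Fin n → A)
    (hric : ∀ a b, ric (fun i => D i) (chr (fun i => D i) g gi) a b = 0) (L : List (ℝ × Contr))
    (hL : ∀ x ∈ L, 0 < x.2.m) (f : A) : opEval L (fun i => D i) g gi f = 0 := by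
  unfold opEval
  apply List.sum_eq_zero
  intro y hy
  obtain ⟨x, hx, rfl⟩ := List.mem_map.1 hy
  rw [eval_ricflat D g gi hric x.2 (hL x hx), smul_zero]

/-- the operator `D - P_n` -/
def Eop (n : ℕ) (L : List (ℝ × Contr)) (hL : ∀ x ∈ L, 0 < x.2.m) : NatOp n where
  ev A _ _ := fun d g gi f => DD n L d g gi f - Pn n A d g gi f
  rel := fun h _ _ _ _ _ _ hg hgi hf =>
    h.sub (h.add (lapPow_rel h hg hgi (n / 2) hf) (h.opEval hg hgi L hf)) (Pn_rel h hg hgi hf)
  cov := by
    intro A _ _ D hD N hN hDN X hX g gi hg hgi f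
    have h1 := lapPow_cov D hD N hN hDN X hX g gi hg hgi (n / 2) f
    have h2 := opEval_cov D hD N hN hDN X hX g gi hg hgi L f
    have h3 := Pn_cov D hD N hN hDN X hX g gi hg hgi f
    unfold DD
    rw [h1, h2, h3, map_sub, map_add]
    ring
  lin := by
    intro A _ _ D g gi f t ht
    unfold DD
    rw [lapPow_lin D g gi t ht, opEval_lin L D g gi f t ht, Pn_lin D g gi f t ht]
    ring
  van := by
    intro A _ _ D _ g gi _ _ f hric
    unfold DD
    rw [Pn_flat D g gi hric, opEval_ricflat D g gi hric L hL]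
    ring
  gram := by
    intro A _ _ D S g gi f hg hgi hf
    exact S.G.sub_mem (S.G.add_mem (lapPow_gram D S g gi f (n / 2) hg hgi hf)
      (opEval_gram L D S g gi f hg hgi hf)) (Pn_gram D S g gi f hg hgi hf)

/-! ### smooth metrics -/

lemma pd_smul (i : Fin n) (r : ℝ) (F : Raw n) : pd i (r • F) = r • pd i F := by
  funext x
  unfold pd
  have h : fderiv ℝ (r • F) = r • fderiv ℝ F := fderiv_const_smul_field (𝕜 := ℝ) (f := F) r
  rw [h]
  rfl

/-- a family which vanishes on smooth positive definite metrics is zero -/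
lemma NatFam.p_zero_of_smooth (E : NatFam n)
    (h : ∀ (g gi : Fin n → Fin n → Raw n) (f : Raw n), (∀ a b, Sm (g a b)) → Sm f →
      (∀ a b, g a b = g b a) →
      (∀ x, ∀ y : Fin n → ℝ, y ≠ 0 → 0 < ∑ a, ∑ b, g a b x * (y a * y b)) →
      (∀ x a b, ∑ c, gi a c x * g b c x = if a = b then 1 else 0) → ∀ x,
      E.ev (Raw n) pd g gi f x = 0) : E.p = 0 := by
  have key : jetHom (fun i => jd i) (fld gV fV) E.p = (0 : JR (Option (Fld n)) n) := by
    apply zariski
    intro g f u hg hf hu hsymm hpos _
    have hφ : ∀ o, Sm (fldv g f u o) := by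
      intro o
      rcases o with _ | o
      · exact hu
      · rcases o with _ | s
        · exact hf
        · exact hg _ _
    choose Mi hMi using fun x => exists_inv (fun a b => g a b x) (fun a b => by rw [hsymm]) (hpos x)
    have h0 := (E.raw_p (U := Set.univ) isOpen_univ g (fun a b x => Mi x a b) f
      (fun a b => contDiffOn_univ.2 (hg a b))
      (contDiffOn_univ.2 hf) hsymm (fun x _ => hMi x) (mem_univ (0 : Fin n → ℝ)))
    rw [h g (fun a b x => Mi x a b) f hg hf hsymm hpos hMi 0, mul_zero] at h0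
    rw [eval_jetHom _ hφ]
    have h3 : (fun o => jetHom pd (fldv g f u) (fld gV (fV (n := n)) o)) = fld g f := by
      funext o
      rcases o with _ | s
      · rw [fld_none, fld_none]
        unfold fV
        rw [jetHom_X, mD_zero]
        rfl
      · induction s using Sym2.ind with
        | _ a b =>
          rw [fld_some gV (fun a b => by unfold gV; rw [Sym2.eq_swap]), fld_some g hsymm]
          unfold gV
          rw [jetHom_X, mD_zero]
          show fld g f (some s(a, b)) = _
          rw [fld_some g hsymm]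
    rw [h3, ← h0]
  -- `jetHom` with generic fields is injective
  have hinj : ∀ P : JR (Fld n) n, jetHom (fun i => jd i) (fld gV fV) P
      = rename (Prod.map some id) P := by
    intro P
    induction P using MvPolynomial.induction_on with
    | C r => rw [← MvPolynomial.algebraMap_eq, AlgHom.commutes, AlgHom.commutes]
    | add p q hp hq => rw [map_add, map_add, hp, hq]
    | mul_X p v hp =>
      rw [map_mul, map_mul, hp, jetHom_X, rename_X]
      congr 1
      obtain ⟨o, s⟩ := v
      have h5 : (fld gV (fV (n := n)) o : JR (Option (Fld n)) n) = X (some o, 0) := by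
        rcases o with _ | t
        · rfl
        · induction t using Sym2.ind with
          | _ a b =>
            rw [fld_some gV (fun a b => by unfold gV; rw [Sym2.eq_swap])]
            rfl
      show mD _ s (fld gV fV o) = X (some o, s)
      rw [h5]
      unfold mD
      rw [foldr_jd, Multiset.coe_toList]
  rw [hinj] at key
  exact (rename_injective _ (Function.Injective.prodMap (Option.some_injective _)
    Function.injective_id)) (by rw [key, map_zero])

lemma list_sum_apply {ι : Type} (l : List ι) (F : ι → Raw n) (x : Fin n → ℝ) :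
    (l.map F).sum x = (l.map fun i => F i x).sum := by
  induction l with
  | nil => rfl
  | cons i l ih => rw [List.map_cons, List.sum_cons, Pi.add_apply, ih, List.map_cons, List.sum_cons]

/-- the contractions of wrong homogeneity add up to zero -/
lemma opEval_wrong (hn : Even n) (L : List (ℝ × Contr)) (hconf : ConfSm (DDfam n L))
    (g gi : Fin n → Fin n → Raw n) (f : Raw n) (hg : ∀ a b, Sm (g a b)) (hf : Sm f)
    (hsymm : ∀ a b, g a b = g b a)
    (hpos : ∀ x, ∀ y : Fin n → ℝ, y ≠ 0 → 0 < ∑ a, ∑ b, g a b x * (y a * y b))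
    (hgi : ∀ x a b, ∑ c, gi a c x * g b c x = if a = b then 1 else 0) (x : Fin n → ℝ) :
    opEval (L.filter fun y => decide (y.2.p ≠ n / 2)) pd g gi f x = 0 := by
  have h1 := split_powers (n / 2) (L.map fun y => (y.2.p, (y.1 • y.2.eval pd g gi f) x)) ?_
  · rw [← h1]
    unfold opEval
    rw [list_sum_apply, List.filter_map, List.map_map]
    rfl
  · intro μ hμ
    have hr : μ⁻¹ ≠ 0 := inv_ne_zero hμ.ne'
    have h2 := hconf g gi f (fun _ => Real.log μ⁻¹ / 2) hg hf contDiff_const hsymm hpos hgi x
    have e1 : (fun a b => (fun _ : Fin n → ℝ => Real.exp (2 * (Real.log μ⁻¹ / 2))) * g a b)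
        = fun a b => μ⁻¹ • g a b := by
      funext a b x
      rw [Pi.mul_apply, mul_div_cancel₀ _ (two_ne_zero), Real.exp_log (inv_pos.2 hμ)]
      rfl
    have e2 : (fun a b => (fun _ : Fin n → ℝ => Real.exp (-(2 * (Real.log μ⁻¹ / 2)))) * gi a b)
        = fun a b => (μ⁻¹)⁻¹ • gi a b := by
      funext a b x
      rw [Pi.mul_apply, mul_div_cancel₀ _ (two_ne_zero), Real.exp_neg, Real.exp_log (inv_pos.2 hμ)]
      rfl
    have e3 : Real.exp (-((n : ℝ) * (Real.log μ⁻¹ / 2))) = μ ^ (n / 2) := by
      obtain ⟨m, rfl⟩ := hn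
      have : -(((m + m : ℕ) : ℝ) * (Real.log μ⁻¹ / 2)) = Real.log (μ ^ m) := by
        rw [Real.log_inv, Real.log_pow]
        push_cast
        ring
      rw [this, Real.exp_log (pow_pos hμ m)]
      congr 1
      omega
    rw [e1, e2, e3] at h2
    have h3 : DD n L pd (fun a b => μ⁻¹ • g a b) (fun a b => (μ⁻¹)⁻¹ • gi a b) f x
        = μ ^ (n / 2) * DD n L pd g gi f x := h2
    unfold DD at h3
    rw [lapPow_scale pd pd_smul μ⁻¹ hr, opEval_scale pd pd_smul μ⁻¹ hr, Pi.add_apply, Pi.add_apply,
      list_sum_apply, inv_inv] at h3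
    have h4 : (μ ^ (n / 2) • (lap pd g gi)^[n / 2] f) x = μ ^ (n / 2) * (lap pd g gi)^[n / 2] f x := rfl
    rw [h4, mul_add] at h3
    have h5 := add_left_cancel h3
    unfold opEval at h5
    rw [list_sum_apply] at h5
    rw [List.map_map, List.map_map]
    exact h5

lemma opEval_split (L : List (ℝ × Contr)) (p : ℝ × Contr → Bool) {A : Type*} [CommRing A] [Algebra ℝ A]
    (d : Fin n → A → A) (g gi : Fin n → Fin n → A) (f : A) :
    opEval L d g gi f = opEval (L.filter p) d g gi f + opEval (L.filter fun y => !p y) d g gi f := by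
  unfold opEval
  induction L with
  | nil => simp
  | cons x L ih =>
    rw [List.map_cons, List.sum_cons, ih]
    by_cases hx : p x
    · rw [List.filter_cons_of_pos hx, List.filter_cons_of_neg (by simpa using hx), List.map_cons,
        List.sum_cons]
      ring
    · rw [List.filter_cons_of_neg hx, List.filter_cons_of_pos (by simpa using hx), List.map_cons,
        List.sum_cons]
      ring

/-- `P_n` as a family -/
def Pnfam (n : ℕ) : NatFam n where
  ev A _ _ := fun d g gi f => Pn n A d g gi f
  rel := fun h _ _ _ _ _ _ hg hgi hf => Pn_rel h hg hgi hf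

lemma contr_m_pos (C : Contr) (hk : C.k < n) (hp : C.p = n / 2) (hn : Even n) : 0 < C.m := by
  by_contra h
  have hm : C.m = 0 := by omega
  have h1 := Fintype.card_congr C.e
  rw [Fintype.card_sum, Fintype.card_prod, Fintype.card_bool, Fintype.card_fin, Fintype.card_fin] at h1
  have h2 : Fintype.card ((j : Fin C.m) × Fin (C.l j + 2)) = 0 := by
    rw [Fintype.card_eq_zero_iff]
    exact ⟨fun x => by have := x.1.2; omega⟩
  obtain ⟨m, rfl⟩ := hn
  omega

/-- **The uniqueness theorem**, for all smooth metrics on open sets. -/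
theorem final_Pn (hn : Even n) (h4 : 4 ≤ n) (hP : ConfInf (Pnfam n)) (L : List (ℝ × Contr))
    (hL : ∀ x ∈ L, x.2.k < n) (hconf : ConfSm (DDfam n L)) {U : Set (Fin n → ℝ)} (hU : IsOpen U)
    (g gi : Fin n → Fin n → Raw n) (f : Raw n)
    (hg : ∀ a b, ContDiffOn ℝ ∞ (g a b) U) (hf : ContDiffOn ℝ ∞ f U)
    (hsymm : ∀ a b, g a b = g b a)
    (hgi : ∀ x ∈ U, ∀ a b, ∑ c, gi a c x * g b c x = if a = b then 1 else 0)
    {x : Fin n → ℝ} (hx : x ∈ U) :
    DD n L pd g gi f x = Pn n (Raw n) pd g gi f x := by
  set p : ℝ × Contr → Bool := fun y => decide (y.2.p ≠ n / 2) with hp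
  set L1 := L.filter p with hL1
  set L2 := L.filter fun y => !p y with hL2
  have hL2m : ∀ y ∈ L2, 0 < y.2.m := by
    intro y hy
    have h1 := List.mem_filter.1 hy
    refine contr_m_pos y.2 (hL y h1.1) ?_ hn
    have h2 := h1.2
    simp only [hp, ne_eq, decide_not, Bool.not_not, decide_eq_true_eq] at h2
    exact h2
  -- the contractions of wrong homogeneity
  have h1 : (OEfam n L1).p = 0 :=
    (OEfam n L1).p_zero_of_smooth fun g gi f hg hf hsymm hpos hgi x =>
      opEval_wrong hn L hconf g gi f hg hf hsymm hpos hgi x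
  -- the rest is conformally invariant
  have h2 : ConfSm (DDfam n L2) := by
    intro g gi f w hg hf hw hsymm hpos hgi x
    have e1 := hconf g gi f w hg hf hw hsymm hpos hgi x
    have e2 := opEval_wrong hn L hconf g gi f hg hf hsymm hpos hgi x
    have hexp : ∀ x, 0 < Real.exp (2 * w x) := fun x => Real.exp_pos _
    have e3 := opEval_wrong hn L hconf (fun a b => (fun x => Real.exp (2 * w x)) * g a b)
      (fun a b => (fun x => Real.exp (-(2 * w x))) * gi a b) f
      (fun a b => (Real.contDiff_exp.comp (contDiff_const.mul hw)).mul (hg a b)) hf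
      (fun a b => by rw [hsymm]) (fun x y hy => by
        have := mul_pos (hexp x) (hpos x y hy)
        rw [Finset.mul_sum] at this
        refine lt_of_lt_of_eq this (Finset.sum_congr rfl fun a _ => ?_)
        rw [Finset.mul_sum]
        refine Finset.sum_congr rfl fun b _ => ?_
        rw [Pi.mul_apply]; ring) (fun x a b => by
        rw [← hgi x a b]
        refine Finset.sum_congr rfl fun c _ => ?_
        simp only [Pi.mul_apply]
        have : Real.exp (-(2 * w x)) * Real.exp (2 * w x) = 1 := by
          rw [← Real.exp_add]; simp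
        calc _ = (Real.exp (-(2 * w x)) * Real.exp (2 * w x)) * (gi a c x * g b c x) := by ring
          _ = _ := by rw [this, one_mul]) x
    have e4 : ∀ (g gi : Fin n → Fin n → Raw n), opEval L1 pd g gi f x = 0 →
        DD n L2 pd g gi f x = DD n L pd g gi f x := by
      intro g gi h0
      unfold DD
      rw [opEval_split L p pd g gi f, Pi.add_apply, Pi.add_apply, Pi.add_apply, h0, zero_add]
    show DD n L2 pd _ _ f x = _ * DD n L2 pd g gi f x
    rw [e4 _ _ e2, e4 _ _ e3]
    exact e1
  have h3 : ConfInf (Eop n L2 hL2m).toNatFam := by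
    intro A _ _ D hD N hN hDN σ hσ g gi hg hgi f
    have a1 := confInf_of_confSm (DDfam n L2) h2 D hD N hN hDN σ hσ g gi hg hgi f
    have a2 := hP D hD N hN hDN σ hσ g gi hg hgi f
    show DD n L2 _ _ _ f - Pn n A _ _ _ f = _ * (DD n L2 _ _ _ f - Pn n A _ _ _ f)
    rw [mul_sub]
    exact congrArg₂ (fun x y => x - y) a1 a2
  have h4' := main (by omega : 2 ≤ n) (Eop n L2 hL2m) h3
  have hdet : Matrix.det (Matrix.of (fun a b => g a b x)) ≠ 0 := by
    intro h0
    have := (adj_eq (fun a b => g a b x) (fun a b => gi a b x) (fun a b => by rw [hsymm])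
      (hgi x hx)).1
    rw [h0, zero_mul] at this
    exact zero_ne_one this
  have h5 := (Eop n L2 hL2m).toNatFam.raw_p hU g gi f hg hf hsymm hgi hx
  rw [h4', map_zero] at h5
  have h6 : DD n L2 pd g gi f x - Pn n (Raw n) pd g gi f x = 0 :=
    (mul_eq_zero.1 h5).resolve_left (pow_ne_zero _ hdet)
  have h7 := (OEfam n L1).raw_p hU g gi f hg hf hsymm hgi hx
  rw [h1, map_zero] at h7
  have h8 : opEval L1 pd g gi f x = 0 := (mul_eq_zero.1 h7).resolve_left (pow_ne_zero _ hdet)
  have h9 : DD n L pd g gi f x = DD n L2 pd g gi f x := by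
    unfold DD
    rw [opEval_split L p pd g gi f, Pi.add_apply, Pi.add_apply, Pi.add_apply, h8, zero_add]
  rw [h9]
  exact sub_eq_zero.1 h6

end

end GJMS
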