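import Pool.Agent.GJMS.Final
import Pool.Agent.GJMS.PnConf
import Pool.Agent.GJMS.AmbDefs

/-! # The uniqueness theorem for metrics given on open sets -/

open Finset MvPolynomial Set
open scoped ContDiff

namespace GJMS

noncomputable section

variable {n : ℕ}

lemma Pnfam_confInf (hn : Even n) (h4 : 4 ≤ n) : ConfInf (Pnfam n) := by
  intro A _ _ D hD N hN hDN σ hσ g gi hg hgi f
  exact Pn_confInf hn h4 D hD N hN hDN σ hσ g gi hg hgi f

lemma inv_uniq_real (M Mi : Fin n → Fin n → ℝ) (hM : ∀ a b, M a b = M b a)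
    (h : ∀ a b, ∑ c, Mi a c * M b c = if a = b then 1 else 0) (a b : Fin n) :
    Mi a b = (Matrix.of M)⁻¹ a b := by
  have h1 : Matrix.of Mi * Matrix.of M = 1 := by
    ext a b
    rw [Matrix.mul_apply, Matrix.one_apply, ← h a b]
    exact Finset.sum_congr rfl fun c _ => by rw [Matrix.of_apply, Matrix.of_apply, hM c b]
  rw [Matrix.inv_eq_left_inv h1]
  rfl

lemma confSm_of_confInvt (L : List (ℝ × Contr)) (h : ConfInvt n L) : ConfSm (DDfam n L) := by
  intro g gi f w hg hf hw hsymm hpos hgi x
  have hR : IsRiem g := ⟨hg, fun i j x => by rw [hsymm], hpos⟩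
  have e1 : minv g = gi := by
    funext a b y
    exact (inv_uniq_real (fun a b => g a b y) (fun a b => gi a b y) (fun a b => by rw [hsymm])
      (hgi y) a b).symm
  have e2 : minv (cmet w g)
      = fun a b => (fun x => Real.exp (-(2 * w x))) * gi a b := by
    funext a b y
    refine (inv_uniq_real (fun a b => Real.exp (2 * w y) * g a b y)
      (fun a b => Real.exp (-(2 * w y)) * gi a b y) (fun a b => by rw [hsymm]) ?_ a b).symm
    intro a b
    rw [← hgi y a b]
    refine Finset.sum_congr rfl fun c _ => ?_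
    have : Real.exp (-(2 * w y)) * Real.exp (2 * w y) = 1 := by
      rw [← Real.exp_add]; simp
    calc _ = (Real.exp (-(2 * w y)) * Real.exp (2 * w y)) * (gi a c y * g b c y) := by ring
      _ = _ := by rw [this, one_mul]
  have h1 := h g f w hR hf hw x
  rw [e1, e2] at h1
  exact h1

lemma minv_inv {U : Set (Fin n → ℝ)} {g : Fin n → Fin n → Raw n} (hg : IsMet U g) (x : Fin n → ℝ)
    (hx : x ∈ U) (a b : Fin n) : ∑ c, minv g a c x * g b c x = if a = b then 1 else 0 := by
  have h1 : (Matrix.of fun i j => g i j x)⁻¹ * (Matrix.of fun i j => g i j x) = 1 :=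
    Matrix.nonsing_inv_mul _ (isUnit_iff_ne_zero.2 (hg.nondeg x hx))
  have h2 := congrFun (congrFun h1 a) b
  rw [Matrix.mul_apply, Matrix.one_apply] at h2
  rw [← h2]
  exact Finset.sum_congr rfl fun c _ => by rw [Matrix.of_apply, hg.symm x hx b c]; rfl

/-- equality on an open set -/
lemma relOK_eqOn {U : Set (Fin n → ℝ)} (hU : IsOpen U) :
    RelOK (pd (N := n)) pd (fun F G : Raw n => EqOn F G U) where
  zero := fun _ _ => rfl
  one := fun _ _ => rfl
  add := fun h1 h2 x hx => by rw [Pi.add_apply, Pi.add_apply, h1 hx, h2 hx]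
  sub := fun h1 h2 x hx => by rw [Pi.sub_apply, Pi.sub_apply, h1 hx, h2 hx]
  mul := fun h1 h2 x hx => by rw [Pi.mul_apply, Pi.mul_apply, h1 hx, h2 hx]
  smul := fun r _ _ h x hx => by rw [Pi.smul_apply, Pi.smul_apply, h hx]
  d := fun i _ _ h x hx => pd_congr hU i h hx

/-- **The uniqueness theorem** -/
theorem final_met (hn : Even n) (h4 : 4 ≤ n) (L : List (ℝ × Contr)) (hL : ∀ x ∈ L, x.2.k < n)
    (hconf : ConfInvt n L) {U : Set (Fin n → ℝ)} {g : Fin n → Fin n → Raw n} (hg : IsMet U g)
    {f : Raw n} (hf : ContDiffOn ℝ ∞ f U) {x : Fin n → ℝ} (hx : x ∈ U) :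
    DD n L pd g (minv g) f x = Pn n (Raw n) pd g (minv g) f x := by
  -- symmetrise outside of `U`
  set g' : Fin n → Fin n → Raw n := fun a b => if a ≤ b then g a b else g b a with hg'
  have hs : ∀ a b, g' a b = g' b a := by
    intro a b
    simp only [hg']
    rcases lt_trichotomy a b with h | h | h
    · rw [if_pos h.le, if_neg (not_le.2 h)]
    · rw [h]
    · rw [if_neg (not_le.2 h), if_pos h.le]
  have he : ∀ a b, EqOn (g a b) (g' a b) U := by
    intro a b y hy
    simp only [hg']
    split_ifs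
    · rfl
    · exact hg.symm y hy a b
  have hr := relOK_eqOn hg.open_U
  have h1 := final_Pn hn h4 (Pnfam_confInf hn h4) L hL (confSm_of_confInvt L hconf) hg.open_U g'
    (minv g) f (fun a b => (hg.smooth a b).congr fun y hy => (he a b hy).symm) hf hs
    (fun y hy a b => by
      rw [← minv_inv hg y hy a b]
      exact Finset.sum_congr rfl fun c _ => by rw [he b c hy]) hx
  have h2 := hr.add (lapPow_rel hr he (fun a b y _ => rfl : ∀ a b, EqOn (minv g a b) (minv g a b) U)
    (n / 2) (fun y _ => rfl : EqOn f f U)) (hr.opEval he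
    (fun a b y _ => rfl : ∀ a b, EqOn (minv g a b) (minv g a b) U) L (fun y _ => rfl : EqOn f f U)) hx
  have h3 := Pn_rel hr he (fun a b y _ => rfl : ∀ a b, EqOn (minv g a b) (minv g a b) U)
    (fun y _ => rfl : EqOn f f U) hx
  rw [h3, ← h1]
  exact h2

end

end GJMS
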