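import Pool.Agent.GJMS.Defs

/-! # Abstract systems of Gram elements in a ring with commuting derivations -/

open Finset

namespace GJMS

noncomputable section

/-- A subalgebra `G` (polynomials in inner products), vectors `V u` (`u : ℕ`) and the partial
derivatives `del u i` with respect to their coordinates. -/
structure GramSys {n : ℕ} {A : Type} [CommRing A] [Algebra ℝ A] (D : Fin n → Derivation ℝ A A) where
  /-- polynomials in the inner products -/
  G : Subalgebra ℝ A
  /-- vectors -/
  V : ℕ → Fin n → A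
  /-- partial derivatives with respect to the coordinates of the vectors `V u` -/
  del : ℕ → Fin n → Derivation ℝ A A
  del_V : ∀ u i v j, del u i (V v j) = if u = v ∧ i = j then 1 else 0
  D_V : ∀ i u j, D i (V u j) = 0
  del_D : ∀ u i j a, (∀ k, del u k a = 0) → del u i (D j a) = 0
  lap_mem : ∀ u v, u ≠ v → ∀ a ∈ G, ∑ i, del u i (del v i a) ∈ G
  D_mem : ∀ u, ∀ a ∈ G, ∑ i, V u i * D i a ∈ G
  V_mem : ∀ u v, ∑ i, V u i * V v i ∈ G

variable {n : ℕ} {A : Type} [CommRing A] [Algebra ℝ A] {D : Fin n → Derivation ℝ A A}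

/-- an array does not involve the vectors `V u` and all its contractions with them are in `G` -/
def IsG (S : GramSys D) {ι : Type} [Fintype ι] [DecidableEq ι] (T : (ι → Fin n) → A) : Prop :=
  (∀ w u i, S.del u i (T w) = 0) ∧
    ∀ W : ι → ℕ, ∑ w : ι → Fin n, T w * ∏ s, S.V (W s) (w s) ∈ S.G

/-- `IsG` for matrices -/
def IsG2 (S : GramSys D) (g : Fin n → Fin n → A) : Prop :=
  (∀ a b u i, S.del u i (g a b) = 0) ∧
    ∀ u v : ℕ, ∑ a, ∑ b, g a b * (S.V u a * S.V v b) ∈ S.G

/-- `IsG` for functions -/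
def IsG0 (S : GramSys D) (f : A) : Prop := (∀ u i, S.del u i f = 0) ∧ f ∈ S.G

end

end GJMS
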