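import Mathlib
import Pool.Agent.GJMS.GramSys

/-!
# Closure of the arrays with Gram contractions under the tensor operations
-/

open Finset

set_option linter.unusedSectionVars false

namespace GJMS

noncomputable section

variable {n : ℕ} {A : Type} [CommRing A] [Algebra ℝ A] {D : Fin n → Derivation ℝ A A}
  {S : GramSys D}

section general

variable {ι κ : Type} [Fintype ι] [DecidableEq ι] [Fintype κ] [DecidableEq κ]

lemma del_prod_eq_zero {κ : Type} (s : Finset κ) (δ : Derivation ℝ A A) (f : κ → A)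
    (hf : ∀ x ∈ s, δ (f x) = 0) : δ (∏ x ∈ s, f x) = 0 := by
  classical
  induction s using Finset.induction_on with
  | empty => simp
  | insert a s ha ih =>
    rw [Finset.prod_insert ha, Derivation.leibniz, hf a (Finset.mem_insert_self _ _),
      ih (fun x hx => hf x (Finset.mem_insert_of_mem hx))]
    simp

lemma del_mul_eq_zero (δ : Derivation ℝ A A) {x y : A} (hx : δ x = 0) (hy : δ y = 0) :
    δ (x * y) = 0 := by
  rw [Derivation.leibniz, hx, hy]; simp

lemma del_sum_eq_zero {κ : Type*} (s : Finset κ) (δ : Derivation ℝ A A) (f : κ → A)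
    (hf : ∀ x ∈ s, δ (f x) = 0) : δ (∑ x ∈ s, f x) = 0 := by
  rw [map_sum]; exact Finset.sum_eq_zero hf

lemma IsG.add {T T' : (ι → Fin n) → A} (h : IsG S T) (h' : IsG S T') :
    IsG S (fun w => T w + T' w) := by
  refine ⟨fun w u i => by rw [map_add, h.1, h'.1, add_zero], fun W => ?_⟩
  have := S.G.add_mem (h.2 W) (h'.2 W)
  rw [← Finset.sum_add_distrib] at this
  convert this using 2
  ring

lemma IsG.smul {T : (ι → Fin n) → A} (r : ℝ) (h : IsG S T) : IsG S (fun w => r • T w) := by
  refine ⟨fun w u i => by rw [Derivation.map_smul, h.1, smul_zero], fun W => ?_⟩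
  have := S.G.smul_mem (h.2 W) r
  rw [Finset.smul_sum] at this
  convert this using 2
  rw [smul_mul_assoc]

lemma IsG.neg {T : (ι → Fin n) → A} (h : IsG S T) : IsG S (fun w => - T w) := by
  have := h.smul (-1)
  simpa using this

lemma IsG.sub {T T' : (ι → Fin n) → A} (h : IsG S T) (h' : IsG S T') :
    IsG S (fun w => T w - T' w) := by
  have := h.add h'.neg
  simpa [sub_eq_add_neg] using this

lemma IsG.sum {κ : Type} (s : Finset κ) {T : κ → (ι → Fin n) → A} (h : ∀ x ∈ s, IsG S (T x)) :
    IsG S (fun w => ∑ x ∈ s, T x w) := by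
  refine ⟨fun w u i => del_sum_eq_zero _ _ _ fun x hx => (h x hx).1 _ _ _, fun W => ?_⟩
  have := S.G.sum_mem (fun x hx => (h x hx).2 W)
  rw [Finset.sum_comm] at this
  convert this using 2
  rw [Finset.sum_mul]

/-- reindexing -/
lemma IsG.reindex {T : (ι → Fin n) → A} (h : IsG S T) (f : ι → κ) (hf : Function.Bijective f) :
    IsG S (fun w : κ → Fin n => T (fun s => w (f s))) := by
  refine ⟨fun w u i => h.1 _ _ _, fun W => ?_⟩
  have h1 := h.2 (fun s => W (f s))
  set e : ι ≃ κ := Equiv.ofBijective f hf with he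
  have h2 : ∑ w : κ → Fin n, T (fun s => w (f s)) * ∏ s, S.V (W s) (w s) =
      ∑ w : ι → Fin n, T w * ∏ s, S.V (W (f s)) (w s) := by
    refine Fintype.sum_equiv (Equiv.arrowCongr e.symm (Equiv.refl _)) _ _ fun w => ?_
    congr 1
    refine (Fintype.prod_equiv e _ _ fun s => ?_).symm
    simp [he]
  rw [h2]; exact h1

/-- product of two arrays -/
lemma IsG.mul {T : (ι → Fin n) → A} {T' : (κ → Fin n) → A} (h : IsG S T) (h' : IsG S T') :
    IsG S (fun w : ι ⊕ κ → Fin n => T (fun s => w (Sum.inl s)) * T' (fun s => w (Sum.inr s))) := by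
  refine ⟨fun w u i => del_mul_eq_zero _ (h.1 _ _ _) (h'.1 _ _ _), fun W => ?_⟩
  have h1 := S.G.mul_mem (h.2 (fun s => W (Sum.inl s))) (h'.2 (fun s => W (Sum.inr s)))
  rw [Finset.sum_mul_sum, ← Fintype.sum_prod_type'] at h1
  convert h1 using 1
  refine Fintype.sum_equiv (Equiv.sumArrowEquivProdArrow ι κ (Fin n)) _ _ fun w => ?_
  simp only [Fintype.prod_sum_type, Equiv.sumArrowEquivProdArrow, Equiv.coe_fn_mk,
    Function.comp_apply]
  exact mul_mul_mul_comm _ _ _ _

/-- contraction of two slots -/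
lemma IsG.contract {T : (Bool ⊕ ι → Fin n) → A} (h : IsG S T) :
    IsG S (fun w : ι → Fin n => ∑ l, T (Sum.elim (fun _ => l) w)) := by
  refine ⟨fun w u i => del_sum_eq_zero _ _ _ fun x _ => h.1 _ _ _, fun W => ?_⟩
  set u : ℕ := (Finset.univ.sup W) + 1 with hu
  set v : ℕ := u + 1 with hv
  have hWu : ∀ s, u ≠ W s := by
    intro s hs
    have := Finset.le_sup (f := W) (Finset.mem_univ s)
    omega
  have hWv : ∀ s, v ≠ W s := by
    intro s hs
    have := Finset.le_sup (f := W) (Finset.mem_univ s)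
    omega
  have huv : u ≠ v := by omega
  have h1 := h.2 (Sum.elim (fun b => if b then u else v) W)
  set R : Fin n → Fin n → A := fun i j => ∑ w : ι → Fin n,
    T (Sum.elim (fun b => if b then i else j) w) * ∏ s, S.V (W s) (w s) with hR
  have hRd : ∀ x : ℕ, (∀ s, x ≠ W s) → ∀ l i j, S.del x l (R i j) = 0 := by
    intro x hx l i j
    simp only [hR]
    refine del_sum_eq_zero _ _ _ fun w _ => del_mul_eq_zero _ (h.1 _ _ _) ?_
    refine del_prod_eq_zero _ _ _ fun s _ => ?_
    rw [S.del_V, if_neg]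
    intro h; exact hx s h.1
  have h2 : ∑ w : Bool ⊕ ι → Fin n, T w * ∏ s, S.V (Sum.elim (fun b => if b then u else v) W s) (w s)
      = ∑ j, (∑ i, R i j * S.V u i) * S.V v j := by
    simp only [hR, Finset.sum_mul]
    rw [← Fintype.sum_prod_type', ← Fintype.sum_prod_type']
    refine Fintype.sum_equiv ((Equiv.sumArrowEquivProdArrow Bool ι (Fin n)).trans
      (Equiv.prodCongr (Equiv.boolArrowEquivProd (Fin n)) (Equiv.refl _))) _ _ fun w => ?_
    simp only [Fintype.prod_sum_type, Equiv.trans_apply, Equiv.prodCongr_apply, Prod.map,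
      Equiv.sumArrowEquivProdArrow, Equiv.coe_fn_mk, Equiv.boolArrowEquivProd, Equiv.refl_apply,
      Function.comp_apply, Sum.elim_inl, Sum.elim_inr, Fintype.prod_bool, if_true]
    have h3 : (Sum.elim (fun b => if b = true then w (Sum.inl true) else w (Sum.inl false))
        (w ∘ Sum.inr)) = w := by
      funext s
      rcases s with b | s
      · cases b <;> rfl
      · rfl
    rw [h3]
    simp
    ring
  rw [h2] at h1
  have h3 := S.lap_mem u v huv _ h1
  have h4 : ∀ l, S.del u l (S.del v l (∑ j, (∑ i, R i j * S.V u i) * S.V v j)) = R l l := by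
    intro l
    have e1 : S.del v l (∑ j, (∑ i, R i j * S.V u i) * S.V v j) = ∑ i, R i l * S.V u i := by
      rw [map_sum, Finset.sum_eq_single l]
      · rw [Derivation.leibniz, S.del_V, if_pos ⟨rfl, rfl⟩]
        have : S.del v l (∑ i, R i l * S.V u i) = 0 := by
          refine del_sum_eq_zero _ _ _ fun i _ => del_mul_eq_zero _ (hRd v hWv _ _ _) ?_
          rw [S.del_V, if_neg]; intro h; exact huv h.1.symm
        rw [this]; simp
      · intro j _ hj
        refine del_mul_eq_zero _ ?_ ?_
        · refine del_sum_eq_zero _ _ _ fun i _ => del_mul_eq_zero _ (hRd v hWv _ _ _) ?_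
          rw [S.del_V, if_neg]; intro h; exact huv h.1.symm
        · rw [S.del_V, if_neg]; intro h; exact hj h.2.symm
      · simp
    rw [e1, map_sum, Finset.sum_eq_single l]
    · rw [Derivation.leibniz, S.del_V, if_pos ⟨rfl, rfl⟩, hRd u hWu]; simp
    · intro i _ hi
      refine del_mul_eq_zero _ (hRd u hWu _ _ _) ?_
      rw [S.del_V, if_neg]; intro h; exact hi h.2.symm
    · simp
  simp only [h4] at h3
  convert h3 using 1
  simp only [hR, Finset.sum_mul]
  rw [Finset.sum_comm]
  refine Finset.sum_congr rfl fun l _ => Finset.sum_congr rfl fun w _ => ?_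
  simp

/-- contraction of two slots, with reindexing -/
lemma IsG.contract' {T : (κ → Fin n) → A} (h : IsG S T) (f : κ → Bool ⊕ ι)
    (hf : Function.Bijective f) :
    IsG S (fun w : ι → Fin n => ∑ l, T (fun s => Sum.elim (fun _ => l) w (f s))) :=
  (h.reindex f hf).contract

end general

section more

variable {ι κ : Type} [Fintype ι] [DecidableEq ι] [Fintype κ] [DecidableEq κ]

/-- the derivative of an array; the new slot is the first one -/
lemma IsG.der {r : ℕ} {T : (Fin r → Fin n) → A} (h : IsG S T) :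
    IsG S (fun w : Fin (r + 1) → Fin n => D (w 0) (T (Fin.tail w))) := by
  refine ⟨fun w u i => S.del_D _ _ _ _ fun k => h.1 _ _ _, fun W => ?_⟩
  have h1 := S.D_mem (W 0) _ (h.2 (Fin.tail W))
  convert h1 using 1
  have h2 : ∀ i, D i (∑ w : Fin r → Fin n, T w * ∏ s, S.V (Fin.tail W s) (w s)) =
      ∑ w : Fin r → Fin n, D i (T w) * ∏ s, S.V (Fin.tail W s) (w s) := by
    intro i
    rw [map_sum]
    refine Finset.sum_congr rfl fun w _ => ?_
    rw [Derivation.leibniz, del_prod_eq_zero _ _ _ fun s _ => S.D_V _ _ _]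
    simp [mul_comm]
  simp only [h2, Finset.mul_sum]
  rw [← Fintype.sum_prod_type']
  refine (Fintype.sum_equiv (Fin.consEquiv (fun _ => Fin n)) _ _ fun w => ?_).symm
  simp only [Fin.consEquiv, Equiv.coe_fn_mk, Fin.prod_univ_succ, Fin.cons_zero, Fin.cons_succ,
    Fin.tail_cons]
  have : ∀ s, Fin.tail W s = W s.succ := fun s => rfl
  simp only [this]
  ring

/-- a product of finitely many arrays -/
lemma IsG.prod {m : ℕ} {l : Fin m → ℕ} {T : (j : Fin m) → (Fin (l j) → Fin n) → A}
    (h : ∀ j, IsG S (T j)) :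
    IsG S (fun w : ((j : Fin m) × Fin (l j)) → Fin n => ∏ j, T j (fun s => w ⟨j, s⟩)) := by
  refine ⟨fun w u i => del_prod_eq_zero _ _ _ fun x _ => (h x).1 _ _ _, fun W => ?_⟩
  have h1 := S.G.prod_mem (t := univ) fun j _ => (h j).2 (fun s => W ⟨j, s⟩)
  rw [Finset.prod_univ_sum, Fintype.piFinset_univ] at h1
  convert h1 using 1
  refine Fintype.sum_equiv (Equiv.piCurry (fun (_ : Fin m) (_ : Fin (l _)) => Fin n)) _ _ fun w => ?_
  simp only [Fintype.prod_sigma, Equiv.piCurry, Equiv.coe_fn_mk, Finset.prod_mul_distrib]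
  rfl

/-- contraction of many pairs of slots -/
lemma IsG.multi (m : ℕ) : ∀ {κ : Type} [Fintype κ] [DecidableEq κ]
    {T : ((Fin m ⊕ Fin m) ⊕ κ → Fin n) → A} (_ : IsG S T),
    IsG S (fun w : κ → Fin n => ∑ l : Fin m → Fin n, T (Sum.elim (Sum.elim l l) w)) := by
  induction m with
  | zero =>
    intro κ _ _ T h
    have := h.reindex (κ := κ) (Sum.elim (Sum.elim Fin.elim0 Fin.elim0) id) (by
      constructor
      · rintro ((x | x) | x) ((y | y) | y) hxy
        all_goals first | exact x.elim0 | exact y.elim0 | exact congrArg _ hxy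
      · intro x; exact ⟨Sum.inr x, rfl⟩)
    convert this using 2 with w
    rw [Fintype.sum_unique]
    congr 1
    funext s
    rcases s with ((x | x) | x)
    · exact x.elim0
    · exact x.elim0
    · rfl
  | succ m ih =>
    intro κ _ _ T h
    let f : (Fin (m + 1) ⊕ Fin (m + 1)) ⊕ κ → (Fin m ⊕ Fin m) ⊕ (Bool ⊕ κ) :=
      Sum.elim (Sum.elim (Fin.cases (Sum.inr (Sum.inl false)) (fun s => Sum.inl (Sum.inl s)))
        (Fin.cases (Sum.inr (Sum.inl true)) (fun s => Sum.inl (Sum.inr s))))
        (fun s => Sum.inr (Sum.inr s))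
    have hf : Function.Bijective f := by
      rw [Function.bijective_iff_has_inverse]
      refine ⟨Sum.elim (Sum.elim (fun s => Sum.inl (Sum.inl s.succ))
        (fun s => Sum.inl (Sum.inr s.succ)))
        (Sum.elim (fun b => if b then Sum.inl (Sum.inr 0) else Sum.inl (Sum.inl 0)) Sum.inr), ?_, ?_⟩
      · rintro ((x | x) | x)
        · exact Fin.cases rfl (fun _ => rfl) x
        · exact Fin.cases rfl (fun _ => rfl) x
        · rfl
      · rintro ((x | x) | (b | x))
        · rfl
        · rfl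
        · cases b <;> rfl
        · rfl
    have h1 := (ih (h.reindex f hf)).contract
    convert h1 using 2 with w
    rw [← Fintype.sum_prod_type']
    refine (Fintype.sum_equiv (Fin.consEquiv (fun _ => Fin n)) _ _ fun x => ?_).symm
    congr 1
    funext s
    rcases s with ((s | s) | s)
    · exact Fin.cases rfl (fun _ => rfl) s
    · exact Fin.cases rfl (fun _ => rfl) s
    · rfl

/-- full contraction of two arrays of the same shape -/
lemma IsG.inner {T T' : (ι → Fin n) → A} (h : IsG S T) (h' : IsG S T') :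
    IsG0 S (∑ w, T w * T' w) := by
  set m := Fintype.card ι with hm
  set e : ι ≃ Fin m := Fintype.equivFin ι with he
  have h1 := (h.mul h').reindex (κ := (Fin m ⊕ Fin m) ⊕ Empty)
    (fun x => Sum.inl (Sum.map e e x)) (by
      constructor
      · intro x y hxy
        exact (Sum.map_injective.2 ⟨e.injective, e.injective⟩) (Sum.inl_injective hxy)
      · rintro (x | x)
        · obtain ⟨y, hy⟩ := (Sum.map_surjective.2 ⟨e.surjective, e.surjective⟩) x
          exact ⟨y, congrArg Sum.inl hy⟩
        · exact x.elim)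
  have h2 := IsG.multi m h1
  have h3 : (∑ w, T w * T' w) = ∑ l : Fin m → Fin n, (T (fun s => l (e s)) * T' (fun s => l (e s))) := by
    refine (Fintype.sum_equiv (Equiv.arrowCongr e.symm (Equiv.refl _)) _ _ fun w => ?_).symm
    simp [Equiv.arrowCongr]
    rfl
  have h4 := h2.2 Empty.elim
  rw [Fintype.sum_unique] at h4
  simp only [Finset.univ_eq_empty, Finset.prod_empty, mul_one] at h4
  rw [h3]
  exact ⟨fun u i => h2.1 Empty.elim u i, h4⟩

/-- functions as arrays without slots -/
lemma IsG0.isG {f : A} (hf : IsG0 S f) : IsG S (fun _ : Fin 0 → Fin n => f) := by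
  refine ⟨fun w u i => hf.1 u i, fun W => ?_⟩
  rw [Fintype.sum_unique]
  simpa using hf.2

lemma IsG0.add {f f' : A} (hf : IsG0 S f) (hf' : IsG0 S f') : IsG0 S (f + f') :=
  ⟨fun u i => by rw [map_add, hf.1, hf'.1, add_zero], S.G.add_mem hf.2 hf'.2⟩

lemma IsG0.mul {f f' : A} (hf : IsG0 S f) (hf' : IsG0 S f') : IsG0 S (f * f') :=
  ⟨fun u i => del_mul_eq_zero _ (hf.1 _ _) (hf'.1 _ _), S.G.mul_mem hf.2 hf'.2⟩

lemma IsG0.smul (r : ℝ) {f : A} (hf : IsG0 S f) : IsG0 S (r • f) :=
  ⟨fun u i => by rw [Derivation.map_smul, hf.1, smul_zero], S.G.smul_mem hf.2 r⟩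

/-- multiplication of an array by a function -/
lemma IsG.fmul {f : A} (hf : IsG0 S f) {T : (ι → Fin n) → A} (h : IsG S T) :
    IsG S (fun w => f * T w) := by
  refine ⟨fun w u i => del_mul_eq_zero _ (hf.1 _ _) (h.1 _ _ _), fun W => ?_⟩
  have := S.G.mul_mem hf.2 (h.2 W)
  rw [Finset.mul_sum] at this
  convert this using 2
  ring

/-- matrices as arrays with two slots -/
lemma IsG2.isG {g : Fin n → Fin n → A} (hg : IsG2 S g) :
    IsG S (fun w : Fin 2 → Fin n => g (w 0) (w 1)) := by
  refine ⟨fun w u i => hg.1 _ _ u i, fun W => ?_⟩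
  have h1 := hg.2 (W 0) (W 1)
  rw [← Fintype.sum_prod_type'] at h1
  convert h1 using 1
  refine Fintype.sum_equiv (finTwoArrowEquiv (Fin n)) _ _ fun w => ?_
  simp [Fin.prod_univ_two, finTwoArrowEquiv]

lemma IsG.isG2 {g : Fin n → Fin n → A} (hg : IsG S (fun w : Fin 2 → Fin n => g (w 0) (w 1))) :
    IsG2 S g := by
  refine ⟨fun a b u i => hg.1 ![a, b] u i, fun u v => ?_⟩
  have h1 := hg.2 ![u, v]
  rw [← Fintype.sum_prod_type']
  convert h1 using 1
  refine (Fintype.sum_equiv (finTwoArrowEquiv (Fin n)) _ _ fun w => ?_).symm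
  simp [Fin.prod_univ_two, finTwoArrowEquiv]

end more

end

end GJMS
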