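import Mathlib
import Pool.Agent.GJMS.GramTensor

/-!
# Closure of the arrays with Gram contractions under the operations of Riemannian geometry
-/

open Finset

set_option linter.unusedSectionVars false

namespace GJMS

noncomputable section

variable {n : ℕ} {A : Type} [CommRing A] [Algebra ℝ A] {D : Fin n → Derivation ℝ A A}
  {S : GramSys D}

/-- `D_a g_{bc}` as an array with slots `a, b, c` -/
lemma IsG2.der {g : Fin n → Fin n → A} (hg : IsG2 S g) :
    IsG S (fun w : Fin 3 → Fin n => D (w 0) (g (w 1) (w 2))) := hg.isG.der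

/-- the lower Christoffel symbols as an array with slots `e, a, b` -/
lemma IsG2.chl {g : Fin n → Fin n → A} (hg : IsG2 S g) :
    IsG S (fun w : Fin 3 → Fin n => D (w 1) (g (w 2) (w 0)) + D (w 2) (g (w 1) (w 0))
      - D (w 0) (g (w 1) (w 2))) :=
  ((hg.der.reindex ![1, 2, 0] (by decide)).add (hg.der.reindex ![2, 1, 0] (by decide))).sub hg.der

/-- the Christoffel symbols as an array with slots `c, a, b` -/
lemma IsG2.chr {g gi : Fin n → Fin n → A} (hg : IsG2 S g) (hgi : IsG2 S gi) :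
    IsG S (fun w : Fin 3 → Fin n => chr (fun i => D i) g gi (w 0) (w 1) (w 2)) := by
  have h1 := (hgi.isG.mul hg.chl).contract' (ι := Fin 3)
    (Sum.elim ![Sum.inr 0, Sum.inl true] ![Sum.inl false, Sum.inr 1, Sum.inr 2]) (by decide)
  exact h1.smul (1 / 2)

/-- covariant derivative -/
lemma IsG.nab {Γ : Fin n → Fin n → Fin n → A}
    (hΓ : IsG S (fun w : Fin 3 → Fin n => Γ (w 0) (w 1) (w 2))) {r : ℕ}
    {T : (Fin r → Fin n) → A} (hT : IsG S T) : IsG S (nab (fun i => D i) Γ T) := by
  refine IsG.sub hT.der (IsG.sum univ fun s _ => ?_)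
  let f : Fin 3 ⊕ Fin r → Bool ⊕ Fin (r + 1) := Sum.elim ![Sum.inl false, Sum.inr 0, Sum.inr s.succ]
    (fun t => if t = s then Sum.inl true else Sum.inr t.succ)
  have hf : Function.Bijective f := by
    rw [Fintype.bijective_iff_injective_and_card]
    refine ⟨?_, by simp; omega⟩
    rintro (x | x) (y | y) hxy
    · fin_cases x <;> fin_cases y <;> simp [f] at hxy ⊢ <;>
        exact absurd hxy (Fin.succ_ne_zero s).symm
    · fin_cases x <;> simp only [f, Sum.elim_inl, Sum.elim_inr] at hxy <;> split_ifs at hxy with hy <;>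
        simp at hxy <;>
        (first
          | exact absurd hxy (Fin.succ_ne_zero _)
          | exact absurd hxy.symm (Fin.succ_ne_zero _)
          | exact absurd hxy hy
          | exact absurd hxy.symm hy)
    · fin_cases y <;> simp only [f, Sum.elim_inl, Sum.elim_inr] at hxy <;> split_ifs at hxy with hy <;>
        simp at hxy <;>
        (first
          | exact absurd hxy (Fin.succ_ne_zero _)
          | exact absurd hxy.symm (Fin.succ_ne_zero _)
          | exact absurd hxy hy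
          | exact absurd hxy.symm hy)
    · simp only [f, Sum.elim_inr] at hxy
      split_ifs at hxy with h1 h2 h2
      · rw [h1, h2]
      · simpa using hxy
  have h1 := (hΓ.mul hT).contract' f hf
  convert h1 using 2 with w
  refine Finset.sum_congr rfl fun c _ => ?_
  simp only [f, Sum.elim_inl, Sum.elim_inr, Matrix.cons_val_zero, Matrix.cons_val_one,
    Matrix.cons_val]
  congr 2
  funext t
  by_cases ht : t = s
  · subst ht; simp
  · rw [Function.update_of_ne ht, if_neg ht]; rfl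

/-- Ricci curvature -/
lemma IsG.ric {Γ : Fin n → Fin n → Fin n → A}
    (hΓ : IsG S (fun w : Fin 3 → Fin n => Γ (w 0) (w 1) (w 2))) : IsG2 S (ric (fun i => D i) Γ) := by
  apply IsG.isG2
  have hd : IsG S (fun w : Fin 4 → Fin n => D (w 0) (Γ (w 1) (w 2) (w 3))) := hΓ.der
  have t1 : IsG S (fun w : Fin 2 → Fin n => ∑ c, D c (Γ c (w 0) (w 1))) :=
    hd.contract' (ι := Fin 2) ![Sum.inl false, Sum.inl true, Sum.inr 0, Sum.inr 1] (by decide)
  have t2 : IsG S (fun w : Fin 2 → Fin n => ∑ c, D (w 1) (Γ c (w 0) c)) :=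
    hd.contract' (ι := Fin 2) ![Sum.inr 1, Sum.inl false, Sum.inr 0, Sum.inl true] (by decide)
  have t3 : IsG S (fun w : Fin 2 → Fin n => ∑ e, ∑ c, Γ c c e * Γ e (w 0) (w 1)) :=
    ((hΓ.mul hΓ).contract' (ι := Bool ⊕ Fin 2)
      (Sum.elim ![Sum.inl false, Sum.inl true, Sum.inr (Sum.inl false)]
        ![Sum.inr (Sum.inl true), Sum.inr (Sum.inr 0), Sum.inr (Sum.inr 1)]) (by decide)).contract
  have t4 : IsG S (fun w : Fin 2 → Fin n => ∑ e, ∑ c, Γ c (w 1) e * Γ e (w 0) c) :=
    ((hΓ.mul hΓ).contract' (ι := Bool ⊕ Fin 2)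
      (Sum.elim ![Sum.inl false, Sum.inr (Sum.inr 1), Sum.inr (Sum.inl false)]
        ![Sum.inr (Sum.inl true), Sum.inr (Sum.inr 0), Sum.inl true]) (by decide)).contract
  have h := (t1.sub t2).add (t3.sub t4)
  convert h using 2 with w
  unfold GJMS.ric
  rw [Finset.sum_sub_distrib]
  congr 1
  simp only [Finset.sum_sub_distrib]
  congr 1
  · exact Finset.sum_comm
  · exact Finset.sum_comm

section metric

variable {g gi : Fin n → Fin n → A} {f : A}

lemma IsG2.scal (hg : IsG2 S g) (hgi : IsG2 S gi) : IsG0 S (scal (fun i => D i) g gi) := by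
  have h := hgi.isG.inner (hg.chr hgi).ric.isG
  convert h using 1
  unfold GJMS.scal
  rw [← Fintype.sum_prod_type']
  exact (Fintype.sum_equiv (finTwoArrowEquiv (Fin n)) _ _ fun w => rfl).symm

lemma IsG2.sch (hg : IsG2 S g) (hgi : IsG2 S gi) : IsG2 S (sch (fun i => D i) g gi) := by
  apply IsG.isG2
  exact ((hg.chr hgi).ric.isG.sub ((IsG.fmul (hg.scal hgi) hg.isG).smul _)).smul _

lemma IsG2.nabP (hg : IsG2 S g) (hgi : IsG2 S gi) (l : ℕ) : IsG S (nabP (fun i => D i) g gi l) := by
  induction l with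
  | zero => exact (hg.sch hgi).isG
  | succ l ih => exact IsG.nab (hg.chr hgi) ih

lemma IsG2.nabF (hg : IsG2 S g) (hgi : IsG2 S gi) (hf : IsG0 S f) (k : ℕ) :
    IsG S (nabF (fun i => D i) g gi f k) := by
  induction k with
  | zero => exact hf.isG
  | succ k ih => exact IsG.nab (hg.chr hgi) ih

lemma IsG2.lap (hg : IsG2 S g) (hgi : IsG2 S gi) (hf : IsG0 S f) :
    IsG0 S (lap (fun i => D i) g gi f) := by
  have h := hgi.isG.inner (hg.nabF hgi hf 2)
  convert h using 1
  unfold GJMS.lap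
  rw [← Fintype.sum_prod_type']
  refine (Fintype.sum_equiv (finTwoArrowEquiv (Fin n)) _ _ fun w => ?_).symm
  simp only [finTwoArrowEquiv, Equiv.coe_fn_mk]
  congr 2
  funext i
  fin_cases i <;> rfl

/-- complete contractions -/
theorem Contr.eval_isG (S : GramSys D) {g gi : Fin n → Fin n → A} {f : A} (hg : IsG2 S g)
    (hgi : IsG2 S gi) (hf : IsG0 S f) (C : Contr) : IsG0 S (C.eval (fun i => D i) g gi f) := by
  have hP : IsG S (fun w : ((j : Fin C.m) × Fin (C.l j + 2)) → Fin n =>
      ∏ j : Fin C.m, GJMS.nabP (fun i => D i) g gi (C.l j) (fun s => w ⟨j, s⟩)) :=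
    IsG.prod fun j => hg.nabP hgi (C.l j)
  have hT := hP.mul (hg.nabF hgi hf C.k)
  have hG : IsG S (fun w : ((_ : Fin C.p) × Fin 2) → Fin n =>
      ∏ q : Fin C.p, gi (w ⟨q, 0⟩) (w ⟨q, 1⟩)) :=
    IsG.prod (T := fun _ w => gi (w 0) (w 1)) fun j => hgi.isG
  let e2 : ((_ : Fin C.p) × Fin 2) → ((j : Fin C.m) × Fin (C.l j + 2)) ⊕ Fin C.k :=
    fun x => C.e (x.1, finTwoEquiv x.2)
  have he2 : Function.Bijective e2 :=
    C.e.bijective.comp (((Equiv.sigmaEquivProd (Fin C.p) (Fin 2)).trans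
      (Equiv.prodCongr (Equiv.refl _) finTwoEquiv)).bijective)
  have hG2 := hG.reindex e2 he2
  exact hG2.inner hT

end metric

end

end GJMS
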