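import Pool.Agent.GJMS.EvQ
import Pool.Agent.GJMS.GramClosure

/-! # The symbol is a polynomial in the inner products -/

open Finset MvPolynomial

set_option linter.unusedSectionVars false

namespace GJMS

noncomputable section

section gramalg

variable {L : Type} [DecidableEq L] {n : ℕ}

lemma gm_X (a b : L) : gam n (X s(a, b)) = ip n a b := by
  simp [gam]

lemma ip_mem (a b : L) : ip n a b ∈ (gam n : MvPolynomial (Sym2 L) ℝ →ₐ[ℝ] _).range :=
  ⟨X s(a, b), gm_X a b⟩

lemma pd_ip (u a b : L) (m : Fin n) :
    pderiv (u, m) (ip n a b) = (if u = b then X (a, m) else 0) + (if u = a then X (b, m) else 0) := by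
  unfold ip
  rw [map_sum]
  simp only [Derivation.leibniz, smul_eq_mul, pderiv_X]
  rw [Finset.sum_add_distrib]
  congr 1
  · by_cases h : u = b
    · subst h
      rw [Finset.sum_eq_single m]
      · simp
      · intro i _ hi
        rw [Pi.single_eq_of_ne]; · simp
        intro h; exact hi (by simpa using (congrArg Prod.snd h))
      · simp
    · rw [if_neg h]
      apply Finset.sum_eq_zero
      intro i _
      rw [Pi.single_eq_of_ne]; · simp
      intro h'; exact h (by simpa using (congrArg Prod.fst h').symm)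
  · by_cases h : u = a
    · subst h
      rw [Finset.sum_eq_single m]
      · simp
      · intro i _ hi
        rw [Pi.single_eq_of_ne]; · simp
        intro h; exact hi (by simpa using (congrArg Prod.snd h))
      · simp
    · rw [if_neg h]
      apply Finset.sum_eq_zero
      intro i _
      rw [Pi.single_eq_of_ne]; · simp
      intro h'; exact h (by simpa using (congrArg Prod.fst h').symm)

/-- vectors of the form `∑ c_w w` with coefficients polynomials in inner products -/
def GV (L : Type) (n : ℕ) :
    Submodule (gam n : MvPolynomial (Sym2 L) ℝ →ₐ[ℝ] MvPolynomial (L × Fin n) ℝ).range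
      (Fin n → MvPolynomial (L × Fin n) ℝ) :=
  Submodule.span _ (Set.range fun (w : L) (i : Fin n) => (X (w, i) : MvPolynomial (L × Fin n) ℝ))

lemma X_mem_GV (w : L) : (fun i => X (w, i)) ∈ GV L n := Submodule.subset_span ⟨w, rfl⟩

lemma ite_mem_GV (p : Prop) [Decidable p] (w : L) :
    (fun i => if p then X (w, i) else 0) ∈ GV L n := by
  by_cases hp : p
  · simp only [if_pos hp]; exact X_mem_GV w
  · simp only [if_neg hp]; exact (GV L n).zero_mem

lemma ip_GV (T T' : Fin n → MvPolynomial (L × Fin n) ℝ) (hT : T ∈ GV L n) (hT' : T' ∈ GV L n) :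
    ∑ i, T i * T' i ∈ (gam n : MvPolynomial (Sym2 L) ℝ →ₐ[ℝ] _).range := by
  induction hT using Submodule.span_induction with
  | mem T hT =>
    obtain ⟨w, rfl⟩ := hT
    induction hT' using Submodule.span_induction with
    | mem T' hT' =>
      obtain ⟨w', rfl⟩ := hT'
      exact ip_mem w w'
    | zero => simp
    | add x y _ _ hx hy =>
      have := Subalgebra.add_mem _ hx hy
      rw [← Finset.sum_add_distrib] at this
      convert this using 2
      rw [Pi.add_apply]; ring
    | smul r x _ hx =>
      have := Subalgebra.mul_mem _ r.2 hx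
      rw [Finset.mul_sum] at this
      convert this using 2
      rw [Pi.smul_apply, Subalgebra.smul_def, smul_eq_mul]; ring
  | zero => simp
  | add x y _ _ hx hy =>
    have := Subalgebra.add_mem _ hx hy
    rw [← Finset.sum_add_distrib] at this
    convert this using 2
    rw [Pi.add_apply]; ring
  | smul r x _ hx =>
    have := Subalgebra.mul_mem _ r.2 hx
    rw [Finset.mul_sum] at this
    convert this using 2
    rw [Pi.smul_apply, Subalgebra.smul_def, smul_eq_mul]; ring

lemma pd_gam_mem (u : L) (P : MvPolynomial (Sym2 L) ℝ) :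
    (fun i => pderiv (u, i) (gam n P)) ∈ GV L n := by
  induction P using MvPolynomial.induction_on with
  | C r =>
    have : (fun i => pderiv (u, i) (gam n (C r))) = (0 : Fin n → MvPolynomial (L × Fin n) ℝ) := by
      funext i; simp [gam]
    rw [this]; exact (GV L n).zero_mem
  | add p q hp hq =>
    have := (GV L n).add_mem hp hq
    convert this using 1
    funext i
    rw [Pi.add_apply, map_add, map_add]
  | mul_X p s hp =>
    induction s using Sym2.ind with
    | _ a b =>
      have h1 := (GV L n).smul_mem ⟨gam n p, ⟨p, rfl⟩⟩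
        ((GV L n).add_mem (ite_mem_GV (u = b) a) (ite_mem_GV (u = a) b))
      have h2 := (GV L n).smul_mem ⟨ip n a b, ip_mem a b⟩ hp
      have := (GV L n).add_mem h1 h2
      convert this using 1
      funext i
      rw [Pi.add_apply, Pi.smul_apply, Pi.smul_apply, Pi.add_apply, Subalgebra.smul_def,
        Subalgebra.smul_def, map_mul, gm_X, Derivation.leibniz, pd_ip]

lemma LL_mem (u v : L) (P : MvPolynomial (Sym2 L) ℝ) :
    ∑ i, pderiv (u, i) (pderiv (v, i) (gam n P)) ∈ (gam n : MvPolynomial (Sym2 L) ℝ →ₐ[ℝ] _).range := by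
  induction P using MvPolynomial.induction_on with
  | C r =>
    have : (∑ i : Fin n, pderiv (u, i) (pderiv (v, i) (gam n (C r)))) = (0 : MvPolynomial (L × Fin n) ℝ) := by
      apply Finset.sum_eq_zero
      intro i _
      simp [gam]
    rw [this]; exact Subalgebra.zero_mem _
  | add p q hp hq =>
    have := Subalgebra.add_mem _ hp hq
    convert this using 1
    rw [← Finset.sum_add_distrib]
    exact Finset.sum_congr rfl fun i _ => by simp only [map_add]
  | mul_X p s hp =>
    induction s using Sym2.ind with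
    | _ a b =>
      have h0 : (∑ i : Fin n, pderiv (u, i) (pderiv (v, i) (ip n a b))) ∈
          (gam n : MvPolynomial (Sym2 L) ℝ →ₐ[ℝ] _).range := by
        simp only [pd_ip]
        refine Subalgebra.sum_mem _ fun i _ => ?_
        rw [map_add]
        refine Subalgebra.add_mem _ ?_ ?_
        · split_ifs
          · rw [pderiv_X]
            by_cases h : (a, i) = (u, i)
            · rw [h]; simp only [Pi.single_eq_same]; exact Subalgebra.one_mem _
            · rw [Pi.single_eq_of_ne h]; exact Subalgebra.zero_mem _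
          · rw [map_zero]; exact Subalgebra.zero_mem _
        · split_ifs
          · rw [pderiv_X]
            by_cases h : (b, i) = (u, i)
            · rw [h]; simp only [Pi.single_eq_same]; exact Subalgebra.one_mem _
            · rw [Pi.single_eq_of_ne h]; exact Subalgebra.zero_mem _
          · rw [map_zero]; exact Subalgebra.zero_mem _
      have hip : ∀ w : L, (fun i => pderiv (w, i) (ip n a b)) ∈ GV L n := by
        intro w
        have := pd_gam_mem (n := n) w (X s(a, b))
        rwa [gm_X] at this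
      have h1 := ip_GV _ _ (pd_gam_mem (n := n) u p) (hip v)
      have h2 := ip_GV _ _ (pd_gam_mem (n := n) v p) (hip u)
      have h3 := Subalgebra.mul_mem _ (⟨p, rfl⟩ : gam n p ∈ (gam n : MvPolynomial (Sym2 L) ℝ →ₐ[ℝ] _).range) h0
      have h4 := Subalgebra.mul_mem _ (ip_mem (n := n) a b) hp
      have := Subalgebra.add_mem _ (Subalgebra.add_mem _ h1 h2) (Subalgebra.add_mem _ h3 h4)
      convert this using 1
      rw [Finset.mul_sum, Finset.mul_sum, ← Finset.sum_add_distrib, ← Finset.sum_add_distrib,
        ← Finset.sum_add_distrib]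
      refine Finset.sum_congr rfl fun i _ => ?_
      rw [map_mul, gm_X]
      simp only [Derivation.leibniz, map_add, smul_eq_mul]
      ring

end gramalg

variable {α : Type} [Fintype α] [DecidableEq α] {n : ℕ}

/-- the labels with infinitely many auxiliary vectors -/
abbrev LbN (α : Type) : Type := Lab α Unit ⊕ ℕ

/-- the base ring -/
abbrev SN (α : Type) (n : ℕ) : Type := MvPolynomial (LbN α × Fin n) ℝ

/-- the inclusion -/
def phN (α : Type) (n : ℕ) : SS α n →ₐ[ℝ] SN α n := rename (Prod.map Sum.inl id)

lemma phN_X (u : Lab α Unit) (i : Fin n) : phN α n (X (u, i)) = X (Sum.inl u, i) := by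
  unfold phN; rw [rename_X]; rfl

/-- the derivations -/
def DN (i : Fin n) : Derivation ℝ (Nil (Option α) (SN α n)) (Nil (Option α) (SN α n)) :=
  Nil.dn (fun _ : Fin n => (0 : Derivation ℝ (SN α n) (SN α n))) (fun b i => phN α n (wx b i)) i

/-- elements all of whose coefficients are polynomials in the inner products -/
def GN (α : Type) [Fintype α] [DecidableEq α] (n : ℕ) : Subalgebra ℝ (Nil (Option α) (SN α n)) where
  carrier := {F | ∀ S, F.co S ∈ (gam n : MvPolynomial (Sym2 (LbN α)) ℝ →ₐ[ℝ] _).range}
  mul_mem' {F G} hF hG S := by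
    rw [Nil.co_mul]
    exact Subalgebra.sum_mem _ fun T _ => Subalgebra.mul_mem _ (hF _) (hG _)
  add_mem' {F G} hF hG S := Subalgebra.add_mem _ (hF S) (hG S)
  algebraMap_mem' r S := by
    rw [Nil.algebraMap_eq, Nil.co_cst]
    split_ifs
    · exact Subalgebra.algebraMap_mem _ r
    · exact Subalgebra.zero_mem _

lemma mem_GN {F : Nil (Option α) (SN α n)} : F ∈ GN α n ↔
    ∀ S, F.co S ∈ (gam n : MvPolynomial (Sym2 (LbN α)) ℝ →ₐ[ℝ] _).range := Iff.rfl

lemma pd_XN (u v : ℕ) (i j : Fin n) : pderiv (Sum.inr u, i) (X (Sum.inr v, j) : SN α n)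
    = if u = v ∧ i = j then 1 else 0 := by
  rw [pderiv_X]
  by_cases h : u = v ∧ i = j
  · rw [if_pos h, h.1, h.2, Pi.single_eq_same]
  · rw [if_neg h, Pi.single_eq_of_ne]
    intro h1
    apply h
    have h2 := Prod.mk.inj h1
    exact ⟨(Sum.inr_injective h2.1).symm, h2.2.symm⟩

lemma pd_ph (u : ℕ) (i : Fin n) (P : SS α n) : pderiv (Sum.inr u, i) (phN α n P) = 0 := by
  induction P using MvPolynomial.induction_on with
  | C r => simp [phN]
  | add p q hp hq => rw [map_add, map_add, hp, hq, add_zero]
  | mul_X p v hp =>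
    obtain ⟨u', j⟩ := v
    rw [map_mul, Derivation.leibniz, hp, phN_X, pderiv_X, Pi.single_eq_of_ne]
    · simp
    · intro h; exact Sum.inl_ne_inr (Prod.mk.inj h).1

/-- the system of Gram elements -/
def GSN (α : Type) [Fintype α] [DecidableEq α] (n : ℕ) : GramSys (DN (α := α) (n := n)) where
  G := GN α n
  V u i := Nil.cst (X (Sum.inr u, i))
  del u i := Nil.cd (pderiv (Sum.inr u, i))
  del_V u i v j := by
    ext S
    rw [Nil.co_cd, Nil.co_cst]
    by_cases hS : S = ∅
    · rw [if_pos hS, pd_XN]
      by_cases h : u = v ∧ i = j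
      · rw [if_pos h, if_pos h, Nil.co_one, if_pos hS]
      · rw [if_neg h, if_neg h]; rfl
    · rw [if_neg hS, map_zero]
      by_cases h : u = v ∧ i = j
      · rw [if_pos h, Nil.co_one, if_neg hS]
      · rw [if_neg h]; rfl
  D_V i u j := by
    unfold DN
    rw [Nil.dn_cst]
    ext S
    rw [Nil.co_cst]
    split_ifs <;> rfl
  del_D u i j a h := by
    ext S
    rw [Nil.co_cd]
    unfold DN
    rw [Nil.co_dn, Derivation.zero_apply, zero_add, Derivation.leibniz, map_sum]
    have h1 : pderiv (Sum.inr u, i) (a.co S) = 0 := by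
      have := congrArg (fun F : Nil (Option α) (SN α n) => F.co S) (h i)
      simp only [Nil.co_cd] at this
      exact this
    rw [h1, Finset.sum_eq_zero (fun b _ => pd_ph u i _)]
    simp
  lap_mem u v _ a ha := by
    rw [mem_GN] at ha ⊢
    intro S
    rw [Nil.co_sum]
    simp only [Nil.co_cd]
    obtain ⟨P, hP⟩ := ha S
    have hP' : gam n P = a.co S := hP
    rw [← hP']
    exact LL_mem _ _ _
  D_mem u a ha := by
    rw [mem_GN] at ha ⊢
    intro S
    rw [Nil.co_sum]
    have h1 : (∑ i : Fin n, (Nil.cst (X (Sum.inr u, i)) * DN i a).co S)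
        = (∑ b ∈ S, ip n (Sum.inr u) (Sum.inl (wv b))) * a.co S := by
      have h2 : ∀ i : Fin n, (Nil.cst (X (Sum.inr u, i)) * DN i a).co S
          = ∑ b ∈ S, (X (Sum.inr u, i) * X (Sum.inl (wv b), i)) * a.co S := by
        intro i
        rw [Nil.co_cst_mul]
        unfold DN
        rw [Nil.co_dn, Derivation.zero_apply, zero_add, Finset.sum_mul, Finset.mul_sum]
        refine Finset.sum_congr rfl fun b _ => ?_
        unfold wx
        rw [phN_X]; ring
      simp_rw [h2]
      rw [Finset.sum_comm, Finset.sum_mul]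
      refine Finset.sum_congr rfl fun b _ => ?_
      unfold ip
      rw [Finset.sum_mul]
    rw [h1]
    exact Subalgebra.mul_mem _ (Subalgebra.sum_mem _ fun b _ => ip_mem _ _) (ha S)
  V_mem u v := by
    rw [mem_GN]
    intro S
    rw [Nil.co_sum]
    have h1 : ∀ i : Fin n, (Nil.cst (X (Sum.inr u, i)) * Nil.cst (X (Sum.inr v, i)) :
        Nil (Option α) (SN α n)).co S = if S = ∅ then X (Sum.inr u, i) * X (Sum.inr v, i) else 0 := by
      intro i
      rw [← map_mul, Nil.co_cst]
    simp_rw [h1]
    by_cases hS : S = ∅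
    · simp only [if_pos hS]; exact ip_mem _ _
    · simp only [if_neg hS, Finset.sum_const_zero]; exact Subalgebra.zero_mem _

/-- the perturbation of the metric -/
def hN (i l : Fin n) : Nil (Option α) (SN α n) :=
  ∑ a : α, Nil.sg (some a) (phN α n (X (ep a, i) * X (ep a, l)))

lemma hN_G2 : IsG2 (GSN α n) (hN (α := α) (n := n)) := by
  constructor
  · intro i l u j
    show Nil.cd (pderiv (Sum.inr u, j)) (hN i l) = 0
    unfold hN
    rw [map_sum]
    refine Finset.sum_eq_zero fun a _ => ?_
    rw [Nil.cd_sg, pd_ph, Nil.sg_zero]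
  · intro u v
    show _ ∈ GN α n
    rw [mem_GN]
    intro S
    simp only [Nil.co_sum]
    have h1 : ∀ a b : Fin n, (hN a b * ((GSN α n).V u a * (GSN α n).V v b)).co S
        = ∑ c : α, if S = {some c} then (X (Sum.inr u, a) * X (Sum.inl (ep c), a)) *
          (X (Sum.inr v, b) * X (Sum.inl (ep c), b)) else 0 := by
      intro a b
      show Nil.co (hN a b * (Nil.cst (X (Sum.inr u, a)) * Nil.cst (X (Sum.inr v, b)))) S = _
      rw [← map_mul, mul_comm, Nil.co_cst_mul]
      unfold hN
      rw [Nil.co_sum, Finset.mul_sum]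
      refine Finset.sum_congr rfl fun c _ => ?_
      rw [Nil.co_sg, map_mul, phN_X, phN_X]
      split_ifs
      · ring
      · rw [mul_zero]
    simp_rw [h1]
    have h2 : (∑ a : Fin n, ∑ b : Fin n, ∑ c : α, if S = {some c} then
        (X (Sum.inr u, a) * X (Sum.inl (ep c), a)) *
          (X (Sum.inr v, b) * X (Sum.inl (ep c), b)) else (0 : SN α n))
        = ∑ c : α, if S = {some c} then ip n (Sum.inr u) (Sum.inl (ep c)) *
          ip n (Sum.inr v) (Sum.inl (ep c)) else 0 := by
      have h3 : ∀ a : Fin n, (∑ b : Fin n, ∑ c : α, if S = {some c} then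
        (X (Sum.inr u, a) * X (Sum.inl (ep c), a)) *
          (X (Sum.inr v, b) * X (Sum.inl (ep c), b)) else (0 : SN α n))
          = ∑ c : α, ∑ b : Fin n, if S = {some c} then
        (X (Sum.inr u, a) * X (Sum.inl (ep c), a)) *
          (X (Sum.inr v, b) * X (Sum.inl (ep c), b)) else (0 : SN α n) := fun a => Finset.sum_comm
      simp_rw [h3]
      rw [Finset.sum_comm]
      refine Finset.sum_congr rfl fun c _ => ?_
      by_cases hS : S = {some c}
      · simp only [if_pos hS]
        unfold ip
        rw [Finset.sum_mul_sum]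
      · simp only [if_neg hS, Finset.sum_const_zero]
    rw [h2]
    refine Subalgebra.sum_mem _ fun c _ => ?_
    split_ifs
    · exact Subalgebra.mul_mem _ (ip_mem _ _) (ip_mem _ _)
    · exact Subalgebra.zero_mem _

section matrices

variable {A : Type} [CommRing A] [Algebra ℝ A] {D : Fin n → Derivation ℝ A A} {S : GramSys D}

lemma IsG2_one : IsG2 S (fun a b => (1 : Matrix (Fin n) (Fin n) A) a b) := by
  constructor
  · intro a b u i
    show S.del u i ((1 : Matrix (Fin n) (Fin n) A) a b) = 0
    rw [Matrix.one_apply]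
    split_ifs
    · exact Derivation.map_one_eq_zero _
    · exact map_zero _
  · intro u v
    have := S.V_mem u v
    convert this using 1
    refine Finset.sum_congr rfl fun a _ => ?_
    show ∑ b, (1 : Matrix (Fin n) (Fin n) A) a b * (S.V u a * S.V v b) = _
    rw [Finset.sum_eq_single a]
    · rw [Matrix.one_apply, if_pos rfl, one_mul]
    · intro b _ hb
      rw [Matrix.one_apply, if_neg (Ne.symm hb), zero_mul]
    · simp

lemma IsG2_mul {M M' : Matrix (Fin n) (Fin n) A} (h : IsG2 S (fun a b => M a b))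
    (h' : IsG2 S (fun a b => M' a b)) : IsG2 S (fun a b => (M * M') a b) := by
  have h1 := (h.isG.mul h'.isG).contract' (ι := Fin 2)
    (Sum.elim ![Sum.inr 0, Sum.inl true] ![Sum.inl false, Sum.inr 1]) (by decide)
  apply IsG.isG2
  exact h1

lemma IsG2_add {g g' : Fin n → Fin n → A} (h : IsG2 S g) (h' : IsG2 S g') :
    IsG2 S (fun a b => g a b + g' a b) :=
  IsG.isG2 (h.isG.add h'.isG)

lemma IsG2_neg {g : Fin n → Fin n → A} (h : IsG2 S g) : IsG2 S (fun a b => - g a b) :=
  IsG.isG2 h.isG.neg

lemma IsG2_pow {M : Matrix (Fin n) (Fin n) A} (h : IsG2 S (fun a b => M a b)) (m : ℕ) :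
    IsG2 S (fun a b => (M ^ m) a b) := by
  induction m with
  | zero => rw [pow_zero]; exact IsG2_one
  | succ m ih => rw [pow_succ]; exact IsG2_mul ih h

lemma IsG2_sum {ι : Type} (s : Finset ι) {g : ι → Fin n → Fin n → A} (h : ∀ x ∈ s, IsG2 S (g x)) :
    IsG2 S (fun a b => ∑ x ∈ s, g x a b) :=
  IsG.isG2 (IsG.sum s fun x hx => (h x hx).isG)

end matrices

/-- the perturbation as a matrix -/
def HN : Matrix (Fin n) (Fin n) (Nil (Option α) (SN α n)) := Matrix.of hN

lemma fil_HN_pow (m : ℕ) (i l : Fin n) : Nil.fil m (((- HN) ^ m : Matrix (Fin n) (Fin n)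
    (Nil (Option α) (SN α n))) i l) := by
  induction m generalizing i l with
  | zero => exact Nil.fil_all _
  | succ m ih =>
    rw [pow_succ, Matrix.mul_apply]
    refine Nil.fil_sum _ fun j _ => ?_
    refine Nil.fil_mul (ih i j) ?_
    intro S hS
    have hS0 : S = ∅ := Finset.card_eq_zero.1 (by omega)
    subst hS0
    show (- hN j l : Nil (Option α) (SN α n)).co ∅ = 0
    rw [Nil.co_neg]
    unfold hN
    rw [Nil.co_sum, Finset.sum_eq_zero, neg_zero]
    intro a _
    rw [Nil.co_sg, if_neg (Finset.singleton_ne_empty _).symm]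

lemma HN_nil : ((- HN) ^ (Fintype.card (Option α) + 1) : Matrix (Fin n) (Fin n)
    (Nil (Option α) (SN α n))) = 0 := by
  ext i l S : 3
  rw [Matrix.zero_apply, Nil.co_zero]
  exact fil_HN_pow (Fintype.card (Option α) + 1) i l S (by have := Finset.card_le_univ S; omega)

/-- the inverse of the metric -/
def giN (i l : Fin n) : Nil (Option α) (SN α n) :=
  (∑ m ∈ range (Fintype.card (Option α) + 1), (- HN) ^ m : Matrix (Fin n) (Fin n)
    (Nil (Option α) (SN α n))) i l

/-- the metric -/
def gN (i l : Fin n) : Nil (Option α) (SN α n) := dl i l + hN i l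

lemma gN_symm (i l : Fin n) : (gN i l : Nil (Option α) (SN α n)) = gN l i := by
  unfold gN hN
  rw [dl_symm]
  congr 1
  exact Finset.sum_congr rfl fun a _ => by rw [mul_comm]

lemma gN_mat : (Matrix.of gN : Matrix (Fin n) (Fin n) (Nil (Option α) (SN α n))) = 1 - (- HN) := by
  ext i l : 2
  rw [Matrix.sub_apply, Matrix.neg_apply, sub_neg_eq_add, Matrix.of_apply, Matrix.one_apply]
  rfl

lemma giN_inv (a b : Fin n) : ∑ c, (giN a c : Nil (Option α) (SN α n)) * gN b c
    = if a = b then 1 else 0 := by
  have h1 : (∑ m ∈ range (Fintype.card (Option α) + 1), (- HN) ^ m : Matrix (Fin n) (Fin n)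
    (Nil (Option α) (SN α n))) * (1 - (- HN)) = 1 := by
    rw [geom_sum_mul_neg, HN_nil, sub_zero]
  rw [← gN_mat] at h1
  have h2 := congrFun (congrFun h1 a) b
  rw [Matrix.mul_apply, Matrix.one_apply] at h2
  rw [← h2]
  refine Finset.sum_congr rfl fun c _ => ?_
  rw [Matrix.of_apply, gN_symm c b]
  rfl

lemma gN_G2 : IsG2 (GSN α n) (gN (α := α) (n := n)) := by
  have := IsG2_add (S := GSN α n) IsG2_one hN_G2
  convert this using 3 with a b
  show dl a b + hN a b = (1 : Matrix (Fin n) (Fin n) (Nil (Option α) (SN α n))) a b + hN a b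
  rw [Matrix.one_apply]
  rfl

lemma giN_G2 : IsG2 (GSN α n) (giN (α := α) (n := n)) := by
  have h1 : IsG2 (GSN α n) (fun a b => (- HN : Matrix (Fin n) (Fin n) (Nil (Option α) (SN α n))) a b) :=
    IsG2_neg hN_G2
  have h2 := IsG2_sum (S := GSN α n) (range (Fintype.card (Option α) + 1))
    (g := fun m a b => ((- HN) ^ m : Matrix (Fin n) (Fin n) (Nil (Option α) (SN α n))) a b)
    (fun m _ => IsG2_pow h1 m)
  convert h2 using 1
  funext a b
  unfold giN
  rw [Matrix.sum_apply]

lemma fN_G0 : IsG0 (GSN α n) (Nil.sg none 1 : Nil (Option α) (SN α n)) := by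
  constructor
  · intro u i
    show Nil.cd (pderiv (Sum.inr u, i)) _ = 0
    rw [Nil.cd_sg]
    have : pderiv (Sum.inr u, i) (1 : SN α n) = 0 := Derivation.map_one_eq_zero _
    rw [this, Nil.sg_zero]
  · show _ ∈ GN α n
    rw [mem_GN]
    intro S
    rw [Nil.co_sg]
    split_ifs
    · exact Subalgebra.one_mem _
    · exact Subalgebra.zero_mem _

/-- forgetting the auxiliary vectors -/
def psN (α : Type) (n : ℕ) : SN α n →ₐ[ℝ] SS α n :=
  aeval fun x : LbN α × Fin n => x.1.elim (fun u => X (u, x.2)) (fun _ => 0)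

lemma psN_phN (P : SS α n) : psN α n (phN α n P) = P := by
  have : (psN α n).comp (phN α n) = AlgHom.id ℝ _ := by
    apply MvPolynomial.algHom_ext
    rintro ⟨u, i⟩
    rw [AlgHom.comp_apply, phN_X]
    unfold psN
    rw [aeval_X]
    rfl
  exact congrFun (congrArg DFunLike.coe this) P

lemma psN_gam (P : MvPolynomial (Sym2 (LbN α)) ℝ) :
    psN α n (gam n P) ∈ (gam n : MvPolynomial (Sym2 (Lab α Unit)) ℝ →ₐ[ℝ] _).range := by
  induction P using MvPolynomial.induction_on with
  | C r =>
    have : gam n (C r : MvPolynomial (Sym2 (LbN α)) ℝ) = C r := by simp [gam]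
    rw [this]
    have h2 : psN α n (C r) = C r := by unfold psN; rw [aeval_C]; rfl
    rw [h2]
    exact Subalgebra.algebraMap_mem _ r
  | add p q hp hq => rw [map_add, map_add]; exact Subalgebra.add_mem _ hp hq
  | mul_X p s hp =>
    rw [map_mul, map_mul]
    refine Subalgebra.mul_mem _ hp ?_
    induction s using Sym2.ind with
    | _ a b =>
      rw [gm_X]
      unfold ip
      rw [map_sum]
      unfold psN
      simp only [map_mul, aeval_X]
      rcases a with a | a <;> rcases b with b | b
      · exact ip_mem a b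
      · simp
      · simp
      · simp

theorem QQ_gram (E : NatOp n) (k : ℕ) (hk : ∀ d ∈ E.q.support, k ≤ Finsupp.weight wg d)
    (hα : Fintype.card α = k) :
    QQ α (E.lc k) ∈ (gam n : MvPolynomial (Sym2 (Lab α Unit)) ℝ →ₐ[ℝ] _).range := by
  have h1 := E.gram (DN (α := α) (n := n)) (GSN α n) gN giN (Nil.sg none 1) gN_G2 giN_G2 fN_G0
  have h2 := ev_QQ E k hk hα (phN α n) gN giN (Nil.sg none 1) gN_symm giN_inv ?_ ?_ ?_ ?_ ?_ ?_
  · have h3 : (E.ev (Nil (Option α) (SN α n)) (fun i => DN i) gN giN (Nil.sg none 1)).co univ ∈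
      (gam n : MvPolynomial (Sym2 (LbN α)) ℝ →ₐ[ℝ] _).range := mem_GN.1 h1 univ
    have h4 : phN α n (QQ α (E.lc k)) ∈ (gam n : MvPolynomial (Sym2 (LbN α)) ℝ →ₐ[ℝ] _).range := by
      rw [← h2]; exact h3
    obtain ⟨P, hP⟩ := h4
    have h5 := psN_gam (n := n) P
    have hP' : gam n P = phN α n (QQ α (E.lc k)) := hP
    rw [hP', psN_phN] at h5
    exact h5
  · intro i l
    unfold gN hN
    rw [Nil.co_add, Nil.co_sum, Finset.sum_eq_zero, add_zero]
    · rw [← jetHom_map_dl (Nil.cst : SN α n →+* Nil (Option α) (SN α n)) i l, Nil.co_cst, if_pos rfl]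
    · intro a _
      rw [Nil.co_sg, if_neg (Finset.singleton_ne_empty _).symm]
  · intro i l a
    unfold gN hN
    rw [Nil.co_add, Nil.co_sum, Finset.sum_eq_single a]
    · rw [Nil.co_sg, if_pos rfl, ← jetHom_map_dl (Nil.cst : SN α n →+* Nil (Option α) (SN α n)) i l,
        Nil.co_cst, if_neg (Finset.singleton_ne_empty _), zero_add]
    · intro b _ hb
      rw [Nil.co_sg, if_neg]
      intro h
      exact hb (Option.some_injective _ (Finset.singleton_injective h).symm)
    · simp
  · intro i l
    unfold gN hN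
    rw [Nil.co_add, Nil.co_sum, Finset.sum_eq_zero, add_zero]
    · rw [← jetHom_map_dl (Nil.cst : SN α n →+* Nil (Option α) (SN α n)) i l, Nil.co_cst,
        if_neg (Finset.singleton_ne_empty _)]
    · intro a _
      rw [Nil.co_sg, if_neg]
      intro h
      have := Finset.singleton_injective h
      cases this
  · rw [Nil.co_sg, if_neg (Finset.singleton_ne_empty _).symm]
  · rw [Nil.co_sg, if_pos rfl]
  · intro a
    rw [Nil.co_sg, if_neg]
    intro h
    have := Finset.singleton_injective h
    cases this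

end

end GJMS
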