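import Pool.Agent.GJMS.SymN

/-! # Linearity in the function; a leading part with zero symbol vanishes -/

open Finset MvPolynomial

set_option linter.unusedSectionVars false

namespace GJMS

noncomputable section

variable {n : ℕ}

/-! ### linearity in the function -/

/-- substitution scaling the metric jets by `X` and the function jets by `t` -/
def scl (t : ℝ) : JR (Fld n) n →ₐ[ℝ] Polynomial (JR (Fld n) n) :=
  aeval (fun v => Polynomial.X ^ wg v * Polynomial.C (C (t ^ wf v) * X v))

lemma scl_ps (t : ℝ) (P : JR (Fld n) n) :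
    ((scl t P : Polynomial (JR (Fld n) n)) : PowerSeries (JR (Fld n) n))
      = jetHom (fun i => psD (jd i)) (fld (fun a b => PowerSeries.X * PowerSeries.C (gJ a b))
        (PowerSeries.C (C t) * PowerSeries.C fJ)) P := by
  have hD : ∀ (l : List (Fin n)) (x : JR (Fld n) n),
      l.foldr (fun i => (psD (jd i) : PowerSeries (JR (Fld n) n) → _)) (PowerSeries.C x)
        = PowerSeries.C (l.foldr (fun i => jd i) x) := by
    intro l x
    induction l with
    | nil => rfl
    | cons i l ih => rw [List.foldr_cons, ih, psD_C]; rfl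
  induction P using MvPolynomial.induction_on with
  | C r =>
    rw [← MvPolynomial.algebraMap_eq, AlgHom.commutes, AlgHom.commutes]
    rw [Polynomial.algebraMap_apply, PowerSeries.algebraMap_apply]
    exact Polynomial.coe_C _
  | add p q hp hq => rw [map_add, map_add, Polynomial.coe_add, hp, hq]
  | mul_X p v hp =>
    rw [map_mul, map_mul, Polynomial.coe_mul, hp, jetHom_X]
    congr 1
    have h1 : scl t (X v : JR (Fld n) n)
        = Polynomial.X ^ wg v * Polynomial.C (C (t ^ wf v) * X v) := by
      unfold scl; rw [aeval_X]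
    rw [h1]
    obtain ⟨o, s⟩ := v
    rcases o with _ | z
    · show ((Polynomial.X ^ 0 * Polynomial.C (C (t ^ 1) * X (none, s)) :
        Polynomial (JR (Fld n) n)) : PowerSeries (JR (Fld n) n))
        = mD (fun i => psD (jd i)) s (PowerSeries.C (C t) * PowerSeries.C fJ)
      rw [pow_zero, one_mul, pow_one, Polynomial.coe_C, ← map_mul]
      unfold mD
      rw [hD]
      have h2 : (C t * fJ : JR (Fld n) n) = t • fJ := (MvPolynomial.smul_eq_C_mul _ _).symm
      rw [h2]
      have h3 : ∀ (l : List (Fin n)) (x : JR (Fld n) n),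
          l.foldr (fun i => (jd i : JR (Fld n) n → _)) (t • x) = t • l.foldr (fun i => jd i) x := by
        intro l x
        induction l with
        | nil => rfl
        | cons i l ih => rw [List.foldr_cons, ih, Derivation.map_smul]; rfl
      rw [h3]
      unfold fJ
      rw [foldr_jd, Multiset.coe_toList, MvPolynomial.smul_eq_C_mul]
    · induction z using Sym2.ind with
      | _ a b =>
        rw [fld_some _ (fun a b => by rw [gJ_symm])]
        show ((Polynomial.X ^ 1 * Polynomial.C (C (t ^ 0) * X (some s(a, b), s)) :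
          Polynomial (JR (Fld n) n)) : PowerSeries (JR (Fld n) n))
          = mD (fun i => psD (jd i)) s (PowerSeries.X * PowerSeries.C (gJ a b))
        rw [mD_smul_const (fun i => psD (jd i)) PowerSeries.X (fun i => psD_X (jd i))]
        rw [pow_one, pow_zero, map_one, one_mul, Polynomial.coe_mul, Polynomial.coe_X,
          Polynomial.coe_C]
        congr 1
        unfold mD
        rw [hD]
        unfold gJ
        rw [foldr_jd, Multiset.coe_toList]

/-- the polynomial of a natural operator is linear in the function jets -/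
theorem NatOp.wf_one (E : NatOp n) : ∀ d ∈ E.q.support, Finsupp.weight wf d = 1 := by
  classical
  -- both sides of linearity
  set P : Fin n → Derivation ℝ (PowerSeries (JR (Fld n) n)) (PowerSeries (JR (Fld n) n)) :=
    fun i => psD (jd i) with hP
  have hPc := psD_comm (fun i => (jd i : Derivation ℝ (JR (Fld n) n) (JR (Fld n) n))) jd_comm
  set γ : Fin n → Fin n → PowerSeries (JR (Fld n) n) := fun a b => PowerSeries.C (gJ a b) with hγ
  obtain ⟨gi, hgi⟩ := exists_gi γ
  set g : Fin n → Fin n → PowerSeries (JR (Fld n) n) := fun a b => dl a b + PowerSeries.X * γ a b with hg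
  have hγs : ∀ a b, γ a b = γ b a := by intro a b; rw [hγ]; simp only; rw [gJ_symm]
  have hgs : ∀ a b, g a b = g b a := by
    intro a b; rw [hg]; simp only; rw [dl_symm, hγs]
  have hdet := (adj_eq g gi hgs hgi).1
  have key : ∀ t : ℝ, ((scl t E.q : Polynomial (JR (Fld n) n)) : PowerSeries (JR (Fld n) n))
      = Matrix.det (Matrix.of g) ^ E.N * E.ev (PowerSeries (JR (Fld n) n)) (fun i => P i) g gi
        (PowerSeries.C (C t) * PowerSeries.C fJ) := by
    intro t
    rw [E.ev_p P hPc g gi hgs hgi, scl_ps, E.q_eval P hPc _ (fun a b => by rw [gJ_symm])]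
  have hC : ∀ (t : ℝ) (i : Fin n), P i (PowerSeries.C (C t)) = 0 := by
    intro t i
    rw [hP]
    simp only
    rw [psD_C, ← MvPolynomial.algebraMap_eq, Derivation.map_algebraMap, map_zero]
  have h2 : scl 2 E.q = Polynomial.C (C 2) * scl 1 E.q := by
    apply Polynomial.coe_injective (JR (Fld n) n)
    rw [Polynomial.coe_mul, Polynomial.coe_C, key 2, key 1, E.lin P g gi _ _ (hC 2),
      E.lin P g gi _ _ (hC 1)]
    rw [map_one, map_one, one_mul]
    ring
  -- evaluate at X = 1
  have h3 := congrArg (Polynomial.eval 1) h2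
  rw [Polynomial.eval_mul, Polynomial.eval_C] at h3
  have hev : ∀ (t : ℝ) (Q : JR (Fld n) n), Polynomial.eval 1 (scl t Q)
      = aeval (fun v => C (t ^ wf v) * X v : Fld n × Multiset (Fin n) → JR (Fld n) n) Q := by
    intro t Q
    induction Q using MvPolynomial.induction_on with
    | C r =>
      rw [← MvPolynomial.algebraMap_eq, AlgHom.commutes, AlgHom.commutes, Polynomial.algebraMap_apply,
        Polynomial.eval_C]
    | add p q hp hq => rw [map_add, map_add, Polynomial.eval_add, hp, hq]
    | mul_X p v hp =>
      have h1 : Polynomial.eval 1 (scl t (X v : JR (Fld n) n)) = C (t ^ wf v) * X v := by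
        unfold scl
        rw [aeval_X, Polynomial.eval_mul, Polynomial.eval_pow, Polynomial.eval_X, one_pow, one_mul,
          Polynomial.eval_C]
      rw [map_mul, map_mul, Polynomial.eval_mul, hp, aeval_X, h1]
  rw [hev, hev] at h3
  have hco : ∀ (t : ℝ) (Q : JR (Fld n) n) (d : Fld n × Multiset (Fin n) →₀ ℕ),
      coeff d (aeval (fun v => C (t ^ wf v) * X v : Fld n × Multiset (Fin n) → JR (Fld n) n) Q)
        = t ^ (Finsupp.weight wf d) * coeff d Q := by
    intro t Q d
    have h4 : aeval (fun v => C (t ^ wf v) * X v : Fld n × Multiset (Fin n) → JR (Fld n) n) Q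
        = ∑ e ∈ Q.support, C (t ^ (Finsupp.weight wf e)) * monomial e (coeff e Q) := by
      conv_lhs => rw [Q.as_sum]
      rw [map_sum]
      refine Finset.sum_congr rfl fun e _ => ?_
      rw [aeval_monomial, Finsupp.prod]
      simp_rw [mul_pow]
      rw [Finset.prod_mul_distrib]
      have h5 : (∏ x ∈ e.support, (C (t ^ wf x) : JR (Fld n) n) ^ e x) = C (t ^ (Finsupp.weight wf e)) := by
        rw [Finsupp.weight_apply, Finsupp.sum, ← Finset.prod_pow_eq_pow_sum, map_prod]
        refine Finset.prod_congr rfl fun x _ => ?_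
        rw [← map_pow, ← pow_mul, smul_eq_mul, mul_comm]
      rw [h5]
      have h6 : (monomial e (coeff e Q) : JR (Fld n) n)
          = algebraMap ℝ _ (coeff e Q) * ∏ x ∈ e.support, X x ^ e x := by
        rw [monomial_eq, Finsupp.prod]; rfl
      rw [h6]
      ring
    rw [h4, coeff_sum]
    simp_rw [coeff_C_mul, coeff_monomial]
    simp only [mul_ite, mul_zero, Finset.sum_ite_eq']
    split_ifs with h
    · rfl
    · rw [MvPolynomial.notMem_support_iff.1 h, mul_zero]
  intro d hd
  have h5 := congrArg (coeff d) h3
  rw [coeff_C_mul, hco, hco, one_pow, one_mul] at h5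
  have h6 : coeff d E.q ≠ 0 := MvPolynomial.mem_support_iff.1 hd
  have h7 : (2 : ℝ) ^ (Finsupp.weight wf d) = 2 ^ 1 := by
    rw [pow_one]
    exact mul_right_cancel₀ h6 h5
  exact pow_right_injective₀ (by norm_num) (by norm_num) h7

end

end GJMS
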