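import Pool.Agent.GJMS.Inj

/-! # A leading part with zero symbol vanishes -/

open Finset MvPolynomial

set_option linter.unusedSectionVars false

namespace GJMS

noncomputable section

variable {α : Type} [Fintype α] [DecidableEq α] {n : ℕ}

/-- exponents of `ξ_b^s` -/
def mx (b : Option α) (s : Multiset (Fin n)) : Lab α Unit × Fin n →₀ ℕ :=
  (s.map (fun i => Finsupp.single (wv b, i) 1)).sum

lemma xs_monomial (b : Option α) (s : Multiset (Fin n)) : xs b s = monomial (mx b s) (1 : ℝ) := by
  unfold xs mx
  induction s using Multiset.induction with
  | empty => simp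
  | cons i s ih =>
    rw [Multiset.map_cons, Multiset.prod_cons, ih, Multiset.map_cons, Multiset.sum_cons]
    unfold wx
    rw [X, monomial_mul, one_mul]

lemma mx_apply (b : Option α) (s : Multiset (Fin n)) (i : Fin n) :
    mx b s (wv b, i) = s.count i := by
  unfold mx
  induction s using Multiset.induction with
  | empty => simp
  | cons j s ih =>
    rw [Multiset.map_cons, Multiset.sum_cons, Finsupp.add_apply, ih, Multiset.count_cons,
      Finsupp.single_apply]
    by_cases h : i = j
    · subst h; simp [add_comm]
    · have h2 : ¬ ((wv b, j) : Lab α Unit × Fin n) = (wv b, i) := fun h3 => h (Prod.ext_iff.1 h3).2.symm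
      rw [if_neg h2, if_neg h]; ring

lemma mx_apply_ne (b : Option α) (s : Multiset (Fin n)) (u : Lab α Unit) (hu : u ≠ wv b) (i : Fin n) :
    mx b s (u, i) = 0 := by
  unfold mx
  induction s using Multiset.induction with
  | empty => simp
  | cons j s ih =>
    rw [Multiset.map_cons, Multiset.sum_cons, Finsupp.add_apply, ih, Finsupp.single_apply, if_neg]
    intro h3; exact hu (Prod.ext_iff.1 h3).1.symm

/-- exponents of `ε_i ε_l` -/
def me (a : α) (t : Sym2 (Fin n)) : Lab α Unit × Fin n →₀ ℕ :=
  Sym2.lift ⟨fun i l => Finsupp.single (ep a, i) 1 + Finsupp.single (ep a, l) 1,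
    fun _ _ => add_comm _ _⟩ t

lemma ee_monomial (a : α) (t : Sym2 (Fin n)) : ee a t = monomial (me a t) (1 : ℝ) := by
  induction t using Sym2.ind with
  | _ i l =>
    show (X (ep a, i) * X (ep a, l) : SS α n) = monomial (_ + _) 1
    rw [X, X, monomial_mul, one_mul]

lemma me_apply_ne (a : α) (t : Sym2 (Fin n)) (u : Lab α Unit) (hu : u ≠ ep a) (i : Fin n) :
    me a t (u, i) = 0 := by
  induction t using Sym2.ind with
  | _ j l =>
    show ((Finsupp.single (ep a, j) 1 + Finsupp.single (ep a, l) 1 : Lab α Unit × Fin n →₀ ℕ)) (u, i) = 0
    have hne : ∀ j : Fin n, ¬ ((ep a, j) : Lab α Unit × Fin n) = (u, i) :=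
      fun j h3 => hu (Prod.ext_iff.1 h3).1.symm
    rw [Finsupp.add_apply, Finsupp.single_apply, Finsupp.single_apply, if_neg (hne j),
      if_neg (hne l), add_zero]

lemma me_inj (a : α) (t t' : Sym2 (Fin n)) (h : ∀ i, me a t (ep a, i) = me a t' (ep a, i)) :
    t = t' := by
  induction t using Sym2.ind with
  | _ i l =>
    induction t' using Sym2.ind with
    | _ j m =>
      have h1 : ∀ x : Fin n, (if i = x then 1 else 0) + (if l = x then 1 else 0)
          = (if j = x then 1 else 0) + (if m = x then 1 else 0 : ℕ) := by
        intro x
        have := h x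
        have e : ∀ p q : Fin n, me a s(p, q) (ep a, x) = (if p = x then 1 else 0) + (if q = x then 1 else 0 : ℕ) := by
          intro p q
          show ((Finsupp.single (ep a, p) 1 + Finsupp.single (ep a, q) 1 : Lab α Unit × Fin n →₀ ℕ)) (ep a, x) = _
          rw [Finsupp.add_apply, Finsupp.single_apply, Finsupp.single_apply]
          congr 1
          · by_cases hp : p = x
            · rw [if_pos hp, hp, if_pos rfl]
            · rw [if_neg hp, if_neg (fun h3 => hp (Prod.ext_iff.1 h3).2)]
          · by_cases hp : q = x
            · rw [if_pos hp, hp, if_pos rfl]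
            · rw [if_neg hp, if_neg (fun h3 => hp (Prod.ext_iff.1 h3).2)]
        rw [e, e] at this
        exact this
      rw [Sym2.eq_iff]
      have hi := h1 i
      have hl := h1 l
      rw [if_pos rfl] at hi
      rw [if_pos rfl] at hl
      by_cases e1 : j = i
      · subst e1
        left
        refine ⟨rfl, ?_⟩
        have h2 := h1 l
        by_cases e2 : m = l
        · exact e2.symm
        · rw [if_pos rfl, if_neg e2] at h2
          omega
      · rw [if_neg e1] at hi
        by_cases e2 : m = i
        · right
          refine ⟨e2.symm, ?_⟩
          by_cases e3 : j = l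
          · exact e3.symm
          · rw [if_neg e3, e2] at hl
            omega
        · rw [if_neg e2] at hi
          omega

/-- the exponents of the jets of the wave `b` -/
def mb (b : Option α) (v : Fld n × Multiset (Fin n)) : Lab α Unit × Fin n →₀ ℕ :=
  b.elim (mx b v.2) (fun a => v.1.elim 0 (fun t => me a t) + mx b v.2)

/-- the type of the wave matches the field -/
def prp (b : Option α) (v : Fld n × Multiset (Fin n)) : Prop := b.isSome = v.1.isSome

lemma jt_prp (b : Option α) (v : Fld n × Multiset (Fin n)) (h : prp b v) :
    jt b v = monomial (mb b v) (1 : ℝ) := by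
  obtain ⟨o, s⟩ := v
  rcases b with _ | a
  · rcases o with _ | t
    · unfold jt
      show (1 : SS α n) * xs none s = monomial (mx none s) 1
      rw [one_mul, xs_monomial]
    · exact absurd h (by unfold prp; simp)
  · rcases o with _ | t
    · exact absurd h (by unfold prp; simp)
    · show ee a t * xs (some a) s = monomial (me a t + mx (some a) s) 1
      rw [ee_monomial, xs_monomial, monomial_mul, one_mul]

lemma jt_not_prp (b : Option α) (v : Fld n × Multiset (Fin n)) (h : ¬ prp b v) :
    jt b v = (0 : SS α n) := by
  obtain ⟨o, s⟩ := v
  rcases b with _ | a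
  · rcases o with _ | t
    · exact absurd rfl h
    · exact jt_none_some t s
  · rcases o with _ | t
    · exact jt_some_none a s
    · exact absurd rfl h

lemma mb_apply (b : Option α) (v : Fld n × Multiset (Fin n)) (u : Lab α Unit) (hu : lb u ≠ b)
    (i : Fin n) : mb b v (u, i) = 0 := by
  have h1 : u ≠ wv b := fun h => hu (by rw [h, lb_wv])
  rcases b with _ | a
  · exact mx_apply_ne none v.2 u h1 i
  · show (v.1.elim 0 (fun t => me a t) + mx (some a) v.2) (u, i) = 0
    rw [Finsupp.add_apply, mx_apply_ne _ _ _ h1]
    have h2 : u ≠ ep a := fun h => hu (by rw [h]; rfl)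
    rcases v.1 with _ | t
    · rfl
    · show me a t (u, i) + 0 = 0
      rw [me_apply_ne a t u h2]

lemma ep_ne_wv (a : α) (b : Option α) : (ep a : Lab α Unit) ≠ wv b := by
  rcases b with _ | a' <;> intro h <;> cases h

lemma mb_inj (b : Option α) (v v' : Fld n × Multiset (Fin n)) (h : prp b v) (h' : prp b v')
    (hm : mb b v = mb b v') : v = v' := by
  obtain ⟨o, s⟩ := v
  obtain ⟨o', s'⟩ := v'
  have hs : s = s' := by
    ext i
    have h1 := DFunLike.congr_fun hm (wv b, i)
    rcases b with _ | a
    · rw [← mx_apply (none : Option α) s i, ← mx_apply (none : Option α) s' i]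
      exact h1
    · rw [← mx_apply (some a) s i, ← mx_apply (some a) s' i]
      have h2 : (o.elim 0 (fun t => me a t) + mx (some a) s) (wv (some a), i)
          = (o'.elim 0 (fun t => me a t) + mx (some a) s') (wv (some a), i) := h1
      rw [Finsupp.add_apply, Finsupp.add_apply] at h2
      have h3 : ∀ o : Fld n, (o.elim (0 : Lab α Unit × Fin n →₀ ℕ) (fun t => me a t)) (wv (some a), i) = 0 := by
        intro o
        rcases o with _ | t
        · rfl
        · exact me_apply_ne a t _ (Ne.symm (ep_ne_wv a (some a))) i
      rw [h3, h3, zero_add, zero_add] at h2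
      exact h2
  subst hs
  rcases b with _ | a
  · rcases o with _ | t
    · rcases o' with _ | t'
      · rfl
      · exact absurd h' (by unfold prp; simp)
    · exact absurd h (by unfold prp; simp)
  · rcases o with _ | t
    · exact absurd h (by unfold prp; simp)
    · rcases o' with _ | t'
      · exact absurd h' (by unfold prp; simp)
      · have : t = t' := by
          apply me_inj a
          intro i
          have h1 : (me a t + mx (some a) s) (ep a, i) = (me a t' + mx (some a) s) (ep a, i) :=
            DFunLike.congr_fun hm (ep a, i)
          rw [Finsupp.add_apply, Finsupp.add_apply, mx_apply_ne _ _ _ (ep_ne_wv a (some a))] at h1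
          simpa using h1
        rw [this]

lemma coeff_zero_of_pderiv {σ : Type} (v : σ) (P : MvPolynomial σ ℝ) (h : pderiv v P = 0)
    (d : σ →₀ ℕ) (hd : d v ≠ 0) : coeff d P = 0 := by
  classical
  have h1 := congrArg (coeff (d - Finsupp.single v 1)) h
  rw [coeff_pderiv, coeff_zero] at h1
  have h2 : (d - Finsupp.single v 1) + Finsupp.single v 1 = d := by
    apply tsub_add_cancel_of_le
    rw [Finsupp.single_le_iff]
    exact Nat.one_le_iff_ne_zero.2 hd
  rw [h2] at h1
  rcases mul_eq_zero.1 h1 with h3 | h3
  · exact h3
  · exfalso
    have : (0 : ℝ) < (((d - Finsupp.single v 1 : σ →₀ ℕ) v : ℕ) : ℝ) + 1 := by positivity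
    linarith

theorem inj_aux (S : Finset (Option α)) : ∀ c : JR (Fld n) n,
    (∀ d ∈ c.support, Finsupp.weight wg d = (S.filter (fun b => b.isSome)).card) →
    (∀ d ∈ c.support, Finsupp.weight wf d = (S.filter (fun b => ¬ b.isSome)).card) →
    (aeval JJ c : Nil (Option α) (SS α n)).co S = 0 → c = 0 := by
  classical
  induction S using Finset.induction_on with
  | empty =>
    intro c hg hf h0
    have hd : ∀ d ∈ c.support, d = 0 := by
      intro d hd
      have h1 := hg d hd
      have h2 := hf d hd
      simp only [Finset.filter_empty, Finset.card_empty] at h1 h2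
      ext v
      by_contra hne
      have h3 : wg v + wf v = 1 := by
        obtain ⟨o, s⟩ := v
        rcases o with _ | t <;> rfl
      rw [Finsupp.weight_apply, Finsupp.sum, Finset.sum_eq_zero_iff] at h1 h2
      have hv : v ∈ d.support := Finsupp.mem_support_iff.2 hne
      have h4 := h1 v hv
      have h5 := h2 v hv
      rw [smul_eq_mul, mul_eq_zero] at h4 h5
      rcases h4 with h4 | h4
      · exact hne h4
      · rcases h5 with h5 | h5
        · exact hne h5
        · omega
    have hc : c = C (coeff 0 c) := by
      ext d
      rw [coeff_C]
      split_ifs with h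
      · rw [h]
      · by_contra hne
        exact h (hd d (MvPolynomial.mem_support_iff.2 hne)).symm
    rw [hc, aeval_C, Nil.algebraMap_eq, Nil.co_cst, if_pos rfl, MvPolynomial.algebraMap_eq] at h0
    rw [hc, (C_injective _ _ (by rw [h0, map_zero]) : coeff 0 c = 0), map_zero]
  | insert b S hb ih =>
    intro c hg hf h0
    -- expansion
    have h1 : (JJ : _ → Nil (Option α) (SS α n)) = fun v => JO b v + Nil.sg b (jt b v) :=
      funext (JJ_split b)
    have h2 : ∑ v ∈ c.vars, (aeval JJ (pderiv v c) : Nil (Option α) (SS α n)).co S * jt b v = 0 := by
      rw [← h0]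
      nth_rewrite 2 [h1]
      rw [taylor _ _ (fun v w => Nil.sg_mul_sg_self _ _ _), Nil.co_add,
        Nil.aeval_co_zero (JO b) b (fun v T hT => JO_co b v T hT) c _ (Finset.mem_insert_self b S),
        zero_add, Nil.co_sum]
      refine Finset.sum_congr rfl fun v _ => ?_
      rw [Nil.co_mul_sg, if_pos (Finset.mem_insert_self b S), Finset.erase_insert hb]
      congr 1
      exact (Nil.aeval_co_congr (JO b) JJ S (fun v T hT => JO_co' b v T
        (fun h => hb (hT h))) _ _ subset_rfl).symm
    -- the coefficients vanish
    have hM : ∀ v ∈ c.vars, prp b v → (aeval JJ (pderiv v c) : Nil (Option α) (SS α n)).co S = 0 := by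
      intro v hv hpv
      have hfree : ∀ w (d : Lab α Unit × Fin n →₀ ℕ) (u : Lab α Unit) (i : Fin n), lb u = b → d (u, i) ≠ 0 →
          coeff d ((aeval JJ (pderiv w c) : Nil (Option α) (SS α n)).co S) = 0 := by
        intro w d u i hu hd
        exact coeff_zero_of_pderiv (u, i) _ (pderiv_co_zero u i S (by rw [hu]; exact hb) _) d hd
      ext d
      rw [coeff_zero]
      by_cases hdb : ∃ u i, lb u = b ∧ d (u, i) ≠ 0
      · obtain ⟨u, i, hu, hd⟩ := hdb
        exact hfree v d u i hu hd
      · push Not at hdb
        have h3 := congrArg (coeff (d + mb b v)) h2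
        rw [coeff_sum, coeff_zero, Finset.sum_eq_single v] at h3
        · rw [jt_prp b v hpv, coeff_mul_monomial, mul_one] at h3
          exact h3
        · intro w hw hwv
          by_cases hpw : prp b w
          · rw [jt_prp b w hpw, coeff_mul_monomial']
            split_ifs with hle
            · rw [mul_one]
              by_contra hne
              apply hwv
              apply mb_inj b w v hpw hpv
              ext ⟨u, i⟩
              by_cases hu : lb u = b
              · by_contra hne2
                have h4 : (d + mb b v - mb b w) (u, i) = 0 := by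
                  by_contra h5
                  exact hne (hfree w _ u i hu h5)
                have h5 := hle (u, i)
                rw [Finsupp.tsub_apply, Finsupp.add_apply, hdb u i hu, zero_add] at h4
                rw [Finsupp.add_apply, hdb u i hu, zero_add] at h5
                omega
              · rw [mb_apply b w u hu, mb_apply b v u hu]
            · rfl
          · rw [jt_not_prp b w hpw, mul_zero, coeff_zero]
        · intro h; exact absurd hv h
    -- the derivatives vanish
    have hder : ∀ v ∈ c.vars, prp b v → pderiv v c = 0 := by
      intro v hv hpv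
      refine ih (pderiv v c) ?_ ?_ (hM v hv hpv)
      · intro d hd
        have hd2 : d + Finsupp.single v 1 ∈ c.support := by
          rw [MvPolynomial.mem_support_iff] at hd ⊢
          intro h
          rw [coeff_pderiv, h, zero_mul] at hd
          exact hd rfl
        have h3 := hg _ hd2
        rw [map_add, Finsupp.weight_single, one_smul, Finset.filter_insert] at h3
        obtain ⟨o, s⟩ := v
        rcases b with _ | a
        · rcases o with _ | t
          · rw [if_neg (by simp)] at h3
            exact h3
          · exact absurd hpv (by unfold prp; simp)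
        · rcases o with _ | t
          · exact absurd hpv (by unfold prp; simp)
          · rw [if_pos (by simp), Finset.card_insert_of_notMem (by
              rw [Finset.mem_filter]; exact fun h => hb h.1)] at h3
            have : wg ((some t : Fld n), s) = 1 := rfl
            rw [this] at h3
            omega
      · intro d hd
        have hd2 : d + Finsupp.single v 1 ∈ c.support := by
          rw [MvPolynomial.mem_support_iff] at hd ⊢
          intro h
          rw [coeff_pderiv, h, zero_mul] at hd
          exact hd rfl
        have h3 := hf _ hd2
        rw [map_add, Finsupp.weight_single, one_smul, Finset.filter_insert] at h3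
        obtain ⟨o, s⟩ := v
        rcases b with _ | a
        · rcases o with _ | t
          · rw [if_pos (by simp), Finset.card_insert_of_notMem (by
              rw [Finset.mem_filter]; exact fun h => hb h.1)] at h3
            have : wf ((none : Fld n), s) = 1 := rfl
            rw [this] at h3
            omega
          · exact absurd hpv (by unfold prp; simp)
        · rcases o with _ | t
          · exact absurd hpv (by unfold prp; simp)
          · rw [if_neg (by simp)] at h3
            exact h3
    -- conclusion
    by_contra hc
    obtain ⟨d, hd⟩ := MvPolynomial.support_nonempty.2 hc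
    have hex : ∃ v ∈ d.support, prp b v := by
      by_contra hno
      push Not at hno
      rcases b with _ | a
      · have h3 := hf d hd
        rw [Finset.filter_insert, if_pos (by simp), Finset.card_insert_of_notMem (by
          rw [Finset.mem_filter]; exact fun h => hb h.1)] at h3
        rw [Finsupp.weight_apply, Finsupp.sum, Finset.sum_eq_zero] at h3
        · omega
        · intro v hv
          have h4 := hno v hv
          obtain ⟨o, s⟩ := v
          rcases o with _ | t
          · exact absurd rfl h4
          · exact mul_zero _
      · have h3 := hg d hd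
        rw [Finset.filter_insert, if_pos (by simp), Finset.card_insert_of_notMem (by
          rw [Finset.mem_filter]; exact fun h => hb h.1)] at h3
        rw [Finsupp.weight_apply, Finsupp.sum, Finset.sum_eq_zero] at h3
        · omega
        · intro v hv
          have h4 := hno v hv
          obtain ⟨o, s⟩ := v
          rcases o with _ | t
          · exact mul_zero _
          · exact absurd rfl h4
    obtain ⟨v, hv, hpv⟩ := hex
    have hvv : v ∈ c.vars := (MvPolynomial.mem_vars_iff_mem_support v).2 ⟨d, hd, hv⟩
    have h5 := coeff_zero_of_pderiv v c (hder v hvv hpv) d (Finsupp.mem_support_iff.1 hv)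
    exact MvPolynomial.mem_support_iff.1 hd h5

theorem QQ_inj (c : JR (Fld n) n) (hg : ∀ d ∈ c.support, Finsupp.weight wg d = Fintype.card α)
    (hf : ∀ d ∈ c.support, Finsupp.weight wf d = 1) (h : QQ α c = 0) : c = 0 := by
  classical
  refine inj_aux (Finset.univ : Finset (Option α)) c ?_ ?_ h
  · intro d hd
    rw [hg d hd]
    have h1 : (Finset.univ : Finset (Option α)).filter (fun b => b.isSome)
        = (Finset.univ : Finset α).map Function.Embedding.some := by
      ext b
      rcases b with _ | a <;> simp
    rw [h1, Finset.card_map, Finset.card_univ]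
  · intro d hd
    rw [hf d hd]
    have h1 : (Finset.univ : Finset (Option α)).filter (fun b => ¬ b.isSome) = {none} := by
      ext b
      rcases b with _ | a <;> simp
    rw [h1, Finset.card_singleton]

end

end GJMS
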