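import Pool.Agent.GJMS.Rel

/-! # Rings of jets and clearing of denominators -/

open Finset MvPolynomial

namespace GJMS

noncomputable section

/-! ### iterated derivatives -/

/-- iterated derivative along a multiset of indices -/
def mD {n : ℕ} {A : Type} (D : Fin n → A → A) (s : Multiset (Fin n)) (a : A) : A :=
  s.toList.foldr D a

lemma mD_zero {n : ℕ} {A : Type} (D : Fin n → A → A) (a : A) : mD D 0 a = a := by
  unfold mD
  simp

lemma mD_cons {n : ℕ} {A : Type} (D : Fin n → A → A) (hD : ∀ i j a, D i (D j a) = D j (D i a))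
    (i : Fin n) (s : Multiset (Fin n)) (a : A) : mD D (i ::ₘ s) a = D i (mD D s a) := by
  have : LeftCommutative D := ⟨hD⟩
  unfold mD
  have h : ((i ::ₘ s).toList).Perm (i :: s.toList) := by
    rw [← Multiset.coe_eq_coe, Multiset.coe_toList, ← Multiset.cons_coe, Multiset.coe_toList]
  rw [h.foldr_eq]
  rfl

/-! ### free rings of jets -/

/-- the ring of polynomials in the jets of the fields `Φ` -/
abbrev JR (Φ : Type) (n : ℕ) : Type := MvPolynomial (Φ × Multiset (Fin n)) ℝ

/-- total derivative -/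
def jd {Φ : Type} {n : ℕ} (i : Fin n) : Derivation ℝ (JR Φ n) (JR Φ n) :=
  mkDerivation ℝ (fun v => X (v.1, i ::ₘ v.2))

lemma jd_X {Φ : Type} {n : ℕ} (i : Fin n) (v : Φ × Multiset (Fin n)) :
    jd i (X v : JR Φ n) = X (v.1, i ::ₘ v.2) := by
  unfold jd
  rw [mkDerivation_X]

/-- derivations commuting on generators commute -/
lemma der_comm_of_X {σ : Type} {B : Type} [CommRing B] [Algebra ℝ B]
    (δ₁ : Derivation ℝ (MvPolynomial σ ℝ) (MvPolynomial σ ℝ)) (η₁ : Derivation ℝ B B)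
    (ψ : MvPolynomial σ ℝ →ₐ[ℝ] B)
    (h₁ : ∀ v, ψ (δ₁ (X v)) = η₁ (ψ (X v))) (P : MvPolynomial σ ℝ) : ψ (δ₁ P) = η₁ (ψ P) := by
  induction P using MvPolynomial.induction_on with
  | C r =>
    rw [← MvPolynomial.algebraMap_eq, Derivation.map_algebraMap, map_zero, AlgHom.commutes,
      Derivation.map_algebraMap]
  | add p q hp hq => rw [map_add, map_add, map_add, map_add, hp, hq]
  | mul_X p v hp =>
    rw [Derivation.leibniz, map_add, smul_eq_mul, smul_eq_mul, map_mul, map_mul, map_mul,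
      Derivation.leibniz, smul_eq_mul, smul_eq_mul, hp, h₁]

lemma jd_comm {Φ : Type} {n : ℕ} (i j : Fin n) (P : JR Φ n) : jd i (jd j P) = jd j (jd i P) := by
  have h : ⁅(jd i : Derivation ℝ (JR Φ n) (JR Φ n)), (jd j : Derivation ℝ (JR Φ n) (JR Φ n))⁆ = 0 := by
    apply MvPolynomial.derivation_ext
    intro v
    rw [Derivation.commutator_apply, jd_X, jd_X, jd_X, jd_X]
    simp only [Multiset.cons_swap, Derivation.zero_apply, sub_eq_zero]
  have h2 := congrArg (fun δ : Derivation ℝ (JR Φ n) (JR Φ n) => δ P) h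
  simp only [Derivation.commutator_apply, Derivation.zero_apply] at h2
  exact sub_eq_zero.1 h2

/-- evaluation of jet polynomials at fields in a ring with maps `D i` -/
def jetHom {Φ : Type} {n : ℕ} {A : Type} [CommRing A] [Algebra ℝ A] (D : Fin n → A → A) (φ : Φ → A) :
    JR Φ n →ₐ[ℝ] A := aeval (fun v => mD D v.2 (φ v.1))

lemma jetHom_X {Φ : Type} {n : ℕ} {A : Type} [CommRing A] [Algebra ℝ A] (D : Fin n → A → A)
    (φ : Φ → A) (v : Φ × Multiset (Fin n)) : jetHom D φ (X v) = mD D v.2 (φ v.1) := by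
  unfold jetHom
  rw [aeval_X]

lemma jetHom_jd {Φ : Type} {n : ℕ} {A : Type} [CommRing A] [Algebra ℝ A]
    (D : Fin n → Derivation ℝ A A) (hD : ∀ i j a, D i (D j a) = D j (D i a)) (φ : Φ → A)
    (i : Fin n) (P : JR Φ n) :
    jetHom (fun i => D i) φ (jd i P) = D i (jetHom (fun i => D i) φ P) := by
  refine der_comm_of_X (jd i) (D i) _ (fun v => ?_) P
  rw [jd_X, jetHom_X, jetHom_X, mD_cons _ hD]

/-! ### the fields: metric and function -/

/-- names of the fields: `some s(i,j)` is `g_{ij}`, `none` is `f` -/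
abbrev Fld (n : ℕ) : Type := Option (Sym2 (Fin n))

/-- the fields `g`, `f` -/
def fld {n : ℕ} {A : Type} (g : Fin n → Fin n → A) (f : A) : Fld n → A :=
  fun o => o.elim f (fun s => g (Quot.out s).1 (Quot.out s).2)

lemma fld_none {n : ℕ} {A : Type} (g : Fin n → Fin n → A) (f : A) : fld g f none = f := rfl

lemma fld_some {n : ℕ} {A : Type} (g : Fin n → Fin n → A) (hg : ∀ a b, g a b = g b a) (f : A)
    (a b : Fin n) : fld g f (some s(a, b)) = g a b := by
  have h : s((Quot.out s(a, b)).1, (Quot.out s(a, b)).2) = s(a, b) := by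
    exact Quot.out_eq (s(a, b))
  rw [Sym2.eq_iff] at h
  show g (Quot.out s(a, b)).1 (Quot.out s(a, b)).2 = g a b
  rcases h with ⟨h1, h2⟩ | ⟨h1, h2⟩
  · rw [h1, h2]
  · rw [h1, h2, hg]

/-- the generic metric -/
def gJ {n : ℕ} (a b : Fin n) : JR (Fld n) n := X (some s(a, b), 0)

/-- the generic function -/
def fJ {n : ℕ} : JR (Fld n) n := X (none, 0)

lemma gJ_symm {n : ℕ} (a b : Fin n) : (gJ a b : JR (Fld n) n) = gJ b a := by
  unfold gJ; rw [Sym2.eq_swap]

/-- determinant of the generic metric -/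
def detJ (n : ℕ) : JR (Fld n) n := Matrix.det (Matrix.of gJ)

lemma jetHom_gJ {n : ℕ} {A : Type} [CommRing A] [Algebra ℝ A] (D : Fin n → A → A)
    (g : Fin n → Fin n → A) (hg : ∀ a b, g a b = g b a) (f : A) (a b : Fin n) :
    jetHom D (fld g f) (gJ a b) = g a b := by
  unfold gJ
  rw [jetHom_X, mD_zero, fld_some g hg]

lemma jetHom_fJ {n : ℕ} {A : Type} [CommRing A] [Algebra ℝ A] (D : Fin n → A → A)
    (g : Fin n → Fin n → A) (f : A) :
    jetHom D (fld g f) fJ = f := by
  unfold fJ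
  rw [jetHom_X, mD_zero, fld_none]

lemma jetHom_detJ {n : ℕ} {A : Type} [CommRing A] [Algebra ℝ A] (D : Fin n → A → A)
    (g : Fin n → Fin n → A) (hg : ∀ a b, g a b = g b a) (f : A) :
    jetHom D (fld g f) (detJ n) = Matrix.det (Matrix.of g) := by
  unfold detJ
  rw [AlgHom.map_det]
  congr 1
  ext a b
  simp only [AlgHom.mapMatrix_apply, Matrix.map_apply, Matrix.of_apply]
  exact jetHom_gJ D g hg f a b

/-! ### inverting the determinant -/

/-- jets together with the inverse of the determinant -/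
abbrev JRd (n : ℕ) : Type := MvPolynomial (Option (Fld n × Multiset (Fin n))) ℝ

/-- inclusion of the jets -/
def incl (n : ℕ) : JR (Fld n) n →ₐ[ℝ] JRd n := rename some

/-- the total derivative, with `D_i δ = - δ^2 D_i (det)` for the inverse `δ` of the determinant -/
def jdd {n : ℕ} (i : Fin n) : Derivation ℝ (JRd n) (JRd n) :=
  mkDerivation ℝ (fun o => o.elim (-(X none ^ 2 * incl n (jd i (detJ n))))
    (fun v => X (some (v.1, i ::ₘ v.2))))

lemma jdd_X_none {n : ℕ} (i : Fin n) :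
    jdd i (X none : JRd n) = -(X none ^ 2 * incl n (jd i (detJ n))) := by
  unfold jdd
  rw [mkDerivation_X]
  rfl

lemma jdd_X_some {n : ℕ} (i : Fin n) (v : Fld n × Multiset (Fin n)) :
    jdd i (X (some v) : JRd n) = X (some (v.1, i ::ₘ v.2)) := by
  unfold jdd
  rw [mkDerivation_X]
  rfl

/-- evaluation of `JRd` -/
def jetHomd {n : ℕ} {A : Type} [CommRing A] [Algebra ℝ A] (D : Fin n → A → A) (φ : Fld n → A)
    (δ : A) : JRd n →ₐ[ℝ] A := aeval (fun o => o.elim δ (fun v => mD D v.2 (φ v.1)))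

lemma jetHomd_incl {n : ℕ} {A : Type} [CommRing A] [Algebra ℝ A] (D : Fin n → A → A) (φ : Fld n → A)
    (δ : A) (P : JR (Fld n) n) : jetHomd D φ δ (incl n P) = jetHom D φ P := by
  unfold jetHomd incl jetHom
  rw [aeval_rename]
  rfl

lemma jetHomd_jdd {n : ℕ} {A : Type} [CommRing A] [Algebra ℝ A]
    (D : Fin n → Derivation ℝ A A) (hD : ∀ i j a, D i (D j a) = D j (D i a)) (φ : Fld n → A) (δ : A)
    (hδ : jetHom (fun i => D i) φ (detJ n) * δ = 1)
    (i : Fin n) (P : JRd n) :
    jetHomd (fun i => D i) φ δ (jdd i P) = D i (jetHomd (fun i => D i) φ δ P) := by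
  refine der_comm_of_X (jdd i) (D i) _ (fun o => ?_) P
  rcases o with _ | v
  · rw [jdd_X_none, map_neg, map_mul, map_pow, jetHomd_incl, jetHom_jd D hD]
    have h1 : jetHomd (fun i => D i) φ δ (X none) = δ := by unfold jetHomd; rw [aeval_X]; rfl
    rw [h1]
    have h2 := congrArg (fun x => δ * D i x) hδ
    simp only [Derivation.leibniz, smul_eq_mul, Derivation.map_one_eq_zero] at h2
    linear_combination (D i δ) * hδ - h2
  · rw [jdd_X_some]
    have h1 : ∀ v, jetHomd (fun i => D i) φ δ (X (some v)) = mD (fun i => D i) v.2 (φ v.1) := by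
      intro v; unfold jetHomd; rw [aeval_X]; rfl
    rw [h1, h1, mD_cons _ hD]

/-- the generic metric in `JRd` -/
def gd {n : ℕ} (a b : Fin n) : JRd n := incl n (gJ a b)
/-- the generic inverse metric in `JRd` -/
def gid {n : ℕ} (a b : Fin n) : JRd n := X none * incl n (Matrix.adjugate (Matrix.of gJ) a b)
/-- the generic function in `JRd` -/
def fd {n : ℕ} : JRd n := incl n fJ

/-- clearing denominators -/
lemma exists_clear {σ : Type} (Δ : MvPolynomial σ ℝ) (P : MvPolynomial (Option σ) ℝ) :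
    ∃ (N : ℕ) (p : MvPolynomial σ ℝ), ∀ (A : Type) [CommRing A] [Algebra ℝ A] (φ : σ → A) (δ : A),
      aeval φ Δ * δ = 1 →
      (aeval φ Δ) ^ N * aeval (fun o : Option σ => o.elim δ φ) P = aeval φ p := by
  induction P using MvPolynomial.induction_on with
  | C r =>
    refine ⟨0, C r, fun A _ _ φ δ _ => ?_⟩
    rw [pow_zero, one_mul, aeval_C, aeval_C]
  | add P Q hP hQ =>
    obtain ⟨N₁, p₁, h₁⟩ := hP
    obtain ⟨N₂, p₂, h₂⟩ := hQ
    refine ⟨N₁ + N₂, Δ ^ N₂ * p₁ + Δ ^ N₁ * p₂, fun A _ _ φ δ hδ => ?_⟩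
    rw [map_add, map_add, map_mul, map_mul, map_pow, map_pow, ← h₁ A φ δ hδ, ← h₂ A φ δ hδ]
    ring
  | mul_X P o hP =>
    obtain ⟨N, p, h⟩ := hP
    rcases o with _ | v
    · refine ⟨N + 1, p, fun A _ _ φ δ hδ => ?_⟩
      rw [map_mul, aeval_X, ← h A φ δ hδ]
      show _ * (_ * δ) = _
      rw [pow_succ]
      linear_combination ((aeval φ Δ) ^ N * (aeval (fun o : Option σ => o.elim δ φ)) P) * hδ
    · refine ⟨N, p * X v, fun A _ _ φ δ hδ => ?_⟩
      rw [map_mul, aeval_X, map_mul, aeval_X, ← h A φ δ hδ]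
      show _ * (_ * φ v) = _
      ring

end

end GJMS
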