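import Pool.Agent.GJMS.Nil2
import Pool.Agent.GJMS.EqsK

/-! # Linearised conformal Killing equation -/

open Finset MvPolynomial

namespace GJMS

noncomputable section

variable {n : ℕ}

lemma foldr_addD {A : Type} [CommRing A] [Algebra ℝ A] (D : Fin n → Derivation ℝ A A)
    (l : List (Fin n)) (a b : A) :
    l.foldr (fun i => D i) (a + b) = l.foldr (fun i => D i) a + l.foldr (fun i => D i) b := by
  induction l with
  | nil => rfl
  | cons i l ih => rw [List.foldr_cons, ih, map_add]; rfl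

lemma mD_addD {A : Type} [CommRing A] [Algebra ℝ A] (D : Fin n → Derivation ℝ A A)
    (s : Multiset (Fin n)) (a b : A) :
    mD (fun i => D i) s (a + b) = mD (fun i => D i) s a + mD (fun i => D i) s b := foldr_addD D _ a b

lemma foldr_zeroD {A : Type} [CommRing A] [Algebra ℝ A] (D : Fin n → Derivation ℝ A A)
    (l : List (Fin n)) : l.foldr (fun i => D i) (0 : A) = 0 := by
  induction l with
  | nil => rfl
  | cons i l ih => rw [List.foldr_cons, ih, map_zero]

lemma mD_zeroD {A : Type} [CommRing A] [Algebra ℝ A] (D : Fin n → Derivation ℝ A A)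
    (s : Multiset (Fin n)) : mD (fun i => D i) s (0 : A) = 0 := foldr_zeroD D _

lemma mD_sumD {A : Type} [CommRing A] [Algebra ℝ A] (D : Fin n → Derivation ℝ A A)
    {ι : Type*} (t : Finset ι) (s : Multiset (Fin n)) (a : ι → A) :
    mD (fun i => D i) s (∑ i ∈ t, a i) = ∑ i ∈ t, mD (fun i => D i) s (a i) := by
  classical
  induction t using Finset.induction_on with
  | empty => rw [Finset.sum_empty, Finset.sum_empty, mD_zeroD]
  | insert j t hj ih => rw [Finset.sum_insert hj, Finset.sum_insert hj, mD_addD, ih]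

lemma fld_add {A : Type} [CommRing A] (g g' : Fin n → Fin n → A) (f f' : A) (o : Fld n) :
    fld (fun a b => g a b + g' a b) (f + f') o = fld g f o + fld g' f' o := by
  rcases o with _ | s <;> rfl

lemma foldr_dn_cst {K B : Type} [DecidableEq K] [CommRing B] [Algebra ℝ B]
    (δ : Fin n → Derivation ℝ B B) (ξ : K → Fin n → B) (l : List (Fin n)) (h : B) :
    l.foldr (fun i => Nil.dn δ ξ i) (Nil.cst h) = Nil.cst (l.foldr (fun i => δ i) h) := by
  induction l with
  | nil => rfl
  | cons i l ih => rw [List.foldr_cons, ih, Nil.dn_cst]; rfl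

lemma mD_dn_cst {K B : Type} [DecidableEq K] [CommRing B] [Algebra ℝ B]
    (δ : Fin n → Derivation ℝ B B) (ξ : K → Fin n → B) (s : Multiset (Fin n)) (h : B) :
    mD (fun i => Nil.dn δ ξ i) s (Nil.cst h) = Nil.cst (mD (fun i => δ i) s h) :=
  foldr_dn_cst δ ξ _ h

/-- constants as an algebra homomorphism -/
def cstA (K B : Type) [DecidableEq K] [CommRing B] [Algebra ℝ B] : B →ₐ[ℝ] Nil K B where
  toRingHom := Nil.cst
  commutes' _ := rfl

variable (E : NatOp n) (hE : ConfInf E.toNatFam) (k : ℕ) (hk : ∀ d ∈ E.q.support, k ≤ Finsupp.weight wg d)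

include hE hk in
theorem NatOp.klin {B : Type} [CommRing B] [Algebra ℝ B] (D : Fin n → Derivation ℝ B B)
    (hD : ∀ i j x, D i (D j x) = D j (D i x))
    (Y : Fin n → B) (σ : B) (hCK : ∀ a b, D a (Y b) + D b (Y a) = 2 * σ * dl a b)
    (γ : Fin n → Fin n → B) (hγ : ∀ a b, γ a b = γ b a) (f : B) :
    ∑ v ∈ (E.lc k).vars, jetHom (fun i => D i) (fld γ f) (pderiv v (E.lc k)) *
      mD (fun i => D i) v.2 (fld (fun a b => lieL (fun i => D i) Y γ a b - 2 * σ * γ a b)
        (vf D Y f) v.1)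
      = vf D Y (jetHom (fun i => D i) (fld γ f) (E.lc k))
        + n * σ * jetHom (fun i => D i) (fld γ f) (E.lc k) := by
  set P : Fin n → Derivation ℝ (Nil Unit B) (Nil Unit B) := Nil.dn D (fun _ _ => 0) with hP
  have hPc : ∀ i j x, P i (P j x) = P j (P i x) :=
    fun i j x => Nil.dn_comm D hD _ (fun i j a => map_zero _) i j x
  have hPsg : ∀ i h, P i (Nil.sg () h) = Nil.sg () (D i h) := by
    intro i h; rw [hP, Nil.dn_sg]; simp
  have hPcst : ∀ i h, P i (Nil.cst h) = Nil.cst (D i h) := by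
    intro i h; rw [hP, Nil.dn_cst]
  have hmul : ∀ h h' : B, (Nil.sg () h : Nil Unit B) * Nil.cst h' = Nil.sg () (h * h') := by
    intro h h'; rw [mul_comm, Nil.cst_mul_sg, mul_comm]
  have hmul' : ∀ h h' : B, (Nil.cst h : Nil Unit B) * Nil.sg () h' = Nil.sg () (h * h') :=
    fun h h' => Nil.cst_mul_sg _ _ _
  have hsgsum : ∀ (h : Fin n → B), (∑ c, Nil.sg () (h c) : Nil Unit B) = Nil.sg () (∑ c, h c) :=
    fun h => (Nil.sg_sum _ _ _).symm
  have h1 := E.eqK hE k hk P hPc (Nil.idl ()) (Nil.idl_sq ()) (Nil.idl_dn D _ ())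
    (fun c => Nil.sg () (Y c)) (fun c => Nil.sg_mem_idl _ _) (Nil.sg () σ) (Nil.sg_mem_idl _ _)
    (fun a b => by
      rw [hPsg, hPsg, ← Nil.sg_add, hCK]
      have h2 : (2 : Nil Unit B) = Nil.cst 2 := (map_ofNat Nil.cst 2).symm
      have h3 : (dl a b : Nil Unit B) = Nil.cst (dl a b) := (jetHom_map_dl Nil.cst a b).symm
      rw [h2, h3, hmul', hmul])
    (fun a b => Nil.cst (γ a b)) (fun a b => by rw [hγ]) (Nil.cst f)
  -- rewrite the perturbation
  have hvf : ∀ F, vf P (fun c => Nil.sg () (Y c)) (Nil.cst F) = Nil.sg () (vf D Y F) := by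
    intro F
    rw [vf_apply, vf_apply, ← hsgsum]
    exact Finset.sum_congr rfl fun c _ => by rw [hPcst, hmul]
  have hlie : ∀ a b, lieL (fun i => P i) (fun c => Nil.sg () (Y c)) (fun a b => Nil.cst (γ a b)) a b
      - 2 * Nil.sg () σ * Nil.cst (γ a b)
      = Nil.sg () (lieL (fun i => D i) Y γ a b - 2 * σ * γ a b) := by
    intro a b
    have h2 : (2 : Nil Unit B) = Nil.cst 2 := (map_ofNat Nil.cst 2).symm
    unfold lieL
    rw [h2, hmul', hmul, Nil.sg_sub, ← hsgsum]
    congr 1
    refine Finset.sum_congr rfl fun c _ => ?_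
    simp only []
    rw [hPcst, hPsg, hPsg, hmul, hmul, hmul, Nil.sg_add, Nil.sg_add]
  simp_rw [hlie] at h1
  rw [hvf] at h1
  -- jets
  have hjets : jetHom (fun i => P i) (fld (fun a b => Nil.cst (γ a b)
      + Nil.sg () (lieL (fun i => D i) Y γ a b - 2 * σ * γ a b)) (Nil.cst f + Nil.sg () (vf D Y f)))
      (E.lc k)
      = aeval (fun v => Nil.cst (mD (fun i => D i) v.2 (fld γ f v.1)) +
        Nil.sg () (mD (fun i => D i) v.2 (fld (fun a b => lieL (fun i => D i) Y γ a b - 2 * σ * γ a b)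
        (vf D Y f) v.1))) (E.lc k) := by
    unfold jetHom
    congr 2
    funext v
    rw [fld_add, mD_addD]
    congr 1
    · rw [← fld_comp (fun b => (Nil.cst b : Nil Unit B)) γ f, hP, mD_dn_cst]
    · rw [← fld_comp (fun b => (Nil.sg () b : Nil Unit B)) _ (vf D Y f), hP, Nil.mD_dn_sg]
      simp
  have hJ0 : ∀ p : JR (Fld n) n, jetHom (fun i => P i) (fld (fun a b => Nil.cst (γ a b)) (Nil.cst f)) p
      = Nil.cst (jetHom (fun i => D i) (fld γ f) p) := by
    intro p
    have h2 := jetHom_nat (fun i => D i) (fun i => P i) (cstA Unit B)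
      (fun i a => (hPcst i a).symm) (fld γ f) p
    rw [← fld_comp (fun b => (Nil.cst b : Nil Unit B)) γ f]
    exact h2.symm
  have hJ1 : ∀ p : JR (Fld n) n,
      aeval (fun v => (Nil.cst (mD (fun i => D i) v.2 (fld γ f v.1)) : Nil Unit B)) p
      = Nil.cst (jetHom (fun i => D i) (fld γ f) p) := by
    intro p
    rw [← hJ0 p]
    unfold jetHom
    congr 2
    funext v
    rw [← fld_comp (fun b => (Nil.cst b : Nil Unit B)) γ f, hP, mD_dn_cst]
  rw [hjets, hJ0, taylor _ _ (fun v w => Nil.sg_mul_sg_self _ _ _), hvf] at h1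
  have h2 := congrArg (fun F : Nil Unit B => F.co {()}) h1
  simp only [Nil.co_add, Nil.co_sum] at h2
  rw [hJ1, Nil.co_cst, if_neg (by simp), zero_add, zero_add, Nil.co_sg, if_pos rfl] at h2
  have h3 : ((n : Nil Unit B) * Nil.sg () σ * Nil.cst (jetHom (fun i => D i) (fld γ f) (E.lc k))).co {()}
      = n * σ * jetHom (fun i => D i) (fld γ f) (E.lc k) := by
    have h4 : (n : Nil Unit B) = Nil.cst (n : B) := (map_natCast Nil.cst n).symm
    rw [h4, hmul', hmul, Nil.co_sg, if_pos rfl]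
  rw [h3] at h2
  rw [← h2]
  refine Finset.sum_congr rfl fun v _ => ?_
  rw [hJ1, hmul', Nil.co_sg, if_pos rfl]

end

end GJMS
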