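import Pool.Agent.GJMS.PS

/-! # The leading part of a natural operator at the flat metric -/

open Finset MvPolynomial

namespace GJMS

noncomputable section

variable {n : ℕ}

/-- the flat metric -/
def dl {A : Type} [CommRing A] (a b : Fin n) : A := if a = b then 1 else 0

lemma dl_symm {A : Type} [CommRing A] (a b : Fin n) : (dl a b : A) = dl b a := by
  unfold dl
  by_cases h : a = b
  · rw [if_pos h, if_pos h.symm]
  · rw [if_neg h, if_neg (Ne.symm h)]

/-- weight counting the metric jets -/
def wg (v : Fld n × Multiset (Fin n)) : ℕ := v.1.elim 0 (fun _ => 1)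
/-- weight counting the function jets -/
def wf (v : Fld n × Multiset (Fin n)) : ℕ := v.1.elim 1 (fun _ => 0)

/-- the polynomial of a natural operator, shifted to the flat metric -/
def NatOp.q (E : NatOp n) : JR (Fld n) n :=
  jetHom (fun i => jd i) (fld (fun a b => dl a b + gJ a b) fJ) E.p

lemma jetHom_map_dl {A B : Type} [CommRing A] [CommRing B] (φ : A →+* B) (a b : Fin n) :
    φ (dl a b) = dl a b := by
  unfold dl
  split_ifs <;> simp

lemma jetHom_shift {A : Type} [CommRing A] [Algebra ℝ A] (D : Fin n → Derivation ℝ A A)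
    (hD : ∀ i j x, D i (D j x) = D j (D i x)) (γ : Fin n → Fin n → A) (hγ : ∀ a b, γ a b = γ b a)
    (f : A) (e : Fin n → Fin n → JR (Fld n) n)
    (he : ∀ a b, e a b = e b a) (P : JR (Fld n) n) :
    jetHom (fun i => D i) (fld γ f) (jetHom (fun i => jd i) (fld (fun a b => e a b + gJ a b) fJ) P)
      = jetHom (fun i => D i)
        (fld (fun a b => jetHom (fun i => D i) (fld γ f) (e a b) + γ a b) f) P := by
  rw [jetHom_comp D hD]
  congr 2
  funext o
  rcases o with _ | s
  · rw [fld_none, fld_none, jetHom_fJ]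
  · induction s using Sym2.ind with
    | _ a b =>
      rw [fld_some _ (fun a b => by rw [he, gJ_symm]), fld_some _ (fun a b => by rw [he, hγ]),
        map_add, jetHom_gJ _ γ hγ]

lemma NatOp.q_eval (E : NatOp n) {A : Type} [CommRing A] [Algebra ℝ A] (D : Fin n → Derivation ℝ A A)
    (hD : ∀ i j x, D i (D j x) = D j (D i x)) (γ : Fin n → Fin n → A) (hγ : ∀ a b, γ a b = γ b a)
    (f : A) :
    jetHom (fun i => D i) (fld γ f) E.q
      = jetHom (fun i => D i) (fld (fun a b => dl a b + γ a b) f) E.p := by
  unfold NatOp.q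
  rw [jetHom_shift D hD γ hγ f dl dl_symm]
  have h : ∀ a b : Fin n, jetHom (fun i => D i) (fld γ f) (dl a b) = dl a b := by
    intro a b
    exact jetHom_map_dl (jetHom (fun i => D i) (fld γ f) : JR (Fld n) n →ₐ[ℝ] A).toRingHom a b
  simp_rw [h]

lemma foldr_jd {Φ : Type} (o : Φ) (l : List (Fin n)) :
    l.foldr (fun i => (jd i : JR Φ n → JR Φ n)) (X (o, 0)) = X (o, (l : Multiset (Fin n))) := by
  induction l with
  | nil => rfl
  | cons i l ih => rw [List.foldr_cons, ih, jd_X]; rfl

lemma jetHom_id {Φ : Type} (P : JR Φ n) :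
    jetHom (fun i => jd i) (fun o => (X (o, 0) : JR Φ n)) P = P := by
  induction P using MvPolynomial.induction_on with
  | C r => rw [← MvPolynomial.algebraMap_eq, AlgHom.commutes]
  | add p q hp hq => rw [map_add, hp, hq]
  | mul_X p v hp =>
    rw [map_mul, hp, jetHom_X]
    unfold mD
    rw [foldr_jd, Multiset.coe_toList]

lemma NatOp.p_eq_zero (E : NatOp n) (h : E.q = 0) : E.p = 0 := by
  have h2 := E.q_eval (fun i => jd i) jd_comm (fun a b => gJ a b - dl a b)
    (fun a b => by rw [gJ_symm, dl_symm]) (fJ (n := n))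
  rw [h, map_zero] at h2
  have h3 : (fld (fun a b => dl a b + (gJ a b - dl a b)) (fJ (n := n)))
      = (fun o => (X (o, 0) : JR (Fld n) n)) := by
    funext o
    rcases o with _ | s
    · rfl
    · induction s using Sym2.ind with
      | _ a b =>
        rw [fld_some _ (fun a b => by rw [gJ_symm, dl_symm])]
        unfold gJ
        ring
  rw [h3, jetHom_id] at h2
  exact h2.symm

lemma foldr_smul_const {A : Type} [CommRing A] [Algebra ℝ A] (D : Fin n → Derivation ℝ A A) (t : A)
    (ht : ∀ i, D i t = 0) (l : List (Fin n)) (a : A) :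
    l.foldr (fun i => D i) (t * a) = t * l.foldr (fun i => D i) a := by
  induction l with
  | nil => rfl
  | cons i l ih =>
    rw [List.foldr_cons, ih, Derivation.leibniz, ht]
    simp

lemma mD_smul_const {A : Type} [CommRing A] [Algebra ℝ A] (D : Fin n → Derivation ℝ A A) (t : A)
    (ht : ∀ i, D i t = 0) (s : Multiset (Fin n)) (a : A) :
    mD (fun i => D i) s (t * a) = t * mD (fun i => D i) s a := foldr_smul_const D t ht _ a

/-- scaling of the metric perturbation -/
lemma jetHom_scale {A : Type} [CommRing A] [Algebra ℝ A] (D : Fin n → Derivation ℝ A A) (t : A)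
    (ht : ∀ i, D i t = 0) (γ : Fin n → Fin n → A) (f : A) (P : JR (Fld n) n) :
    jetHom (fun i => D i) (fld (fun a b => t * γ a b) f) P
      = aeval (fun v => t ^ wg v * mD (fun i => D i) v.2 (fld γ f v.1)) P := by
  unfold jetHom
  congr 2
  funext v
  rcases v with ⟨_ | s, m⟩
  · show mD _ m f = t ^ 0 * mD _ m f
    rw [pow_zero, one_mul]
  · show mD _ m (t * _) = t ^ 1 * mD _ m _
    rw [pow_one, mD_smul_const D t ht]
    rfl

/-- the matrix `1 + X γ` over power series is invertible -/
lemma exists_gi {A : Type} [CommRing A] (γ : Fin n → Fin n → PowerSeries A) :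
    ∃ gi : Fin n → Fin n → PowerSeries A,
      ∀ a b, ∑ c, gi a c * (dl b c + PowerSeries.X * γ b c) = if a = b then 1 else 0 := by
  set M : Matrix (Fin n) (Fin n) (PowerSeries A) :=
    Matrix.of (fun a b => dl a b + PowerSeries.X * γ a b) with hM
  have hdet : IsUnit M.det := by
    rw [PowerSeries.isUnit_iff_constantCoeff]
    have h1 : PowerSeries.constantCoeff M.det = 1 := by
      rw [RingHom.map_det]
      have h2 : (PowerSeries.constantCoeff (R := A)).mapMatrix M = 1 := by
        ext a b
        rw [RingHom.mapMatrix_apply, Matrix.map_apply, hM, Matrix.of_apply, map_add, map_mul,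
          PowerSeries.constantCoeff_X, zero_mul, add_zero, jetHom_map_dl, Matrix.one_apply]
        rfl
      rw [h2, Matrix.det_one]
    rw [h1]
    exact isUnit_one
  refine ⟨fun a b => (M.transpose)⁻¹ a b, fun a b => ?_⟩
  have h1 : M.transpose⁻¹ * M.transpose = 1 :=
    Matrix.nonsing_inv_mul _ (by rw [Matrix.det_transpose]; exact hdet)
  have h2 := congrFun (congrFun h1 a) b
  rw [Matrix.mul_apply, Matrix.one_apply] at h2
  rw [← h2]
  exact Finset.sum_congr rfl fun c _ => by rw [Matrix.transpose_apply, hM, Matrix.of_apply]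

/-- the leading part -/
def NatOp.lc (E : NatOp n) (k : ℕ) : JR (Fld n) n := weightedHomogeneousComponent wg k E.q

theorem NatOp.lead (E : NatOp n) (k : ℕ) (hk : ∀ d ∈ E.q.support, k ≤ Finsupp.weight wg d)
    {A : Type} [CommRing A] [Algebra ℝ A] (D : Fin n → Derivation ℝ A A)
    (hD : ∀ i j x, D i (D j x) = D j (D i x)) (γ : Fin n → Fin n → PowerSeries A)
    (hγ : ∀ a b, γ a b = γ b a) (g gi : Fin n → Fin n → PowerSeries A)
    (hg : ∀ a b, g a b = dl a b + PowerSeries.X * γ a b)
    (hgi : ∀ a b, ∑ c, gi a c * g b c = if a = b then 1 else 0)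
    (f : PowerSeries A) :
    ∃ H : PowerSeries A, E.ev (PowerSeries A) (fun i => psD (D i)) g gi f = PowerSeries.X ^ k * H ∧
      PowerSeries.constantCoeff H = jetHom (fun i => D i)
        (fld (fun a b => PowerSeries.constantCoeff (γ a b)) (PowerSeries.constantCoeff f)) (E.lc k) := by
  have hgs : ∀ a b, g a b = g b a := by
    intro a b; rw [hg, hg, dl_symm, hγ]
  have h1 := E.ev_p (fun i => psD (D i)) (psD_comm D hD) g gi hgs hgi f
  have h2 := E.q_eval (fun i => psD (D i)) (psD_comm D hD) (fun a b => PowerSeries.X * γ a b)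
    (fun a b => by rw [hγ]) f
  have hg' : g = fun a b => dl a b + PowerSeries.X * γ a b := by
    funext a b; exact hg a b
  rw [← hg', jetHom_scale _ _ (fun i => psD_X (D i))] at h2
  obtain ⟨W, hW⟩ := lead_eval wg E.q k hk
    (fun v => mD (fun i => psD (D i)) v.2 (fld γ f v.1)) (PowerSeries.X : PowerSeries A)
  have hd := (adj_eq g gi hgs hgi).1
  refine ⟨Matrix.det (Matrix.of gi) ^ E.N *
    (jetHom (fun i => psD (D i)) (fld γ f) (E.lc k) + PowerSeries.X * W), ?_, ?_⟩
  · have h3 : Matrix.det (Matrix.of gi) ^ E.N * Matrix.det (Matrix.of g) ^ E.N = 1 := by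
      rw [← mul_pow, mul_comm, hd, one_pow]
    calc E.ev (PowerSeries A) (fun i => psD (D i)) g gi f
        = Matrix.det (Matrix.of gi) ^ E.N * (Matrix.det (Matrix.of g) ^ E.N *
          E.ev (PowerSeries A) (fun i => psD (D i)) g gi f) := by rw [← mul_assoc, h3, one_mul]
      _ = _ := by
          rw [h1, ← h2, hW]
          unfold NatOp.lc jetHom
          ring
  · rw [map_mul, map_add, map_mul, PowerSeries.constantCoeff_X, zero_mul, add_zero, map_pow]
    have h4 : PowerSeries.constantCoeff (Matrix.det (Matrix.of g)) = 1 := by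
      rw [RingHom.map_det]
      have h5 : (PowerSeries.constantCoeff (R := A)).mapMatrix (Matrix.of g) = 1 := by
        ext a b
        rw [RingHom.mapMatrix_apply, Matrix.map_apply, Matrix.of_apply, hg, map_add, map_mul,
          PowerSeries.constantCoeff_X, zero_mul, add_zero, jetHom_map_dl, Matrix.one_apply]
        rfl
      rw [h5, Matrix.det_one]
    have h6 : PowerSeries.constantCoeff (Matrix.det (Matrix.of gi)) = 1 := by
      have := congrArg PowerSeries.constantCoeff hd
      rwa [map_mul, h4, one_mul, map_one] at this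
    rw [h6, one_pow, one_mul]
    have h7 := jetHom_nat (fun i => psD (D i)) (fun i => D i) (ccA A)
      (fun i a => cc_psD (D i) a) (fld γ f) (E.lc k)
    rw [ccA_apply] at h7
    rw [h7]
    congr 2
    exact fld_comp _ _ _

end

end GJMS
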