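import Pool.Agent.GJMS.Defs

/-! # Infinitesimal covariance under diffeomorphisms -/

open Finset

namespace GJMS

noncomputable section

variable {n : ℕ} {A : Type*} [CommRing A] [Algebra ℝ A]

/-- Lie derivative of a covariant tensor -/
def lie (d : Fin n → A → A) (X : Fin n → A) {r : ℕ} (T : (Fin r → Fin n) → A)
    (w : Fin r → Fin n) : A :=
  ∑ c, X c * d c (T w) + ∑ s, ∑ c, d (w s) (X c) * T (Function.update w s c)

/-- Lie derivative of a connection -/
def lieG (d : Fin n → A → A) (X : Fin n → A) (Γ : Fin n → Fin n → Fin n → A)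
    (c a b : Fin n) : A :=
  ∑ e, (X e * d e (Γ c a b) - d e (X c) * Γ e a b + d a (X e) * Γ c e b + d b (X e) * Γ c a e)
    + d a (d b (X c))

omit [Algebra ℝ A] in
lemma dbl {r : ℕ} (P Q : Fin n → Fin n → A) (T : (Fin r → Fin n) → A) (v : Fin r → Fin n) :
    (∑ s, ∑ c, P c (v s) * ∑ t, ∑ e, Q ((Function.update v s c) t) e *
        T (Function.update (Function.update v s c) t e))
      + ∑ s, ∑ c, ∑ e, Q (v s) c * P e c * T (Function.update v s e)
    = (∑ s, ∑ c, Q (v s) c * ∑ t, ∑ e, P e ((Function.update v s c) t) *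
        T (Function.update (Function.update v s c) t e))
      + ∑ s, ∑ c, ∑ e, P c (v s) * Q c e * T (Function.update v s e) := by
  have h1 : ∀ s c, (∑ t, ∑ e, Q ((Function.update v s c) t) e *
        T (Function.update (Function.update v s c) t e)) =
      (∑ e, Q c e * T (Function.update v s e)) +
      ∑ t ∈ univ.erase s, ∑ e, Q (v t) e * T (Function.update (Function.update v s c) t e) := by
    intro s c
    rw [← Finset.add_sum_erase univ _ (Finset.mem_univ s)]
    congr 1
    · simp
    · refine Finset.sum_congr rfl fun t ht => Finset.sum_congr rfl fun e _ => ?_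
      rw [Function.update_of_ne (Finset.ne_of_mem_erase ht)]
  have h2 : ∀ s c, (∑ t, ∑ e, P e ((Function.update v s c) t) *
        T (Function.update (Function.update v s c) t e)) =
      (∑ e, P e c * T (Function.update v s e)) +
      ∑ t ∈ univ.erase s, ∑ e, P e (v t) * T (Function.update (Function.update v s c) t e) := by
    intro s c
    rw [← Finset.add_sum_erase univ _ (Finset.mem_univ s)]
    congr 1
    · simp
    · refine Finset.sum_congr rfl fun t ht => Finset.sum_congr rfl fun e _ => ?_
      rw [Function.update_of_ne (Finset.ne_of_mem_erase ht)]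
  simp_rw [h1, h2, mul_add, Finset.sum_add_distrib]
  have h3 : (∑ s, ∑ c, P c (v s) *
        ∑ t ∈ univ.erase s, ∑ e, Q (v t) e * T (Function.update (Function.update v s c) t e))
      = ∑ s, ∑ c, Q (v s) c *
        ∑ t ∈ univ.erase s, ∑ e, P e (v t) * T (Function.update (Function.update v s c) t e) := by
    have e1 : ∀ (F G : Fin r → Fin n → A), (∑ s, ∑ c, F s c *
        ∑ t ∈ univ.erase s, ∑ e, G t e * T (Function.update (Function.update v s c) t e))
        = ∑ s, ∑ t, if t ≠ s then (∑ c, ∑ e, F s c * G t e *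
          T (Function.update (Function.update v s c) t e)) else 0 := by
      intro F G
      refine Finset.sum_congr rfl fun s _ => ?_
      rw [← Finset.sum_filter]
      have : (univ.filter fun t => t ≠ s) = univ.erase s := by
        ext t; simp
      rw [this, Finset.sum_comm' (s := univ.erase s) (t := fun _ => (univ : Finset (Fin n)))
        (t' := univ) (s' := fun _ => univ.erase s)]
      · refine Finset.sum_congr rfl fun c _ => ?_
        rw [Finset.mul_sum]
        refine Finset.sum_congr rfl fun t _ => ?_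
        rw [Finset.mul_sum]
        refine Finset.sum_congr rfl fun e _ => ?_
        ring
      · intro x y; simp
    rw [e1 (fun s c => P c (v s)) (fun t e => Q (v t) e),
      e1 (fun s c => Q (v s) c) (fun t e => P e (v t)), Finset.sum_comm]
    refine Finset.sum_congr rfl fun s _ => Finset.sum_congr rfl fun t _ => ?_
    by_cases hst : s = t
    · subst hst; simp
    · have hts : t ≠ s := fun h => hst h.symm
      rw [if_pos hst, if_pos hts, Finset.sum_comm]
      refine Finset.sum_congr rfl fun c _ => Finset.sum_congr rfl fun e _ => ?_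
      rw [Function.update_comm hts]
      ring
  rw [h3]
  have h4 : ∀ (F : Fin r → Fin n → A) (G : Fin n → Fin n → A),
      (∑ s, ∑ c, F s c * ∑ e, G c e * T (Function.update v s e))
      = ∑ s, ∑ c, ∑ e, F s c * G c e * T (Function.update v s e) := by
    intro F G
    refine Finset.sum_congr rfl fun s _ => Finset.sum_congr rfl fun c _ => ?_
    rw [Finset.mul_sum]
    exact Finset.sum_congr rfl fun e _ => by ring
  rw [h4 (fun s c => P c (v s)) Q, h4 (fun s c => Q (v s) c) (fun c e => P e c)]
  ring

section cov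

variable (D : Fin n → Derivation ℝ A A) (hD : ∀ i j x, D i (D j x) = D j (D i x))
  (N : Ideal A) (hN : ∀ x ∈ N, ∀ y ∈ N, x * y = 0) (hDN : ∀ i, ∀ x ∈ N, D i x ∈ N)
  (X : Fin n → A) (hX : ∀ c, X c ∈ N)

include hDN hX in
lemma lie_mem {r : ℕ} (T : (Fin r → Fin n) → A) (w : Fin r → Fin n) :
    lie (fun i => D i) X T w ∈ N := by
  unfold lie
  refine N.add_mem (N.sum_mem fun c _ => N.mul_mem_right _ (hX c))
    (N.sum_mem fun s _ => N.sum_mem fun c _ => N.mul_mem_right _ (hDN _ _ (hX c)))

include hDN hX in
lemma lieG_mem (Γ : Fin n → Fin n → Fin n → A) (c a b : Fin n) :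
    lieG (fun i => D i) X Γ c a b ∈ N := by
  unfold lieG
  refine N.add_mem (N.sum_mem fun e _ => N.add_mem (N.add_mem (N.sub_mem ?_ ?_) ?_) ?_) ?_
  · exact N.mul_mem_right _ (hX e)
  · exact N.mul_mem_right _ (hDN _ _ (hX c))
  · exact N.mul_mem_right _ (hDN _ _ (hX e))
  · exact N.mul_mem_right _ (hDN _ _ (hX e))
  · exact hDN _ _ (hDN _ _ (hX c))

include hD hN hDN hX in
lemma nab_lie {r : ℕ} (Γ : Fin n → Fin n → Fin n → A) (T : (Fin r → Fin n) → A)
    (w : Fin (r + 1) → Fin n) :
    nab (fun i => D i) (fun c a b => Γ c a b + lieG (fun i => D i) X Γ c a b)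
      (fun v => T v + lie (fun i => D i) X T v) w
    = nab (fun i => D i) Γ T w + lie (fun i => D i) X (nab (fun i => D i) Γ T) w := by
  set a := w 0 with ha
  set v := Fin.tail w with hv
  have hw : ∀ s : Fin r, w s.succ = v s := fun s => rfl
  -- left hand side
  have hL : nab (fun i => D i) (fun c a b => Γ c a b + lieG (fun i => D i) X Γ c a b)
      (fun v => T v + lie (fun i => D i) X T v) w
      = D a (T v) + D a (lie (fun i => D i) X T v)
        - (∑ s, ∑ c, Γ c a (v s) * T (Function.update v s c))
        - (∑ s, ∑ c, Γ c a (v s) * lie (fun i => D i) X T (Function.update v s c))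
        - ∑ s, ∑ c, lieG (fun i => D i) X Γ c a (v s) * T (Function.update v s c) := by
    unfold nab
    simp only [← ha, ← hv, hw, map_add]
    have : ∀ s c, (Γ c a (v s) + lieG (fun i => D i) X Γ c a (v s)) *
        (T (Function.update v s c) + lie (fun i => D i) X T (Function.update v s c))
        = Γ c a (v s) * T (Function.update v s c)
          + Γ c a (v s) * lie (fun i => D i) X T (Function.update v s c)
          + lieG (fun i => D i) X Γ c a (v s) * T (Function.update v s c) := by
      intro s c
      have := hN _ (lieG_mem D N hDN X hX Γ c a (v s)) _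
        (lie_mem D N hDN X hX T (Function.update v s c))
      linear_combination this
    simp only [this, Finset.sum_add_distrib]
    ring
  have hlie : D a (lie (fun i => D i) X T v)
      = (∑ c, D a (X c) * D c (T v)) + (∑ c, X c * D a (D c (T v)))
        + (∑ s, ∑ c, D a (D (v s) (X c)) * T (Function.update v s c))
        + ∑ s, ∑ c, D (v s) (X c) * D a (T (Function.update v s c)) := by
    unfold lie
    simp only [map_add, map_sum, Derivation.leibniz, smul_eq_mul, Finset.sum_add_distrib]
    have e1 : ∀ c, D c (T v) * D a (X c) = D a (X c) * D c (T v) := fun c => mul_comm _ _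
    have e2 : ∀ s c, T (Function.update v s c) * D a (D (v s) (X c))
      = D a (D (v s) (X c)) * T (Function.update v s c) := fun s c => mul_comm _ _
    simp only [e1, e2]
    ring
  have h5 : (∑ s, ∑ c, Γ c a (v s) * lie (fun i => D i) X T (Function.update v s c))
      = (∑ s, ∑ c, ∑ e, X e * (Γ c a (v s) * D e (T (Function.update v s c))))
       + ∑ s, ∑ c, Γ c a (v s) * ∑ t, ∑ e, D ((Function.update v s c) t) (X e) *
        T (Function.update (Function.update v s c) t e) := by
    unfold lie
    simp only [mul_add, Finset.sum_add_distrib]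
    congr 1
    refine Finset.sum_congr rfl fun s _ => Finset.sum_congr rfl fun c _ => ?_
    rw [Finset.mul_sum]
    exact Finset.sum_congr rfl fun e _ => by ring
  have h6 : (∑ s, ∑ c, lieG (fun i => D i) X Γ c a (v s) * T (Function.update v s c))
      = (∑ s, ∑ c, ∑ e, X e * (D e (Γ c a (v s)) * T (Function.update v s c)))
        - (∑ s, ∑ c, ∑ e, Γ c a (v s) * D c (X e) * T (Function.update v s e))
        + (∑ s, ∑ c, ∑ e, D a (X e) * (Γ c e (v s) * T (Function.update v s c)))
        + (∑ s, ∑ c, ∑ e, D (v s) (X c) * Γ e a c * T (Function.update v s e))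
        + ∑ s, ∑ c, D a (D (v s) (X c)) * T (Function.update v s c) := by
    have e3 : (∑ s, ∑ c, ∑ e, Γ c a (v s) * D c (X e) * T (Function.update v s e))
      = ∑ s, ∑ c, ∑ e, D e (X c) * Γ e a (v s) * T (Function.update v s c) := by
      refine Finset.sum_congr rfl fun s _ => ?_
      rw [Finset.sum_comm]
      exact Finset.sum_congr rfl fun c _ => Finset.sum_congr rfl fun e _ => by ring
    have e4 : (∑ s, ∑ c, ∑ e, D (v s) (X c) * Γ e a c * T (Function.update v s e))
      = ∑ s, ∑ c, ∑ e, D (v s) (X e) * Γ c a e * T (Function.update v s c) := by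
      refine Finset.sum_congr rfl fun s _ => ?_
      rw [Finset.sum_comm]
    rw [e3, e4]
    simp only [← Finset.sum_add_distrib, ← Finset.sum_sub_distrib]
    refine Finset.sum_congr rfl fun s _ => Finset.sum_congr rfl fun c _ => ?_
    unfold lieG
    rw [add_mul, Finset.sum_mul]
    congr 1
    exact Finset.sum_congr rfl fun e _ => by ring
  -- right hand side
  have hR : lie (fun i => D i) X (nab (fun i => D i) Γ T) w
      = (∑ c, X c * D a (D c (T v)))
        - (∑ s, ∑ c, ∑ e, X e * (D e (Γ c a (v s)) * T (Function.update v s c)))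
        - (∑ s, ∑ c, ∑ e, X e * (Γ c a (v s) * D e (T (Function.update v s c))))
        + (∑ c, D a (X c) * D c (T v))
        - (∑ s, ∑ c, ∑ e, D a (X e) * (Γ c e (v s) * T (Function.update v s c)))
        + (∑ s, ∑ c, D (v s) (X c) * D a (T (Function.update v s c)))
        - ∑ s, ∑ c, D (v s) (X c) * ∑ t, ∑ e, Γ e a ((Function.update v s c) t) *
          T (Function.update (Function.update v s c) t e) := by
    unfold lie
    rw [Fin.sum_univ_succ]
    have r1 : (∑ c, X c * (fun i => D i) c (nab (fun i => D i) Γ T w))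
        = (∑ c, X c * D a (D c (T v)))
        - (∑ s, ∑ c, ∑ e, X e * (D e (Γ c a (v s)) * T (Function.update v s c)))
        - (∑ s, ∑ c, ∑ e, X e * (Γ c a (v s) * D e (T (Function.update v s c)))) := by
      have : ∀ c, X c * (fun i => D i) c (nab (fun i => D i) Γ T w)
        = X c * D a (D c (T v)) - (∑ s, ∑ e, X c * (D c (Γ e a (v s)) * T (Function.update v s e)))
         - (∑ s, ∑ e, X c * (Γ e a (v s) * D c (T (Function.update v s e)))) := by
        intro c
        simp only [nab, ← ha, ← hv, hw, map_sub, map_sum, Derivation.leibniz, smul_eq_mul,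
          ← Finset.mul_sum, Finset.sum_add_distrib, mul_sub, mul_add]
        rw [hD c a]
        have e2 : ∀ s c_1, T (Function.update v s c_1) * D c (Γ c_1 a (v s))
          = D c (Γ c_1 a (v s)) * T (Function.update v s c_1) := fun s c => mul_comm _ _
        simp only [e2]
        ring
      simp only [this, Finset.sum_sub_distrib]
      congr 1
      · congr 1
        rw [Finset.sum_comm]
        refine Finset.sum_congr rfl fun s _ => ?_
        rw [Finset.sum_comm]
      · rw [Finset.sum_comm]
        refine Finset.sum_congr rfl fun s _ => ?_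
        rw [Finset.sum_comm]
    have r2 : (∑ c, (fun i => D i) (w 0) (X c) * nab (fun i => D i) Γ T (Function.update w 0 c))
        = (∑ c, D a (X c) * D c (T v))
        - (∑ s, ∑ c, ∑ e, D a (X e) * (Γ c e (v s) * T (Function.update v s c))) := by
      have : ∀ c, (fun i => D i) (w 0) (X c) * nab (fun i => D i) Γ T (Function.update w 0 c)
        = D a (X c) * D c (T v)
          - ∑ s, ∑ e, D a (X c) * (Γ e c (v s) * T (Function.update v s e)) := by
        intro c
        simp only [nab, ← ha, ← hv, Fin.tail_update_zero, Function.update_self,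
          Function.update_of_ne (Fin.succ_ne_zero _), hw, ← Finset.mul_sum, mul_sub]
      simp only [this, Finset.sum_sub_distrib]
      congr 1
      rw [Finset.sum_comm]
      refine Finset.sum_congr rfl fun s _ => ?_
      rw [Finset.sum_comm]
    have r3 : (∑ s : Fin r, ∑ c, (fun i => D i) (w s.succ) (X c) *
          nab (fun i => D i) Γ T (Function.update w s.succ c))
        = (∑ s, ∑ c, D (v s) (X c) * D a (T (Function.update v s c)))
        - ∑ s, ∑ c, D (v s) (X c) * ∑ t, ∑ e, Γ e a ((Function.update v s c) t) *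
          T (Function.update (Function.update v s c) t e) := by
      simp only [← Finset.sum_sub_distrib]
      refine Finset.sum_congr rfl fun s _ => Finset.sum_congr rfl fun c _ => ?_
      simp only [nab, hw, Fin.tail_update_succ, ← hv,
        Function.update_of_ne (Fin.succ_ne_zero s).symm, ← ha, mul_sub]
      congr 2
      refine Finset.sum_congr rfl fun t _ => Finset.sum_congr rfl fun e _ => ?_
      congr 2
      by_cases hts : t = s
      · subst hts; simp
      · rw [Function.update_of_ne hts, Function.update_of_ne (fun h => hts (Fin.succ_injective _ h)),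
          hw]
    rw [r1, r2, r3]
    ring
  rw [hL, hlie, h5, h6, hR]
  have hd := dbl (fun c b => Γ c a b) (fun b e => D b (X e)) T v
  have hn : nab (fun i => D i) Γ T w = D a (T v) - ∑ s, ∑ c, Γ c a (v s) * T (Function.update v s c)
    := rfl
  rw [hn]
  linear_combination -hd

end cov

/-- Lie derivative of a two-index covariant object -/
def lieL (d : Fin n → A → A) (X : Fin n → A) (g : Fin n → Fin n → A) (a b : Fin n) : A :=
  ∑ c, (X c * d c (g a b) + d a (X c) * g c b + d b (X c) * g a c)

/-- Lie derivative of a two-index contravariant object -/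
def lieU (d : Fin n → A → A) (X : Fin n → A) (g : Fin n → Fin n → A) (a b : Fin n) : A :=
  ∑ c, (X c * d c (g a b) - d c (X a) * g c b - d c (X b) * g a c)

section cov2

variable (D : Fin n → Derivation ℝ A A) (hD : ∀ i j x, D i (D j x) = D j (D i x))
  (N : Ideal A) (hN : ∀ x ∈ N, ∀ y ∈ N, x * y = 0) (hDN : ∀ i, ∀ x ∈ N, D i x ∈ N)
  (X : Fin n → A) (hX : ∀ c, X c ∈ N)

include hDN hX in
lemma lieL_mem (g : Fin n → Fin n → A) (a b : Fin n) : lieL (fun i => D i) X g a b ∈ N := by
  unfold lieL
  refine N.sum_mem fun c _ => N.add_mem (N.add_mem ?_ ?_) ?_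
  · exact N.mul_mem_right _ (hX c)
  · exact N.mul_mem_right _ (hDN _ _ (hX c))
  · exact N.mul_mem_right _ (hDN _ _ (hX c))

include hDN hX in
lemma lieU_mem (g : Fin n → Fin n → A) (a b : Fin n) : lieU (fun i => D i) X g a b ∈ N := by
  unfold lieU
  refine N.sum_mem fun c _ => N.sub_mem (N.sub_mem ?_ ?_) ?_
  · exact N.mul_mem_right _ (hX c)
  · exact N.mul_mem_right _ (hDN _ _ (hX _))
  · exact N.mul_mem_right _ (hDN _ _ (hX _))

/-- the lower Christoffel symbols (times 2) -/
def chL (d : Fin n → A → A) (g : Fin n → Fin n → A) (e a b : Fin n) : A :=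
  d a (g b e) + d b (g a e) - d e (g a b)

include hD in
lemma chL_lie (g : Fin n → Fin n → A) (hg : ∀ a b, g a b = g b a) (e a b : Fin n) :
    chL (fun i => D i) (fun a b => g a b + lieL (fun i => D i) X g a b) e a b
    = chL (fun i => D i) g e a b
      + ∑ c, (X c * D c (chL (fun i => D i) g e a b) + D a (X c) * chL (fun i => D i) g e c b
        + D b (X c) * chL (fun i => D i) g e a c + D e (X c) * chL (fun i => D i) g c a b
        + 2 * (g c e * D a (D b (X c)))) := by
  unfold chL lieL
  simp only [map_add, map_sum, map_sub, Derivation.leibniz, smul_eq_mul]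
  rw [show ∀ x y z u v w t : A, (x + y + (u + v) - (w + t) = x + u - w + z ↔ y + v - t = z) from
    fun x y z u v w t => by constructor <;> intro h <;> linear_combination h]
  rw [← Finset.sum_add_distrib, ← Finset.sum_sub_distrib]
  refine Finset.sum_congr rfl fun c _ => ?_
  rw [hD c a (g b e), hD c b (g a e), hD c e (g a b), hg b c,
    hD b a (X c), hD e a (X c), hD e b (X c)]
  ring

lemma half_two (x : A) : (1 / 2 : ℝ) • (2 * x) = x := by
  rw [two_mul, smul_add, ← add_smul]; norm_num

include hD hN hDN hX in
lemma chr_lie (g gi : Fin n → Fin n → A) (hg : ∀ a b, g a b = g b a)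
    (hgi : ∀ a b, ∑ c, gi a c * g b c = if a = b then 1 else 0) (c a b : Fin n) :
    chr (fun i => D i) (fun a b => g a b + lieL (fun i => D i) X g a b)
      (fun a b => gi a b + lieU (fun i => D i) X gi a b) c a b
    = chr (fun i => D i) g gi c a b + lieG (fun i => D i) X (chr (fun i => D i) g gi) c a b := by
  have key : ∀ (g gi : Fin n → Fin n → A), chr (fun i => D i) g gi
      = fun c a b => (1 / 2 : ℝ) • ∑ e, gi c e * chL (fun i => D i) g e a b := fun g gi => rfl
  rw [key, key g gi]
  simp only [lieG, Derivation.map_smul, map_sum, Derivation.leibniz, smul_eq_mul]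
  simp_rw [chL_lie D hD X g hg]
  set L := chL (fun i => D i) g with hL
  have e1 : ∀ e, (gi c e + lieU (fun i => D i) X gi c e) *
      (L e a b + ∑ f, (X f * D f (L e a b) + D a (X f) * L e f b
        + D b (X f) * L e a f + D e (X f) * L f a b + 2 * (g f e * D a (D b (X f)))))
      = gi c e * L e a b + gi c e * (∑ f, (X f * D f (L e a b) + D a (X f) * L e f b
        + D b (X f) * L e a f + D e (X f) * L f a b + 2 * (g f e * D a (D b (X f)))))
        + lieU (fun i => D i) X gi c e * L e a b := by
    intro e
    have hm : (∑ f, (X f * D f (L e a b) + D a (X f) * L e f b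
        + D b (X f) * L e a f + D e (X f) * L f a b + 2 * (g f e * D a (D b (X f))))) ∈ N := by
      refine N.sum_mem fun f _ => N.add_mem (N.add_mem (N.add_mem (N.add_mem ?_ ?_) ?_) ?_) ?_
      · exact N.mul_mem_right _ (hX f)
      · exact N.mul_mem_right _ (hDN _ _ (hX f))
      · exact N.mul_mem_right _ (hDN _ _ (hX f))
      · exact N.mul_mem_right _ (hDN _ _ (hX f))
      · exact N.mul_mem_left _ (N.mul_mem_left _ (hDN _ _ (hDN _ _ (hX f))))
    have := hN _ (lieU_mem D N hDN X hX gi c e) _ hm
    linear_combination this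
  simp_rw [e1]
  -- separate the terms
  have e2 : (∑ e, gi c e * (∑ f, (X f * D f (L e a b) + D a (X f) * L e f b
        + D b (X f) * L e a f + D e (X f) * L f a b + 2 * (g f e * D a (D b (X f))))))
      = (∑ e, ∑ f, gi c e * (X f * D f (L e a b)))
       + (∑ f, D a (X f) * ∑ e, gi c e * L e f b)
       + (∑ f, D b (X f) * ∑ e, gi c e * L e a f)
       + (∑ e, ∑ f, gi c e * (D e (X f) * L f a b))
       + 2 * D a (D b (X c)) := by
    have t5 : 2 * D a (D b (X c)) = ∑ e, ∑ f, gi c e * (2 * (g f e * D a (D b (X f)))) := by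
      rw [Finset.sum_comm]
      have : ∀ f, (∑ e, gi c e * (2 * (g f e * D a (D b (X f)))))
          = (2 * D a (D b (X f))) * if c = f then 1 else 0 := by
        intro f
        rw [← hgi c f, Finset.mul_sum]
        exact Finset.sum_congr rfl fun e _ => by ring
      simp_rw [this]
      simp
    have t2 : (∑ f, D a (X f) * ∑ e, gi c e * L e f b)
        = ∑ e, ∑ f, gi c e * (D a (X f) * L e f b) := by
      rw [Finset.sum_comm]
      refine Finset.sum_congr rfl fun f _ => ?_
      rw [Finset.mul_sum]
      exact Finset.sum_congr rfl fun e _ => by ring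
    have t3 : (∑ f, D b (X f) * ∑ e, gi c e * L e a f)
        = ∑ e, ∑ f, gi c e * (D b (X f) * L e a f) := by
      rw [Finset.sum_comm]
      refine Finset.sum_congr rfl fun f _ => ?_
      rw [Finset.mul_sum]
      exact Finset.sum_congr rfl fun e _ => by ring
    rw [t5, t2, t3]
    simp only [← Finset.sum_add_distrib]
    refine Finset.sum_congr rfl fun e _ => ?_
    rw [Finset.mul_sum]
    refine Finset.sum_congr rfl fun f _ => ?_
    ring
  have e3 : (∑ e, lieU (fun i => D i) X gi c e * L e a b)
      = (∑ e, ∑ f, X f * D f (gi c e) * L e a b)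
        - (∑ f, D f (X c) * ∑ e, gi f e * L e a b)
        - (∑ e, ∑ f, gi c e * (D e (X f) * L f a b)) := by
    have t2 : (∑ f, D f (X c) * ∑ e, gi f e * L e a b)
        = ∑ e, ∑ f, D f (X c) * gi f e * L e a b := by
      rw [Finset.sum_comm]
      refine Finset.sum_congr rfl fun f _ => ?_
      rw [Finset.mul_sum]
      exact Finset.sum_congr rfl fun e _ => by ring
    have t3 : (∑ e, ∑ f, gi c e * (D e (X f) * L f a b))
        = ∑ e, ∑ f, D f (X e) * gi c f * L e a b := by
      rw [Finset.sum_comm]
      exact Finset.sum_congr rfl fun f _ => Finset.sum_congr rfl fun e _ => by ring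
    rw [t2, t3]
    simp only [← Finset.sum_sub_distrib]
    refine Finset.sum_congr rfl fun e _ => ?_
    unfold lieU
    rw [Finset.sum_mul]
    exact Finset.sum_congr rfl fun f _ => by ring
  rw [Finset.sum_add_distrib, Finset.sum_add_distrib, e2, e3]
  simp only [Finset.sum_add_distrib, Finset.sum_sub_distrib, smul_add, smul_sub, half_two]
  have e4 : (∑ f, X f * ∑ e, gi c e * D f (L e a b))
      = ∑ e, ∑ f, gi c e * (X f * D f (L e a b)) := by
    rw [Finset.sum_comm]
    refine Finset.sum_congr rfl fun f _ => ?_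
    rw [Finset.mul_sum]
    exact Finset.sum_congr rfl fun e _ => by ring
  have e5 : (∑ f, X f * ∑ e, L e a b * D f (gi c e))
      = ∑ e, ∑ f, X f * D f (gi c e) * L e a b := by
    rw [Finset.sum_comm]
    refine Finset.sum_congr rfl fun f _ => ?_
    rw [Finset.mul_sum]
    exact Finset.sum_congr rfl fun e _ => by ring
  simp only [mul_smul_comm, ← Finset.smul_sum, mul_add, Finset.sum_add_distrib, e4, e5]
  abel

include hD hN hDN hX in
lemma ric_lie (Γ : Fin n → Fin n → Fin n → A) (hΓ : ∀ c a b, Γ c a b = Γ c b a) (a b : Fin n) :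
    ric (fun i => D i) (fun c a b => Γ c a b + lieG (fun i => D i) X Γ c a b) a b
    = ric (fun i => D i) Γ a b + lieL (fun i => D i) X (ric (fun i => D i) Γ) a b := by
  set u : Fin n → Fin n → Fin n → Fin n → A := fun e c a b =>
    X e * D e (Γ c a b) - D e (X c) * Γ e a b + D a (X e) * Γ c e b + D b (X e) * Γ c a e with hu
  have hδ : ∀ c a b, lieG (fun i => D i) X Γ c a b = (∑ e, u e c a b) + D a (D b (X c)) :=
    fun c a b => rfl
  have hz : ∀ c a b c' a' b', lieG (fun i => D i) X Γ c a b * lieG (fun i => D i) X Γ c' a' b' = 0 :=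
    fun c a b c' a' b' => hN _ (lieG_mem D N hDN X hX Γ c a b) _ (lieG_mem D N hDN X hX Γ c' a' b')
  -- left-hand side
  have hL : ric (fun i => D i) (fun c a b => Γ c a b + lieG (fun i => D i) X Γ c a b) a b
      = ric (fun i => D i) Γ a b
        + (∑ c, ∑ e, (D c (u e c a b) - D b (u e c a c) + D c (D e (X c)) * Γ e a b
          + Γ c c e * D a (D b (X e)) - D b (D e (X c)) * Γ e a c - Γ c b e * D a (D c (X e))))
        + ∑ c, ∑ e, ∑ f, (u f c c e * Γ e a b + Γ c c e * u f e a b
          - u f c b e * Γ e a c - Γ c b e * u f e a c) := by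
    unfold ric
    have h1 : ∀ c, D c (Γ c a b + lieG (fun i => D i) X Γ c a b)
        - D b (Γ c a c + lieG (fun i => D i) X Γ c a c)
        = (D c (Γ c a b) - D b (Γ c a c)) + ∑ e, (D c (u e c a b) - D b (u e c a c)) := by
      intro c
      rw [hδ, hδ, map_add, map_add, map_add, map_add, map_sum, map_sum, Finset.sum_sub_distrib,
        hD c a (D b (X c)), hD b a (D c (X c)), hD b c (X c)]
      ring
    have h2 : ∀ c e, (Γ c c e + lieG (fun i => D i) X Γ c c e)
          * (Γ e a b + lieG (fun i => D i) X Γ e a b)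
        - (Γ c b e + lieG (fun i => D i) X Γ c b e) * (Γ e a c + lieG (fun i => D i) X Γ e a c)
        = (Γ c c e * Γ e a b - Γ c b e * Γ e a c) + (D c (D e (X c)) * Γ e a b
          + Γ c c e * D a (D b (X e)) - D b (D e (X c)) * Γ e a c - Γ c b e * D a (D c (X e)))
          + ∑ f, (u f c c e * Γ e a b + Γ c c e * u f e a b
          - u f c b e * Γ e a c - Γ c b e * u f e a c) := by
      intro c e
      have : (∑ f, (u f c c e * Γ e a b + Γ c c e * u f e a b
          - u f c b e * Γ e a c - Γ c b e * u f e a c))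
          = (∑ f, u f c c e) * Γ e a b + Γ c c e * (∑ f, u f e a b)
          - (∑ f, u f c b e) * Γ e a c - Γ c b e * (∑ f, u f e a c) := by
        simp only [Finset.sum_add_distrib, Finset.sum_sub_distrib, Finset.sum_mul, Finset.mul_sum]
      rw [this]
      have z1 := hz c c e e a b
      have z2 := hz c b e e a c
      rw [hδ, hδ] at z1 z2
      rw [hδ, hδ, hδ, hδ]
      linear_combination z1 - z2
    simp_rw [h1, h2]
    simp only [Finset.sum_add_distrib, Finset.sum_sub_distrib]
    ring
  have hR : lieL (fun i => D i) X (ric (fun i => D i) Γ) a b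
      = (∑ c, ∑ e, (X e * (D e (D c (Γ c a b)) - D e (D b (Γ c a c)))
          + D a (X e) * (D c (Γ c e b) - D b (Γ c e c))
          + D b (X e) * (D c (Γ c a e) - D e (Γ c a c))))
        + ∑ c, ∑ e, ∑ f, (X f * D f (Γ c c e * Γ e a b - Γ c b e * Γ e a c)
          + D a (X f) * (Γ c c e * Γ e f b - Γ c b e * Γ e f c)
          + D b (X f) * (Γ c c e * Γ e a f - Γ c f e * Γ e a c)) := by
    have hs : (∑ c, ∑ e, ∑ f, (X f * D f (Γ c c e * Γ e a b - Γ c b e * Γ e a c)
          + D a (X f) * (Γ c c e * Γ e f b - Γ c b e * Γ e f c)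
          + D b (X f) * (Γ c c e * Γ e a f - Γ c f e * Γ e a c)))
        = ∑ f, ∑ c, ∑ e, (X f * D f (Γ c c e * Γ e a b - Γ c b e * Γ e a c)
          + D a (X f) * (Γ c c e * Γ e f b - Γ c b e * Γ e f c)
          + D b (X f) * (Γ c c e * Γ e a f - Γ c f e * Γ e a c)) := by
      have : ∀ F : Fin n → Fin n → Fin n → A, (∑ c, ∑ e, ∑ f, F c e f) = ∑ f, ∑ c, ∑ e, F c e f := by
        intro F
        rw [Finset.sum_comm]
        have : ∀ e, (∑ c, ∑ f, F c e f) = ∑ f, ∑ c, F c e f := fun e => Finset.sum_comm
        simp_rw [this]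
        rw [Finset.sum_comm]
        refine Finset.sum_congr rfl fun f _ => Finset.sum_comm
      exact this _
    rw [hs, Finset.sum_comm, ← Finset.sum_add_distrib]
    unfold lieL ric
    refine Finset.sum_congr rfl fun f _ => ?_
    simp only [map_add, map_sum, map_sub, Finset.mul_sum, mul_add, Finset.sum_add_distrib, mul_sub,
      Finset.sum_sub_distrib]
    ring
  have sw2 : ∀ H : Fin n → Fin n → A, (∑ c, ∑ e, (H c e - H e c)) = 0 := by
    intro H
    simp only [Finset.sum_sub_distrib]
    rw [Finset.sum_comm, sub_self]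
  have d2 : (∑ c, ∑ e, (D c (u e c a b) - D b (u e c a c) + D c (D e (X c)) * Γ e a b
          + Γ c c e * D a (D b (X e)) - D b (D e (X c)) * Γ e a c - Γ c b e * D a (D c (X e))))
      = ∑ c, ∑ e, (X e * (D e (D c (Γ c a b)) - D e (D b (Γ c a c)))
          + D a (X e) * (D c (Γ c e b) - D b (Γ c e c))
          + D b (X e) * (D c (Γ c a e) - D e (Γ c a c))) := by
    rw [← sub_eq_zero, ← sw2 (fun c e => D c (X e) * D e (Γ c a b) - D c (X e) * D b (Γ c a e)),
      ← Finset.sum_sub_distrib]
    refine Finset.sum_congr rfl fun c _ => ?_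
    rw [← Finset.sum_sub_distrib]
    refine Finset.sum_congr rfl fun e _ => ?_
    simp only [hu, map_add, map_sub, Derivation.leibniz, smul_eq_mul]
    rw [hD c e (Γ c a b), hD b e (Γ c a c), hD c a (X e), hD b a (X e), hD b c (X e),
      hΓ c e c, hΓ c e b]
    ring
  have d3 : (∑ c, ∑ e, ∑ f, (u f c c e * Γ e a b + Γ c c e * u f e a b
          - u f c b e * Γ e a c - Γ c b e * u f e a c))
      = ∑ c, ∑ e, ∑ f, (X f * D f (Γ c c e * Γ e a b - Γ c b e * Γ e a c)
          + D a (X f) * (Γ c c e * Γ e f b - Γ c b e * Γ e f c)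
          + D b (X f) * (Γ c c e * Γ e a f - Γ c f e * Γ e a c)) := by
    rw [← sub_eq_zero]
    have s1 : (∑ c, ∑ e, ∑ f, ((D c (X f) * Γ c f e * Γ e a b - D c (X f) * Γ c b e * Γ e a f)
        - (D f (X c) * Γ f c e * Γ e a b - D f (X c) * Γ f b e * Γ e a c))) = 0 := by
      rw [Finset.sum_comm]
      exact Finset.sum_eq_zero fun e _ =>
        sw2 (fun c f => D c (X f) * Γ c f e * Γ e a b - D c (X f) * Γ c b e * Γ e a f)
    have s2 : (∑ c, ∑ e, ∑ f, ((D e (X f) * Γ c c f * Γ e a b - D e (X f) * Γ c b f * Γ e a c)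
        - (D f (X e) * Γ c c e * Γ f a b - D f (X e) * Γ c b e * Γ f a c))) = 0 :=
      Finset.sum_eq_zero fun c _ =>
        sw2 (fun e f => D e (X f) * Γ c c f * Γ e a b - D e (X f) * Γ c b f * Γ e a c)
    refine Eq.trans ?_ ((congrArg₂ (· + ·) s1 s2).trans (add_zero 0))
    simp only [← Finset.sum_add_distrib, ← Finset.sum_sub_distrib]
    refine Finset.sum_congr rfl fun c _ => Finset.sum_congr rfl fun e _ =>
      Finset.sum_congr rfl fun f _ => ?_
    simp only [hu, map_sub, Derivation.leibniz, smul_eq_mul]
    ring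
  rw [hL, hR, d2, d3]
  ring

end cov2

end

end GJMS
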