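import Pool.Agent.GJMS.Defs

/-!
# The ring `Nil K B` of functions on finite subsets of `K` with the subset convolution

`F : Nil K B` stands for `∑_S F(S) ∏_{a ∈ S} y_a`, where the `y_a` have square zero.
-/

open Finset

set_option linter.unusedSectionVars false

namespace GJMS

noncomputable section

/-- functions on the finite subsets, with subset convolution as multiplication -/
@[ext] structure Nil (K B : Type) where
  /-- the coefficient of `∏_{a ∈ S} y_a` -/
  co : Finset K → B

namespace Nil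

variable {K B : Type} [DecidableEq K] [CommRing B] [Algebra ℝ B]

instance : Zero (Nil K B) := ⟨⟨fun _ => 0⟩⟩
instance : Add (Nil K B) := ⟨fun F G => ⟨fun S => F.co S + G.co S⟩⟩
instance : Neg (Nil K B) := ⟨fun F => ⟨fun S => - F.co S⟩⟩
instance : Sub (Nil K B) := ⟨fun F G => ⟨fun S => F.co S - G.co S⟩⟩
instance : SMul ℕ (Nil K B) := ⟨fun r F => ⟨fun S => r • F.co S⟩⟩
instance : SMul ℤ (Nil K B) := ⟨fun r F => ⟨fun S => r • F.co S⟩⟩
instance : SMul ℝ (Nil K B) := ⟨fun r F => ⟨fun S => r • F.co S⟩⟩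
instance : SMul B (Nil K B) := ⟨fun r F => ⟨fun S => r * F.co S⟩⟩
instance : One (Nil K B) := ⟨⟨fun S => if S = ∅ then 1 else 0⟩⟩
instance : Mul (Nil K B) := ⟨fun F G => ⟨fun S => ∑ T ∈ S.powerset, F.co T * G.co (S \ T)⟩⟩

@[simp] lemma co_zero (S : Finset K) : (0 : Nil K B).co S = 0 := rfl
@[simp] lemma co_add (F G : Nil K B) (S : Finset K) : (F + G).co S = F.co S + G.co S := rfl
@[simp] lemma co_neg (F : Nil K B) (S : Finset K) : (-F).co S = - F.co S := rfl
@[simp] lemma co_sub (F G : Nil K B) (S : Finset K) : (F - G).co S = F.co S - G.co S := rfl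
@[simp] lemma co_nsmul (r : ℕ) (F : Nil K B) (S : Finset K) : (r • F).co S = r • F.co S := rfl
@[simp] lemma co_zsmul (r : ℤ) (F : Nil K B) (S : Finset K) : (r • F).co S = r • F.co S := rfl
@[simp] lemma co_smul (r : ℝ) (F : Nil K B) (S : Finset K) : (r • F).co S = r • F.co S := rfl
@[simp] lemma co_smulB (r : B) (F : Nil K B) (S : Finset K) : (r • F).co S = r * F.co S := rfl
lemma co_one (S : Finset K) : (1 : Nil K B).co S = if S = ∅ then 1 else 0 := rfl
lemma co_mul (F G : Nil K B) (S : Finset K) :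
    (F * G).co S = ∑ T ∈ S.powerset, F.co T * G.co (S \ T) := rfl

instance : AddCommGroup (Nil K B) :=
  Function.Injective.addCommGroup (fun F : Nil K B => F.co) (fun _ _ h => Nil.ext h)
    rfl (fun _ _ => rfl) (fun _ => rfl) (fun _ _ => rfl) (fun _ _ => rfl) (fun _ _ => rfl)

lemma mul_comm' (F G : Nil K B) : F * G = G * F := by
  ext S
  rw [co_mul, co_mul]
  refine Finset.sum_bij' (fun T _ => S \ T) (fun T _ => S \ T) ?_ ?_ ?_ ?_ ?_
  · intro T _; exact Finset.mem_powerset.2 Finset.sdiff_subset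
  · intro T _; exact Finset.mem_powerset.2 Finset.sdiff_subset
  · intro T hT; exact Finset.sdiff_sdiff_eq_self (Finset.mem_powerset.1 hT)
  · intro T hT; exact Finset.sdiff_sdiff_eq_self (Finset.mem_powerset.1 hT)
  · intro T hT
    rw [Finset.sdiff_sdiff_eq_self (Finset.mem_powerset.1 hT), mul_comm]

lemma mul_assoc' (F G H : Nil K B) : F * G * H = F * (G * H) := by
  ext S
  simp only [co_mul, Finset.sum_mul, Finset.mul_sum]
  rw [Finset.sum_sigma', Finset.sum_sigma']
  refine Finset.sum_bij' (fun x _ => ⟨x.2, x.1 \ x.2⟩) (fun x _ => ⟨x.1 ∪ x.2, x.1⟩) ?_ ?_ ?_ ?_ ?_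
  · rintro ⟨T, U⟩ h
    simp only [Finset.mem_sigma, Finset.mem_powerset] at h ⊢
    exact ⟨h.2.trans h.1, Finset.sdiff_subset_sdiff h.1 le_rfl⟩
  · rintro ⟨T, U⟩ h
    simp only [Finset.mem_sigma, Finset.mem_powerset] at h ⊢
    exact ⟨Finset.union_subset h.1 (h.2.trans Finset.sdiff_subset), Finset.subset_union_left⟩
  · rintro ⟨T, U⟩ h
    simp only [Finset.mem_sigma, Finset.mem_powerset] at h
    simp only [Sigma.mk.injEq, heq_eq_eq, and_true]
    exact Finset.union_sdiff_of_subset h.2
  · rintro ⟨T, U⟩ h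
    simp only [Finset.mem_sigma, Finset.mem_powerset] at h
    simp only [Sigma.mk.injEq, heq_eq_eq, true_and]
    have hd : Disjoint T U := by
      rw [Finset.disjoint_left]
      intro a ha hb
      exact (Finset.mem_sdiff.1 (h.2 hb)).2 ha
    rw [Finset.union_sdiff_left]
    exact Finset.sdiff_eq_self_of_disjoint hd.symm
  · rintro ⟨T, U⟩ h
    simp only [Finset.mem_sigma, Finset.mem_powerset] at h
    have e1 : (S \ U) \ (T \ U) = S \ T := by
      ext a
      simp only [Finset.mem_sdiff]
      constructor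
      · rintro ⟨⟨h1, h2⟩, h3⟩
        exact ⟨h1, fun h4 => h3 ⟨h4, h2⟩⟩
      · rintro ⟨h1, h2⟩
        exact ⟨⟨h1, fun h3 => h2 (h.2 h3)⟩, fun h3 => h2 h3.1⟩
    simp only [e1]
    ring

lemma one_mul' (F : Nil K B) : 1 * F = F := by
  ext S
  rw [co_mul, Finset.sum_eq_single ∅]
  · simp [co_one]
  · intro T _ hT
    simp [co_one, hT]
  · intro h; exact absurd (Finset.empty_mem_powerset S) h

lemma left_distrib' (F G H : Nil K B) : F * (G + H) = F * G + F * H := by
  ext S
  simp only [co_mul, co_add, mul_add, Finset.sum_add_distrib]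

instance : CommRing (Nil K B) where
  __ := (inferInstance : AddCommGroup (Nil K B))
  mul := (· * ·)
  one := 1
  mul_assoc := mul_assoc'
  one_mul := one_mul'
  mul_one F := by rw [mul_comm', one_mul']
  left_distrib := left_distrib'
  right_distrib F G H := by rw [mul_comm', left_distrib', mul_comm' H F, mul_comm' H G]
  zero_mul F := by ext S; simp [co_mul]
  mul_zero F := by ext S; simp [co_mul]
  mul_comm := mul_comm'

/-- constants -/
def cst : B →+* Nil K B where
  toFun b := ⟨fun S => if S = ∅ then b else 0⟩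
  map_one' := rfl
  map_mul' b c := by
    ext S
    rw [co_mul, Finset.sum_eq_single ∅]
    · by_cases hS : S = ∅ <;> simp [hS]
    · intro T _ hT
      simp [hT]
    · intro h; exact absurd (Finset.empty_mem_powerset S) h
  map_zero' := by ext S; simp
  map_add' b c := by
    ext S
    by_cases hS : S = ∅ <;> simp [hS]

lemma co_cst (b : B) (S : Finset K) : (cst b : Nil K B).co S = if S = ∅ then b else 0 := rfl

lemma co_cst_mul (b : B) (F : Nil K B) (S : Finset K) : (cst b * F).co S = b * F.co S := by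
  rw [co_mul, Finset.sum_eq_single ∅]
  · simp [co_cst]
  · intro T _ hT
    simp [co_cst, hT]
  · intro h; exact absurd (Finset.empty_mem_powerset S) h

instance : Algebra ℝ (Nil K B) where
  smul := (· • ·)
  algebraMap := cst.comp (algebraMap ℝ B)
  commutes' r F := mul_comm _ _
  smul_def' r F := by
    ext S
    rw [co_smul, RingHom.comp_apply, co_cst_mul, Algebra.smul_def]

lemma algebraMap_eq (r : ℝ) : algebraMap ℝ (Nil K B) r = cst (algebraMap ℝ B r) := rfl

lemma co_sum {ι : Type*} (s : Finset ι) (F : ι → Nil K B) (S : Finset K) :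
    (∑ i ∈ s, F i).co S = ∑ i ∈ s, (F i).co S := by
  classical
  induction s using Finset.induction_on with
  | empty => simp
  | insert a s ha ih => rw [Finset.sum_insert ha, Finset.sum_insert ha, co_add, ih]

/-- the derivation `∂_i + ∑_{a ∈ S} ξ_{a,i}` -/
def dn {n : ℕ} (δ : Fin n → Derivation ℝ B B) (ξ : K → Fin n → B) (i : Fin n) :
    Derivation ℝ (Nil K B) (Nil K B) where
  toFun F := ⟨fun S => δ i (F.co S) + (∑ a ∈ S, ξ a i) * F.co S⟩
  map_add' F G := by ext S; simp only [co_add, map_add]; ring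
  map_smul' r F := by
    ext S
    simp only [co_smul, RingHom.id_apply, smul_add, mul_smul_comm]
    rw [Derivation.map_smul]
  map_one_eq_zero' := by
    ext S
    by_cases hS : S = ∅
    · simp [co_one, hS]
    · simp [co_one, hS]
  leibniz' F G := by
    ext S
    have h1 : ∀ T ∈ S.powerset, (∑ a ∈ S, ξ a i) = (∑ a ∈ T, ξ a i) + ∑ a ∈ S \ T, ξ a i := by
      intro T hT
      rw [add_comm, Finset.sum_sdiff (Finset.mem_powerset.1 hT)]
    simp only [smul_eq_mul, LinearMap.coe_mk, AddHom.coe_mk]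
    rw [co_add, mul_comm' G _]
    simp only [co_mul]
    rw [map_sum, Finset.mul_sum, ← Finset.sum_add_distrib, ← Finset.sum_add_distrib]
    refine Finset.sum_congr rfl fun T hT => ?_
    rw [h1 T hT, Derivation.leibniz]
    simp only [smul_eq_mul]
    ring

lemma co_dn {n : ℕ} (δ : Fin n → Derivation ℝ B B) (ξ : K → Fin n → B) (i : Fin n) (F : Nil K B)
    (S : Finset K) : (dn δ ξ i F).co S = δ i (F.co S) + (∑ a ∈ S, ξ a i) * F.co S := rfl

lemma dn_comm {n : ℕ} (δ : Fin n → Derivation ℝ B B) (hδ : ∀ i j b, δ i (δ j b) = δ j (δ i b))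
    (ξ : K → Fin n → B) (hξ : ∀ i j a, δ i (ξ a j) = 0) (i j : Fin n) (F : Nil K B) :
    dn δ ξ i (dn δ ξ j F) = dn δ ξ j (dn δ ξ i F) := by
  ext S
  simp only [co_dn, map_add, Derivation.leibniz, smul_eq_mul, map_sum, hξ, Finset.sum_const_zero,
    mul_zero, add_zero]
  rw [hδ i j]
  ring

end Nil

end

end GJMS
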