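import Mathlib
import Pool.Agent.GJMS.Bianchi

/-!
# Leading parts of the Ricci curvature and of the contracted Bianchi identity
-/

open Finset

set_option linter.unusedSectionVars false

namespace GJMS

noncomputable section

variable {n : ℕ} {A : Type*} [CommRing A] [Algebra ℝ A]

/-- three ideals `N ⊇ M ⊇ P` with `N M ⊆ P`, stable under the derivations -/
structure Ideals (D : Fin n → Derivation ℝ A A) (N M P : Ideal A) : Prop where
  mul : ∀ x ∈ N, ∀ y ∈ M, x * y ∈ P
  MN : M ≤ N
  PM : P ≤ M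
  dN : ∀ i, ∀ x ∈ N, D i x ∈ N
  dM : ∀ i, ∀ x ∈ M, D i x ∈ M
  dP : ∀ i, ∀ x ∈ P, D i x ∈ P

lemma smul_mem_ideal (N : Ideal A) (r : ℝ) {x : A} (hx : x ∈ N) : r • x ∈ N := by
  rw [Algebra.smul_def]; exact N.mul_mem_left _ hx

variable {D : Fin n → Derivation ℝ A A} {N M P : Ideal A}

/-- Kronecker symbol -/
abbrev kd (a b : Fin n) : A := if a = b then 1 else 0

lemma D_kd (i a b : Fin n) : D i (kd a b : A) = 0 := by
  unfold kd
  split_ifs
  · exact (D i).map_one_eq_zero
  · exact map_zero _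

lemma D_g_mem (hI : Ideals D N M P) {g : Fin n → Fin n → A} (hg : ∀ a b, g a b - kd a b ∈ N)
    (i a b : Fin n) : D i (g a b) ∈ N := by
  have := hI.dN i _ (hg a b)
  rwa [map_sub, D_kd, sub_zero] at this

lemma chr_mem (hI : Ideals D N M P) {g : Fin n → Fin n → A} (gi : Fin n → Fin n → A)
    (hg : ∀ a b, g a b - kd a b ∈ N)
    (c a b : Fin n) : chr (fun i => D i) g gi c a b ∈ N := by
  unfold chr
  apply smul_mem_ideal
  refine N.sum_mem fun e _ => N.mul_mem_left _ (N.sub_mem (N.add_mem ?_ ?_) ?_)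
  · exact D_g_mem hI hg _ _ _
  · exact D_g_mem hI hg _ _ _
  · exact D_g_mem hI hg _ _ _

/-- the linearisation of the Christoffel symbols at the flat metric -/
def chl' (D : Fin n → Derivation ℝ A A) (h : Fin n → Fin n → A) (c a b : Fin n) : A :=
  (1 / 2 : ℝ) • (D a (h b c) + D b (h a c) - D c (h a b))

/-- difference of inverses -/
lemma inv_sub_mem {g gi g' gi' : Fin n → Fin n → A} (hg : ∀ a b, g a b = g b a)
    (hgi : ∀ a b, ∑ c, gi a c * g b c = if a = b then 1 else 0)
    (hg' : ∀ a b, g' a b = g' b a)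
    (hgi' : ∀ a b, ∑ c, gi' a c * g' b c = if a = b then 1 else 0)
    (h : ∀ a b, g' a b - g a b ∈ M) (a b : Fin n) : gi' a b - gi a b ∈ M := by
  have h1 := g_mul_gi g gi hg hgi
  have h2 := gi_mul_g g' gi' hg' hgi'
  have h3 : (Matrix.of gi' : Matrix (Fin n) (Fin n) A) - Matrix.of gi =
      - (Matrix.of gi' * (Matrix.of g' - Matrix.of g) * Matrix.of gi) := by
    rw [mul_sub, sub_mul, h2, one_mul, mul_assoc, h1, mul_one]; abel
  have h4 := congrFun (congrFun h3 a) b
  simp only [Matrix.sub_apply, Matrix.of_apply, Matrix.neg_apply, Matrix.mul_apply] at h4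
  rw [h4]
  refine M.neg_mem (M.sum_mem fun c _ => M.mul_mem_right _ (M.sum_mem fun e _ =>
    M.mul_mem_left _ (h e c)))

lemma chr_lin (hI : Ideals D N M P) {g gi gi' h : Fin n → Fin n → A}
    (hgs : ∀ a b, g a b = g b a) (hhs : ∀ a b, h a b = h b a)
    (hgi : ∀ a b, ∑ c, gi a c * g b c = if a = b then 1 else 0)
    (hgi' : ∀ a b, ∑ c, gi' a c * (g b c + h b c) = if a = b then 1 else 0)
    (hg : ∀ a b, g a b - kd a b ∈ N) (hh : ∀ a b, h a b ∈ M)
    (hi' : ∀ a b, gi' a b - kd a b ∈ N) (c a b : Fin n) :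
    chr (fun i => D i) (fun a b => g a b + h a b) gi' c a b - chr (fun i => D i) g gi c a b
      - chl' D h c a b ∈ P := by
  have hM : ∀ a b, gi' a b - gi a b ∈ M := by
    apply inv_sub_mem hgs hgi (g' := fun a b => g a b + h a b) _ hgi'
    · intro a b
      simpa using hh a b
    · intro a b; rw [hgs, hhs]
  have hdh : ∀ i a b, D i (h a b) ∈ M := fun i a b => hI.dM i _ (hh a b)
  have e1 : chr (fun i => D i) (fun a b => g a b + h a b) gi' c a b - chr (fun i => D i) g gi c a b
      - chl' D h c a b = (1 / 2 : ℝ) • ∑ e, ((gi' c e - gi c e) *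
        (D a (g b e) + D b (g a e) - D e (g a b))
        + (gi' c e - kd c e) * (D a (h b e) + D b (h a e) - D e (h a b))) := by
    unfold chr chl'
    rw [← smul_sub, ← smul_sub]
    congr 1
    have e2 : (D a (h b c) + D b (h a c) - D c (h a b)) =
        ∑ e, kd c e * (D a (h b e) + D b (h a e) - D e (h a b)) := by
      simp [kd]
    rw [e2, ← Finset.sum_sub_distrib, ← Finset.sum_sub_distrib]
    refine Finset.sum_congr rfl fun e _ => ?_
    simp only [map_add]
    ring
  rw [e1]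
  apply smul_mem_ideal
  refine P.sum_mem fun e _ => P.add_mem ?_ ?_
  · rw [mul_comm]
    refine hI.mul _ (N.sub_mem (N.add_mem ?_ ?_) ?_) _ (hM c e)
    · exact D_g_mem hI hg _ _ _
    · exact D_g_mem hI hg _ _ _
    · exact D_g_mem hI hg _ _ _
  · refine hI.mul _ (hi' c e) _ (M.sub_mem (M.add_mem ?_ ?_) ?_)
    · exact hdh _ _ _
    · exact hdh _ _ _
    · exact hdh _ _ _

/-- the linearised Ricci curvature at the flat metric -/
def linRic (D : Fin n → Derivation ℝ A A) (h : Fin n → Fin n → A) (a b : Fin n) : A :=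
  (1 / 2 : ℝ) • ∑ c, (D c (D a (h b c)) + D c (D b (h a c)) - D c (D c (h a b)) - D b (D a (h c c)))

theorem ric_lin (hI : Ideals D N M P) {g gi gi' h : Fin n → Fin n → A}
    (hgs : ∀ a b, g a b = g b a) (hhs : ∀ a b, h a b = h b a)
    (hgi : ∀ a b, ∑ c, gi a c * g b c = if a = b then 1 else 0)
    (hgi' : ∀ a b, ∑ c, gi' a c * (g b c + h b c) = if a = b then 1 else 0)
    (hg : ∀ a b, g a b - kd a b ∈ N) (hh : ∀ a b, h a b ∈ M)
    (hi' : ∀ a b, gi' a b - kd a b ∈ N) (a b : Fin n) :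
    ric (fun i => D i) (chr (fun i => D i) (fun a b => g a b + h a b) gi') a b
      - ric (fun i => D i) (chr (fun i => D i) g gi) a b - linRic D h a b ∈ P := by
  set Γ' := chr (fun i => D i) (fun a b => g a b + h a b) gi' with hΓ'
  set Γ := chr (fun i => D i) g gi with hΓ
  have h1 : ∀ c a b, Γ' c a b - Γ c a b - chl' D h c a b ∈ P :=
    chr_lin hI hgs hhs hgi hgi' hg hh hi'
  have hγ : ∀ c a b, chl' D h c a b ∈ M := by
    intro c a b
    unfold chl'
    apply smul_mem_ideal
    exact M.sub_mem (M.add_mem (hI.dM _ _ (hh _ _)) (hI.dM _ _ (hh _ _))) (hI.dM _ _ (hh _ _))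
  have h2 : ∀ c a b, Γ' c a b - Γ c a b ∈ M := by
    intro c a b
    have := M.add_mem (hI.PM (h1 c a b)) (hγ c a b)
    simpa using this
  have hN : ∀ c a b, Γ c a b ∈ N := chr_mem hI gi hg
  have hN' : ∀ c a b, Γ' c a b ∈ N := by
    apply chr_mem hI gi'
    intro a b
    have := N.add_mem (hg a b) (hI.MN (hh a b))
    rwa [show g a b - kd a b + h a b = g a b + h a b - kd a b by ring] at this
  have e1 : linRic D h a b = ∑ c, (D c (chl' D h c a b) - D b (chl' D h c a c)) := by
    unfold linRic chl'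
    rw [Finset.smul_sum]
    refine Finset.sum_congr rfl fun c _ => ?_
    rw [Derivation.map_smul, Derivation.map_smul, ← smul_sub]
    congr 1
    simp only [map_add, map_sub]
    ring
  rw [e1]
  unfold ric
  have e2 : ∀ (X Y Z W V : A), X + Y - (Z + W) - V = (X - Z - V) + (Y - W) := by
    intros; ring
  rw [e2, ← Finset.sum_sub_distrib, ← Finset.sum_sub_distrib, ← Finset.sum_sub_distrib]
  refine P.add_mem (P.sum_mem fun c _ => ?_) (P.sum_mem fun c _ => ?_)
  · have := P.sub_mem (hI.dP c _ (h1 c a b)) (hI.dP b _ (h1 c a c))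
    simp only [map_sub] at this
    convert this using 1
    ring
  · rw [← Finset.sum_sub_distrib]
    refine P.sum_mem fun e _ => ?_
    have m1 : ∀ c a b c' a' b', Γ' c a b * Γ' c' a' b' - Γ c a b * Γ c' a' b' ∈ P := by
      intro c a b c' a' b'
      have := P.add_mem (hI.mul _ (hN' c' a' b') _ (h2 c a b)) (hI.mul _ (hN c a b) _ (h2 c' a' b'))
      convert this using 1
      ring
    have := P.sub_mem (m1 c c e e a b) (m1 c b e e a c)
    convert this using 1
    ring

/-- the leading part of the contracted Bianchi identity -/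
theorem bianchi_lead (hI : Ideals D N M P) (hD : ∀ i j x, D i (D j x) = D j (D i x))
    {g gi : Fin n → Fin n → A}
    (hgs : ∀ a b, g a b = g b a)
    (hgi : ∀ a b, ∑ c, gi a c * g b c = if a = b then 1 else 0)
    (hg : ∀ a b, g a b - kd a b ∈ N) (hi : ∀ a b, gi a b - kd a b ∈ N)
    (hR : ∀ a b, ric (fun i => D i) (chr (fun i => D i) g gi) a b ∈ M) (a : Fin n) :
    2 * ∑ c, D c (ric (fun i => D i) (chr (fun i => D i) g gi) c a)
      - D a (∑ c, ric (fun i => D i) (chr (fun i => D i) g gi) c c) ∈ P := by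
  have h1 := contracted_bianchi D g gi hD hgs hgi a
  set Γ := chr (fun i => D i) g gi with hΓ
  set R := ric (fun i => D i) Γ with hRdef
  have hN : ∀ c a b, Γ c a b ∈ N := chr_mem hI gi hg
  have hV : ∀ a e, Vr D g gi a e ∈ M := by
    intro a e
    unfold Vr
    exact M.sum_mem fun d _ => M.mul_mem_right _ (hR d a)
  have hVR : ∀ a e, Vr D g gi a e - R e a ∈ P := by
    intro a e
    have : Vr D g gi a e - R e a = ∑ d, (gi d e - kd d e) * R d a := by
      unfold Vr
      simp only [sub_mul, Finset.sum_sub_distrib]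
      congr 1
      · exact Finset.sum_congr rfl fun d _ => mul_comm _ _
      · simp [kd]
    rw [this]
    exact P.sum_mem fun d _ => hI.mul _ (hi d e) _ (hR d a)
  have e1 : 2 * ∑ c, D c (R c a) - D a (∑ c, R c c) =
      - (2 * ∑ c, D c (Vr D g gi a c - R c a)) + D a (∑ c, (Vr D g gi c c - R c c))
      - 2 * (∑ c, ∑ e, Γ c c e * Vr D g gi a e) + 2 * (∑ c, ∑ e, Γ c a e * Vr D g gi c e) := by
    simp only [map_sub, Finset.sum_sub_distrib]
    rw [← h1]
    ring
  rw [e1]
  refine P.add_mem (P.sub_mem (P.add_mem (P.neg_mem (P.mul_mem_left _ ?_)) ?_) (P.mul_mem_left _ ?_))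
    (P.mul_mem_left _ ?_)
  · exact P.sum_mem fun c _ => hI.dP c _ (hVR a c)
  · exact hI.dP a _ (P.sum_mem fun c _ => hVR c c)
  · exact P.sum_mem fun c _ => P.sum_mem fun e _ => hI.mul _ (hN _ _ _) _ (hV _ _)
  · exact P.sum_mem fun c _ => P.sum_mem fun e _ => hI.mul _ (hN _ _ _) _ (hV _ _)

end

end GJMS
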