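import Mathlib
import Pool.Agent.GJMS.RicLin
import Pool.Agent.GJMS.Nil

/-!
# Formal Ricci-flat metrics with prescribed on-shell plane waves as leading part
-/

open Finset

set_option linter.unusedSectionVars false

namespace GJMS

noncomputable section

section fil

variable {K B : Type} [DecidableEq K] [CommRing B] [Algebra ℝ B]

/-- the filtration by the number of waves -/
def Fil (m : ℕ) : Ideal (Nil K B) where
  carrier := {x | ∀ S : Finset K, S.card < m → x.co S = 0}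
  zero_mem' := fun S _ => rfl
  add_mem' := fun {a b} ha hb S hS => by rw [Nil.co_add, ha S hS, hb S hS, add_zero]
  smul_mem' := fun c x hx S hS => by
    rw [smul_eq_mul, Nil.co_mul]
    refine Finset.sum_eq_zero fun T hT => ?_
    rw [hx, mul_zero]
    exact lt_of_le_of_lt (Finset.card_le_card Finset.sdiff_subset) hS

lemma mem_Fil {m : ℕ} {x : Nil K B} : x ∈ (Fil m : Ideal (Nil K B)) ↔
    ∀ S : Finset K, S.card < m → x.co S = 0 := Iff.rfl

lemma Fil_anti {m l : ℕ} (h : m ≤ l) : (Fil l : Ideal (Nil K B)) ≤ Fil m :=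
  fun _ hx S hS => hx S (lt_of_lt_of_le hS h)

lemma Fil_mul {m l : ℕ} {x y : Nil K B} (hx : x ∈ (Fil m : Ideal (Nil K B)))
    (hy : y ∈ (Fil l : Ideal (Nil K B))) : x * y ∈ (Fil (m + l) : Ideal (Nil K B)) := by
  intro S hS
  rw [Nil.co_mul]
  refine Finset.sum_eq_zero fun T hT => ?_
  by_cases h : T.card < m
  · rw [hx T h, zero_mul]
  · rw [hy, mul_zero]
    rw [Finset.card_sdiff_of_subset (Finset.mem_powerset.1 hT)]
    have := Finset.card_le_card (Finset.mem_powerset.1 hT)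
    omega

lemma Fil_dn {n : ℕ} (ξ : K → Fin n → B) (i : Fin n) {m : ℕ}
    {x : Nil K B} (hx : x ∈ (Fil m : Ideal (Nil K B))) :
    Nil.dn (fun _ => 0) ξ i x ∈ (Fil m : Ideal (Nil K B)) := by
  intro S hS
  rw [Nil.co_dn, hx S hS]
  simp

lemma ideals_Fil {n : ℕ} (ξ : K → Fin n → B) {m : ℕ} (hm : 1 ≤ m) :
    Ideals (fun i => Nil.dn (fun _ => 0) ξ i) (Fil 1 : Ideal (Nil K B)) (Fil m) (Fil (m + 1)) where
  mul := fun x hx y hy => by rw [add_comm m 1]; exact Fil_mul hx hy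
  MN := Fil_anti hm
  PM := Fil_anti (Nat.le_succ m)
  dN := fun i x hx => Fil_dn ξ i hx
  dM := fun i x hx => Fil_dn ξ i hx
  dP := fun i x hx => Fil_dn ξ i hx

/-- the augmentation -/
def aug : Nil K B →+* B where
  toFun x := x.co ∅
  map_one' := rfl
  map_mul' x y := by rw [Nil.co_mul]; simp
  map_zero' := rfl
  map_add' x y := rfl

lemma aug_apply (x : Nil K B) : aug x = x.co ∅ := rfl

lemma mem_Fil_one {x : Nil K B} : x ∈ (Fil 1 : Ideal (Nil K B)) ↔ x.co ∅ = 0 := by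
  rw [mem_Fil]
  constructor
  · intro h; exact h ∅ (by simp)
  · intro h S hS
    have : S = ∅ := Finset.card_eq_zero.1 (by omega)
    rw [this, h]

lemma co_kd {n : ℕ} (a b : Fin n) : (kd a b : Nil K B).co ∅ = if a = b then 1 else 0 := by
  unfold kd
  split_ifs
  · rfl
  · rfl

variable [Fintype K]

lemma Fil_top {m : ℕ} (hm : Fintype.card K < m) {x : Nil K B} (hx : x ∈ (Fil m : Ideal (Nil K B))) :
    x = 0 := by
  ext S
  exact hx S (lt_of_le_of_lt (Finset.card_le_univ S) hm)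

lemma pow_mem_Fil {x : Nil K B} (hx : x ∈ (Fil 1 : Ideal (Nil K B))) (k : ℕ) :
    x ^ k ∈ (Fil k : Ideal (Nil K B)) := by
  induction k with
  | zero => intro S hS; exact absurd hS (Nat.not_lt_zero _)
  | succ k ih => rw [pow_succ]; exact Fil_mul ih hx

lemma isUnit_of_aug {x : Nil K B} (hx : aug x = 1) : IsUnit x := by
  have h1 : x - 1 ∈ (Fil 1 : Ideal (Nil K B)) := by
    rw [mem_Fil_one, ← aug_apply, map_sub, hx, map_one, sub_self]
  have h2 : IsNilpotent (x - 1) :=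
    ⟨Fintype.card K + 1, Fil_top (Nat.lt_succ_self _) (pow_mem_Fil h1 _)⟩
  have := h2.isUnit_one_add
  rwa [add_sub_cancel] at this

lemma exists_invN {n : ℕ} (g : Fin n → Fin n → Nil K B)
    (hg : ∀ i j, (g i j).co ∅ = if i = j then 1 else 0) :
    ∃ gi : Fin n → Fin n → Nil K B, (∀ a b, ∑ c, gi a c * g b c = if a = b then 1 else 0) ∧
      ∀ a b, gi a b - kd a b ∈ (Fil 1 : Ideal (Nil K B)) := by
  set G : Matrix (Fin n) (Fin n) (Nil K B) := Matrix.of fun i j => g j i with hG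
  have haug : (aug : Nil K B →+* B).mapMatrix G = 1 := by
    ext i j
    rw [RingHom.mapMatrix_apply, Matrix.map_apply, Matrix.one_apply]
    simp only [hG, Matrix.of_apply, aug_apply, hg]
    by_cases h : i = j
    · simp [h]
    · simp [h, Ne.symm h]
  have hdet : IsUnit G.det := by
    apply isUnit_of_aug
    rw [RingHom.map_det, haug, Matrix.det_one]
  have hinv : G⁻¹ * G = 1 := Matrix.nonsing_inv_mul G hdet
  refine ⟨fun a b => G⁻¹ a b, ?_, ?_⟩
  · intro a b
    have := congrFun (congrFun hinv a) b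
    rw [Matrix.mul_apply, Matrix.one_apply] at this
    exact this
  · intro a b
    rw [mem_Fil_one, ← aug_apply, map_sub]
    have h1 := congrArg (aug : Nil K B →+* B).mapMatrix hinv
    rw [map_mul, haug, mul_one, map_one] at h1
    have h2 := congrFun (congrFun h1 a) b
    rw [RingHom.mapMatrix_apply, Matrix.map_apply, Matrix.one_apply] at h2
    rw [h2, aug_apply, co_kd, sub_self]

end fil

section flat

variable {K : Type} [Fintype K] [DecidableEq K] {n : ℕ} (ξ : K → Fin n → ℂ)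

/-- the derivations -/
abbrev Dw (ξ : K → Fin n → ℂ) (i : Fin n) : Derivation ℝ (Nil K ℂ) (Nil K ℂ) :=
  Nil.dn (fun _ => 0) ξ i

lemma co_Dw (i : Fin n) (x : Nil K ℂ) (S : Finset K) :
    (Dw ξ i x).co S = (∑ a ∈ S, ξ a i) * x.co S := by
  rw [Nil.co_dn]; simp

lemma Dw_comm (i j : Fin n) (x : Nil K ℂ) : Dw ξ i (Dw ξ j x) = Dw ξ j (Dw ξ i x) := by
  ext S
  simp only [co_Dw]; ring

lemma co_linRic (h : Fin n → Fin n → Nil K ℂ) (a b : Fin n) (S : Finset K) :
    (linRic (Dw ξ) h a b).co S = (1 / 2 : ℝ) • ∑ c,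
      ((∑ s ∈ S, ξ s c) * ((∑ s ∈ S, ξ s a) * (h b c).co S)
      + (∑ s ∈ S, ξ s c) * ((∑ s ∈ S, ξ s b) * (h a c).co S)
      - (∑ s ∈ S, ξ s c) * ((∑ s ∈ S, ξ s c) * (h a b).co S)
      - (∑ s ∈ S, ξ s b) * ((∑ s ∈ S, ξ s a) * (h c c).co S)) := by
  unfold linRic
  rw [Nil.co_smul, Nil.co_sum]
  simp only [Nil.co_sub, Nil.co_add, co_Dw]

lemma linRic_co_eq_zero (h : Fin n → Fin n → Nil K ℂ) (a b : Fin n) (S : Finset K)
    (h0 : ∀ a b, (h a b).co S = 0) : (linRic (Dw ξ) h a b).co S = 0 := by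
  rw [co_linRic]
  simp [h0]

/-- the inductive statement -/
def FlatUpTo (ξ ε : K → Fin n → ℂ) (m : ℕ) : Prop :=
  ∃ g gi : Fin n → Fin n → Nil K ℂ, (∀ i j, g i j = g j i) ∧
    (∀ a b, ∑ c, gi a c * g b c = if a = b then 1 else 0) ∧
    (∀ a b, gi a b - kd a b ∈ (Fil 1 : Ideal (Nil K ℂ))) ∧
    (∀ i j, (g i j).co ∅ = if i = j then 1 else 0) ∧
    (∀ i j a, (g i j).co {a} = ε a i * ε a j) ∧
    (∀ a b, ric (fun i => Dw ξ i) (chr (fun i => Dw ξ i) g gi) a b ∈ (Fil m : Ideal (Nil K ℂ)))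

lemma g_sub_kd_mem {g : Fin n → Fin n → Nil K ℂ}
    (hg : ∀ i j, (g i j).co ∅ = if i = j then 1 else 0) (a b : Fin n) :
    g a b - kd a b ∈ (Fil 1 : Ideal (Nil K ℂ)) := by
  rw [mem_Fil_one, Nil.co_sub, hg, co_kd, sub_self]

/-- the algebra of the correction step -/
lemma flat_alg (Ξ : Fin n → ℂ) (ρ : Fin n → Fin n → ℂ) (hρ : ∀ a b, ρ a b = ρ b a)
    (hq : ∑ i, Ξ i * Ξ i ≠ 0) (hb : ∀ a, 2 * ∑ c, Ξ c * ρ c a = Ξ a * ∑ c, ρ c c) (a b : Fin n) :
    ρ a b + (1 / 2 : ℝ) • ∑ c,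
      (Ξ c * (Ξ a * (2 * ρ b c / ∑ i, Ξ i * Ξ i)) + Ξ c * (Ξ b * (2 * ρ a c / ∑ i, Ξ i * Ξ i))
      - Ξ c * (Ξ c * (2 * ρ a b / ∑ i, Ξ i * Ξ i))
      - Ξ b * (Ξ a * (2 * ρ c c / ∑ i, Ξ i * Ξ i))) = 0 := by
  set q := ∑ i, Ξ i * Ξ i with hqdef
  have e2 : ∑ c, (Ξ c * (Ξ a * (2 * ρ b c / q)) + Ξ c * (Ξ b * (2 * ρ a c / q))
      - Ξ c * (Ξ c * (2 * ρ a b / q)) - Ξ b * (Ξ a * (2 * ρ c c / q)))
      = (Ξ a / q) * (2 * ∑ c, Ξ c * ρ c b) + (Ξ b / q) * (2 * ∑ c, Ξ c * ρ c a)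
        - (q / q) * (2 * ρ a b) - (Ξ b * Ξ a / q) * (2 * ∑ c, ρ c c) := by
    have e3 : (q / q) * (2 * ρ a b) = ∑ c, Ξ c * (Ξ c * (2 * ρ a b / q)) := by
      conv_lhs => rw [show q / q = (∑ i, Ξ i * Ξ i) / q by rw [← hqdef]]
      rw [Finset.sum_div, Finset.sum_mul]
      exact Finset.sum_congr rfl fun c _ => by ring
    rw [e3]
    simp only [Finset.mul_sum, Finset.sum_add_distrib, Finset.sum_sub_distrib]
    congr 1
    · congr 1
      congr 1
      · exact Finset.sum_congr rfl fun c _ => by rw [hρ b c]; ring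
      · exact Finset.sum_congr rfl fun c _ => by rw [hρ a c]; ring
    · exact Finset.sum_congr rfl fun c _ => by ring
  rw [e2, hb, hb, div_self hq, Complex.real_smul]
  push_cast
  ring

theorem flat_step (ε : K → Fin n → ℂ)
    (hgen : ∀ S : Finset K, 2 ≤ S.card → ∑ i, (∑ a ∈ S, ξ a i) * (∑ a ∈ S, ξ a i) ≠ 0)
    {m : ℕ} (hm : 2 ≤ m) (hF : FlatUpTo ξ ε m) : FlatUpTo ξ ε (m + 1) := by
  obtain ⟨g, gi, hs, hinv, hi, h0, h1, hR⟩ := hF
  have hI := ideals_Fil (B := ℂ) (K := K) ξ (m := m) (by omega)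
  set R := ric (fun i => Dw ξ i) (chr (fun i => Dw ξ i) g gi) with hRdef
  have hRs : ∀ a b, R a b = R b a := ric_symm (Dw ξ) g gi (Dw_comm ξ) hs hinv
  set h : Fin n → Fin n → Nil K ℂ := fun i j =>
    ⟨fun S => if S.card = m then 2 * (R i j).co S / ∑ k, (∑ a ∈ S, ξ a k) * (∑ a ∈ S, ξ a k) else 0⟩
    with hh
  have hhs : ∀ a b, h a b = h b a := by
    intro a b; simp only [hh]; rw [hRs a b]
  have hhM : ∀ a b, h a b ∈ (Fil m : Ideal (Nil K ℂ)) := by
    intro a b S hS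
    simp only [hh]
    rw [if_neg (by omega)]
  have h0' : ∀ i j, (g i j + h i j).co ∅ = if i = j then 1 else 0 := by
    intro i j
    rw [Nil.co_add, h0, hhM i j ∅ (by simp; omega), add_zero]
  obtain ⟨gi', hinv', hi'⟩ := exists_invN (fun i j => g i j + h i j) h0'
  refine ⟨fun i j => g i j + h i j, gi', ?_, hinv', hi', h0', ?_, ?_⟩
  · intro i j
    change g i j + h i j = g j i + h j i
    rw [hs i j, hhs i j]
  · intro i j a
    rw [Nil.co_add, h1, hhM i j {a} (by simp; omega), add_zero]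
  · intro a b S hS
    have hlin := ric_lin hI hs hhs hinv hinv' (g_sub_kd_mem h0) hhM hi' a b S hS
    rw [Nil.co_sub, Nil.co_sub] at hlin
    have e1 : (ric (fun i => Dw ξ i) (chr (fun i => Dw ξ i) (fun i j => g i j + h i j) gi') a b).co S
        = (R a b).co S + (linRic (Dw ξ) h a b).co S := by
      linear_combination hlin
    rw [e1]
    by_cases hSm : S.card = m
    · have hq := hgen S (by omega)
      have hb : ∀ a, 2 * ∑ c, (∑ s ∈ S, ξ s c) * (R c a).co S = (∑ s ∈ S, ξ s a) * ∑ c, (R c c).co S := by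
        intro a
        have h3 := bianchi_lead hI (Dw_comm ξ) hs hinv (g_sub_kd_mem h0) hi hR a S hS
        rw [two_mul] at h3
        rw [Nil.co_sub, Nil.co_add, Nil.co_sum, co_Dw, Nil.co_sum] at h3
        simp only [co_Dw] at h3
        rw [two_mul]
        linear_combination h3
      rw [co_linRic]
      have hhS : ∀ a b, (h a b).co S =
          2 * (R a b).co S / ∑ k, (∑ a ∈ S, ξ a k) * (∑ a ∈ S, ξ a k) := by
        intro a b; simp only [hh]; rw [if_pos hSm]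
      simp only [hhS]
      exact flat_alg (fun c => ∑ s ∈ S, ξ s c) (fun a b => (R a b).co S)
        (fun a b => by rw [hRs a b]) hq hb a b
    · have hSlt : S.card < m := by omega
      rw [hR a b S hSlt, linRic_co_eq_zero ξ h a b S (fun a b => hhM a b S hSlt), add_zero]

lemma chr_kd (c a b : Fin n) : chr (fun i => Dw ξ i) (fun a b => (kd a b : Nil K ℂ))
    (fun a b => kd a b) c a b = 0 := by
  unfold chr
  simp only [D_kd]
  simp

lemma ric_kd (a b : Fin n) : ric (fun i => Dw ξ i) (chr (fun i => Dw ξ i)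
    (fun a b => (kd a b : Nil K ℂ)) (fun a b => kd a b)) a b = 0 := by
  unfold ric
  simp only [chr_kd, map_zero]
  simp

theorem flat_base (ε : K → Fin n → ℂ)
    (hq : ∀ a, ∑ i, ξ a i * ξ a i = 0) (hp : ∀ a, ∑ i, ξ a i * ε a i = 0)
    (he : ∀ a, ∑ i, ε a i * ε a i = 0) : FlatUpTo ξ ε 2 := by
  have hI := ideals_Fil (B := ℂ) (K := K) ξ (m := 1) le_rfl
  set h : Fin n → Fin n → Nil K ℂ := fun i j =>
    ⟨fun S => if S.card = 1 then ∑ a ∈ S, ε a i * ε a j else 0⟩ with hh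
  have hhs : ∀ a b, h a b = h b a := by
    intro a b; simp only [hh]
    congr 1
    funext S
    congr 1
    exact Finset.sum_congr rfl fun s _ => mul_comm _ _
  have hhM : ∀ a b, h a b ∈ (Fil 1 : Ideal (Nil K ℂ)) := by
    intro a b
    rw [mem_Fil_one]
    simp [hh]
  have h0' : ∀ i j, ((kd i j : Nil K ℂ) + h i j).co ∅ = if i = j then 1 else 0 := by
    intro i j
    rw [Nil.co_add, co_kd, hhM i j ∅ (by simp), add_zero]
  obtain ⟨gi', hinv', hi'⟩ := exists_invN (fun i j => (kd i j : Nil K ℂ) + h i j) h0'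
  have hks : ∀ a b : Fin n, (kd a b : Nil K ℂ) = kd b a := by
    intro a b; unfold kd; simp [eq_comm]
  have hkinv : ∀ a b : Fin n, ∑ c, (kd a c : Nil K ℂ) * kd b c = if a = b then 1 else 0 := by
    intro a b
    simp [kd]
  have hkco : ∀ i j : Fin n, (kd i j : Nil K ℂ).co ∅ = if i = j then 1 else 0 := fun i j => co_kd i j
  have hcoS : ∀ (i j : Fin n) (a : K), (h i j).co {a} = ε a i * ε a j := by
    intro i j a; simp [hh]
  refine ⟨fun i j => kd i j + h i j, gi', ?_, hinv', hi', h0', ?_, ?_⟩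
  · intro i j
    change kd i j + h i j = kd j i + h j i
    rw [hks i j, hhs i j]
  · intro i j a
    rw [Nil.co_add, hcoS]
    unfold kd
    split_ifs
    · rw [Nil.co_one]; simp
    · simp
  · intro a b S hS
    have hlin := ric_lin hI hks hhs hkinv hinv' (g_sub_kd_mem hkco) hhM hi' a b S hS
    rw [ric_kd, sub_zero, Nil.co_sub] at hlin
    have e1 : (ric (fun i => Dw ξ i) (chr (fun i => Dw ξ i)
        (fun i j => (kd i j : Nil K ℂ) + h i j) gi') a b).co S
        = (linRic (Dw ξ) h a b).co S := by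
      linear_combination hlin
    rw [e1]
    by_cases hS1 : S.card = 1
    · obtain ⟨s, rfl⟩ := Finset.card_eq_one.1 hS1
      rw [co_linRic]
      simp only [Finset.sum_singleton, hcoS]
      have e2 : ∑ c, (ξ s c * (ξ s a * (ε s b * ε s c)) + ξ s c * (ξ s b * (ε s a * ε s c))
          - ξ s c * (ξ s c * (ε s a * ε s b)) - ξ s b * (ξ s a * (ε s c * ε s c)))
          = (ξ s a * ε s b + ξ s b * ε s a) * (∑ c, ξ s c * ε s c)
            - (ε s a * ε s b) * (∑ c, ξ s c * ξ s c) - ξ s b * ξ s a * (∑ c, ε s c * ε s c) := by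
        simp only [Finset.mul_sum, ← Finset.sum_sub_distrib]
        exact Finset.sum_congr rfl fun c _ => by ring
      rw [e2, hq, hp, he]
      simp
    · have : S = ∅ := Finset.card_eq_zero.1 (by omega)
      subst this
      exact linRic_co_eq_zero ξ h a b ∅ (fun a b => mem_Fil_one.1 (hhM a b))

/-- **Ricci-flat extension of on-shell plane waves.** -/
theorem exists_ricci_flat (ξ ε : K → Fin n → ℂ)
    (hq : ∀ a, ∑ i, ξ a i * ξ a i = 0) (hp : ∀ a, ∑ i, ξ a i * ε a i = 0)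
    (he : ∀ a, ∑ i, ε a i * ε a i = 0)
    (hgen : ∀ S : Finset K, 2 ≤ S.card → ∑ i, (∑ a ∈ S, ξ a i) * (∑ a ∈ S, ξ a i) ≠ 0) :
    ∃ g gi : Fin n → Fin n → Nil K ℂ, (∀ i j, g i j = g j i) ∧
      (∀ a b, ∑ c, gi a c * g b c = if a = b then 1 else 0) ∧
      (∀ i j, (g i j).co ∅ = if i = j then 1 else 0) ∧ (∀ i j a, (g i j).co {a} = ε a i * ε a j) ∧
      (∀ a b, ric (fun i => Nil.dn (fun _ => 0) ξ i)
        (chr (fun i => Nil.dn (fun _ => 0) ξ i) g gi) a b = 0) := by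
  have hall : ∀ m, FlatUpTo ξ ε (m + 2) := by
    intro m
    induction m with
    | zero => exact flat_base ξ ε hq hp he
    | succ m ih => exact flat_step ξ ε hgen (by omega) ih
  obtain ⟨g, gi, hs, hinv, _, h0, h1, hR⟩ := hall (Fintype.card K)
  exact ⟨g, gi, hs, hinv, h0, h1, fun a b => Fil_top (by omega) (hR a b)⟩

end flat

end

end GJMS
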