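import Pool.Agent.GJMS.EvQ
import Pool.Agent.GJMS.RicFlat

/-! # The symbol vanishes on shell -/

open Finset MvPolynomial

set_option linter.unusedSectionVars false

namespace GJMS

noncomputable section

namespace Nil

variable {α B : Type} [DecidableEq α] [CommRing B] [Algebra ℝ B]

/-- inclusion of `Nil α B` in `Nil (Option α) B` -/
def emb (α B : Type) [DecidableEq α] [CommRing B] [Algebra ℝ B] : Nil α B →ₐ[ℝ] Nil (Option α) B where
  toFun F := ⟨fun S => if none ∈ S then 0 else F.co S.eraseNone⟩
  map_one' := by
    ext S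
    simp only [co_one]
    by_cases h : none ∈ S
    · rw [if_pos h, if_neg]
      rintro rfl
      simp at h
    · rw [if_neg h]
      by_cases hS : S = ∅
      · subst hS; simp
      · rw [if_neg hS, if_neg]
        intro h2
        apply hS
        ext b
        rcases b with _ | a
        · simp [h]
        · rw [← Finset.mem_eraseNone, h2]; simp
  map_mul' F G := by
    ext S
    simp only [co_mul]
    by_cases h : none ∈ S
    · rw [if_pos h]
      symm
      refine Finset.sum_eq_zero fun T _ => ?_
      by_cases h1 : none ∈ T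
      · rw [if_pos h1, zero_mul]
      · rw [if_pos (Finset.mem_sdiff.2 ⟨h, h1⟩), mul_zero]
    · rw [if_neg h]
      refine Finset.sum_bij' (fun T _ => T.map Function.Embedding.some) (fun T _ => T.eraseNone)
        ?_ ?_ ?_ ?_ ?_
      · intro T hT
        rw [Finset.mem_powerset] at hT ⊢
        intro b hb
        obtain ⟨a, ha, rfl⟩ := Finset.mem_map.1 hb
        exact Finset.mem_eraseNone.1 (hT ha)
      · intro T hT
        rw [Finset.mem_powerset] at hT ⊢
        intro a ha
        exact Finset.mem_eraseNone.2 (hT (Finset.mem_eraseNone.1 ha))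
      · intro T hT
        ext a; simp
      · intro T hT
        rw [Finset.mem_powerset] at hT
        ext b
        rcases b with _ | a
        · simp only [Finset.mem_map, Function.Embedding.some_apply, reduceCtorEq, and_false,
            exists_false, false_iff]
          exact fun hb => h (hT hb)
        · simp
      · intro T hT
        have h1 : none ∉ T.map Function.Embedding.some := by simp
        have h2 : none ∉ S \ T.map Function.Embedding.some := fun h3 => h (Finset.mem_sdiff.1 h3).1
        rw [if_neg h1, if_neg h2]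
        congr 2
        · ext a; simp
        · ext a; simp
  map_zero' := by ext S; simp
  map_add' F G := by
    ext S
    simp only [co_add]
    split_ifs <;> simp
  commutes' r := by
    ext S
    rw [algebraMap_eq, algebraMap_eq, co_cst]
    simp only [co_cst]
    by_cases h : none ∈ S
    · rw [if_pos h, if_neg]
      rintro rfl
      simp at h
    · rw [if_neg h]
      by_cases hS : S = ∅
      · subst hS; simp
      · rw [if_neg hS, if_neg]
        intro h2
        apply hS
        ext b
        rcases b with _ | a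
        · simp [h]
        · rw [← Finset.mem_eraseNone, h2]; simp

lemma co_emb (F : Nil α B) (S : Finset (Option α)) :
    (emb α B F).co S = if none ∈ S then 0 else F.co S.eraseNone := rfl

lemma emb_dn {n : ℕ} (ξ : α → Fin n → B) (ξ' : Option α → Fin n → B) (h : ∀ a, ξ' (some a) = ξ a)
    (i : Fin n) (F : Nil α B) :
    emb α B (dn (fun _ => 0) ξ i F) = dn (fun _ => 0) ξ' i (emb α B F) := by
  ext S
  rw [co_emb, co_dn, co_dn, co_emb]
  by_cases hS : none ∈ S
  · rw [if_pos hS, if_pos hS]; simp
  · rw [if_neg hS, if_neg hS]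
    simp only [Derivation.zero_apply, zero_add]
    congr 1
    have h1 : S = S.eraseNone.map Function.Embedding.some := by
      ext b
      rcases b with _ | a
      · simp [hS]
      · simp
    conv_rhs => rw [h1]
    rw [Finset.sum_map]
    refine Finset.sum_congr rfl fun a _ => ?_
    rw [Function.Embedding.some_apply, h]

end Nil

variable {α : Type} [Fintype α] [DecidableEq α] {n : ℕ}

variable (E : NatOp n) (k : ℕ) (hk : ∀ d ∈ E.q.support, k ≤ Finsupp.weight wg d)

include hk in
theorem QQ_shell (hα : Fintype.card α = k) (x : Lab α Unit × Fin n → ℂ)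
    (hx : ∀ a : α, ∑ i, x (xi a, i) * x (xi a, i) = 0 ∧ ∑ i, x (xi a, i) * x (ep a, i) = 0 ∧
      ∑ i, x (ep a, i) * x (ep a, i) = 0)
    (hgen : ∀ S : Finset α, 2 ≤ S.card →
      ∑ i, (∑ a ∈ S, x (xi a, i)) * (∑ a ∈ S, x (xi a, i)) ≠ 0) :
    aeval x (QQ α (E.lc k)) = 0 := by
  classical
  set φ : SS α n →ₐ[ℝ] ℂ := aeval x with hφ
  obtain ⟨g, gi, hg, hgi, hg0, hg1, hric⟩ := exists_ricci_flat (K := α) (n := n)
    (fun a i => x (xi a, i)) (fun a i => x (ep a, i)) (fun a => (hx a).1) (fun a => (hx a).2.1)
    (fun a => (hx a).2.2) hgen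
  set ι := Nil.emb α ℂ with hι
  set D : Fin n → Derivation ℝ (Nil α ℂ) (Nil α ℂ) := Nil.dn (fun _ => 0) (fun a i => x (xi a, i)) with hD
  set D' : Fin n → Derivation ℝ (Nil (Option α) ℂ) (Nil (Option α) ℂ) :=
    Nil.dn (fun _ : Fin n => (0 : Derivation ℝ ℂ ℂ)) (fun b i => φ (wx b i)) with hD'
  have hDD : ∀ i F, ι (D i F) = D' i (ι F) := by
    intro i F
    refine Nil.emb_dn _ _ (fun a => ?_) i F
    funext i
    show φ (X (xi a, i)) = _
    rw [hφ, aeval_X]
  set g' : Fin n → Fin n → Nil (Option α) ℂ := fun i l => ι (g i l) with hg'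
  set gi' : Fin n → Fin n → Nil (Option α) ℂ := fun i l => ι (gi i l) with hgi'
  have hgs' : ∀ a b, g' a b = g' b a := by intro a b; rw [hg']; simp only; rw [hg]
  have hinv' : ∀ a b, ∑ c, gi' a c * g' b c = if a = b then 1 else 0 := by
    intro a b
    rw [hg', hgi']
    simp only
    simp_rw [← map_mul]
    rw [← map_sum, hgi]
    split_ifs
    · exact map_one ι
    · exact map_zero ι
  have hrel := relOK_hom (fun i => D i) (fun i => D' i) ι hDD
  have hric' : ∀ a b, ric (fun i => D' i) (chr (fun i => D' i) g' gi') a b = 0 := by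
    intro a b
    have h1 := hrel.ric (hrel.chr (g := g) (gi := gi) (g' := g') (gi' := gi')
      (fun a b => rfl) (fun a b => rfl)) a b
    rw [hric a b, map_zero] at h1
    exact h1.symm
  have h1 := ev_QQ E k hk hα φ g' gi' (Nil.sg none 1) hgs' hinv' ?_ ?_ ?_ ?_ ?_ ?_
  · rw [← h1, E.van D' (fun i j x => Nil.dn_comm _ (fun _ _ _ => rfl) _ (fun _ _ _ => rfl) i j x)
      g' gi' hgs' hinv' (Nil.sg none 1) hric']
    rfl
  · intro i l
    rw [hg']
    simp only
    rw [hι, Nil.co_emb, if_neg (by simp), Finset.eraseNone_empty, hg0]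
    rfl
  · intro i l a
    rw [hg']
    simp only
    rw [hι, Nil.co_emb, if_neg (by simp)]
    have h2 : Finset.eraseNone ({some a} : Finset (Option α)) = {a} := by
      ext b; simp
    rw [h2, hg1, hφ, map_mul, aeval_X, aeval_X]
  · intro i l
    rw [hg']
    simp only
    rw [hι, Nil.co_emb, if_pos (by simp)]
  · rw [Nil.co_sg, if_neg (Finset.singleton_ne_empty _).symm]
  · rw [Nil.co_sg, if_pos rfl]
  · intro a
    rw [Nil.co_sg, if_neg]
    intro h2
    have := Finset.singleton_injective h2
    cases this

end

end GJMS
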