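import Pool.Agent.GJMS.SymM

/-! # Euler and special conformal equations for the symbol -/

open Finset MvPolynomial

set_option linter.unusedSectionVars false

namespace GJMS

noncomputable section

variable {α : Type} [Fintype α] [DecidableEq α] {n : ℕ}

lemma xs_eq (b : Option α) (s : Multiset (Fin n)) : xs b s = (xl b s.toList : SS α n) := by
  unfold xs xl
  conv_lhs => rw [← Multiset.coe_toList s]
  rw [Multiset.map_coe, Multiset.prod_coe]

lemma C_dl (i j : Fin n) : (C (dl i j) : SX α n) = dl i j :=
  jetHom_map_dl (C : SS α n →+* SX α n) i j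

lemma Tl_Cr (b : Option α) (l : List (Fin n)) (g : SS α n) (h : SX α n) :
    Tl b l (h * C g) = g * Tl b l h := by
  rw [mul_comm, Tl_C]

lemma Tl_dl_mul (b : Option α) (l : List (Fin n)) (i j : Fin n) (h : SX α n) :
    Tl b l (dl i j * h) = dl i j * Tl b l h := by
  rw [← C_dl, Tl_C]

lemma Tl_two (b : Option α) (l : List (Fin n)) (h : SX α n) :
    Tl b l (2 * h) = 2 * Tl b l h := by
  have : (2 : SX α n) = C 2 := (map_ofNat C 2).symm
  rw [this, Tl_C]

lemma pderiv_wv_ep (b : Option α) (a : α) (i j : Fin n) :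
    pderiv (wv b, i) (X (ep a, j) : SS α n) = 0 := by
  apply pderiv_X_ne
  intro h
  have h1 := (Prod.ext_iff.1 h).1
  rcases b with _ | a' <;> cases h1

lemma xi_eq_wv (a : α) : (xi a : Lab α Unit) = wv (some a) := rfl
lemma ex_eq_wv : (ex () : Lab α Unit) = wv none := rfl

lemma amp_some_some (a : α) (i l : Fin n) :
    amp (some a) (some s(i, l)) = (X (ep a, i) * X (ep a, l) : SS α n) := rfl

lemma jt_some_none (a : α) (s : Multiset (Fin n)) : jt (some a) ((none : Fld n), s) = 0 := by
  show (0 : SS α n) * _ = 0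
  rw [zero_mul]

lemma jt_none_some (t : Sym2 (Fin n)) (s : Multiset (Fin n)) :
    jt (none : Option α) ((some t : Fld n), s) = 0 := by
  show (0 : SS α n) * _ = 0
  rw [zero_mul]

lemma jt_none_none (s : Multiset (Fin n)) :
    jt (none : Option α) ((none : Fld n), s) = xl none s.toList := by
  show (1 : SS α n) * xs none s = _
  rw [one_mul, xs_eq]

lemma jt_some_some (a : α) (i l : Fin n) (s : Multiset (Fin n)) :
    jt (some a) (some s(i, l), s) = X (ep a, i) * X (ep a, l) * (xl (some a) s.toList : SS α n) := by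
  unfold jt
  rw [xs_eq]
  rfl

lemma HH_some (y : Fin n → SX α n) (s : SX α n) (a : α) (i l : Fin n) :
    HH y s (some a) (some s(i, l))
      = (∑ c, (y c * (C (wx (some a) c) * C (X (ep a, i) * X (ep a, l)))
      + px i (y c) * C (X (ep a, c) * X (ep a, l)) + px l (y c) * C (X (ep a, i) * X (ep a, c))))
      - 2 * s * C (X (ep a, i) * X (ep a, l)) := by
  exact fld_some (HHm y s a) (HHm_symm y s a) 0 i l

/-! ### Euler -/

lemma euler_some (a : α) (v : Fld n × Multiset (Fin n)) :
    Tl (some a) v.2.toList (HH (fun c => X c) 1 (some a) v.1)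
      = RR n (xi a) (xi a) (jt (some a) v : SS α n) := by
  obtain ⟨o, s⟩ := v
  rcases o with _ | t
  · rw [jt_some_none]
    show Tl (some a) s.toList 0 = _
    rw [Tl_zero]
    unfold RR
    simp
  · induction t using Sym2.ind with
    | _ i l =>
      rw [jt_some_some]
      show Tl (some a) s.toList (HH (fun c => X c) 1 (some a) (some s(i, l))) = _
      rw [HH_some, Tl_sub, Tl_sum]
      simp_rw [Tl_add, px_X, Tl_dl_mul, mul_one]
      have h1 : ∀ c : Fin n, Tl (some a) s.toList (X c * (C (wx (some a) c) * C (X (ep a, i) * X (ep a, l))) : SX α n)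
          = wx (some a) c * (X (ep a, i) * X (ep a, l)) * pderiv (wv (some a), c) (xl (some a) s.toList) := by
        intro c
        rw [← map_mul, Tl_Cr, Tl_X]
      have h2 : ∀ z : SS α n, Tl (some a) s.toList (C z) = z * xl (some a) s.toList := by
        intro z
        have := Tl_C (some a) s.toList z 1
        rw [mul_one, Tl_one] at this
        exact this
      simp_rw [h1, h2]
      rw [Finset.sum_add_distrib, Finset.sum_add_distrib]
      have h3 : ∀ (i : Fin n) (x : Fin n → SS α n), ∑ c, dl i c * x c = x i := by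
        intro i x; unfold dl; simp
      rw [h3, h3, Tl_two, h2]
      unfold RR
      have h4 : ∀ c : Fin n, X (xi a, c) * pderiv (xi a, c) (X (ep a, i) * X (ep a, l) * xl (some a) s.toList : SS α n)
          = wx (some a) c * (X (ep a, i) * X (ep a, l)) * pderiv (wv (some a), c) (xl (some a) s.toList) := by
        intro c
        rw [xi_eq_wv, Derivation.leibniz, Derivation.leibniz, pderiv_wv_ep, pderiv_wv_ep]
        simp only [smul_eq_mul, mul_zero, add_zero]
        unfold wx
        ring
      simp_rw [h4]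
      ring

lemma euler_none (v : Fld n × Multiset (Fin n)) :
    Tl none v.2.toList (HH (fun c => X c) 1 (none : Option α) v.1)
      = RR n (ex ()) (ex ()) (jt none v : SS α n) := by
  obtain ⟨o, s⟩ := v
  rcases o with _ | t
  · rw [jt_none_none]
    show Tl none s.toList (∑ c, X c * C (wx none c)) = _
    rw [Tl_sum]
    unfold RR
    refine Finset.sum_congr rfl fun c _ => ?_
    rw [Tl_Cr, Tl_X]
    rfl
  · rw [jt_none_some]
    show Tl none s.toList 0 = _
    rw [Tl_zero]
    unfold RR
    simp

variable (E : NatOp n) (hE : ConfInf E.toNatFam) (k : ℕ) (hk : ∀ d ∈ E.q.support, k ≤ Finsupp.weight wg d)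

include hE hk in
theorem QQ_euler :
    ∑ a : α, RR n (xi a) (xi a) (QQ α (E.lc k)) + RR n (ex ()) (ex ()) (QQ α (E.lc k))
      = n * QQ α (E.lc k) := by
  have h1 := master (α := α) E hE k hk (fun c => X c) 1 (fun a b => by
    rw [px_X, px_X, dl_symm b a]; ring) (fun c => by simp)
  rw [map_one, mul_one, Fintype.sum_option] at h1
  simp_rw [euler_none, euler_some] at h1
  rw [← h1, add_comm]
  congr 1
  · rw [← RR_PP _ _ _ _ lb_ex, ← QQ_eq]
  · refine Finset.sum_congr rfl fun a _ => ?_
    rw [← RR_PP _ _ _ _ (lb_xi a), ← QQ_eq]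

include hE hk in
theorem QQ_degXi : ∀ d ∈ (QQ α (E.lc k)).support,
    ∑ a : α, ldeg (xi a) d + ∑ o : Unit, ldeg (ex o) d = n := by
  intro d hd
  have h1 := congrArg (coeff d) (QQ_euler (α := α) E hE k hk)
  rw [coeff_add, coeff_sum] at h1
  simp_rw [coeff_RR] at h1
  have h2 : coeff d ((n : SS α n) * QQ α (E.lc k)) = n * coeff d (QQ α (E.lc k)) := by
    have : (n : SS α n) = C (n : ℝ) := (map_natCast C n).symm
    rw [this, coeff_C_mul]
  rw [h2, ← Finset.sum_mul, ← add_mul] at h1
  have h3 : coeff d (QQ α (E.lc k)) ≠ 0 := MvPolynomial.mem_support_iff.1 hd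
  have h4 := mul_right_cancel₀ h3 h1
  have h5 : ∑ o : Unit, ldeg (ex o : Lab α Unit) d = ldeg (ex ()) d := by
    rw [Fintype.sum_unique]
  rw [h5]
  have : ((∑ a : α, ldeg (xi a) d + ldeg (ex ()) d : ℕ) : ℝ) = n := by
    push_cast
    exact h4
  exact_mod_cast this

/-! ### special conformal -/

/-- the special conformal field -/
def yK (α : Type) (m c : Fin n) : SX α n := 2 * (X m * X c) - (∑ e, X e * X e) * dl c m

lemma px_yK (m c i : Fin n) :
    px i (yK α m c) = 2 * (dl i m * X c) + 2 * (dl i c * X m) - 2 * (dl c m * X i) := by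
  unfold yK
  have h0 : ∀ i j k : Fin n, px i (dl j k : SX α n) = 0 := by
    intro i j k
    rw [← C_dl, px_C]
  have h1 : px i (∑ e, X e * X e : SX α n) = 2 * X i := by
    rw [map_sum]
    simp only [Derivation.leibniz, smul_eq_mul, px_X]
    have h3 : ∀ (i : Fin n) (x : Fin n → SX α n), ∑ c, dl i c * x c = x i := by
      intro i x; unfold dl; simp
    have h4 : ∀ e : Fin n, (X e * dl i e + X e * dl i e : SX α n) = dl i e * (2 * X e) := by
      intro e; ring
    simp_rw [h4]
    rw [h3]
  have h2 : px i (2 : SX α n) = 0 := by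
    have : (2 : SX α n) = C 2 := (map_ofNat C 2).symm
    rw [this, px_C]
  rw [map_sub, Derivation.leibniz, Derivation.leibniz, Derivation.leibniz, h1, h0, px_X, px_X, h2]
  simp only [smul_eq_mul]
  ring

lemma yK_CK (m a b : Fin n) :
    px a (yK α m b) + px b (yK α m a) = 2 * (2 * X m) * dl a b := by
  rw [px_yK, px_yK, dl_symm b a]
  ring

lemma Tl_yK (b : Option α) (l : List (Fin n)) (m c : Fin n) :
    Tl b l (yK α m c) = 2 * pderiv (wv b, c) (pderiv (wv b, m) (xl b l))
      - dl c m * ∑ e, pderiv (wv b, e) (pderiv (wv b, e) (xl b l)) := by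
  unfold yK
  rw [Tl_sub, Tl_two, mul_comm (X m) (X c), Tl_XX, mul_comm (∑ e, X e * X e) (dl c m), Tl_dl_mul,
    Tl_sum]
  simp_rw [Tl_XX]

lemma Tl_pyK (b : Option α) (l : List (Fin n)) (m c i : Fin n) :
    Tl b l (px i (yK α m c)) = 2 * (dl i m * pderiv (wv b, c) (xl b l))
      + 2 * (dl i c * pderiv (wv b, m) (xl b l)) - 2 * (dl c m * pderiv (wv b, i) (xl b l)) := by
  rw [px_yK, Tl_sub, Tl_add, Tl_two, Tl_two, Tl_two, Tl_dl_mul, Tl_dl_mul, Tl_dl_mul, Tl_X, Tl_X,
    Tl_X]

lemma conf_none (m : Fin n) (v : Fld n × Multiset (Fin n)) :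
    Tl none v.2.toList (HH (yK α m) (2 * X m) (none : Option α) v.1)
      = - KO n m () (jt none v : SS α n) := by
  obtain ⟨o, s⟩ := v
  rcases o with _ | t
  · rw [jt_none_none]
    show Tl none s.toList (∑ c, yK α m c * C (wx none c)) = _
    rw [Tl_sum]
    simp_rw [Tl_Cr, Tl_yK]
    unfold KO LL RR
    rw [ex_eq_wv]
    simp_rw [mul_sub]
    rw [Finset.sum_sub_distrib]
    have h1 : (∑ c : Fin n, wx none c * (dl c m * ∑ e, pderiv (wv none, e)
        (pderiv (wv none, e) (xl (none : Option α) s.toList))))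
        = wx none m * ∑ e, pderiv (wv none, e) (pderiv (wv none, e) (xl (none : Option α) s.toList)) := by
      rw [Finset.sum_eq_single m]
      · unfold dl; simp
      · intro c _ hc
        unfold dl; rw [if_neg hc]; ring
      · intro h; exact absurd (Finset.mem_univ m) h
    rw [h1]
    have h2 : (∑ c : Fin n, wx none c * (2 * pderiv (wv none, c) (pderiv (wv none, m)
        (xl (none : Option α) s.toList))))
        = 2 * ∑ c : Fin n, X (wv none, c) * pderiv (wv none, c) (pderiv (wv none, m)
        (xl (none : Option α) s.toList)) := by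
      rw [Finset.mul_sum]
      refine Finset.sum_congr rfl fun c _ => ?_
      unfold wx
      ring
    rw [h2]
    unfold wx
    ring
  · rw [jt_none_some]
    show Tl none s.toList 0 = _
    rw [Tl_zero]
    unfold KO LL RR
    simp

lemma conf_some (m : Fin n) (a : α) (v : Fld n × Multiset (Fin n)) :
    Tl (some a) v.2.toList (HH (yK α m) (2 * X m) (some a) v.1)
      = - KA n m a (jt (some a) v : SS α n) := by
  obtain ⟨o, s⟩ := v
  rcases o with _ | t
  · rw [jt_some_none]
    show Tl (some a) s.toList 0 = _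
    rw [Tl_zero]
    unfold KA LL RR
    simp
  · induction t using Sym2.ind with
    | _ i l =>
      rw [jt_some_some]
      show Tl (some a) s.toList (HH (yK α m) (2 * X m) (some a) (some s(i, l))) = _
      rw [HH_some, Tl_sub, Tl_sum]
      have e1 : ∀ c : Fin n, Tl (some a) s.toList (yK α m c * (C (wx (some a) c) *
          C (X (ep a, i) * X (ep a, l))) + px i (yK α m c) * C (X (ep a, c) * X (ep a, l))
          + px l (yK α m c) * C (X (ep a, i) * X (ep a, c)))
          = wx (some a) c * (X (ep a, i) * X (ep a, l)) * Tl (some a) s.toList (yK α m c)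
            + X (ep a, c) * X (ep a, l) * Tl (some a) s.toList (px i (yK α m c))
            + X (ep a, i) * X (ep a, c) * Tl (some a) s.toList (px l (yK α m c)) := by
        intro c
        rw [Tl_add, Tl_add, ← map_mul C, Tl_Cr, Tl_Cr, Tl_Cr]
      simp_rw [e1, Tl_yK, Tl_pyK]
      have e2 : Tl (some a) s.toList (2 * (2 * X m) * C (X (ep a, i) * X (ep a, l)) : SX α n)
          = 4 * (X (ep a, i) * X (ep a, l)) * pderiv (wv (some a), m) (xl (some a) s.toList) := by
        rw [Tl_Cr, Tl_two, Tl_two, Tl_X]; ring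
      rw [e2]
      set P : SS α n := xl (some a) s.toList with hP
      set ξ : Fin n → SS α n := fun c => wx (some a) c with hξ
      set ε : Fin n → SS α n := fun c => X (ep a, c) with hε
      set P1 : Fin n → SS α n := fun c => pderiv (wv (some a), c) P with hP1
      set P2 : Fin n → Fin n → SS α n := fun c d => pderiv (wv (some a), c) (pderiv (wv (some a), d) P)
        with hP2
      -- the left-hand side
      have f1 : (∑ c : Fin n, (ξ c * (ε i * ε l) * (2 * P2 c m - dl c m * ∑ e, P2 e e)
          + ε c * ε l * (2 * (dl i m * P1 c) + 2 * (dl i c * P1 m) - 2 * (dl c m * P1 i))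
          + ε i * ε c * (2 * (dl l m * P1 c) + 2 * (dl l c * P1 m) - 2 * (dl c m * P1 l))))
          = ε i * ε l * (2 * (∑ c, ξ c * P2 c m) - ξ m * ∑ e, P2 e e)
            + (2 * (dl i m * ε l * ∑ c, ε c * P1 c) + 2 * (ε i * ε l * P1 m) - 2 * (ε m * ε l * P1 i))
            + (2 * (dl l m * ε i * ∑ c, ε c * P1 c) + 2 * (ε i * ε l * P1 m) - 2 * (ε i * ε m * P1 l)) := by
        have g1 : ∀ (x : Fin n → SS α n) (j : Fin n), ∑ c, dl j c * x c = x j := by
          intro x j; unfold dl; simp
        have g2 : ∀ (x : Fin n → SS α n) (j : Fin n), ∑ c, dl c j * x c = x j := by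
          intro x j; unfold dl; simp
        rw [Finset.sum_add_distrib, Finset.sum_add_distrib]
        have h1 : (∑ c : Fin n, ξ c * (ε i * ε l) * (2 * P2 c m - dl c m * ∑ e, P2 e e))
            = ε i * ε l * (2 * (∑ c, ξ c * P2 c m) - ξ m * ∑ e, P2 e e) := by
          rw [← g2 (fun c => ξ c * ∑ e, P2 e e) m, Finset.mul_sum, ← Finset.sum_sub_distrib,
            Finset.mul_sum]
          exact Finset.sum_congr rfl fun c _ => by ring
        have h2 : ∀ i l : Fin n, (∑ c : Fin n, ε c * ε l * (2 * (dl i m * P1 c) + 2 * (dl i c * P1 m)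
            - 2 * (dl c m * P1 i)))
            = (2 * (dl i m * ε l * ∑ c, ε c * P1 c) + 2 * (ε i * ε l * P1 m) - 2 * (ε m * ε l * P1 i)) := by
          intro i l
          rw [← g2 (fun c => ε c * ε l * P1 i) m, ← g1 (fun c => ε c * ε l * P1 m) i, Finset.mul_sum,
            Finset.mul_sum, Finset.mul_sum, Finset.mul_sum, ← Finset.sum_add_distrib,
            ← Finset.sum_sub_distrib]
          exact Finset.sum_congr rfl fun c _ => by ring
        rw [h1, h2 i l]
        have h3 := h2 l i
        have h4 : (∑ c : Fin n, ε i * ε c * (2 * (dl l m * P1 c) + 2 * (dl l c * P1 m)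
            - 2 * (dl c m * P1 l)))
            = ∑ c : Fin n, ε c * ε i * (2 * (dl l m * P1 c) + 2 * (dl l c * P1 m)
            - 2 * (dl c m * P1 l)) := Finset.sum_congr rfl fun c _ => by ring
        rw [h4, h3]
        ring
      refine Eq.trans (congrArg (fun z => z - 4 * (ε i * ε l) * P1 m) f1) ?_
      -- the right-hand side
      have hεP : ∀ c j : Fin n, pderiv (ep a, c) (ε j) = dl c j := fun c j => pderiv_ep_X a c j
      have hεP' : ∀ c : Fin n, pderiv (ep a, c) P = 0 := by
        intro c; rw [hP, ← xs_eq]; exact pderiv_ep_xs a c s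
      have hξε : ∀ c j : Fin n, pderiv (wv (some a), c) (ε j) = 0 := fun c j => pderiv_wv_ep _ _ _ _
      have hdl : ∀ (v : Lab α Unit × Fin n) (i j : Fin n), pderiv v (dl i j : SS α n) = 0 :=
        fun v i j => pderiv_dl v i j
      have k1 : LL n (xi a) (xi a) (ε i * ε l * P) = ε i * ε l * ∑ c, P2 c c := by
        unfold LL
        rw [xi_eq_wv, Finset.mul_sum]
        refine Finset.sum_congr rfl fun c _ => ?_
        simp only [Derivation.leibniz, smul_eq_mul, hξε, mul_zero, add_zero]
        rfl
      have k2 : RR n (xi a) (xi a) (pderiv (xi a, m) (ε i * ε l * P)) = ε i * ε l * ∑ c, ξ c * P2 c m := by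
        unfold RR
        rw [xi_eq_wv, Finset.mul_sum]
        refine Finset.sum_congr rfl fun c _ => ?_
        simp only [Derivation.leibniz, smul_eq_mul, hξε, mul_zero, add_zero]
        rw [hξ, hP2]
        simp only
        unfold wx
        ring
      have k3 : LL n (xi a) (ep a) (ε i * ε l * P) = ε l * P1 i + ε i * P1 l := by
        unfold LL
        have g : ∀ c : Fin n, pderiv (xi a, c) (pderiv (ep a, c) (ε i * ε l * P))
            = dl c i * (ε l * P1 c) + dl c l * (ε i * P1 c) := by
          intro c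
          rw [xi_eq_wv]
          simp only [Derivation.leibniz, smul_eq_mul, hεP, hεP', mul_zero, zero_add, map_add, hξε, hdl,
            add_zero]
          ring
        simp_rw [g]
        rw [Finset.sum_add_distrib, sum_dl, sum_dl]
      have k4 : RR n (xi a) (ep a) (pderiv (ep a, m) (ε i * ε l * P))
          = dl m i * (ε l * ∑ c, ε c * P1 c) + dl m l * (ε i * ∑ c, ε c * P1 c) := by
        unfold RR
        rw [Finset.mul_sum, Finset.mul_sum, Finset.mul_sum, Finset.mul_sum, ← Finset.sum_add_distrib]
        refine Finset.sum_congr rfl fun c _ => ?_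
        rw [xi_eq_wv]
        simp only [Derivation.leibniz, smul_eq_mul, hεP, hεP', mul_zero, zero_add, map_add, hξε, hdl,
          add_zero]
        ring
      unfold KA
      have k5 : (X (ep a, i) * X (ep a, l) * P : SS α n) = ε i * ε l * P := rfl
      rw [k5, k1, k2, k3, k4, dl_symm m i, dl_symm m l]
      have k6 : (X (xi a, m) : SS α n) = ξ m := rfl
      have k7 : (X (ep a, m) : SS α n) = ε m := rfl
      rw [k6, k7]
      ring

include hE hk in
theorem QQ_conf (m : Fin n) : KK n m (QQ α (E.lc k)) = 0 := by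
  have h1 := master (α := α) E hE k hk (yK α m) (2 * X m) (fun a b => yK_CK m a b) (fun c => by
    unfold yK
    simp)
  rw [map_mul, constantCoeff_X, mul_zero, mul_zero, zero_mul, Fintype.sum_option] at h1
  simp_rw [conf_none, conf_some] at h1
  have h2 : ∀ (b : Option α) (w : Fld n × Multiset (Fin n) → SS α n),
      PP (E.lc k) b (fun v => - w v) = - PP (E.lc k) b w := by
    intro b w
    unfold PP
    rw [← Finset.sum_neg_distrib]
    exact Finset.sum_congr rfl fun v _ => by ring
  simp_rw [h2] at h1
  rw [← KO_PP, ← QQ_eq] at h1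
  have h3 : ∀ a : α, PP (E.lc k) (some a) (fun v => KA n m a (jt (some a) v))
      = KA n m a (QQ α (E.lc k)) := by
    intro a
    rw [← KA_PP, ← QQ_eq]
  simp_rw [h3] at h1
  unfold KK
  rw [Finset.sum_neg_distrib] at h1
  have h4 : ∑ o : Unit, KO n m o (QQ α (E.lc k)) = KO n m () (QQ α (E.lc k)) := by
    rw [Fintype.sum_unique]
  rw [h4]
  linear_combination -h1

end

end GJMS
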