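import Pool.Agent.GJMS.GramNil
import Pool.Agent.GJMS.Shell
import Pool.Agent.GJMS.SymN
import Pool.Agent.GJMS.Alg

/-! # Natural operators of weight `n` which vanish on Ricci flat metrics -/

open Finset MvPolynomial

namespace GJMS

noncomputable section

variable {n : ℕ}

theorem symbolData {α : Type} [Fintype α] [DecidableEq α] (E : NatOp n) (hE : ConfInf E.toNatFam)
    (k : ℕ) (hk : ∀ d ∈ E.q.support, k ≤ Finsupp.weight wg d) (hα : Fintype.card α = k) :
    SymbolData n (QQ α (E.lc k)) where
  gram := QQ_gram E k hk hα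
  gauge := QQ_gauge E k hk
  trace := QQ_trace E hE k hk
  conf := QQ_conf E hE k hk
  degEp := fun d hd a => QQ_degEp (E.lc k) a d hd
  degXi := QQ_degXi E hE k hk
  shell := QQ_shell E k hk hα

theorem q_eq_zero (hn : 2 ≤ n) (E : NatOp n) (hE : ConfInf E.toNatFam) : E.q = 0 := by
  classical
  by_contra hq
  obtain ⟨d0, hd0, hmin⟩ := Finset.exists_min_image E.q.support (fun d => Finsupp.weight wg d)
    (by rw [Finset.nonempty_iff_ne_empty]; intro h; exact hq (MvPolynomial.support_eq_empty.1 h))
  set k := Finsupp.weight wg d0 with hkdef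
  have hk : ∀ d ∈ E.q.support, k ≤ Finsupp.weight wg d := hmin
  have h1 : QQ (Fin k) (E.lc k) = 0 :=
    alg_main hn _ (symbolData E hE k hk (Fintype.card_fin k))
  have hsupp : ∀ d ∈ (E.lc k).support, d ∈ E.q.support ∧ Finsupp.weight wg d = k := by
    intro d hd
    rw [MvPolynomial.mem_support_iff] at hd ⊢
    unfold NatOp.lc at hd
    rw [coeff_weightedHomogeneousComponent] at hd
    split_ifs at hd with h
    · exact ⟨hd, h⟩
    · exact absurd rfl hd
  have h2 := QQ_inj (α := Fin k) (E.lc k) (fun d hd => by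
    rw [Fintype.card_fin]; exact (hsupp d hd).2) (fun d hd => E.wf_one d (hsupp d hd).1) h1
  have h3 : coeff d0 (E.lc k) = coeff d0 E.q := by
    unfold NatOp.lc
    rw [coeff_weightedHomogeneousComponent, if_pos rfl]
  rw [h2, coeff_zero] at h3
  exact MvPolynomial.mem_support_iff.1 hd0 h3.symm

/-- **Main theorem.** A natural linear operator of conformal weight `n` which vanishes on Ricci flat
metrics is zero. -/
theorem main (hn : 2 ≤ n) (E : NatOp n) (hE : ConfInf E.toNatFam) : E.p = 0 :=
  E.p_eq_zero (q_eq_zero hn E hE)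

end

end GJMS
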