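import Pool.Agent.GJMS.Jet
import Pool.Agent.GJMS.Cov
import Pool.Agent.GJMS.GramSys

/-! # Natural operators over all differential rings -/

open Finset MvPolynomial

namespace GJMS

noncomputable section

/-- A natural operator on functions: universal coordinate formulas valid over all
commutative `ℝ`-algebras with `n` maps `d i`. -/
structure NatFam (n : ℕ) where
  /-- the value of the operator -/
  ev : ∀ (A : Type) [CommRing A] [Algebra ℝ A], (Fin n → A → A) → (Fin n → Fin n → A) →
    (Fin n → Fin n → A) → A → A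
  /-- it is given by universal formulas -/
  rel : ∀ {A B : Type} [CommRing A] [Algebra ℝ A] [CommRing B] [Algebra ℝ B]
    {dA : Fin n → A → A} {dB : Fin n → B → B} {R : A → B → Prop}, RelOK dA dB R →
    ∀ {g gi : Fin n → Fin n → A} {g' gi' : Fin n → Fin n → B} {f : A} {f' : B},
    (∀ a b, R (g a b) (g' a b)) → (∀ a b, R (gi a b) (gi' a b)) → R f f' →
    R (ev A dA g gi f) (ev B dB g' gi' f')

/-- A natural linear operator on functions which vanishes if the Ricci curvature
vanishes. -/
structure NatOp (n : ℕ) extends NatFam n where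
  /-- it is covariant under infinitesimal diffeomorphisms -/
  cov : ∀ {A : Type} [CommRing A] [Algebra ℝ A] (D : Fin n → Derivation ℝ A A),
    (∀ i j x, D i (D j x) = D j (D i x)) → ∀ (N : Ideal A), (∀ x ∈ N, ∀ y ∈ N, x * y = 0) →
    (∀ i, ∀ x ∈ N, D i x ∈ N) → ∀ (X : Fin n → A), (∀ c, X c ∈ N) →
    ∀ (g gi : Fin n → Fin n → A), (∀ a b, g a b = g b a) →
    (∀ a b, ∑ c, gi a c * g b c = if a = b then 1 else 0) → ∀ f : A,
    ev A (fun i => D i) (fun a b => g a b + lieL (fun i => D i) X g a b)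
      (fun a b => gi a b + lieU (fun i => D i) X gi a b) (f + vf D X f)
    = ev A (fun i => D i) g gi f + vf D X (ev A (fun i => D i) g gi f)
  /-- it is linear in `f` -/
  lin : ∀ {A : Type} [CommRing A] [Algebra ℝ A] (D : Fin n → Derivation ℝ A A)
    (g gi : Fin n → Fin n → A) (f t : A), (∀ i, D i t = 0) →
    ev A (fun i => D i) g gi (t * f) = t * ev A (fun i => D i) g gi f
  /-- it vanishes if the Ricci curvature vanishes -/
  van : ∀ {A : Type} [CommRing A] [Algebra ℝ A] (D : Fin n → Derivation ℝ A A)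
    (_ : ∀ i j x, D i (D j x) = D j (D i x))
    (g gi : Fin n → Fin n → A), (∀ a b, g a b = g b a) →
    (∀ a b, ∑ c, gi a c * g b c = if a = b then 1 else 0) → ∀ f : A,
    (∀ a b, ric (fun i => D i) (chr (fun i => D i) g gi) a b = 0) →
    ev A (fun i => D i) g gi f = 0
  /-- it is isotropic -/
  gram : ∀ {A : Type} [CommRing A] [Algebra ℝ A] (D : Fin n → Derivation ℝ A A) (S : GramSys D)
    (g gi : Fin n → Fin n → A) (f : A), IsG2 S g → IsG2 S gi → IsG0 S f →
    ev A (fun i => D i) g gi f ∈ S.G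

/-- the generic value of the operator -/
def NatFam.gen {n : ℕ} (E : NatFam n) : JRd n := E.ev (JRd n) (fun i => jdd i) gd gid fd

/-- inverse matrices -/
lemma adj_eq {n : ℕ} {A : Type} [CommRing A] (g gi : Fin n → Fin n → A)
    (hg : ∀ a b, g a b = g b a) (hgi : ∀ a b, ∑ c, gi a c * g b c = if a = b then 1 else 0) :
    Matrix.det (Matrix.of g) * Matrix.det (Matrix.of gi) = 1 ∧
    ∀ a b, Matrix.det (Matrix.of gi) * Matrix.adjugate (Matrix.of g) a b = gi a b := by
  have h1 : Matrix.of gi * Matrix.of g = 1 := by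
    ext a b
    rw [Matrix.mul_apply, Matrix.one_apply, ← hgi a b]
    exact Finset.sum_congr rfl fun c _ => by rw [Matrix.of_apply, Matrix.of_apply, hg c b]
  have h2 : Matrix.det (Matrix.of g) * Matrix.det (Matrix.of gi) = 1 := by
    rw [mul_comm, ← Matrix.det_mul, h1, Matrix.det_one]
  refine ⟨h2, fun a b => ?_⟩
  have h3 : Matrix.adjugate (Matrix.of g) = Matrix.det (Matrix.of g) • Matrix.of gi := by
    have h4 : Matrix.of g * Matrix.of gi = 1 := mul_eq_one_comm.1 h1
    calc Matrix.adjugate (Matrix.of g) = Matrix.adjugate (Matrix.of g) * (Matrix.of g * Matrix.of gi) := by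
          rw [h4, Matrix.mul_one]
      _ = (Matrix.adjugate (Matrix.of g) * Matrix.of g) * Matrix.of gi := by rw [Matrix.mul_assoc]
      _ = _ := by rw [Matrix.adjugate_mul, Matrix.smul_mul, Matrix.one_mul]
  rw [h3, Matrix.smul_apply, Matrix.of_apply, smul_eq_mul, ← mul_assoc,
    mul_comm (Matrix.det (Matrix.of gi)), h2, one_mul]

variable {n : ℕ} (E : NatFam n)

lemma NatFam.ev_eq {A : Type} [CommRing A] [Algebra ℝ A] (D : Fin n → Derivation ℝ A A)
    (hD : ∀ i j x, D i (D j x) = D j (D i x)) (g gi : Fin n → Fin n → A)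
    (hg : ∀ a b, g a b = g b a) (hgi : ∀ a b, ∑ c, gi a c * g b c = if a = b then 1 else 0)
    (f : A) :
    E.ev A (fun i => D i) g gi f
      = jetHomd (fun i => D i) (fld g f) (Matrix.det (Matrix.of gi)) E.gen := by
  obtain ⟨h1, h2⟩ := adj_eq g gi hg hgi
  have hδ : jetHom (fun i => D i) (fld g f) (detJ n) * Matrix.det (Matrix.of gi) = 1 := by
    rw [jetHom_detJ _ g hg]; exact h1
  have h := E.rel (relOK_hom (fun i => jdd i) (fun i => D i)
    (jetHomd (fun i => D i) (fld g f) (Matrix.det (Matrix.of gi)))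
    (fun i P => jetHomd_jdd D hD (fld g f) _ hδ i P))
    (g := gd) (gi := gid) (g' := g) (gi' := gi) (f := fd) (f' := f) ?_ ?_ ?_
  · exact h.symm
  · intro a b
    show jetHomd _ _ _ (incl n (gJ a b)) = _
    rw [jetHomd_incl, jetHom_gJ _ g hg]
  · intro a b
    show jetHomd _ _ _ (X none * incl n (Matrix.adjugate (Matrix.of gJ) a b)) = _
    rw [map_mul, jetHomd_incl]
    have h3 : jetHomd (fun i => D i) (fld g f) (Matrix.det (Matrix.of gi)) (X none)
        = Matrix.det (Matrix.of gi) := by unfold jetHomd; rw [aeval_X]; rfl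
    rw [h3, ← h2 a b]
    congr 1
    have h4 := congrFun (congrFun (AlgHom.map_adjugate
      (jetHom (fun i => D i) (fld g f) : JR (Fld n) n →ₐ[ℝ] A) (Matrix.of gJ)) a) b
    rw [AlgHom.mapMatrix_apply, Matrix.map_apply] at h4
    rw [h4]
    have h5 : (jetHom (fun i => D i) (fld g f) : JR (Fld n) n →ₐ[ℝ] A).mapMatrix (Matrix.of gJ)
        = Matrix.of g := by
      ext a b
      simp only [AlgHom.mapMatrix_apply, Matrix.map_apply, Matrix.of_apply]
      exact jetHom_gJ _ g hg f a b
    rw [h5]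
  · show jetHomd _ _ _ (incl n fJ) = _
    rw [jetHomd_incl, jetHom_fJ]

/-- clearing the denominators of a natural operator -/
lemma NatFam.exists_poly : ∃ (N : ℕ) (p : JR (Fld n) n),
    (∀ (A : Type) [CommRing A] [Algebra ℝ A] (φ : Fld n × Multiset (Fin n) → A) (δ : A),
      aeval φ (detJ n) * δ = 1 →
      (aeval φ (detJ n)) ^ N *
        aeval (fun o : Option (Fld n × Multiset (Fin n)) => o.elim δ φ) E.gen = aeval φ p) :=
  exists_clear (detJ n) E.gen

/-- the exponent -/
def NatFam.N : ℕ := E.exists_poly.choose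
/-- the polynomial -/
def NatFam.p : JR (Fld n) n := E.exists_poly.choose_spec.choose

lemma NatFam.p_spec {A : Type} [CommRing A] [Algebra ℝ A] (φ : Fld n × Multiset (Fin n) → A) (δ : A)
    (h : aeval φ (detJ n) * δ = 1) :
    (aeval φ (detJ n)) ^ E.N *
        aeval (fun o : Option (Fld n × Multiset (Fin n)) => o.elim δ φ) E.gen = aeval φ E.p :=
  E.exists_poly.choose_spec.choose_spec A φ δ h

lemma NatFam.ev_p {A : Type} [CommRing A] [Algebra ℝ A] (D : Fin n → Derivation ℝ A A)
    (hD : ∀ i j x, D i (D j x) = D j (D i x)) (g gi : Fin n → Fin n → A)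
    (hg : ∀ a b, g a b = g b a) (hgi : ∀ a b, ∑ c, gi a c * g b c = if a = b then 1 else 0)
    (f : A) :
    Matrix.det (Matrix.of g) ^ E.N * E.ev A (fun i => D i) g gi f
      = jetHom (fun i => D i) (fld g f) E.p := by
  rw [E.ev_eq D hD g gi hg hgi f]
  have h := E.p_spec (fun v => mD (fun i => D i) v.2 (fld g f v.1)) (Matrix.det (Matrix.of gi)) (by
    have := jetHom_detJ (fun i => D i) g hg f
    unfold jetHom at this
    rw [this]
    exact (adj_eq g gi hg hgi).1)
  have h2 := jetHom_detJ (fun i => D i) g hg f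
  unfold jetHom at h2 ⊢
  unfold jetHomd
  rw [← h, h2]

end

end GJMS
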