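import Pool.Agent.GJMS.Nil
import Pool.Agent.GJMS.PS

/-! # More on the rings `Nil K B`; Taylor expansion -/

open Finset MvPolynomial

set_option linter.unusedSectionVars false

namespace GJMS

noncomputable section

/-! ### Taylor expansion and chain rule -/

lemma taylor {V R : Type} [CommRing R] [Algebra ℝ R] (x e : V → R) (he : ∀ v w, e v * e w = 0)
    (c : MvPolynomial V ℝ) :
    aeval (fun v => x v + e v) c = aeval x c + ∑ v ∈ c.vars, aeval x (pderiv v c) * e v := by
  classical
  have key : ∀ T : Finset V, ∀ c ∈ MvPolynomial.supported ℝ (T : Set V),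
      aeval (fun v => x v + e v) c = aeval x c + ∑ v ∈ T, aeval x (pderiv v c) * e v := by
    intro T c hc
    induction hc using Algebra.adjoin_induction with
    | mem p hp =>
      obtain ⟨v, hv, rfl⟩ := hp
      rw [aeval_X, aeval_X, Finset.sum_eq_single v]
      · rw [pderiv_X_self, map_one, one_mul]
      · intro w _ hw
        rw [pderiv_X_of_ne (Ne.symm hw), map_zero, zero_mul]
      · intro h; exact absurd (by exact_mod_cast hv) h
    | algebraMap r =>
      rw [AlgHom.commutes, AlgHom.commutes]
      simp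
    | add p q _ _ hp hq =>
      rw [map_add, map_add, hp, hq]
      simp only [map_add, add_mul, Finset.sum_add_distrib]
      ring
    | mul p q _ _ hp hq =>
      rw [map_mul, map_mul, hp, hq]
      simp only [Derivation.leibniz, smul_eq_mul, map_add, map_mul, add_mul, Finset.sum_add_distrib]
      have h0 : (∑ v ∈ T, aeval x (pderiv v p) * e v) * (∑ v ∈ T, aeval x (pderiv v q) * e v) = 0 := by
        rw [Finset.sum_mul_sum]
        refine Finset.sum_eq_zero fun v _ => Finset.sum_eq_zero fun w _ => ?_
        linear_combination (aeval x (pderiv v p) * aeval x (pderiv w q)) * he v w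
      have h1 : (∑ v ∈ T, aeval x p * aeval x (pderiv v q) * e v)
          = aeval x p * ∑ v ∈ T, aeval x (pderiv v q) * e v := by
        rw [Finset.mul_sum]; exact Finset.sum_congr rfl fun v _ => by ring
      have h2 : (∑ v ∈ T, aeval x q * aeval x (pderiv v p) * e v)
          = aeval x q * ∑ v ∈ T, aeval x (pderiv v p) * e v := by
        rw [Finset.mul_sum]; exact Finset.sum_congr rfl fun v _ => by ring
      rw [h1, h2]
      linear_combination h0
  exact key c.vars c (mem_supported_vars c)

lemma chain_rule {V R : Type} [CommRing R] [Algebra ℝ R] (δ : Derivation ℝ R R) (x : V → R)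
    (c : MvPolynomial V ℝ) : δ (aeval x c) = ∑ v ∈ c.vars, aeval x (pderiv v c) * δ (x v) := by
  classical
  have key : ∀ T : Finset V, ∀ c ∈ MvPolynomial.supported ℝ (T : Set V),
      δ (aeval x c) = ∑ v ∈ T, aeval x (pderiv v c) * δ (x v) := by
    intro T c hc
    induction hc using Algebra.adjoin_induction with
    | mem p hp =>
      obtain ⟨v, hv, rfl⟩ := hp
      rw [aeval_X, Finset.sum_eq_single v]
      · rw [pderiv_X_self, map_one, one_mul]
      · intro w _ hw
        rw [pderiv_X_of_ne (Ne.symm hw), map_zero, zero_mul]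
      · intro h; exact absurd (by exact_mod_cast hv) h
    | algebraMap r =>
      rw [AlgHom.commutes, Derivation.map_algebraMap]
      simp
    | add p q _ _ hp hq =>
      rw [map_add, map_add, hp, hq]
      simp only [map_add, add_mul, Finset.sum_add_distrib]
    | mul p q _ _ hp hq =>
      rw [map_mul, Derivation.leibniz, hp, hq]
      simp only [Derivation.leibniz, smul_eq_mul, map_add, map_mul, add_mul, Finset.sum_add_distrib,
        Finset.mul_sum]
      congr 1 <;> exact Finset.sum_congr rfl fun v _ => by ring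
  exact key c.vars c (mem_supported_vars c)

namespace Nil

variable {K B : Type} [DecidableEq K] [CommRing B] [Algebra ℝ B]

/-- `h y_b` -/
def sg (b : K) (h : B) : Nil K B := ⟨fun S => if S = {b} then h else 0⟩

lemma co_sg (b : K) (h : B) (S : Finset K) : (sg b h).co S = if S = {b} then h else 0 := rfl

lemma co_mul_sg (F : Nil K B) (b : K) (h : B) (S : Finset K) :
    (F * sg b h).co S = if b ∈ S then F.co (S.erase b) * h else 0 := by
  rw [mul_comm, co_mul]
  by_cases hb : b ∈ S
  · rw [if_pos hb, Finset.sum_eq_single {b}]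
    · rw [co_sg, if_pos rfl, Finset.sdiff_singleton_eq_erase, mul_comm]
    · intro T _ hT
      rw [co_sg, if_neg hT, zero_mul]
    · intro h1; exact absurd (by simpa using hb) h1
  · rw [if_neg hb]
    refine Finset.sum_eq_zero fun T hT => ?_
    rw [co_sg, if_neg, zero_mul]
    rintro rfl
    exact hb (by simpa using hT)

lemma sg_mul_sg_self (b : K) (h h' : B) : sg b h * sg b h' = 0 := by
  ext S
  rw [co_mul_sg]
  split_ifs with hb
  · rw [co_sg, if_neg, zero_mul]; rfl
    intro h1
    have := Finset.mem_singleton_self b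
    rw [← h1] at this
    simp at this
  · rfl

lemma sg_zero (b : K) : sg b (0 : B) = 0 := by
  ext S; rw [co_sg]; split_ifs <;> rfl

lemma sg_add (b : K) (h h' : B) : sg b (h + h') = sg b h + sg b h' := by
  ext S; rw [co_add, co_sg, co_sg, co_sg]; split_ifs <;> simp

lemma sg_neg (b : K) (h : B) : sg b (-h) = - sg b h := by
  ext S; rw [co_neg, co_sg, co_sg]; split_ifs <;> simp

lemma sg_sub (b : K) (h h' : B) : sg b (h - h') = sg b h - sg b h' := by
  rw [sub_eq_add_neg, sg_add, sg_neg, sub_eq_add_neg]

lemma sg_sum {ι : Type*} (s : Finset ι) (b : K) (h : ι → B) :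
    sg b (∑ i ∈ s, h i) = ∑ i ∈ s, sg b (h i) := by
  classical
  induction s using Finset.induction_on with
  | empty => simp [sg_zero]
  | insert a s ha ih => rw [Finset.sum_insert ha, Finset.sum_insert ha, sg_add, ih]

lemma cst_mul_sg (b : K) (h h' : B) : cst h * sg b h' = sg b (h * h') := by
  ext S; rw [co_cst_mul, co_sg, co_sg]; split_ifs <;> simp

lemma dn_sg {n : ℕ} (δ : Fin n → Derivation ℝ B B) (ξ : K → Fin n → B) (i : Fin n) (b : K) (h : B) :
    dn δ ξ i (sg b h) = sg b (δ i h + ξ b i * h) := by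
  ext S
  rw [co_dn, co_sg, co_sg]
  split_ifs with h1
  · rw [h1, Finset.sum_singleton]
  · simp

lemma dn_cst {n : ℕ} (δ : Fin n → Derivation ℝ B B) (ξ : K → Fin n → B) (i : Fin n) (h : B) :
    dn δ ξ i (cst h) = cst (δ i h) := by
  ext S
  rw [co_dn, co_cst, co_cst]
  split_ifs with h1
  · rw [h1, Finset.sum_empty]; simp
  · simp

lemma foldr_dn_sg {n : ℕ} (δ : Fin n → Derivation ℝ B B) (ξ : K → Fin n → B) (b : K)
    (l : List (Fin n)) (h : B) :
    l.foldr (fun i => dn δ ξ i) (sg b h) = sg b (l.foldr (fun i x => δ i x + ξ b i * x) h) := by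
  induction l with
  | nil => rfl
  | cons i l ih => rw [List.foldr_cons, ih, dn_sg]; rfl

lemma mD_dn_sg {n : ℕ} (δ : Fin n → Derivation ℝ B B) (ξ : K → Fin n → B) (b : K)
    (s : Multiset (Fin n)) (h : B) :
    mD (fun i => dn δ ξ i) s (sg b h) = sg b (mD (fun i x => δ i x + ξ b i * x) s h) :=
  foldr_dn_sg δ ξ b _ h

/-- coefficientwise map -/
def map {B' : Type} [CommRing B'] [Algebra ℝ B'] (φ : B →ₐ[ℝ] B') : Nil K B →ₐ[ℝ] Nil K B' where
  toFun F := ⟨fun S => φ (F.co S)⟩
  map_one' := by
    ext S
    simp only [co_one]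
    split_ifs <;> simp
  map_mul' F G := by
    ext S
    simp only [co_mul, map_sum, map_mul]
  map_zero' := by ext S; simp
  map_add' F G := by ext S; simp
  commutes' r := by
    ext S
    rw [algebraMap_eq, algebraMap_eq, co_cst]
    simp only [co_cst]
    split_ifs <;> simp

lemma co_map {B' : Type} [CommRing B'] [Algebra ℝ B'] (φ : B →ₐ[ℝ] B') (F : Nil K B) (S : Finset K) :
    (map φ F).co S = φ (F.co S) := rfl

lemma map_sg {B' : Type} [CommRing B'] [Algebra ℝ B'] (φ : B →ₐ[ℝ] B') (b : K) (h : B) :
    map φ (sg b h) = sg b (φ h) := by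
  ext S
  rw [co_map, co_sg, co_sg]
  split_ifs <;> simp

lemma map_cst {B' : Type} [CommRing B'] [Algebra ℝ B'] (φ : B →ₐ[ℝ] B') (h : B) :
    map (K := K) φ (cst h) = cst (φ h) := by
  ext S
  rw [co_map, co_cst, co_cst]
  split_ifs <;> simp

/-- coefficientwise derivation -/
def cd (δ : Derivation ℝ B B) : Derivation ℝ (Nil K B) (Nil K B) :=
  dn (fun _ : Fin 1 => δ) (fun _ _ => 0) 0

lemma co_cd (δ : Derivation ℝ B B) (F : Nil K B) (S : Finset K) : (cd δ F).co S = δ (F.co S) := by
  unfold cd
  rw [co_dn]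
  simp

lemma cd_sg (δ : Derivation ℝ B B) (b : K) (h : B) : cd δ (sg b h) = sg b (δ h) := by
  unfold cd
  rw [dn_sg]
  simp

/-- the coefficient at `S` only depends on the coefficients at the subsets of `S` -/
lemma aeval_co_congr {V : Type} (J J' : V → Nil K B) (S : Finset K)
    (h : ∀ v, ∀ T ⊆ S, (J v).co T = (J' v).co T) (P : MvPolynomial V ℝ) :
    ∀ T ⊆ S, (aeval J P).co T = (aeval J' P).co T := by
  induction P using MvPolynomial.induction_on with
  | C r => intro T _; rw [aeval_C, aeval_C]
  | add p q hp hq => intro T hT; rw [map_add, map_add, co_add, co_add, hp T hT, hq T hT]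
  | mul_X p v hp =>
    intro T hT
    rw [map_mul, map_mul, aeval_X, aeval_X, co_mul, co_mul]
    refine Finset.sum_congr rfl fun U hU => ?_
    have hU' := Finset.mem_powerset.1 hU
    rw [hp U (hU'.trans hT), h v _ (Finset.sdiff_subset.trans hT)]

/-- if the label `b` does not occur, it does not occur in the values of polynomials -/
lemma aeval_co_zero {V : Type} (J : V → Nil K B) (b : K)
    (h : ∀ v, ∀ T, b ∈ T → (J v).co T = 0) (P : MvPolynomial V ℝ) :
    ∀ T, b ∈ T → (aeval J P).co T = 0 := by
  induction P using MvPolynomial.induction_on with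
  | C r =>
    intro T hT
    rw [aeval_C, algebraMap_eq, co_cst, if_neg]
    rintro rfl
    simp at hT
  | add p q hp hq => intro T hT; rw [map_add, co_add, hp T hT, hq T hT, add_zero]
  | mul_X p v hp =>
    intro T hT
    rw [map_mul, aeval_X, co_mul]
    refine Finset.sum_eq_zero fun U hU => ?_
    by_cases hb : b ∈ U
    · rw [hp U hb, zero_mul]
    · rw [h v _ (Finset.mem_sdiff.2 ⟨hT, hb⟩), mul_zero]

/-- the ideal of elements all of whose terms contain `y_b` -/
def idl (b : K) : Ideal (Nil K B) where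
  carrier := {F | ∀ S, b ∉ S → F.co S = 0}
  add_mem' {F G} hF hG S hS := by rw [co_add, hF S hS, hG S hS, add_zero]
  zero_mem' S _ := rfl
  smul_mem' F G hG S hS := by
    rw [smul_eq_mul, co_mul]
    refine Finset.sum_eq_zero fun T _ => ?_
    rw [hG _ (fun h => hS (Finset.mem_sdiff.1 h).1), mul_zero]

lemma idl_sq (b : K) : ∀ F ∈ (idl b : Ideal (Nil K B)), ∀ G ∈ (idl b : Ideal (Nil K B)), F * G = 0 := by
  intro F hF G hG
  ext S
  rw [co_mul]
  refine Finset.sum_eq_zero fun T _ => ?_
  by_cases hb : b ∈ T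
  · rw [hG _ (fun h => (Finset.mem_sdiff.1 h).2 hb), mul_zero]
  · rw [hF _ hb, zero_mul]

lemma idl_dn {n : ℕ} (δ : Fin n → Derivation ℝ B B) (ξ : K → Fin n → B) (b : K) (i : Fin n) :
    ∀ F ∈ (idl b : Ideal (Nil K B)), dn δ ξ i F ∈ (idl b : Ideal (Nil K B)) := by
  intro F hF S hS
  rw [co_dn, hF S hS]
  simp

lemma sg_mem_idl (b : K) (h : B) : sg b h ∈ (idl b : Ideal (Nil K B)) := by
  intro S hS
  rw [co_sg, if_neg]
  rintro rfl
  simp at hS

end Nil

end

end GJMS
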