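import Pool.Agent.GJMS.NatOp

/-! # Smooth functions: the value of a natural operator is determined by the jets -/

open Finset MvPolynomial Set
open scoped ContDiff

namespace GJMS

noncomputable section

variable {n : ℕ} {U : Set (Fin n → ℝ)}

lemma pd_smooth (hU : IsOpen U) (i : Fin n) {F : Raw n} (hF : ContDiffOn ℝ ∞ F U) :
    ContDiffOn ℝ ∞ (pd i F) U := by
  have h : ContDiffOn ℝ ∞ (fderiv ℝ F) U := hF.fderiv_of_isOpen hU (by simp)
  exact h.clm_apply contDiffOn_const

lemma pd_congr (hU : IsOpen U) (i : Fin n) {F G : Raw n} (h : EqOn F G U) :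
    EqOn (pd i F) (pd i G) U := by
  intro x hx
  unfold pd
  have : F =ᶠ[nhds x] G := Filter.eventuallyEq_of_mem (hU.mem_nhds hx) h
  rw [this.fderiv_eq]

lemma pd_comm (hU : IsOpen U) (i j : Fin n) {F : Raw n} (hF : ContDiffOn ℝ ∞ F U) :
    EqOn (pd i (pd j F)) (pd j (pd i F)) U := by
  intro x hx
  have h1 : ContDiffAt ℝ ∞ F x := hF.contDiffAt (hU.mem_nhds hx)
  have hd : DifferentiableAt ℝ (fderiv ℝ F) x :=
    ((hF.fderiv_of_isOpen hU (m := ∞) (by simp)).contDiffAt (hU.mem_nhds hx)).differentiableAt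
      (by simp)
  have h2 : ∀ a b : Fin n, pd a (pd b F) x
      = fderiv ℝ (fderiv ℝ F) x (Pi.single a 1) (Pi.single b 1) := by
    intro a b
    unfold pd
    rw [fderiv_clm_apply hd (differentiableAt_const _)]
    simp
  rw [h2, h2]
  refine (h1.isSymmSndFDerivAt ?_) _ _
  rw [minSmoothness_of_isRCLikeNormedField]
  exact WithTop.coe_le_coe.2 le_top

lemma foldr_smooth (hU : IsOpen U) (l : List (Fin n)) {F : Raw n} (hF : ContDiffOn ℝ ∞ F U) :
    ContDiffOn ℝ ∞ (l.foldr pd F) U := by
  induction l with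
  | nil => exact hF
  | cons i l ih => exact pd_smooth hU i ih

lemma foldr_perm (hU : IsOpen U) {l₁ l₂ : List (Fin n)} (h : l₁.Perm l₂) {F : Raw n}
    (hF : ContDiffOn ℝ ∞ F U) : EqOn (l₁.foldr pd F) (l₂.foldr pd F) U := by
  induction h with
  | nil => exact fun x _ => rfl
  | cons i _ ih => exact pd_congr hU i ih
  | swap i j l => exact pd_comm hU _ _ (foldr_smooth hU l hF)
  | trans _ _ ih₁ ih₂ => exact ih₁.trans ih₂

lemma mD_smooth (hU : IsOpen U) (s : Multiset (Fin n)) {F : Raw n} (hF : ContDiffOn ℝ ∞ F U) :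
    ContDiffOn ℝ ∞ (mD pd s F) U := foldr_smooth hU _ hF

lemma mD_cons_raw (hU : IsOpen U) (i : Fin n) (s : Multiset (Fin n)) {F : Raw n}
    (hF : ContDiffOn ℝ ∞ F U) : EqOn (mD pd (i ::ₘ s) F) (pd i (mD pd s F)) U := by
  unfold mD
  have h : ((i ::ₘ s).toList).Perm (i :: s.toList) := by
    rw [← Multiset.coe_eq_coe, Multiset.coe_toList, ← Multiset.cons_coe, Multiset.coe_toList]
  exact foldr_perm hU h hF

lemma pd_mul (hU : IsOpen U) (i : Fin n) {F G : Raw n} (hF : ContDiffOn ℝ ∞ F U)
    (hG : ContDiffOn ℝ ∞ G U) : EqOn (pd i (F * G)) (F * pd i G + G * pd i F) U := by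
  intro x hx
  have h1 : DifferentiableAt ℝ F x := (hF.contDiffAt (hU.mem_nhds hx)).differentiableAt (by simp)
  have h2 : DifferentiableAt ℝ G x := (hG.contDiffAt (hU.mem_nhds hx)).differentiableAt (by simp)
  unfold pd
  rw [fderiv_mul h1 h2]
  simp

lemma pd_add (hU : IsOpen U) (i : Fin n) {F G : Raw n} (hF : ContDiffOn ℝ ∞ F U)
    (hG : ContDiffOn ℝ ∞ G U) : EqOn (pd i (F + G)) (pd i F + pd i G) U := by
  intro x hx
  have h1 : DifferentiableAt ℝ F x := (hF.contDiffAt (hU.mem_nhds hx)).differentiableAt (by simp)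
  have h2 : DifferentiableAt ℝ G x := (hG.contDiffAt (hU.mem_nhds hx)).differentiableAt (by simp)
  unfold pd
  rw [fderiv_add h1 h2]
  simp

/-- a family of smooth functions closed under total derivatives: the images of generators -/
lemma aeval_smooth {σ : Type} (φ : σ → Raw n) (hφ : ∀ v, ContDiffOn ℝ ∞ (φ v) U)
    (P : MvPolynomial σ ℝ) : ContDiffOn ℝ ∞ (aeval φ P) U := by
  induction P using MvPolynomial.induction_on with
  | C r => rw [aeval_C]; exact contDiffOn_const
  | add p q hp hq => rw [map_add]; exact hp.add hq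
  | mul_X p v hp => rw [map_mul, aeval_X]; exact hp.mul (hφ v)

lemma aeval_pd {σ : Type} (hU : IsOpen U) (δ : Fin n → Derivation ℝ (MvPolynomial σ ℝ) (MvPolynomial σ ℝ))
    (φ : σ → Raw n) (hφ : ∀ v, ContDiffOn ℝ ∞ (φ v) U)
    (h : ∀ i v, EqOn (pd i (φ v)) (aeval φ (δ i (X v))) U)
    (i : Fin n) (P : MvPolynomial σ ℝ) : EqOn (pd i (aeval φ P)) (aeval φ (δ i P)) U := by
  induction P using MvPolynomial.induction_on with
  | C r =>
    rw [← MvPolynomial.algebraMap_eq, Derivation.map_algebraMap, map_zero, AlgHom.commutes]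
    intro x _
    unfold pd
    have : (algebraMap ℝ (Raw n) r) = fun _ => r := rfl
    rw [this]
    simp
  | add p q hp hq =>
    intro x hx
    rw [map_add, map_add, map_add, pd_add hU i (aeval_smooth φ hφ p) (aeval_smooth φ hφ q) hx,
      Pi.add_apply, Pi.add_apply, hp hx, hq hx]
  | mul_X p v hp =>
    intro x hx
    rw [map_mul, aeval_X, pd_mul hU i (aeval_smooth φ hφ p) (hφ v) hx, Derivation.leibniz, map_add,
      smul_eq_mul, smul_eq_mul, map_mul, map_mul, aeval_X]
    simp only [Pi.add_apply, Pi.mul_apply]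
    rw [hp hx, h i v hx]

/-- evaluation of `JRd` at smooth functions -/
lemma raw_relOK (hU : IsOpen U) (δ : Fin n → Derivation ℝ (JRd n) (JRd n))
    (φ : Option (Fld n × Multiset (Fin n)) → Raw n) (hφ : ∀ v, ContDiffOn ℝ ∞ (φ v) U)
    (h : ∀ i v, EqOn (pd i (φ v)) (aeval φ (δ i (X v))) U) :
    RelOK (fun i => δ i) pd (fun (P : JRd n) (b : Raw n) => EqOn b (aeval φ P) U) where
  zero := by intro x _; rw [map_zero]
  one := by intro x _; rw [map_one]
  add := by
    intro a a' b b' h1 h2 x hx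
    rw [map_add, Pi.add_apply, Pi.add_apply, h1 hx, h2 hx]
  sub := by
    intro a a' b b' h1 h2 x hx
    rw [map_sub, Pi.sub_apply, Pi.sub_apply, h1 hx, h2 hx]
  mul := by
    intro a a' b b' h1 h2 x hx
    rw [map_mul, Pi.mul_apply, Pi.mul_apply, h1 hx, h2 hx]
  smul := by
    intro r a b h1 x hx
    rw [map_smul, Pi.smul_apply, Pi.smul_apply, h1 hx]
  d := by
    intro i a b h1 x hx
    rw [pd_congr hU i h1 hx, aeval_pd hU δ φ hφ h i a hx]

/-- the jet of smooth fields at a point -/
def jet0 {Φ : Type} (φ : Φ → Raw n) (x : Fin n → ℝ) : Φ × Multiset (Fin n) → ℝ :=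
  fun v => mD pd v.2 (φ v.1) x

lemma aevR {σ : Type} (φ : σ → ℝ) (P : MvPolynomial σ ℝ) : aeval φ P = eval φ P := by
  rw [← MvPolynomial.coe_aeval_eq_eval]; rfl

lemma raw_eval {σ : Type} (φ : σ → Raw n) (P : MvPolynomial σ ℝ) (x : Fin n → ℝ) :
    (aeval φ P) x = eval (fun v => φ v x) P := by
  have h := congrFun (congrArg DFunLike.coe (MvPolynomial.comp_aeval φ (Pi.evalAlgHom ℝ (fun _ => ℝ) x))) P
  rw [AlgHom.comp_apply] at h
  rw [← MvPolynomial.coe_aeval_eq_eval]
  exact h

/-- the value of a natural operator on smooth fields in terms of the jets -/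
theorem NatFam.raw_p (E : NatFam n) (hU : IsOpen U) (g gi : Fin n → Fin n → Raw n) (f : Raw n)
    (hg : ∀ a b, ContDiffOn ℝ ∞ (g a b) U) (hf : ContDiffOn ℝ ∞ f U)
    (hsymm : ∀ a b, g a b = g b a)
    (hgi : ∀ x ∈ U, ∀ a b, ∑ c, gi a c x * g b c x = if a = b then 1 else 0)
    {x : Fin n → ℝ} (hx : x ∈ U) :
    Matrix.det (Matrix.of (fun a b => g a b x)) ^ E.N * E.ev (Raw n) pd g gi f x
      = eval (jet0 (fld g f) x) E.p := by
  classical
  -- the inverse of the determinant
  set δ : Raw n := fun y => (Matrix.det (Matrix.of (fun a b => g a b y)))⁻¹ with hδ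
  set φ : Option (Fld n × Multiset (Fin n)) → Raw n :=
    fun o => o.elim δ (fun v => mD pd v.2 (fld g f v.1)) with hφ
  have hfld : ∀ o, ContDiffOn ℝ ∞ (fld g f o) U := by
    intro o
    rcases o with _ | s
    · exact hf
    · exact hg _ _
  have hadj : ∀ y ∈ U, Matrix.det (Matrix.of (fun a b => g a b y)) *
      Matrix.det (Matrix.of (fun a b => gi a b y)) = 1 ∧
      ∀ a b, Matrix.det (Matrix.of (fun a b => gi a b y)) *
        Matrix.adjugate (Matrix.of (fun a b => g a b y)) a b = gi a b y := by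
    intro y hy
    exact adj_eq (fun a b => g a b y) (fun a b => gi a b y) (fun a b => by rw [hsymm]) (hgi y hy)
  have hne : ∀ y ∈ U, Matrix.det (Matrix.of (fun a b => g a b y)) ≠ 0 := by
    intro y hy h0
    have := (hadj y hy).1
    rw [h0, zero_mul] at this
    exact zero_ne_one this
  -- the determinant as the evaluation of `detJ`
  have hdet : ∀ y, (aeval (fun v : Fld n × Multiset (Fin n) => mD pd v.2 (fld g f v.1)) (detJ n)) y
      = Matrix.det (Matrix.of (fun a b => g a b y)) := by
    intro y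
    have h1 := congrFun (jetHom_detJ pd g hsymm f) y
    unfold jetHom at h1
    rw [h1]
    have h2 : (Matrix.det (Matrix.of g)) y = (Pi.evalRingHom (fun _ => ℝ) y) (Matrix.det (Matrix.of g)) := rfl
    rw [h2, RingHom.map_det]
    rfl
  have hdet2 : ∀ y, (aeval φ (incl n (detJ n))) y = Matrix.det (Matrix.of (fun a b => g a b y)) := by
    intro y
    unfold incl
    rw [aeval_rename]
    exact hdet y
  have hsm : ContDiffOn ℝ ∞ (fun y => Matrix.det (Matrix.of (fun a b => g a b y))) U := by
    have := aeval_smooth (fun v : Fld n × Multiset (Fin n) => mD pd v.2 (fld g f v.1))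
      (fun v => mD_smooth hU v.2 (hfld v.1)) (detJ n)
    refine this.congr fun y _ => (hdet y).symm
  have hφs : ∀ v, ContDiffOn ℝ ∞ (φ v) U := by
    intro v
    rcases v with _ | v
    · exact hsm.inv hne
    · exact mD_smooth hU v.2 (hfld v.1)
  have hpd : ∀ i v, EqOn (pd i (φ v)) (aeval φ (jdd i (X v))) U := by
    intro i v y hy
    rcases v with _ | v
    · rw [jdd_X_none, map_neg, map_mul, map_pow, aeval_X]
      have h1 : ∀ P : JR (Fld n) n, aeval φ (incl n P)
          = aeval (fun v : Fld n × Multiset (Fin n) => mD pd v.2 (fld g f v.1)) P := by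
        intro P
        unfold incl
        rw [aeval_rename]
        rfl
      rw [h1]
      have h2 := aeval_pd hU (fun i => jd i)
        (fun v : Fld n × Multiset (Fin n) => mD pd v.2 (fld g f v.1))
        (fun v => mD_smooth hU v.2 (hfld v.1)) (fun i v => by
          rw [jd_X, aeval_X]
          exact (mD_cons_raw hU i v.2 (hfld v.1)).symm) i (detJ n) hy
      show pd i δ y = - (δ y ^ 2 * _)
      rw [← h2]
      have h3 : (aeval (fun v : Fld n × Multiset (Fin n) => mD pd v.2 (fld g f v.1)) (detJ n))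
          = fun y => Matrix.det (Matrix.of (fun a b => g a b y)) := funext hdet
      rw [h3]
      have hdiff : DifferentiableAt ℝ (fun y => Matrix.det (Matrix.of (fun a b => g a b y))) y :=
        (hsm.contDiffAt (hU.mem_nhds hy)).differentiableAt (by simp)
      have h4 : HasFDerivAt δ (-((Matrix.det (Matrix.of (fun a b => g a b y))) ^ 2)⁻¹ •
          fderiv ℝ (fun y => Matrix.det (Matrix.of (fun a b => g a b y))) y) y :=
        (hasDerivAt_inv (hne y hy)).comp_hasFDerivAt y hdiff.hasFDerivAt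
      unfold pd
      rw [h4.fderiv]
      simp only [_root_.smul_apply, smul_eq_mul, hδ]
      rw [inv_pow]
      ring
    · rw [jdd_X_some, aeval_X]
      exact (mD_cons_raw hU i v.2 (hfld v.1)).symm hy
  have hrel := E.rel (raw_relOK hU (fun i => jdd i) φ hφs hpd) (g := gd) (gi := gid) (g' := g)
    (gi' := gi) (f := fd) (f' := f) ?_ ?_ ?_
  · have h1 : E.ev (Raw n) pd g gi f x = (aeval φ E.gen) x := hrel hx
    rw [h1, raw_eval]
    have h2 := E.p_spec (A := ℝ) (fun v => mD pd v.2 (fld g f v.1) x) (δ x) (by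
      have h3 := hdet x
      rw [raw_eval] at h3
      rw [aevR, h3]
      exact mul_inv_cancel₀ (hne x hx))
    have h3 := hdet x
    rw [raw_eval] at h3
    rw [aevR, aevR, aevR, h3] at h2
    rw [show jet0 (fld g f) x = (fun v => mD pd v.2 (fld g f v.1) x) from rfl, ← h2]
    congr 2
    apply congrArg
    funext o
    rcases o with _ | v <;> rfl
  · intro a b y _
    show _ = (aeval φ (incl n (gJ a b))) y
    unfold incl gJ
    rw [rename_X, aeval_X]
    show g a b y = mD pd 0 (fld g f (some s(a, b))) y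
    rw [mD_zero, fld_some g hsymm]
  · intro a b y hy
    show _ = (aeval φ (X none * incl n (Matrix.adjugate (Matrix.of gJ) a b))) y
    rw [map_mul, aeval_X, Pi.mul_apply]
    have h1 : (aeval φ (incl n (Matrix.adjugate (Matrix.of gJ) a b))) y
        = Matrix.adjugate (Matrix.of (fun a b => g a b y)) a b := by
      set ψ : JR (Fld n) n →ₐ[ℝ] ℝ :=
        ((Pi.evalAlgHom ℝ (fun _ => ℝ) y).comp ((aeval φ).comp (incl n))) with hψ
      have h4 := congrFun (congrFun (AlgHom.map_adjugate ψ (Matrix.of gJ)) a) b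
      rw [AlgHom.mapMatrix_apply, Matrix.map_apply] at h4
      have h5 : ψ.mapMatrix (Matrix.of gJ) = Matrix.of (fun a b => g a b y) := by
        ext a b
        simp only [AlgHom.mapMatrix_apply, Matrix.map_apply, Matrix.of_apply]
        show (aeval φ (incl n (gJ a b))) y = _
        unfold incl gJ
        rw [rename_X, aeval_X]
        show mD pd 0 (fld g f (some s(a, b))) y = _
        rw [mD_zero, fld_some g hsymm]
      rw [h5] at h4
      exact h4
    rw [h1]
    show gi a b y = δ y * _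
    have h6 := (hadj y hy).1
    have h7 : δ y = Matrix.det (Matrix.of (fun a b => gi a b y)) := by
      exact (eq_inv_of_mul_eq_one_right h6).symm
    rw [h7]
    exact ((hadj y hy).2 a b).symm
  · intro y _
    show _ = (aeval φ (incl n fJ)) y
    unfold incl fJ
    rw [rename_X, aeval_X]
    show f y = mD pd 0 (fld g f none) y
    rw [mD_zero, fld_none]

end

end GJMS
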