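import Pool.Agent.GJMS.KLin
import Pool.Agent.GJMS.GramDefs

/-! # The symbol of the leading part -/

open Finset MvPolynomial

set_option linter.unusedSectionVars false

namespace GJMS

noncomputable section

variable {α : Type} [Fintype α] [DecidableEq α] {n : ℕ}

/-- polynomials in the coordinates of all vectors -/
abbrev SS (α : Type) (n : ℕ) : Type := MvPolynomial (Lab α Unit × Fin n) ℝ

/-- the name of the wave vector of the wave `b` -/
def wv (b : Option α) : Lab α Unit := b.elim (ex ()) (fun a => xi a)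

/-- the wave to which a vector belongs -/
def lb (u : Lab α Unit) : Option α := u.elim (fun x => some x.1) (fun _ => none)

lemma lb_wv (b : Option α) : lb (wv b) = b := by
  rcases b with _ | a <;> rfl

lemma lb_xi (a : α) : lb (xi a : Lab α Unit) = some a := rfl
lemma lb_ep (a : α) : lb (ep a : Lab α Unit) = some a := rfl
lemma lb_ex : lb (ex () : Lab α Unit) = none := rfl

/-- coordinates of the wave vector -/
def wx (b : Option α) (i : Fin n) : SS α n := X (wv b, i)

/-- `ξ^s` -/
def xs (b : Option α) (s : Multiset (Fin n)) : SS α n := (s.map (wx b)).prod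

/-- `ε_i ε_l` -/
def ee (a : α) (s : Sym2 (Fin n)) : SS α n :=
  Sym2.lift ⟨fun i l => X (ep a, i) * X (ep a, l), fun _ _ => mul_comm _ _⟩ s

/-- the amplitude of the wave `b` in the field `o` -/
def amp (b : Option α) (o : Fld n) : SS α n :=
  b.elim (o.elim 1 (fun _ => 0)) (fun a => o.elim 0 (fun s => ee a s))

/-- the jets of the wave `b` -/
def jt (b : Option α) (v : Fld n × Multiset (Fin n)) : SS α n := amp b v.1 * xs b v.2

/-- the metric perturbation `∑_a y_a ε_a ε_a e^{ξ_a x}` -/
def γW (i l : Fin n) : Nil (Option α) (SS α n) :=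
  ∑ a : α, Nil.sg (some a) (X (ep a, i) * X (ep a, l))

/-- the function `y_0 e^{ξ_0 x}` -/
def fW : Nil (Option α) (SS α n) := Nil.sg none 1

/-- the derivations -/
def DW (i : Fin n) : Derivation ℝ (Nil (Option α) (SS α n)) (Nil (Option α) (SS α n)) :=
  Nil.dn (fun _ => 0) wx i

lemma DW_comm (i j : Fin n) (x : Nil (Option α) (SS α n)) : DW i (DW j x) = DW j (DW i x) :=
  Nil.dn_comm (fun _ : Fin n => (0 : Derivation ℝ (SS α n) (SS α n))) (fun _ _ _ => rfl) wx
    (fun _ _ _ => rfl) i j x

/-- jets of the superposition of all waves -/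
def JJ (v : Fld n × Multiset (Fin n)) : Nil (Option α) (SS α n) :=
  ∑ b : Option α, Nil.sg b (jt b v)

lemma foldr_mulc {B : Type} [CommRing B] (x : Fin n → B) (l : List (Fin n)) (h : B) :
    l.foldr (fun i y => x i * y) h = (l.map x).prod * h := by
  induction l with
  | nil => simp
  | cons i l ih => rw [List.foldr_cons, ih, List.map_cons, List.prod_cons]; ring

lemma mD_mulc {B : Type} [CommRing B] (x : Fin n → B) (s : Multiset (Fin n)) (h : B) :
    mD (fun i y => x i * y) s h = (s.map x).prod * h := by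
  unfold mD
  rw [foldr_mulc]
  congr 1
  conv_rhs => rw [← Multiset.coe_toList s]
  rw [Multiset.map_coe, Multiset.prod_coe]

lemma mD_DW_sg (s : Multiset (Fin n)) (b : Option α) (h : SS α n) :
    mD (fun i => DW i) s (Nil.sg b h) = Nil.sg b (xs b s * h) := by
  have h1 := Nil.mD_dn_sg (fun _ : Fin n => (0 : Derivation ℝ (SS α n) (SS α n))) wx b s h
  have h2 : (fun (i : Fin n) (x : SS α n) => (0 : Derivation ℝ (SS α n) (SS α n)) x + wx b i * x)
      = fun i x => wx b i * x := by
    funext i x; simp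
  rw [h2, mD_mulc] at h1
  exact h1

lemma γW_symm (i l : Fin n) : (γW i l : Nil (Option α) (SS α n)) = γW l i := by
  unfold γW
  exact Finset.sum_congr rfl fun a _ => by rw [mul_comm]

lemma JJ_eq (v : Fld n × Multiset (Fin n)) :
    mD (fun i => DW i) v.2 (fld γW fW v.1) = (JJ v : Nil (Option α) (SS α n)) := by
  obtain ⟨o, s⟩ := v
  unfold JJ
  rw [Fintype.sum_option]
  rcases o with _ | t
  · show mD _ s fW = _
    unfold fW
    rw [mD_DW_sg]
    have h1 : ∀ a : α, Nil.sg (some a) (jt (some a) (none, s)) = (0 : Nil (Option α) (SS α n)) := by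
      intro a
      have : jt (some a) ((none : Fld n), s) = 0 := by
        show 0 * _ = _
        rw [zero_mul]
      rw [this, Nil.sg_zero]
    simp_rw [h1]
    rw [Finset.sum_const_zero, add_zero]
    congr 1
    show _ = 1 * _
    rw [mul_one, one_mul]
  · induction t using Sym2.ind with
    | _ i l =>
      rw [fld_some γW γW_symm]
      unfold γW
      rw [mD_sumD]
      have h1 : Nil.sg none (jt none (some s(i, l), s)) = (0 : Nil (Option α) (SS α n)) := by
        have : jt (none : Option α) (some s(i, l), s) = 0 := by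
          show 0 * _ = _
          rw [zero_mul]
        rw [this, Nil.sg_zero]
      rw [h1, zero_add]
      refine Finset.sum_congr rfl fun a _ => ?_
      rw [mD_DW_sg]
      congr 1
      show _ = (X (ep a, i) * X (ep a, l)) * _
      rw [mul_comm]

/-- jets without the wave `b` -/
def JO (b : Option α) (v : Fld n × Multiset (Fin n)) : Nil (Option α) (SS α n) :=
  ∑ b' ∈ univ.erase b, Nil.sg b' (jt b' v)

lemma JJ_split (b : Option α) (v : Fld n × Multiset (Fin n)) :
    (JJ v : Nil (Option α) (SS α n)) = JO b v + Nil.sg b (jt b v) := by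
  unfold JJ JO
  rw [Finset.sum_erase_add _ _ (Finset.mem_univ b)]

lemma JO_co (b : Option α) (v : Fld n × Multiset (Fin n)) (T : Finset (Option α)) (hT : b ∈ T) :
    (JO b v : Nil (Option α) (SS α n)).co T = 0 := by
  unfold JO
  rw [Nil.co_sum]
  refine Finset.sum_eq_zero fun b' hb' => ?_
  rw [Nil.co_sg, if_neg]
  rintro rfl
  rw [Finset.mem_singleton] at hT
  exact (Finset.mem_erase.1 hb').1 hT.symm

lemma JO_co' (b : Option α) (v : Fld n × Multiset (Fin n)) (T : Finset (Option α)) (hT : b ∉ T) :
    (JO b v : Nil (Option α) (SS α n)).co T = (JJ v).co T := by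
  rw [JJ_split b, Nil.co_add, Nil.co_sg, if_neg, add_zero]
  rintro rfl
  simp at hT

variable (c : JR (Fld n) n)

/-- the symbol -/
def QQ (α : Type) [Fintype α] [DecidableEq α] (c : JR (Fld n) n) : SS α n :=
  (aeval JJ c : Nil (Option α) (SS α n)).co univ

/-- the coefficients of the symbol as a linear form in the jets of the wave `b` -/
def MM (c : JR (Fld n) n) (b : Option α) (v : Fld n × Multiset (Fin n)) : SS α n :=
  (aeval JJ (pderiv v c) : Nil (Option α) (SS α n)).co (univ.erase b)

/-- the linear form in the jets of the wave `b` -/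
def PP (c : JR (Fld n) n) (b : Option α) (w : Fld n × Multiset (Fin n) → SS α n) : SS α n :=
  ∑ v ∈ c.vars, MM c b v * w v

lemma aeval_JO (b : Option α) (P : JR (Fld n) n) :
    (aeval (JO b) P : Nil (Option α) (SS α n)).co (univ.erase b) = (aeval JJ P).co (univ.erase b) :=
  Nil.aeval_co_congr (JO b) JJ (univ.erase b) (fun v T hT => JO_co' b v T
    (fun h => Finset.notMem_erase b univ (hT h))) P _ subset_rfl

lemma sum_sg_co (b : Option α) (w : Fld n × Multiset (Fin n) → SS α n) :
    (∑ v ∈ c.vars, aeval (JO b) (pderiv v c) * (Nil.sg b (w v) : Nil (Option α) (SS α n))).co univ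
      = PP c b w := by
  rw [Nil.co_sum]
  unfold PP MM
  refine Finset.sum_congr rfl fun v _ => ?_
  rw [Nil.co_mul_sg, if_pos (Finset.mem_univ b), aeval_JO]

lemma QQ_eq (b : Option α) : QQ α c = PP c b (jt b) := by
  unfold QQ
  have h1 : (JJ : _ → Nil (Option α) (SS α n)) = fun v => JO b v + Nil.sg b (jt b v) :=
    funext (JJ_split b)
  rw [h1, taylor _ _ (fun v w => Nil.sg_mul_sg_self _ _ _), Nil.co_add, sum_sg_co,
    Nil.aeval_co_zero (JO b) b (fun v T hT => JO_co b v T hT) c univ (Finset.mem_univ b), zero_add]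

lemma PP_add (b : Option α) (w w' : Fld n × Multiset (Fin n) → SS α n) :
    PP c b (fun v => w v + w' v) = PP c b w + PP c b w' := by
  unfold PP
  rw [← Finset.sum_add_distrib]
  exact Finset.sum_congr rfl fun v _ => mul_add _ _ _

lemma PP_sub (b : Option α) (w w' : Fld n × Multiset (Fin n) → SS α n) :
    PP c b (fun v => w v - w' v) = PP c b w - PP c b w' := by
  unfold PP
  rw [← Finset.sum_sub_distrib]
  exact Finset.sum_congr rfl fun v _ => mul_sub _ _ _

lemma PP_mul (b : Option α) (y : SS α n) (w : Fld n × Multiset (Fin n) → SS α n) :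
    PP c b (fun v => y * w v) = y * PP c b w := by
  unfold PP
  rw [Finset.mul_sum]
  exact Finset.sum_congr rfl fun v _ => by ring

lemma PP_sum {ι : Type*} (t : Finset ι) (b : Option α) (w : ι → Fld n × Multiset (Fin n) → SS α n) :
    PP c b (fun v => ∑ i ∈ t, w i v) = ∑ i ∈ t, PP c b (w i) := by
  unfold PP
  rw [Finset.sum_comm]
  exact Finset.sum_congr rfl fun v _ => by rw [Finset.mul_sum]

lemma PP_congr (b : Option α) {w w' : Fld n × Multiset (Fin n) → SS α n} (h : ∀ v, w v = w' v) :
    PP c b w = PP c b w' := by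
  rw [funext h]

/-! ### dependence on the variables -/

lemma pderiv_prod_zero {σ : Type} (v : σ) (s : Multiset (MvPolynomial σ ℝ))
    (h : ∀ x ∈ s, pderiv v x = 0) : pderiv v s.prod = 0 := by
  induction s using Multiset.induction with
  | empty => rw [Multiset.prod_zero, Derivation.map_one_eq_zero]
  | cons x s ih =>
    rw [Multiset.prod_cons, Derivation.leibniz, ih (fun y hy => h y (Multiset.mem_cons_of_mem hy)),
      h x (Multiset.mem_cons_self x s)]
    simp

lemma pderiv_X_ne {σ : Type} (v w : σ) (h : v ≠ w) :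
    pderiv v (X w : MvPolynomial σ ℝ) = 0 := pderiv_X_of_ne (Ne.symm h)

lemma pderiv_xs_zero (u : Lab α Unit) (i : Fin n) (b : Option α) (h : u ≠ wv b)
    (s : Multiset (Fin n)) : pderiv (u, i) (xs b s : SS α n) = 0 := by
  unfold xs
  apply pderiv_prod_zero
  intro x hx
  obtain ⟨j, _, rfl⟩ := Multiset.mem_map.1 hx
  unfold wx
  exact pderiv_X_ne _ _ (fun h1 => h (Prod.ext_iff.1 h1).1)

lemma pderiv_amp_zero (u : Lab α Unit) (i : Fin n) (b : Option α) (h : ∀ a, b = some a → u ≠ ep a)
    (o : Fld n) : pderiv (u, i) (amp b o : SS α n) = 0 := by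
  rcases b with _ | a
  · rcases o with _ | s
    · show pderiv (u, i) (1 : SS α n) = 0
      rw [Derivation.map_one_eq_zero]
    · show pderiv (u, i) (0 : SS α n) = 0
      rw [map_zero]
  · rcases o with _ | s
    · show pderiv (u, i) (0 : SS α n) = 0
      rw [map_zero]
    · induction s using Sym2.ind with
      | _ j l =>
        have h1 := h a rfl
        have h2 : amp (some a) (some s(j, l)) = (X (ep a, j) * X (ep a, l) : SS α n) := rfl
        have h3 : ∀ j : Fin n, pderiv (u, i) (X (ep a, j) : SS α n) = 0 := fun j =>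
          pderiv_X_ne (u, i) (ep a, j) (fun h2 => h1 (Prod.ext_iff.1 h2).1)
        rw [h2, Derivation.leibniz, h3, h3, smul_zero, smul_zero, add_zero]

lemma pderiv_jt_zero (u : Lab α Unit) (i : Fin n) (b : Option α) (h : lb u ≠ b)
    (v : Fld n × Multiset (Fin n)) : pderiv (u, i) (jt b v : SS α n) = 0 := by
  unfold jt
  rw [Derivation.leibniz, pderiv_xs_zero u i b (fun h1 => h (by rw [h1, lb_wv])),
    pderiv_amp_zero u i b (fun a ha h1 => h (by rw [h1, ha]; rfl))]
  simp

/-- a coefficient does not involve the vectors belonging to waves that do not occur -/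
lemma pderiv_co_zero (u : Lab α Unit) (i : Fin n) (S : Finset (Option α)) (h : lb u ∉ S)
    (P : JR (Fld n) n) :
    pderiv (u, i) ((aeval JJ P : Nil (Option α) (SS α n)).co S) = 0 := by
  rw [← Nil.co_cd, chain_rule, Nil.co_sum]
  refine Finset.sum_eq_zero fun v _ => ?_
  have h1 : Nil.cd (pderiv (u, i)) (JJ v : Nil (Option α) (SS α n))
      = Nil.sg (lb u) (pderiv (u, i) (jt (lb u) v)) := by
    unfold JJ
    rw [map_sum, Finset.sum_eq_single (lb u)]
    · rw [Nil.cd_sg]
    · intro b _ hb
      rw [Nil.cd_sg, pderiv_jt_zero u i b (Ne.symm hb), Nil.sg_zero]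
    · intro h1; exact absurd (Finset.mem_univ _) h1
  rw [h1, Nil.co_mul_sg, if_neg h]

lemma pderiv_MM (u : Lab α Unit) (i : Fin n) (b : Option α) (h : lb u = b)
    (v : Fld n × Multiset (Fin n)) : pderiv (u, i) (MM c b v : SS α n) = 0 := by
  unfold MM
  exact pderiv_co_zero u i _ (by rw [h]; exact Finset.notMem_erase b univ) _

lemma pderiv_PP (u : Lab α Unit) (i : Fin n) (b : Option α) (h : lb u = b)
    (w : Fld n × Multiset (Fin n) → SS α n) :
    pderiv (u, i) (PP c b w) = PP c b (fun v => pderiv (u, i) (w v)) := by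
  unfold PP
  rw [map_sum]
  refine Finset.sum_congr rfl fun v _ => ?_
  rw [Derivation.leibniz, pderiv_MM c u i b h]
  simp

lemma RR_PP (u u' : Lab α Unit) (b : Option α) (h : lb u = b)
    (w : Fld n × Multiset (Fin n) → SS α n) :
    RR n u u' (PP c b w) = PP c b (fun v => RR n u u' (w v)) := by
  unfold RR
  rw [PP_sum]
  refine Finset.sum_congr rfl fun i _ => ?_
  rw [PP_mul, pderiv_PP c u i b h]

lemma LL_PP (u u' : Lab α Unit) (b : Option α) (h : lb u = b) (h' : lb u' = b)
    (w : Fld n × Multiset (Fin n) → SS α n) :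
    LL n u u' (PP c b w) = PP c b (fun v => LL n u u' (w v)) := by
  unfold LL
  rw [PP_sum]
  refine Finset.sum_congr rfl fun i _ => ?_
  rw [pderiv_PP c u' i b h', pderiv_PP c u i b h]

lemma KA_PP (m : Fin n) (a : α) (w : Fld n × Multiset (Fin n) → SS α n) :
    KA n m a (PP c (some a) w) = PP c (some a) (fun v => KA n m a (w v)) := by
  unfold KA
  rw [LL_PP c _ _ _ (lb_xi a) (lb_xi a), pderiv_PP c _ _ _ (lb_xi a), RR_PP c _ _ _ (lb_xi a),
    LL_PP c _ _ _ (lb_xi a) (lb_ep a), pderiv_PP c _ _ _ (lb_ep a), RR_PP c _ _ _ (lb_xi a)]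
  rw [PP_sub, PP_add, PP_sub, PP_mul, PP_mul, PP_mul, PP_mul, PP_mul]

lemma KO_PP (m : Fin n) (w : Fld n × Multiset (Fin n) → SS α n) :
    KO n m () (PP c none w) = PP c none (fun v => KO n m () (w v)) := by
  unfold KO
  rw [LL_PP c _ _ _ lb_ex lb_ex, pderiv_PP c _ _ _ lb_ex, RR_PP c _ _ _ lb_ex]
  rw [PP_sub, PP_mul, PP_mul]

end

end GJMS
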