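import Pool.Agent.GJMS.Sym

/-! # Trace and gauge equations for the symbol; degrees -/

open Finset MvPolynomial

set_option linter.unusedSectionVars false

namespace GJMS

noncomputable section

variable {α : Type} [Fintype α] [DecidableEq α] {n : ℕ}

/-- the metric perturbation without the wave `a` -/
def γO (a : α) (i l : Fin n) : Nil (Option α) (SS α n) :=
  ∑ a' ∈ univ.erase a, Nil.sg (some a') (X (ep a', i) * X (ep a', l))

lemma γO_symm (a : α) (i l : Fin n) : (γO a i l : Nil (Option α) (SS α n)) = γO a l i := by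
  unfold γO
  exact Finset.sum_congr rfl fun a _ => by rw [mul_comm]

lemma fld_sg (b : Option α) (h : Fin n → Fin n → SS α n) (f : SS α n) (o : Fld n) :
    fld (fun i l => Nil.sg b (h i l)) (Nil.sg b f) o = Nil.sg b (fld h f o) := by
  rcases o with _ | s <;> rfl

lemma jets_sg (b : Option α) (h : Fin n → Fin n → SS α n) (f : SS α n)
    (v : Fld n × Multiset (Fin n)) :
    mD (fun i => DW i) v.2 (fld (fun i l => Nil.sg b (h i l)) (Nil.sg b f) v.1)
      = Nil.sg b (xs b v.2 * fld h f v.1) := by
  rw [fld_sg, mD_DW_sg]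

lemma fld_ee (a : α) (o : Fld n) :
    fld (fun i l => (X (ep a, i) * X (ep a, l) : SS α n)) 0 o = amp (some a) o := by
  rcases o with _ | s
  · rfl
  · induction s using Sym2.ind with
    | _ i l =>
      rw [fld_some _ (fun i l => mul_comm _ _)]
      rfl

lemma JO_eq (a : α) (v : Fld n × Multiset (Fin n)) :
    mD (fun i => DW i) v.2 (fld (γO a) fW v.1) = (JO (some a) v : Nil (Option α) (SS α n)) := by
  have h1 := JJ_eq (α := α) v
  have h2 : ∀ i l : Fin n, (γW i l : Nil (Option α) (SS α n))
      = γO a i l + Nil.sg (some a) (X (ep a, i) * X (ep a, l)) := by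
    intro i l
    unfold γW γO
    rw [Finset.sum_erase_add _ _ (Finset.mem_univ a)]
  have h3 : (γW : Fin n → Fin n → Nil (Option α) (SS α n))
      = fun i l => γO a i l + Nil.sg (some a) (X (ep a, i) * X (ep a, l)) := by
    funext i l; exact h2 i l
  have h4 : (fW : Nil (Option α) (SS α n)) = fW + Nil.sg (some a) 0 := by
    rw [Nil.sg_zero, add_zero]
  rw [JJ_split (some a), h3, h4, fld_add, mD_addD, jets_sg, fld_ee] at h1
  have h5 : xs (some a) v.2 * amp (some a) v.1 = jt (some a) v := by
    unfold jt; rw [mul_comm]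
  rw [h5] at h1
  exact add_right_cancel h1

/-- from an invariance to an equation for the symbol -/
lemma perturb (c : JR (Fld n) n) (a : α) (h : Fin n → Fin n → SS α n)
    (hinv : jetHom (fun i => DW i) (fld (fun i l => γO a i l + Nil.sg (some a) (h i l)) fW) c
      = jetHom (fun i => DW i) (fld (γO a) fW) c) :
    PP c (some a) (fun v => xs (some a) v.2 * fld h 0 v.1) = 0 := by
  have h1 : jetHom (fun i => DW i) (fld (fun i l => γO a i l + Nil.sg (some a) (h i l)) fW) c
      = aeval (fun v => JO (some a) v + Nil.sg (some a) (xs (some a) v.2 * fld h 0 v.1)) c := by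
    unfold jetHom
    congr 2
    funext v
    have h4 : (fW : Nil (Option α) (SS α n)) = fW + Nil.sg (some a) 0 := by
      rw [Nil.sg_zero, add_zero]
    rw [← JO_eq, ← jets_sg, ← mD_addD, ← fld_add, ← h4]
  have h2 : jetHom (fun i => DW i) (fld (γO a) fW) c = aeval (JO (some a)) c := by
    unfold jetHom
    congr 2
    funext v
    rw [← JO_eq]
  rw [h1, h2, taylor _ _ (fun v w => Nil.sg_mul_sg_self _ _ _)] at hinv
  have h3 := add_eq_left.1 hinv
  rw [← sum_sg_co, h3]
  rfl

variable (E : NatOp n) (hE : ConfInf E.toNatFam) (k : ℕ) (hk : ∀ d ∈ E.q.support, k ≤ Finsupp.weight wg d)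

include hE hk in
lemma trace_PP (a : α) :
    PP (E.lc k) (some a) (fun v => xs (some a) v.2 * fld (dl : Fin n → Fin n → SS α n) 0 v.1) = 0 := by
  apply perturb
  have h1 := E.eqT hE k hk DW DW_comm (Nil.idl (some a)) (Nil.idl_sq (some a))
    (fun i => Nil.idl_dn _ _ (some a) i) (γO a) (γO_symm a) fW (Nil.sg (some a) 1)
    (Nil.sg_mem_idl _ _)
  rw [← h1]
  congr 3
  funext i l
  have h2 : (dl i l : Nil (Option α) (SS α n)) = Nil.cst (dl i l) := (jetHom_map_dl Nil.cst i l).symm
  rw [h2, mul_comm (Nil.sg (some a) 1), Nil.cst_mul_sg, mul_one]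

include hk in
lemma gauge_PP (a : α) :
    PP (E.lc k) (some a) (fun v => xs (some a) v.2 *
      fld (fun i l => (X (xi a, i) * X (ep a, l) + X (xi a, l) * X (ep a, i) : SS α n)) 0 v.1) = 0 := by
  apply perturb
  have h1 := E.eqG k hk DW DW_comm (Nil.idl (some a)) (Nil.idl_sq (some a))
    (fun i => Nil.idl_dn _ _ (some a) i) (fun i => Nil.sg (some a) (X (ep a, i)))
    (fun i => Nil.sg_mem_idl _ _) (γO a) (γO_symm a) fW
  rw [← h1]
  congr 3
  funext i l
  unfold DW
  rw [Nil.dn_sg, Nil.dn_sg, ← Nil.sg_add]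
  congr 2
  show X (xi a, i) * X (ep a, l) + X (xi a, l) * X (ep a, i) = _
  simp only [Derivation.zero_apply, zero_add]
  rfl

/-! ### the operators on the jets of a single wave -/

lemma pderiv_ep_xs (a : α) (i : Fin n) (s : Multiset (Fin n)) :
    pderiv (ep a, i) (xs (some a) s : SS α n) = 0 :=
  pderiv_xs_zero (ep a) i (some a) (by intro h; cases h) s

lemma pderiv_ep_X (a : α) (i j : Fin n) :
    pderiv (ep a, i) (X (ep a, j) : SS α n) = dl i j := by
  unfold dl
  by_cases h : i = j
  · rw [h, if_pos rfl, pderiv_X_self]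
  · rw [if_neg h, pderiv_X_ne _ _ (fun h1 => h (Prod.ext_iff.1 h1).2)]

lemma pderiv_dl {σ : Type} (v : σ) (i j : Fin n) : pderiv v (dl i j : MvPolynomial σ ℝ) = 0 := by
  unfold dl
  split_ifs
  · exact Derivation.map_one_eq_zero _
  · exact map_zero _

lemma sum_dl {B : Type} [CommRing B] (i : Fin n) (x : Fin n → B) : ∑ j, dl j i * x j = x i := by
  unfold dl; simp

lemma sum_dl' {B : Type} [CommRing B] (i : Fin n) (x : Fin n → B) : ∑ j, x j * dl j i = x i := by
  unfold dl; simp

lemma fld_none' {A : Type} (g : Fin n → Fin n → A) (f : A) (s : Multiset (Fin n)) :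
    fld g f ((none, s) : Fld n × Multiset (Fin n)).1 = f := rfl

lemma LLep_jt (a : α) (v : Fld n × Multiset (Fin n)) :
    LL n (ep a) (ep a) (jt (some a) v : SS α n)
      = 2 * (xs (some a) v.2 * fld (dl : Fin n → Fin n → SS α n) 0 v.1) := by
  obtain ⟨o, s⟩ := v
  unfold jt LL
  rcases o with _ | t
  · show ∑ i, pderiv (ep a, i) (pderiv (ep a, i) ((0 : SS α n) * xs (some a) s)) = 2 * (xs (some a) s * 0)
    simp
  · induction t using Sym2.ind with
    | _ i l =>
      rw [fld_some _ dl_symm]
      have h1 : ∀ j : Fin n, pderiv (ep a, j) (pderiv (ep a, j) (amp (some a) (some s(i, l)) * xs (some a) s : SS α n))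
          = dl j i * (2 * dl j l * xs (some a) s) := by
        intro j
        have h2 : amp (some a) (some s(i, l)) = (X (ep a, i) * X (ep a, l) : SS α n) := rfl
        rw [h2]
        simp only [Derivation.leibniz, smul_eq_mul, pderiv_ep_X, pderiv_ep_xs, map_add, pderiv_dl,
          mul_zero, add_zero, zero_add]
        ring
      show ∑ j, pderiv (ep a, j) (pderiv (ep a, j) (amp (some a) (some s(i, l)) * xs (some a) s)) = _
      rw [Finset.sum_congr rfl (fun j _ => h1 j), sum_dl]
      ring

lemma RRg_jt (a : α) (v : Fld n × Multiset (Fin n)) :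
    RR n (ep a) (xi a) (jt (some a) v : SS α n)
      = xs (some a) v.2 *
      fld (fun i l => (X (xi a, i) * X (ep a, l) + X (xi a, l) * X (ep a, i) : SS α n)) 0 v.1 := by
  obtain ⟨o, s⟩ := v
  unfold jt RR
  rcases o with _ | t
  · show ∑ i, X (xi a, i) * pderiv (ep a, i) ((0 : SS α n) * xs (some a) s) = xs (some a) s * 0
    simp
  · induction t using Sym2.ind with
    | _ i l =>
      rw [fld_some _ (fun i l => by ring)]
      have h1 : ∀ j : Fin n, X (xi a, j) * pderiv (ep a, j) (amp (some a) (some s(i, l)) * xs (some a) s : SS α n)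
          = dl j i * (X (xi a, j) * X (ep a, l) * xs (some a) s)
            + dl j l * (X (xi a, j) * X (ep a, i) * xs (some a) s) := by
        intro j
        have h2 : amp (some a) (some s(i, l)) = (X (ep a, i) * X (ep a, l) : SS α n) := rfl
        rw [h2]
        simp only [Derivation.leibniz, smul_eq_mul, pderiv_ep_X, pderiv_ep_xs,
          mul_zero, zero_add]
        ring
      show ∑ j, X (xi a, j) * pderiv (ep a, j) (amp (some a) (some s(i, l)) * xs (some a) s) = _
      rw [Finset.sum_congr rfl (fun j _ => h1 j), Finset.sum_add_distrib, sum_dl, sum_dl]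
      ring

lemma RRep_jt (a : α) (v : Fld n × Multiset (Fin n)) :
    RR n (ep a) (ep a) (jt (some a) v : SS α n) = 2 * jt (some a) v := by
  obtain ⟨o, s⟩ := v
  unfold jt RR
  rcases o with _ | t
  · show ∑ i, X (ep a, i) * pderiv (ep a, i) ((0 : SS α n) * xs (some a) s) = 2 * (0 * xs (some a) s)
    simp
  · induction t using Sym2.ind with
    | _ i l =>
      have h2 : amp (some a) (some s(i, l)) = (X (ep a, i) * X (ep a, l) : SS α n) := rfl
      have h1 : ∀ j : Fin n, X (ep a, j) * pderiv (ep a, j) (amp (some a) (some s(i, l)) * xs (some a) s : SS α n)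
          = dl j i * (X (ep a, j) * X (ep a, l) * xs (some a) s)
            + dl j l * (X (ep a, j) * X (ep a, i) * xs (some a) s) := by
        intro j
        rw [h2]
        simp only [Derivation.leibniz, smul_eq_mul, pderiv_ep_X, pderiv_ep_xs,
          mul_zero, zero_add]
        ring
      show ∑ j, X (ep a, j) * pderiv (ep a, j) (amp (some a) (some s(i, l)) * xs (some a) s) = _
      rw [Finset.sum_congr rfl (fun j _ => h1 j), Finset.sum_add_distrib, sum_dl, sum_dl]
      show _ = 2 * (amp (some a) (some s(i, l)) * xs (some a) s)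
      rw [h2]
      ring

include hE hk in
/-- trace condition for the symbol -/
theorem QQ_trace (a : α) : LL n (ep a) (ep a) (QQ α (E.lc k)) = 0 := by
  rw [QQ_eq (E.lc k) (some a), LL_PP _ _ _ _ (lb_ep a) (lb_ep a)]
  simp_rw [LLep_jt]
  rw [PP_mul, trace_PP E hE k hk, mul_zero]

include hk in
/-- gauge invariance of the symbol -/
theorem QQ_gauge (a : α) : RR n (ep a) (xi a) (QQ α (E.lc k)) = 0 := by
  rw [QQ_eq (E.lc k) (some a), RR_PP _ _ _ _ (lb_ep a)]
  simp_rw [RRg_jt]
  exact gauge_PP E k hk a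

lemma QQ_ep (c : JR (Fld n) n) (a : α) : RR n (ep a) (ep a) (QQ α c) = 2 * QQ α c := by
  rw [QQ_eq c (some a), RR_PP _ _ _ _ (lb_ep a)]
  simp_rw [RRep_jt]
  rw [PP_mul]

/-- coefficients of the Euler operator -/
lemma coeff_RR {L : Type} [DecidableEq L] (u : L) (Q : MvPolynomial (L × Fin n) ℝ)
    (d : L × Fin n →₀ ℕ) : coeff d (RR n u u Q) = (ldeg u d : ℝ) * coeff d Q := by
  unfold RR ldeg
  rw [coeff_sum]
  push_cast
  rw [Finset.sum_mul]
  refine Finset.sum_congr rfl fun i _ => ?_
  rw [coeff_X_mul']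
  split_ifs with h
  · rw [coeff_pderiv]
    have h1 : (d - Finsupp.single (u, i) 1) + Finsupp.single (u, i) 1 = d := by
      apply tsub_add_cancel_of_le
      rw [Finsupp.single_le_iff]
      exact Nat.one_le_iff_ne_zero.2 (Finsupp.mem_support_iff.1 h)
    have h2 : (((d - Finsupp.single (u, i) 1 : L × Fin n →₀ ℕ) (u, i) : ℕ) : ℝ) + 1 = d (u, i) := by
      have h3 : d (u, i) ≠ 0 := Finsupp.mem_support_iff.1 h
      have h4 : (d - Finsupp.single (u, i) 1 : L × Fin n →₀ ℕ) (u, i) = d (u, i) - 1 := by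
        rw [Finsupp.tsub_apply, Finsupp.single_eq_same]
      rw [h4]
      have h5 : 1 ≤ d (u, i) := Nat.one_le_iff_ne_zero.2 h3
      push_cast [h5]
      ring
    rw [h1, h2]
    ring
  · have h3 : d (u, i) = 0 := by
      by_contra h4
      exact h (Finsupp.mem_support_iff.2 h4)
    rw [h3]
    simp

lemma QQ_degEp (c : JR (Fld n) n) (a : α) : ∀ d ∈ (QQ α c).support, ldeg (ep a) d = 2 := by
  intro d hd
  have h1 := congrArg (coeff d) (QQ_ep c a)
  rw [coeff_RR] at h1
  have h2 : coeff d (2 * QQ α c) = 2 * coeff d (QQ α c) := by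
    have : (2 : SS α n) = C 2 := (map_ofNat C 2).symm
    rw [this, coeff_C_mul]
  rw [h2] at h1
  have h3 : coeff d (QQ α c) ≠ 0 := MvPolynomial.mem_support_iff.1 hd
  have h4 : (ldeg (ep a) d : ℝ) = 2 := mul_right_cancel₀ h3 h1
  exact_mod_cast h4

end

end GJMS
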