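import Pool.Agent.GJMS.SymEq

/-! # Special conformal and Euler equations for the symbol -/

open Finset MvPolynomial

set_option linter.unusedSectionVars false

namespace GJMS

noncomputable section

variable {α : Type} [Fintype α] [DecidableEq α] {n : ℕ}

/-- polynomials in `x` over `SS` -/
abbrev SX (α : Type) (n : ℕ) : Type := MvPolynomial (Fin n) (SS α n)

/-- partial derivative with respect to `x_i` -/
def px (i : Fin n) : Derivation ℝ (SX α n) (SX α n) := (pderiv i).restrictScalars ℝ

lemma px_X (i j : Fin n) : px i (X j : SX α n) = dl i j := by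
  show pderiv i (X j) = _
  unfold dl
  by_cases h : i = j
  · rw [h, if_pos rfl, pderiv_X_self]
  · rw [if_neg h, pderiv_X_of_ne (Ne.symm h)]

lemma px_C (i : Fin n) (x : SS α n) : px i (C x : SX α n) = 0 := by
  show pderiv i (C x) = 0
  exact pderiv_C

lemma px_comm (i j : Fin n) (x : SX α n) : px i (px j x) = px j (px i x) := by
  have h : ⁅(pderiv i : Derivation (SS α n) (SX α n) (SX α n)),
      (pderiv j : Derivation (SS α n) (SX α n) (SX α n))⁆ = 0 := by
    apply MvPolynomial.derivation_ext
    intro v
    rw [Derivation.commutator_apply, Derivation.zero_apply, pderiv_X, pderiv_X]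
    have h1 : ∀ i j : Fin n, pderiv i (Pi.single (M := fun _ => SX α n) j 1 v) = 0 := by
      intro i j
      by_cases h : j = v
      · subst h; rw [Pi.single_eq_same, Derivation.map_one_eq_zero]
      · rw [Pi.single_eq_of_ne (Ne.symm h), map_zero]
    rw [h1, h1, sub_zero]
  have h2 := congrArg (fun δ : Derivation (SS α n) (SX α n) (SX α n) => δ x) h
  simp only [Derivation.commutator_apply, Derivation.zero_apply] at h2
  exact sub_eq_zero.1 h2

/-- the derivations over `SX` -/
def DX (i : Fin n) : Derivation ℝ (Nil (Option α) (SX α n)) (Nil (Option α) (SX α n)) :=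
  Nil.dn px (fun b i => C (wx b i)) i

lemma DX_comm (i j : Fin n) (x : Nil (Option α) (SX α n)) : DX i (DX j x) = DX j (DX i x) :=
  Nil.dn_comm px px_comm _ (fun i _ _ => px_C i _) i j x

/-- inclusion of the constants -/
def cX (α : Type) (n : ℕ) : SS α n →ₐ[ℝ] SX α n where
  toRingHom := C
  commutes' _ := rfl

/-- evaluation at `x = 0` -/
def eX (α : Type) (n : ℕ) : SX α n →ₐ[ℝ] SS α n where
  toRingHom := constantCoeff
  commutes' r := by
    show constantCoeff (algebraMap ℝ (SX α n) r) = _
    have : algebraMap ℝ (SX α n) r = C (algebraMap ℝ (SS α n) r) := rfl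
    rw [this, constantCoeff_C]

lemma cX_apply (x : SS α n) : cX α n x = C x := rfl
lemma eX_apply (x : SX α n) : eX α n x = constantCoeff x := rfl

lemma DX_map (i : Fin n) (F : Nil (Option α) (SS α n)) :
    Nil.map (cX α n) (DW i F) = DX i (Nil.map (cX α n) F) := by
  ext S
  unfold DX DW
  rw [Nil.co_map, Nil.co_dn, Nil.co_dn, Nil.co_map, cX_apply, cX_apply, px_C]
  simp only [Derivation.zero_apply, zero_add, map_mul, map_sum]

/-- the metric perturbation over `SX` -/
def γX (i l : Fin n) : Nil (Option α) (SX α n) :=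
  ∑ a : α, Nil.sg (some a) (C (X (ep a, i) * X (ep a, l)))

/-- the function over `SX` -/
def fX : Nil (Option α) (SX α n) := Nil.sg none 1

lemma γX_symm (i l : Fin n) : (γX i l : Nil (Option α) (SX α n)) = γX l i := by
  unfold γX
  exact Finset.sum_congr rfl fun a _ => by rw [mul_comm]

lemma map_γW (i l : Fin n) : Nil.map (cX α n) (γW i l) = γX i l := by
  unfold γW γX
  rw [map_sum]
  exact Finset.sum_congr rfl fun a _ => by rw [Nil.map_sg, cX_apply]

lemma map_fW : Nil.map (cX α n) fW = (fX : Nil (Option α) (SX α n)) := by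
  unfold fW fX
  rw [Nil.map_sg, map_one]

lemma jetHom_DW (p : JR (Fld n) n) :
    jetHom (fun i => DW i) (fld γW fW) p = (aeval JJ p : Nil (Option α) (SS α n)) := by
  have h : (fun v : Fld n × Multiset (Fin n) => mD (fun i => DW i) v.2 (fld γW fW v.1))
      = (JJ : _ → Nil (Option α) (SS α n)) := funext JJ_eq
  unfold jetHom
  rw [h]

lemma jetHom_DX (p : JR (Fld n) n) :
    jetHom (fun i => DX i) (fld γX fX) p = Nil.map (cX α n) (aeval JJ p) := by
  have h1 := jetHom_nat (fun i => DW i) (fun i => DX i) (Nil.map (K := Option α) (cX α n))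
    (fun i a => DX_map i a) (fld γW fW) p
  rw [fld_comp, map_fW] at h1
  simp_rw [map_γW] at h1
  rw [← h1, jetHom_DW]

/-- the operators `∂_i + ξ_{b,i}` -/
def Db (b : Option α) (i : Fin n) (x : SX α n) : SX α n := px i x + C (wx b i) * x

/-- derivatives at `x = 0` of `e^{ξ_b x} h`, for a list of indices -/
def Tl (b : Option α) (l : List (Fin n)) (h : SX α n) : SS α n :=
  constantCoeff (l.foldr (Db b) h)

/-- `ξ^l` -/
def xl (b : Option α) (l : List (Fin n)) : SS α n := (l.map (wx b)).prod

lemma foldr_Db_add (b : Option α) (l : List (Fin n)) (h h' : SX α n) :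
    l.foldr (Db b) (h + h') = l.foldr (Db b) h + l.foldr (Db b) h' := by
  induction l with
  | nil => rfl
  | cons i l ih =>
    rw [List.foldr_cons, ih, List.foldr_cons, List.foldr_cons]
    unfold Db
    rw [map_add]; ring

lemma foldr_Db_C (b : Option α) (l : List (Fin n)) (g : SS α n) (h : SX α n) :
    l.foldr (Db b) (C g * h) = C g * l.foldr (Db b) h := by
  induction l with
  | nil => rfl
  | cons i l ih =>
    rw [List.foldr_cons, ih, List.foldr_cons]
    unfold Db
    rw [Derivation.leibniz, px_C]
    simp only [smul_eq_mul, mul_zero, add_zero]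
    ring

lemma Tl_add (b : Option α) (l : List (Fin n)) (h h' : SX α n) :
    Tl b l (h + h') = Tl b l h + Tl b l h' := by
  unfold Tl; rw [foldr_Db_add, map_add]

lemma Tl_C (b : Option α) (l : List (Fin n)) (g : SS α n) (h : SX α n) :
    Tl b l (C g * h) = g * Tl b l h := by
  unfold Tl; rw [foldr_Db_C, map_mul, constantCoeff_C]

lemma Tl_zero (b : Option α) (l : List (Fin n)) : Tl b l 0 = 0 := by
  have := Tl_C b l 0 0
  rw [map_zero, zero_mul, zero_mul] at this
  exact this

lemma Tl_neg (b : Option α) (l : List (Fin n)) (h : SX α n) : Tl b l (-h) = - Tl b l h := by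
  have h1 := Tl_add b l h (-h)
  rw [add_neg_cancel, Tl_zero] at h1
  exact eq_neg_of_add_eq_zero_right h1.symm

lemma Tl_sub (b : Option α) (l : List (Fin n)) (h h' : SX α n) :
    Tl b l (h - h') = Tl b l h - Tl b l h' := by
  rw [sub_eq_add_neg, Tl_add, Tl_neg, sub_eq_add_neg]

lemma Tl_sum {ι : Type*} (t : Finset ι) (b : Option α) (l : List (Fin n)) (h : ι → SX α n) :
    Tl b l (∑ i ∈ t, h i) = ∑ i ∈ t, Tl b l (h i) := by
  classical
  induction t using Finset.induction_on with
  | empty => rw [Finset.sum_empty, Finset.sum_empty, Tl_zero]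
  | insert j t hj ih => rw [Finset.sum_insert hj, Finset.sum_insert hj, Tl_add, ih]

lemma Tl_append (b : Option α) (l : List (Fin n)) (i : Fin n) (h : SX α n) :
    Tl b (l ++ [i]) h = Tl b l (px i h) + wx b i * Tl b l h := by
  unfold Tl
  rw [List.foldr_append]
  show constantCoeff (l.foldr (Db b) (Db b i h)) = _
  have h1 : Db b i h = px i h + C (wx b i) * h := rfl
  rw [h1, foldr_Db_add, foldr_Db_C, map_add, map_mul, constantCoeff_C]

lemma xl_append (b : Option α) (l : List (Fin n)) (i : Fin n) :
    xl b (l ++ [i]) = xl b l * (wx b i : SS α n) := by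
  unfold xl
  rw [List.map_append, List.prod_append]
  simp

lemma Tl_one (b : Option α) (l : List (Fin n)) : Tl b l (1 : SX α n) = xl b l := by
  induction l using List.reverseRecOn with
  | nil => unfold Tl xl; simp
  | append_singleton l i ih =>
    rw [Tl_append, xl_append, Derivation.map_one_eq_zero, Tl_zero, ih]; ring

lemma Tl_dl (b : Option α) (l : List (Fin n)) (i j : Fin n) :
    Tl b l (dl i j : SX α n) = dl i j * xl b l := by
  unfold dl
  split_ifs
  · rw [Tl_one, one_mul]
  · rw [Tl_zero, zero_mul]

lemma pderiv_wx (b : Option α) (i j : Fin n) : pderiv (wv b, i) (wx b j : SS α n) = dl i j := by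
  unfold wx dl
  by_cases h : i = j
  · rw [h, if_pos rfl, pderiv_X_self]
  · rw [if_neg h, pderiv_X_ne _ _ (fun h1 => h (Prod.ext_iff.1 h1).2)]

lemma Tl_X (b : Option α) (l : List (Fin n)) (c : Fin n) :
    Tl b l (X c : SX α n) = pderiv (wv b, c) (xl b l) := by
  induction l using List.reverseRecOn with
  | nil =>
    unfold Tl xl
    simp
  | append_singleton l i ih =>
    rw [Tl_append, xl_append, px_X, Tl_dl, ih, Derivation.leibniz, pderiv_wx]
    simp only [smul_eq_mul]
    rw [dl_symm]
    ring

lemma Tl_XX (b : Option α) (l : List (Fin n)) (c d : Fin n) :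
    Tl b l (X c * X d : SX α n) = pderiv (wv b, c) (pderiv (wv b, d) (xl b l)) := by
  induction l using List.reverseRecOn with
  | nil =>
    unfold Tl xl
    simp
  | append_singleton l i ih =>
    have h0 : ∀ (i j : Fin n) (v : Lab α Unit × Fin n), pderiv v (dl i j : SS α n) = 0 := by
      intro i j v; exact pderiv_dl v i j
    have h1 : px i (X c * X d : SX α n) = C (dl i d) * X c + C (dl i c) * X d := by
      rw [Derivation.leibniz, px_X, px_X]
      have h2 : ∀ i j : Fin n, (C (dl i j) : SX α n) = dl i j := fun i j =>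
        jetHom_map_dl (C : SS α n →+* SX α n) i j
      rw [h2, h2]
      simp only [smul_eq_mul]
      ring
    rw [Tl_append, xl_append, h1, Tl_add, Tl_C, Tl_C, Tl_X, Tl_X, ih]
    simp only [Derivation.leibniz, smul_eq_mul, pderiv_wx, map_add, h0, mul_zero]
    rw [dl_symm i c, dl_symm i d]
    ring

/-! ### the perturbations by conformal Killing fields -/

/-- the perturbation of the metric wave `a` -/
def HHm (y : Fin n → SX α n) (s : SX α n) (a : α) (i l : Fin n) : SX α n :=
  (∑ c, (y c * (C (wx (some a) c) * C (X (ep a, i) * X (ep a, l)))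
      + px i (y c) * C (X (ep a, c) * X (ep a, l)) + px l (y c) * C (X (ep a, i) * X (ep a, c))))
      - 2 * s * C (X (ep a, i) * X (ep a, l))

lemma HHm_symm (y : Fin n → SX α n) (s : SX α n) (a : α) (i l : Fin n) :
    HHm y s a i l = HHm y s a l i := by
  have h2 : ∀ i j : Fin n, (X (ep a, i) * X (ep a, j) : SS α n) = X (ep a, j) * X (ep a, i) :=
    fun i j => mul_comm _ _
  have h3 : ∀ c : Fin n, (y c * (C (wx (some a) c) * C (X (ep a, i) * X (ep a, l)))
      + px i (y c) * C (X (ep a, c) * X (ep a, l)) + px l (y c) * C (X (ep a, i) * X (ep a, c)))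
      = (y c * (C (wx (some a) c) * C (X (ep a, l) * X (ep a, i)))
      + px l (y c) * C (X (ep a, c) * X (ep a, i)) + px i (y c) * C (X (ep a, l) * X (ep a, c))) := by
    intro c
    rw [h2 i l, h2 c l, h2 i c]
    generalize (C (X (ep a, l) * X (ep a, i)) : SX α n) = u1
    generalize (C (X (ep a, l) * X (ep a, c)) : SX α n) = u2
    generalize (C (X (ep a, c) * X (ep a, i)) : SX α n) = u3
    ring
  unfold HHm
  rw [Finset.sum_congr rfl fun c _ => h3 c, h2 i l]

/-- the perturbation of the wave `b` -/
def HH (y : Fin n → SX α n) (s : SX α n) (b : Option α) (o : Fld n) : SX α n :=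
  b.elim (o.elim (∑ c, y c * C (wx none c)) (fun _ => 0)) (fun a => fld (HHm y s a) 0 o)

lemma pert_eq (y : Fin n → SX α n) (s : SX α n) (o : Fld n) :
    fld (fun i l => lieL (fun i => DX i) (fun c => Nil.cst (y c)) γX i l
        - 2 * Nil.cst s * γX i l) (vf DX (fun c => Nil.cst (y c)) fX) o
      = (∑ b : Option α, Nil.sg b (HH y s b o) : Nil (Option α) (SX α n)) := by
  rw [Fintype.sum_option]
  rcases o with _ | t
  · rw [fld_none]
    have h1 : ∀ a : α, Nil.sg (some a) (HH y s (some a) none) = (0 : Nil (Option α) (SX α n)) := by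
      intro a
      have : HH y s (some a) none = 0 := rfl
      rw [this, Nil.sg_zero]
    simp_rw [h1]
    rw [Finset.sum_const_zero, add_zero]
    show _ = Nil.sg none (∑ c, y c * C (wx none c))
    rw [vf_apply, Nil.sg_sum]
    refine Finset.sum_congr rfl fun c _ => ?_
    unfold fX DX
    rw [Nil.dn_sg, Nil.cst_mul_sg, Derivation.map_one_eq_zero, zero_add, mul_one]
  · have h1 : Nil.sg none (HH y s none (some t)) = (0 : Nil (Option α) (SX α n)) := by
      have : HH y s none (some t) = 0 := rfl
      rw [this, Nil.sg_zero]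
    rw [h1, zero_add]
    show (lieL (fun i => DX i) (fun c => Nil.cst (y c)) γX (Quot.out t).1 (Quot.out t).2
        - 2 * Nil.cst s * γX (Quot.out t).1 (Quot.out t).2)
      = ∑ a : α, Nil.sg (some a) (HHm y s a (Quot.out t).1 (Quot.out t).2)
    generalize (Quot.out t).1 = i
    generalize (Quot.out t).2 = l
    have h2 : (2 : Nil (Option α) (SX α n)) = Nil.cst 2 := (map_ofNat Nil.cst 2).symm
    have h3 : ∀ i c : Fin n, DX i (Nil.cst (y c) : Nil (Option α) (SX α n)) = Nil.cst (px i (y c)) := by
      intro i c; unfold DX; rw [Nil.dn_cst]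
    have h4 : ∀ c i l : Fin n, DX c (γX i l : Nil (Option α) (SX α n))
        = ∑ a : α, Nil.sg (some a) (C (wx (some a) c) * C (X (ep a, i) * X (ep a, l))) := by
      intro c i l
      unfold γX DX
      rw [map_sum]
      refine Finset.sum_congr rfl fun a _ => ?_
      rw [Nil.dn_sg, px_C, zero_add]
    have h5 : ∀ (z : SX α n) (i l : Fin n), (Nil.cst z * γX i l : Nil (Option α) (SX α n))
        = ∑ a : α, Nil.sg (some a) (z * C (X (ep a, i) * X (ep a, l))) := by
      intro z i l
      unfold γX
      rw [Finset.mul_sum]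
      exact Finset.sum_congr rfl fun a _ => Nil.cst_mul_sg _ _ _
    unfold lieL HHm
    rw [h2, ← map_mul, h5]
    simp_rw [h3, h4, h5, Finset.mul_sum, Nil.cst_mul_sg]
    simp_rw [Nil.sg_sub, Nil.sg_sum, Nil.sg_add, Finset.sum_sub_distrib]
    congr 1
    rw [Finset.sum_comm' (t' := Finset.univ) (s' := fun _ => Finset.univ)
      (fun x y => by simp)]
    refine Finset.sum_congr rfl fun c _ => ?_
    rw [Finset.sum_add_distrib, Finset.sum_add_distrib]

end

end GJMS
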