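import Pool.Agent.GJMS.SymK

/-! # The master equation for the symbol -/

open Finset MvPolynomial

set_option linter.unusedSectionVars false

namespace GJMS

noncomputable section

variable {α : Type} [Fintype α] [DecidableEq α] {n : ℕ}

lemma mD_DX_sg (s : Multiset (Fin n)) (b : Option α) (h : SX α n) :
    mD (fun i => DX i) s (Nil.sg b h) = Nil.sg b (mD (Db b) s h) :=
  Nil.mD_dn_sg px (fun b i => C (wx b i)) b s h

variable (E : NatOp n) (hE : ConfInf E.toNatFam) (k : ℕ) (hk : ∀ d ∈ E.q.support, k ≤ Finsupp.weight wg d)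

include hE hk in
theorem master (y : Fin n → SX α n) (s : SX α n)
    (hCK : ∀ a b, px a (y b) + px b (y a) = 2 * s * dl a b)
    (hy : ∀ c, constantCoeff (y c) = 0) :
    ∑ b : Option α, PP (E.lc k) b (fun v => Tl b v.2.toList (HH y s b v.1))
      = n * constantCoeff s * QQ α (E.lc k) := by
  have h1 := E.klin hE k hk DX DX_comm (fun c => (Nil.cst (y c) : Nil (Option α) (SX α n)))
    (Nil.cst s) (fun a b => by
      unfold DX
      rw [Nil.dn_cst, Nil.dn_cst, ← map_add, hCK, map_mul, map_mul,
        jetHom_map_dl (Nil.cst : SX α n →+* Nil (Option α) (SX α n)) a b]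
      congr 2
      exact map_ofNat Nil.cst 2) γX γX_symm fX
  have h2 := congrArg (fun F : Nil (Option α) (SX α n) => eX α n (F.co univ)) h1
  -- right-hand side
  have hR1 : eX α n ((vf DX (fun c => (Nil.cst (y c) : Nil (Option α) (SX α n)))
      (jetHom (fun i => DX i) (fld γX fX) (E.lc k))).co univ) = 0 := by
    rw [vf_apply, Nil.co_sum, map_sum]
    refine Finset.sum_eq_zero fun c _ => ?_
    rw [Nil.co_cst_mul, map_mul, eX_apply (y c), hy, zero_mul]
  have hR2 : eX α n (((n : Nil (Option α) (SX α n)) * Nil.cst s *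
      jetHom (fun i => DX i) (fld γX fX) (E.lc k)).co univ)
      = n * constantCoeff s * QQ α (E.lc k) := by
    have h4 : (n : Nil (Option α) (SX α n)) = Nil.cst (n : SX α n) := (map_natCast Nil.cst n).symm
    rw [h4, ← map_mul, Nil.co_cst_mul, map_mul, map_mul, jetHom_DX, Nil.co_map, cX_apply,
      eX_apply, eX_apply, eX_apply, constantCoeff_C, map_natCast]
    rfl
  rw [Nil.co_add, map_add, hR1, hR2, zero_add] at h2
  rw [← h2, Nil.co_sum, map_sum]
  -- left-hand side
  have hL : ∀ v : Fld n × Multiset (Fin n),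
      eX α n ((jetHom (fun i => DX i) (fld γX fX) (pderiv v (E.lc k)) *
        mD (fun i => DX i) v.2 (fld (fun a b => lieL (fun i => DX i) (fun c => Nil.cst (y c)) γX a b
          - 2 * Nil.cst s * γX a b) (vf DX (fun c => Nil.cst (y c)) fX) v.1) :
          Nil (Option α) (SX α n)).co univ)
      = ∑ b : Option α, MM (E.lc k) b v * Tl b v.2.toList (HH y s b v.1) := by
    intro v
    rw [pert_eq, mD_sumD, Finset.mul_sum, Nil.co_sum, map_sum]
    refine Finset.sum_congr rfl fun b _ => ?_
    rw [mD_DX_sg, Nil.co_mul_sg, if_pos (Finset.mem_univ b), jetHom_DX, Nil.co_map, map_mul,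
      cX_apply, eX_apply, constantCoeff_C]
    rfl
  simp_rw [hL]
  rw [Finset.sum_comm]
  rfl

end

end GJMS
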