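import Pool.Agent.GJMS.Raw

/-! # Density: a jet polynomial vanishing on all smooth data is zero -/

open Finset MvPolynomial Set
open scoped ContDiff

namespace GJMS

noncomputable section

variable {n : ℕ} {U : Set (Fin n → ℝ)}

lemma foldr_congr (hU : IsOpen U) (l : List (Fin n)) {F G : Raw n} (h : EqOn F G U) :
    EqOn (l.foldr pd F) (l.foldr pd G) U := by
  induction l with
  | nil => exact h
  | cons i l ih => exact pd_congr hU i ih

lemma mD_congr (hU : IsOpen U) (s : Multiset (Fin n)) {F G : Raw n} (h : EqOn F G U) :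
    EqOn (mD pd s F) (mD pd s G) U := foldr_congr hU _ h

/-- smooth functions on the whole space -/
abbrev Sm (F : Raw n) : Prop := ContDiff ℝ ∞ F

lemma Sm.pd {F : Raw n} (hF : Sm F) (i : Fin n) : Sm (GJMS.pd i F) :=
  contDiffOn_univ.1 (pd_smooth isOpen_univ i (contDiffOn_univ.2 hF))

lemma Sm.foldr {F : Raw n} (hF : Sm F) (l : List (Fin n)) : Sm (l.foldr GJMS.pd F) :=
  contDiffOn_univ.1 (foldr_smooth isOpen_univ l (contDiffOn_univ.2 hF))

lemma Sm.mD {F : Raw n} (hF : Sm F) (s : Multiset (Fin n)) : Sm (GJMS.mD GJMS.pd s F) := hF.foldr _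

lemma mD_cons_raw' (j : Fin n) (t : Multiset (Fin n)) {F : Raw n} (hF : Sm F) :
    mD pd (j ::ₘ t) F = mD pd t (pd j F) := by
  funext x
  unfold mD
  have h : ((j ::ₘ t).toList).Perm (t.toList ++ [j]) := by
    rw [← Multiset.coe_eq_coe, Multiset.coe_toList, ← Multiset.coe_add, Multiset.coe_toList,
      Multiset.coe_singleton, add_comm, Multiset.singleton_add]
  rw [foldr_perm isOpen_univ h (contDiffOn_univ.2 hF) (mem_univ x), List.foldr_append]
  rfl

lemma pd_add' {F G : Raw n} (hF : Sm F) (hG : Sm G) (i : Fin n) : pd i (F + G) = pd i F + pd i G :=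
  funext fun x => pd_add isOpen_univ i (contDiffOn_univ.2 hF) (contDiffOn_univ.2 hG) (mem_univ x)

lemma pd_smul' (F : Raw n) (r : ℝ) (i : Fin n) : pd i (r • F) = r • pd i F := by
  funext x
  unfold pd
  rw [fderiv_const_smul_field]
  rfl

lemma foldr_add {F G : Raw n} (hF : Sm F) (hG : Sm G) (l : List (Fin n)) :
    l.foldr pd (F + G) = l.foldr pd F + l.foldr pd G := by
  induction l with
  | nil => rfl
  | cons i l ih => rw [List.foldr_cons, ih, pd_add' (hF.foldr l) (hG.foldr l)]; rfl

lemma foldr_smul (F : Raw n) (r : ℝ) (l : List (Fin n)) :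
    l.foldr pd (r • F) = r • l.foldr pd F := by
  induction l with
  | nil => rfl
  | cons i l ih => rw [List.foldr_cons, ih, pd_smul']; rfl

lemma mD_add {F G : Raw n} (hF : Sm F) (hG : Sm G) (s : Multiset (Fin n)) :
    mD pd s (F + G) = mD pd s F + mD pd s G := foldr_add hF hG _

lemma mD_smul (F : Raw n) (r : ℝ) (s : Multiset (Fin n)) :
    mD pd s (r • F) = r • mD pd s F := foldr_smul F r _

lemma Sm.sum {ι : Type} (t : Finset ι) {F : ι → Raw n} (hF : ∀ i, Sm (F i)) : Sm (∑ i ∈ t, F i) := by
  classical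
  induction t using Finset.induction_on with
  | empty => exact contDiff_const
  | insert a t ha ih => rw [Finset.sum_insert ha]; exact (hF a).add ih

lemma mD_sum {ι : Type} (t : Finset ι) {F : ι → Raw n} (hF : ∀ i, Sm (F i)) (s : Multiset (Fin n)) :
    mD pd s (∑ i ∈ t, F i) = ∑ i ∈ t, mD pd s (F i) := by
  classical
  induction t using Finset.induction_on with
  | empty =>
    rw [Finset.sum_empty, Finset.sum_empty]
    have h := mD_smul (0 : Raw n) (0 : ℝ) s
    simpa using h
  | insert a t ha ih =>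
    rw [Finset.sum_insert ha, Finset.sum_insert ha, mD_add (hF a) (Sm.sum t hF), ih]

lemma mD_const (r : ℝ) (s : Multiset (Fin n)) :
    mD pd s (fun _ => r : Raw n) = if s = 0 then (fun _ => r) else (0 : Raw n) := by
  induction s using Multiset.induction with
  | empty => rw [mD_zero, if_pos rfl]
  | cons i s _ =>
    rw [mD_cons_raw' i s contDiff_const, if_neg (Multiset.cons_ne_zero)]
    have h : pd i (fun _ => r : Raw n) = (0 : ℝ) • (0 : Raw n) := by
      funext x; unfold pd; simp
    rw [h, mD_smul, zero_smul]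

/-- the monomial functions -/
def mono (s : Multiset (Fin n)) : Raw n := fun x => (s.map x).prod

lemma mono_cons (i : Fin n) (s : Multiset (Fin n)) : mono (i ::ₘ s) = (fun x => x i) * mono s := by
  funext x; unfold mono; simp

lemma mono_smooth (s : Multiset (Fin n)) : Sm (mono s) := by
  induction s using Multiset.induction with
  | empty => unfold mono; simpa using contDiff_const
  | cons i s ih =>
    rw [mono_cons]
    exact (contDiff_apply ℝ ℝ i).mul ih

lemma pd_coord (i j : Fin n) : pd j (fun x : Fin n → ℝ => x i) = fun _ => if i = j then 1 else 0 := by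
  funext x
  unfold pd
  have h : HasFDerivAt (fun x : Fin n → ℝ => x i) (ContinuousLinearMap.proj (R := ℝ) (φ := fun _ => ℝ) i) x :=
    hasFDerivAt_apply i x
  rw [h.fderiv]
  simp [Pi.single_apply]

lemma pd_mono (j : Fin n) (s : Multiset (Fin n)) :
    pd j (mono s) = (s.count j : ℝ) • mono (s.erase j) := by
  classical
  induction s using Multiset.induction with
  | empty =>
    funext x
    unfold pd mono
    simp
  | cons i s ih =>
    have h1 : pd j (mono (i ::ₘ s)) = (fun x => x i) * pd j (mono s)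
        + mono s * pd j (fun x : Fin n → ℝ => x i) := by
      funext x
      rw [mono_cons, pd_mul isOpen_univ j (contDiffOn_univ.2 (contDiff_apply ℝ ℝ i))
        (contDiffOn_univ.2 (mono_smooth s)) (mem_univ x)]
    rw [h1, ih, pd_coord]
    by_cases hij : i = j
    · subst hij
      rw [Multiset.count_cons_self, Multiset.erase_cons_head]
      by_cases hi : i ∈ s
      · funext x
        have h2 : mono s = (fun x => x i) * mono (s.erase i) := by
          rw [← mono_cons, Multiset.cons_erase hi]
        simp only [Pi.add_apply, Pi.mul_apply, Pi.smul_apply, smul_eq_mul, if_true]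
        have h3 := congrFun h2 x
        simp only [Pi.mul_apply] at h3
        push_cast
        rw [h3]
        ring
      · rw [Multiset.count_eq_zero_of_notMem hi]
        funext x
        simp
    · rw [Multiset.count_cons_of_ne (Ne.symm hij), Multiset.erase_cons_tail _ hij, mono_cons]
      funext x
      simp only [Pi.add_apply, Pi.mul_apply, Pi.smul_apply, smul_eq_mul, if_neg hij]
      ring

lemma mono_jet (t : Multiset (Fin n)) : ∃ c : ℝ, c ≠ 0 ∧
    ∀ s : Multiset (Fin n), mD pd t (mono s) 0 = if s = t then c else 0 := by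
  classical
  induction t using Multiset.induction with
  | empty =>
    refine ⟨1, one_ne_zero, fun s => ?_⟩
    rw [mD_zero]
    induction s using Multiset.induction with
    | empty => simp [mono]
    | cons i s _ => rw [mono_cons, if_neg Multiset.cons_ne_zero]; simp
  | cons j t ih =>
    obtain ⟨c, hc, h⟩ := ih
    refine ⟨((j ::ₘ t).count j : ℝ) * c, ?_, fun s => ?_⟩
    · refine mul_ne_zero ?_ hc
      rw [Multiset.count_cons_self]
      positivity
    · rw [mD_cons_raw' j t (mono_smooth s), pd_mono, mD_smul, Pi.smul_apply, h, smul_eq_mul]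
      by_cases hs : s = j ::ₘ t
      · subst hs
        rw [if_pos rfl, Multiset.erase_cons_head, if_pos rfl]
      · rw [if_neg hs]
        by_cases hj : j ∈ s
        · rw [if_neg, mul_zero]
          intro h2
          apply hs
          rw [← h2, Multiset.cons_erase hj]
        · rw [Multiset.count_eq_zero_of_notMem hj]
          simp

/-- compactly supported smooth functions with one nonzero derivative at `0` -/
lemma exists_mono (s : Multiset (Fin n)) : ∃ m : Raw n, Sm m ∧ (∃ C : ℝ, ∀ x, |m x| ≤ C) ∧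
    ∀ t : Multiset (Fin n), mD pd t m 0 = if s = t then 1 else 0 := by
  classical
  let χ : ContDiffBump (0 : Fin n → ℝ) := ⟨1, 2, one_pos, one_lt_two⟩
  choose c hc h using fun t : Multiset (Fin n) => mono_jet (n := n) t
  have hχ : Sm (χ : Raw n) := χ.contDiff
  have hM : Sm ((c s)⁻¹ • mono s : Raw n) := by
    have := ContDiff.const_smul (c s)⁻¹ (mono_smooth s)
    exact this
  refine ⟨χ * ((c s)⁻¹ • mono s), hχ.mul hM, ?_, fun t => ?_⟩
  · have hcs : HasCompactSupport ((χ : Raw n) * ((c s)⁻¹ • mono s : Raw n)) :=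
      χ.hasCompactSupport.mul_right
    obtain ⟨C, hC⟩ := hcs.exists_bound_of_continuous (hχ.mul hM).continuous
    exact ⟨C, fun x => by simpa using hC x⟩
  · have hU : IsOpen (Metric.ball (0 : Fin n → ℝ) 1) := Metric.isOpen_ball
    have h1 : EqOn ((χ : Raw n) * ((c s)⁻¹ • mono s : Raw n)) ((c s)⁻¹ • mono s : Raw n)
        (Metric.ball (0 : Fin n → ℝ) 1) := by
      intro x hx
      rw [Pi.mul_apply, χ.one_of_mem_closedBall (Metric.ball_subset_closedBall hx), one_mul]
    rw [mD_congr hU t h1 (Metric.mem_ball_self one_pos), mD_smul, Pi.smul_apply, h, smul_eq_mul]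
    by_cases hst : s = t
    · subst hst
      rw [if_pos rfl, if_pos rfl, inv_mul_cancel₀ (hc s)]
    · rw [if_neg hst, if_neg hst, mul_zero]

/-- positivity -/
lemma pos_of_small (e : Fin n → Fin n → ℝ) (η : ℝ) (hη : (n : ℝ) * η < 1) (hη0 : 0 ≤ η)
    (he : ∀ a b, |e a b| ≤ η) (y : Fin n → ℝ) (hy : y ≠ 0) :
    0 < ∑ a, ∑ b, ((if a = b then 1 else 0) + e a b) * (y a * y b) := by
  have h1 : (∑ a, ∑ b, ((if a = b then (1:ℝ) else 0) + e a b) * (y a * y b))
      = (∑ a, y a ^ 2) + ∑ a, ∑ b, e a b * (y a * y b) := by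
    rw [← Finset.sum_add_distrib]
    refine Finset.sum_congr rfl fun a _ => ?_
    simp only [add_mul, Finset.sum_add_distrib, ite_mul, one_mul, zero_mul, Finset.sum_ite_eq,
      Finset.mem_univ, if_true]
    ring
  have h2 : |∑ a, ∑ b, e a b * (y a * y b)| ≤ η * (∑ a, |y a|) ^ 2 := by
    calc |∑ a, ∑ b, e a b * (y a * y b)| ≤ ∑ a, |∑ b, e a b * (y a * y b)| :=
          Finset.abs_sum_le_sum_abs _ _
      _ ≤ ∑ a, ∑ b, |e a b * (y a * y b)| :=
          Finset.sum_le_sum fun a _ => Finset.abs_sum_le_sum_abs _ _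
      _ ≤ ∑ a, ∑ b, η * (|y a| * |y b|) := by
          refine Finset.sum_le_sum fun a _ => Finset.sum_le_sum fun b _ => ?_
          rw [abs_mul, abs_mul]
          exact mul_le_mul_of_nonneg_right (he a b) (by positivity)
      _ = η * (∑ a, |y a|) ^ 2 := by
          rw [sq, Finset.sum_mul_sum, Finset.mul_sum]
          exact Finset.sum_congr rfl fun a _ => by rw [Finset.mul_sum]
  have h3 : (∑ a, |y a|) ^ 2 ≤ n * ∑ a, y a ^ 2 := by
    have := sq_sum_le_card_mul_sum_sq (s := (Finset.univ : Finset (Fin n))) (f := fun a => |y a|)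
    simpa using this
  have h4 : 0 < ∑ a, y a ^ 2 := by
    obtain ⟨a, ha⟩ := Function.ne_iff.1 hy
    refine Finset.sum_pos' (fun i _ => sq_nonneg _) ⟨a, Finset.mem_univ a, ?_⟩
    have : y a ≠ 0 := ha
    positivity
  rw [h1]
  have h5 := abs_le.1 h2
  have h6 : η * (∑ a, |y a|) ^ 2 ≤ η * (n * ∑ a, y a ^ 2) := mul_le_mul_of_nonneg_left h3 hη0
  nlinarith [h5.1]

/-- the fields `g`, `f`, `v` -/
def fldv {A : Type} (g : Fin n → Fin n → A) (f v : A) : Option (Fld n) → A :=
  fun o => o.elim v (fld g f)

/-- density of the jets of smooth data -/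
theorem zariski (Z : MvPolynomial (Option (Fld n) × Multiset (Fin n)) ℝ)
    (h : ∀ (g : Fin n → Fin n → Raw n) (f v : Raw n), (∀ a b, Sm (g a b)) → Sm f → Sm v →
      (∀ a b, g a b = g b a) →
      (∀ x, ∀ y : Fin n → ℝ, y ≠ 0 → 0 < ∑ a, ∑ b, g a b x * (y a * y b)) → (∀ x, 0 < v x) →
      eval (jet0 (fldv g f v) 0) Z = 0) : Z = 0 := by
  classical
  choose m hm hC hj using fun s : Multiset (Fin n) => exists_mono s
  choose C hC using hC
  -- the finite set of multi-indices
  set F : Finset (Multiset (Fin n)) := Z.vars.image Prod.snd with hF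
  -- the bound
  set B : ℝ := ∑ s ∈ F, |C s| with hB
  have hB0 : 0 ≤ B := Finset.sum_nonneg fun s _ => abs_nonneg _
  set ε : ℝ := 1 / (((n : ℝ) + 1) * (B + 1)) with hε
  have hn1 : (0 : ℝ) < (n : ℝ) + 1 := by positivity
  have hε0 : 0 < ε := by positivity
  have hεB : ((n : ℝ) + 1) * (ε * B) < 1 := by
    rw [hε]
    have : ((n : ℝ) + 1) * (1 / (((n : ℝ) + 1) * (B + 1)) * B) = B / (B + 1) := by
      field_simp
    rw [this, div_lt_one (by positivity)]
    linarith
  -- the base values
  set base : Option (Fld n) → ℝ := fun o => o.elim 1 (fun o' => o'.elim 0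
    (fun s => if (Quot.out s).1 = (Quot.out s).2 then 1 else 0)) with hbase
  set S : Option (Fld n) × Multiset (Fin n) → Set ℝ :=
    fun v => (fun t => (if v.2 = 0 then base v.1 else 0) + t) '' Ioo 0 ε with hS
  have hSinf : ∀ v, (S v).Infinite := by
    intro v
    rw [hS]
    refine (Ioo_infinite hε0).image ?_
    intro a _ b _ hab
    simpa using hab
  refine MvPolynomial.funext_set S hSinf (fun x hx => ?_)
  rw [map_zero]
  -- the perturbation
  have hx' : ∀ v, ∃ t ∈ Ioo 0 ε, (if v.2 = 0 then base v.1 else 0) + t = x v := by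
    intro v
    have := hx v (mem_univ v)
    rw [hS] at this
    exact this
  choose b hb hbx using hx'
  -- the smooth fields
  set φ : Option (Fld n) → Raw n := fun o => (fun _ => base o) + ∑ s ∈ F, b (o, s) • m s with hφ
  have hsm : ∀ s (r : ℝ), Sm (r • m s) := by
    intro s r
    have := ContDiff.const_smul r (hm s)
    exact this
  have hφs : ∀ o, Sm (φ o) := by
    intro o
    exact ContDiff.add contDiff_const (Sm.sum F fun s => hsm s _)
  have hjet : ∀ v ∈ Z.vars, jet0 φ 0 v = x v := by
    intro v hv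
    have hvF : v.2 ∈ F := by
      rw [hF]
      exact Finset.mem_image_of_mem _ hv
    show mD pd v.2 (φ v.1) 0 = x v
    rw [hφ]
    simp only
    rw [mD_add contDiff_const (Sm.sum F fun s => hsm s _), mD_sum F (fun s => hsm s _)]
    simp_rw [mD_smul]
    rw [Pi.add_apply, Finset.sum_apply, ← hbx v, mD_const]
    congr 1
    · by_cases h0 : v.2 = 0
      · rw [if_pos h0, if_pos h0]
      · rw [if_neg h0, if_neg h0]; rfl
    · simp_rw [Pi.smul_apply, hj, smul_eq_mul, mul_ite, mul_one, mul_zero]
      rw [Finset.sum_ite_eq' F v.2, if_pos hvF]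
  have hsmall : ∀ o x, |(∑ s ∈ F, b (o, s) • m s) x| ≤ ε * B := by
    intro o x
    rw [Finset.sum_apply, hB, Finset.mul_sum]
    refine (Finset.abs_sum_le_sum_abs _ _).trans (Finset.sum_le_sum fun s _ => ?_)
    rw [Pi.smul_apply, smul_eq_mul, abs_mul]
    have h1 : |b (o, s)| ≤ ε := by
      rw [abs_of_pos (hb (o, s)).1]
      exact (hb (o, s)).2.le
    exact mul_le_mul h1 ((hC s x).trans (le_abs_self _)) (abs_nonneg _) hε0.le
  -- the metric
  set g : Fin n → Fin n → Raw n := fun a b => φ (some (some s(a, b))) with hg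
  have hsymm : ∀ a b, g a b = g b a := by
    intro a b
    rw [hg]
    simp only
    rw [Sym2.eq_swap]
  have hout : ∀ a b : Fin n, (if (Quot.out s(a, b)).1 = (Quot.out s(a, b)).2 then (1:ℝ) else 0)
      = if a = b then 1 else 0 := by
    intro a b
    have h : s((Quot.out s(a, b)).1, (Quot.out s(a, b)).2) = s(a, b) := Quot.out_eq (s(a, b))
    rw [Sym2.eq_iff] at h
    rcases h with ⟨h1, h2⟩ | ⟨h1, h2⟩
    · rw [h1, h2]
    · rw [h1, h2]
      by_cases hab : a = b
      · rw [if_pos hab, if_pos hab.symm]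
      · rw [if_neg hab, if_neg (Ne.symm hab)]
  have hpos : ∀ x, ∀ y : Fin n → ℝ, y ≠ 0 → 0 < ∑ a, ∑ b, g a b x * (y a * y b) := by
    intro x y hy
    have h1 := pos_of_small (fun a c => (∑ s ∈ F, b (some (some s(a, c)), s) • m s) x) (ε * B)
      (by nlinarith [mul_nonneg hε0.le hB0]) (mul_nonneg hε0.le hB0) (fun a c => hsmall _ x) y hy
    refine h1.trans_eq (Finset.sum_congr rfl fun a _ => Finset.sum_congr rfl fun c _ => ?_)
    rw [← hout a c]
    rfl
  have hv : ∀ x, 0 < φ none x := by
    intro x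
    have h1 := hsmall none x
    have h2 : φ none x = 1 + (∑ s ∈ F, b (none, s) • m s) x := rfl
    have h3 := abs_le.1 h1
    have h4 : ε * B < 1 := by nlinarith [mul_nonneg hε0.le hB0, (Nat.cast_nonneg n : (0:ℝ) ≤ n)]
    rw [h2]
    linarith [h3.1]
  have key := h g (φ (some none)) (φ none) (fun a b => hφs _) (hφs _) (hφs _) hsymm hpos hv
  have hfields : fldv g (φ (some none)) (φ none) = φ := by
    funext o
    rcases o with _ | o
    · rfl
    · rcases o with _ | s
      · rfl
      · induction s using Sym2.ind with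
        | _ a b =>
          show fld g (φ (some none)) (some s(a, b)) = _
          rw [fld_some g hsymm]
  rw [hfields] at key
  rw [← key]
  refine MvPolynomial.eval₂Hom_congr' rfl (fun v hv _ => (hjet v hv).symm) rfl

end

end GJMS
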